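import Pool.Agent.H8.FZ.Calc

/-!
# FZ-MOLL1: radial mollifiers, existence and derivatives

`exists_isMoll`: `κ(x) = c · Real.smoothTransition (1 - ‖x‖²/δ²)` (or `expNegInvGlue`), normalised.
`mol κ u = κ * u`. `mol_contDiff` etc.: differentiation under the integral / Mathlib's
`HasCompactSupport.contDiff_convolution_left`, `…hasFDerivAt_convolution_left`
(`mol κ u x = ∫ κ(x - y) u y`; convolution with `ContinuousLinearMap.lsmul`/`mul`).
`mol_tendsto`: `‖κ*u - u‖_2 → 0`: for continuous compactly supported `u` uniformly (with supports in a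
fixed compact set); density of such functions in `L²` (`MemLp.exists_hasCompactSupport_eLpNorm_sub_le`)
and `‖κ*u‖_2 ≤ ‖u‖_2` (Jensen/Cauchy-Schwarz: `|κ*u|² ≤ κ*|u|²` and Tonelli).
`mol_comm`: Fubini. `mol_holo`: if `g` is holomorphic on `ball z δ` (and locally integrable there),
then `mol κ g z = g z`: average over the rotations `y ↦ e^{iθ} y`, which preserve `κ` and the measure,
and the mean value property of `t ↦ g(z - t y)` on the circle
(`∫ κ(y) g(z-y) dy = ∫ κ(y) (1/2π)∫ g(z - e^{iθ}y) dθ dy = g(z) ∫κ`).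
-/

set_option autoImplicit false

noncomputable section

namespace Pool.Agent.H8.FZ

open Complex Metric MeasureTheory Set Filter Topology
open scoped ContDiff ComplexConjugate

variable {n : ℕ}

/-- A nonnegative smooth radial kernel of mass one supported in the ball of radius `δ`. -/
structure IsMoll (κ : En n → ℝ) (δ : ℝ) : Prop where
  pos : 0 < δ
  smooth : ContDiff ℝ ∞ κ
  nonneg : ∀ x, 0 ≤ κ x
  supp : ∀ x, δ ≤ ‖x‖ → κ x = 0
  mass : ∫ x, κ x = 1
  radial : ∀ x y : En n, ‖x‖ = ‖y‖ → κ x = κ y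

/-- Mollification. -/
def mol (κ : En n → ℝ) (u : En n → ℂ) (x : En n) : ℂ := ∫ y, (κ (x - y) : ℂ) * u y

theorem IsMoll.moll1_hcs {κ : En n → ℝ} {δ : ℝ} (hκ : IsMoll κ δ) :
    HasCompactSupport κ := by
  refine HasCompactSupport.intro (isCompact_closedBall (0 : En n) δ) fun x hx => hκ.supp x ?_
  rw [mem_closedBall_zero_iff, not_le] at hx
  exact hx.le

theorem exists_isMoll (n : ℕ) {δ : ℝ} (hδ : 0 < δ) : ∃ κ : En n → ℝ, IsMoll κ δ := by
  set κ₀ : En n → ℝ := fun x => Real.smoothTransition (1 - ‖x‖ ^ 2 / δ ^ 2) with hκ₀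
  have hδ2 : 0 < δ ^ 2 := by positivity
  have hsm : ContDiff ℝ ∞ κ₀ := by
    refine Real.smoothTransition.contDiff.comp ?_
    exact contDiff_const.sub ((contDiff_norm_sq ℂ).div_const _)
  have hnn : ∀ x, 0 ≤ κ₀ x := fun x => Real.smoothTransition.nonneg _
  have hsupp : ∀ x, δ ≤ ‖x‖ → κ₀ x = 0 := by
    intro x hx
    refine Real.smoothTransition.zero_of_nonpos ?_
    rw [sub_nonpos, one_le_div hδ2]
    exact pow_le_pow_left₀ hδ.le hx 2
  have hcs : HasCompactSupport κ₀ := by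
    refine HasCompactSupport.intro (isCompact_closedBall (0 : En n) δ) fun x hx => hsupp x ?_
    rw [mem_closedBall_zero_iff, not_le] at hx
    exact hx.le
  have h0 : κ₀ 0 ≠ 0 := by
    have h1 : κ₀ 0 = Real.smoothTransition 1 := by simp [hκ₀]
    rw [h1, Real.smoothTransition.one]
    exact one_ne_zero
  have hpos : 0 < ∫ x, κ₀ x :=
    hsm.continuous.integral_pos_of_hasCompactSupport_nonneg_nonzero hcs hnn h0
  refine ⟨fun x => κ₀ x / ∫ y, κ₀ y, hδ, hsm.div_const _, fun x => div_nonneg (hnn x) hpos.le,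
    fun x hx => by rw [hsupp x hx, zero_div], ?_, ?_⟩
  · rw [integral_div, div_self hpos.ne']
  · intro x y hxy
    simp only [hκ₀, hxy]

/-- The bilinear map in the convolution. -/
def moll1L : ℂ →L[ℝ] ℝ →L[ℝ] ℂ := (ContinuousLinearMap.lsmul ℝ ℝ : ℝ →L[ℝ] ℂ →L[ℝ] ℂ).flip

theorem moll1_molL_apply (a : ℂ) (b : ℝ) : moll1L a b = (b : ℂ) * a := by
  rw [moll1L, ContinuousLinearMap.flip_apply, ContinuousLinearMap.lsmul_apply, Complex.real_smul]

theorem moll1_mol_eq_conv (κ : En n → ℝ) (u : En n → ℂ) : mol κ u = MeasureTheory.convolution u κ moll1L volume := by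
  funext x
  rw [mol, convolution]
  refine integral_congr_ae (Eventually.of_forall fun y => ?_)
  show (κ (x - y) : ℂ) * u y = moll1L (u y) (κ (x - y))
  rw [moll1_molL_apply]

theorem mol_contDiff {κ : En n → ℝ} {δ : ℝ} (hκ : IsMoll κ δ) {u : En n → ℂ}
    (hu : LocallyIntegrable u) : ContDiff ℝ ∞ (mol κ u) := by
  rw [moll1_mol_eq_conv]
  exact hκ.moll1_hcs.contDiff_convolution_right moll1L hu hκ.smooth

theorem mol_zero {κ : En n → ℝ} {δ : ℝ} (hκ : IsMoll κ δ) {u : En n → ℂ} {K : Set (En n)}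
    (hu : ∀ x, x ∉ K → u x = 0) {x : En n} (hx : ∀ y ∈ K, δ ≤ ‖x - y‖) : mol κ u x = 0 := by
  rw [mol]
  refine integral_eq_zero_of_ae (Eventually.of_forall fun y => ?_)
  show (κ (x - y) : ℂ) * u y = 0
  by_cases hy : y ∈ K
  · rw [hκ.supp _ (hx y hy), Complex.ofReal_zero, zero_mul]
  · rw [hu y hy, mul_zero]

theorem moll1_mol_integrable_aux {κ : En n → ℝ} {δ : ℝ} (hκ : IsMoll κ δ) {u : En n → ℂ}
    (hu : LocallyIntegrable u) (x v : En n) :
    Integrable fun t => ((fderiv ℝ κ (x - t) v : ℝ) : ℂ) * u t := by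
  have hc : HasCompactSupport fun y => fderiv ℝ κ y v :=
    (hκ.moll1_hcs.fderiv (𝕜 := ℝ)).comp_left
      (g := fun A : En n →L[ℝ] ℝ => A v) (by simp)
  have hcont : Continuous fun y => fderiv ℝ κ y v :=
    (hκ.smooth.continuous_fderiv (by simp)).clm_apply continuous_const
  have h1 := (hc.convolutionExists_right moll1L hu hcont) x
  refine h1.congr (Eventually.of_forall fun t => ?_)
  show moll1L (u t) (fderiv ℝ κ (x - t) v) = _
  rw [moll1_molL_apply]

theorem moll1_fderiv_mol {κ : En n → ℝ} {δ : ℝ} (hκ : IsMoll κ δ) {u : En n → ℂ}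
    (hu : LocallyIntegrable u) (x v : En n) :
    fderiv ℝ (mol κ u) x v = ∫ t, ((fderiv ℝ κ (x - t) v : ℝ) : ℂ) * u t := by
  rw [moll1_mol_eq_conv]
  have h1 := hκ.moll1_hcs.hasFDerivAt_convolution_right moll1L hu
    (hκ.smooth.of_le (by simp)) x
  rw [h1.fderiv, convolution_precompR_apply moll1L hu (hκ.moll1_hcs.fderiv (𝕜 := ℝ))
    (hκ.smooth.continuous_fderiv (by simp)) x v, convolution]
  refine integral_congr_ae (Eventually.of_forall fun t => ?_)
  show moll1L (u t) (fderiv ℝ κ (x - t) v) = _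
  rw [moll1_molL_apply]

theorem moll1_fderiv_mol_kernel {κ : En n → ℝ} {δ : ℝ} (hκ : IsMoll κ δ) (x y v : En n) :
    fderiv ℝ (fun t => (κ (x - t) : ℂ)) y v = -((fderiv ℝ κ (x - y) v : ℝ) : ℂ) := by
  have h1 : HasFDerivAt κ (fderiv ℝ κ (x - y)) (x - y) :=
    (hκ.smooth.differentiable (by simp) (x - y)).hasFDerivAt
  have h2 : HasFDerivAt (fun t : En n => x - t) (-(ContinuousLinearMap.id ℝ (En n))) y :=
    (hasFDerivAt_id y).const_sub x
  have h3 := Complex.ofRealCLM.hasFDerivAt.comp y (h1.comp y h2)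
  have h4 : fderiv ℝ (fun t => (κ (x - t) : ℂ)) y = _ := h3.fderiv
  rw [h4]
  simp

theorem dbar_mol {κ : En n → ℝ} {δ : ℝ} (hκ : IsMoll κ δ) {u : En n → ℂ}
    (hu : LocallyIntegrable u) (j : Fin n) (x : En n) :
    dbar j (mol κ u) x = - ∫ y, dbar j (fun t => (κ (x - t) : ℂ)) y * u y := by
  rw [dbar, moll1_fderiv_mol hκ hu, moll1_fderiv_mol hκ hu, ← integral_const_mul,
    ← integral_add (moll1_mol_integrable_aux hκ hu x _) ((moll1_mol_integrable_aux hκ hu x _).const_mul I),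
    ← integral_const_mul, ← integral_neg]
  refine integral_congr_ae (Eventually.of_forall fun y => ?_)
  show _ = -(dbar j (fun t => (κ (x - t) : ℂ)) y * u y)
  rw [dbar, moll1_fderiv_mol_kernel hκ, moll1_fderiv_mol_kernel hκ]
  ring

theorem del_mol {κ : En n → ℝ} {δ : ℝ} (hκ : IsMoll κ δ) {u : En n → ℂ}
    (hu : LocallyIntegrable u) (j : Fin n) (x : En n) :
    del j (mol κ u) x = - ∫ y, del j (fun t => (κ (x - t) : ℂ)) y * u y := by
  rw [del, moll1_fderiv_mol hκ hu, moll1_fderiv_mol hκ hu, ← integral_const_mul,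
    ← integral_sub (moll1_mol_integrable_aux hκ hu x _) ((moll1_mol_integrable_aux hκ hu x _).const_mul I),
    ← integral_const_mul, ← integral_neg]
  refine integral_congr_ae (Eventually.of_forall fun y => ?_)
  show _ = -(del j (fun t => (κ (x - t) : ℂ)) y * u y)
  rw [del, moll1_fderiv_mol_kernel hκ, moll1_fderiv_mol_kernel hκ]
  ring

end Pool.Agent.H8.FZ
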