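import Pool.Agent.H8.FZ.Calc1

/-!
# FZ-CALC2: Wirtinger calculus on `ℂⁿ`, second order, supports, Levi form

Everything here is immediate from the definitions of `dbar`, `del` (`fderiv ℝ` in the directions
`e_k` and `i e_k`), the rules for `fderiv`, and for `dbar_comm` etc. the symmetry of the second
derivative (`ContDiffAt.isSymmSndFDerivAt`; note `fderiv ℝ (fun x => fderiv ℝ g x v) z w =
fderiv ℝ (fderiv ℝ g) z w v` for `g` of class `C²` at `z`).
-/

set_option autoImplicit false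

noncomputable section

namespace Pool.Agent.H8.FZ

open Complex Metric MeasureTheory Set Filter Topology
open scoped ContDiff ComplexConjugate

variable {n : ℕ}

theorem c2_diff {F : Type*} [NormedAddCommGroup F] [NormedSpace ℝ F] {g : En n → F} {z : En n}
    (hg : ContDiffAt ℝ 2 g z) : DifferentiableAt ℝ (fderiv ℝ g) z :=
  (hg.fderiv_right (m := 1) (by norm_num)).differentiableAt (by norm_num)

theorem c2_hasFDerivAt {F : Type*} [NormedAddCommGroup F] [NormedSpace ℝ F] {g : En n → F}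
    {z : En n} (hg : ContDiffAt ℝ 2 g z) (v : En n) :
    HasFDerivAt (fun x => fderiv ℝ g x v)
      ((ContinuousLinearMap.apply ℝ F v).comp (fderiv ℝ (fderiv ℝ g) z)) z :=
  (ContinuousLinearMap.apply ℝ F v).hasFDerivAt.comp z (c2_diff hg).hasFDerivAt

theorem c2_symm {F : Type*} [NormedAddCommGroup F] [NormedSpace ℝ F] {g : En n → F} {z : En n}
    (hg : ContDiffAt ℝ 2 g z) (v w : En n) :
    fderiv ℝ (fderiv ℝ g) z v w = fderiv ℝ (fderiv ℝ g) z w v :=
  (hg.isSymmSndFDerivAt (by simp)).eq v w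

theorem c2_fderiv_dbar {g : En n → ℂ} {z : En n} (hg : ContDiffAt ℝ 2 g z) (k : Fin n)
    (w : En n) : fderiv ℝ (dbar k g) z w = (1 / 2 : ℂ) *
      (fderiv ℝ (fderiv ℝ g) z w (eb k) + I * fderiv ℝ (fderiv ℝ g) z w (I • eb k)) := by
  have h1 := ((c2_hasFDerivAt hg (eb k)).add ((c2_hasFDerivAt hg (I • eb k)).const_mul I)).const_mul
    (1 / 2 : ℂ)
  have h2 : dbar k g = fun x => (1 / 2 : ℂ) *
      (((fun x => fderiv ℝ g x (eb k)) + fun x => I * fderiv ℝ g x (I • eb k)) x) := rfl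
  rw [h2, h1.fderiv]
  simp
  ring

theorem c2_fderiv_del {g : En n → ℂ} {z : En n} (hg : ContDiffAt ℝ 2 g z) (k : Fin n)
    (w : En n) : fderiv ℝ (del k g) z w = (1 / 2 : ℂ) *
      (fderiv ℝ (fderiv ℝ g) z w (eb k) - I * fderiv ℝ (fderiv ℝ g) z w (I • eb k)) := by
  have h1 := ((c2_hasFDerivAt hg (eb k)).sub ((c2_hasFDerivAt hg (I • eb k)).const_mul I)).const_mul
    (1 / 2 : ℂ)
  have h2 : del k g = fun x => (1 / 2 : ℂ) *
      (((fun x => fderiv ℝ g x (eb k)) - fun x => I * fderiv ℝ g x (I • eb k)) x) := rfl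
  rw [h2, h1.fderiv]
  simp

theorem c2_dbar_diff {g : En n → ℂ} {z : En n} (hg : ContDiffAt ℝ 2 g z) (k : Fin n) :
    DifferentiableAt ℝ (dbar k g) z := by
  have h1 := ((c2_hasFDerivAt hg (eb k)).add ((c2_hasFDerivAt hg (I • eb k)).const_mul I)).const_mul
    (1 / 2 : ℂ)
  exact h1.differentiableAt

theorem c2_del_diff {g : En n → ℂ} {z : En n} (hg : ContDiffAt ℝ 2 g z) (k : Fin n) :
    DifferentiableAt ℝ (del k g) z := by
  have h1 := ((c2_hasFDerivAt hg (eb k)).sub ((c2_hasFDerivAt hg (I • eb k)).const_mul I)).const_mul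
    (1 / 2 : ℂ)
  exact h1.differentiableAt

theorem dbar_comm {g : En n → ℂ} {z : En n} (hg : ContDiffAt ℝ 2 g z) (j k : Fin n) :
    dbar j (dbar k g) z = dbar k (dbar j g) z := by
  rw [dbar, dbar, c2_fderiv_dbar hg, c2_fderiv_dbar hg, c2_fderiv_dbar hg, c2_fderiv_dbar hg,
    c2_symm hg (eb j) (eb k), c2_symm hg (eb j) (I • eb k), c2_symm hg (I • eb j) (eb k),
    c2_symm hg (I • eb j) (I • eb k)]
  ring

theorem del_comm {g : En n → ℂ} {z : En n} (hg : ContDiffAt ℝ 2 g z) (j k : Fin n) :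
    del j (del k g) z = del k (del j g) z := by
  rw [del, del, c2_fderiv_del hg, c2_fderiv_del hg, c2_fderiv_del hg, c2_fderiv_del hg,
    c2_symm hg (eb j) (eb k), c2_symm hg (eb j) (I • eb k), c2_symm hg (I • eb j) (eb k),
    c2_symm hg (I • eb j) (I • eb k)]
  ring

theorem del_dbar_comm {g : En n → ℂ} {z : En n} (hg : ContDiffAt ℝ 2 g z) (j k : Fin n) :
    del j (dbar k g) z = dbar k (del j g) z := by
  rw [del, dbar, c2_fderiv_dbar hg, c2_fderiv_dbar hg, c2_fderiv_del hg, c2_fderiv_del hg,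
    c2_symm hg (eb j) (eb k), c2_symm hg (eb j) (I • eb k), c2_symm hg (I • eb j) (eb k),
    c2_symm hg (I • eb j) (I • eb k)]
  ring

theorem c2_norm_eb (k : Fin n) : ‖(eb k : En n)‖ = 1 := by
  simp [eb]

theorem c2_norm_Ieb (k : Fin n) : ‖(I • eb k : En n)‖ = 1 := by
  rw [norm_smul, c2_norm_eb, Complex.norm_I, one_mul]

theorem norm_dbar_le (g : En n → ℂ) (z : En n) (k : Fin n) : ‖dbar k g z‖ ≤ ‖fderiv ℝ g z‖ := by
  have h1 : ‖fderiv ℝ g z (eb k)‖ ≤ ‖fderiv ℝ g z‖ := by
    have := (fderiv ℝ g z).le_opNorm (eb k)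
    rwa [c2_norm_eb, mul_one] at this
  have h2 : ‖I * fderiv ℝ g z (I • eb k)‖ ≤ ‖fderiv ℝ g z‖ := by
    have := (fderiv ℝ g z).le_opNorm (I • eb k)
    rw [norm_mul, Complex.norm_I, one_mul]
    rwa [c2_norm_Ieb, mul_one] at this
  rw [dbar, norm_mul]
  have h3 := norm_add_le (fderiv ℝ g z (eb k)) (I * fderiv ℝ g z (I • eb k))
  have h4 : ‖(1 / 2 : ℂ)‖ = 1 / 2 := by norm_num
  rw [h4]
  linarith

theorem norm_del_le (g : En n → ℂ) (z : En n) (k : Fin n) : ‖del k g z‖ ≤ ‖fderiv ℝ g z‖ := by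
  have h1 : ‖fderiv ℝ g z (eb k)‖ ≤ ‖fderiv ℝ g z‖ := by
    have := (fderiv ℝ g z).le_opNorm (eb k)
    rwa [c2_norm_eb, mul_one] at this
  have h2 : ‖I * fderiv ℝ g z (I • eb k)‖ ≤ ‖fderiv ℝ g z‖ := by
    have := (fderiv ℝ g z).le_opNorm (I • eb k)
    rw [norm_mul, Complex.norm_I, one_mul]
    rwa [c2_norm_Ieb, mul_one] at this
  rw [del, norm_mul]
  have h3 := norm_sub_le (fderiv ℝ g z (eb k)) (I * fderiv ℝ g z (I • eb k))
  have h4 : ‖(1 / 2 : ℂ)‖ = 1 / 2 := by norm_num
  rw [h4]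
  linarith

theorem contDiff_dbar {g : En n → ℂ} (hg : ContDiff ℝ ∞ g) (k : Fin n) :
    ContDiff ℝ ∞ (dbar k g) := by
  have h1 : ContDiff ℝ ∞ (fderiv ℝ g) := hg.fderiv_right (by simp)
  exact contDiff_const.mul ((h1.clm_apply contDiff_const).add
    (contDiff_const.mul (h1.clm_apply contDiff_const)))

theorem contDiff_del {g : En n → ℂ} (hg : ContDiff ℝ ∞ g) (k : Fin n) :
    ContDiff ℝ ∞ (del k g) := by
  have h1 : ContDiff ℝ ∞ (fderiv ℝ g) := hg.fderiv_right (by simp)
  exact contDiff_const.mul ((h1.clm_apply contDiff_const).sub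
    (contDiff_const.mul (h1.clm_apply contDiff_const)))

theorem contDiffOn_dbar {g : En n → ℂ} {O : Set (En n)} (hO : IsOpen O)
    (hg : ContDiffOn ℝ ∞ g O) (k : Fin n) : ContDiffOn ℝ ∞ (dbar k g) O := by
  have h1 : ContDiffOn ℝ ∞ (fderiv ℝ g) O := hg.fderiv_of_isOpen hO (by simp)
  exact contDiffOn_const.mul ((h1.clm_apply contDiffOn_const).add
    (contDiffOn_const.mul (h1.clm_apply contDiffOn_const)))

theorem contDiffOn_del {g : En n → ℂ} {O : Set (En n)} (hO : IsOpen O)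
    (hg : ContDiffOn ℝ ∞ g O) (k : Fin n) : ContDiffOn ℝ ∞ (del k g) O := by
  have h1 : ContDiffOn ℝ ∞ (fderiv ℝ g) O := hg.fderiv_of_isOpen hO (by simp)
  exact contDiffOn_const.mul ((h1.clm_apply contDiffOn_const).sub
    (contDiffOn_const.mul (h1.clm_apply contDiffOn_const)))

theorem tsupport_dbar_subset (g : En n → ℂ) (k : Fin n) : tsupport (dbar k g) ⊆ tsupport g := by
  apply closure_minimal _ (isClosed_tsupport g)
  intro x hx
  apply support_fderiv_subset ℝ
  intro h0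
  apply hx
  have h0' : fderiv ℝ g x = 0 := h0
  rw [dbar, h0']
  simp

theorem tsupport_del_subset (g : En n → ℂ) (k : Fin n) : tsupport (del k g) ⊆ tsupport g := by
  apply closure_minimal _ (isClosed_tsupport g)
  intro x hx
  apply support_fderiv_subset ℝ
  intro h0
  apply hx
  have h0' : fderiv ℝ g x = 0 := h0
  rw [del, h0']
  simp

theorem norm_sq_eq (w : En n) : ((‖w‖ ^ 2 : ℝ) : ℂ) = ∑ j, w j * conj (w j) := by
  rw [EuclideanSpace.norm_sq_eq]
  push_cast
  refine Finset.sum_congr rfl fun j _ => ?_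
  rw [Complex.mul_conj, Complex.normSq_eq_norm_sq]
  push_cast
  rfl

theorem c2_coord (i : Fin n) (x : En n) : DifferentiableAt ℝ (fun x : En n => x i) x :=
  ((EuclideanSpace.proj i : En n →L[ℂ] ℂ).restrictScalars ℝ).differentiableAt

theorem c2_coord_conj (i : Fin n) (x : En n) :
    DifferentiableAt ℝ (fun x : En n => conj (x i)) x :=
  (Complex.conjCLE : ℂ →L[ℝ] ℂ).differentiableAt.comp x (c2_coord i x)

theorem c2_norm_sq_sub (z : En n) : (fun y : En n => ((‖y - z‖ ^ 2 : ℝ) : ℂ)) =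
    fun y => ∑ j, (y j - z j) * (conj (y j) - conj (z j)) := by
  funext y
  rw [norm_sq_eq]
  refine Finset.sum_congr rfl fun j _ => ?_
  rw [← map_sub]
  rfl

theorem dbar_norm_sq (z x : En n) (k : Fin n) :
    dbar k (fun y : En n => ((‖y - z‖ ^ 2 : ℝ) : ℂ)) x = x k - z k := by
  have h1 : ∀ j, DifferentiableAt ℝ (fun y : En n => y j - z j) x := fun j =>
    (c2_coord j x).fun_sub (differentiableAt_const _)
  have h2 : ∀ j, DifferentiableAt ℝ (fun y : En n => conj (y j) - conj (z j)) x := fun j =>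
    (c2_coord_conj j x).fun_sub (differentiableAt_const _)
  rw [c2_norm_sq_sub, dbar_sum _ (fun j _ => (h1 j).fun_mul (h2 j))]
  have h3 : ∀ j, dbar k (fun y : En n => (y j - z j) * (conj (y j) - conj (z j))) x =
      if k = j then x j - z j else 0 := by
    intro j
    rw [dbar_mul (h1 j) (h2 j), dbar_sub (c2_coord j x) (differentiableAt_const _),
      dbar_sub (c2_coord_conj j x) (differentiableAt_const _), dbar_coord, dbar_const,
      dbar_conj_coord, dbar_const]
    split_ifs <;> simp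
  simp only [h3]
  rw [Finset.sum_ite_eq, if_pos (Finset.mem_univ k)]

theorem c2_del_norm_sq (x : En n) (k : Fin n) :
    del k (fun y : En n => ((‖y‖ ^ 2 : ℝ) : ℂ)) x = conj (x k) := by
  have h0 : (fun y : En n => ((‖y‖ ^ 2 : ℝ) : ℂ)) = fun y => ∑ j, y j * conj (y j) := by
    funext y
    exact norm_sq_eq y
  rw [h0, del_sum _ (fun j _ => (c2_coord j x).fun_mul (c2_coord_conj j x))]
  have h3 : ∀ j, del k (fun y : En n => y j * conj (y j)) x =
      if k = j then conj (x j) else 0 := by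
    intro j
    rw [del_mul (c2_coord j x) (c2_coord_conj j x), del_coord, del_conj_coord]
    split_ifs <;> simp
  simp only [h3]
  rw [Finset.sum_ite_eq, if_pos (Finset.mem_univ k)]

theorem c2_ofReal {P : En n → ℝ} {z : En n} (hP : ContDiffAt ℝ 2 P z) :
    ContDiffAt ℝ 2 (fun x => (P x : ℂ)) z :=
  Complex.ofRealCLM.contDiff.contDiffAt.comp z hP

theorem c2_fderiv_ofReal {P : En n → ℝ} {x : En n} (hP : DifferentiableAt ℝ P x) :
    fderiv ℝ (fun x => (P x : ℂ)) x = Complex.ofRealCLM.comp (fderiv ℝ P x) :=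
  (Complex.ofRealCLM.hasFDerivAt.comp x hP.hasFDerivAt).fderiv

theorem c2_snd_ofReal {P : En n → ℝ} {z : En n} (hP : ContDiffAt ℝ 2 P z) (v w : En n) :
    fderiv ℝ (fderiv ℝ (fun x => (P x : ℂ))) z v w = ((fderiv ℝ (fderiv ℝ P) z v w : ℝ) : ℂ) := by
  have hev : (fderiv ℝ (fun x => (P x : ℂ))) =ᶠ[𝓝 z]
      fun x => Complex.ofRealCLM.comp (fderiv ℝ P x) := by
    have h1 : ∀ᶠ x in 𝓝 z, ContDiffAt ℝ 2 P x := hP.eventually (by simp)
    filter_upwards [h1] with x hx
    exact c2_fderiv_ofReal (hx.differentiableAt (by norm_num))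
  have h2 : HasFDerivAt (fun x => Complex.ofRealCLM.comp (fderiv ℝ P x))
      ((ContinuousLinearMap.compL ℝ (En n) ℝ ℂ Complex.ofRealCLM).comp
        (fderiv ℝ (fderiv ℝ P) z)) z :=
    (ContinuousLinearMap.compL ℝ (En n) ℝ ℂ Complex.ofRealCLM).hasFDerivAt.comp z
      (c2_diff hP).hasFDerivAt
  rw [hev.fderiv_eq, h2.fderiv]
  simp

/-- second derivatives in terms of the Wirtinger derivatives -/
theorem c2_expand {g : En n → ℂ} {z : En n} (hg : ContDiffAt ℝ 2 g z) (w : En n) :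
    fderiv ℝ (fderiv ℝ g) z w w =
      ∑ j, (fderiv ℝ (del j g) z w * w j + fderiv ℝ (dbar j g) z w * conj (w j)) := by
  have h1 : fderiv ℝ (fderiv ℝ g) z w w = fderiv ℝ (fun x => fderiv ℝ g x w) z w := by
    rw [(c2_hasFDerivAt hg w).fderiv]
    rfl
  have h2 : (fun x => fderiv ℝ g x w) =
      fun x => ∑ j, (del j g x * w j + dbar j g x * conj (w j)) := by
    funext x
    exact fderiv_eq_del_dbar g x w
  rw [h1, h2, fderiv_fun_sum (fun j _ => ((c2_del_diff hg j).mul_const _).fun_add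
    ((c2_dbar_diff hg j).mul_const _))]
  rw [_root_.sum_apply]
  refine Finset.sum_congr rfl fun j _ => ?_
  rw [fderiv_fun_add ((c2_del_diff hg j).mul_const _) ((c2_dbar_diff hg j).mul_const _),
    fderiv_mul_const (c2_del_diff hg j), fderiv_mul_const (c2_dbar_diff hg j)]
  simp [mul_comm]

/-- The Levi form in coordinates. -/
theorem levi_eq {P : En n → ℝ} {z : En n} (hP : ContDiffAt ℝ 2 P z) (w : En n) :
    ((levi P z w : ℝ) : ℂ) =
      ∑ j, ∑ k, dbar k (del j (fun x => (P x : ℂ))) z * w j * conj (w k) := by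
  have hg := c2_ofReal hP
  set g : En n → ℂ := fun x => (P x : ℂ) with hgdef
  have e : ∀ v : En n, ((fderiv ℝ (fderiv ℝ P) z v v : ℝ) : ℂ) =
      ∑ j, ∑ k, (del k (del j g) z * v k * v j + dbar k (del j g) z * conj (v k) * v j +
        del k (dbar j g) z * v k * conj (v j) + dbar k (dbar j g) z * conj (v k) * conj (v j)) := by
    intro v
    rw [← c2_snd_ofReal hP, c2_expand hg]
    refine Finset.sum_congr rfl fun j _ => ?_
    rw [fderiv_eq_del_dbar (del j g), fderiv_eq_del_dbar (dbar j g), Finset.sum_mul,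
      Finset.sum_mul, ← Finset.sum_add_distrib]
    refine Finset.sum_congr rfl fun k _ => ?_
    ring
  have hI : ∀ k, (I • w : En n) k = I * w k := fun k => rfl
  rw [levi]
  push_cast
  rw [e w, e (I • w)]
  have h1 : (∑ j, ∑ k, (del k (del j g) z * w k * w j + dbar k (del j g) z * conj (w k) * w j +
        del k (dbar j g) z * w k * conj (w j) + dbar k (dbar j g) z * conj (w k) * conj (w j))) +
      (∑ j, ∑ k, (del k (del j g) z * (I • w : En n) k * (I • w : En n) j +
        dbar k (del j g) z * conj ((I • w : En n) k) * (I • w : En n) j +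
        del k (dbar j g) z * (I • w : En n) k * conj ((I • w : En n) j) +
        dbar k (dbar j g) z * conj ((I • w : En n) k) * conj ((I • w : En n) j))) =
      (∑ j, ∑ k, 2 * (dbar k (del j g) z * w j * conj (w k))) +
        ∑ j, ∑ k, 2 * (del k (dbar j g) z * w k * conj (w j)) := by
    rw [← Finset.sum_add_distrib, ← Finset.sum_add_distrib]
    refine Finset.sum_congr rfl fun j _ => ?_
    rw [← Finset.sum_add_distrib, ← Finset.sum_add_distrib]
    refine Finset.sum_congr rfl fun k _ => ?_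
    rw [hI, hI, map_mul, map_mul, Complex.conj_I]
    have hI2 : I * I = -1 := Complex.I_mul_I
    linear_combination (del k (del j g) z * w k * w j - dbar k (del j g) z * conj (w k) * w j -
      del k (dbar j g) z * w k * conj (w j) +
      dbar k (dbar j g) z * conj (w k) * conj (w j)) * hI2
  have h2 : ∑ j, ∑ k, 2 * (del k (dbar j g) z * w k * conj (w j)) =
      ∑ j, ∑ k, 2 * (dbar k (del j g) z * w j * conj (w k)) := by
    rw [Finset.sum_comm]
    refine Finset.sum_congr rfl fun j _ => Finset.sum_congr rfl fun k _ => ?_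
    rw [del_dbar_comm hg]
  rw [h1, h2, ← two_mul]
  simp only [← Finset.mul_sum]
  ring

/-- The Levi form of a composition `g ∘ P`. -/
theorem levi_comp {P : En n → ℝ} {z : En n} (hP : ContDiffAt ℝ 2 P z) {g : ℝ → ℝ}
    (hg : ContDiffAt ℝ 2 g (P z)) (w : En n) :
    levi (fun x => g (P x)) z w = deriv g (P z) * levi P z w +
      deriv (deriv g) (P z) * (1 / 4) * (fderiv ℝ P z w ^ 2 + fderiv ℝ P z (I • w) ^ 2) := by
  have hPd : DifferentiableAt ℝ P z := hP.differentiableAt (by norm_num)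
  have hev : (fderiv ℝ (fun x => g (P x))) =ᶠ[𝓝 z] fun x => deriv g (P x) • fderiv ℝ P x := by
    have h1 : ∀ᶠ x in 𝓝 z, ContDiffAt ℝ 2 P x := hP.eventually (by simp)
    have h2 : ∀ᶠ x in 𝓝 z, ContDiffAt ℝ 2 g (P x) :=
      hP.continuousAt.eventually (hg.eventually (by simp))
    filter_upwards [h1, h2] with x hx hx'
    exact ((hx'.differentiableAt (by norm_num)).hasDerivAt.comp_hasFDerivAt x
      (hx.differentiableAt (by norm_num)).hasFDerivAt).fderiv
  have hg2 : DifferentiableAt ℝ (deriv g) (P z) := by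
    have h1 := (hg.fderiv_right (m := 1) (by norm_num)).differentiableAt (by norm_num)
    have h2 : deriv g = fun x => fderiv ℝ g x 1 := by
      funext x
      exact fderiv_apply_one_eq_deriv.symm
    rw [h2]
    exact (ContinuousLinearMap.apply ℝ ℝ (1 : ℝ)).differentiableAt.comp (P z) h1
  have hc : HasFDerivAt (fun x => deriv g (P x)) (deriv (deriv g) (P z) • fderiv ℝ P z) z :=
    hg2.hasDerivAt.comp_hasFDerivAt z hPd.hasFDerivAt
  have h3 := (hc.smul (c2_diff hP).hasFDerivAt).fderiv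
  have h4 : fderiv ℝ (fun x => deriv g (P x) • fderiv ℝ P x) z = _ := h3
  rw [levi, levi, hev.fderiv_eq, h4]
  simp
  ring

theorem levi_add {P P' : En n → ℝ} {z : En n} (hP : ContDiffAt ℝ 2 P z)
    (hP' : ContDiffAt ℝ 2 P' z) (w : En n) :
    levi (fun x => P x + P' x) z w = levi P z w + levi P' z w := by
  have hev : (fderiv ℝ (fun x => P x + P' x)) =ᶠ[𝓝 z] fun x => fderiv ℝ P x + fderiv ℝ P' x := by
    have h1 : ∀ᶠ x in 𝓝 z, ContDiffAt ℝ 2 P x := hP.eventually (by simp)
    have h2 : ∀ᶠ x in 𝓝 z, ContDiffAt ℝ 2 P' x := hP'.eventually (by simp)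
    filter_upwards [h1, h2] with x hx hx'
    exact fderiv_fun_add (hx.differentiableAt (by norm_num)) (hx'.differentiableAt (by norm_num))
  rw [levi, levi, levi, hev.fderiv_eq, fderiv_fun_add (c2_diff hP) (c2_diff hP')]
  simp only [_root_.add_apply]
  ring

theorem levi_norm_sq (z w : En n) : levi (fun x : En n => ‖x‖ ^ 2) z w = ‖w‖ ^ 2 := by
  have h1 : ContDiffAt ℝ 2 (fun x : En n => ‖x‖ ^ 2) z := (contDiff_norm_sq ℂ).contDiffAt
  have h2 := levi_eq h1 w
  have h3 : ∀ j, del j (fun x : En n => ((‖x‖ ^ 2 : ℝ) : ℂ)) = fun x => conj (x j) := by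
    intro j
    funext x
    exact c2_del_norm_sq x j
  simp only [h3, dbar_conj_coord] at h2
  have h4 : ∑ j, ∑ k, (if k = j then (1 : ℂ) else 0) * w j * conj (w k) =
      ((‖w‖ ^ 2 : ℝ) : ℂ) := by
    rw [norm_sq_eq]
    refine Finset.sum_congr rfl fun j _ => ?_
    simp [ite_mul]
  rw [h4] at h2
  exact_mod_cast h2

end Pool.Agent.H8.FZ
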