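import Pool.Agent.H8.FZ.LBasic1
import Pool.Agent.H8.FZ.Calc

/-!
# FZ-LBASIC2: elementary geometry of the local data, part 2

All statements are about `D : LData n`. Notation: `B = ball 0 ε`, `a = -r`, `w = ζ - z`.

* `pr_q`: pure algebra: expand `w = ∑ w_j e_j` (over `ℂ`; so `w = ∑ (re w_j) e_j + (im w_j) (i e_j)`)
  and use `ℝ`-linearity of `fderiv ℝ r ζ`.
* `norm_pr_q_le`: `‖fderiv r ζ w - i fderiv r ζ (iw)‖ ≤ 2 C ‖w‖`.
* `norm_pr_q_sub_le`: mean value inequality for `fderiv ℝ r` on the convex set `B` with `b2`.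
* `r_lower`, `r_upper`: second order Taylor formula on the segment `[ζ,z] ⊆ B` (apply the one
  variable statement to `t ↦ r (ζ + t (z - ζ))`, whose second derivative is
  `D²r(z-ζ,z-ζ) ∈ [c‖z-ζ‖², C‖z-ζ‖²]`).
* `re_L_ge`: `re L = 2a(ζ) + dr_ζ(ζ-z)` and `r_lower`: `r z ≥ r ζ - dr_ζ(ζ - z) + (c/2)‖w‖²`.
* `norm_L_ge`: `re_L_ge` gives `‖L‖ ≥ a ζ + a z + (c/2)‖w‖²`; moreover
  `‖L‖ ≥ ‖pr (q ζ) w‖ - 2 a ζ ≥ ‖pr (q z) w‖ - 2C‖w‖² - 2 a ζ`; combine.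
* `norm_L_le`: `|a| ≤ 1`, `‖w‖ ≤ 2`.
* `convex_S`: by `r_lower` (or monotonicity of the derivative along segments) `r` is convex on `B`.
* `exists_nu`: `ν ζ = (∑ |q_j|²)⁻¹ (conj q_j)_j`; `|dr_ζ(w)| ≤ ‖pr (q ζ) w‖ ≤ (∑|q_j|²)^{1/2} ‖w‖`
  and `grad` give `∑ |q_j|² ≥ c²`; Lipschitz from `norm_pr_q_sub_le` (or `b2`).
-/

set_option autoImplicit false

noncomputable section

namespace Pool.Agent.H8.FZ

open Complex Metric MeasureTheory Set Filter Topology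
open scoped ContDiff ComplexConjugate

variable {n : ℕ}

theorem contDiff_det {M : En n → Matrix (Fin n) (Fin n) ℂ}
    (h : ∀ i j, ContDiff ℝ ∞ (fun x => M x i j)) : ContDiff ℝ ∞ (fun x => (M x).det) := by
  have h1 : (fun x => (M x).det) =
      fun x => ∑ σ : Equiv.Perm (Fin n), ((Equiv.Perm.sign σ : ℤ) : ℂ) * ∏ i, M x (σ i) i := by
    ext x
    rw [Matrix.det_apply']
  rw [h1]
  refine ContDiff.sum fun σ _ => contDiff_const.mul ?_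
  exact contDiff_prod fun i _ => h (σ i) i

/-- the inversion is Lipschitz away from the origin -/
theorem norm_inv_sub_le {E : Type*} [NormedAddCommGroup E] [NormedSpace ℝ E] {c : ℝ} (hc : 0 < c)
    {x y : E} (hx : c ≤ ‖x‖) (hy : c ≤ ‖y‖) :
    ‖(‖x‖ ^ 2)⁻¹ • x - (‖y‖ ^ 2)⁻¹ • y‖ ≤ 3 / c ^ 2 * ‖x - y‖ := by
  have hx0 : 0 < ‖x‖ := hc.trans_le hx
  have hy0 : 0 < ‖y‖ := hc.trans_le hy
  have h1 : (‖x‖ ^ 2)⁻¹ • x - (‖y‖ ^ 2)⁻¹ • y =
      (‖x‖ ^ 2)⁻¹ • (x - y) + ((‖x‖ ^ 2)⁻¹ - (‖y‖ ^ 2)⁻¹) • y := by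
    rw [smul_sub, sub_smul]
    abel
  have h2 : ‖(‖x‖ ^ 2)⁻¹ • (x - y)‖ ≤ 1 / c ^ 2 * ‖x - y‖ := by
    rw [norm_smul, norm_inv, norm_pow, norm_norm, one_div]
    gcongr
  have h3 : ‖((‖x‖ ^ 2)⁻¹ - (‖y‖ ^ 2)⁻¹) • y‖ ≤ 2 / c ^ 2 * ‖x - y‖ := by
    rw [norm_smul, Real.norm_eq_abs]
    have h4 : ((‖x‖ ^ 2)⁻¹ - (‖y‖ ^ 2)⁻¹) = (‖y‖ - ‖x‖) * ((‖y‖ + ‖x‖) / (‖x‖ ^ 2 * ‖y‖ ^ 2)) := by
      field_simp
      ring
    have h5 : |‖y‖ - ‖x‖| ≤ ‖x - y‖ := by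
      rw [abs_sub_comm]
      exact abs_norm_sub_norm_le x y
    have h6 : 0 ≤ (‖y‖ + ‖x‖) / (‖x‖ ^ 2 * ‖y‖ ^ 2) := by positivity
    rw [h4, abs_mul, abs_of_nonneg h6, mul_assoc, mul_comm]
    refine mul_le_mul_of_nonneg_right ?_ (abs_nonneg _) |>.trans
      (mul_le_mul_of_nonneg_left h5 (by positivity))
    have h7 : (‖y‖ + ‖x‖) / (‖x‖ ^ 2 * ‖y‖ ^ 2) * ‖y‖ = 1 / ‖x‖ ^ 2 + 1 / (‖x‖ * ‖y‖) := by
      field_simp
    rw [h7]
    have h8 : 1 / ‖x‖ ^ 2 ≤ 1 / c ^ 2 := by gcongr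
    have h9 : 1 / (‖x‖ * ‖y‖) ≤ 1 / c ^ 2 := by
      rw [sq]
      gcongr
    have h10 : 2 / c ^ 2 = 1 / c ^ 2 + 1 / c ^ 2 := by ring
    rw [h10]
    exact add_le_add h8 h9
  rw [h1]
  calc _ ≤ ‖(‖x‖ ^ 2)⁻¹ • (x - y)‖ + ‖((‖x‖ ^ 2)⁻¹ - (‖y‖ ^ 2)⁻¹) • y‖ := norm_add_le _ _
    _ ≤ 1 / c ^ 2 * ‖x - y‖ + 2 / c ^ 2 * ‖x - y‖ := add_le_add h2 h3
    _ = 3 / c ^ 2 * ‖x - y‖ := by ring

/-- the conjugate vector of a covector -/
def cvec (v : Fin n → ℂ) : En n := WithLp.toLp 2 fun j => conj (v j)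

theorem cvec_apply (v : Fin n → ℂ) (j : Fin n) : cvec v j = conj (v j) := rfl

theorem pr_cvec (v : Fin n → ℂ) : pr v (cvec v) = ((‖cvec v‖ ^ 2 : ℝ) : ℂ) := by
  rw [EuclideanSpace.norm_sq_eq, pr]
  push_cast
  refine Finset.sum_congr rfl fun j _ => ?_
  rw [cvec_apply, Complex.mul_conj, Complex.normSq_eq_norm_sq, RCLike.norm_conj]
  push_cast
  rfl

theorem pr_smul (v : Fin n → ℂ) (c : ℂ) (w : En n) : pr v (c • w) = c * pr v w := by
  rw [pr, pr, Finset.mul_sum]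
  refine Finset.sum_congr rfl fun j _ => ?_
  rw [PiLp.smul_apply, smul_eq_mul]
  ring

theorem norm_cvec_le {v : Fin n → ℂ} {M : ℝ} (hM : ‖pr v (cvec v)‖ ≤ M * ‖cvec v‖)
    (hM0 : 0 ≤ M) : ‖cvec v‖ ≤ M := by
  rw [pr_cvec, Complex.norm_real, Real.norm_eq_abs, abs_of_nonneg (by positivity)] at hM
  by_contra h
  push Not at h
  have h1 : 0 < ‖cvec v‖ := hM0.trans_lt h
  nlinarith

theorem norm_pr_le (v : Fin n → ℂ) (w : En n) : ‖pr v w‖ ≤ ‖cvec v‖ * ‖w‖ := by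
  have h1 : pr v w = inner ℂ (cvec v) w := by
    rw [PiLp.inner_apply, pr]
    refine Finset.sum_congr rfl fun j _ => ?_
    rw [cvec_apply, RCLike.inner_apply, RingHomCompTriple.comp_apply, RingHom.id_apply, mul_comm]
  rw [h1]
  exact norm_inner_le_norm _ _

namespace LData

variable (D : LData n)

theorem isOpen_S : IsOpen D.S :=
  isOpen_ball.inter (isOpen_lt D.hr.continuous continuous_const)

/-- the gradient bound for the conjugate vector of `q` -/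
theorem le_norm_cvec {ζ : En n} (hζ : ζ ∈ ball (0 : En n) D.ε) : D.c ≤ ‖cvec (D.q ζ)‖ := by
  refine (D.grad ζ hζ).trans (ContinuousLinearMap.opNorm_le_bound _ (norm_nonneg _) fun w => ?_)
  rw [← D.re_pr_q, Real.norm_eq_abs]
  exact (Complex.abs_re_le_norm _).trans (norm_pr_le _ _)

theorem convex_S : Convex ℝ D.S := by
  intro x hx y hy α β hα hβ hαβ
  have hp : α • x + β • y ∈ ball (0 : En n) D.ε := convex_ball (0 : En n) D.ε hx.1 hy.1 hα hβ hαβ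
  refine ⟨hp, ?_⟩
  set p := α • x + β • y with hpdef
  have h1 := D.r_lower hp hx.1
  have h2 := D.r_lower hp hy.1
  have hc := D.hc
  have h3 : 0 ≤ D.c / 2 * ‖x - p‖ ^ 2 := by positivity
  have h4 : 0 ≤ D.c / 2 * ‖y - p‖ ^ 2 := by positivity
  have h5 : α * fderiv ℝ D.r p (x - p) + β * fderiv ℝ D.r p (y - p) = 0 := by
    have h6 : α • (x - p) + β • (y - p) = 0 := by
      have h7 : α • (x - p) + β • (y - p) = (α • x + β • y) - (α + β) • p := by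
        rw [smul_sub, smul_sub, add_smul]
        abel
      rw [h7, hαβ, one_smul, ← hpdef, sub_self]
    have h7 := congrArg (fderiv ℝ D.r p) h6
    rw [map_add, (fderiv ℝ D.r p).map_smul, (fderiv ℝ D.r p).map_smul, map_zero, smul_eq_mul,
      smul_eq_mul] at h7
    exact h7
  have h6 : D.r p + fderiv ℝ D.r p (x - p) ≤ D.r x := by linarith
  have h7 : D.r p + fderiv ℝ D.r p (y - p) ≤ D.r y := by linarith
  have h8 := mul_le_mul_of_nonneg_left h6 hα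
  have h9 := mul_le_mul_of_nonneg_left h7 hβ
  have h10 : α * D.r p + β * D.r p = D.r p := by rw [← add_mul, hαβ, one_mul]
  have h11 : D.r p ≤ α * D.r x + β * D.r y := by linarith
  have h12 : D.r x < 0 := hx.2
  have h13 : D.r y < 0 := hy.2
  rcases hα.eq_or_lt with h0 | h0
  · have : β = 1 := by linarith
    rw [← h0, this] at h11
    linarith
  · have h14 : α * D.r x < 0 := mul_neg_of_pos_of_neg h0 h12
    have h15 : β * D.r y ≤ 0 := mul_nonpos_of_nonneg_of_nonpos hβ h13.le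
    linarith

theorem exists_nu : ∃ (ν : En n → En n) (Cν : ℝ), 1 ≤ Cν ∧
    (∀ ζ ∈ ball (0 : En n) D.ε, pr (D.q ζ) (ν ζ) = 1 ∧ ‖ν ζ‖ ≤ Cν) ∧
    (∀ ζ ∈ ball (0 : En n) D.ε, ∀ ζ' ∈ ball (0 : En n) D.ε, ‖ν ζ - ν ζ'‖ ≤ Cν * ‖ζ - ζ'‖) := by
  have hc := D.hc
  have hc1 := D.hc1
  have hC := D.hC
  have hCν : 1 / D.c ≤ 3 / D.c ^ 2 * (2 * D.C) := by
    rw [div_mul_eq_mul_div, div_le_div_iff₀ hc (by positivity)]
    nlinarith
  have h1c : 1 ≤ 1 / D.c := by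
    rw [le_div_iff₀ hc]
    linarith
  refine ⟨fun ζ => (‖cvec (D.q ζ)‖ ^ 2)⁻¹ • cvec (D.q ζ), 3 / D.c ^ 2 * (2 * D.C),
    h1c.trans hCν, fun ζ hζ => ⟨?_, ?_⟩, fun ζ hζ ζ' hζ' => ?_⟩
  · have h1 : (‖cvec (D.q ζ)‖ ^ 2)⁻¹ • cvec (D.q ζ) =
        (((‖cvec (D.q ζ)‖ ^ 2)⁻¹ : ℝ) : ℂ) • cvec (D.q ζ) := by
      rw [Complex.coe_smul]
    have h2 : 0 < ‖cvec (D.q ζ)‖ := hc.trans_le (D.le_norm_cvec hζ)
    show pr (D.q ζ) ((‖cvec (D.q ζ)‖ ^ 2)⁻¹ • cvec (D.q ζ)) = 1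
    rw [h1, pr_smul, pr_cvec, ← Complex.ofReal_mul, inv_mul_cancel₀ (by positivity),
      Complex.ofReal_one]
  · have h2 := D.le_norm_cvec hζ
    have h3 : 0 < ‖cvec (D.q ζ)‖ := hc.trans_le h2
    refine le_trans ?_ hCν
    show ‖(‖cvec (D.q ζ)‖ ^ 2)⁻¹ • cvec (D.q ζ)‖ ≤ 1 / D.c
    rw [norm_smul, norm_inv, norm_pow, norm_norm]
    have h4 : (‖cvec (D.q ζ)‖ ^ 2)⁻¹ * ‖cvec (D.q ζ)‖ = 1 / ‖cvec (D.q ζ)‖ := by
      field_simp
    rw [h4]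
    gcongr
  · refine (norm_inv_sub_le hc (D.le_norm_cvec hζ) (D.le_norm_cvec hζ')).trans ?_
    rw [mul_assoc]
    refine mul_le_mul_of_nonneg_left ?_ (by positivity)
    have h1 : cvec (D.q ζ) - cvec (D.q ζ') = cvec (fun j => D.q ζ j - D.q ζ' j) := by
      ext j
      simp [cvec_apply]
    rw [h1]
    refine norm_cvec_le ?_ (by positivity)
    have h2 : ∀ w, pr (fun j => D.q ζ j - D.q ζ' j) w = pr (D.q ζ) w - pr (D.q ζ') w := by
      intro w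
      rw [pr, pr, pr, ← Finset.sum_sub_distrib]
      exact Finset.sum_congr rfl fun j _ => by ring
    rw [h2]
    exact D.norm_pr_q_sub_le hζ hζ' _

/-- Some coordinate of `q` is bounded below. -/
theorem exists_q_ge : ∃ κ : ℝ, 0 < κ ∧ ∀ ζ ∈ ball (0 : En n) D.ε, ∃ j, κ ≤ ‖D.q ζ j‖ := by
  have hc := D.hc
  refine ⟨D.c / (n + 1), by positivity, fun ζ hζ => ?_⟩
  by_contra h
  push Not at h
  have h1 : ‖cvec (D.q ζ)‖ ≤ ∑ j, ‖D.q ζ j‖ := by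
    refine norm_cvec_le ?_ (Finset.sum_nonneg fun j _ => norm_nonneg _)
    rw [Finset.sum_mul]
    refine (norm_sum_le _ _).trans (Finset.sum_le_sum fun j _ => ?_)
    rw [norm_mul]
    exact mul_le_mul_of_nonneg_left (PiLp.norm_apply_le _ j) (norm_nonneg _)
  have h2 : ∑ j : Fin n, ‖D.q ζ j‖ ≤ ∑ _j : Fin n, D.c / (n + 1) :=
    Finset.sum_le_sum fun j _ => (h j).le
  rw [Finset.sum_const, Finset.card_univ, Fintype.card_fin, nsmul_eq_mul] at h2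
  have h3 := D.le_norm_cvec hζ
  have h4 : (n : ℝ) * (D.c / (n + 1)) < D.c := by
    rw [mul_div_assoc', div_lt_iff₀ (by positivity)]
    nlinarith
  linarith

theorem contDiff_a : ContDiff ℝ ∞ D.a := D.hr.neg

theorem contDiff_ofReal {E : Type*} [NormedAddCommGroup E] [NormedSpace ℝ E] {g : E → ℝ}
    (hg : ContDiff ℝ ∞ g) : ContDiff ℝ ∞ (fun x => (g x : ℂ)) :=
  Complex.ofRealCLM.contDiff.comp hg

theorem contDiff_q (j : Fin n) : ContDiff ℝ ∞ (fun ζ => D.q ζ j) := by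
  have h1 : ContDiff ℝ ∞ (fderiv ℝ D.r) := D.hr.fderiv_right (m := ∞) (by simp)
  exact (contDiff_ofReal (h1.clm_apply contDiff_const)).sub
    (contDiff_const.mul (contDiff_ofReal (h1.clm_apply contDiff_const)))

/-- `L` is jointly smooth. -/
theorem contDiff_L : ContDiff ℝ ∞ (fun x : En n × En n => D.L x.1 x.2) := by
  have h1 : ContDiff ℝ ∞ (fun x : En n × En n => ((2 * D.a x.1 : ℝ) : ℂ)) :=
    contDiff_ofReal (contDiff_const.mul (D.contDiff_a.comp contDiff_fst))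
  refine h1.add (ContDiff.sum fun j _ => ((D.contDiff_q j).comp contDiff_fst).mul ?_)
  have h2 : ContDiff ℝ ∞ (fun x : En n => x j) :=
    ((EuclideanSpace.proj j : En n →L[ℂ] ℂ).restrictScalars ℝ).contDiff
  exact h2.comp (contDiff_fst.sub contDiff_snd)

theorem contDiff_Delta : ContDiff ℝ ∞ D.Delta := by
  have h1 : ContDiff ℝ ∞ (fun x => ((2 * D.a x : ℝ) : ℂ)) :=
    contDiff_ofReal (contDiff_const.mul D.contDiff_a)
  have h2 : ∀ i j, ContDiff ℝ ∞ (fun x => D.Jq x i j) := fun i j =>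
    contDiff_dbar (D.contDiff_q i) j
  refine (h1.mul (contDiff_det h2)).sub (ContDiff.sum fun k _ =>
    (contDiff_dbar h1 k).mul (contDiff_det fun i j => ?_))
  by_cases hj : j = k
  · have h3 : (fun x => (D.Jq x).updateCol k (D.q x) i j) = fun x => D.q x i := by
      ext x
      rw [Matrix.updateCol_apply, if_pos hj]
    rw [h3]
    exact D.contDiff_q i
  · have h3 : (fun x => (D.Jq x).updateCol k (D.q x) i j) = fun x => D.Jq x i j := by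
      ext x
      rw [Matrix.updateCol_apply, if_neg hj]
    rw [h3]
    exact h2 i j

/-- `L ζ ·` is complex affine. -/
theorem L_sub (ζ z z' : En n) : D.L ζ z - D.L ζ z' = pr (D.q ζ) (z' - z) := by
  rw [L, L, add_sub_add_left_eq_sub, pr, pr, pr, ← Finset.sum_sub_distrib]
  refine Finset.sum_congr rfl fun j _ => ?_
  simp only [PiLp.sub_apply]
  ring

end LData

end Pool.Agent.H8.FZ
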