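import Pool.Agent.H8.FZ.Calc
import Pool.Agent.H8.FZ.LBasic

/-!
# FZ-DELTA: at `κ = 0` the kernel is `K`

For `ζ ∈ S` and `s = 2a`: `∂̄_k(q_j/s) = ∂̄_k q_j/s - q_j ∂̄_k s/s²`, so
`det(∂̄Q) = s^{-n} det(M - s^{-1} q ⊗ ∂̄s)` with `M = Jq`, and the determinant of a rank one
perturbation is `det M - s^{-1} ∑_k ∂̄_k s det(M with column k replaced by q)` (expand by
multilinearity in the columns: terms with two columns proportional to `q` vanish; or
`Matrix.det_add_replicateCol_mul_replicateRow`-type lemmas in adjugate form together with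
`Matrix.cramer`). So `det(∂̄Q) = Δ/s^{n+1}`, and `A = L/s`, hence
`A^{-m} det = s^m L^{-m} Δ s^{-n-1} = K`.
`Jof D.Qv 0 = (∂̄_k Q_j)`, `Aof D.Qv z 0 ζ = 1 + ⟨q,ζ - z⟩/s = L/s`.
-/

set_option autoImplicit false

noncomputable section

namespace Pool.Agent.H8.FZ

open Complex Metric MeasureTheory Set Filter Topology
open scoped ContDiff ComplexConjugate

variable {n : ℕ}

private theorem det_rank_one_aux (M : Matrix (Fin n) (Fin n) ℂ) (u v : Fin n → ℂ)
    (s : Finset (Fin n)) :
    (Matrix.of fun i j => if j ∈ s then M i j - u i * v j else M i j).det =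
      M.det - ∑ k ∈ s, v k * (M.updateCol k u).det := by
  classical
  induction s using Finset.induction_on with
  | empty =>
    simp only [Finset.notMem_empty, if_false, Finset.sum_empty, sub_zero]
    rfl
  | insert k s hk ih =>
    set Ms : Matrix (Fin n) (Fin n) ℂ :=
      Matrix.of fun i j => if j ∈ s then M i j - u i * v j else M i j with hMs
    have h1 : (Matrix.of fun i j => if j ∈ insert k s then M i j - u i * v j else M i j) =
        Ms.updateCol k ((fun i => Ms i k) + (-v k) • u) := by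
      ext i j
      rw [Matrix.updateCol_apply]
      by_cases hj : j = k
      · subst hj
        simp only [Matrix.of_apply, Finset.mem_insert, true_or, if_true, Pi.add_apply,
          Pi.smul_apply, smul_eq_mul, hMs, hk, if_false]
        ring
      · simp only [Matrix.of_apply, Finset.mem_insert, hj, false_or, if_false, hMs]
    rw [h1, Matrix.det_updateCol_add, Matrix.det_updateCol_smul]
    have h2 : Ms.updateCol k (fun i => Ms i k) = Ms := by
      ext i j
      rw [Matrix.updateCol_apply]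
      split_ifs with hj
      · rw [hj]
      · rfl
    have h3 : (Ms.updateCol k u).det = (M.updateCol k u).det := by
      rw [← Matrix.det_transpose, ← Matrix.det_transpose (M.updateCol k u)]
      refine Matrix.det_eq_of_forall_row_eq_smul_add_const
        (fun j => if j ∈ s then -v j else 0) k (by simp [hk]) ?_
      intro j i
      simp only [Matrix.transpose_apply, Matrix.updateCol_apply, if_true]
      by_cases hj : j = k
      · subst hj
        simp [hk]
      · simp only [hj, if_false, hMs, Matrix.of_apply]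
        split_ifs with hjs
        · ring
        · ring
    rw [h2, h3, ih, Finset.sum_insert hk]
    ring

/-- Determinant of a rank one perturbation in the form we need. -/
theorem det_rank_one (M : Matrix (Fin n) (Fin n) ℂ) (u v : Fin n → ℂ) :
    (Matrix.of fun i j => M i j - u i * v j).det = M.det - ∑ k, v k * (M.updateCol k u).det := by
  have h := det_rank_one_aux M u v Finset.univ
  simpa using h

namespace LData

variable (D : LData n)

private theorem s_ne_zero {ζ : En n} (hζ : ζ ∈ D.S) : ((2 * D.a ζ : ℝ) : ℂ) ≠ 0 := by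
  have h : D.r ζ < 0 := hζ.2
  rw [Ne, Complex.ofReal_eq_zero]
  have : D.a ζ = -D.r ζ := rfl
  rw [this]
  linarith

theorem Aof_eq {ζ : En n} (hζ : ζ ∈ D.S) (z : En n) (κ : ℝ) :
    Aof D.Qv z κ ζ = D.L ζ z / ((2 * D.a ζ : ℝ) : ℂ) + ((κ * ‖ζ - z‖ ^ 2 : ℝ) : ℂ) := by
  have hs := D.s_ne_zero hζ
  unfold Aof L pr Qv
  rw [add_div, div_self hs, Finset.sum_div]
  congr 2
  exact Finset.sum_congr rfl fun j _ => by ring

theorem Kof_zero {ζ : En n} (hζ : ζ ∈ D.S) (z : En n) :
    Kof D.Qv (mm n) z 0 ζ = D.K ζ z := by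
  have hs := D.s_ne_zero hζ
  set σ : ℂ := ((2 * D.a ζ : ℝ) : ℂ) with hσ
  have hsd : DifferentiableAt ℝ (fun x => ((2 * D.a x : ℝ) : ℂ)) ζ := by
    have h1 : DifferentiableAt ℝ (fun x => (2 * D.a x : ℝ)) ζ :=
      ((D.contDiff_a.differentiable (by simp)) ζ).const_mul 2
    exact Complex.ofRealCLM.differentiableAt.comp ζ h1
  have hqd : ∀ j, DifferentiableAt ℝ (fun x => D.q x j) ζ := fun j =>
    ((D.contDiff_q j).differentiable (by simp)) ζ
  have hJ : Jof D.Qv 0 ζ = (σ⁻¹ : ℂ) • (Matrix.of fun j k => D.Jq ζ j k -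
      D.q ζ j * (σ⁻¹ * dbar k (fun x => ((2 * D.a x : ℝ) : ℂ)) ζ)) := by
    ext j k
    have h1 : dbar k (fun y => D.Qv y j) ζ = dbar k (fun y => D.q y j) ζ * σ⁻¹ +
        D.q ζ j * (-σ⁻¹ ^ 2 * dbar k (fun x => ((2 * D.a x : ℝ) : ℂ)) ζ) := by
      have h2 : (fun y => D.Qv y j) = fun y => D.q y j * (((2 * D.a y : ℝ) : ℂ))⁻¹ := by
        funext y
        unfold Qv
        rw [div_eq_mul_inv]
      have hinv : DifferentiableAt ℝ (fun x => (((2 * D.a x : ℝ) : ℂ))⁻¹) ζ := hsd.inv hs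
      rw [h2, dbar_mul (hqd j) hinv, dbar_inv hsd hs]
    simp only [Jof, Jq, Matrix.of_apply, Matrix.smul_apply, smul_eq_mul, Complex.ofReal_zero,
      ite_self, add_zero]
    rw [h1]
    ring
  have hA : Aof D.Qv z 0 ζ = D.L ζ z / σ := by
    rw [D.Aof_eq hζ z 0, zero_mul, Complex.ofReal_zero, add_zero]
  unfold Kof K
  rw [hJ, hA, Matrix.det_smul, det_rank_one, Fintype.card_fin]
  have hD : D.Delta ζ = σ * ((D.Jq ζ).det - ∑ k, σ⁻¹ *
      dbar k (fun x => ((2 * D.a x : ℝ) : ℂ)) ζ * ((D.Jq ζ).updateCol k (D.q ζ)).det) := by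
    unfold Delta
    rw [← hσ, mul_sub, Finset.mul_sum]
    congr 1
    refine Finset.sum_congr rfl fun k _ => ?_
    rw [← mul_assoc, ← mul_assoc, mul_inv_cancel₀ hs, one_mul]
  rw [hD]
  set X : ℂ := (D.Jq ζ).det - ∑ k, σ⁻¹ *
      dbar k (fun x => ((2 * D.a x : ℝ) : ℂ)) ζ * ((D.Jq ζ).updateCol k (D.q ζ)).det with hX
  have hm : mm n = (mm n - n - 1) + 1 + n := by
    unfold mm
    omega
  have h3 : (D.L ζ z / σ)⁻¹ ^ mm n = σ ^ mm n * (D.L ζ z)⁻¹ ^ mm n := by
    rw [inv_div, div_eq_mul_inv, mul_pow]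
  rw [h3]
  have h4 : σ ^ mm n * σ⁻¹ ^ n = σ ^ (mm n - n - 1) * σ := by
    conv_lhs => rw [hm]
    rw [pow_add, mul_assoc, ← mul_pow, mul_inv_cancel₀ hs, one_pow, mul_one, pow_succ]
  calc σ ^ mm n * (D.L ζ z)⁻¹ ^ mm n * (σ⁻¹ ^ n * X)
      = (σ ^ mm n * σ⁻¹ ^ n) * X * (D.L ζ z)⁻¹ ^ mm n := by ring
    _ = σ ^ (mm n - n - 1) * σ * X * (D.L ζ z)⁻¹ ^ mm n := by rw [h4]
    _ = σ ^ (mm n - n - 1) * (σ * X) * (D.L ζ z)⁻¹ ^ mm n := by ring

end LData

end Pool.Agent.H8.FZ
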