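import Pool.Agent.H8.FZ.DetAlg
import Pool.Agent.H8.FZ.DeltaAlg

/-!
# FZ-BBOUNDS: pointwise bounds for the homotopy kernels

`s = 2a`, `w = ζ - z`.
* `re_Aof_ge`: `Aof_eq` and `re_L_ge`.
* `norm_dbar_Qv_le`: `∂̄_k(q_j/s) = ∂̄_k q_j/s - q_j ∂̄_k s/s²`, all of `q_j, ∂̄_k q_j, ∂̄_k s` are
  bounded on `‖ζ‖ ≤ ε/2` (`b1, b2` or compactness), and `a ≤ 1`.
* `det_Jof_le`: `norm_det_le`, `norm_det_updateCol_le` with entries `≤ C/a² + κ`.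
* `V_unif`: for `‖ζ‖ ≥ 3ε/8`, `‖z‖ < ε/4` we have `‖w‖ ≥ ε/8`, so `|A| ≥ re A ≥ c₁(1/a + κ)`, and
  `‖V‖ ≤ C (1/a+κ)^{-m} (1/a²+κ)^{n-1} ≤ C (1/a+κ)^{-m+2(n-1)} ≤ C (1/a+κ)^{-4}` (`1/a ≥ 1`,
  `1/a² + κ ≤ (1/a+κ)²`·2, `m = 4n+8`), and (1/a+κ)⁴ ≥ a^{-2} (1+κ)², so `‖V‖ ≤ C a²/(1+κ)²`.
-/

set_option autoImplicit false

noncomputable section

namespace Pool.Agent.H8.FZ

open Complex Metric MeasureTheory Set Filter Topology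
open scoped ContDiff ComplexConjugate

variable {n : ℕ}

namespace LData

variable (D : LData n)

private theorem bb_a_pos {ζ : En n} (hζ : ζ ∈ D.S) : 0 < D.a ζ := by
  have := hζ.2
  unfold a
  linarith

private theorem bb_a_le {ζ : En n} (hζ : ζ ∈ D.S) : D.a ζ ≤ 1 := by
  have := abs_le.1 (D.b0 ζ hζ.1)
  unfold a
  linarith [this.1]

theorem re_Aof_ge {ζ z : En n} (hζ : ζ ∈ D.S) (hz : z ∈ D.S) (κ : ℝ) :
    (D.a ζ + D.a z + (D.c / 2) * ‖ζ - z‖ ^ 2) / (2 * D.a ζ) + κ * ‖ζ - z‖ ^ 2 ≤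
      (Aof D.Qv z κ ζ).re := by
  have ha := bb_a_pos D hζ
  have h1 := D.re_L_ge hζ.1 hz.1
  rw [D.Aof_eq hζ z κ, Complex.add_re, Complex.ofReal_re, Complex.div_ofReal_re]
  have h2 := div_le_div_of_nonneg_right h1 (by linarith : 0 ≤ 2 * D.a ζ)
  linarith

private theorem bb_bound {f : En n → ℂ} (hf : Continuous f) (ρ : ℝ) :
    ∃ C : ℝ, ∀ ζ : En n, ‖ζ‖ ≤ ρ → ‖f ζ‖ ≤ C := by
  obtain ⟨C, hC⟩ := (isCompact_closedBall (0 : En n) ρ).exists_bound_of_continuousOn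
    hf.continuousOn
  exact ⟨C, fun ζ hζ => hC ζ (by rwa [mem_closedBall_zero_iff])⟩

theorem norm_dbar_Qv_le : ∃ C : ℝ, 1 ≤ C ∧ ∀ ζ ∈ D.S, ‖ζ‖ ≤ D.ε / 2 → ∀ j k,
    ‖dbar k (fun x => D.Qv x j) ζ‖ ≤ C / D.a ζ ^ 2 := by
  have hs : ContDiff ℝ ∞ (fun x : En n => ((2 * D.a x : ℝ) : ℂ)) :=
    Complex.ofRealCLM.contDiff.comp (contDiff_const.mul D.contDiff_a)
  have c1 : ∀ j k, ∃ C : ℝ, ∀ ζ : En n, ‖ζ‖ ≤ D.ε / 2 → ‖dbar k (fun x => D.q x j) ζ‖ ≤ C :=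
    fun j k => bb_bound (contDiff_dbar (D.contDiff_q j) k).continuous _
  have c2 : ∀ j, ∃ C : ℝ, ∀ ζ : En n, ‖ζ‖ ≤ D.ε / 2 → ‖D.q ζ j‖ ≤ C :=
    fun j => bb_bound (D.contDiff_q j).continuous _
  have c3 : ∀ k, ∃ C : ℝ, ∀ ζ : En n, ‖ζ‖ ≤ D.ε / 2 →
      ‖dbar k (fun x : En n => ((2 * D.a x : ℝ) : ℂ)) ζ‖ ≤ C :=
    fun k => bb_bound (contDiff_dbar hs k).continuous _
  choose C1 hC1 using c1
  choose C2 hC2 using c2
  choose C3 hC3 using c3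
  set T := 1 + ∑ j, ∑ k, |C1 j k| + ∑ j, |C2 j| + ∑ k, |C3 k| with hT
  have t1 : ∀ j k, C1 j k ≤ T := by
    intro j k
    have h1 : |C1 j k| ≤ ∑ k', |C1 j k'| :=
      Finset.single_le_sum (f := fun k' => |C1 j k'|) (fun _ _ => abs_nonneg _)
        (Finset.mem_univ k)
    have h2 : ∑ k', |C1 j k'| ≤ ∑ j', ∑ k', |C1 j' k'| :=
      Finset.single_le_sum (f := fun j' => ∑ k', |C1 j' k'|)
        (fun _ _ => Finset.sum_nonneg fun _ _ => abs_nonneg _) (Finset.mem_univ j)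
    have h3 : 0 ≤ ∑ j, |C2 j| := Finset.sum_nonneg fun _ _ => abs_nonneg _
    have h4 : 0 ≤ ∑ k, |C3 k| := Finset.sum_nonneg fun _ _ => abs_nonneg _
    have := le_abs_self (C1 j k)
    linarith
  have n1 : 0 ≤ ∑ j, ∑ k, |C1 j k| :=
    Finset.sum_nonneg fun _ _ => Finset.sum_nonneg fun _ _ => abs_nonneg _
  have t2 : ∀ j, C2 j ≤ T := by
    intro j
    have h1 : |C2 j| ≤ ∑ j', |C2 j'| :=
      Finset.single_le_sum (f := fun j' => |C2 j'|) (fun _ _ => abs_nonneg _)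
        (Finset.mem_univ j)
    have h4 : 0 ≤ ∑ k, |C3 k| := Finset.sum_nonneg fun _ _ => abs_nonneg _
    have := le_abs_self (C2 j)
    linarith
  have t3 : ∀ k, C3 k ≤ T := by
    intro k
    have h1 : |C3 k| ≤ ∑ j', |C3 j'| :=
      Finset.single_le_sum (f := fun j' => |C3 j'|) (fun _ _ => abs_nonneg _)
        (Finset.mem_univ k)
    have h3 : 0 ≤ ∑ j, |C2 j| := Finset.sum_nonneg fun _ _ => abs_nonneg _
    have := le_abs_self (C3 k)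
    linarith
  have hT1 : 1 ≤ T := by
    have h3 : 0 ≤ ∑ j, |C2 j| := Finset.sum_nonneg fun _ _ => abs_nonneg _
    have h4 : 0 ≤ ∑ k, |C3 k| := Finset.sum_nonneg fun _ _ => abs_nonneg _
    linarith
  refine ⟨T + T * T, by nlinarith, fun ζ hζ hn j k => ?_⟩
  have ha := bb_a_pos D hζ
  have ha1 := bb_a_le D hζ
  have hs0 : ((2 * D.a ζ : ℝ) : ℂ) ≠ 0 := by
    rw [Complex.ofReal_ne_zero]
    linarith
  have dq : DifferentiableAt ℝ (fun x => D.q x j) ζ :=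
    (D.contDiff_q j).contDiffAt.differentiableAt (by simp)
  have ds : DifferentiableAt ℝ (fun x : En n => ((2 * D.a x : ℝ) : ℂ)) ζ :=
    hs.contDiffAt.differentiableAt (by simp)
  have dsi : DifferentiableAt ℝ (fun x : En n => ((2 * D.a x : ℝ) : ℂ)⁻¹) ζ := ds.inv hs0
  have e1 : (fun x => D.Qv x j) = fun x => D.q x j * ((2 * D.a x : ℝ) : ℂ)⁻¹ := by
    funext x
    unfold Qv
    rw [div_eq_mul_inv]
  rw [e1, dbar_mul dq dsi, dbar_inv ds hs0]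
  have hns : ‖((2 * D.a ζ : ℝ) : ℂ)⁻¹‖ = (2 * D.a ζ)⁻¹ := by
    rw [norm_inv, Complex.norm_real, Real.norm_eq_abs, abs_of_pos (by linarith)]
  have b1 := (hC1 j k ζ hn).trans (t1 j k)
  have b2 := (hC2 j ζ hn).trans (t2 j)
  have b3 := (hC3 k ζ hn).trans (t3 k)
  have hi : (2 * D.a ζ)⁻¹ ≤ 1 / D.a ζ ^ 2 := by
    rw [inv_eq_one_div]
    apply one_div_le_one_div_of_le (by positivity)
    nlinarith
  have hi2 : ((2 * D.a ζ)⁻¹) ^ 2 ≤ 1 / D.a ζ ^ 2 := by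
    rw [inv_pow, inv_eq_one_div]
    apply one_div_le_one_div_of_le (by positivity)
    nlinarith
  calc ‖dbar k (fun x => D.q x j) ζ * ((2 * D.a ζ : ℝ) : ℂ)⁻¹ + D.q ζ j *
        (-((2 * D.a ζ : ℝ) : ℂ)⁻¹ ^ 2 * dbar k (fun x => ((2 * D.a x : ℝ) : ℂ)) ζ)‖
      ≤ ‖dbar k (fun x => D.q x j) ζ * ((2 * D.a ζ : ℝ) : ℂ)⁻¹‖ + ‖D.q ζ j *
        (-((2 * D.a ζ : ℝ) : ℂ)⁻¹ ^ 2 * dbar k (fun x => ((2 * D.a x : ℝ) : ℂ)) ζ)‖ :=
        norm_add_le _ _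
    _ = ‖dbar k (fun x => D.q x j) ζ‖ * (2 * D.a ζ)⁻¹ + ‖D.q ζ j‖ *
        (((2 * D.a ζ)⁻¹) ^ 2 * ‖dbar k (fun x => ((2 * D.a x : ℝ) : ℂ)) ζ‖) := by
        rw [norm_mul, norm_mul, norm_mul, norm_neg, norm_pow, hns]
    _ ≤ T * (1 / D.a ζ ^ 2) + T * ((1 / D.a ζ ^ 2) * T) := by
        apply add_le_add
        · exact mul_le_mul b1 hi (by positivity) (by linarith)
        · apply mul_le_mul b2 _ (by positivity) (by linarith)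
          exact mul_le_mul hi2 b3 (norm_nonneg _) (by positivity)
    _ = (T + T * T) / D.a ζ ^ 2 := by ring

theorem det_Jof_le : ∃ C : ℝ, 1 ≤ C ∧ ∀ ζ ∈ D.S, ‖ζ‖ ≤ D.ε / 2 → ∀ κ : ℝ, 0 ≤ κ →
    ‖(Jof D.Qv κ ζ).det‖ ≤ C * (1 / D.a ζ ^ 2 + κ) ^ n ∧
    ∀ (z : En n) (k : Fin n),
      ‖((Jof D.Qv κ ζ).updateCol k (fun j => conj (ζ j - z j))).det‖ ≤
        C * (1 / D.a ζ ^ 2 + κ) ^ (n - 1) * ‖ζ - z‖ := by
  obtain ⟨C, hC1, hC⟩ := D.norm_dbar_Qv_le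
  refine ⟨n.factorial * C ^ n, ?_, ?_⟩
  · have h1 : (1 : ℝ) ≤ n.factorial := by exact_mod_cast Nat.succ_le_of_lt n.factorial_pos
    have h2 : 1 ≤ C ^ n := one_le_pow₀ hC1
    nlinarith
  · intro ζ hζ hn κ hκ
    have ha := bb_a_pos D hζ
    have hX : 0 ≤ 1 / D.a ζ ^ 2 + κ := by positivity
    have hent : ∀ i j, ‖Jof D.Qv κ ζ i j‖ ≤ C * (1 / D.a ζ ^ 2 + κ) := by
      intro i j
      have h1 := hC ζ hζ hn i j
      unfold Jof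
      rw [Matrix.of_apply]
      refine (norm_add_le _ _).trans ?_
      have h2 : ‖(if i = j then (κ : ℂ) else 0)‖ ≤ C * κ := by
        split_ifs
        · rw [Complex.norm_real, Real.norm_eq_abs, abs_of_nonneg hκ]
          nlinarith
        · rw [norm_zero]; positivity
      have h3 : C * (1 / D.a ζ ^ 2 + κ) = C / D.a ζ ^ 2 + C * κ := by ring
      linarith
    refine ⟨?_, fun z k => ?_⟩
    · have h1 := norm_det_le (Jof D.Qv κ ζ) hent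
      rw [mul_pow] at h1
      linarith
    · have hv : ∀ j, ‖(starRingEnd ℂ) (ζ j - z j)‖ ≤ ‖ζ - z‖ := by
        intro j
        rw [Complex.norm_conj]
        exact PiLp.norm_apply_le (ζ - z) j
      have h1 := norm_det_updateCol_le (Jof D.Qv κ ζ) hent k _ hv
      refine h1.trans ?_
      rw [mul_pow]
      have h2 : C ^ (n - 1) ≤ C ^ n := pow_le_pow_right₀ hC1 (by omega)
      have h3 : C ^ (n - 1) * ((1 / D.a ζ ^ 2 + κ) ^ (n - 1) * ‖ζ - z‖) ≤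
          C ^ n * ((1 / D.a ζ ^ 2 + κ) ^ (n - 1) * ‖ζ - z‖) :=
        mul_le_mul_of_nonneg_right h2 (by positivity)
      have h4 := mul_le_mul_of_nonneg_left h3 (by positivity : (0 : ℝ) ≤ n.factorial)
      calc (n.factorial : ℝ) * (C ^ (n - 1) * (1 / D.a ζ ^ 2 + κ) ^ (n - 1) * ‖ζ - z‖) =
          n.factorial * (C ^ (n - 1) * ((1 / D.a ζ ^ 2 + κ) ^ (n - 1) * ‖ζ - z‖)) := by ring
        _ ≤ _ := h4
        _ = _ := by ring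

theorem V_unif : ∃ C : ℝ, 0 < C ∧ ∀ z ∈ D.S, ‖z‖ < D.ε / 4 → ∀ κ : ℝ, 0 ≤ κ →
    ∀ ζ ∈ D.S, 3 * D.ε / 8 ≤ ‖ζ‖ → ‖ζ‖ ≤ 7 * D.ε / 16 → ∀ k,
      ‖Vof D.Qv (mm n) z κ k ζ‖ ≤ C * D.a ζ / (1 + κ) ^ 2 := by
  obtain ⟨C, hC1, hC⟩ := D.det_Jof_le
  have hε := D.hε
  have hε1 := D.hε1
  have hc := D.hc
  have hc1 := D.hc1
  set c₁ := D.c * D.ε ^ 2 / 256 with hc₁
  have hc₁pos : 0 < c₁ := by positivity
  refine ⟨(c₁⁻¹) ^ mm n * C, by positivity, ?_⟩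
  intro z hz hzn κ hκ ζ hζ h38 h716 k
  have hn1 : 1 ≤ n := by
    have := k.2
    omega
  have ha := bb_a_pos D hζ
  have ha1 := bb_a_le D hζ
  have haz := bb_a_pos D hz
  have hw : D.ε / 8 ≤ ‖ζ - z‖ := by
    have := norm_sub_norm_le ζ z
    linarith
  have hw1 : ‖ζ - z‖ ≤ 1 := by
    have := norm_sub_le ζ z
    linarith
  have hw2 : D.ε ^ 2 / 64 ≤ ‖ζ - z‖ ^ 2 := by nlinarith
  set X := 1 / D.a ζ + κ with hX
  have hia : 1 ≤ 1 / D.a ζ := by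
    rw [le_div_iff₀ ha]
    linarith
  have hX1 : 1 ≤ X := by linarith
  have hXpos : 0 < X := by linarith
  have hA : c₁ * X ≤ ‖Aof D.Qv z κ ζ‖ := by
    refine le_trans ?_ (Complex.re_le_norm _)
    refine le_trans ?_ (D.re_Aof_ge hζ hz κ)
    have h1 : c₁ * (1 / D.a ζ) ≤
        (D.a ζ + D.a z + (D.c / 2) * ‖ζ - z‖ ^ 2) / (2 * D.a ζ) := by
      rw [mul_one_div, div_le_div_iff₀ ha (by linarith)]
      have h2 : D.c / 2 * (D.ε ^ 2 / 64) ≤ D.c / 2 * ‖ζ - z‖ ^ 2 :=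
        mul_le_mul_of_nonneg_left hw2 (by positivity)
      have h3 : c₁ * 2 ≤ D.a ζ + D.a z + (D.c / 2) * ‖ζ - z‖ ^ 2 := by
        rw [hc₁]
        linarith
      have h4 := mul_le_mul_of_nonneg_right h3 ha.le
      linarith
    have h5 : c₁ * κ ≤ κ * ‖ζ - z‖ ^ 2 := by
      have h6 : c₁ ≤ ‖ζ - z‖ ^ 2 := by
        rw [hc₁]
        nlinarith
      have := mul_le_mul_of_nonneg_left h6 hκ
      linarith
    rw [hX, mul_add]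
    linarith
  have hAinv : ‖(Aof D.Qv z κ ζ)⁻¹ ^ mm n‖ ≤ (c₁⁻¹) ^ mm n * (X⁻¹) ^ mm n := by
    rw [norm_pow, norm_inv, ← mul_pow]
    apply pow_le_pow_left₀ (by positivity)
    rw [← mul_inv]
    exact inv_anti₀ (by positivity) hA
  have hdet := ((hC ζ hζ (by linarith) κ hκ).2 z k)
  have hY : 1 / D.a ζ ^ 2 + κ ≤ X ^ 2 := by
    have h1 : X ^ 2 = 1 / D.a ζ ^ 2 + 2 * (1 / D.a ζ) * κ + κ ^ 2 := by
      rw [hX]
      ring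
    have h2 : κ ≤ 1 / D.a ζ * κ := by nlinarith
    nlinarith [sq_nonneg κ]
  have hdet2 : ‖((Jof D.Qv κ ζ).updateCol k (fun j => conj (ζ j - z j))).det‖ ≤
      C * X ^ (2 * (n - 1)) := by
    refine hdet.trans ?_
    have h1 : (1 / D.a ζ ^ 2 + κ) ^ (n - 1) ≤ X ^ (2 * (n - 1)) := by
      rw [pow_mul]
      exact pow_le_pow_left₀ (by positivity) hY _
    have h2 : C * (1 / D.a ζ ^ 2 + κ) ^ (n - 1) ≤ C * X ^ (2 * (n - 1)) :=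
      mul_le_mul_of_nonneg_left h1 (by linarith)
    calc C * (1 / D.a ζ ^ 2 + κ) ^ (n - 1) * ‖ζ - z‖ ≤ C * X ^ (2 * (n - 1)) * 1 :=
          mul_le_mul h2 hw1 (norm_nonneg _) (by positivity)
      _ = _ := mul_one _
  have hpow : (X⁻¹) ^ mm n * X ^ (2 * (n - 1)) ≤ (X⁻¹) ^ 4 := by
    have h1 : mm n = (2 * n + 6) + 4 + 2 * (n - 1) := by
      unfold mm
      omega
    have hXi : X⁻¹ ≤ 1 := inv_le_one_of_one_le₀ hX1
    have h2 : (X⁻¹) ^ (2 * (n - 1)) * X ^ (2 * (n - 1)) = 1 := by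
      rw [← mul_pow, inv_mul_cancel₀ hXpos.ne', one_pow]
    rw [h1, pow_add, mul_assoc, h2, mul_one, pow_add]
    have h3 : (X⁻¹) ^ (2 * n + 6) ≤ 1 := pow_le_one₀ (by positivity) hXi
    have h4 : 0 ≤ (X⁻¹) ^ 4 := by positivity
    nlinarith
  have hX4 : (X⁻¹) ^ 4 ≤ D.a ζ / (1 + κ) ^ 2 := by
    have h1 : X⁻¹ ≤ D.a ζ := by
      rw [inv_le_comm₀ hXpos ha, ← one_div]
      linarith
    have h2 : X⁻¹ ≤ (1 + κ)⁻¹ := inv_anti₀ (by linarith) (by linarith)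
    have hXi : X⁻¹ ≤ 1 := inv_le_one_of_one_le₀ hX1
    have h3 : (X⁻¹) ^ 2 ≤ D.a ζ := by
      have : 0 ≤ X⁻¹ := by positivity
      nlinarith
    have h4 : (X⁻¹) ^ 2 ≤ ((1 + κ)⁻¹) ^ 2 := pow_le_pow_left₀ (by positivity) h2 2
    calc (X⁻¹) ^ 4 = (X⁻¹) ^ 2 * (X⁻¹) ^ 2 := by ring
      _ ≤ D.a ζ * ((1 + κ)⁻¹) ^ 2 := mul_le_mul h3 h4 (by positivity) ha.le
      _ = D.a ζ / (1 + κ) ^ 2 := by rw [inv_pow, div_eq_mul_inv]
  calc ‖Vof D.Qv (mm n) z κ k ζ‖ = ‖(Aof D.Qv z κ ζ)⁻¹ ^ mm n‖ *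
        ‖((Jof D.Qv κ ζ).updateCol k (fun j => conj (ζ j - z j))).det‖ := by
        unfold Vof
        rw [norm_mul]
    _ ≤ ((c₁⁻¹) ^ mm n * (X⁻¹) ^ mm n) * (C * X ^ (2 * (n - 1))) :=
        mul_le_mul hAinv hdet2 (norm_nonneg _) (by positivity)
    _ = (c₁⁻¹) ^ mm n * C * ((X⁻¹) ^ mm n * X ^ (2 * (n - 1))) := by ring
    _ ≤ (c₁⁻¹) ^ mm n * C * (D.a ζ / (1 + κ) ^ 2) :=
        mul_le_mul_of_nonneg_left (hpow.trans hX4) (by positivity)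
    _ = (c₁⁻¹) ^ mm n * C * D.a ζ / (1 + κ) ^ 2 := by ring

end LData

end Pool.Agent.H8.FZ
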