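import Pool.Agent.H8.FZ.BReg

/-!
# FZ-BDER: differentiation in `κ` under the integral sign

Fix `z ∈ S`, `‖z‖ < ε/4`, `κ₀ ≥ 0`. For `ζ ∈ S` with `‖ζ‖ ≤ 7ε/16` we have `‖w‖ ≤ 11/16`, so for
`κ > κ₀ - 1/16` `re A ≥ 1/2 - 1/16 + a z/(2 a ζ)` (`re_Aof_ge`); so `A ≠ 0`, and
`∂_κ (A^{-m} det J) = -m A^{-m-1} |w|² det J + A^{-m} ∑_k det(J; k ← e_k)` is bounded by
`C (a ζ)^m (a ζ)^{-2n}` for `κ` in (κ₀ - 1/16, κ₀ + 1) with `C` depending on `z, κ₀`
(entries of `J` are `≤ C/a² + κ₀ + 1`: `norm_dbar_Qv_le`, `norm_det_le`,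
`norm_det_updateCol_le`). Together with `‖h‖ ≤ C₁/a` the derivative of the integrand is bounded,
so `hasDerivAt_integral_of_dominated_loc_of_deriv_le` applies on the finite measure space `S`
(the integrand is `0` for `‖ζ‖ ≥ 7ε/16`); the pointwise derivative is `det_alg`
(`contDiffOn_Qv`).
-/

set_option autoImplicit false

noncomputable section

namespace Pool.Agent.H8.FZ

open Complex Metric MeasureTheory Set Filter Topology
open scoped ContDiff ComplexConjugate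

variable {n : ℕ}

namespace LData

variable (D : LData n)

private theorem bder_meas (g : En n → ℂ) (k : Fin n) : Measurable (dbar k g) := by
  unfold dbar
  have h1 : Measurable (fun z : En n => fderiv ℝ g z (eb k)) := measurable_fderiv_apply_const ℝ g _
  have h2 : Measurable (fun z : En n => fderiv ℝ g z (I • eb k)) :=
    measurable_fderiv_apply_const ℝ g _
  exact (h1.add (h2.const_mul _)).const_mul _

private theorem bder_meas_det (Q : En n → Fin n → ℂ) (κ : ℝ) :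
    Measurable (fun ζ : En n => (Jof Q κ ζ).det) := by
  simp only [Matrix.det_apply]
  refine Finset.measurable_sum _ fun σ _ => ?_
  refine Measurable.const_smul ?_ _
  refine Finset.measurable_prod _ fun i _ => ?_
  simp only [Jof, Matrix.of_apply]
  exact (bder_meas _ _).add measurable_const

/-- the complex extension in `κ` of the kernel. -/
private def bderK (Q : En n → Fin n → ℂ) (m : ℕ) (z ζ : En n) (κ : ℂ) : ℂ :=
  (Aof Q z 0 ζ + κ * ((‖ζ - z‖ ^ 2 : ℝ) : ℂ))⁻¹ ^ m * (Jof Q 0 ζ + κ • 1).det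

private theorem bderK_real (Q : En n → Fin n → ℂ) (m : ℕ) (z ζ : En n) (κ : ℝ) :
    Kof Q m z κ ζ = bderK Q m z ζ (κ : ℂ) := by
  have h1 : Aof Q z κ ζ = Aof Q z 0 ζ + (κ : ℂ) * ((‖ζ - z‖ ^ 2 : ℝ) : ℂ) := by
    simp only [Aof]
    push_cast
    ring
  have h2 : Jof Q κ ζ = Jof Q 0 ζ + (κ : ℂ) • 1 := by
    ext j k
    simp only [Jof, Matrix.of_apply, Matrix.add_apply, Matrix.smul_apply, Matrix.one_apply,
      smul_eq_mul, Complex.ofReal_zero]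
    by_cases hjk : j = k <;> simp [hjk]
  rw [Kof, bderK, h1, h2]

private theorem bderK_diff (Q : En n → Fin n → ℂ) (m : ℕ) (z ζ : En n) (κ : ℂ)
    (h0 : Aof Q z 0 ζ + κ * ((‖ζ - z‖ ^ 2 : ℝ) : ℂ) ≠ 0) :
    DifferentiableAt ℂ (bderK Q m z ζ) κ := by
  have hd : Differentiable ℂ (fun κ : ℂ => (Jof Q 0 ζ + κ • 1).det) := by
    simp only [Matrix.det_apply, Matrix.add_apply, Matrix.smul_apply, smul_eq_mul]
    fun_prop
  have ha : DifferentiableAt ℂ (fun κ : ℂ => Aof Q z 0 ζ + κ * ((‖ζ - z‖ ^ 2 : ℝ) : ℂ)) κ := by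
    fun_prop
  exact ((ha.inv h0).pow m).mul (hd κ)

/-- pointwise bound of the extended kernel. -/
private theorem bder_bound {C₁ : ℝ} (hC₁ : 1 ≤ C₁) {z : En n} (hz : z ∈ D.S)
    (hz' : ‖z‖ < D.ε / 4) {κ₀ : ℝ} (hκ₀ : 0 ≤ κ₀) :
    ∃ B : ℝ, 0 ≤ B ∧ ∀ ζ ∈ D.S, ‖ζ‖ ≤ 7 * D.ε / 16 → ∀ κ : ℂ, -(1 / 8) ≤ κ.re → ‖κ‖ ≤ κ₀ + 1 →
      Aof D.Qv z 0 ζ + κ * ((‖ζ - z‖ ^ 2 : ℝ) : ℂ) ≠ 0 ∧
      (C₁ / D.a ζ) * ‖bderK D.Qv (mm n) z ζ κ‖ ≤ B := by
  obtain ⟨C, hC, hdb⟩ := D.norm_dbar_Qv_le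
  have hε := D.hε
  have hε1 := D.hε1
  have haz : 0 < D.a z := by have := hz.2; simp only [LData.a]; linarith
  set C' : ℝ := C + κ₀ + 1 with hC'
  have hC'0 : 0 < C' := by linarith
  refine ⟨C₁ * ((2 / D.a z) ^ mm n * (n.factorial * C' ^ n)), by positivity, ?_⟩
  intro ζ hζ hζn κ hκre hκn
  have haζ : 0 < D.a ζ := by have := hζ.2; simp only [LData.a]; linarith
  have haζ1 : D.a ζ ≤ 1 := by
    have := (abs_le.1 (D.b0 ζ hζ.1)).1
    simp only [LData.a]; linarith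
  have hwn : ‖ζ - z‖ ≤ 1 := by
    have := norm_sub_le ζ z
    linarith
  have hw2 : ‖ζ - z‖ ^ 2 ≤ 1 := by
    have := norm_nonneg (ζ - z)
    nlinarith
  have hw0 : 0 ≤ ‖ζ - z‖ ^ 2 := by positivity
  have hre0 := D.re_Aof_ge hζ hz 0
  have hre1 : 1 / 2 + D.a z / (2 * D.a ζ) ≤ (Aof D.Qv z 0 ζ).re := by
    have h1 : (D.a ζ + D.a z + D.c / 2 * ‖ζ - z‖ ^ 2) / (2 * D.a ζ) =
        1 / 2 + D.a z / (2 * D.a ζ) + D.c / 2 * ‖ζ - z‖ ^ 2 / (2 * D.a ζ) := by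
      field_simp
    rw [h1] at hre0
    have h2 : 0 ≤ D.c / 2 * ‖ζ - z‖ ^ 2 / (2 * D.a ζ) := by
      have := D.hc
      positivity
    linarith
  have hre2 : D.a z / (2 * D.a ζ) ≤ (Aof D.Qv z 0 ζ + κ * ((‖ζ - z‖ ^ 2 : ℝ) : ℂ)).re := by
    rw [Complex.add_re, Complex.re_mul_ofReal]
    have : -(1 / 8) ≤ κ.re * ‖ζ - z‖ ^ 2 := by
      by_cases h : 0 ≤ κ.re
      · have := mul_nonneg h hw0
        linarith
      · push Not at h
        nlinarith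
    linarith
  have hq : 0 < D.a z / (2 * D.a ζ) := by positivity
  have hnormA : D.a z / (2 * D.a ζ) ≤ ‖Aof D.Qv z 0 ζ + κ * ((‖ζ - z‖ ^ 2 : ℝ) : ℂ)‖ :=
    hre2.trans (Complex.re_le_norm _)
  have hne : Aof D.Qv z 0 ζ + κ * ((‖ζ - z‖ ^ 2 : ℝ) : ℂ) ≠ 0 := by
    intro h
    rw [h, norm_zero] at hnormA
    linarith
  refine ⟨hne, ?_⟩
  have hinv : ‖(Aof D.Qv z 0 ζ + κ * ((‖ζ - z‖ ^ 2 : ℝ) : ℂ))⁻¹‖ ≤ (2 / D.a z) * D.a ζ := by
    rw [norm_inv]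
    have h1 := inv_anti₀ hq hnormA
    have h2 : (D.a z / (2 * D.a ζ))⁻¹ = (2 / D.a z) * D.a ζ := by
      field_simp
    rwa [h2] at h1
  have hentry : ∀ i j, ‖(Jof D.Qv 0 ζ + κ • (1 : Matrix (Fin n) (Fin n) ℂ)) i j‖ ≤
      C' / D.a ζ ^ 2 := by
    intro i j
    have h1 : ‖dbar j (fun y => D.Qv y i) ζ‖ ≤ C / D.a ζ ^ 2 := hdb ζ hζ (by linarith) i j
    have h2 : ‖κ • (1 : Matrix (Fin n) (Fin n) ℂ) i j‖ ≤ (κ₀ + 1) / D.a ζ ^ 2 := by
      have h3 : ‖κ • (1 : Matrix (Fin n) (Fin n) ℂ) i j‖ ≤ κ₀ + 1 := by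
        rw [Matrix.one_apply]
        by_cases h : i = j
        · simp only [h, if_true, smul_eq_mul, mul_one]
          exact hκn
        · simp only [h, if_false, smul_zero, norm_zero]
          linarith
      refine h3.trans ?_
      rw [le_div_iff₀ (by positivity)]
      have : D.a ζ ^ 2 ≤ 1 := by nlinarith
      nlinarith
    have h4 : (Jof D.Qv 0 ζ + κ • (1 : Matrix (Fin n) (Fin n) ℂ)) i j =
        dbar j (fun y => D.Qv y i) ζ + κ • (1 : Matrix (Fin n) (Fin n) ℂ) i j := by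
      simp [Jof]
    rw [h4]
    calc ‖dbar j (fun y => D.Qv y i) ζ + κ • (1 : Matrix (Fin n) (Fin n) ℂ) i j‖
        ≤ C / D.a ζ ^ 2 + (κ₀ + 1) / D.a ζ ^ 2 := (norm_add_le _ _).trans (add_le_add h1 h2)
      _ = C' / D.a ζ ^ 2 := by rw [hC']; ring
  have hdet := norm_det_le _ hentry
  have hA' : ‖(Aof D.Qv z 0 ζ + κ * ((‖ζ - z‖ ^ 2 : ℝ) : ℂ))⁻¹ ^ mm n‖ ≤
      ((2 / D.a z) * D.a ζ) ^ mm n := by
    rw [norm_pow]
    exact pow_le_pow_left₀ (norm_nonneg _) hinv _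
  have hmm : mm n = 1 + 2 * n + (2 * n + 7) := by unfold mm; ring
  calc (C₁ / D.a ζ) * ‖bderK D.Qv (mm n) z ζ κ‖
      ≤ (C₁ / D.a ζ) * (((2 / D.a z) * D.a ζ) ^ mm n *
          (n.factorial * (C' / D.a ζ ^ 2) ^ n)) := by
        refine mul_le_mul_of_nonneg_left ?_ (by positivity)
        rw [bderK, norm_mul]
        exact mul_le_mul hA' hdet (norm_nonneg _) (by positivity)
    _ = C₁ * ((2 / D.a z) ^ mm n * (n.factorial * C' ^ n)) *
          (D.a ζ ^ mm n / (D.a ζ * D.a ζ ^ (2 * n))) := by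
        rw [mul_pow (2 / D.a z), div_pow C', ← pow_mul]
        field_simp
    _ ≤ C₁ * ((2 / D.a z) ^ mm n * (n.factorial * C' ^ n)) * 1 := by
        refine mul_le_mul_of_nonneg_left ?_ (by positivity)
        have : D.a ζ ^ mm n = (D.a ζ * D.a ζ ^ (2 * n)) * D.a ζ ^ (2 * n + 7) := by
          rw [hmm, pow_add, pow_add, pow_one]
        rw [this, mul_div_assoc, mul_comm, div_mul_eq_mul_div, div_le_iff₀ (by positivity)]
        have h7 : D.a ζ ^ (2 * n + 7) ≤ 1 := pow_le_one₀ haζ.le haζ1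
        have : 0 < D.a ζ * D.a ζ ^ (2 * n) := by positivity
        nlinarith
    _ = _ := mul_one _

theorem hasDerivAt_F (χ : D.Cut) {h : En n → ℂ} {C₁ : ℝ} (hh : D.Tame h C₁) {z : En n}
    (hz : z ∈ D.S) (hz' : ‖z‖ < D.ε / 4) {κ₀ : ℝ} (hκ₀ : 0 ≤ κ₀) :
    HasDerivAt (fun κ : ℝ => ∫ ζ in D.S, (χ.χ ζ : ℂ) * h ζ * Kof D.Qv (mm n) z κ ζ)
      (∫ ζ in D.S, (χ.χ ζ : ℂ) * h ζ * ∑ k, dbar k (Vof D.Qv (mm n) z κ₀ k) ζ) κ₀ := by
  classical
  obtain ⟨hhd, hC₁, hhb⟩ := hh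
  obtain ⟨B, hB0, hB⟩ := D.bder_bound hC₁ hz hz' hκ₀
  have hSo : IsOpen D.S := D.isOpen_S
  have hSm : MeasurableSet D.S := hSo.measurableSet
  have hSfin : (volume : Measure (En n)) D.S < ⊤ :=
    lt_of_le_of_lt (measure_mono (fun _ hz => hz.1)) (measure_ball_lt_top (μ := volume)
      (x := (0 : En n)) (r := D.ε))
  have hε := D.hε
  -- facts on the small interval
  have hre : ∀ κ ∈ ball κ₀ (1 / 16 : ℝ), ∀ κ' : ℂ, ‖κ' - κ‖ ≤ 1 / 16 →
      -(1 / 8) ≤ κ'.re ∧ ‖κ'‖ ≤ κ₀ + 1 := by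
    intro κ hκ κ' hκ'
    rw [mem_ball, Real.dist_eq, abs_lt] at hκ
    have h1 := (abs_le.1 ((Complex.abs_re_le_norm (κ' - κ)).trans hκ')).1
    rw [Complex.sub_re, Complex.ofReal_re] at h1
    refine ⟨by linarith, ?_⟩
    have h2 : ‖κ'‖ ≤ ‖κ' - κ‖ + ‖(κ : ℂ)‖ := by
      have := norm_add_le (κ' - κ) (κ : ℂ)
      rwa [sub_add_cancel] at this
    have h3 : ‖(κ : ℂ)‖ ≤ κ₀ + 1 / 16 := by
      rw [Complex.norm_real, Real.norm_eq_abs, abs_le]
      constructor <;> linarith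
    linarith
  have hQ : ∀ ζ ∈ D.S, ∀ j, ContDiffAt ℝ 2 (fun x => D.Qv x j) ζ := by
    intro ζ hζ j
    exact ((D.contDiffOn_Qv j).contDiffAt (hSo.mem_nhds hζ)).of_le (WithTop.coe_le_coe.2 le_top)
  have hAne : ∀ ζ ∈ D.S, ‖ζ‖ ≤ 7 * D.ε / 16 → ∀ κ ∈ ball κ₀ (1 / 16 : ℝ),
      Aof D.Qv z κ ζ ≠ 0 := by
    intro ζ hζ hζn κ hκ
    obtain ⟨h1, h2⟩ := hre κ hκ κ (by simp)
    have h3 := (hB ζ hζ hζn κ h1 h2).1
    have h4 : Aof D.Qv z κ ζ = Aof D.Qv z 0 ζ + (κ : ℂ) * ((‖ζ - z‖ ^ 2 : ℝ) : ℂ) := by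
      simp only [Aof]
      push_cast
      ring
    rwa [h4]
  have hder : ∀ ζ ∈ D.S, ‖ζ‖ ≤ 7 * D.ε / 16 → ∀ κ ∈ ball κ₀ (1 / 16 : ℝ),
      HasDerivAt (fun κ' : ℝ => Kof D.Qv (mm n) z κ' ζ)
        (∑ k, dbar k (Vof D.Qv (mm n) z κ k) ζ) κ := fun ζ hζ hζn κ hκ =>
    det_alg D.Qv z ζ (mm n) κ (hQ ζ hζ) (hAne ζ hζ hζn κ hκ)
  -- the bound of the derivative
  have hbd : ∀ ζ ∈ D.S, ‖ζ‖ ≤ 7 * D.ε / 16 → ∀ κ ∈ ball κ₀ (1 / 16 : ℝ),
      (C₁ / D.a ζ) * ‖∑ k, dbar k (Vof D.Qv (mm n) z κ k) ζ‖ ≤ 16 * B := by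
    intro ζ hζ hζn κ hκ
    have haζ : 0 < D.a ζ := by have := hζ.2; simp only [LData.a]; linarith
    have hC₁a : 0 < C₁ / D.a ζ := by positivity
    have hdo : DifferentiableOn ℂ (bderK D.Qv (mm n) z ζ) (closedBall (κ : ℂ) (1 / 16)) := by
      intro κ' hκ'
      rw [mem_closedBall, dist_eq_norm] at hκ'
      obtain ⟨h1, h2⟩ := hre κ hκ κ' hκ'
      exact (bderK_diff _ _ _ _ _ (hB ζ hζ hζn κ' h1 h2).1).differentiableWithinAt
    have hcl : DiffContOnCl ℂ (bderK D.Qv (mm n) z ζ) (ball (κ : ℂ) (1 / 16)) := by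
      refine ⟨hdo.mono ball_subset_closedBall, ?_⟩
      rw [closure_ball _ (by norm_num)]
      exact hdo.continuousOn
    have hdd : DifferentiableAt ℂ (bderK D.Qv (mm n) z ζ) (κ : ℂ) := by
      obtain ⟨h1, h2⟩ := hre κ hκ κ (by simp)
      exact bderK_diff _ _ _ _ _ (hB ζ hζ hζn κ h1 h2).1
    have hsph : ∀ κ' ∈ sphere (κ : ℂ) (1 / 16), ‖bderK D.Qv (mm n) z ζ κ'‖ ≤
        B / (C₁ / D.a ζ) := by
      intro κ' hκ'
      rw [mem_sphere, dist_eq_norm] at hκ'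
      obtain ⟨h1, h2⟩ := hre κ hκ κ' hκ'.le
      rw [le_div_iff₀ hC₁a, mul_comm]
      exact (hB ζ hζ hζn κ' h1 h2).2
    have hle := Complex.norm_deriv_le_of_forall_mem_sphere_norm_le (by norm_num) hcl hsph
    have hreal : HasDerivAt (fun κ' : ℝ => Kof D.Qv (mm n) z κ' ζ)
        (deriv (bderK D.Qv (mm n) z ζ) κ) κ := by
      have := hdd.hasDerivAt.comp_ofReal
      refine this.congr_of_eventuallyEq (Eventually.of_forall fun κ' => ?_)
      exact bderK_real _ _ _ _ _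
    rw [(hder ζ hζ hζn κ hκ).unique hreal]
    have h5 : B / (C₁ / D.a ζ) / (1 / 16) = 16 * B / (C₁ / D.a ζ) := by
      field_simp
    rw [h5, le_div_iff₀ hC₁a] at hle
    linarith
  have hχ1 : ∀ ζ : En n, ‖(χ.χ ζ : ℂ)‖ ≤ 1 := by
    intro ζ
    rw [Complex.norm_real, Real.norm_of_nonneg (χ.nonneg ζ)]
    exact χ.le_one ζ
  have hχc : Continuous (fun ζ : En n => (χ.χ ζ : ℂ)) :=
    Complex.continuous_ofReal.comp χ.smooth.continuous
  have hh_meas : AEStronglyMeasurable h (volume.restrict D.S) :=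
    hhd.continuousOn.aestronglyMeasurable hSm
  have hQc : ∀ j, AEStronglyMeasurable (fun x => D.Qv x j) (volume.restrict D.S) := fun j =>
    (D.contDiffOn_Qv j).continuousOn.aestronglyMeasurable hSm
  have hF_meas : ∀ κ : ℝ, AEStronglyMeasurable
      (fun ζ => (χ.χ ζ : ℂ) * h ζ * Kof D.Qv (mm n) z κ ζ) (volume.restrict D.S) := by
    intro κ
    refine (hχc.aestronglyMeasurable.mul hh_meas).mul ?_
    have hA : AEMeasurable (fun ζ => Aof D.Qv z κ ζ) (volume.restrict D.S) := by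
      simp only [Aof, pr]
      refine AEMeasurable.add (AEMeasurable.add aemeasurable_const ?_) ?_
      · refine Finset.aemeasurable_fun_sum _ fun j _ => ?_
        refine (hQc j).aemeasurable.mul ?_
        have : Continuous (fun x : En n => (x - z) j) := by fun_prop
        exact this.measurable.aemeasurable
      · have : Continuous (fun x : En n => ((κ * ‖x - z‖ ^ 2 : ℝ) : ℂ)) := by fun_prop
        exact this.measurable.aemeasurable
    exact ((hA.inv.pow_const _).mul (bder_meas_det _ _).aemeasurable).aestronglyMeasurable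
  have hκ₀mem : κ₀ ∈ ball κ₀ (1 / 16 : ℝ) := mem_ball_self (by norm_num)
  have main := hasDerivAt_integral_of_dominated_loc_of_deriv_le
    (μ := volume.restrict D.S) (𝕜 := ℝ)
    (F := fun (κ : ℝ) ζ => (χ.χ ζ : ℂ) * h ζ * Kof D.Qv (mm n) z κ ζ)
    (F' := fun (κ : ℝ) ζ => (χ.χ ζ : ℂ) * h ζ * ∑ k, dbar k (Vof D.Qv (mm n) z κ k) ζ)
    (x₀ := κ₀) (s := ball κ₀ (1 / 16 : ℝ)) (bound := fun _ => 16 * B)
    (ball_mem_nhds κ₀ (by norm_num)) (Eventually.of_forall hF_meas) ?_ ?_ ?_ ?_ ?_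
  · exact main.2
  · -- integrability
    refine IntegrableOn.of_bound hSfin (hF_meas κ₀) B ?_
    refine (ae_restrict_iff' hSm).2 (Eventually.of_forall fun ζ hζ => ?_)
    by_cases hζn : ‖ζ‖ ≤ 7 * D.ε / 16
    · obtain ⟨h1, h2⟩ := hre κ₀ hκ₀mem κ₀ (by simp)
      have h3 := (hB ζ hζ hζn κ₀ h1 h2).2
      rw [← bderK_real] at h3
      refine le_trans ?_ h3
      rw [norm_mul, norm_mul]
      have h4 : ‖(χ.χ ζ : ℂ)‖ * ‖h ζ‖ ≤ C₁ / D.a ζ := by
        have := mul_le_mul (hχ1 ζ) (hhb ζ hζ (by linarith)).1 (norm_nonneg _) zero_le_one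
        linarith
      exact mul_le_mul_of_nonneg_right h4 (norm_nonneg _)
    · push Not at hζn
      rw [χ.zero ζ hζn.le]
      simpa using hB0
  · -- measurability of the derivative
    refine (hχc.aestronglyMeasurable.mul hh_meas).mul ?_
    exact (Finset.measurable_fun_sum _ fun k _ => bder_meas _ k).aestronglyMeasurable
  · -- bound
    refine (ae_restrict_iff' hSm).2 (Eventually.of_forall fun ζ hζ κ hκ => ?_)
    by_cases hζn : ‖ζ‖ ≤ 7 * D.ε / 16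
    · have h3 := hbd ζ hζ hζn κ hκ
      refine le_trans ?_ h3
      rw [norm_mul, norm_mul]
      have h4 : ‖(χ.χ ζ : ℂ)‖ * ‖h ζ‖ ≤ C₁ / D.a ζ := by
        have := mul_le_mul (hχ1 ζ) (hhb ζ hζ (by linarith)).1 (norm_nonneg _) zero_le_one
        linarith
      exact mul_le_mul_of_nonneg_right h4 (norm_nonneg _)
    · push Not at hζn
      rw [χ.zero ζ hζn.le]
      simp only [Complex.ofReal_zero, zero_mul, norm_zero]
      positivity
  · -- integrability of the bound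
    exact integrableOn_const hSfin.ne
  · -- pointwise derivative
    refine (ae_restrict_iff' hSm).2 (Eventually.of_forall fun ζ hζ κ hκ => ?_)
    by_cases hζn : ‖ζ‖ ≤ 7 * D.ε / 16
    · exact (hder ζ hζ hζn κ hκ).const_mul _
    · push Not at hζn
      simp only [χ.zero ζ hζn.le, Complex.ofReal_zero, zero_mul]
      exact hasDerivAt_const _ _

end LData

end Pool.Agent.H8.FZ
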