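import Pool.Agent.H8.FZ.LBasic

/-!
# FZ-IBP: integration by parts on `S` for functions vanishing to second order at `{r = 0}`

`g` is differentiable on `S`, vanishes for `‖ζ‖ ≥ 7ε/16`, `‖g‖ ≤ B a²` and `‖Dg‖ ≤ B` on `S`.
Then `∫_S Dg(v) = 0`.

Proof. Let `G = S.indicator g`. `G` is differentiable everywhere: on the open set `S` clear; if
`ζ₀ ∉ S` and `‖ζ₀‖ ≥ ε` then `G = 0` near `ζ₀`; if `‖ζ₀‖ < ε` and `r ζ₀ > 0`, `G = 0` near `ζ₀`; if
`‖ζ₀‖ < ε` and `r ζ₀ = 0` then near `ζ₀` `‖G ζ‖ ≤ B a(ζ)₊² ≤ B C² ‖ζ - ζ₀‖²` (`r_lip`), so the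
derivative is `0`. The derivative of `G` is `S.indicator (fderiv ℝ g)`, bounded by `B`, supported
in a ball, and measurable (`measurable_fderiv`), so integrable; `G` is integrable. Apply
`integral_mul_fderiv_eq_neg_fderiv_mul_of_integrable` with the constant function `1` and `G`.
-/

set_option autoImplicit false

noncomputable section

namespace Pool.Agent.H8.FZ

open Complex Metric MeasureTheory Set Filter Topology
open scoped ContDiff ComplexConjugate

variable {n : ℕ}

namespace LData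

variable (D : LData n)

theorem ibp_hasFDerivAt {g : En n → ℂ} (hd : ∀ ζ ∈ D.S, DifferentiableAt ℝ g ζ)
    (h0 : ∀ ζ : En n, 7 * D.ε / 16 ≤ ‖ζ‖ → g ζ = 0) {B : ℝ}
    (hg : ∀ ζ ∈ D.S, ‖g ζ‖ ≤ B * D.a ζ ^ 2) (x : En n) :
    HasFDerivAt (D.S.indicator g) (D.S.indicator (fderiv ℝ g) x) x := by
  by_cases hx : x ∈ D.S
  · rw [indicator_of_mem hx]
    refine (hd x hx).hasFDerivAt.congr_of_eventuallyEq ?_
    filter_upwards [D.isOpen_S.mem_nhds hx] with y hy
    rw [indicator_of_mem hy]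
  · rw [indicator_of_notMem hx]
    by_cases hxε : ‖x‖ < D.ε
    · have hr : 0 ≤ D.r x := by
        by_contra hneg
        exact hx ⟨by rwa [mem_ball_zero_iff], not_le.1 hneg⟩
      have hball : ball (0 : En n) D.ε ∈ 𝓝 x :=
        isOpen_ball.mem_nhds (by rwa [mem_ball_zero_iff])
      refine Asymptotics.IsBigO.hasFDerivAt (n := 2) ?_ one_lt_two
      refine Asymptotics.IsBigO.of_bound (|B| * D.C ^ 2) ?_
      filter_upwards [hball] with y hy
      by_cases hyS : y ∈ D.S
      · rw [indicator_of_mem hyS]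
        have h1 := hg y hyS
        have h2 := D.r_lip (ζ := x) (z := y) (by rwa [mem_ball_zero_iff]) hy
        have h3 : D.r y < 0 := hyS.2
        have h4 : 0 ≤ D.a y := by
          unfold LData.a
          linarith
        have h5 : D.a y ≤ D.C * ‖y - x‖ := by
          unfold LData.a
          have := neg_le_abs (D.r y - D.r x)
          linarith
        have h6 : D.a y ^ 2 ≤ (D.C * ‖y - x‖) ^ 2 := pow_le_pow_left₀ h4 h5 2
        rw [norm_pow, norm_norm]
        calc ‖g y‖ ≤ B * D.a y ^ 2 := h1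
          _ ≤ |B| * D.a y ^ 2 := by
            gcongr
            exact le_abs_self B
          _ ≤ |B| * (D.C * ‖y - x‖) ^ 2 := by gcongr
          _ = |B| * D.C ^ 2 * ‖y - x‖ ^ 2 := by ring
      · rw [indicator_of_notMem hyS, norm_zero]
        positivity
    · have hpos := D.hε
      refine (hasFDerivAt_const (0 : ℂ) x).congr_of_eventuallyEq ?_
      have hev : ∀ᶠ y in 𝓝 x, 7 * D.ε / 16 < ‖y‖ := by
        have : 7 * D.ε / 16 < ‖x‖ := by
          have := not_lt.1 hxε
          linarith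
        exact continuous_norm.continuousAt.eventually (lt_mem_nhds this)
      filter_upwards [hev] with y hy
      by_cases hyS : y ∈ D.S
      · rw [indicator_of_mem hyS, h0 y hy.le]
      · rw [indicator_of_notMem hyS]

theorem ibp_int {g : En n → ℂ} (hd : ∀ ζ ∈ D.S, DifferentiableAt ℝ g ζ)
    (h0 : ∀ ζ : En n, 7 * D.ε / 16 ≤ ‖ζ‖ → g ζ = 0) {B : ℝ}
    (hg : ∀ ζ ∈ D.S, ‖g ζ‖ ≤ B * D.a ζ ^ 2) (hg' : ∀ ζ ∈ D.S, ‖fderiv ℝ g ζ‖ ≤ B) (v : En n) :
    IntegrableOn (fun ζ => fderiv ℝ g ζ v) D.S ∧ ∫ ζ in D.S, fderiv ℝ g ζ v = 0 := by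
  have hD := D.ibp_hasFDerivAt hd h0 hg
  set G : En n → ℂ := D.S.indicator g with hG
  have hfd : ∀ x, fderiv ℝ G x = D.S.indicator (fderiv ℝ g) x := fun x => (hD x).fderiv
  have hfdv : (fun x => fderiv ℝ G x v) = D.S.indicator (fun x => fderiv ℝ g x v) := by
    funext x
    rw [hfd x]
    by_cases hx : x ∈ D.S
    · rw [indicator_of_mem hx, indicator_of_mem hx]
    · rw [indicator_of_notMem hx, indicator_of_notMem hx]
      rfl
  have hSm : MeasurableSet D.S := D.isOpen_S.measurableSet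
  have hSfin : volume D.S < ⊤ :=
    (measure_mono (fun x hx => hx.1)).trans_lt (measure_ball_lt_top (x := (0 : En n)) (r := D.ε))
  have hint' : Integrable (fun x => fderiv ℝ G x v) := by
    have hmeas : AEStronglyMeasurable (fun x => fderiv ℝ G x v) volume :=
      (measurable_fderiv_apply_const ℝ G v).aestronglyMeasurable
    have hon : IntegrableOn (fun x => fderiv ℝ G x v) D.S := by
      refine Measure.integrableOn_of_bounded (M := |B| * ‖v‖) hSfin.ne hmeas ?_
      filter_upwards [ae_restrict_mem hSm] with x hx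
      rw [hfd x, indicator_of_mem hx]
      refine (ContinuousLinearMap.le_opNorm _ _).trans ?_
      gcongr
      exact (hg' x hx).trans (le_abs_self B)
    refine (integrableOn_iff_integrable_of_support_subset ?_).1 hon
    rw [hfdv]
    exact support_indicator_subset
  have hintG : Integrable G := by
    have hcont : Continuous G := by
      rw [continuous_iff_continuousAt]
      exact fun x => (hD x).continuousAt
    have hon : IntegrableOn G D.S := by
      refine Measure.integrableOn_of_bounded (M := |B|) hSfin.ne hcont.aestronglyMeasurable ?_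
      filter_upwards [ae_restrict_mem hSm] with x hx
      rw [hG, indicator_of_mem hx]
      refine (hg x hx).trans ?_
      have h1 := D.b0 x hx.1
      have h2 : D.a x ^ 2 ≤ 1 := by
        unfold LData.a
        rw [neg_sq, ← sq_abs]
        exact pow_le_one₀ (abs_nonneg _) h1
      calc B * D.a x ^ 2 ≤ |B| * D.a x ^ 2 := by
            gcongr
            exact le_abs_self B
        _ ≤ |B| * 1 := by gcongr
        _ = |B| := mul_one _
    refine (integrableOn_iff_integrable_of_support_subset ?_).1 hon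
    exact support_indicator_subset
  constructor
  · have := hint'
    rw [hfdv, integrable_indicator_iff hSm] at this
    exact this
  · have hkey := integral_mul_fderiv_eq_neg_fderiv_mul_of_integrable (μ := (volume : Measure (En n)))
      (f := fun _ => (1 : ℂ)) (g := G) (v := v) (by simp) (by simpa using hint')
      (by simpa using hintG) (fun x _ => differentiableAt_const _)
      (fun x _ => (hD x).differentiableAt)
    have h1 : ∫ x, (1 : ℂ) * fderiv ℝ G x v = 0 := by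
      rw [hkey]
      simp
    have h2 : (fun x => (1 : ℂ) * fderiv ℝ G x v) =
        D.S.indicator (fun x => fderiv ℝ g x v) := by
      rw [← hfdv]
      funext x
      rw [one_mul]
    rw [h2, integral_indicator hSm] at h1
    exact h1

theorem ibp0 {g : En n → ℂ} (hd : ∀ ζ ∈ D.S, DifferentiableAt ℝ g ζ)
    (h0 : ∀ ζ : En n, 7 * D.ε / 16 ≤ ‖ζ‖ → g ζ = 0) {B : ℝ}
    (hg : ∀ ζ ∈ D.S, ‖g ζ‖ ≤ B * D.a ζ ^ 2) (hg' : ∀ ζ ∈ D.S, ‖fderiv ℝ g ζ‖ ≤ B) (v : En n) :
    ∫ ζ in D.S, fderiv ℝ g ζ v = 0 :=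
  (D.ibp_int hd h0 hg hg' v).2

theorem ibp_dbar {g : En n → ℂ} (hd : ∀ ζ ∈ D.S, DifferentiableAt ℝ g ζ)
    (h0 : ∀ ζ : En n, 7 * D.ε / 16 ≤ ‖ζ‖ → g ζ = 0) {B : ℝ}
    (hg : ∀ ζ ∈ D.S, ‖g ζ‖ ≤ B * D.a ζ ^ 2) (hg' : ∀ ζ ∈ D.S, ‖fderiv ℝ g ζ‖ ≤ B) (k : Fin n) :
    ∫ ζ in D.S, dbar k g ζ = 0 := by
  obtain ⟨hi1, he1⟩ := D.ibp_int hd h0 hg hg' (eb k)
  obtain ⟨hi2, he2⟩ := D.ibp_int hd h0 hg hg' (I • eb k)
  unfold dbar
  rw [integral_const_mul, integral_add hi1 (hi2.const_mul I), integral_const_mul, he1, he2]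
  simp

theorem ibp_del {g : En n → ℂ} (hd : ∀ ζ ∈ D.S, DifferentiableAt ℝ g ζ)
    (h0 : ∀ ζ : En n, 7 * D.ε / 16 ≤ ‖ζ‖ → g ζ = 0) {B : ℝ}
    (hg : ∀ ζ ∈ D.S, ‖g ζ‖ ≤ B * D.a ζ ^ 2) (hg' : ∀ ζ ∈ D.S, ‖fderiv ℝ g ζ‖ ≤ B) (k : Fin n) :
    ∫ ζ in D.S, del k g ζ = 0 := by
  obtain ⟨hi1, he1⟩ := D.ibp_int hd h0 hg hg' (eb k)
  obtain ⟨hi2, he2⟩ := D.ibp_int hd h0 hg hg' (I • eb k)
  unfold del
  rw [integral_const_mul, integral_sub hi1 (hi2.const_mul I), integral_const_mul, he1, he2]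
  simp

end LData

end Pool.Agent.H8.FZ
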