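import Pool.Agent.H8.FZ.BReg
import Pool.Agent.H8.FZ.Ibp

/-!
# FZ-BIBP: the integrated `κ`-derivative is uniformly `O((1+κ)^{-2})`

`ibp_dbar` for `g = χ h V_k` (by `chV_reg`, `V_diff`), `∂̄_k g = ∂̄_kχ · h V_k + χ h ∂̄_k V_k`
(`∂̄_k h = 0`), gives `∫_S χ h ∂̄_k V_k = - ∫_S ∂̄_kχ · h V_k`. Here `∂̄_kχ` is bounded and vanishes
unless `3ε/8 ≤ ‖ζ‖ ≤ 7ε/16` (a smooth function constant on an open set has zero derivative there,
and then on the closure), and there `‖h V_k‖ ≤ (C₁/a) · C a/(1+κ)²` by `V_unif`. `S` has finite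
measure. Integrability of `χ h ∂̄_k V_k`: it is `∂̄_k g - ∂̄_kχ h V_k`, both bounded and measurable
on `S` (`g` bounded derivative; use `AEStronglyMeasurable` from continuity on the open set `S`;
`V_k` is `C^∞` on `S`).
-/

set_option autoImplicit false

noncomputable section

namespace Pool.Agent.H8.FZ

open Complex Metric MeasureTheory Set Filter Topology
open scoped ContDiff ComplexConjugate

variable {n : ℕ}

namespace LData

variable (D : LData n)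

/-- the derivative of the cut-off is bounded and vanishes away from the shell. -/
private theorem bibp_chi (χ : D.Cut) : ∃ Bχ : ℝ, 0 ≤ Bχ ∧ ∀ ζ : En n, ∀ k,
    ‖dbar k (fun x => (χ.χ x : ℂ)) ζ‖ ≤ Bχ ∧
    (‖ζ‖ < 3 * D.ε / 8 → dbar k (fun x => (χ.χ x : ℂ)) ζ = 0) ∧
    (7 * D.ε / 16 < ‖ζ‖ → dbar k (fun x => (χ.χ x : ℂ)) ζ = 0) := by
  have hsm : ContDiff ℝ ∞ (fun x : En n => (χ.χ x : ℂ)) := Complex.ofRealCLM.contDiff.comp χ.smooth
  have hcont : Continuous (fun ζ : En n => fderiv ℝ (fun x : En n => (χ.χ x : ℂ)) ζ) :=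
    hsm.continuous_fderiv (by simp)
  have hzero2 : ∀ ζ : En n, 7 * D.ε / 16 < ‖ζ‖ →
      (fun x : En n => (χ.χ x : ℂ)) =ᶠ[𝓝 ζ] fun _ => (0 : ℂ) := by
    intro ζ hζ
    have ho : IsOpen {x : En n | 7 * D.ε / 16 < ‖x‖} := isOpen_lt continuous_const continuous_norm
    filter_upwards [ho.mem_nhds hζ] with x hx
    rw [χ.zero x (le_of_lt hx)]
    simp
  have hzero1 : ∀ ζ : En n, ‖ζ‖ < 3 * D.ε / 8 →
      (fun x : En n => (χ.χ x : ℂ)) =ᶠ[𝓝 ζ] fun _ => (1 : ℂ) := by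
    intro ζ hζ
    have ho : IsOpen {x : En n | ‖x‖ < 3 * D.ε / 8} := isOpen_lt continuous_norm continuous_const
    filter_upwards [ho.mem_nhds hζ] with x hx
    rw [χ.one x (le_of_lt hx)]
    simp
  obtain ⟨B, hB⟩ := (isCompact_closedBall (0 : En n) (7 * D.ε / 16)).exists_bound_of_continuousOn
    hcont.continuousOn
  have hB0 : 0 ≤ B := by
    have := hB 0 (by rw [mem_closedBall_zero_iff, norm_zero]; have := D.hε; positivity)
    exact (norm_nonneg _).trans this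
  refine ⟨B, hB0, fun ζ k => ⟨?_, ?_, ?_⟩⟩
  · by_cases hζ : ‖ζ‖ ≤ 7 * D.ε / 16
    · exact (norm_dbar_le _ _ _).trans (hB ζ (by rwa [mem_closedBall_zero_iff]))
    · push Not at hζ
      rw [dbar_congr (hzero2 ζ hζ), dbar_const, norm_zero]
      exact hB0
  · intro hζ
    rw [dbar_congr (hzero1 ζ hζ), dbar_const]
  · intro hζ
    rw [dbar_congr (hzero2 ζ hζ), dbar_const]

private theorem bibp_meas (g : En n → ℂ) (k : Fin n) : Measurable (dbar k g) := by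
  unfold dbar
  have h1 : Measurable (fun z : En n => fderiv ℝ g z (eb k)) := measurable_fderiv_apply_const ℝ g _
  have h2 : Measurable (fun z : En n => fderiv ℝ g z (I • eb k)) :=
    measurable_fderiv_apply_const ℝ g _
  exact (h1.add (h2.const_mul _)).const_mul _

private theorem bibp_fin : (volume : Measure (En n)) D.S < ⊤ :=
  lt_of_le_of_lt (measure_mono (fun _ hz => hz.1)) (measure_ball_lt_top (μ := volume)
    (x := (0 : En n)) (r := D.ε))

theorem int_dbarV_le (χ : D.Cut) {h : En n → ℂ} {C₁ : ℝ} (hh : D.Tame h C₁) :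
    ∃ C : ℝ, 0 < C ∧ ∀ z ∈ D.S, ‖z‖ < D.ε / 4 → ∀ κ : ℝ, 0 ≤ κ →
      ‖∫ ζ in D.S, (χ.χ ζ : ℂ) * h ζ * ∑ k, dbar k (Vof D.Qv (mm n) z κ k) ζ‖ ≤
        C / (1 + κ) ^ 2 := by
  classical
  obtain ⟨Bχ, hBχ, hχ⟩ := D.bibp_chi χ
  obtain ⟨CV, hCV, hV⟩ := D.V_unif
  obtain ⟨hhd, hC₁, hhb⟩ := hh
  have hSo : IsOpen D.S := D.isOpen_S
  have hSm : MeasurableSet D.S := hSo.measurableSet
  have hSfin := D.bibp_fin
  set vol : ℝ := (volume : Measure (En n)).real D.S with hvol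
  have hvol0 : 0 ≤ vol := measureReal_nonneg
  set M : ℝ := Bχ * C₁ * CV with hM
  have hM0 : 0 ≤ M := by positivity
  refine ⟨n * (M * vol) + 1, by positivity, ?_⟩
  intro z hz hzn κ hκ
  have h1κ : 0 < (1 + κ) ^ 2 := by positivity
  have hε := D.hε
  -- the pieces
  have hdV : ∀ k, ∀ ζ ∈ D.S, DifferentiableAt ℝ (Vof D.Qv (mm n) z κ k) ζ :=
    fun k ζ hζ => D.V_diff hz hκ k hζ
  have hdh : ∀ ζ ∈ D.S, DifferentiableAt ℂ h ζ := fun ζ hζ => hhd.differentiableAt (hSo.mem_nhds hζ)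
  have hdχ : ∀ ζ : En n, DifferentiableAt ℝ (fun x : En n => (χ.χ x : ℂ)) ζ := fun ζ =>
    (Complex.ofRealCLM.contDiff.comp χ.smooth).contDiffAt.differentiableAt (by simp)
  have hid : ∀ k, ∀ ζ ∈ D.S,
      dbar k (fun x => (χ.χ x : ℂ) * h x * Vof D.Qv (mm n) z κ k x) ζ =
      dbar k (fun x => (χ.χ x : ℂ)) ζ * h ζ * Vof D.Qv (mm n) z κ k ζ +
      (χ.χ ζ : ℂ) * h ζ * dbar k (Vof D.Qv (mm n) z κ k) ζ := by
    intro k ζ hζ
    have hh' : DifferentiableAt ℝ h ζ := (hdh ζ hζ).restrictScalars ℝ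
    have hχh : DifferentiableAt ℝ (fun x => (χ.χ x : ℂ) * h x) ζ := (hdχ ζ).mul hh'
    rw [dbar_mul hχh (hdV k ζ hζ), dbar_mul (hdχ ζ) hh', dbar_of_holo (hdh ζ hζ)]
    ring
  have hbd : ∀ k, ∀ ζ ∈ D.S,
      ‖dbar k (fun x => (χ.χ x : ℂ)) ζ * h ζ * Vof D.Qv (mm n) z κ k ζ‖ ≤ M / (1 + κ) ^ 2 := by
    intro k ζ hζ
    have haζ : 0 < D.a ζ := by have := hζ.2; simp only [LData.a]; linarith
    by_cases h1 : ‖ζ‖ < 3 * D.ε / 8
    · rw [(hχ ζ k).2.1 h1]
      simp only [zero_mul, norm_zero]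
      positivity
    · push Not at h1
      by_cases h2 : 7 * D.ε / 16 < ‖ζ‖
      · rw [(hχ ζ k).2.2 h2]
        simp only [zero_mul, norm_zero]
        positivity
      · push Not at h2
        have e1 := (hχ ζ k).1
        have e2 := (hhb ζ hζ (by linarith)).1
        have e3 := hV z hz hzn κ hκ ζ hζ h1 h2 k
        rw [norm_mul, norm_mul]
        calc ‖dbar k (fun x => (χ.χ x : ℂ)) ζ‖ * ‖h ζ‖ * ‖Vof D.Qv (mm n) z κ k ζ‖
            ≤ Bχ * (C₁ / D.a ζ) * (CV * D.a ζ / (1 + κ) ^ 2) := by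
              have hC₁' : 0 ≤ C₁ / D.a ζ := by positivity
              exact mul_le_mul (mul_le_mul e1 e2 (norm_nonneg _) hBχ) e3 (norm_nonneg _)
                (mul_nonneg hBχ hC₁')
          _ = M / (1 + κ) ^ 2 := by
              rw [hM]
              field_simp
  have hint2 : ∀ k, IntegrableOn
      (fun ζ => dbar k (fun x => (χ.χ x : ℂ)) ζ * h ζ * Vof D.Qv (mm n) z κ k ζ) D.S := by
    intro k
    refine IntegrableOn.of_bound hSfin ?_ (M / (1 + κ) ^ 2) ?_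
    · have a1 : AEStronglyMeasurable (fun ζ => dbar k (fun x => (χ.χ x : ℂ)) ζ)
          (volume.restrict D.S) := (bibp_meas _ k).aestronglyMeasurable
      have a2 : AEStronglyMeasurable h (volume.restrict D.S) :=
        hhd.continuousOn.aestronglyMeasurable hSm
      have a3 : AEStronglyMeasurable (Vof D.Qv (mm n) z κ k) (volume.restrict D.S) := by
        refine ContinuousOn.aestronglyMeasurable ?_ hSm
        intro ζ hζ
        exact (hdV k ζ hζ).continuousAt.continuousWithinAt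
      exact (a1.mul a2).mul a3
    · exact (ae_restrict_iff' hSm).2 (Eventually.of_forall fun ζ hζ => hbd k ζ hζ)
  have hint1 : ∀ k, IntegrableOn
      (dbar k (fun x => (χ.χ x : ℂ) * h x * Vof D.Qv (mm n) z κ k x)) D.S := by
    intro k
    obtain ⟨B, hB⟩ := D.chV_reg χ ⟨hhd, hC₁, hhb⟩ hz hκ k
    refine Measure.integrableOn_of_bounded (M := B) hSfin.ne
      (bibp_meas _ k).aestronglyMeasurable ?_
    exact (ae_restrict_iff' hSm).2 (Eventually.of_forall fun ζ hζ =>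
      (norm_dbar_le _ _ _).trans (hB ζ hζ).2)
  have hzero : ∀ k, ∫ ζ in D.S,
      dbar k (fun x => (χ.χ x : ℂ) * h x * Vof D.Qv (mm n) z κ k x) ζ = 0 := by
    intro k
    obtain ⟨B, hB⟩ := D.chV_reg χ ⟨hhd, hC₁, hhb⟩ hz hκ k
    refine D.ibp_dbar ?_ ?_ (fun ζ hζ => (hB ζ hζ).1) (fun ζ hζ => (hB ζ hζ).2) k
    · intro ζ hζ
      exact ((hdχ ζ).mul ((hdh ζ hζ).restrictScalars ℝ)).mul (hdV k ζ hζ)
    · intro ζ hζ
      rw [χ.zero ζ hζ]
      simp
  have hfun : ∫ ζ in D.S, (χ.χ ζ : ℂ) * h ζ * ∑ k, dbar k (Vof D.Qv (mm n) z κ k) ζ =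
      ∑ k, ∫ ζ in D.S, (dbar k (fun x => (χ.χ x : ℂ) * h x * Vof D.Qv (mm n) z κ k x) ζ -
        dbar k (fun x => (χ.χ x : ℂ)) ζ * h ζ * Vof D.Qv (mm n) z κ k ζ) := by
    rw [← integral_finsetSum]
    · refine setIntegral_congr_fun hSm fun ζ hζ => ?_
      rw [Finset.mul_sum]
      refine Finset.sum_congr rfl fun k _ => ?_
      rw [hid k ζ hζ]
      ring
    · intro k _
      exact (hint1 k).sub (hint2 k)
  rw [hfun]
  have hterm : ∀ k : Fin n, ‖∫ ζ in D.S,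
      (dbar k (fun x => (χ.χ x : ℂ) * h x * Vof D.Qv (mm n) z κ k x) ζ -
        dbar k (fun x => (χ.χ x : ℂ)) ζ * h ζ * Vof D.Qv (mm n) z κ k ζ)‖ ≤
        M / (1 + κ) ^ 2 * vol := by
    intro k
    rw [integral_sub (hint1 k) (hint2 k), hzero k, zero_sub, norm_neg]
    exact norm_setIntegral_le_of_norm_le_const hSfin (fun ζ hζ => hbd k ζ hζ)
  calc ‖∑ k, ∫ ζ in D.S, (dbar k (fun x => (χ.χ x : ℂ) * h x * Vof D.Qv (mm n) z κ k x) ζ -
        dbar k (fun x => (χ.χ x : ℂ)) ζ * h ζ * Vof D.Qv (mm n) z κ k ζ)‖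
      ≤ ∑ k : Fin n, M / (1 + κ) ^ 2 * vol := norm_sum_le_of_le _ fun k _ => hterm k
    _ = n * (M * vol) / (1 + κ) ^ 2 := by
        rw [Finset.sum_const, Finset.card_univ, Fintype.card_fin, nsmul_eq_mul]
        ring
    _ ≤ (n * (M * vol) + 1) / (1 + κ) ^ 2 := by
        gcongr
        linarith

end LData

end Pool.Agent.H8.FZ
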