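import Pool.Agent.H8.FZ.BReg

/-!
# FZ-BLIM: the limit `κ → ∞`

Fix `z ∈ S`, `‖z‖ < ε/4`. Substitute `ζ = z + κ^{-1/2} x` (`dζ = κ^{-n} dx`, real dimension `2n`):
`∫_S χ h A_κ^{-m} det J_κ = ∫ Φ_κ(x) dx` with
`Φ_κ(x) = κ^{-n} (1_S χ h A_κ^{-m} det J_κ)(z + κ^{-1/2} x)`.

Pointwise limit: `A_κ(z+κ^{-1/2}x) = 1 + ⟨Q(z+κ^{-1/2}x), κ^{-1/2}x⟩ + |x|² → 1+|x|²`,
`κ^{-n} det J_κ = det(κ^{-1} ∂̄Q + 1) → 1`, `χ h → h(z)` (`χ = 1` near `z`).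

Domination, `κ ≥ 1`, `ζ = z+κ^{-1/2}x ∈ S`, `‖ζ‖ ≤ 7ε/16`: `‖h‖ ≤ C₁/a`,
`κ^{-n} ‖det J_κ‖ ≤ C (1/a² + 1)^n ≤ C a^{-2n}` (`det_Jof_le`), `‖A‖ ≥ re A ≥ 1/2 + |x|²` and
`‖A‖ ≥ a(z)/(2 a(ζ))` (`re_Aof_ge`), so
`‖A‖^{-m} ≤ (2 a(ζ)/a(z))^{2n+1} (1/2+|x|²)^{-(m-2n-1)}`, total
`≤ C_z (1/2+|x|²)^{-(2n+7)}`, integrable on `ℝ^{2n}`
(`integrable_one_add_norm`-type lemma; `m = 4n+8`).
-/

set_option autoImplicit false

noncomputable section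

namespace Pool.Agent.H8.FZ

open Complex Metric MeasureTheory Set Filter Topology
open scoped ContDiff ComplexConjugate

variable {n : ℕ}

namespace LData

variable (D : LData n)

/-- the integrand of the homotopy formula -/
def gint (χ : D.Cut) (h : En n → ℂ) (z : En n) (κ : ℝ) (ζ : En n) : ℂ :=
  (χ.χ ζ : ℂ) * h ζ * Kof D.Qv (mm n) z κ ζ

/-- the rescaled integrand -/
def Phi (χ : D.Cut) (h : En n → ℂ) (z : En n) (κ : ℝ) (x : En n) : ℂ :=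
  (((κ ^ n)⁻¹ : ℝ) : ℂ) * D.S.indicator (D.gint χ h z κ) (z + (√κ)⁻¹ • x)

theorem a_pos {ζ : En n} (hζ : ζ ∈ D.S) : 0 < D.a ζ := by
  have := hζ.2
  simp only [LData.a]
  linarith

theorem a_le_one {ζ : En n} (hζ : ζ ∈ D.S) : D.a ζ ≤ 1 := by
  have := D.b0 ζ hζ.1
  have h2 := abs_le.1 this
  simp only [LData.a]
  linarith [h2.1]

theorem continuousOn_Qv (j : Fin n) : ContinuousOn (fun x => D.Qv x j) D.S :=
  (D.contDiffOn_Qv j).continuousOn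

theorem continuousOn_dbar_Qv (j k : Fin n) :
    ContinuousOn (dbar k (fun x => D.Qv x j)) D.S :=
  (contDiffOn_dbar D.isOpen_S (D.contDiffOn_Qv j) k).continuousOn

theorem continuousOn_Aof (z : En n) (κ : ℝ) : ContinuousOn (Aof D.Qv z κ) D.S := by
  unfold Aof pr
  refine ContinuousOn.add (ContinuousOn.add continuousOn_const ?_) ?_
  · refine continuousOn_finsetSum _ fun j _ => ?_
    refine (D.continuousOn_Qv j).mul ?_
    exact Continuous.continuousOn (by fun_prop)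
  · exact Continuous.continuousOn (by fun_prop)

theorem re_Aof_pos {ζ z : En n} (hζ : ζ ∈ D.S) (hz : z ∈ D.S) {κ : ℝ} (hκ : 0 ≤ κ) :
    1 / 2 + κ * ‖ζ - z‖ ^ 2 ≤ (Aof D.Qv z κ ζ).re ∧
      D.a z / (2 * D.a ζ) ≤ (Aof D.Qv z κ ζ).re := by
  have h1 := D.re_Aof_ge hζ hz κ
  have h2 := D.a_pos hζ
  have h3 := D.a_pos hz
  have h4 : 0 ≤ (D.c / 2) * ‖ζ - z‖ ^ 2 := by
    have := D.hc
    positivity
  have h5 : 0 ≤ κ * ‖ζ - z‖ ^ 2 := by positivity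
  have h6 : (D.a ζ) / (2 * D.a ζ) = 1 / 2 := by
    field_simp
  have h7 : (D.a ζ + D.a z + (D.c / 2) * ‖ζ - z‖ ^ 2) / (2 * D.a ζ) =
      D.a ζ / (2 * D.a ζ) + D.a z / (2 * D.a ζ) + (D.c / 2) * ‖ζ - z‖ ^ 2 / (2 * D.a ζ) := by
    rw [add_div, add_div]
  have h8 : 0 ≤ D.a z / (2 * D.a ζ) := by positivity
  have h9 : 0 ≤ (D.c / 2) * ‖ζ - z‖ ^ 2 / (2 * D.a ζ) := by positivity
  rw [h7, h6] at h1
  constructor <;> linarith

theorem Aof_ne_zero {ζ z : En n} (hζ : ζ ∈ D.S) (hz : z ∈ D.S) {κ : ℝ} (hκ : 0 ≤ κ) :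
    Aof D.Qv z κ ζ ≠ 0 := by
  intro h
  have h1 := (D.re_Aof_pos hζ hz hκ).1
  rw [h, zero_re] at h1
  have h5 : 0 ≤ κ * ‖ζ - z‖ ^ 2 := by positivity
  linarith

theorem continuousOn_gint (χ : D.Cut) {h : En n → ℂ} {C₁ : ℝ} (hh : D.Tame h C₁) {z : En n}
    (hz : z ∈ D.S) {κ : ℝ} (hκ : 0 ≤ κ) : ContinuousOn (D.gint χ h z κ) D.S := by
  unfold gint Kof
  refine ContinuousOn.mul (ContinuousOn.mul ?_ ?_) (ContinuousOn.mul ?_ ?_)
  · exact (continuous_ofReal.comp χ.smooth.continuous).continuousOn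
  · exact hh.1.continuousOn
  · exact ((D.continuousOn_Aof z κ).inv₀ fun ζ hζ => D.Aof_ne_zero hζ hz hκ).pow _
  · unfold Jof
    rw [continuousOn_iff_continuous_domRestrict]
    refine Continuous.matrix_det ?_
    refine continuous_matrix fun j k => ?_
    have h1 := (D.continuousOn_dbar_Qv j k).domRestrict
    exact h1.add continuous_const

theorem measurable_ind (χ : D.Cut) {h : En n → ℂ} {C₁ : ℝ} (hh : D.Tame h C₁) {z : En n}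
    (hz : z ∈ D.S) {κ : ℝ} (hκ : 0 ≤ κ) : Measurable (D.S.indicator (D.gint χ h z κ)) := by
  classical
  have h1 := ContinuousOn.measurable_piecewise (g := 0) (D.continuousOn_gint χ hh hz hκ)
    continuousOn_const D.isOpen_S.measurableSet
  rwa [Set.piecewise_eq_indicator] at h1

theorem integral_eq_Phi (χ : D.Cut) (h : En n → ℂ) (z : En n) {κ : ℝ} (hκ : 0 < κ) :
    ∫ ζ in D.S, D.gint χ h z κ ζ = ∫ x, D.Phi χ h z κ x := by
  rw [← integral_indicator D.isOpen_S.measurableSet]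
  set G := D.S.indicator (D.gint χ h z κ) with hG
  unfold Phi
  rw [integral_const_mul, ← hG]
  have h1 : ∫ x, G (z + (√κ)⁻¹ • x) = |(((√κ)⁻¹) ^ Module.finrank ℝ (En n))⁻¹| • ∫ x, G (z + x) :=
    MeasureTheory.Measure.integral_comp_smul volume (fun y => G (z + y)) _
  have hfin : Module.finrank ℝ (En n) = 2 * n := by
    simp [finrank_real_of_complex]
  rw [h1, integral_add_left_eq_self (μ := volume) G z, hfin, pow_mul, inv_pow, Real.sq_sqrt hκ.le, inv_pow,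
    inv_inv, abs_of_pos (by positivity), Complex.real_smul, ← mul_assoc, ← Complex.ofReal_mul,
    inv_mul_cancel₀ (by positivity)]
  simp


theorem norm_smul_w {κ : ℝ} (hκ : 0 < κ) (z x : En n) :
    κ * ‖(z + (√κ)⁻¹ • x) - z‖ ^ 2 = ‖x‖ ^ 2 := by
  rw [add_sub_cancel_left, norm_smul, mul_pow, norm_inv, Real.norm_eq_abs, inv_pow, sq_abs,
    Real.sq_sqrt hκ.le, ← mul_assoc, mul_inv_cancel₀ hκ.ne', one_mul]

theorem det_scale {κ : ℝ} (hκ : 0 < κ) (ζ : En n) :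
    (((κ ^ n)⁻¹ : ℝ) : ℂ) * (Jof D.Qv κ ζ).det =
      (Matrix.of fun j k : Fin n => ((κ⁻¹ : ℝ) : ℂ) * dbar k (fun y => D.Qv y j) ζ +
        (if j = k then (1 : ℂ) else 0)).det := by
  have h1 : (Matrix.of fun j k : Fin n => ((κ⁻¹ : ℝ) : ℂ) * dbar k (fun y => D.Qv y j) ζ +
        (if j = k then (1 : ℂ) else 0)) = ((κ⁻¹ : ℝ) : ℂ) • Jof D.Qv κ ζ := by
    ext j k
    simp only [Jof, Matrix.of_apply, Matrix.smul_apply, smul_eq_mul, mul_add]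
    congr 1
    by_cases hjk : j = k
    · rw [if_pos hjk, if_pos hjk, ← Complex.ofReal_mul, inv_mul_cancel₀ hκ.ne']
      simp
    · rw [if_neg hjk, if_neg hjk, mul_zero]
  rw [h1, Matrix.det_smul, Fintype.card_fin]
  push_cast
  rw [inv_pow]

theorem tendsto_w (z x : En n) : Tendsto (fun κ : ℝ => z + (√κ)⁻¹ • x) atTop (𝓝 z) := by
  have h1 : Tendsto (fun κ : ℝ => (√κ)⁻¹) atTop (𝓝 0) :=
    tendsto_inv_atTop_zero.comp Real.tendsto_sqrt_atTop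
  have h2 := (h1.smul_const x).const_add z
  simpa using h2

theorem tendsto_Phi (χ : D.Cut) {h : En n → ℂ} {C₁ : ℝ} (hh : D.Tame h C₁) {z : En n}
    (hz : z ∈ D.S) (hz' : ‖z‖ < D.ε / 4) (x : En n) :
    Tendsto (fun κ : ℝ => D.Phi χ h z κ x) atTop
      (𝓝 ((((1 + ‖x‖ ^ 2)⁻¹ ^ mm n : ℝ) : ℂ) * h z)) := by
  have hw := tendsto_w z x
  have hS : ∀ᶠ κ : ℝ in atTop, z + (√κ)⁻¹ • x ∈ D.S := hw (D.isOpen_S.mem_nhds hz)
  have hpos : ∀ᶠ κ : ℝ in atTop, 0 < κ := eventually_gt_atTop 0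
  have hχ1 : χ.χ z = 1 := χ.one z (by linarith [D.hε])
  have hχ : Tendsto (fun κ : ℝ => (χ.χ (z + (√κ)⁻¹ • x) : ℂ)) atTop (𝓝 1) := by
    have h1 := ((continuous_ofReal.comp χ.smooth.continuous).tendsto z).comp hw
    simp only [Function.comp_def, hχ1] at h1
    simpa using h1
  have hcont : ∀ {f : En n → ℂ}, ContinuousOn f D.S →
      Tendsto (fun κ : ℝ => f (z + (√κ)⁻¹ • x)) atTop (𝓝 (f z)) := by
    intro f hf
    exact ((hf.continuousAt (D.isOpen_S.mem_nhds hz)).tendsto).comp hw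
  have hh' := hcont hh.1.continuousOn
  -- A
  have hA : Tendsto (fun κ : ℝ => Aof D.Qv z κ (z + (√κ)⁻¹ • x)) atTop
      (𝓝 (((1 + ‖x‖ ^ 2 : ℝ)) : ℂ)) := by
    have h1 : Tendsto (fun κ : ℝ => 1 + pr (D.Qv (z + (√κ)⁻¹ • x)) ((z + (√κ)⁻¹ • x) - z) +
        ((‖x‖ ^ 2 : ℝ) : ℂ)) atTop (𝓝 (1 + pr (D.Qv z) (z - z) + ((‖x‖ ^ 2 : ℝ) : ℂ))) := by
      refine Tendsto.add_const _ (Tendsto.const_add _ ?_)
      unfold pr
      refine tendsto_finsetSum _ fun j _ => ?_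
      refine (hcont (D.continuousOn_Qv j)).mul ?_
      have h2 : Continuous fun y : En n => (y - z) j := by fun_prop
      exact (h2.tendsto z).comp hw
    have h3 : (1 + pr (D.Qv z) (z - z) + ((‖x‖ ^ 2 : ℝ) : ℂ)) = ((1 + ‖x‖ ^ 2 : ℝ) : ℂ) := by
      simp [pr]
    rw [h3] at h1
    refine h1.congr' ?_
    filter_upwards [hpos] with κ hκ
    unfold Aof
    rw [norm_smul_w hκ]
  have hdet : Tendsto (fun κ : ℝ => (((κ ^ n)⁻¹ : ℝ) : ℂ) *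
      (Jof D.Qv κ (z + (√κ)⁻¹ • x)).det) atTop (𝓝 1) := by
    have h1 : Tendsto (fun κ : ℝ => (Matrix.of fun j k : Fin n =>
        ((κ⁻¹ : ℝ) : ℂ) * dbar k (fun y => D.Qv y j) (z + (√κ)⁻¹ • x) +
        (if j = k then (1 : ℂ) else 0))) atTop (𝓝 (1 : Matrix (Fin n) (Fin n) ℂ)) := by
      refine tendsto_pi_nhds.2 fun j => tendsto_pi_nhds.2 fun k => ?_
      have h2 : Tendsto (fun κ : ℝ => ((κ⁻¹ : ℝ) : ℂ)) atTop (𝓝 0) := by
        have h6 := (continuous_ofReal.tendsto (0 : ℝ)).comp (tendsto_inv_atTop_zero (𝕜 := ℝ))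
        rw [ofReal_zero] at h6
        exact h6
      have h3 := hcont (D.continuousOn_dbar_Qv j k)
      have h4 := (h2.mul h3).add_const (if j = k then (1 : ℂ) else 0)
      rw [zero_mul, zero_add] at h4
      exact h4
    have h5 := ((continuous_id.matrix_det (R := ℂ) (n := Fin n)).tendsto 1).comp h1
    simp only [id, Matrix.det_one] at h5
    refine h5.congr' ?_
    filter_upwards [hpos] with κ hκ
    rw [D.det_scale hκ]
    rfl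
  have hne : (((1 + ‖x‖ ^ 2 : ℝ)) : ℂ) ≠ 0 := by
    rw [Complex.ofReal_ne_zero]
    positivity
  have hall := ((hχ.mul hh').mul (((hA.inv₀ hne).pow (mm n)).mul hdet))
  have hlim : ((1 : ℂ) * h z * (((((1 + ‖x‖ ^ 2 : ℝ)) : ℂ)⁻¹) ^ mm n * 1)) =
      (((1 + ‖x‖ ^ 2)⁻¹ ^ mm n : ℝ) : ℂ) * h z := by
    push_cast
    ring
  rw [hlim] at hall
  refine hall.congr' ?_
  filter_upwards [hS] with κ hκ
  unfold Phi
  rw [Set.indicator_of_mem hκ]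
  unfold gint Kof
  ring


theorem norm_Phi_le (χ : D.Cut) {h : En n → ℂ} {C₁ : ℝ} (hh : D.Tame h C₁) {z : En n}
    (hz : z ∈ D.S) : ∃ B : ℝ, ∀ κ : ℝ, 1 ≤ κ → ∀ x : En n,
      ‖D.Phi χ h z κ x‖ ≤ B * ((1 + ‖x‖ ^ 2)⁻¹) ^ (2 * n + 7) := by
  obtain ⟨C, hC, hdet⟩ := D.det_Jof_le
  have haz := D.a_pos hz
  have hC₁ : 1 ≤ C₁ := hh.2.1
  refine ⟨C₁ * (C * 2 ^ n) * ((2 / D.a z) ^ (2 * n + 1) * 2 ^ (2 * n + 7)), fun κ hκ x => ?_⟩
  have hB : 0 ≤ C₁ * (C * 2 ^ n) * ((2 / D.a z) ^ (2 * n + 1) * 2 ^ (2 * n + 7)) *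
      ((1 + ‖x‖ ^ 2)⁻¹) ^ (2 * n + 7) := by positivity
  have hκ0 : 0 < κ := by linarith
  unfold Phi
  set ζ := z + (√κ)⁻¹ • x with hζdef
  by_cases hζ : ζ ∈ D.S
  swap
  · rw [Set.indicator_of_notMem hζ, mul_zero, norm_zero]
    exact hB
  rw [Set.indicator_of_mem hζ]
  by_cases hnorm : 7 * D.ε / 16 ≤ ‖ζ‖
  · unfold gint
    rw [χ.zero ζ hnorm]
    simp only [ofReal_zero, zero_mul, mul_zero, norm_zero]
    exact hB
  rw [not_le] at hnorm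
  have hnorm2 : ‖ζ‖ ≤ D.ε / 2 := by linarith [D.hε]
  have ha := D.a_pos hζ
  have ha1 := D.a_le_one hζ
  have h1 := (hh.2.2 ζ hζ hnorm2).1
  have h2 := (hdet ζ hζ hnorm2 κ hκ0.le).1
  obtain ⟨h3, h4⟩ := D.re_Aof_pos hζ hz hκ0.le
  have hw : κ * ‖ζ - z‖ ^ 2 = ‖x‖ ^ 2 := norm_smul_w hκ0 z x
  rw [hw] at h3
  have hAn : (Aof D.Qv z κ ζ).re ≤ ‖Aof D.Qv z κ ζ‖ := Complex.re_le_norm _
  have hχ : ‖(χ.χ ζ : ℂ)‖ ≤ 1 := by
    rw [Complex.norm_real, Real.norm_eq_abs, abs_of_nonneg (χ.nonneg ζ)]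
    exact χ.le_one ζ
  -- the determinant
  have hd : (κ ^ n)⁻¹ * ‖(Jof D.Qv κ ζ).det‖ ≤ C * 2 ^ n * (1 / D.a ζ ^ 2) ^ n := by
    have e1 : 1 / D.a ζ ^ 2 + κ ≤ κ * (2 * (1 / D.a ζ ^ 2)) := by
      have e2 : 1 ≤ 1 / D.a ζ ^ 2 := by
        rw [le_div_iff₀ (by positivity)]
        nlinarith
      nlinarith
    have e3 : (1 / D.a ζ ^ 2 + κ) ^ n ≤ κ ^ n * (2 ^ n * (1 / D.a ζ ^ 2) ^ n) := by
      rw [← mul_pow, ← mul_pow]
      exact pow_le_pow_left₀ (by positivity) e1 n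
    calc (κ ^ n)⁻¹ * ‖(Jof D.Qv κ ζ).det‖ ≤ (κ ^ n)⁻¹ * (C * (1 / D.a ζ ^ 2 + κ) ^ n) := by
          gcongr
      _ ≤ (κ ^ n)⁻¹ * (C * (κ ^ n * (2 ^ n * (1 / D.a ζ ^ 2) ^ n))) := by gcongr
      _ = C * 2 ^ n * (1 / D.a ζ ^ 2) ^ n := by
          have : (κ ^ n) ≠ 0 := by positivity
          field_simp
  -- the power of A
  have hA1 : ‖(Aof D.Qv z κ ζ)⁻¹‖ ≤ (2 / D.a z) * D.a ζ := by
    rw [norm_inv]
    have e1 : D.a z / (2 * D.a ζ) ≤ ‖Aof D.Qv z κ ζ‖ := h4.trans hAn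
    have e2 : 0 < D.a z / (2 * D.a ζ) := by positivity
    calc ‖Aof D.Qv z κ ζ‖⁻¹ ≤ (D.a z / (2 * D.a ζ))⁻¹ := inv_anti₀ e2 e1
      _ = (2 / D.a z) * D.a ζ := by
          rw [inv_div]; ring
  have hA2 : ‖(Aof D.Qv z κ ζ)⁻¹‖ ≤ 2 * (1 + ‖x‖ ^ 2)⁻¹ := by
    rw [norm_inv]
    have e1 : (1 + ‖x‖ ^ 2) / 2 ≤ ‖Aof D.Qv z κ ζ‖ := by
      refine le_trans ?_ (h3.trans hAn)
      have := sq_nonneg ‖x‖
      linarith
    have e2 : 0 < (1 + ‖x‖ ^ 2) / 2 := by positivity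
    calc ‖Aof D.Qv z κ ζ‖⁻¹ ≤ ((1 + ‖x‖ ^ 2) / 2)⁻¹ := inv_anti₀ e2 e1
      _ = 2 * (1 + ‖x‖ ^ 2)⁻¹ := by
          rw [inv_div]; ring
  have hmm : mm n = (2 * n + 1) + (2 * n + 7) := by
    unfold mm; ring
  have hA3 : ‖(Aof D.Qv z κ ζ)⁻¹ ^ mm n‖ ≤
      ((2 / D.a z) * D.a ζ) ^ (2 * n + 1) * (2 * (1 + ‖x‖ ^ 2)⁻¹) ^ (2 * n + 7) := by
    rw [norm_pow, hmm, pow_add]
    gcongr
  have hsplit : ‖(((κ ^ n)⁻¹ : ℝ) : ℂ) * D.gint χ h z κ ζ‖ =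
      ‖(χ.χ ζ : ℂ)‖ * ‖h ζ‖ * (‖(Aof D.Qv z κ ζ)⁻¹ ^ mm n‖ *
        ((κ ^ n)⁻¹ * ‖(Jof D.Qv κ ζ).det‖)) := by
    unfold gint Kof
    rw [norm_mul, norm_mul, norm_mul, norm_mul, Complex.norm_real, Real.norm_eq_abs,
      abs_of_pos (by positivity : (0:ℝ) < (κ ^ n)⁻¹)]
    ring
  rw [hsplit]
  calc ‖(χ.χ ζ : ℂ)‖ * ‖h ζ‖ * (‖(Aof D.Qv z κ ζ)⁻¹ ^ mm n‖ *
        ((κ ^ n)⁻¹ * ‖(Jof D.Qv κ ζ).det‖))
      ≤ 1 * (C₁ / D.a ζ) * ((((2 / D.a z) * D.a ζ) ^ (2 * n + 1) *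
          (2 * (1 + ‖x‖ ^ 2)⁻¹) ^ (2 * n + 7)) * (C * 2 ^ n * (1 / D.a ζ ^ 2) ^ n)) := by
        gcongr
    _ = C₁ * (C * 2 ^ n) * ((2 / D.a z) ^ (2 * n + 1) * 2 ^ (2 * n + 7)) *
      ((1 + ‖x‖ ^ 2)⁻¹) ^ (2 * n + 7) := by
        rw [mul_pow, mul_pow, pow_succ (D.a ζ) (2 * n), pow_mul (D.a ζ) 2 n]
        have hcancel : (D.a ζ ^ 2) ^ n * (1 / D.a ζ ^ 2) ^ n = 1 := by
          rw [← mul_pow, mul_one_div_cancel (by positivity), one_pow]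
        field_simp
        exact hcancel

theorem integrable_bound (B : ℝ) :
    Integrable (fun x : En n => B * ((1 + ‖x‖ ^ 2)⁻¹) ^ (2 * n + 7)) := by
  have hfin : Module.finrank ℝ (En n) = 2 * n := by
    simp [finrank_real_of_complex]
  have h1 : Integrable (fun x : En n => (1 + ‖x‖ ^ 2) ^ (-(4 * n + 14 : ℝ) / 2)) := by
    refine integrable_rpow_neg_one_add_norm_sq ?_
    rw [hfin]
    push_cast
    have : (0 : ℝ) ≤ n := Nat.cast_nonneg n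
    linarith
  refine (h1.const_mul B).congr ?_
  refine Filter.Eventually.of_forall fun x => ?_
  have h2 : (0 : ℝ) < 1 + ‖x‖ ^ 2 := by positivity
  have h3 : (-(4 * n + 14 : ℝ) / 2) = -((2 * n + 7 : ℕ) : ℝ) := by
    push_cast; ring
  show B * (1 + ‖x‖ ^ 2) ^ (-(4 * n + 14 : ℝ) / 2) = B * ((1 + ‖x‖ ^ 2)⁻¹) ^ (2 * n + 7)
  rw [h3, Real.rpow_neg h2.le, Real.rpow_natCast, inv_pow]

theorem tendsto_F (χ : D.Cut) {h : En n → ℂ} {C₁ : ℝ} (hh : D.Tame h C₁) {z : En n}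
    (hz : z ∈ D.S) (hz' : ‖z‖ < D.ε / 4) :
    Tendsto (fun κ : ℝ => ∫ ζ in D.S, (χ.χ ζ : ℂ) * h ζ * Kof D.Qv (mm n) z κ ζ) atTop
      (𝓝 ((cmm n : ℂ) * h z)) := by
  obtain ⟨B, hB⟩ := D.norm_Phi_le χ hh hz
  have h1 : Tendsto (fun κ : ℝ => ∫ x, D.Phi χ h z κ x) atTop
      (𝓝 (∫ x : En n, (((1 + ‖x‖ ^ 2)⁻¹ ^ mm n : ℝ) : ℂ) * h z)) := by
    refine tendsto_integral_filter_of_dominated_convergence
      (fun x => B * ((1 + ‖x‖ ^ 2)⁻¹) ^ (2 * n + 7)) ?_ ?_ (integrable_bound B) ?_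
    · filter_upwards [eventually_ge_atTop 0] with κ hκ
      have h2 := D.measurable_ind χ hh hz hκ
      have h3 : Measurable (D.Phi χ h z κ) := by
        unfold Phi
        exact (h2.comp (by fun_prop)).const_mul _
      exact h3.aestronglyMeasurable
    · filter_upwards [eventually_ge_atTop 1] with κ hκ
      exact Filter.Eventually.of_forall fun x => hB κ hκ x
    · exact Filter.Eventually.of_forall fun x => D.tendsto_Phi χ hh hz hz' x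
  have h2 : (∫ x : En n, (((1 + ‖x‖ ^ 2)⁻¹ ^ mm n : ℝ) : ℂ) * h z) = (cmm n : ℂ) * h z := by
    rw [integral_mul_const, integral_complex_ofReal]
    rfl
  rw [h2] at h1
  refine h1.congr' ?_
  filter_upwards [eventually_gt_atTop 0] with κ hκ
  exact (D.integral_eq_Phi χ h z hκ).symm

/-- The normalising constant is positive. -/
theorem cmm_pos : 0 < cmm n := by
  unfold cmm
  have hint : Integrable (fun x : En n => ((1 + ‖x‖ ^ 2)⁻¹) ^ mm n) := by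
    refine (integrable_bound (n := n) 1).mono' ?_ ?_
    · exact Continuous.aestronglyMeasurable (by
        refine Continuous.pow (Continuous.inv₀ (by fun_prop) fun x => ?_) _
        positivity)
    · refine Filter.Eventually.of_forall fun x => ?_
      have h2 : (0 : ℝ) < 1 + ‖x‖ ^ 2 := by positivity
      rw [Real.norm_eq_abs, abs_of_pos (by positivity), one_mul]
      refine pow_le_pow_of_le_one (by positivity) ?_ (by unfold mm; omega)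
      rw [inv_le_one₀ h2]
      have := sq_nonneg ‖x‖
      linarith
  refine (integral_pos_iff_support_of_nonneg (fun x => by positivity) hint).2 ?_
  have hs : Function.support (fun x : En n => ((1 + ‖x‖ ^ 2)⁻¹) ^ mm n) = Set.univ := by
    ext x
    simp only [Function.mem_support, Set.mem_univ, iff_true]
    have h2 : (0 : ℝ) < 1 + ‖x‖ ^ 2 := by positivity
    positivity
  rw [hs]
  exact Measure.measure_univ_pos.2 (NeZero.ne _)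

end LData

end Pool.Agent.H8.FZ
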