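import Pool.Agent.H8.FZ.BIbp
import Pool.Agent.H8.FZ.BDer
import Pool.Agent.H8.FZ.BLim

/-!
# FZ-BMAIN: the reproducing formula up to a bounded error

`F(κ) = ∫_S χ h Kof`. `F(0) = ∫_S χ h K` (`Kof_zero`), `F(κ) → c h(z)` (`tendsto_F`),
`‖F'(κ)‖ ≤ C (1+κ)^{-2}` (`hasDerivAt_F`, `int_dbarV_le`) so `‖F(κ) - F(0)‖ ≤ C (1 - 1/(1+κ)) ≤ C`
(`image_norm_le_of_norm_deriv_right_le_deriv_boundary` with `B(κ) = C(1 - 1/(1+κ))`), let `κ → ∞`.
-/

set_option autoImplicit false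

noncomputable section

namespace Pool.Agent.H8.FZ

open Complex Metric MeasureTheory Set Filter Topology
open scoped ContDiff ComplexConjugate

variable {n : ℕ}

namespace LData

variable (D : LData n)

theorem repro (χ : D.Cut) {h : En n → ℂ} {C₁ : ℝ} (hh : D.Tame h C₁) :
    ∃ C : ℝ, 0 < C ∧ ∀ z ∈ D.S, ‖z‖ < D.ε / 4 →
      ‖(∫ ζ in D.S, (χ.χ ζ : ℂ) * h ζ * D.K ζ z) - (cmm n : ℂ) * h z‖ ≤ C := by
  obtain ⟨C, hC, hb⟩ := D.int_dbarV_le χ hh
  refine ⟨C, hC, fun z hz hz' => ?_⟩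
  set F : ℝ → ℂ := fun κ : ℝ => ∫ ζ in D.S, (χ.χ ζ : ℂ) * h ζ * Kof D.Qv (mm n) z κ ζ with hF
  set F' : ℝ → ℂ := fun κ : ℝ =>
    ∫ ζ in D.S, (χ.χ ζ : ℂ) * h ζ * ∑ k, dbar k (Vof D.Qv (mm n) z κ k) ζ with hF'
  have hF0 : F 0 = ∫ ζ in D.S, (χ.χ ζ : ℂ) * h ζ * D.K ζ z := by
    refine setIntegral_congr_fun D.isOpen_S.measurableSet fun ζ hζ => ?_
    show _ = (χ.χ ζ : ℂ) * h ζ * D.K ζ z
    rw [← D.Kof_zero hζ z]
  have hder : ∀ κ : ℝ, 0 ≤ κ → HasDerivAt F (F' κ) κ := fun κ hκ =>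
    D.hasDerivAt_F χ hh hz hz' hκ
  have hle : ∀ κ : ℝ, 0 ≤ κ → ‖F κ - F 0‖ ≤ C := by
    intro κ hκ
    have key := image_norm_le_of_norm_deriv_right_le_deriv_boundary' (a := 0) (b := κ)
      (f := fun x => F x - F 0) (f' := F')
      (B := fun x => C * (1 - (1 + x)⁻¹)) (B' := fun x => C / (1 + x) ^ 2)
      (fun x hx => ((hder x hx.1).sub_const (F 0)).continuousAt.continuousWithinAt)
      (fun x hx => ((hder x hx.1).sub_const (F 0)).hasDerivWithinAt)
      (by simp)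
      (by
        refine ContinuousOn.mul continuousOn_const (ContinuousOn.sub continuousOn_const ?_)
        refine ContinuousOn.inv₀ (by fun_prop) fun x hx => ?_
        have := hx.1
        positivity)
      (fun x hx => by
        have hx0 : (1 + x) ≠ 0 := by
          have := hx.1
          positivity
        have h1 : HasDerivAt (fun x : ℝ => 1 + x) 1 x := (hasDerivAt_id x).const_add 1
        have h2 := ((h1.inv hx0).const_sub 1).const_mul C
        have h3 : C * -(-1 / (1 + x) ^ 2) = C / (1 + x) ^ 2 := by ring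
        rw [h3] at h2
        exact h2.hasDerivWithinAt)
      (fun x hx => hb z hz hz' x hx.1)
    have h1 := key (x := κ) ⟨hκ, le_rfl⟩
    refine h1.trans ?_
    have h2 : 0 ≤ (1 + κ)⁻¹ := by positivity
    show C * (1 - (1 + κ)⁻¹) ≤ C
    nlinarith
  have hlim := (D.tendsto_F χ hh hz hz').sub_const (F 0)
  have hnorm := hlim.norm
  rw [← hF0, norm_sub_rev]
  refine le_of_tendsto hnorm ?_
  filter_upwards [eventually_ge_atTop 0] with κ hκ
  exact hle κ hκ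

end LData

end Pool.Agent.H8.FZ
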