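import Pool.Agent.H8.FZ.Defs

/-!
# FZ-HOLO: holomorphic functions of several variables are smooth; Cauchy estimates

Let `f : ℂⁿ → G` (`G` a complex Banach space) be complex differentiable on the open set `U`.

1. `cauchy_fderiv`: if `ball z R ⊆ U` and `‖f‖ ≤ B` on `ball z R` then `‖fderiv ℂ f z‖ ≤ B/R`
   (restrict to complex lines: `t ↦ f (z + t v)`, `Complex.norm_deriv_le_of_forall_mem_sphere_norm_le`
   for radii `< R/‖v‖`; a factor `2` would be harmless but is not needed).
2. `holo_fderiv`: `z ↦ fderiv ℂ f z v` is, for `z` near `z₀` and `ρ` small,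
   (2πi)^{-1} ∮_{|t| = ρ} f(z + t v) t^{-2} dt (Cauchy formula for the derivative,
   `Complex.…circleIntegral`), an integral depending on `z` whose integrand is differentiable in
   `z` with derivative `t^{-2} fderiv ℂ f (z + tv)`, bounded by 1. (`f` is continuous, hence locally
   bounded); `hasFDerivAt_integral_of_dominated_of_fderiv_le`. (Measurability of
   `t ↦ fderiv ℂ f (z₀ + tv)` on the circle: it is the limit of difference quotients / or
   `measurable_fderiv`, `stronglyMeasurable_fderiv`-type lemmas; `G` may be assumed second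
   countable? No: use that the derivative of the continuous function … along the circle is a limit
   of continuous functions.) Alternatively: prove `DifferentiableOn ℂ (fun z => fderiv ℂ f z v) U` by
   showing that `f` is analytic: e.g. via `HasFPowerSeriesOnBall` from the iterated Cauchy formula;
   any proof is fine. Finite dimension of `En n`: an operator valued map is differentiable if its
   values on basis vectors are.
3. `holo_contDiffOn` by induction (`contDiffOn_succ_iff_fderiv_of_isOpen`).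

For our purposes `G = ℂ` suffices in `holo_contDiffOn`; but the induction needs the spaces
`En n →L[ℂ] G`, so prove it for all finite dimensional or all complete `G`.
(`cauchy_iter` only needs `n`-variable Cauchy estimates for `G = ` iterated operator spaces.)
-/

set_option autoImplicit false

noncomputable section

namespace Pool.Agent.H8.FZ

open Complex Metric MeasureTheory Set Filter Topology
open scoped ContDiff ComplexConjugate

variable {n : ℕ} {G : Type*} [NormedAddCommGroup G] [NormedSpace ℂ G] [CompleteSpace G]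

theorem cauchy_fderiv {f : En n → G} {z : En n} {R B : ℝ} (hR : 0 < R)
    (hf : DifferentiableOn ℂ f (ball z R)) (hB : ∀ x ∈ ball z R, ‖f x‖ ≤ B) :
    ‖fderiv ℂ f z‖ ≤ B / R := by
  have hB0 : 0 ≤ B := (norm_nonneg _).trans (hB z (mem_ball_self hR))
  have hzf : DifferentiableAt ℂ f z := hf.differentiableAt (ball_mem_nhds z hR)
  have key : ∀ r : ℝ, 0 < r → r < R → ‖fderiv ℂ f z‖ ≤ B / r := by
    intro r hr hrR
    refine ContinuousLinearMap.opNorm_le_bound _ (by positivity) ?_
    intro v
    by_cases hv : v = 0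
    · simp [hv]
    have hv' : 0 < ‖v‖ := norm_pos_iff.mpr hv
    have hline : ∀ t : ℂ, HasDerivAt (fun t : ℂ => z + t • v) v t := by
      intro t
      simpa using ((hasDerivAt_id t).smul_const v).const_add z
    have hmaps : ∀ t : ℂ, ‖t‖ ≤ r / ‖v‖ → z + t • v ∈ ball z R := by
      intro t ht
      rw [mem_ball, dist_eq_norm]
      have : ‖z + t • v - z‖ = ‖t‖ * ‖v‖ := by
        rw [add_sub_cancel_left, norm_smul]
      rw [this]
      calc ‖t‖ * ‖v‖ ≤ r / ‖v‖ * ‖v‖ := by gcongr
        _ = r := by field_simp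
        _ < R := hrR
    have hd : DiffContOnCl ℂ (fun t : ℂ => f (z + t • v)) (ball 0 (r / ‖v‖)) := by
      apply DifferentiableOn.diffContOnCl
      intro t ht
      have ht' : ‖t‖ ≤ r / ‖v‖ := by
        have := closure_ball_subset_closedBall ht
        simpa using this
      have h1 : DifferentiableAt ℂ f (z + t • v) :=
        hf.differentiableAt (isOpen_ball.mem_nhds (hmaps t ht'))
      exact (h1.comp t (hline t).differentiableAt).differentiableWithinAt
    have h2 := norm_deriv_le_of_forall_mem_sphere_norm_le (div_pos hr hv') hd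
      (C := B) (by
        intro t ht
        apply hB
        apply hmaps
        simpa using (mem_sphere_iff_norm.mp ht).le)
    have h3 : HasDerivAt (fun t : ℂ => f (z + t • v)) (fderiv ℂ f z v) 0 := by
      have hz0 : HasFDerivAt f (fderiv ℂ f z) (z + (0 : ℂ) • v) := by
        simpa using hzf.hasFDerivAt
      exact hz0.comp_hasDerivAt (0 : ℂ) (hline 0)
    rw [h3.deriv] at h2
    calc ‖fderiv ℂ f z v‖ ≤ B / (r / ‖v‖) := h2
      _ = B / r * ‖v‖ := by field_simp
  rw [le_div_iff₀ hR]
  by_contra hcon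
  push Not at hcon
  have hD : 0 < ‖fderiv ℂ f z‖ := by
    by_contra h0
    have h00 : ‖fderiv ℂ f z‖ = 0 := le_antisymm (not_lt.mp h0) (norm_nonneg _)
    rw [h00, zero_mul] at hcon
    linarith
  have h1 : B / ‖fderiv ℂ f z‖ < R := by
    rw [div_lt_iff₀ hD]
    linarith [mul_comm R ‖fderiv ℂ f z‖]
  obtain ⟨r, hr1, hr2⟩ := exists_between (max_lt h1 hR)
  have hr0 : 0 < r := lt_of_le_of_lt (le_max_right _ _) hr1
  have hr3 : B / ‖fderiv ℂ f z‖ < r := lt_of_le_of_lt (le_max_left _ _) hr1
  have h4 := key r hr0 hr2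
  rw [le_div_iff₀ hr0] at h4
  rw [div_lt_iff₀ hD] at hr3
  linarith [mul_comm r ‖fderiv ℂ f z‖]

omit [CompleteSpace G] in
/-- Second order Taylor estimate, uniform. -/
theorem taylor_two {f : En n → G} {z : En n} {R B : ℝ} (hR : 0 < R)
    (hf : DifferentiableOn ℂ f (ball z R)) (hB : ∀ x ∈ ball z R, ‖f x‖ ≤ B)
    (hD : ‖fderiv ℂ f z‖ ≤ B / R) {x : En n} (hx : x ∈ ball z R) :
    ‖f x - f z - fderiv ℂ f z (x - z)‖ ≤ 3 * B * (‖x - z‖ / R) ^ 2 := by
  have hzf : DifferentiableAt ℂ f z := hf.differentiableAt (ball_mem_nhds z hR)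
  have hB0 : 0 ≤ B := (norm_nonneg _).trans (hB z (mem_ball_self hR))
  set F : En n → G := fun y => f y - fderiv ℂ f z (y - z) with hF
  have hFz : F z = f z := by simp [hF]
  have hd : DifferentiableOn ℂ F (ball z R) := by
    apply hf.sub
    intro y _
    exact ((fderiv ℂ f z).differentiableAt.comp y
      (differentiableAt_id.sub_const z)).differentiableWithinAt
  have hm : MapsTo F (ball z R) (closedBall (F z) (3 * B)) := by
    intro y hy
    rw [mem_closedBall, dist_eq_norm, hFz]
    have h1 : ‖fderiv ℂ f z (y - z)‖ ≤ B := by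
      calc ‖fderiv ℂ f z (y - z)‖ ≤ ‖fderiv ℂ f z‖ * ‖y - z‖ :=
            ContinuousLinearMap.le_opNorm _ _
        _ ≤ B / R * R := by
            have : ‖y - z‖ ≤ R := by
              have := mem_ball.mp hy
              rw [dist_eq_norm] at this
              exact this.le
            gcongr
        _ = B := by field_simp
    calc ‖F y - f z‖ ≤ ‖F y‖ + ‖f z‖ := norm_sub_le _ _
      _ ≤ (‖f y‖ + ‖fderiv ℂ f z (y - z)‖) + ‖f z‖ := by
          gcongr
          exact norm_sub_le _ _
      _ ≤ (B + B) + B := by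
          gcongr
          · exact hB y hy
          · exact hB z (mem_ball_self hR)
      _ = 3 * B := by ring
  have ho : (F · - F z) =o[𝓝 z] (fun w => ‖w - z‖ ^ 1) := by
    have h1 := hzf.hasFDerivAt.isLittleO
    have h2 : (fun w => F w - F z) = fun w => f w - f z - fderiv ℂ f z (w - z) := by
      funext w
      rw [hFz, hF]
      simp only
      abel
    rw [h2]
    simp only [pow_one]
    exact h1.norm_right
  have h5 := dist_le_mul_div_pow_of_mapsTo_ball_of_isLittleO hd hm ho hx
  rw [dist_eq_norm, dist_eq_norm] at h5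
  have h6 : F x - F z = f x - f z - fderiv ℂ f z (x - z) := by
    rw [hFz, hF]
    simp only
    abel
  rw [h6] at h5
  simpa using h5

theorem holo_fderiv_apply {z₀ v : En n} {f : En n → G} {R B : ℝ} (hR : 0 < R)
    (hf : DifferentiableOn ℂ f (ball z₀ (4 * R))) (hB : ∀ x ∈ ball z₀ (4 * R), ‖f x‖ ≤ B) :
    DifferentiableAt ℂ (fun z => fderiv ℂ f z v) z₀ := by
  have hB0 : 0 ≤ B := (norm_nonneg _).trans (hB z₀ (mem_ball_self (by positivity)))
  set c : ℝ := R / (1 + ‖v‖) with hc
  have hv1 : 0 < 1 + ‖v‖ := by positivity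
  have hc0 : 0 < c := div_pos hR hv1
  have hcv : c * ‖v‖ ≤ R := by
    rw [hc, div_mul_eq_mul_div, div_le_iff₀ hv1]
    nlinarith [norm_nonneg v]
  set s : ℕ → ℝ := fun m => c / (m + 1) with hs
  have hs0 : ∀ m, 0 < s m := fun m => by rw [hs]; positivity
  have hsc : ∀ m, s m ≤ c := fun m => by
    rw [hs]
    apply div_le_self hc0.le
    have : (0 : ℝ) ≤ m := Nat.cast_nonneg m
    linarith
  have hsv : ∀ m, s m * ‖v‖ ≤ R := fun m =>
    (mul_le_mul_of_nonneg_right (hsc m) (norm_nonneg v)).trans hcv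
  have hnorm : ∀ m, ‖((s m : ℝ) : ℂ) • v‖ = s m * ‖v‖ := fun m => by
    rw [norm_smul, Complex.norm_real, Real.norm_of_nonneg (hs0 m).le]
  set g : ℕ → En n → G := fun m z => ((s m : ℝ) : ℂ)⁻¹ • (f (z + ((s m : ℝ) : ℂ) • v) - f z)
    with hg
  -- `g m` is holomorphic on `ball z₀ (2R)`
  have hsub : ∀ z ∈ ball z₀ (2 * R), ball z (2 * R) ⊆ ball z₀ (4 * R) := by
    intro z hz
    apply ball_subset_ball'
    have := mem_ball.mp hz
    linarith
  have hgd : ∀ m, DifferentiableOn ℂ (g m) (ball z₀ (2 * R)) := by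
    intro m z hz
    apply DifferentiableAt.differentiableWithinAt
    have h1 : z + ((s m : ℝ) : ℂ) • v ∈ ball z₀ (4 * R) := by
      apply hsub z hz
      rw [mem_ball, dist_eq_norm, add_sub_cancel_left, hnorm]
      linarith [hsv m]
    have h2 : z ∈ ball z₀ (4 * R) := hsub z hz (mem_ball_self (by positivity))
    have h3 : DifferentiableAt ℂ f (z + ((s m : ℝ) : ℂ) • v) :=
      hf.differentiableAt (isOpen_ball.mem_nhds h1)
    have h4 : DifferentiableAt ℂ f z := hf.differentiableAt (isOpen_ball.mem_nhds h2)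
    have h5 : DifferentiableAt ℂ (fun z => f (z + ((s m : ℝ) : ℂ) • v)) z :=
      DifferentiableAt.comp z h3 (differentiableAt_id.add_const _)
    exact (h5.sub h4).const_smul _
  -- uniform estimate
  set K : ℝ := 3 * B * ‖v‖ ^ 2 / (2 * R) ^ 2 with hK
  have hK0 : 0 ≤ K := by positivity
  have hest : ∀ m, ∀ z ∈ ball z₀ (2 * R), ‖g m z - fderiv ℂ f z v‖ ≤ K * s m := by
    intro m z hz
    have hR2 : 0 < 2 * R := by positivity
    have hfz : DifferentiableOn ℂ f (ball z (2 * R)) := hf.mono (hsub z hz)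
    have hBz : ∀ x ∈ ball z (2 * R), ‖f x‖ ≤ B := fun x hx => hB x (hsub z hz hx)
    have hx : z + ((s m : ℝ) : ℂ) • v ∈ ball z (2 * R) := by
      rw [mem_ball, dist_eq_norm, add_sub_cancel_left, hnorm]
      linarith [hsv m]
    have h1 := taylor_two hR2 hfz hBz (cauchy_fderiv hR2 hfz hBz) hx
    rw [add_sub_cancel_left, hnorm] at h1
    have hs1 : ((s m : ℝ) : ℂ) ≠ 0 := by
      exact_mod_cast (hs0 m).ne'
    have h2 : g m z - fderiv ℂ f z v = ((s m : ℝ) : ℂ)⁻¹ •
        (f (z + ((s m : ℝ) : ℂ) • v) - f z - fderiv ℂ f z (((s m : ℝ) : ℂ) • v)) := by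
      rw [map_smul, smul_sub _ (f (z + ((s m : ℝ) : ℂ) • v) - f z), smul_smul,
        inv_mul_cancel₀ hs1, one_smul]
    rw [h2, norm_smul, norm_inv, Complex.norm_real, Real.norm_of_nonneg (hs0 m).le]
    calc (s m)⁻¹ * ‖f (z + ((s m : ℝ) : ℂ) • v) - f z - fderiv ℂ f z (((s m : ℝ) : ℂ) • v)‖
        ≤ (s m)⁻¹ * (3 * B * (s m * ‖v‖ / (2 * R)) ^ 2) :=
          mul_le_mul_of_nonneg_left h1 (inv_nonneg.mpr (hs0 m).le)
      _ = K * s m := by
          rw [hK]
          have := (hs0 m).ne'
          field_simp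
  have hslim : Tendsto s atTop (𝓝 0) := by
    have := tendsto_const_div_atTop_nhds_zero_nat c
    have h2 := (tendsto_add_atTop_iff_nat 1).mpr this
    refine h2.congr ?_
    intro m
    rw [hs]
    push_cast
    rfl
  -- the derivatives are uniformly Cauchy
  have hder : ∀ m l, ∀ z ∈ ball z₀ R, ‖fderiv ℂ (g m) z - fderiv ℂ (g l) z‖ ≤
      (K * s m + K * s l) / R := by
    intro m l z hz
    have hsub2 : ball z R ⊆ ball z₀ (2 * R) := by
      apply ball_subset_ball'
      have := mem_ball.mp hz
      linarith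
    have hdm : DifferentiableAt ℂ (g m) z :=
      (hgd m).differentiableAt (isOpen_ball.mem_nhds (hsub2 (mem_ball_self hR)))
    have hdl : DifferentiableAt ℂ (g l) z :=
      (hgd l).differentiableAt (isOpen_ball.mem_nhds (hsub2 (mem_ball_self hR)))
    have h1 : fderiv ℂ (fun x => g m x - g l x) z = fderiv ℂ (g m) z - fderiv ℂ (g l) z :=
      fderiv_fun_sub hdm hdl
    rw [← h1]
    apply cauchy_fderiv hR
    · exact ((hgd m).mono hsub2).sub ((hgd l).mono hsub2)
    · intro x hx
      have hm := hest m x (hsub2 hx)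
      have hl := hest l x (hsub2 hx)
      calc ‖g m x - g l x‖ = ‖(g m x - fderiv ℂ f x v) - (g l x - fderiv ℂ f x v)‖ := by
            congr 1
            abel
        _ ≤ ‖g m x - fderiv ℂ f x v‖ + ‖g l x - fderiv ℂ f x v‖ := norm_sub_le _ _
        _ ≤ K * s m + K * s l := add_le_add hm hl
  have hcauchy : UniformCauchySeqOn (fun m => fderiv ℂ (g m)) atTop (ball z₀ R) := by
    rw [Metric.uniformCauchySeqOn_iff]
    intro ε hε
    have hlim : Tendsto (fun m => K * s m / R) atTop (𝓝 0) := by
      have := (hslim.const_mul K).div_const R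
      simpa using this
    have h1 : ∀ᶠ m in atTop, K * s m / R < ε / 2 := hlim.eventually_lt_const (by positivity)
    obtain ⟨N, hN⟩ := eventually_atTop.mp h1
    refine ⟨N, fun m hm l hl z hz => ?_⟩
    rw [dist_eq_norm]
    calc ‖fderiv ℂ (g m) z - fderiv ℂ (g l) z‖ ≤ (K * s m + K * s l) / R := hder m l z hz
      _ = K * s m / R + K * s l / R := add_div _ _ _
      _ < ε / 2 + ε / 2 := add_lt_add (hN m hm) (hN l hl)
      _ = ε := by ring
  have hex : ∀ z ∈ ball z₀ R, ∃ L : En n →L[ℂ] G,
      Tendsto (fun m => fderiv ℂ (g m) z) atTop (𝓝 L) := by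
    intro z hz
    exact cauchySeq_tendsto_of_complete (hcauchy.cauchySeq hz)
  classical
  choose! L hL using hex
  have hunif := hcauchy.tendstoUniformlyOn_of_tendsto hL
  have hpt : ∀ z ∈ ball z₀ R, Tendsto (fun m => g m z) atTop (𝓝 (fderiv ℂ f z v)) := by
    intro z hz
    rw [tendsto_iff_norm_sub_tendsto_zero]
    have hz2 : z ∈ ball z₀ (2 * R) := ball_subset_ball (by linarith) hz
    refine squeeze_zero (fun m => norm_nonneg _) (fun m => hest m z hz2) ?_
    simpa using hslim.const_mul K
  have hfin := hasFDerivAt_of_tendstoUniformlyOn isOpen_ball hunif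
    (fun m x hx => ((hgd m).differentiableAt (isOpen_ball.mem_nhds
      (ball_subset_ball (by linarith : R ≤ 2 * R) hx))).hasFDerivAt) hpt (mem_ball_self hR)
  exact hfin.differentiableAt

omit [CompleteSpace G] in
/-- Expansion of an operator along the standard basis. -/
theorem clm_expand (T : En n →L[ℂ] G) :
    T = ∑ k : Fin n, (EuclideanSpace.proj k : En n →L[ℂ] ℂ).smulRight (T (eb k)) := by
  ext w
  have hw : w = ∑ k : Fin n, w k • eb k := by
    ext j
    simp [eb, Finset.sum_apply, Pi.single_apply]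
  conv_lhs => rw [hw]
  simp [map_sum, map_smul]

theorem holo_fderiv {U : Set (En n)} (hU : IsOpen U) {f : En n → G}
    (hf : DifferentiableOn ℂ f U) : DifferentiableOn ℂ (fderiv ℂ f) U := by
  intro z₀ hz₀
  apply DifferentiableAt.differentiableWithinAt
  have hfz : DifferentiableAt ℂ f z₀ := hf.differentiableAt (hU.mem_nhds hz₀)
  obtain ⟨r, hr, hrU⟩ := Metric.isOpen_iff.mp hU z₀ hz₀
  have hcont : ∀ᶠ x in 𝓝 z₀, ‖f x‖ < ‖f z₀‖ + 1 :=
    hfz.continuousAt.norm.eventually_lt_const (by linarith)
  obtain ⟨r', hr', hr'B⟩ := Metric.eventually_nhds_iff_ball.mp hcont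
  set R : ℝ := min r r' / 4 with hR
  have hR0 : 0 < R := by
    rw [hR]
    have := lt_min hr hr'
    positivity
  have h4R : 4 * R = min r r' := by
    rw [hR]
    ring
  have key : ∀ v : En n, DifferentiableAt ℂ (fun z => fderiv ℂ f z v) z₀ := by
    intro v
    apply holo_fderiv_apply hR0 (B := ‖f z₀‖ + 1)
    · rw [h4R]
      exact hf.mono ((ball_subset_ball (min_le_left _ _)).trans hrU)
    · rw [h4R]
      intro x hx
      exact (hr'B x (ball_subset_ball (min_le_right _ _) hx)).le
  have h1 : fderiv ℂ f = fun z => ∑ k : Fin n,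
      (EuclideanSpace.proj k : En n →L[ℂ] ℂ).smulRight (fderiv ℂ f z (eb k)) := by
    funext z
    exact clm_expand _
  rw [h1]
  apply DifferentiableAt.fun_sum
  intro k _
  have h2 := (ContinuousLinearMap.smulRightL ℂ (En n) G
    (EuclideanSpace.proj k : En n →L[ℂ] ℂ)).differentiableAt (x := fderiv ℂ f z₀ (eb k))
  exact h2.comp z₀ (key (eb k))

theorem holo_contDiffOn_nat {U : Set (En n)} (hU : IsOpen U) (k : ℕ) :
    ∀ {G : Type*} [NormedAddCommGroup G] [NormedSpace ℂ G] [CompleteSpace G] {f : En n → G},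
      DifferentiableOn ℂ f U → ContDiffOn ℂ k f U := by
  induction k with
  | zero =>
    intro G _ _ _ f hf
    simpa using hf.continuousOn
  | succ k ih =>
    intro G _ _ _ f hf
    have h : ((k + 1 : ℕ) : WithTop ℕ∞) = (k : WithTop ℕ∞) + 1 := by push_cast; rfl
    rw [h, contDiffOn_succ_iff_fderiv_of_isOpen hU]
    refine ⟨hf, ?_, ih (holo_fderiv hU hf)⟩
    intro hk
    exact absurd hk (by simp)

theorem holo_contDiffOn {U : Set (En n)} (hU : IsOpen U) {f : En n → G}
    (hf : DifferentiableOn ℂ f U) : ContDiffOn ℂ ∞ f U := by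
  rw [contDiffOn_infty]
  intro k
  exact holo_contDiffOn_nat hU k hf

/-- Real smoothness. -/
theorem holo_contDiffOn_real {U : Set (En n)} (hU : IsOpen U) {f : En n → ℂ}
    (hf : DifferentiableOn ℂ f U) : ContDiffOn ℝ ∞ f U :=
  (holo_contDiffOn hU hf).restrict_scalars ℝ

theorem cauchy_iter_aux (n : ℕ) (k : ℕ) : ∃ C : ℝ, ∀ {G : Type} [NormedAddCommGroup G]
    [NormedSpace ℂ G] [CompleteSpace G] (f : En n → G) (z : En n) (R B : ℝ),
    0 < R → DifferentiableOn ℂ f (ball z R) → (∀ x ∈ ball z R, ‖f x‖ ≤ B) →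
      ‖iteratedFDeriv ℝ k f z‖ ≤ C * B / R ^ k := by
  induction k with
  | zero =>
    refine ⟨1, ?_⟩
    intro G _ _ _ f z R B hR hf hB
    simpa using hB z (mem_ball_self hR)
  | succ k ih =>
    obtain ⟨C, hC⟩ := ih
    refine ⟨C * 2 ^ (k + 1), ?_⟩
    intro G _ _ _ f z R B hR hf hB
    have hR2 : 0 < R / 2 := by positivity
    rw [← norm_iteratedFDeriv_fderiv]
    have hev : fderiv ℝ f =ᶠ[𝓝 z]
        (ContinuousLinearMap.restrictScalarsIsometry ℂ (En n) G ℝ ℝ) ∘ (fderiv ℂ f) := by
      filter_upwards [ball_mem_nhds z hR] with x hx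
      have h1 : DifferentiableAt ℂ f x := hf.differentiableAt (isOpen_ball.mem_nhds hx)
      exact (h1.hasFDerivAt.restrictScalars ℝ).fderiv
    rw [Filter.EventuallyEq.eq_of_nhds (hev.iteratedFDeriv ℝ k)]
    have hcd : ContDiffAt ℝ k (fderiv ℂ f) z := by
      have h2 := holo_contDiffOn_nat (G := En n →L[ℂ] G) isOpen_ball k (holo_fderiv isOpen_ball hf)
      exact (h2.contDiffAt (ball_mem_nhds z hR)).restrict_scalars ℝ
    rw [LinearIsometry.norm_iteratedFDeriv_comp_left _ hcd le_rfl]
    have h3 := hC (fderiv ℂ f) z (R / 2) (B / (R / 2)) hR2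
      ((holo_fderiv isOpen_ball hf).mono (ball_subset_ball (by linarith))) (by
        intro x hx
        have hsub : ball x (R / 2) ⊆ ball z R := by
          apply ball_subset_ball'
          have := mem_ball.mp hx
          linarith
        exact cauchy_fderiv hR2 (hf.mono hsub) (fun y hy => hB y (hsub hy)))
    refine h3.trans (le_of_eq ?_)
    rw [div_pow, pow_succ, pow_succ]
    field_simp

/-- Cauchy estimates for the real iterated derivatives (any constants `C k` will do). -/
theorem cauchy_iter (n : ℕ) : ∃ Ck : ℕ → ℝ, ∀ (k : ℕ) (f : En n → ℂ) (z : En n) (R B : ℝ),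
    0 < R → DifferentiableOn ℂ f (ball z R) → (∀ x ∈ ball z R, ‖f x‖ ≤ B) →
      ‖iteratedFDeriv ℝ k f z‖ ≤ Ck k * B / R ^ k := by
  choose C hC using cauchy_iter_aux n
  exact ⟨C, fun k f z R B hR hf hB => hC k f z R B hR hf hB⟩

end Pool.Agent.H8.FZ
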