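import Pool.Agent.H8.FZ.BBounds
import Pool.Agent.H8.FZ.Holo

/-!
# FZ-BREG: regularity of `χ h V_k` up to `{r = 0}`

Fix `z ∈ S`, `κ ≥ 0`. Write `s = 2a` and multiply out:
`V_k = s^{m-2(n-1)} G_k`, `G_k = (L + κ s |w|²)^{-m} det(Ĵ with column k replaced by w̄)`,
`Ĵ_{jk} = s² J_{jk} = s ∂̄_k q_j - q_j ∂̄_k s + κ s² δ_{jk}` (all on `S`). `G_k` is of class `C^∞` on
the open set `{ζ : ‖ζ‖ < ε, re (L ζ z + κ s |w|²) > 0}`, which contains the compact set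
`Z = {‖ζ‖ ≤ 7ε/16, r ζ ≤ 0}` (by `re_L_ge`: `re ≥ a ζ + a z + … > 0`). So `‖G_k‖, ‖DG_k‖ ≤ B₁` on
`Z`, and with `p = m - 2(n-1) = 2n + 10`: `‖V_k‖ ≤ B₁ (2a)^p`,
`‖DV_k‖ ≤ B₁ ((2a)^p + p (2a)^{p-1} 2‖Da‖)`. With `‖h‖ ≤ C₁/a`, `‖Dh‖ ≤ C₁/a²`, `a ≤ 1` and the
cut-off `χ` (zero for `‖ζ‖ ≥ 7ε/16`) the claims follow.
-/

set_option autoImplicit false

noncomputable section

namespace Pool.Agent.H8.FZ

open Complex Metric MeasureTheory Set Filter Topology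
open scoped ContDiff ComplexConjugate

variable {n : ℕ}

namespace LData

variable (D : LData n)

theorem breg_a_pos {ζ : En n} (h : ζ ∈ D.S) : 0 < D.a ζ := by
  have := h.2
  simp only [a]
  linarith

theorem breg_a_le {ζ : En n} (h : ζ ∈ D.S) : D.a ζ ≤ 1 := by
  have h1 := D.b0 ζ h.1
  have h2 := neg_abs_le (D.r ζ)
  simp only [a]
  linarith

/-- The complex valued function `2a`. -/
def sC (x : En n) : ℂ := ((2 * D.a x : ℝ) : ℂ)

theorem contDiff_sC : ContDiff ℝ ∞ D.sC :=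
  Complex.ofRealCLM.contDiff.comp (contDiff_const.mul D.contDiff_a)

theorem sC_ne {ζ : En n} (h : ζ ∈ D.S) : D.sC ζ ≠ 0 := by
  have := D.breg_a_pos h
  simp only [sC]
  exact_mod_cast (by positivity : (2 * D.a ζ : ℝ) ≠ 0)

/-- `Qv` is smooth on `S`. -/
theorem contDiffOn_Qv (j : Fin n) : ContDiffOn ℝ ∞ (fun x => D.Qv x j) D.S := by
  have h : (fun x => D.Qv x j) = fun x => D.q x j * (D.sC x)⁻¹ := by
    funext x
    simp [Qv, sC, div_eq_mul_inv]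
  rw [h]
  exact (D.contDiff_q j).contDiffOn.mul (D.contDiff_sC.contDiffOn.inv fun x hx => D.sC_ne hx)

/-- The matrix `s² J`. -/
def Jh (κ : ℝ) (x : En n) : Matrix (Fin n) (Fin n) ℂ :=
  Matrix.of fun j k => D.sC x * dbar k (fun y => D.q y j) x - D.q x j * dbar k D.sC x +
    (if j = k then (κ : ℂ) * D.sC x ^ 2 else 0)

theorem Jh_eq {ζ : En n} (hζ : ζ ∈ D.S) (κ : ℝ) :
    D.Jh κ ζ = (D.sC ζ ^ 2) • Jof D.Qv κ ζ := by
  have hs := D.sC_ne hζ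
  have hsd : DifferentiableAt ℝ D.sC ζ := (D.contDiff_sC.differentiable (by simp)) ζ
  ext j k
  have hqd : DifferentiableAt ℝ (fun x => D.q x j) ζ :=
    ((D.contDiff_q j).differentiable (by simp)) ζ
  have h : (fun x => D.Qv x j) = fun x => D.q x j * (D.sC x)⁻¹ := by
    funext x
    simp [Qv, sC, div_eq_mul_inv]
  have hid : DifferentiableAt ℝ (fun x => (D.sC x)⁻¹) ζ := hsd.inv hs
  have h1 : dbar k (fun x => D.Qv x j) ζ =
      dbar k (fun x => D.q x j) ζ * (D.sC ζ)⁻¹ +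
        D.q ζ j * (-(D.sC ζ)⁻¹ ^ 2 * dbar k D.sC ζ) := by
    rw [h, dbar_mul hqd hid k, dbar_inv hsd hs k]
  simp only [Jh, Jof, Matrix.of_apply, Matrix.smul_apply, smul_eq_mul]
  rw [h1]
  by_cases hjk : j = k
  · simp only [hjk, if_true]
    field_simp
    ring
  · simp only [hjk, if_false]
    field_simp
    ring

/-- The smooth denominator. -/
def Nh (z : En n) (κ : ℝ) (x : En n) : ℂ :=
  D.L x z + ((κ * ‖x - z‖ ^ 2 : ℝ) : ℂ) * D.sC x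

theorem contDiff_Nh (z : En n) (κ : ℝ) : ContDiff ℝ ∞ (D.Nh z κ) := by
  have h1 : ContDiff ℝ ∞ (fun x => D.L x z) :=
    D.contDiff_L.comp (contDiff_id.prodMk contDiff_const)
  have h2 : ContDiff ℝ ∞ (fun x : En n => κ * ‖x - z‖ ^ 2) :=
    contDiff_const.mul ((contDiff_id.sub contDiff_const).norm_sq ℝ)
  exact h1.add ((Complex.ofRealCLM.contDiff.comp h2).mul D.contDiff_sC)

theorem Nh_ne {z : En n} (hz : z ∈ D.S) {κ : ℝ} (hκ : 0 ≤ κ) {ζ : En n}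
    (hb : ζ ∈ ball (0 : En n) D.ε) (hr : D.r ζ ≤ 0) : D.Nh z κ ζ ≠ 0 := by
  have h1 := D.re_L_ge hb hz.1
  have ha : 0 ≤ D.a ζ := by simp only [a]; linarith
  have haz := D.breg_a_pos hz
  have hc := D.hc
  have h2 : (D.Nh z κ ζ).re = (D.L ζ z).re + κ * ‖ζ - z‖ ^ 2 * (2 * D.a ζ) := by
    simp only [Nh, sC, Complex.add_re, ← Complex.ofReal_mul, Complex.ofReal_re]
  have h3 : 0 ≤ κ * ‖ζ - z‖ ^ 2 * (2 * D.a ζ) := by positivity
  have h4 : 0 ≤ (D.c / 2) * ‖ζ - z‖ ^ 2 := by positivity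
  intro h0
  rw [h0] at h2
  simp only [Complex.zero_re] at h2
  linarith

theorem Aof_inv {ζ : En n} (hζ : ζ ∈ D.S) (z : En n) (κ : ℝ) :
    (Aof D.Qv z κ ζ)⁻¹ = D.sC ζ * (D.Nh z κ ζ)⁻¹ := by
  have hs := D.sC_ne hζ
  have h1 : Aof D.Qv z κ ζ = D.Nh z κ ζ / D.sC ζ := by
    rw [D.Aof_eq hζ z κ]
    simp only [Nh]
    rw [add_div, mul_div_assoc, div_self hs, mul_one]
    rfl
  rw [h1, inv_div, div_eq_mul_inv]

/-- The smooth factor. -/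
def Gh (z : En n) (κ : ℝ) (k : Fin n) (x : En n) : ℂ :=
  (D.Nh z κ x)⁻¹ ^ mm n * ((D.Jh κ x).updateCol k (fun j => conj (x j - z j))).det

theorem Vof_eq {ζ : En n} (hζ : ζ ∈ D.S) (z : En n) (κ : ℝ) (k : Fin n) :
    Vof D.Qv (mm n) z κ k ζ = D.sC ζ ^ (2 * n + 10) * D.Gh z κ k ζ := by
  have hs := D.sC_ne hζ
  set v : Fin n → ℂ := fun j => conj (ζ j - z j) with hv
  have h1 : D.sC ζ ^ 2 * ((D.Jh κ ζ).updateCol k v).det =
      (D.sC ζ ^ 2) ^ n * ((Jof D.Qv κ ζ).updateCol k v).det := by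
    rw [← Matrix.det_updateCol_smul, D.Jh_eq hζ κ]
    have h2 : ((D.sC ζ ^ 2) • Jof D.Qv κ ζ).updateCol k ((D.sC ζ ^ 2) • v) =
        (D.sC ζ ^ 2) • ((Jof D.Qv κ ζ).updateCol k v) := by
      ext i j
      by_cases hj : j = k
      · subst hj
        simp
      · simp [Matrix.updateCol_ne hj]
    rw [h2, Matrix.det_smul, Fintype.card_fin]
  have h3 : ((Jof D.Qv κ ζ).updateCol k v).det =
      D.sC ζ ^ 2 * (D.sC ζ ^ (2 * n))⁻¹ * ((D.Jh κ ζ).updateCol k v).det := by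
    have h4 : (D.sC ζ ^ 2) ^ n = D.sC ζ ^ (2 * n) := by rw [pow_mul]
    rw [h4] at h1
    have h5 : D.sC ζ ^ (2 * n) ≠ 0 := pow_ne_zero _ hs
    rw [mul_assoc, mul_left_comm, h1, ← mul_assoc, inv_mul_cancel₀ h5, one_mul]
  unfold Vof Gh
  rw [D.Aof_inv hζ z κ]
  change (D.sC ζ * (D.Nh z κ ζ)⁻¹) ^ mm n * ((Jof D.Qv κ ζ).updateCol k v).det = _
  rw [h3, mul_pow]
  have h6 : D.sC ζ ^ mm n * (D.sC ζ ^ 2 * (D.sC ζ ^ (2 * n))⁻¹) = D.sC ζ ^ (2 * n + 10) := by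
    have h7 : D.sC ζ ^ mm n = D.sC ζ ^ (2 * n + 8) * D.sC ζ ^ (2 * n) := by
      rw [← pow_add]
      congr 1
      unfold mm
      ring
    have h5 : D.sC ζ ^ (2 * n) ≠ 0 := pow_ne_zero _ hs
    rw [h7]
    calc D.sC ζ ^ (2 * n + 8) * D.sC ζ ^ (2 * n) * (D.sC ζ ^ 2 * (D.sC ζ ^ (2 * n))⁻¹)
        = D.sC ζ ^ (2 * n + 8) * D.sC ζ ^ 2 * (D.sC ζ ^ (2 * n) * (D.sC ζ ^ (2 * n))⁻¹) := by
          ring
      _ = D.sC ζ ^ (2 * n + 10) := by
          rw [mul_inv_cancel₀ h5, mul_one, ← pow_add]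
  rw [← h6]
  ring

theorem contDiff_Jh (κ : ℝ) (i j : Fin n) : ContDiff ℝ ∞ (fun x => D.Jh κ x i j) := by
  have h1 : ContDiff ℝ ∞ (dbar j (fun y => D.q y i)) := contDiff_dbar (D.contDiff_q i) j
  have h2 : ContDiff ℝ ∞ (dbar j D.sC) := contDiff_dbar D.contDiff_sC j
  have h3 : ContDiff ℝ ∞ (fun x => if i = j then (κ : ℂ) * D.sC x ^ 2 else 0) := by
    by_cases hij : i = j
    · simp only [hij, if_true]
      exact contDiff_const.mul (D.contDiff_sC.pow 2)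
    · simp only [hij, if_false]
      exact contDiff_const
  exact ((D.contDiff_sC.mul h1).sub ((D.contDiff_q i).mul h2)).add h3

theorem contDiff_detJh (z : En n) (κ : ℝ) (k : Fin n) :
    ContDiff ℝ ∞ (fun x : En n =>
      ((D.Jh κ x).updateCol k (fun j => conj (x j - z j))).det) := by
  have hcj : ∀ j : Fin n, ContDiff ℝ ∞ (fun x : En n => conj (x j - z j)) := by
    intro j
    have h0 : ContDiff ℝ ∞ (fun x : En n => x j) :=
      ((EuclideanSpace.proj j : En n →L[ℂ] ℂ).restrictScalars ℝ).contDiff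
    exact (Complex.conjCLE : ℂ →L[ℝ] ℂ).contDiff.comp (h0.sub contDiff_const)
  have hent : ∀ i j : Fin n, ContDiff ℝ ∞ (fun x : En n =>
      ((D.Jh κ x).updateCol k (fun j => conj (x j - z j))) i j) := by
    intro i j
    by_cases hj : j = k
    · subst hj
      simp only [Matrix.updateCol_self]
      exact hcj i
    · simp only [Matrix.updateCol_ne hj]
      exact D.contDiff_Jh κ i j
  simp only [Matrix.det_apply]
  refine ContDiff.sum fun σ _ => ?_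
  exact (contDiff_prod fun i _ => hent (σ i) i).const_smul _

/-- The smooth function `χ s^{2n+7} G_k`. -/
def Th (χ : D.Cut) (z : En n) (κ : ℝ) (k : Fin n) (x : En n) : ℂ :=
  (χ.χ x : ℂ) * D.sC x ^ (2 * n + 7) * D.Gh z κ k x

theorem contDiffAt_Gh {z : En n} {κ : ℝ} {k : Fin n} {ζ : En n} (h : D.Nh z κ ζ ≠ 0) :
    ContDiffAt ℝ ∞ (D.Gh z κ k) ζ := by
  have h1 : ContDiffAt ℝ ∞ (fun x => (D.Nh z κ x)⁻¹) ζ := (D.contDiff_Nh z κ).contDiffAt.inv h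
  exact (h1.pow _).mul (D.contDiff_detJh z κ k).contDiffAt

theorem contDiffAt_Th (χ : D.Cut) {z : En n} {κ : ℝ} {k : Fin n} {ζ : En n}
    (h : D.Nh z κ ζ ≠ 0) : ContDiffAt ℝ ∞ (D.Th χ z κ k) ζ := by
  have h1 : ContDiffAt ℝ ∞ (fun x => (χ.χ x : ℂ)) ζ :=
    (Complex.ofRealCLM.contDiff.comp χ.smooth).contDiffAt
  exact (h1.mul (D.contDiff_sC.contDiffAt.pow _)).mul (D.contDiffAt_Gh h)

theorem V_diff {z : En n} (hz : z ∈ D.S) {κ : ℝ} (hκ : 0 ≤ κ) (k : Fin n) {ζ : En n}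
    (hζ : ζ ∈ D.S) : DifferentiableAt ℝ (Vof D.Qv (mm n) z κ k) ζ := by
  have h1 : Vof D.Qv (mm n) z κ k =ᶠ[𝓝 ζ] fun x => D.sC x ^ (2 * n + 10) * D.Gh z κ k x := by
    filter_upwards [D.isOpen_S.mem_nhds hζ] with x hx
    exact D.Vof_eq hx z κ k
  refine DifferentiableAt.congr_of_eventuallyEq ?_ h1
  have h2 : ContDiffAt ℝ ∞ (fun x => D.sC x ^ (2 * n + 10) * D.Gh z κ k x) ζ :=
    (D.contDiff_sC.contDiffAt.pow _).mul (D.contDiffAt_Gh (D.Nh_ne hz hκ hζ.1 hζ.2.le))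
  exact h2.differentiableAt (by simp)

theorem Th_bound (χ : D.Cut) {z : En n} (hz : z ∈ D.S) {κ : ℝ} (hκ : 0 ≤ κ) (k : Fin n) :
    ∃ B : ℝ, 0 ≤ B ∧ ∀ ζ : En n, ‖ζ‖ ≤ 7 * D.ε / 16 → D.r ζ ≤ 0 →
      ‖D.Th χ z κ k ζ‖ ≤ B ∧ ‖fderiv ℝ (D.Th χ z κ k) ζ‖ ≤ B := by
  set Z : Set (En n) := closedBall (0 : En n) (7 * D.ε / 16) ∩ {x | D.r x ≤ 0} with hZ
  have hZc : IsCompact Z :=
    (isCompact_closedBall _ _).inter_right (isClosed_le D.hr.continuous continuous_const)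
  have hZN : ∀ x ∈ Z, D.Nh z κ x ≠ 0 := by
    intro x hx
    refine D.Nh_ne hz hκ ?_ hx.2
    have h1 := hx.1
    have h2 := D.hε
    rw [mem_closedBall] at h1
    rw [mem_ball]
    linarith
  have hc1 : ContinuousOn (D.Th χ z κ k) Z := fun x hx =>
    (D.contDiffAt_Th χ (hZN x hx)).continuousAt.continuousWithinAt
  have hc2 : ContinuousOn (fderiv ℝ (D.Th χ z κ k)) Z := fun x hx =>
    ((D.contDiffAt_Th χ (hZN x hx)).fderiv_right (m := ∞) (by simp)).continuousAt.continuousWithinAt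
  obtain ⟨B1, hB1⟩ := hZc.exists_bound_of_continuousOn hc1
  obtain ⟨B2, hB2⟩ := hZc.exists_bound_of_continuousOn hc2
  refine ⟨max (max B1 B2) 0, le_max_right _ _, fun ζ h1 h2 => ?_⟩
  have hζ : ζ ∈ Z := ⟨by rw [mem_closedBall, dist_zero_right]; exact h1, h2⟩
  exact ⟨(hB1 ζ hζ).trans ((le_max_left _ _).trans (le_max_left _ _)),
    (hB2 ζ hζ).trans ((le_max_right _ _).trans (le_max_left _ _))⟩

theorem chV_reg (χ : D.Cut) {h : En n → ℂ} {C₁ : ℝ} (hh : D.Tame h C₁) {z : En n}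
    (hz : z ∈ D.S) {κ : ℝ} (hκ : 0 ≤ κ) (k : Fin n) :
    ∃ B : ℝ, ∀ ζ ∈ D.S,
      ‖(χ.χ ζ : ℂ) * h ζ * Vof D.Qv (mm n) z κ k ζ‖ ≤ B * D.a ζ ^ 2 ∧
      ‖fderiv ℝ (fun x => (χ.χ x : ℂ) * h x * Vof D.Qv (mm n) z κ k x) ζ‖ ≤ B := by
  obtain ⟨B, hB0, hB⟩ := D.Th_bound χ hz hκ k
  obtain ⟨hhd, hC1, hhb⟩ := hh
  have hC := D.hC
  have hC1' : (0 : ℝ) ≤ C₁ := by linarith
  refine ⟨(24 * D.C + 16) * C₁ * B, fun ζ hζ => ?_⟩
  have ha := D.breg_a_pos hζ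
  have ha1 := D.breg_a_le hζ
  have hBC : 0 ≤ (24 * D.C + 16) * C₁ * B := by positivity
  by_cases hn : ‖ζ‖ ≤ 7 * D.ε / 16
  · -- main case
    obtain ⟨hT, hDT⟩ := hB ζ hn hζ.2.le
    obtain ⟨hh1, hh2⟩ := hhb ζ hζ (by have := D.hε; linarith)
    have heq : ∀ x ∈ D.S, (χ.χ x : ℂ) * h x * Vof D.Qv (mm n) z κ k x =
        (D.sC x ^ 3 * h x) * D.Th χ z κ k x := by
      intro x hx
      rw [D.Vof_eq hx z κ k]
      have h10 : D.sC x ^ (2 * n + 10) = D.sC x ^ 3 * D.sC x ^ (2 * n + 7) := by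
        rw [← pow_add]
        congr 1
        ring
      rw [h10]
      unfold Th
      ring
    have hev : (fun x => (χ.χ x : ℂ) * h x * Vof D.Qv (mm n) z κ k x) =ᶠ[𝓝 ζ]
        fun x => (D.sC x ^ 3 * h x) * D.Th χ z κ k x := by
      filter_upwards [D.isOpen_S.mem_nhds hζ] with x hx
      exact heq x hx
    have hsn : ‖D.sC ζ‖ = 2 * D.a ζ := by
      simp only [sC, Complex.norm_real, Real.norm_eq_abs]
      exact abs_of_pos (by positivity)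
    constructor
    · rw [heq ζ hζ, norm_mul, norm_mul, norm_pow, hsn]
      calc (2 * D.a ζ) ^ 3 * ‖h ζ‖ * ‖D.Th χ z κ k ζ‖
          ≤ (2 * D.a ζ) ^ 3 * (C₁ / D.a ζ) * B := by gcongr
        _ = 8 * C₁ * B * D.a ζ ^ 2 := by field_simp; ring
        _ ≤ (24 * D.C + 16) * C₁ * B * D.a ζ ^ 2 := by
          have h1 : 0 ≤ C₁ * B * D.a ζ ^ 2 := by positivity
          nlinarith [mul_nonneg (by linarith : (0 : ℝ) ≤ D.C) h1]
    · rw [hev.fderiv_eq]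
      have hsd : HasFDerivAt D.sC (fderiv ℝ D.sC ζ) ζ :=
        ((D.contDiff_sC.differentiable (by simp)) ζ).hasFDerivAt
      have hhd' : HasFDerivAt h (fderiv ℝ h ζ) ζ :=
        ((hhd.differentiableAt (D.isOpen_S.mem_nhds hζ)).restrictScalars ℝ).hasFDerivAt
      have hTd : HasFDerivAt (D.Th χ z κ k) (fderiv ℝ (D.Th χ z κ k) ζ) ζ :=
        ((D.contDiffAt_Th χ (D.Nh_ne hz hκ hζ.1 hζ.2.le)).differentiableAt
          (by simp)).hasFDerivAt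
      have hds : ‖fderiv ℝ D.sC ζ‖ ≤ 2 * D.C := by
        have h1 : HasFDerivAt D.r (fderiv ℝ D.r ζ) ζ :=
          ((D.hr.differentiable (by simp)) ζ).hasFDerivAt
        have h2 : HasFDerivAt D.sC
            (Complex.ofRealCLM.comp ((2 : ℝ) • (-fderiv ℝ D.r ζ))) ζ := by
          have h3 : HasFDerivAt (fun x => 2 * D.a x) ((2 : ℝ) • (-fderiv ℝ D.r ζ)) ζ :=
            (h1.neg).const_mul 2
          exact Complex.ofRealCLM.hasFDerivAt.comp ζ h3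
        rw [h2.fderiv]
        refine ContinuousLinearMap.opNorm_le_bound _ (by linarith) fun w => ?_
        have h4 := D.b1 ζ hζ.1
        have h5 := (fderiv ℝ D.r ζ).le_opNorm w
        have h6 : ‖(Complex.ofRealCLM.comp ((2 : ℝ) • (-fderiv ℝ D.r ζ))) w‖ =
            2 * ‖fderiv ℝ D.r ζ w‖ := by
          simp [Complex.norm_real]
        rw [h6]
        have h7 : ‖fderiv ℝ D.r ζ‖ * ‖w‖ ≤ D.C * ‖w‖ := by gcongr
        linarith
      have hF : HasFDerivAt (fun x => D.sC x ^ 3 * h x * D.Th χ z κ k x)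
          ((D.sC ζ ^ 3 * h ζ) • fderiv ℝ (D.Th χ z κ k) ζ +
            D.Th χ z κ k ζ • (D.sC ζ ^ 3 • fderiv ℝ h ζ +
              h ζ • ((3 • D.sC ζ ^ (3 - 1)) • fderiv ℝ D.sC ζ))) ζ :=
        ((hsd.pow 3).mul hhd').mul hTd
      rw [hF.fderiv]
      have e1 : ‖(D.sC ζ ^ 3 * h ζ) • fderiv ℝ (D.Th χ z κ k) ζ‖ ≤ 8 * C₁ * B := by
        rw [norm_smul, norm_mul, norm_pow, hsn]
        calc (2 * D.a ζ) ^ 3 * ‖h ζ‖ * ‖fderiv ℝ (D.Th χ z κ k) ζ‖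
            ≤ (2 * D.a ζ) ^ 3 * (C₁ / D.a ζ) * B := by gcongr
          _ = 8 * C₁ * B * D.a ζ ^ 2 := by field_simp; ring
          _ ≤ 8 * C₁ * B * 1 := by
            gcongr
            exact pow_le_one₀ ha.le ha1
          _ = 8 * C₁ * B := by ring
      have e2 : ‖D.sC ζ ^ 3 • fderiv ℝ h ζ‖ ≤ 8 * C₁ := by
        rw [norm_smul, norm_pow, hsn]
        calc (2 * D.a ζ) ^ 3 * ‖fderiv ℝ h ζ‖
            ≤ (2 * D.a ζ) ^ 3 * (C₁ / D.a ζ ^ 2) := by gcongr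
          _ = 8 * C₁ * D.a ζ := by field_simp; ring
          _ ≤ 8 * C₁ * 1 := by gcongr
          _ = 8 * C₁ := by ring
      have e3 : ‖h ζ • ((3 • D.sC ζ ^ (3 - 1)) • fderiv ℝ D.sC ζ)‖ ≤ 24 * D.C * C₁ := by
        have h3 : ‖(3 • D.sC ζ ^ (3 - 1) : ℂ)‖ = 3 * (2 * D.a ζ) ^ 2 := by
          have h31 : (3 • D.sC ζ ^ (3 - 1) : ℂ) = 3 * D.sC ζ ^ 2 := by
            simp [nsmul_eq_mul]
          rw [h31, norm_mul, norm_pow, hsn]
          simp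
        rw [norm_smul, norm_smul, h3]
        calc ‖h ζ‖ * (3 * (2 * D.a ζ) ^ 2 * ‖fderiv ℝ D.sC ζ‖)
            ≤ (C₁ / D.a ζ) * (3 * (2 * D.a ζ) ^ 2 * (2 * D.C)) := by gcongr
          _ = 24 * D.C * C₁ * D.a ζ := by field_simp; ring
          _ ≤ 24 * D.C * C₁ * 1 := by gcongr
          _ = 24 * D.C * C₁ := by ring
      have e4 : ‖D.Th χ z κ k ζ • (D.sC ζ ^ 3 • fderiv ℝ h ζ +
          h ζ • ((3 • D.sC ζ ^ (3 - 1)) • fderiv ℝ D.sC ζ))‖ ≤ B * (8 * C₁ + 24 * D.C * C₁) := by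
        rw [norm_smul]
        have h5 : ‖D.sC ζ ^ 3 • fderiv ℝ h ζ +
            h ζ • ((3 • D.sC ζ ^ (3 - 1)) • fderiv ℝ D.sC ζ)‖ ≤ 8 * C₁ + 24 * D.C * C₁ :=
          (norm_add_le _ _).trans (add_le_add e2 e3)
        exact mul_le_mul hT h5 (norm_nonneg _) hB0
      calc _ ≤ 8 * C₁ * B + B * (8 * C₁ + 24 * D.C * C₁) :=
            (norm_add_le _ _).trans (add_le_add e1 e4)
        _ = (24 * D.C + 16) * C₁ * B := by ring
  · -- far from the support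
    rw [not_le] at hn
    have h0 : ∀ x : En n, 7 * D.ε / 16 < ‖x‖ →
        (χ.χ x : ℂ) * h x * Vof D.Qv (mm n) z κ k x = 0 := by
      intro x hx
      rw [χ.zero x hx.le]
      simp
    have hev : (fun x => (χ.χ x : ℂ) * h x * Vof D.Qv (mm n) z κ k x) =ᶠ[𝓝 ζ]
        fun _ => (0 : ℂ) := by
      filter_upwards [(isOpen_lt continuous_const continuous_norm).mem_nhds hn] with x hx
      exact h0 x hx
    refine ⟨?_, ?_⟩
    · rw [h0 ζ hn, norm_zero]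
      positivity
    · rw [hev.fderiv_eq]
      simpa using hBC

end LData

end Pool.Agent.H8.FZ
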