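import Pool.Agent.H8.FZ.CStep

/-!
# FZ-CMAIN: the conjugate part is bounded

`Tc_bound`: for all `d, α ≥ 3, γ, β, ψ` with `2(β+1) ≤ 2α + |γ| + d` there is `C` with
`‖Tc … z‖ ≤ C` for all `z ∈ S`, `‖z‖ < ε/4`. Induction on `d`.
* `d = 0` (or whenever `2(β+1) ≤ 2α+|γ|`): on `S`, `‖ζ‖ ≤ 7ε/16`: `‖h‖ ≤ C₁/a`, `a ≤ ‖L‖/c'`,
  `|w^γ| ≤ ‖w‖^{|γ|}`, `‖w‖² ≤ ‖L‖/c'` (`norm_L_ge`), `‖L‖ ≤ C'`, so
  `a^{α-1} ‖w‖^{|γ|} ‖L‖^{-β} ≤ C ‖L‖^{α-1+|γ|/2-β} ≤ C` (square everything to avoid square roots: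
  `‖w‖^{2|γ|} ≤ (‖L‖/c')^{|γ|}`).
* step: `Tc_step`; the three kinds of terms have deficiency `d - 2`, `d - 1` (if `γ_j ≥ 1`; otherwise
  the factor `γ_j` is `0`), `d - 1` (`2(β+2) ≤ 2(α+1) + |γ| + 1 + (d-1)`).

`conj_bounded`: `K = s^{m-n-1} Δ L^{-m}`, so the integral is `2^{m-n-1} Tc h (χΔ) (m-n-1) 0 m z`
and `m - n - 1 = 3n+7 ≥ 3`.
-/

set_option autoImplicit false

noncomputable section

namespace Pool.Agent.H8.FZ

open Complex Metric MeasureTheory Set Filter Topology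
open scoped ContDiff ComplexConjugate

variable {n : ℕ}

private theorem fderiv_zero_of_vanish {g : En n → ℂ} (hg : ContDiff ℝ ∞ g) {R : ℝ} (hR : 0 < R)
    (h0 : ∀ ζ : En n, R ≤ ‖ζ‖ → g ζ = 0) {ζ : En n} (hζ : R ≤ ‖ζ‖) : fderiv ℝ g ζ = 0 := by
  have hc : Continuous (fderiv ℝ g) := hg.continuous_fderiv (by simp)
  have hζ0 : 0 < ‖ζ‖ := hR.trans_le hζ
  have h1 : Tendsto (fun t : ℝ => fderiv ℝ g ((1 + t) • ζ)) (𝓝[>] 0) (𝓝 (fderiv ℝ g ζ)) := by
    have h2 : Tendsto (fun t : ℝ => (1 + t) • ζ) (𝓝[>] 0) (𝓝 ζ) := by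
      have : Tendsto (fun t : ℝ => (1 + t) • ζ) (𝓝 0) (𝓝 ((1 + (0 : ℝ)) • ζ)) := by
        apply Continuous.tendsto
        fun_prop
      rw [add_zero, one_smul] at this
      exact this.mono_left nhdsWithin_le_nhds
    exact (hc.tendsto ζ).comp h2
  have h3 : (fun t : ℝ => fderiv ℝ g ((1 + t) • ζ)) =ᶠ[𝓝[>] 0] fun _ => 0 := by
    filter_upwards [self_mem_nhdsWithin] with t ht
    have ht' : (0 : ℝ) < t := ht
    have hlt : R < ‖(1 + t) • ζ‖ := by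
      rw [norm_smul, Real.norm_eq_abs, abs_of_pos (by linarith)]
      nlinarith
    have he : g =ᶠ[𝓝 ((1 + t) • ζ)] fun _ => 0 := by
      have : {x : En n | R < ‖x‖} ∈ 𝓝 ((1 + t) • ζ) :=
        (isOpen_lt continuous_const continuous_norm).mem_nhds hlt
      filter_upwards [this] with x hx
      exact h0 x (le_of_lt hx)
    rw [he.fderiv_eq]
    simp
  exact tendsto_nhds_unique h1 (tendsto_const_nhds.congr' h3.symm)

private theorem del_zero_of_vanish {g : En n → ℂ} (hg : ContDiff ℝ ∞ g) {R : ℝ} (hR : 0 < R)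
    (h0 : ∀ ζ : En n, R ≤ ‖ζ‖ → g ζ = 0) {ζ : En n} (hζ : R ≤ ‖ζ‖) (j : Fin n) :
    del j g ζ = 0 := by
  unfold del
  rw [fderiv_zero_of_vanish hg hR h0 hζ]
  simp

private theorem bounded_of_vanish {g : En n → ℂ} (hg : Continuous g) {R : ℝ}
    (h0 : ∀ ζ : En n, R ≤ ‖ζ‖ → g ζ = 0) : ∃ B : ℝ, 0 ≤ B ∧ ∀ ζ, ‖g ζ‖ ≤ B := by
  obtain ⟨B, hB⟩ := (isCompact_closedBall (0 : En n) R).exists_bound_of_continuousOn
    hg.continuousOn
  refine ⟨max B 0, le_max_right _ _, fun ζ => ?_⟩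
  by_cases hζ : R ≤ ‖ζ‖
  · rw [h0 ζ hζ, norm_zero]; exact le_max_right _ _
  · refine (hB ζ ?_).trans (le_max_left _ _)
    rw [mem_closedBall_zero_iff]
    exact (not_le.1 hζ).le

/-- the elementary inequality for the exponents -/
private theorem elem_bound {a w l c' C' : ℝ} (ha : 0 < a) (hw : 0 ≤ w) (hl : 0 < l)
    (hc : 0 < c') (h1 : a ≤ l / c') (h2 : w ^ 2 ≤ l / c') (h3 : l ≤ C') {p g β : ℕ}
    (hpg : 2 * β ≤ 2 * p + g) :
    a ^ p * w ^ g * (l⁻¹) ^ β ≤ 1 + (1 / c') ^ (2 * β) * (C' / c') ^ (2 * p + g - 2 * β) := by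
  set x := a ^ p * w ^ g * (l⁻¹) ^ β with hx
  have hx2 : x ^ 2 ≤ (1 / c') ^ (2 * β) * (C' / c') ^ (2 * p + g - 2 * β) := by
    have e1 : x ^ 2 = (a ^ (2 * p) * (w ^ 2) ^ g) * (l⁻¹) ^ (2 * β) := by
      rw [hx, mul_pow, mul_pow, ← pow_mul, ← pow_mul, ← pow_mul, ← pow_mul]
      ring
    have hlc : 0 < l / c' := div_pos hl hc
    have e2 : a ^ (2 * p) * (w ^ 2) ^ g ≤ (l / c') ^ (2 * p) * (l / c') ^ g := by
      apply mul_le_mul
      · exact pow_le_pow_left₀ ha.le h1 _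
      · exact pow_le_pow_left₀ (sq_nonneg w) h2 _
      · positivity
      · positivity
    have e3 : (l / c') ^ (2 * p) * (l / c') ^ g =
        (l / c') ^ (2 * β) * (l / c') ^ (2 * p + g - 2 * β) := by
      rw [← pow_add, ← pow_add]
      congr 1
      omega
    have e4 : (l / c') ^ (2 * p + g - 2 * β) ≤ (C' / c') ^ (2 * p + g - 2 * β) :=
      pow_le_pow_left₀ hlc.le (div_le_div_of_nonneg_right h3 hc.le) _
    calc x ^ 2 = (a ^ (2 * p) * (w ^ 2) ^ g) * (l⁻¹) ^ (2 * β) := e1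
      _ ≤ ((l / c') ^ (2 * β) * (C' / c') ^ (2 * p + g - 2 * β)) * (l⁻¹) ^ (2 * β) := by
          apply mul_le_mul_of_nonneg_right _ (by positivity)
          rw [← e3] at *
          calc a ^ (2 * p) * (w ^ 2) ^ g ≤ (l / c') ^ (2 * p) * (l / c') ^ g := e2
            _ = (l / c') ^ (2 * β) * (l / c') ^ (2 * p + g - 2 * β) := by
                rw [← pow_add, ← pow_add]
                congr 1
                omega
            _ ≤ (l / c') ^ (2 * β) * (C' / c') ^ (2 * p + g - 2 * β) :=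
                mul_le_mul_of_nonneg_left e4 (by positivity)
      _ = (1 / c') ^ (2 * β) * (C' / c') ^ (2 * p + g - 2 * β) := by
          have : (l / c') ^ (2 * β) * (l⁻¹) ^ (2 * β) = (1 / c') ^ (2 * β) := by
            rw [← mul_pow]
            congr 1
            field_simp
          calc (l / c') ^ (2 * β) * (C' / c') ^ (2 * p + g - 2 * β) * (l⁻¹) ^ (2 * β)
              = ((l / c') ^ (2 * β) * (l⁻¹) ^ (2 * β)) * (C' / c') ^ (2 * p + g - 2 * β) := by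
                ring
            _ = _ := by rw [this]
  nlinarith [sq_nonneg (x - 1)]

namespace LData

variable (D : LData n)

private theorem Tc_bound_zero {h : En n → ℂ} {C₁ : ℝ} (hh : D.Tame h C₁) (α : ℕ) (γ : Fin n → ℕ)
    (β : ℕ) (ψ : En n → ℂ) (hα : 3 ≤ α) (hβ : 2 * (β + 1) ≤ 2 * α + (∑ i, γ i))
    (hψ : ContDiff ℝ ∞ ψ) (hψ0 : ∀ ζ : En n, 7 * D.ε / 16 ≤ ‖ζ‖ → ψ ζ = 0) :
    ∃ C : ℝ, ∀ z ∈ D.S, ‖z‖ < D.ε / 4 → ‖D.Tc h ψ α γ β z‖ ≤ C := by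
  obtain ⟨hh1, hC₁, hh2⟩ := hh
  obtain ⟨c', hc', _, hL⟩ := D.norm_L_ge
  obtain ⟨C', hC', hL'⟩ := D.norm_L_le
  obtain ⟨B, hB0, hB⟩ := bounded_of_vanish hψ.continuous hψ0
  set g := ∑ i, γ i with hg
  set M : ℝ := 1 + (1 / c') ^ (2 * β) * (C' / c') ^ (2 * (α - 1) + g - 2 * β) with hM
  have hM0 : 0 ≤ M := by
    have : 0 ≤ C' := le_trans zero_le_one hC'
    positivity
  refine ⟨C₁ * B * M * volume.real D.S, fun z hz hz' => ?_⟩
  unfold Tc
  have hfin : volume D.S < ⊤ := by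
    apply lt_of_le_of_lt (measure_mono (fun x hx => hx.1 : D.S ⊆ ball (0 : En n) D.ε))
    exact measure_ball_lt_top
  apply norm_setIntegral_le_of_norm_le_const hfin
  intro ζ hζ
  by_cases hζn : 7 * D.ε / 16 ≤ ‖ζ‖
  · rw [hψ0 ζ hζn]
    simp only [mul_zero, zero_mul, norm_zero]
    positivity
  · rw [not_le] at hζn
    have hε := D.hε
    have ha : 0 < D.a ζ := by
      have := hζ.2
      unfold LData.a
      linarith
    have haz : 0 < D.a z := by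
      have := hz.2
      unfold LData.a
      linarith
    obtain ⟨hh3, _⟩ := hh2 ζ hζ (by linarith)
    have hLz := hL ζ z hζ.1 hz.1 ha.le haz.le
    have hLz' := hL' ζ z hζ.1 hz.1
    have hp1 : 0 ≤ ‖pr (D.q z) (ζ - z)‖ := norm_nonneg _
    have hp2 : 0 ≤ ‖ζ - z‖ ^ 2 := sq_nonneg _
    have hl : 0 < ‖D.L ζ z‖ := by
      refine lt_of_lt_of_le ?_ hLz
      apply mul_pos hc'
      linarith
    have h1 : D.a ζ ≤ ‖D.L ζ z‖ / c' := by
      rw [le_div_iff₀ hc', mul_comm]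
      refine le_trans ?_ hLz
      apply mul_le_mul_of_nonneg_left _ hc'.le
      linarith
    have h2 : ‖ζ - z‖ ^ 2 ≤ ‖D.L ζ z‖ / c' := by
      rw [le_div_iff₀ hc', mul_comm]
      refine le_trans ?_ hLz
      apply mul_le_mul_of_nonneg_left _ hc'.le
      linarith
    have hel := elem_bound ha (norm_nonneg (ζ - z)) hl hc' h1 h2 hLz' (p := α - 1) (g := g)
      (β := β) (by omega)
    rw [← hM] at hel
    have hprod : ‖∏ i, (ζ i - z i) ^ γ i‖ ≤ ‖ζ - z‖ ^ g := by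
      rw [norm_prod, hg, ← Finset.prod_pow_eq_pow_sum]
      apply Finset.prod_le_prod
      · intro i _; exact norm_nonneg _
      · intro i _
        rw [norm_pow]
        apply pow_le_pow_left₀ (norm_nonneg _)
        have := EuclideanSpace.norm_eq (ζ - z)
        have h5 := PiLp.norm_apply_le (ζ - z) i
        simpa using h5
    have hha : ‖(starRingEnd ℂ) (h ζ)‖ * ‖(D.a ζ : ℂ) ^ α‖ ≤ C₁ * D.a ζ ^ (α - 1) := by
      rw [RCLike.norm_conj, norm_pow, Complex.norm_real, Real.norm_eq_abs, abs_of_pos ha]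
      calc ‖h ζ‖ * D.a ζ ^ α ≤ (C₁ / D.a ζ) * D.a ζ ^ α :=
            mul_le_mul_of_nonneg_right hh3 (by positivity)
        _ = C₁ * D.a ζ ^ (α - 1) := by
            obtain ⟨k, rfl⟩ : ∃ k, α = k + 1 := ⟨α - 1, by omega⟩
            rw [Nat.add_sub_cancel, pow_succ]
            field_simp
    rw [norm_mul, norm_mul, norm_mul, norm_mul, norm_pow (D.L ζ z)⁻¹, norm_inv]
    calc ‖(starRingEnd ℂ) (h ζ)‖ * ‖(D.a ζ : ℂ) ^ α‖ * ‖ψ ζ‖ * ‖∏ i, (ζ i - z i) ^ γ i‖ *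
          (‖D.L ζ z‖⁻¹) ^ β
        ≤ (C₁ * D.a ζ ^ (α - 1)) * B * ‖ζ - z‖ ^ g * (‖D.L ζ z‖⁻¹) ^ β := by
          apply mul_le_mul_of_nonneg_right _ (by positivity)
          apply mul_le_mul _ hprod (norm_nonneg _) (by positivity)
          exact mul_le_mul hha (hB ζ) (norm_nonneg _) (by positivity)
      _ = C₁ * B * (D.a ζ ^ (α - 1) * ‖ζ - z‖ ^ g * (‖D.L ζ z‖⁻¹) ^ β) := by ring
      _ ≤ C₁ * B * M := mul_le_mul_of_nonneg_left hel (by positivity)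

theorem Tc_bound {h : En n → ℂ} {C₁ : ℝ} (hh : D.Tame h C₁) (d : ℕ) :
    ∀ (α : ℕ) (γ : Fin n → ℕ) (β : ℕ) (ψ : En n → ℂ), 3 ≤ α →
      2 * (β + 1) ≤ 2 * α + (∑ i, γ i) + d → ContDiff ℝ ∞ ψ →
      (∀ ζ : En n, 7 * D.ε / 16 ≤ ‖ζ‖ → ψ ζ = 0) →
      ∃ C : ℝ, ∀ z ∈ D.S, ‖z‖ < D.ε / 4 → ‖D.Tc h ψ α γ β z‖ ≤ C := by
  classical
  induction d with
  | zero =>
    intro α γ β ψ hα hβ hψ hψ0
    exact D.Tc_bound_zero hh α γ β ψ hα (by simpa using hβ) hψ hψ0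
  | succ d ih =>
    intro α γ β ψ hα hβ hψ hψ0
    have hR : 0 < 7 * D.ε / 16 := by have := D.hε; positivity
    obtain ⟨X, hX, hX1⟩ := D.exists_X
    have hXψ : ∀ j, ContDiff ℝ ∞ (fun x => X j x * ψ x) := fun j => (hX j).mul hψ
    have hXψ0 : ∀ j, ∀ ζ : En n, 7 * D.ε / 16 ≤ ‖ζ‖ → X j ζ * ψ ζ = 0 := fun j ζ hζ => by
      rw [hψ0 ζ hζ, mul_zero]
    obtain ⟨A1, hA1⟩ := ih (α + 1) γ β (fun ζ => ∑ j, del j (fun x => X j x * ψ x) ζ) (by omega)
      (by omega) (ContDiff.sum fun j _ => contDiff_del (hXψ j) j) (fun ζ hζ =>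
        Finset.sum_eq_zero fun j _ => del_zero_of_vanish (hXψ j) hR (hXψ0 j) hζ j)
    have h2 : ∀ j : Fin n, ∃ C : ℝ, ∀ z ∈ D.S, ‖z‖ < D.ε / 4 →
        ‖(γ j : ℂ) * D.Tc h (fun ζ => X j ζ * ψ ζ) (α + 1)
            (Function.update γ j (γ j - 1)) β z‖ ≤ C := by
      intro j
      rcases Nat.eq_zero_or_pos (γ j) with h0 | h0
      · refine ⟨0, fun z _ _ => ?_⟩
        rw [h0]; simp
      · have hsum : ∑ i, Function.update γ j (γ j - 1) i + 1 = ∑ i, γ i := by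
          rw [Finset.sum_update_of_mem (Finset.mem_univ j)]
          rw [← Finset.add_sum_erase Finset.univ γ (Finset.mem_univ j)]
          rw [Finset.sdiff_singleton_eq_erase]
          omega
        obtain ⟨C, hC⟩ := ih (α + 1) (Function.update γ j (γ j - 1)) β
          (fun ζ => X j ζ * ψ ζ) (by omega) (by omega) (hXψ j) (hXψ0 j)
        refine ⟨(γ j : ℝ) * C, fun z hz hz' => ?_⟩
        rw [norm_mul, Complex.norm_natCast]
        exact mul_le_mul_of_nonneg_left (hC z hz hz') (Nat.cast_nonneg _)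
    choose A2 hA2 using h2
    have h3 : ∀ k : Fin n, ∃ C : ℝ, ∀ z ∈ D.S, ‖z‖ < D.ε / 4 →
        ‖D.Tc h (fun ζ => (∑ j, X j ζ * del j (fun x => D.q x k) ζ) * ψ ζ) (α + 1)
            (Function.update γ k (γ k + 1)) (β + 1) z‖ ≤ C := by
      intro k
      have hsum : ∑ i, Function.update γ k (γ k + 1) i = ∑ i, γ i + 1 := by
        rw [Finset.sum_update_of_mem (Finset.mem_univ k)]
        rw [← Finset.add_sum_erase Finset.univ γ (Finset.mem_univ k)]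
        rw [Finset.sdiff_singleton_eq_erase]
        omega
      apply ih (α + 1) (Function.update γ k (γ k + 1)) (β + 1) _ (by omega) (by omega)
      · apply ContDiff.mul _ hψ
        exact ContDiff.sum fun j _ => (hX j).mul (contDiff_del (D.contDiff_q k) j)
      · intro ζ hζ
        rw [hψ0 ζ hζ, mul_zero]
    choose A3 hA3 using h3
    refine ⟨A1 + ∑ j, A2 j + (β : ℝ) * ∑ k, A3 k, fun z hz hz' => ?_⟩
    have hst := D.Tc_step hX hX1 hh hψ hψ0 hα γ β hz hz'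
    have hn : ‖((α : ℂ) + 1) * D.Tc h ψ α γ β z‖ = ((α : ℝ) + 1) * ‖D.Tc h ψ α γ β z‖ := by
      rw [norm_mul]
      congr 1
      have : ((α : ℂ) + 1) = ((α + 1 : ℕ) : ℂ) := by push_cast; ring
      rw [this, Complex.norm_natCast]
      push_cast; ring
    have hle : ‖D.Tc h ψ α γ β z‖ ≤ ‖((α : ℂ) + 1) * D.Tc h ψ α γ β z‖ := by
      rw [hn]
      have h4 : 0 ≤ ‖D.Tc h ψ α γ β z‖ := norm_nonneg _
      have h5 : (0 : ℝ) ≤ α := Nat.cast_nonneg _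
      nlinarith
    refine hle.trans ?_
    rw [hst, norm_neg]
    refine (norm_sub_le _ _).trans ?_
    apply add_le_add
    · refine (norm_add_le _ _).trans ?_
      apply add_le_add (hA1 z hz hz')
      refine (norm_sum_le _ _).trans ?_
      exact Finset.sum_le_sum fun j _ => hA2 j z hz hz'
    · rw [norm_mul, Complex.norm_natCast]
      apply mul_le_mul_of_nonneg_left _ (Nat.cast_nonneg _)
      refine (norm_sum_le _ _).trans ?_
      exact Finset.sum_le_sum fun k _ => hA3 k z hz hz'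

theorem conj_bounded (χ : D.Cut) {h : En n → ℂ} {C₁ : ℝ} (hh : D.Tame h C₁) :
    ∃ C : ℝ, 0 < C ∧ ∀ z ∈ D.S, ‖z‖ < D.ε / 4 →
      ‖∫ ζ in D.S, (χ.χ ζ : ℂ) * conj (h ζ) * D.K ζ z‖ ≤ C := by
  set α := mm n - n - 1 with hα
  have hα3 : 3 ≤ α := by
    rw [hα]; unfold mm; omega
  set ψ : En n → ℂ := fun ζ => (2 : ℂ) ^ α * ((χ.χ ζ : ℂ) * D.Delta ζ) with hψdef
  have hψ : ContDiff ℝ ∞ ψ := by
    apply contDiff_const.mul
    exact (Complex.ofRealCLM.contDiff.comp χ.smooth).mul D.contDiff_Delta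
  have hψ0 : ∀ ζ : En n, 7 * D.ε / 16 ≤ ‖ζ‖ → ψ ζ = 0 := by
    intro ζ hζ
    simp only [hψdef]
    rw [χ.zero ζ hζ]
    simp
  obtain ⟨C, hC⟩ := D.Tc_bound hh (2 * (mm n + 1)) α (fun _ => 0) (mm n) ψ hα3 (by omega) hψ hψ0
  refine ⟨|C| + 1, by positivity, fun z hz hz' => ?_⟩
  have he : ∫ ζ in D.S, (χ.χ ζ : ℂ) * conj (h ζ) * D.K ζ z = D.Tc h ψ α (fun _ => 0) (mm n) z := by
    unfold Tc
    congr 1
    funext ζ
    simp only [hψdef, pow_zero, Finset.prod_const_one, mul_one, K]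
    rw [← hα]
    push_cast
    rw [mul_pow]
    ring
  rw [he]
  exact ((hC z hz hz').trans (le_abs_self C)).trans (by linarith)

end LData

end Pool.Agent.H8.FZ
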