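import Pool.Agent.H8.FZ.Calc
import Pool.Agent.H8.FZ.Ibp
import Pool.Agent.H8.FZ.Holo

/-!
# FZ-CSTEP: one integration by parts for the conjugate part

`X` a smooth (1,0) field with `X a = ∑_j X_j ∂_j a = 1` for `‖ζ‖ ≤ 7ε/16`
(`exists_X`: `X_j = conj(∂_j a)/∑|∂_k a|²` times a smooth cut-off equal to `1` for `‖ζ‖ ≤ 7ε/16` and
supported in `‖ζ‖ < ε`; `∑_k|∂_k a|² > 0` on the ball by `grad`).

`Tc_step`: with `w = ζ - z`, `a^α = (α+1)^{-1} X(a^{α+1})` on the support of `ψ`, so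
(α+1) T = ∑_j ∫ ∂_j(a^{α+1}) X_j ψ h̄ w^γ L^{-β} = - ∑_j ∫ a^{α+1} ∂_j(X_j ψ h̄ w^γ L^{-β})
(`ibp_del` for `g = a^{α+1} X_j ψ h̄ w^γ L^{-β}`, `α ≥ 3`: `‖g‖ ≤ B a^{α+1}/a`,
`‖Dg‖ ≤ B a^{α-1}`; here `L` is smooth and nonzero on the compact set `{‖ζ‖ ≤ 7ε/16, r ζ ≤ 0}` as
`re L ≥ a ζ + a z > 0`). Now `∂_j h̄ = conj(∂̄_j h) = 0`, `∂_j w^γ = γ_j w^{γ - e_j}`,
`∂_j L^{-β} = -β L^{-β-1} ∂_j L`, and
`∑_j X_j ∂_j L = 2 X a + ∑_k (X q_k) w_k + ∑_j X_j q_j = ∑_k (X q_k) w_k`,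
because `q_j = 2 ∂_j r = - 2 ∂_j a`, `X a = 1`. Collect terms.
-/

set_option autoImplicit false

noncomputable section

namespace Pool.Agent.H8.FZ

open Complex Metric MeasureTheory Set Filter Topology
open scoped ContDiff ComplexConjugate

variable {n : ℕ}

namespace LData

variable (D : LData n)

/-! ### Smoothness of the ingredients -/

theorem cs_contDiff_ac : ContDiff ℝ ∞ (fun x => (D.a x : ℂ)) :=
  Complex.ofRealCLM.contDiff.comp D.contDiff_a

theorem cs_fderiv_ac (ζ w : En n) :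
    fderiv ℝ (fun x => (D.a x : ℂ)) ζ w = -((fderiv ℝ D.r ζ w : ℝ) : ℂ) := by
  have hr : DifferentiableAt ℝ D.r ζ := (D.hr.differentiable (by simp)) ζ
  have h1 : HasFDerivAt D.a (-(fderiv ℝ D.r ζ)) ζ := hr.hasFDerivAt.neg
  have h2 : HasFDerivAt (fun x => (D.a x : ℂ)) (Complex.ofRealCLM.comp (-(fderiv ℝ D.r ζ))) ζ :=
    Complex.ofRealCLM.hasFDerivAt.comp ζ h1
  rw [h2.fderiv]
  simp

theorem cs_del_ac (ζ : En n) (j : Fin n) :
    del j (fun x => (D.a x : ℂ)) ζ = -(1 / 2 : ℂ) * D.q ζ j := by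
  rw [del, cs_fderiv_ac, cs_fderiv_ac, q]
  ring

theorem cs_coord (i : Fin n) : ContDiff ℝ ∞ (fun x : En n => x i) :=
  ((EuclideanSpace.proj i : En n →L[ℂ] ℂ).restrictScalars ℝ).contDiff

/-- the square sum of the derivatives does not vanish on the ball -/
theorem cs_N_ne {ζ : En n} (hζ : ζ ∈ ball (0 : En n) D.ε) :
    ∑ k, del k (fun x => (D.a x : ℂ)) ζ * conj (del k (fun x => (D.a x : ℂ)) ζ) ≠ 0 := by
  intro h0
  have h1 : ∑ k, ‖del k (fun x => (D.a x : ℂ)) ζ‖ ^ 2 = 0 := by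
    have h2 : ((∑ k, ‖del k (fun x => (D.a x : ℂ)) ζ‖ ^ 2 : ℝ) : ℂ) = 0 := by
      rw [← h0]
      push_cast
      refine Finset.sum_congr rfl fun k _ => ?_
      rw [Complex.mul_conj, Complex.normSq_eq_norm_sq]
      push_cast
      rfl
    exact_mod_cast h2
  have h3 : ∀ k, del k (fun x => (D.a x : ℂ)) ζ = 0 := by
    intro k
    have h4 := (Finset.sum_eq_zero_iff_of_nonneg (fun i _ => by positivity)).1 h1 k
      (Finset.mem_univ k)
    exact norm_eq_zero.1 (by simpa using h4)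
  have hd : DifferentiableAt ℝ D.a ζ := (D.contDiff_a.differentiable (by simp)) ζ
  have h4 : fderiv ℝ D.r ζ = 0 := by
    ext w
    have h5 := fderiv_eq_del_dbar (fun x => (D.a x : ℂ)) ζ w
    have h6 : ∀ k, dbar k (fun x => (D.a x : ℂ)) ζ = 0 := by
      intro k
      rw [dbar_real hd, h3 k, map_zero]
    rw [cs_fderiv_ac] at h5
    simp only [h3, h6, zero_mul, add_zero, Finset.sum_const_zero] at h5
    have h7 : ((fderiv ℝ D.r ζ w : ℝ) : ℂ) = 0 := by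
      rw [← neg_eq_zero]
      exact h5
    exact_mod_cast h7
  have h5 := D.grad ζ hζ
  rw [h4, norm_zero] at h5
  exact absurd h5 (not_le.2 D.hc)

theorem exists_X : ∃ X : Fin n → En n → ℂ, (∀ j, ContDiff ℝ ∞ (X j)) ∧
    ∀ ζ : En n, ‖ζ‖ ≤ 7 * D.ε / 16 → ∑ j, X j ζ * del j (fun x => (D.a x : ℂ)) ζ = 1 := by
  have hε := D.hε
  let φ : ContDiffBump (0 : En n) := ⟨7 * D.ε / 16, D.ε / 2, by positivity, by linarith⟩
  let N : En n → ℂ := fun ζ =>
    ∑ k, del k (fun x => (D.a x : ℂ)) ζ * conj (del k (fun x => (D.a x : ℂ)) ζ)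
  have hdel : ∀ k, ContDiff ℝ ∞ (del k (fun x => (D.a x : ℂ))) := fun k =>
    contDiff_del D.cs_contDiff_ac k
  have hconj : ∀ k, ContDiff ℝ ∞ (fun ζ => conj (del k (fun x => (D.a x : ℂ)) ζ)) := fun k =>
    Complex.conjCLE.contDiff.comp (hdel k)
  have hN : ContDiff ℝ ∞ N := ContDiff.sum fun k _ => (hdel k).mul (hconj k)
  have hφ : ContDiff ℝ ∞ (fun ζ => ((φ ζ : ℝ) : ℂ)) := Complex.ofRealCLM.contDiff.comp φ.contDiff
  refine ⟨fun j ζ => ((φ ζ : ℝ) : ℂ) * conj (del j (fun x => (D.a x : ℂ)) ζ) * (N ζ)⁻¹, ?_, ?_⟩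
  · intro j
    rw [contDiff_iff_contDiffAt]
    intro ζ
    by_cases hζ : ζ ∈ ball (0 : En n) D.ε
    · exact ((hφ.contDiffAt).mul (hconj j).contDiffAt).mul
        ((hN.contDiffAt).inv (D.cs_N_ne hζ))
    · have hev : (fun ζ => ((φ ζ : ℝ) : ℂ) * conj (del j (fun x => (D.a x : ℂ)) ζ) * (N ζ)⁻¹)
          =ᶠ[𝓝 ζ] fun _ => 0 := by
        have hopen : IsOpen {x : En n | D.ε / 2 < ‖x‖} := isOpen_lt continuous_const continuous_norm
        have hmem : ζ ∈ {x : En n | D.ε / 2 < ‖x‖} := by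
          rw [mem_ball_zero_iff, not_lt] at hζ
          show D.ε / 2 < ‖ζ‖
          linarith
        filter_upwards [hopen.mem_nhds hmem] with x hx
        have h0 : φ x = 0 := φ.zero_of_le_dist (by
          rw [dist_zero_right]
          exact le_of_lt hx)
        rw [h0]
        simp
      exact contDiffAt_const.congr_of_eventuallyEq hev
  · intro ζ hζ
    have h1 : φ ζ = 1 := φ.one_of_mem_closedBall (by
      rw [mem_closedBall_zero_iff]
      exact hζ)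
    have hb : ζ ∈ ball (0 : En n) D.ε := by
      rw [mem_ball_zero_iff]
      linarith
    have hN0 : N ζ ≠ 0 := D.cs_N_ne hb
    have h2 : ∑ j, ((φ ζ : ℝ) : ℂ) * conj (del j (fun x => (D.a x : ℂ)) ζ) * (N ζ)⁻¹ *
        del j (fun x => (D.a x : ℂ)) ζ = N ζ * (N ζ)⁻¹ := by
      simp only [N]
      rw [Finset.sum_mul]
      refine Finset.sum_congr rfl fun j _ => ?_
      rw [h1]
      push_cast
      ring
    rw [h2, mul_inv_cancel₀ hN0]

/-! ### The integrand -/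

/-- the integrand of `Tc` -/
def csI (h ψ : En n → ℂ) (α : ℕ) (γ : Fin n → ℕ) (β : ℕ) (z ζ : En n) : ℂ :=
  (starRingEnd ℂ) (h ζ) * (D.a ζ : ℂ) ^ α * ψ ζ *
    (∏ i, (ζ i - z i) ^ γ i) * ((D.L ζ z)⁻¹) ^ β

theorem cs_Tc_eq (h ψ : En n → ℂ) (α : ℕ) (γ : Fin n → ℕ) (β : ℕ) (z : En n) :
    D.Tc h ψ α γ β z = ∫ ζ in D.S, D.csI h ψ α γ β z ζ := rfl

theorem cs_a_pos {ζ : En n} (hζ : ζ ∈ D.S) : 0 < D.a ζ := by
  have := hζ.2
  rw [a]
  linarith

theorem cs_a_le {ζ : En n} (hζ : ζ ∈ D.S) : D.a ζ ≤ 1 := by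
  have := (abs_le.1 (D.b0 ζ hζ.1)).1
  rw [a]
  linarith

theorem cs_re_L {ζ z : En n} (hζ : ζ ∈ ball (0 : En n) D.ε) (hr : D.r ζ ≤ 0) (hz : z ∈ D.S) :
    D.a z ≤ (D.L ζ z).re := by
  have h1 := D.re_L_ge hζ hz.1
  have h2 : 0 ≤ (D.c / 2) * ‖ζ - z‖ ^ 2 := by
    have := D.hc
    positivity
  have h3 : 0 ≤ D.a ζ := by
    rw [a]
    linarith
  linarith

theorem cs_L_ne {ζ z : En n} (hζ : ζ ∈ ball (0 : En n) D.ε) (hr : D.r ζ ≤ 0) (hz : z ∈ D.S) :
    D.L ζ z ≠ 0 := by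
  intro h0
  have h1 := D.cs_re_L hζ hr hz
  rw [h0, Complex.zero_re] at h1
  exact absurd h1 (not_le.2 (D.cs_a_pos hz))

theorem cs_L_ne' {ζ z : En n} (hζ : ζ ∈ D.S) (hz : z ∈ D.S) : D.L ζ z ≠ 0 :=
  D.cs_L_ne hζ.1 hζ.2.le hz

theorem cs_contDiff_L (z : En n) : ContDiff ℝ ∞ (fun ζ => D.L ζ z) :=
  D.contDiff_L.comp (contDiff_id.prodMk contDiff_const)

theorem cs_contDiff_w (γ : Fin n → ℕ) (z : En n) :
    ContDiff ℝ ∞ (fun ζ : En n => ∏ i, (ζ i - z i) ^ γ i) :=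
  contDiff_prod fun i _ => ((cs_coord i).sub contDiff_const).pow _

/-- smooth factor: everything but `a^α` and `h̄` -/
def csE (φ : En n → ℂ) (γ : Fin n → ℕ) (β : ℕ) (z ζ : En n) : ℂ :=
  φ ζ * (∏ i, (ζ i - z i) ^ γ i) * ((D.L ζ z)⁻¹) ^ β

/-- the compact set `{‖ζ‖ ≤ 7ε/16, r ζ ≤ 0}` -/
def csK : Set (En n) := {ζ | ‖ζ‖ ≤ 7 * D.ε / 16 ∧ D.r ζ ≤ 0}

theorem cs_isCompact_K : IsCompact D.csK := by
  have h1 : IsClosed D.csK :=
    (isClosed_le continuous_norm continuous_const).inter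
      (isClosed_le D.hr.continuous continuous_const)
  refine (isCompact_closedBall (0 : En n) (7 * D.ε / 16)).of_isClosed_subset h1 ?_
  intro ζ hζ
  rw [mem_closedBall_zero_iff]
  exact hζ.1

theorem cs_K_ball {ζ : En n} (hζ : ζ ∈ D.csK) : ζ ∈ ball (0 : En n) D.ε := by
  rw [mem_ball_zero_iff]
  have := hζ.1
  have := D.hε
  linarith

theorem cs_contDiffOn_E {φ : En n → ℂ} (hφ : ContDiff ℝ ∞ φ) (γ : Fin n → ℕ) (β : ℕ) (z : En n) :
    ContDiffOn ℝ ∞ (D.csE φ γ β z) {ζ | D.L ζ z ≠ 0} := by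
  intro ζ hζ
  apply ContDiffAt.contDiffWithinAt
  exact ((hφ.contDiffAt).mul (cs_contDiff_w γ z).contDiffAt).mul
    (((D.cs_contDiff_L z).contDiffAt.inv hζ).pow β)

theorem cs_isOpen_L (z : En n) : IsOpen {ζ | D.L ζ z ≠ 0} :=
  isOpen_ne_fun (D.cs_contDiff_L z).continuous continuous_const

theorem cs_E_bound {φ : En n → ℂ} (hφ : ContDiff ℝ ∞ φ) (γ : Fin n → ℕ) (β : ℕ) {z : En n}
    (hz : z ∈ D.S) : ∃ b : ℝ, 0 ≤ b ∧ ∀ ζ ∈ D.csK, ‖D.csE φ γ β z ζ‖ ≤ b ∧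
      ‖fderiv ℝ (D.csE φ γ β z) ζ‖ ≤ b := by
  have hsub : D.csK ⊆ {ζ | D.L ζ z ≠ 0} := fun ζ hζ =>
    D.cs_L_ne (D.cs_K_ball hζ) hζ.2 hz
  have h1 : ContinuousOn (D.csE φ γ β z) D.csK :=
    (D.cs_contDiffOn_E hφ γ β z).continuousOn.mono hsub
  have h2 : ContinuousOn (fderiv ℝ (D.csE φ γ β z)) D.csK :=
    ((D.cs_contDiffOn_E hφ γ β z).continuousOn_fderiv_of_isOpen (D.cs_isOpen_L z)
      (by simp)).mono hsub
  obtain ⟨b1, hb1⟩ := D.cs_isCompact_K.exists_bound_of_continuousOn h1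
  obtain ⟨b2, hb2⟩ := D.cs_isCompact_K.exists_bound_of_continuousOn h2
  refine ⟨max 0 (max b1 b2), le_max_left _ _, fun ζ hζ => ⟨?_, ?_⟩⟩
  · exact (hb1 ζ hζ).trans ((le_max_left _ _).trans (le_max_right _ _))
  · exact (hb2 ζ hζ).trans ((le_max_right _ _).trans (le_max_right _ _))

theorem cs_h_diff {h : En n → ℂ} {C₁ : ℝ} (hh : D.Tame h C₁) {ζ : En n} (hζ : ζ ∈ D.S) :
    DifferentiableAt ℂ h ζ := hh.1.differentiableAt (D.isOpen_S.mem_nhds hζ)

theorem cs_integrable {h : En n → ℂ} {C₁ : ℝ} (hh : D.Tame h C₁) {ψ : En n → ℂ}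
    (hψ : ContDiff ℝ ∞ ψ) (hψ0 : ∀ ζ : En n, 7 * D.ε / 16 ≤ ‖ζ‖ → ψ ζ = 0) {α : ℕ} (hα : 1 ≤ α)
    (γ : Fin n → ℕ) (β : ℕ) {z : En n} (hz : z ∈ D.S) :
    IntegrableOn (D.csI h ψ α γ β z) D.S := by
  obtain ⟨b, hb0, hb⟩ := D.cs_E_bound hψ γ β hz
  have hC₁ := hh.2.1
  have hfin : IsFiniteMeasure ((volume : Measure (En n)).restrict D.S) := by
    refine ⟨?_⟩
    rw [Measure.restrict_apply_univ]
    exact (measure_mono (fun ζ hζ => hζ.1)).trans_lt measure_ball_lt_top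
  apply Integrable.of_bound (C := C₁ * b)
  · apply ContinuousOn.aestronglyMeasurable _ D.isOpen_S.measurableSet
    intro ζ hζ
    have h1 : ContinuousAt h ζ := (D.cs_h_diff hh hζ).continuousAt
    have h2 : ContinuousAt (D.csE ψ γ β z) ζ :=
      ((D.cs_contDiffOn_E hψ γ β z).continuousOn).continuousAt
        ((D.cs_isOpen_L z).mem_nhds (D.cs_L_ne' hζ hz))
    have h3 : ContinuousAt (fun x => (D.a x : ℂ) ^ α) ζ :=
      (D.cs_contDiff_ac.continuous.continuousAt).pow α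
    have h4 : ContinuousAt (fun x => conj (h x) * (D.a x : ℂ) ^ α * D.csE ψ γ β z x) ζ :=
      ((Complex.continuous_conj.continuousAt.comp h1).mul h3).mul h2
    have h5 : D.csI h ψ α γ β z =
        fun x => conj (h x) * (D.a x : ℂ) ^ α * D.csE ψ γ β z x := by
      funext x
      rw [csI, csE]
      ring
    rw [h5]
    exact h4.continuousWithinAt
  · rw [ae_restrict_iff' D.isOpen_S.measurableSet]
    refine Eventually.of_forall fun ζ hζ => ?_
    have hCb : 0 ≤ C₁ * b := by positivity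
    by_cases hn : 7 * D.ε / 16 ≤ ‖ζ‖
    · rw [csI, hψ0 ζ hn]
      simpa using hCb
    · push Not at hn
      have hK : ζ ∈ D.csK := ⟨hn.le, hζ.2.le⟩
      have hε := D.hε
      have h1 := (hh.2.2 ζ hζ (by linarith)).1
      have ha := D.cs_a_pos hζ
      have ha1 := D.cs_a_le hζ
      have h5 : D.csI h ψ α γ β z ζ =
          (conj (h ζ) * (D.a ζ : ℂ) ^ α) * D.csE ψ γ β z ζ := by
        rw [csI, csE]
        ring
      rw [h5, norm_mul, norm_mul, RCLike.norm_conj, norm_pow, Complex.norm_real,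
        Real.norm_of_nonneg ha.le]
      have h6 : ‖h ζ‖ * D.a ζ ^ α ≤ C₁ := by
        obtain ⟨k, rfl⟩ := Nat.exists_eq_add_of_le' hα
        calc ‖h ζ‖ * D.a ζ ^ (k + 1) ≤ C₁ / D.a ζ * D.a ζ ^ (k + 1) :=
              mul_le_mul_of_nonneg_right h1 (by positivity)
          _ = C₁ * D.a ζ ^ k := by
              rw [pow_succ]
              field_simp
          _ ≤ C₁ * 1 := by
              gcongr
              exact pow_le_one₀ ha.le ha1
          _ = C₁ := mul_one _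
      exact mul_le_mul h6 (hb ζ hK).1 (norm_nonneg _) (by linarith)

/-! ### Integration by parts -/

theorem cs_ibp {h : En n → ℂ} {C₁ : ℝ} (hh : D.Tame h C₁) {φ : En n → ℂ}
    (hφ : ContDiff ℝ ∞ φ) (hφ0 : ∀ ζ : En n, 7 * D.ε / 16 ≤ ‖ζ‖ → φ ζ = 0) {α : ℕ} (hα : 3 ≤ α)
    (γ : Fin n → ℕ) (β : ℕ) {z : En n} (hz : z ∈ D.S) (j : Fin n) :
    ∫ ζ in D.S, del j (fun ζ => (D.a ζ : ℂ) ^ (α + 1) * (D.csE φ γ β z ζ * conj (h ζ))) ζ = 0 := by
  obtain ⟨b, hb0, hb⟩ := D.cs_E_bound hφ γ β hz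
  have hC₁ := hh.2.1
  have hε := D.hε
  have hC := D.hC
  -- differentiability
  have hdE : ∀ ζ ∈ D.S, DifferentiableAt ℝ (D.csE φ γ β z) ζ := fun ζ hζ =>
    ((D.cs_contDiffOn_E hφ γ β z).differentiableOn (by simp)).differentiableAt
      ((D.cs_isOpen_L z).mem_nhds (D.cs_L_ne' hζ hz))
  have hdh : ∀ ζ ∈ D.S, DifferentiableAt ℝ h ζ := fun ζ hζ =>
    (D.cs_h_diff hh hζ).restrictScalars ℝ
  have hdc : ∀ ζ ∈ D.S, HasFDerivAt (fun x => conj (h x))
      ((Complex.conjCLE : ℂ →L[ℝ] ℂ).comp (fderiv ℝ h ζ)) ζ := fun ζ hζ =>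
    (Complex.conjCLE : ℂ →L[ℝ] ℂ).hasFDerivAt.comp ζ (hdh ζ hζ).hasFDerivAt
  have hda : ∀ ζ, HasFDerivAt (fun x => (D.a x : ℂ)) (fderiv ℝ (fun x => (D.a x : ℂ)) ζ) ζ :=
    fun ζ => ((D.cs_contDiff_ac.differentiable (by simp)) ζ).hasFDerivAt
  have hG : ∀ ζ ∈ D.S, HasFDerivAt
      (fun ζ => (D.a ζ : ℂ) ^ (α + 1) * (D.csE φ γ β z ζ * conj (h ζ)))
      ((D.a ζ : ℂ) ^ (α + 1) • (D.csE φ γ β z ζ •
          ((Complex.conjCLE : ℂ →L[ℝ] ℂ).comp (fderiv ℝ h ζ)) +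
          conj (h ζ) • fderiv ℝ (D.csE φ γ β z) ζ) +
        (D.csE φ γ β z ζ * conj (h ζ)) •
          (((α + 1 : ℕ) : ℂ) * (D.a ζ : ℂ) ^ α) • fderiv ℝ (fun x => (D.a x : ℂ)) ζ) ζ := by
    intro ζ hζ
    have h1 : HasFDerivAt (fun x => (D.a x : ℂ) ^ (α + 1))
        ((((α + 1 : ℕ) : ℂ) * (D.a ζ : ℂ) ^ α) • fderiv ℝ (fun x => (D.a x : ℂ)) ζ) ζ := by
      have := (hda ζ).pow (α + 1)
      rw [Nat.add_sub_cancel, nsmul_eq_mul] at this
      exact this
    exact h1.mul ((hdE ζ hζ).hasFDerivAt.mul (hdc ζ hζ))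
  have hsmall : ∀ ζ ∈ D.S, ‖ζ‖ ≤ 7 * D.ε / 16 →
      ‖h ζ‖ ≤ C₁ / D.a ζ ∧ ‖fderiv ℝ h ζ‖ ≤ C₁ / D.a ζ ^ 2 := fun ζ hζ hn =>
    hh.2.2 ζ hζ (by linarith)
  have hfa : ∀ ζ ∈ D.S, ‖fderiv ℝ (fun x => (D.a x : ℂ)) ζ‖ ≤ D.C := by
    intro ζ hζ
    apply ContinuousLinearMap.opNorm_le_bound _ (by linarith)
    intro w
    rw [cs_fderiv_ac, norm_neg, Complex.norm_real]
    exact (ContinuousLinearMap.le_opNorm _ _).trans
      (mul_le_mul_of_nonneg_right (D.b1 ζ hζ.1) (norm_nonneg _))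
  refine D.ibp_del (B := C₁ * b + (C₁ * b + C₁ * b + b * C₁ * ((α + 1) * D.C))) ?_ ?_ ?_ ?_ j
  · intro ζ hζ
    exact (hG ζ hζ).differentiableAt
  · intro ζ hζ
    rw [csE, hφ0 ζ hζ]
    simp
  · intro ζ hζ
    have ha := D.cs_a_pos hζ
    have ha1 := D.cs_a_le hζ
    by_cases hn : 7 * D.ε / 16 ≤ ‖ζ‖
    · rw [csE, hφ0 ζ hn]
      simp only [zero_mul, mul_zero, norm_zero]
      positivity
    · push Not at hn
      have hK : ζ ∈ D.csK := ⟨hn.le, hζ.2.le⟩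
      obtain ⟨h1, -⟩ := hsmall ζ hζ hn.le
      rw [norm_mul, norm_mul, RCLike.norm_conj, norm_pow, Complex.norm_real,
        Real.norm_of_nonneg ha.le]
      have h2 : D.a ζ ^ (α + 1) * (‖D.csE φ γ β z ζ‖ * ‖h ζ‖) ≤ (C₁ * b) * D.a ζ ^ 2 := by
        obtain ⟨k, rfl⟩ := Nat.exists_eq_add_of_le' hα
        calc D.a ζ ^ (k + 3 + 1) * (‖D.csE φ γ β z ζ‖ * ‖h ζ‖)
            ≤ D.a ζ ^ (k + 3 + 1) * (b * (C₁ / D.a ζ)) := by
              gcongr
              exact (hb ζ hK).1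
          _ = (C₁ * b) * D.a ζ ^ 2 * D.a ζ ^ (k + 1) := by
              field_simp
              ring
          _ ≤ (C₁ * b) * D.a ζ ^ 2 * 1 := by
              gcongr
              exact pow_le_one₀ ha.le ha1
          _ = (C₁ * b) * D.a ζ ^ 2 := mul_one _
      refine h2.trans ?_
      gcongr
      have : 0 ≤ C₁ * b + C₁ * b + b * C₁ * ((α + 1) * D.C) := by positivity
      linarith
  · intro ζ hζ
    have ha := D.cs_a_pos hζ
    have ha1 := D.cs_a_le hζ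
    have hB : 0 ≤ C₁ * b + (C₁ * b + C₁ * b + b * C₁ * ((α + 1) * D.C)) := by positivity
    by_cases hn : 7 * D.ε / 16 < ‖ζ‖
    · have hev : (fun ζ => (D.a ζ : ℂ) ^ (α + 1) * (D.csE φ γ β z ζ * conj (h ζ)))
          =ᶠ[𝓝 ζ] fun _ => 0 := by
        have hopen : IsOpen {x : En n | 7 * D.ε / 16 < ‖x‖} :=
          isOpen_lt continuous_const continuous_norm
        filter_upwards [hopen.mem_nhds hn] with x hx
        rw [csE, hφ0 x (le_of_lt hx)]
        simp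
      rw [hev.fderiv_eq]
      simpa using hB
    · push Not at hn
      have hK : ζ ∈ D.csK := ⟨hn, hζ.2.le⟩
      obtain ⟨h1, h2⟩ := hsmall ζ hζ hn
      obtain ⟨hb1, hb2⟩ := hb ζ hK
      rw [(hG ζ hζ).fderiv]
      have hconj : ‖(Complex.conjCLE : ℂ →L[ℝ] ℂ).comp (fderiv ℝ h ζ)‖ ≤ C₁ / D.a ζ ^ 2 := by
        refine (ContinuousLinearMap.opNorm_comp_le _ _).trans ?_
        rw [Complex.conjCLE_norm, one_mul]
        exact h2
      have e1 : ‖(D.a ζ : ℂ) ^ (α + 1) • (D.csE φ γ β z ζ •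
          ((Complex.conjCLE : ℂ →L[ℝ] ℂ).comp (fderiv ℝ h ζ)) +
          conj (h ζ) • fderiv ℝ (D.csE φ γ β z) ζ)‖ ≤ C₁ * b + C₁ * b := by
        rw [norm_smul, norm_pow, Complex.norm_real, Real.norm_of_nonneg ha.le]
        obtain ⟨k, rfl⟩ := Nat.exists_eq_add_of_le' hα
        calc D.a ζ ^ (k + 3 + 1) * ‖D.csE φ γ β z ζ •
              ((Complex.conjCLE : ℂ →L[ℝ] ℂ).comp (fderiv ℝ h ζ)) +
              conj (h ζ) • fderiv ℝ (D.csE φ γ β z) ζ‖
            ≤ D.a ζ ^ (k + 3 + 1) * (b * (C₁ / D.a ζ ^ 2) + C₁ / D.a ζ * b) := by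
              gcongr
              refine (norm_add_le _ _).trans (add_le_add ?_ ?_)
              · rw [norm_smul]
                exact mul_le_mul hb1 hconj (norm_nonneg _) hb0
              · rw [norm_smul, RCLike.norm_conj]
                exact mul_le_mul h1 hb2 (norm_nonneg _) (by positivity)
          _ = C₁ * b * D.a ζ ^ (k + 2) + C₁ * b * D.a ζ ^ (k + 3) := by
              field_simp
              ring
          _ ≤ C₁ * b * 1 + C₁ * b * 1 := by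
              gcongr
              · exact pow_le_one₀ ha.le ha1
              · exact pow_le_one₀ ha.le ha1
          _ = C₁ * b + C₁ * b := by ring
      have e2 : ‖(D.csE φ γ β z ζ * conj (h ζ)) •
          (((α + 1 : ℕ) : ℂ) * (D.a ζ : ℂ) ^ α) • fderiv ℝ (fun x => (D.a x : ℂ)) ζ‖ ≤
          b * C₁ * ((α + 1) * D.C) := by
        rw [norm_smul, norm_smul, norm_mul, norm_mul, RCLike.norm_conj, norm_pow,
          Complex.norm_real, Real.norm_of_nonneg ha.le, Complex.norm_natCast]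
        obtain ⟨k, rfl⟩ := Nat.exists_eq_add_of_le' hα
        calc ‖D.csE φ γ β z ζ‖ * ‖h ζ‖ * (((k + 3 + 1 : ℕ) : ℝ) * D.a ζ ^ (k + 3) *
              ‖fderiv ℝ (fun x => (D.a x : ℂ)) ζ‖)
            ≤ b * (C₁ / D.a ζ) * (((k + 3 + 1 : ℕ) : ℝ) * D.a ζ ^ (k + 3) * D.C) := by
              gcongr
              exact hfa ζ hζ
          _ = b * C₁ * (((k + 3 + 1 : ℕ) : ℝ) * D.C) * D.a ζ ^ (k + 2) := by
              field_simp
              ring
          _ ≤ b * C₁ * (((k + 3 + 1 : ℕ) : ℝ) * D.C) * 1 := by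
              gcongr
              exact pow_le_one₀ ha.le ha1
          _ = b * C₁ * ((((k + 3 : ℕ) : ℝ) + 1) * D.C) := by
              push_cast
              ring
      refine (norm_add_le _ _).trans ?_
      have : 0 ≤ C₁ * b := by positivity
      linarith

/-! ### The pointwise identity -/

theorem cs_del_prod {ι : Type*} [DecidableEq ι] (s : Finset ι) {f : ι → En n → ℂ} {z : En n}
    (hf : ∀ i ∈ s, DifferentiableAt ℝ (f i) z) (k : Fin n) :
    del k (fun x => ∏ i ∈ s, f i x) z = ∑ i ∈ s, (∏ l ∈ s.erase i, f l z) * del k (f i) z := by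
  induction s using Finset.induction_on with
  | empty => simpa using del_const k 1 z
  | insert i s hi ih =>
    have h1 : DifferentiableAt ℝ (f i) z := hf i (Finset.mem_insert_self _ _)
    have h2 : ∀ l ∈ s, DifferentiableAt ℝ (f l) z := fun l hl =>
      hf l (Finset.mem_insert_of_mem hl)
    have h3 : DifferentiableAt ℝ (fun x => ∏ l ∈ s, f l x) z := 
      (HasFDerivAt.finsetProd fun l hl => (h2 l hl).hasFDerivAt).differentiableAt
    have h4 : (fun x => ∏ l ∈ insert i s, f l x) = fun x => f i x * ∏ l ∈ s, f l x := by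
      funext x
      rw [Finset.prod_insert hi]
    rw [h4, del_mul h1 h3, ih h2, Finset.sum_insert hi, Finset.erase_insert hi, Finset.mul_sum]
    congr 1
    · ring
    · refine Finset.sum_congr rfl fun l hl => ?_
      have hil : i ≠ l := fun h => hi (h ▸ hl)
      rw [Finset.erase_insert_of_ne hil, Finset.prod_insert (fun h => hi (Finset.mem_of_mem_erase h))]
      ring

theorem cs_del_w (γ : Fin n → ℕ) (z ζ : En n) (j : Fin n) :
    del j (fun x : En n => ∏ i, (x i - z i) ^ γ i) ζ =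
      (γ j : ℂ) * ∏ i, (ζ i - z i) ^ (Function.update γ j (γ j - 1)) i := by
  have hc : ∀ i : Fin n, DifferentiableAt ℝ (fun x : En n => x i - z i) ζ := fun i =>
    (((cs_coord i).differentiable (by simp)) ζ).sub (differentiableAt_const _)
  have hp : ∀ i ∈ (Finset.univ : Finset (Fin n)),
      DifferentiableAt ℝ ((fun i (x : En n) => (x i - z i) ^ γ i) i) ζ := fun i _ =>
    (hc i).fun_pow _
  rw [cs_del_prod (Finset.univ : Finset (Fin n)) hp]
  have h1 : ∀ i, del j (fun x : En n => (x i - z i) ^ γ i) ζ =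
      if j = i then (γ i : ℂ) * (ζ i - z i) ^ (γ i - 1) else 0 := by
    intro i
    rw [del_pow (hc i), del_sub (((cs_coord i).differentiable (by simp)) ζ)
      (differentiableAt_const _), del_coord, del_const]
    split_ifs <;> simp
  simp only [h1, mul_ite, mul_zero]
  rw [Finset.sum_ite_eq, if_pos (Finset.mem_univ j)]
  rw [← Finset.mul_prod_erase Finset.univ
    (fun i => (ζ i - z i) ^ (Function.update γ j (γ j - 1)) i) (Finset.mem_univ j)]
  rw [Function.update_self]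
  have h2 : ∏ l ∈ Finset.univ.erase j, (ζ l - z l) ^ (Function.update γ j (γ j - 1)) l =
      ∏ l ∈ Finset.univ.erase j, (ζ l - z l) ^ γ l := by
    refine Finset.prod_congr rfl fun l hl => ?_
    rw [Function.update_of_ne (Finset.ne_of_mem_erase hl)]
  rw [h2]
  ring

theorem cs_w_succ (γ : Fin n → ℕ) (z ζ : En n) (k : Fin n) :
    ∏ i, (ζ i - z i) ^ (Function.update γ k (γ k + 1)) i =
      (ζ k - z k) * ∏ i, (ζ i - z i) ^ γ i := by
  rw [← Finset.mul_prod_erase Finset.univ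
    (fun i => (ζ i - z i) ^ (Function.update γ k (γ k + 1)) i) (Finset.mem_univ k),
    ← Finset.mul_prod_erase Finset.univ (fun i => (ζ i - z i) ^ γ i) (Finset.mem_univ k)]
  rw [Function.update_self]
  have h2 : ∏ l ∈ Finset.univ.erase k, (ζ l - z l) ^ (Function.update γ k (γ k + 1)) l =
      ∏ l ∈ Finset.univ.erase k, (ζ l - z l) ^ γ l := by
    refine Finset.prod_congr rfl fun l hl => ?_
    rw [Function.update_of_ne (Finset.ne_of_mem_erase hl)]
  rw [h2]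
  ring

/-- `∂_j L` -/
theorem cs_del_L (z ζ : En n) (j : Fin n) :
    del j (fun x => D.L x z) ζ =
      ∑ k, del j (fun x => D.q x k) ζ * (ζ k - z k) := by
  have hc : ∀ i : Fin n, DifferentiableAt ℝ (fun x : En n => x i - z i) ζ := fun i =>
    (((cs_coord i).differentiable (by simp)) ζ).sub (differentiableAt_const _)
  have hq : ∀ i : Fin n, DifferentiableAt ℝ (fun x : En n => D.q x i) ζ := fun i =>
    ((D.contDiff_q i).differentiable (by simp)) ζ
  have hac : DifferentiableAt ℝ (fun x => (D.a x : ℂ)) ζ :=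
    (D.cs_contDiff_ac.differentiable (by simp)) ζ
  have h1 : (fun x => D.L x z) = fun x => 2 * (D.a x : ℂ) + ∑ k, D.q x k * (x k - z k) := by
    funext x
    rw [L, pr]
    push_cast
    rfl
  have hqc : ∀ k ∈ (Finset.univ : Finset (Fin n)),
      DifferentiableAt ℝ (fun x : En n => D.q x k * (x k - z k)) ζ := fun k _ =>
    (hq k).fun_mul (hc k)
  have hsum : DifferentiableAt ℝ (fun x : En n => ∑ k, D.q x k * (x k - z k)) ζ :=
    DifferentiableAt.fun_sum hqc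
  have hac2 : DifferentiableAt ℝ (fun x => 2 * (D.a x : ℂ)) ζ := hac.const_mul _
  rw [h1, del_add hac2 hsum, del_const_mul _ hac, del_sum _ hqc, cs_del_ac]
  have h2 : ∀ k, del j (fun x : En n => D.q x k * (x k - z k)) ζ =
      del j (fun x => D.q x k) ζ * (ζ k - z k) + if j = k then D.q ζ k else 0 := by
    intro k
    rw [del_mul (hq k) (hc k), del_sub (((cs_coord k).differentiable (by simp)) ζ)
      (differentiableAt_const _), del_coord, del_const]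
    split_ifs <;> simp
  simp only [h2]
  rw [Finset.sum_add_distrib, Finset.sum_ite_eq, if_pos (Finset.mem_univ j)]
  ring

/-- derivative of one term -/
theorem cs_del_g {h : En n → ℂ} {C₁ : ℝ} (hh : D.Tame h C₁) {φ : En n → ℂ}
    (hφ : ContDiff ℝ ∞ φ) (α : ℕ) (γ : Fin n → ℕ) (β : ℕ) {z ζ : En n} (hz : z ∈ D.S)
    (hζ : ζ ∈ D.S) (j : Fin n) :
    del j (fun ζ => (D.a ζ : ℂ) ^ (α + 1) * (D.csE φ γ β z ζ * conj (h ζ))) ζ =
      ((α : ℂ) + 1) * (D.csI h (fun x => φ x * del j (fun x => (D.a x : ℂ)) x) α γ β z ζ) +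
      D.csI h (del j φ) (α + 1) γ β z ζ +
      (γ j : ℂ) * D.csI h φ (α + 1) (Function.update γ j (γ j - 1)) β z ζ -
      (β : ℂ) * ∑ k, D.csI h (fun x => (φ x * del j (fun x => D.q x k) x)) (α + 1)
        (Function.update γ k (γ k + 1)) (β + 1) z ζ := by
  have hac : DifferentiableAt ℝ (fun x => (D.a x : ℂ)) ζ :=
    (D.cs_contDiff_ac.differentiable (by simp)) ζ
  have hL0 : D.L ζ z ≠ 0 := D.cs_L_ne' hζ hz
  have hL : DifferentiableAt ℝ (fun x => D.L x z) ζ :=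
    ((D.cs_contDiff_L z).differentiable (by simp)) ζ
  have hφd : DifferentiableAt ℝ φ ζ := (hφ.differentiable (by simp)) ζ
  have hw : DifferentiableAt ℝ (fun x : En n => ∏ i, (x i - z i) ^ γ i) ζ :=
    ((cs_contDiff_w γ z).differentiable (by simp)) ζ
  have hhC : DifferentiableAt ℂ h ζ := D.cs_h_diff hh hζ
  have hhR : DifferentiableAt ℝ h ζ := hhC.restrictScalars ℝ
  have hhc : DifferentiableAt ℝ (fun x => conj (h x)) ζ :=
    (Complex.conjCLE : ℂ →L[ℝ] ℂ).differentiableAt.comp ζ hhR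
  have hLi : DifferentiableAt ℝ (fun x => (D.L x z)⁻¹) ζ := hL.inv hL0
  have hLp : DifferentiableAt ℝ (fun x => ((D.L x z)⁻¹) ^ β) ζ := hLi.fun_pow β
  have hφw : DifferentiableAt ℝ (fun x => φ x * ∏ i, (x i - z i) ^ γ i) ζ := hφd.fun_mul hw
  have hE : DifferentiableAt ℝ (D.csE φ γ β z) ζ := hφw.fun_mul hLp
  have hEh : DifferentiableAt ℝ (fun x => D.csE φ γ β z x * conj (h x)) ζ := hE.fun_mul hhc
  have hap : DifferentiableAt ℝ (fun x => (D.a x : ℂ) ^ (α + 1)) ζ := hac.fun_pow _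
  have h1 : del j (fun x => conj (h x)) ζ = 0 := by
    rw [del_conj hhR, dbar_of_holo hhC, map_zero]
  have h2 : del j (D.csE φ γ β z) ζ =
      (del j φ ζ * (∏ i, (ζ i - z i) ^ γ i) +
        φ ζ * ((γ j : ℂ) * ∏ i, (ζ i - z i) ^ (Function.update γ j (γ j - 1)) i)) *
        ((D.L ζ z)⁻¹) ^ β +
      (φ ζ * ∏ i, (ζ i - z i) ^ γ i) *
        (-(β : ℂ) * ((D.L ζ z)⁻¹) ^ (β + 1) *
          ∑ k, del j (fun x => D.q x k) ζ * (ζ k - z k)) := by
    have e1 : D.csE φ γ β z =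
        fun x => (φ x * ∏ i, (x i - z i) ^ γ i) * ((D.L x z)⁻¹) ^ β := rfl
    rw [e1, del_mul hφw hLp, del_mul hφd hw, cs_del_w, del_pow hLi, del_inv hL hL0,
      cs_del_L]
    congr 2
    rcases Nat.eq_zero_or_pos β with hβ | hβ
    · subst hβ
      simp
    · obtain ⟨b, rfl⟩ := Nat.exists_eq_add_of_le' hβ
      rw [Nat.add_sub_cancel]
      ring
  rw [del_mul hap hEh, del_mul hE hhc, h1, h2, del_pow hac, Nat.add_sub_cancel]
  have h3 : ∀ k, D.csI h (fun x => (φ x * del j (fun x => D.q x k) x)) (α + 1)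
      (Function.update γ k (γ k + 1)) (β + 1) z ζ =
      (conj (h ζ) * (D.a ζ : ℂ) ^ (α + 1) * φ ζ * (∏ i, (ζ i - z i) ^ γ i) *
        ((D.L ζ z)⁻¹) ^ (β + 1)) * (del j (fun x => D.q x k) ζ * (ζ k - z k)) := by
    intro k
    rw [csI, cs_w_succ]
    ring
  simp only [h3]
  rw [← Finset.mul_sum]
  simp only [csI, csE]
  push_cast
  ring

/-- the derivative of a function vanishing for `‖ζ‖ ≥ 7ε/16` vanishes there -/
theorem cs_del_zero {φ : En n → ℂ} (hφ : ContDiff ℝ ∞ φ)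
    (hφ0 : ∀ ζ : En n, 7 * D.ε / 16 ≤ ‖ζ‖ → φ ζ = 0) (j : Fin n) :
    ∀ ζ : En n, 7 * D.ε / 16 ≤ ‖ζ‖ → del j φ ζ = 0 := by
  -- by continuity from the open set `7ε/16 < ‖ζ‖`
  intro ζ hζ
  have hopen : IsOpen {x : En n | 7 * D.ε / 16 < ‖x‖} :=
    isOpen_lt continuous_const continuous_norm
  have hz1 : ∀ x ∈ {x : En n | 7 * D.ε / 16 < ‖x‖}, del j φ x = 0 := by
    intro x hx
    have hev : φ =ᶠ[𝓝 x] fun _ => 0 := by
      filter_upwards [hopen.mem_nhds hx] with y hy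
      exact hφ0 y (le_of_lt hy)
    rw [del_congr hev, del_const]
  have hcl : ζ ∈ closure {x : En n | 7 * D.ε / 16 < ‖x‖} := by
    have hε := D.hε
    have hζ0 : 0 < ‖ζ‖ := by
      refine lt_of_lt_of_le ?_ hζ
      positivity
    rw [Metric.mem_closure_iff]
    intro δ hδ
    refine ⟨(1 + δ / (2 * ‖ζ‖) : ℝ) • ζ, ?_, ?_⟩
    · show 7 * D.ε / 16 < ‖(1 + δ / (2 * ‖ζ‖) : ℝ) • ζ‖
      have h1 : 0 < δ / (2 * ‖ζ‖) := by positivity
      rw [norm_smul, Real.norm_of_nonneg (by positivity)]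
      refine lt_of_le_of_lt hζ ?_
      nlinarith
    · have h2 : ζ - (1 + δ / (2 * ‖ζ‖) : ℝ) • ζ = -((δ / (2 * ‖ζ‖) : ℝ) • ζ) := by
        rw [add_smul, one_smul]
        abel
      rw [dist_eq_norm, h2, norm_neg, norm_smul, Real.norm_of_nonneg (by positivity)]
      have h3 : δ / (2 * ‖ζ‖) * ‖ζ‖ = δ / 2 := by
        field_simp
      rw [h3]
      linarith
  have hclosed : IsClosed {x : En n | del j φ x = 0} :=
    isClosed_eq (contDiff_del hφ j).continuous continuous_const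
  exact (closure_minimal (fun x hx => hz1 x hx) hclosed) hcl

theorem Tc_step {X : Fin n → En n → ℂ} (hX : ∀ j, ContDiff ℝ ∞ (X j))
    (hX1 : ∀ ζ : En n, ‖ζ‖ ≤ 7 * D.ε / 16 → ∑ j, X j ζ * del j (fun x => (D.a x : ℂ)) ζ = 1)
    {h : En n → ℂ} {C₁ : ℝ} (hh : D.Tame h C₁) {ψ : En n → ℂ} (hψ : ContDiff ℝ ∞ ψ)
    (hψ0 : ∀ ζ : En n, 7 * D.ε / 16 ≤ ‖ζ‖ → ψ ζ = 0) {α : ℕ} (hα : 3 ≤ α) (γ : Fin n → ℕ)
    (β : ℕ) {z : En n} (hz : z ∈ D.S) (hz' : ‖z‖ < D.ε / 4) :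
    ((α : ℂ) + 1) * D.Tc h ψ α γ β z =
      - (D.Tc h (fun ζ => ∑ j, del j (fun x => X j x * ψ x) ζ) (α + 1) γ β z +
          ∑ j, (γ j : ℂ) * D.Tc h (fun ζ => X j ζ * ψ ζ) (α + 1)
            (Function.update γ j (γ j - 1)) β z -
          (β : ℂ) * ∑ k, D.Tc h
            (fun ζ => (∑ j, X j ζ * del j (fun x => D.q x k) ζ) * ψ ζ) (α + 1)
            (Function.update γ k (γ k + 1)) (β + 1) z) := by
  have hφ : ∀ j, ContDiff ℝ ∞ (fun x => X j x * ψ x) := fun j => (hX j).mul hψ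
  have hφ0 : ∀ j, ∀ ζ : En n, 7 * D.ε / 16 ≤ ‖ζ‖ → X j ζ * ψ ζ = 0 := fun j ζ hζ => by
    rw [hψ0 ζ hζ, mul_zero]
  have hq : ∀ j k, ContDiff ℝ ∞ (fun x => del j (fun x => D.q x k) x) := fun j k =>
    contDiff_del (D.contDiff_q k) j
  -- the smooth functions which occur
  have hψ1 : ContDiff ℝ ∞ (fun ζ => ∑ j, del j (fun x => X j x * ψ x) ζ) :=
    ContDiff.sum fun j _ => contDiff_del (hφ j) j
  have hψ2 : ∀ k, ContDiff ℝ ∞ (fun ζ => (∑ j, X j ζ * del j (fun x => D.q x k) ζ) * ψ ζ) :=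
    fun k => (ContDiff.sum fun j _ => (hX j).mul (hq j k)).mul hψ
  have hψ10 : ∀ ζ : En n, 7 * D.ε / 16 ≤ ‖ζ‖ → ∑ j, del j (fun x => X j x * ψ x) ζ = 0 :=
    fun ζ hζ => Finset.sum_eq_zero fun j _ => D.cs_del_zero (hφ j) (hφ0 j) j ζ hζ
  have hψ20 : ∀ k, ∀ ζ : En n, 7 * D.ε / 16 ≤ ‖ζ‖ →
      (∑ j, X j ζ * del j (fun x => D.q x k) ζ) * ψ ζ = 0 := fun k ζ hζ => by
    rw [hψ0 ζ hζ, mul_zero]
  -- integrability
  have i0 := D.cs_integrable hh hψ hψ0 (by omega : 1 ≤ α) γ β hz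
  have i1 := D.cs_integrable hh hψ1 hψ10 (by omega : 1 ≤ α + 1) γ β hz
  have i2 : ∀ j, IntegrableOn (D.csI h (fun ζ => X j ζ * ψ ζ) (α + 1)
      (Function.update γ j (γ j - 1)) β z) D.S := fun j =>
    D.cs_integrable hh (hφ j) (hφ0 j) (by omega : 1 ≤ α + 1) _ β hz
  have i3 : ∀ k, IntegrableOn (D.csI h
      (fun ζ => (∑ j, X j ζ * del j (fun x => D.q x k) ζ) * ψ ζ) (α + 1)
      (Function.update γ k (γ k + 1)) (β + 1) z) D.S := fun k =>
    D.cs_integrable hh (hψ2 k) (hψ20 k) (by omega : 1 ≤ α + 1) _ (β + 1) hz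
  -- the pointwise identity
  have key : ∀ ζ ∈ D.S,
      ∑ j, del j (fun ζ => (D.a ζ : ℂ) ^ (α + 1) *
        (D.csE (fun x => X j x * ψ x) γ β z ζ * conj (h ζ))) ζ =
      ((α : ℂ) + 1) * D.csI h ψ α γ β z ζ +
      D.csI h (fun ζ => ∑ j, del j (fun x => X j x * ψ x) ζ) (α + 1) γ β z ζ +
      ∑ j, (γ j : ℂ) * D.csI h (fun ζ => X j ζ * ψ ζ) (α + 1)
        (Function.update γ j (γ j - 1)) β z ζ -
      (β : ℂ) * ∑ k, D.csI h
        (fun ζ => (∑ j, X j ζ * del j (fun x => D.q x k) ζ) * ψ ζ) (α + 1)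
        (Function.update γ k (γ k + 1)) (β + 1) z ζ := by
    intro ζ hζ
    have e0 : ∀ j, del j (fun ζ => (D.a ζ : ℂ) ^ (α + 1) *
        (D.csE (fun x => X j x * ψ x) γ β z ζ * conj (h ζ))) ζ = _ := fun j =>
      D.cs_del_g hh (hφ j) α γ β hz hζ j
    rw [Finset.sum_congr rfl (fun j _ => e0 j)]
    rw [Finset.sum_sub_distrib, Finset.sum_add_distrib, Finset.sum_add_distrib,
      ← Finset.mul_sum, ← Finset.mul_sum, Finset.sum_comm]
    congr 1
    · congr 1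
      congr 1
      · -- the main term
        congr 1
        have e1 : ∀ j, D.csI h (fun x => X j x * ψ x * del j (fun x => (D.a x : ℂ)) x) α γ β z ζ =
            (X j ζ * del j (fun x => (D.a x : ℂ)) ζ) * D.csI h ψ α γ β z ζ := by
          intro j
          simp only [csI]
          ring
        rw [Finset.sum_congr rfl (fun j _ => e1 j), ← Finset.sum_mul]
        by_cases hn : ‖ζ‖ ≤ 7 * D.ε / 16
        · rw [hX1 ζ hn, one_mul]
        · push Not at hn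
          have : D.csI h ψ α γ β z ζ = 0 := by
            rw [csI, hψ0 ζ hn.le]
            simp
          rw [this, mul_zero]
      · simp only [csI]
        rw [Finset.mul_sum, Finset.sum_mul, Finset.sum_mul]
    · congr 1
      refine Finset.sum_congr rfl fun k _ => ?_
      simp only [csI]
      simp only [Finset.sum_mul, Finset.mul_sum]
      refine Finset.sum_congr rfl fun j _ => ?_
      ring
  -- integrate
  have hsum : ∫ ζ in D.S, (((α : ℂ) + 1) * D.csI h ψ α γ β z ζ +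
      D.csI h (fun ζ => ∑ j, del j (fun x => X j x * ψ x) ζ) (α + 1) γ β z ζ +
      ∑ j, (γ j : ℂ) * D.csI h (fun ζ => X j ζ * ψ ζ) (α + 1)
        (Function.update γ j (γ j - 1)) β z ζ -
      (β : ℂ) * ∑ k, D.csI h
        (fun ζ => (∑ j, X j ζ * del j (fun x => D.q x k) ζ) * ψ ζ) (α + 1)
        (Function.update γ k (γ k + 1)) (β + 1) z ζ) = 0 := by
    rw [← setIntegral_congr_fun D.isOpen_S.measurableSet key, integral_finsetSum]
    · refine Finset.sum_eq_zero fun j _ => ?_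
      exact D.cs_ibp hh (hφ j) (hφ0 j) hα γ β hz j
    · intro j _
      -- integrability of each derivative: by the formula for it
      have hd1 : ContDiff ℝ ∞ (fun x => X j x * ψ x * del j (fun x => (D.a x : ℂ)) x) :=
        (hφ j).mul (contDiff_del D.cs_contDiff_ac j)
      have hd10 : ∀ ζ : En n, 7 * D.ε / 16 ≤ ‖ζ‖ →
          X j ζ * ψ ζ * del j (fun x => (D.a x : ℂ)) ζ = 0 := fun ζ hζ => by
        rw [hφ0 j ζ hζ, zero_mul]
      have j1 := D.cs_integrable hh hd1 hd10 (by omega : 1 ≤ α) γ β hz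
      have hd2 : ContDiff ℝ ∞ (del j (fun x => X j x * ψ x)) := contDiff_del (hφ j) j
      have hd20 : ∀ ζ : En n, 7 * D.ε / 16 ≤ ‖ζ‖ → del j (fun x => X j x * ψ x) ζ = 0 :=
        D.cs_del_zero (hφ j) (hφ0 j) j
      have j2 := D.cs_integrable hh hd2 hd20 (by omega : 1 ≤ α + 1) γ β hz
      have j3 : ∀ k, IntegrableOn (D.csI h
          (fun x => (X j x * ψ x * del j (fun x => D.q x k) x)) (α + 1)
          (Function.update γ k (γ k + 1)) (β + 1) z) D.S := fun k =>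
        D.cs_integrable hh ((hφ j).mul (hq j k))
          (fun ζ hζ => by rw [hφ0 j ζ hζ, zero_mul]) (by omega : 1 ≤ α + 1) _ (β + 1) hz
      have j4 := ((((j1.const_mul ((α : ℂ) + 1)).add j2).add ((i2 j).const_mul (γ j : ℂ))).sub
        ((integrable_finsetSum Finset.univ fun k _ => j3 k).const_mul (β : ℂ)))
      refine (integrableOn_congr_fun ?_ D.isOpen_S.measurableSet).2 j4
      intro ζ hζ
      exact D.cs_del_g hh (hφ j) α γ β hz hζ j
  have hT : (((α : ℂ) + 1) * D.Tc h ψ α γ β z +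
      D.Tc h (fun ζ => ∑ j, del j (fun x => X j x * ψ x) ζ) (α + 1) γ β z +
      ∑ j, (γ j : ℂ) * D.Tc h (fun ζ => X j ζ * ψ ζ) (α + 1)
        (Function.update γ j (γ j - 1)) β z -
      (β : ℂ) * ∑ k, D.Tc h
        (fun ζ => (∑ j, X j ζ * del j (fun x => D.q x k) ζ) * ψ ζ) (α + 1)
        (Function.update γ k (γ k + 1)) (β + 1) z) = 0 := by
    refine Eq.trans ?_ hsum
    have I0 : IntegrableOn (fun ζ => ((α : ℂ) + 1) * D.csI h ψ α γ β z ζ) D.S := i0.const_mul _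
    have I2 : IntegrableOn (fun ζ => ∑ j, (γ j : ℂ) * D.csI h (fun ζ => X j ζ * ψ ζ) (α + 1)
        (Function.update γ j (γ j - 1)) β z ζ) D.S :=
      integrable_finsetSum Finset.univ fun j _ => (i2 j).const_mul _
    have I3 : IntegrableOn (fun ζ => (β : ℂ) * ∑ k, D.csI h
        (fun ζ => (∑ j, X j ζ * del j (fun x => D.q x k) ζ) * ψ ζ) (α + 1)
        (Function.update γ k (γ k + 1)) (β + 1) z ζ) D.S :=
      (integrable_finsetSum Finset.univ fun k _ => i3 k).const_mul _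
    have I01 : IntegrableOn (fun ζ => ((α : ℂ) + 1) * D.csI h ψ α γ β z ζ +
        D.csI h (fun ζ => ∑ j, del j (fun x => X j x * ψ x) ζ) (α + 1) γ β z ζ) D.S := I0.add i1
    have I012 : IntegrableOn (fun ζ => ((α : ℂ) + 1) * D.csI h ψ α γ β z ζ +
        D.csI h (fun ζ => ∑ j, del j (fun x => X j x * ψ x) ζ) (α + 1) γ β z ζ +
        ∑ j, (γ j : ℂ) * D.csI h (fun ζ => X j ζ * ψ ζ) (α + 1)
          (Function.update γ j (γ j - 1)) β z ζ) D.S := I01.add I2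
    rw [integral_sub I012 I3, integral_add I01 I2, integral_add I0 i1, integral_const_mul,
      integral_const_mul, integral_finsetSum _ (fun j _ => (i2 j).const_mul _),
      integral_finsetSum _ (fun k _ => i3 k)]
    simp only [integral_const_mul, cs_Tc_eq]
  linear_combination hT

end LData

end Pool.Agent.H8.FZ
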