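import Pool.Agent.H8.FZ.Defs

/-!
# FZ-CALC1: Wirtinger calculus on `ℂⁿ`, first order rules

Everything here is immediate from the definitions of `dbar`, `del` (`fderiv ℝ` in the directions
`e_k` and `i e_k`), the rules for `fderiv`, and for `dbar_comm` etc. the symmetry of the second
derivative (`ContDiffAt.isSymmSndFDerivAt`; note `fderiv ℝ (fun x => fderiv ℝ g x v) z w =
fderiv ℝ (fderiv ℝ g) z w v` for `g` of class `C²` at `z`).
-/

set_option autoImplicit false

noncomputable section

namespace Pool.Agent.H8.FZ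

open Complex Metric MeasureTheory Set Filter Topology
open scoped ContDiff ComplexConjugate

variable {n : ℕ}

theorem eb_apply (k j : Fin n) : (eb k : En n) j = if j = k then 1 else 0 := by
  unfold eb
  simp

/-! auxiliary facts -/

private theorem dbar_hasF {g : En n → ℂ} {g' : En n →L[ℝ] ℂ} {z : En n} (h : HasFDerivAt g g' z)
    (k : Fin n) : dbar k g z = (1 / 2 : ℂ) * (g' (eb k) + I * g' (I • eb k)) := by
  unfold dbar
  rw [h.fderiv]

private theorem del_hasF {g : En n → ℂ} {g' : En n →L[ℝ] ℂ} {z : En n} (h : HasFDerivAt g g' z)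
    (k : Fin n) : del k g z = (1 / 2 : ℂ) * (g' (eb k) - I * g' (I • eb k)) := by
  unfold del
  rw [h.fderiv]

private theorem calc1_proj (j : Fin n) (v : En n) : (EuclideanSpace.proj j : En n →L[ℂ] ℂ) v = v j :=
  rfl

private theorem coord_hasF (j : Fin n) (z : En n) : HasFDerivAt (fun x : En n => x j)
    (((EuclideanSpace.proj j : En n →L[ℂ] ℂ)).restrictScalars ℝ) z :=
  (((EuclideanSpace.proj j : En n →L[ℂ] ℂ)).restrictScalars ℝ).hasFDerivAt

private theorem conj_hasF {f : En n → ℂ} {f' : En n →L[ℝ] ℂ} {z : En n} (h : HasFDerivAt f f' z) :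
    HasFDerivAt (fun x => conj (f x)) ((Complex.conjCLE : ℂ →L[ℝ] ℂ).comp f') z :=
  ((Complex.conjCLE : ℂ →L[ℝ] ℂ).hasFDerivAt).comp z h

private theorem real_lin (L : En n →L[ℝ] ℂ) (w : En n) :
    L w = ∑ k, (((w k).re : ℂ) * L (eb k) + ((w k).im : ℂ) * L (I • eb k)) := by
  have h1 : w = ∑ k, ((w k).re • (eb k : En n) + (w k).im • (I • (eb k : En n))) := by
    ext j
    simp only [PiLp.add_apply, PiLp.smul_apply, WithLp.ofLp_sum, Finset.sum_apply,
      Finset.sum_add_distrib, eb_apply]
    rw [Finset.sum_eq_single j (by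
      intro b _ hb
      rw [if_neg (Ne.symm hb), smul_zero]) (by simp),
      Finset.sum_eq_single j (by
      intro b _ hb
      rw [if_neg (Ne.symm hb), smul_zero, smul_zero]) (by simp)]
    rw [if_pos rfl, Complex.real_smul, Complex.real_smul, smul_eq_mul, mul_one, mul_one]
    exact (Complex.re_add_im _).symm
  conv_lhs => rw [h1]
  rw [map_sum]
  refine Finset.sum_congr rfl fun k _ => ?_
  rw [map_add, L.map_smul, L.map_smul, Complex.real_smul, Complex.real_smul]

theorem dbar_congr {g g' : En n → ℂ} {z : En n} (h : g =ᶠ[𝓝 z] g') (k : Fin n) :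
    dbar k g z = dbar k g' z := by
  unfold dbar
  rw [h.fderiv_eq]

theorem del_congr {g g' : En n → ℂ} {z : En n} (h : g =ᶠ[𝓝 z] g') (k : Fin n) :
    del k g z = del k g' z := by
  unfold del
  rw [h.fderiv_eq]

theorem dbar_const (k : Fin n) (c : ℂ) (z : En n) : dbar k (fun _ => c) z = 0 := by
  rw [dbar_hasF (hasFDerivAt_const c z)]
  simp

theorem del_const (k : Fin n) (c : ℂ) (z : En n) : del k (fun _ => c) z = 0 := by
  rw [del_hasF (hasFDerivAt_const c z)]
  simp

theorem dbar_coord (k j : Fin n) (z : En n) : dbar k (fun x : En n => x j) z = 0 := by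
  rw [dbar_hasF (coord_hasF j z)]
  simp only [ContinuousLinearMap.coe_restrictScalars', calc1_proj,
    PiLp.smul_apply, smul_eq_mul]
  rw [← mul_assoc, Complex.I_mul_I]
  ring

theorem del_coord (k j : Fin n) (z : En n) :
    del k (fun x : En n => x j) z = if k = j then 1 else 0 := by
  rw [del_hasF (coord_hasF j z)]
  simp only [ContinuousLinearMap.coe_restrictScalars', calc1_proj,
    PiLp.smul_apply, smul_eq_mul]
  rw [← mul_assoc, Complex.I_mul_I, eb_apply]
  by_cases h : j = k
  · rw [if_pos h, if_pos h.symm]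
    ring
  · rw [if_neg h, if_neg (Ne.symm h)]
    ring

theorem dbar_conj_coord (k j : Fin n) (z : En n) :
    dbar k (fun x : En n => conj (x j)) z = if k = j then 1 else 0 := by
  rw [dbar_hasF (conj_hasF (coord_hasF j z))]
  simp only [ContinuousLinearMap.comp_apply, ContinuousLinearMap.coe_restrictScalars',
    calc1_proj, PiLp.smul_apply, smul_eq_mul, ContinuousLinearEquiv.coe_coe,
    Complex.conjCLE_apply, map_mul, Complex.conj_I]
  rw [eb_apply]
  by_cases h : j = k
  · rw [if_pos h, if_pos h.symm, map_one, mul_one, mul_neg, Complex.I_mul_I]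
    ring
  · rw [if_neg h, if_neg (Ne.symm h), map_zero]
    ring

theorem del_conj_coord (k j : Fin n) (z : En n) :
    del k (fun x : En n => conj (x j)) z = 0 := by
  rw [del_hasF (conj_hasF (coord_hasF j z))]
  simp only [ContinuousLinearMap.comp_apply, ContinuousLinearMap.coe_restrictScalars',
    calc1_proj, PiLp.smul_apply, smul_eq_mul, ContinuousLinearEquiv.coe_coe,
    Complex.conjCLE_apply, map_mul, Complex.conj_I]
  rw [← mul_assoc, mul_neg, Complex.I_mul_I]
  ring

theorem dbar_add {f g : En n → ℂ} {z : En n} (hf : DifferentiableAt ℝ f z)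
    (hg : DifferentiableAt ℝ g z) (k : Fin n) :
    dbar k (fun x => f x + g x) z = dbar k f z + dbar k g z := by
  rw [dbar_hasF (hf.hasFDerivAt.fun_add hg.hasFDerivAt)]
  unfold dbar
  simp only [ContinuousLinearMap.add_apply]
  ring

theorem del_add {f g : En n → ℂ} {z : En n} (hf : DifferentiableAt ℝ f z)
    (hg : DifferentiableAt ℝ g z) (k : Fin n) :
    del k (fun x => f x + g x) z = del k f z + del k g z := by
  rw [del_hasF (hf.hasFDerivAt.fun_add hg.hasFDerivAt)]
  unfold del
  simp only [ContinuousLinearMap.add_apply]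
  ring

theorem dbar_sub {f g : En n → ℂ} {z : En n} (hf : DifferentiableAt ℝ f z)
    (hg : DifferentiableAt ℝ g z) (k : Fin n) :
    dbar k (fun x => f x - g x) z = dbar k f z - dbar k g z := by
  rw [dbar_hasF (hf.hasFDerivAt.fun_sub hg.hasFDerivAt)]
  unfold dbar
  simp only [ContinuousLinearMap.sub_apply]
  ring

theorem del_sub {f g : En n → ℂ} {z : En n} (hf : DifferentiableAt ℝ f z)
    (hg : DifferentiableAt ℝ g z) (k : Fin n) :
    del k (fun x => f x - g x) z = del k f z - del k g z := by
  rw [del_hasF (hf.hasFDerivAt.fun_sub hg.hasFDerivAt)]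
  unfold del
  simp only [ContinuousLinearMap.sub_apply]
  ring

theorem dbar_neg (f : En n → ℂ) (z : En n) (k : Fin n) :
    dbar k (fun x => - f x) z = - dbar k f z := by
  unfold dbar
  rw [fderiv_fun_neg]
  simp only [ContinuousLinearMap.neg_apply]
  ring

theorem del_neg (f : En n → ℂ) (z : En n) (k : Fin n) :
    del k (fun x => - f x) z = - del k f z := by
  unfold del
  rw [fderiv_fun_neg]
  simp only [ContinuousLinearMap.neg_apply]
  ring

theorem dbar_mul {f g : En n → ℂ} {z : En n} (hf : DifferentiableAt ℝ f z)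
    (hg : DifferentiableAt ℝ g z) (k : Fin n) :
    dbar k (fun x => f x * g x) z = dbar k f z * g z + f z * dbar k g z := by
  rw [dbar_hasF (hf.hasFDerivAt.fun_mul hg.hasFDerivAt)]
  unfold dbar
  simp only [ContinuousLinearMap.add_apply, ContinuousLinearMap.smul_apply, smul_eq_mul]
  ring

theorem del_mul {f g : En n → ℂ} {z : En n} (hf : DifferentiableAt ℝ f z)
    (hg : DifferentiableAt ℝ g z) (k : Fin n) :
    del k (fun x => f x * g x) z = del k f z * g z + f z * del k g z := by
  rw [del_hasF (hf.hasFDerivAt.fun_mul hg.hasFDerivAt)]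
  unfold del
  simp only [ContinuousLinearMap.add_apply, ContinuousLinearMap.smul_apply, smul_eq_mul]
  ring

theorem dbar_const_mul (c : ℂ) {g : En n → ℂ} {z : En n}
    (hg : DifferentiableAt ℝ g z) (k : Fin n) :
    dbar k (fun x => c * g x) z = c * dbar k g z := by
  rw [dbar_mul (differentiableAt_const c) hg, dbar_const]
  ring

theorem del_const_mul (c : ℂ) {g : En n → ℂ} {z : En n}
    (hg : DifferentiableAt ℝ g z) (k : Fin n) :
    del k (fun x => c * g x) z = c * del k g z := by
  rw [del_mul (differentiableAt_const c) hg, del_const]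
  ring

theorem dbar_sum {ι : Type*} (s : Finset ι) {f : ι → En n → ℂ} {z : En n}
    (hf : ∀ i ∈ s, DifferentiableAt ℝ (f i) z) (k : Fin n) :
    dbar k (fun x => ∑ i ∈ s, f i x) z = ∑ i ∈ s, dbar k (f i) z := by
  classical
  induction s using Finset.induction_on with
  | empty => simpa using dbar_const k 0 z
  | insert a s ha ih =>
    simp only [Finset.sum_insert ha]
    have h1 : ∀ i ∈ s, DifferentiableAt ℝ (f i) z := fun i hi => hf i (Finset.mem_insert_of_mem hi)
    rw [dbar_add (hf a (Finset.mem_insert_self a s)) (DifferentiableAt.fun_sum h1), ih h1]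

theorem del_sum {ι : Type*} (s : Finset ι) {f : ι → En n → ℂ} {z : En n}
    (hf : ∀ i ∈ s, DifferentiableAt ℝ (f i) z) (k : Fin n) :
    del k (fun x => ∑ i ∈ s, f i x) z = ∑ i ∈ s, del k (f i) z := by
  classical
  induction s using Finset.induction_on with
  | empty => simpa using del_const k 0 z
  | insert a s ha ih =>
    simp only [Finset.sum_insert ha]
    have h1 : ∀ i ∈ s, DifferentiableAt ℝ (f i) z := fun i hi => hf i (Finset.mem_insert_of_mem hi)
    rw [del_add (hf a (Finset.mem_insert_self a s)) (DifferentiableAt.fun_sum h1), ih h1]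

theorem dbar_pow {f : En n → ℂ} {z : En n} (hf : DifferentiableAt ℝ f z) (m : ℕ) (k : Fin n) :
    dbar k (fun x => f x ^ m) z = m * f z ^ (m - 1) * dbar k f z := by
  induction m with
  | zero => simpa using dbar_const k 1 z
  | succ m ih =>
    simp only [pow_succ]
    rw [dbar_mul (hf.fun_pow m) hf, ih]
    rcases m with _ | m
    · simp
    · simp only [Nat.add_sub_cancel, pow_succ]
      push_cast
      ring

theorem del_pow {f : En n → ℂ} {z : En n} (hf : DifferentiableAt ℝ f z) (m : ℕ) (k : Fin n) :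
    del k (fun x => f x ^ m) z = m * f z ^ (m - 1) * del k f z := by
  induction m with
  | zero => simpa using del_const k 1 z
  | succ m ih =>
    simp only [pow_succ]
    rw [del_mul (hf.fun_pow m) hf, ih]
    rcases m with _ | m
    · simp
    · simp only [Nat.add_sub_cancel, pow_succ]
      push_cast
      ring

theorem dbar_inv {f : En n → ℂ} {z : En n} (hf : DifferentiableAt ℝ f z) (h0 : f z ≠ 0)
    (k : Fin n) : dbar k (fun x => (f x)⁻¹) z = - (f z)⁻¹ ^ 2 * dbar k f z := by
  have h1 : (fun x => f x * (f x)⁻¹) =ᶠ[𝓝 z] fun _ => (1 : ℂ) := by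
    filter_upwards [hf.continuousAt.eventually_ne h0] with x hx
    exact mul_inv_cancel₀ hx
  have h2 := dbar_congr h1 k
  rw [dbar_const, dbar_mul hf (hf.fun_inv h0)] at h2
  have h3 : dbar k (fun x => (f x)⁻¹) z = (f z)⁻¹ * (f z * dbar k (fun x => (f x)⁻¹) z) := by
    rw [← mul_assoc, inv_mul_cancel₀ h0, one_mul]
  rw [h3]
  linear_combination (f z)⁻¹ * h2

theorem del_inv {f : En n → ℂ} {z : En n} (hf : DifferentiableAt ℝ f z) (h0 : f z ≠ 0)
    (k : Fin n) : del k (fun x => (f x)⁻¹) z = - (f z)⁻¹ ^ 2 * del k f z := by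
  have h1 : (fun x => f x * (f x)⁻¹) =ᶠ[𝓝 z] fun _ => (1 : ℂ) := by
    filter_upwards [hf.continuousAt.eventually_ne h0] with x hx
    exact mul_inv_cancel₀ hx
  have h2 := del_congr h1 k
  rw [del_const, del_mul hf (hf.fun_inv h0)] at h2
  have h3 : del k (fun x => (f x)⁻¹) z = (f z)⁻¹ * (f z * del k (fun x => (f x)⁻¹) z) := by
    rw [← mul_assoc, inv_mul_cancel₀ h0, one_mul]
  rw [h3]
  linear_combination (f z)⁻¹ * h2

theorem dbar_conj {f : En n → ℂ} {z : En n} (hf : DifferentiableAt ℝ f z) (k : Fin n) :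
    dbar k (fun x => conj (f x)) z = conj (del k f z) := by
  rw [dbar_hasF (conj_hasF hf.hasFDerivAt)]
  unfold del
  simp only [ContinuousLinearMap.comp_apply, ContinuousLinearEquiv.coe_coe,
    Complex.conjCLE_apply, map_mul, map_sub, Complex.conj_I, map_div₀, map_one, map_ofNat]
  ring

theorem del_conj {f : En n → ℂ} {z : En n} (hf : DifferentiableAt ℝ f z) (k : Fin n) :
    del k (fun x => conj (f x)) z = conj (dbar k f z) := by
  rw [del_hasF (conj_hasF hf.hasFDerivAt)]
  unfold dbar
  simp only [ContinuousLinearMap.comp_apply, ContinuousLinearEquiv.coe_coe,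
    Complex.conjCLE_apply, map_mul, map_add, Complex.conj_I, map_div₀, map_one, map_ofNat]
  ring

/-- For a real function the two derivatives are conjugate. -/
theorem dbar_real {P : En n → ℝ} {z : En n} (hP : DifferentiableAt ℝ P z) (k : Fin n) :
    dbar k (fun x => (P x : ℂ)) z = conj (del k (fun x => (P x : ℂ)) z) := by
  have h : DifferentiableAt ℝ (fun x => (P x : ℂ)) z :=
    (Complex.ofRealCLM.hasFDerivAt.comp z hP.hasFDerivAt).differentiableAt
  rw [← dbar_conj h]
  simp only [Complex.conj_ofReal]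

theorem dbar_of_holo {g : En n → ℂ} {z : En n} (hg : DifferentiableAt ℂ g z) (k : Fin n) :
    dbar k g z = 0 := by
  rw [dbar_hasF (hg.hasFDerivAt.restrictScalars ℝ)]
  simp only [ContinuousLinearMap.coe_restrictScalars', map_smul, smul_eq_mul]
  rw [← mul_assoc, Complex.I_mul_I]
  ring

theorem fderiv_eq_del_dbar (g : En n → ℂ) (z w : En n) :
    fderiv ℝ g z w = ∑ k, (del k g z * w k + dbar k g z * conj (w k)) := by
  rw [real_lin (fderiv ℝ g z) w]
  refine Finset.sum_congr rfl fun k _ => ?_
  unfold del dbar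
  generalize w k = c
  obtain ⟨x, y, rfl⟩ : ∃ x y : ℝ, c = (x : ℂ) + (y : ℂ) * I :=
    ⟨c.re, c.im, (Complex.re_add_im _).symm⟩
  have h2 : conj ((x : ℂ) + (y : ℂ) * I) = (x : ℂ) - (y : ℂ) * I := by
    rw [map_add, map_mul, Complex.conj_ofReal, Complex.conj_ofReal, Complex.conj_I]
    ring
  have h3 : ((x : ℂ) + (y : ℂ) * I).re = x := by simp
  have h4 : ((x : ℂ) + (y : ℂ) * I).im = y := by simp
  rw [h2, h3, h4]
  linear_combination ((y : ℂ) * fderiv ℝ g z (I • eb k)) * Complex.I_mul_I

theorem holo_of_dbar {g : En n → ℂ} {z : En n} (hg : DifferentiableAt ℝ g z)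
    (h : ∀ k, dbar k g z = 0) : DifferentiableAt ℂ g z := by
  rw [differentiableAt_iff_restrictScalars ℝ hg]
  refine ⟨∑ k, del k g z • (EuclideanSpace.proj k : En n →L[ℂ] ℂ), ?_⟩
  ext w
  rw [fderiv_eq_del_dbar]
  simp only [ContinuousLinearMap.coe_restrictScalars', ContinuousLinearMap.sum_apply,
    ContinuousLinearMap.smul_apply, calc1_proj, smul_eq_mul, h, zero_mul, add_zero]

end Pool.Agent.H8.FZ
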