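import Pool.Agent.H8.FZ.Moll

/-!
# FZ-MOLL3: radial mollifiers, commutation and mean value property

`exists_isMoll`: `κ(x) = c · Real.smoothTransition (1 - ‖x‖²/δ²)` (or `expNegInvGlue`), normalised.
`mol κ u = κ * u`. `mol_contDiff` etc.: differentiation under the integral / Mathlib's
`HasCompactSupport.contDiff_convolution_left`, `…hasFDerivAt_convolution_left`
(`mol κ u x = ∫ κ(x - y) u y`; convolution with `ContinuousLinearMap.lsmul`/`mul`).
`mol_tendsto`: `‖κ*u - u‖_2 → 0`: for continuous compactly supported `u` uniformly (with supports in a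
fixed compact set); density of such functions in `L²` (`MemLp.exists_hasCompactSupport_eLpNorm_sub_le`)
and `‖κ*u‖_2 ≤ ‖u‖_2` (Jensen/Cauchy-Schwarz: `|κ*u|² ≤ κ*|u|²` and Tonelli).
`mol_comm`: Fubini. `mol_holo`: if `g` is holomorphic on `ball z δ` (and locally integrable there),
then `mol κ g z = g z`: average over the rotations `y ↦ e^{iθ} y`, which preserve `κ` and the measure,
and the mean value property of `t ↦ g(z - t y)` on the circle
(`∫ κ(y) g(z-y) dy = ∫ κ(y) (1/2π)∫ g(z - e^{iθ}y) dθ dy = g(z) ∫κ`).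
-/

set_option autoImplicit false

noncomputable section

namespace Pool.Agent.H8.FZ

open Complex Metric MeasureTheory Set Filter Topology
open scoped ContDiff ComplexConjugate

variable {n : ℕ}

/-- the rotation `t ↦ om t` -/
def rotE (om : ℂ) (hom : ‖om‖ = 1) : En n ≃ₗᵢ[ℝ] En n where
  toFun t := om • t
  invFun t := om⁻¹ • t
  map_add' a b := smul_add om a b
  map_smul' c a := by
    simp only [RingHom.id_apply]
    rw [smul_comm]
  left_inv t := by
    have h : om ≠ 0 := by
      rintro rfl
      simp at hom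
    simp only
    rw [smul_smul, inv_mul_cancel₀ h, one_smul]
  right_inv t := by
    have h : om ≠ 0 := by
      rintro rfl
      simp at hom
    simp only
    rw [smul_smul, mul_inv_cancel₀ h, one_smul]
  norm_map' t := by
    change ‖om • t‖ = ‖t‖
    rw [norm_smul, hom, one_mul]

theorem integral_rotE (om : ℂ) (hom : ‖om‖ = 1) (f : En n → ℂ) :
    ∫ t, f (om • t) = ∫ t, f t :=
  ((rotE (n := n) om hom).measurePreserving).integral_comp
    (rotE (n := n) om hom).toHomeomorph.measurableEmbedding f

theorem moll_supp {κ : En n → ℝ} {δ : ℝ} (hκ : IsMoll κ δ) : HasCompactSupport κ := by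
  refine HasCompactSupport.intro (isCompact_closedBall (0 : En n) δ) ?_
  intro x hx
  rw [mem_closedBall_zero_iff, not_le] at hx
  exact hκ.supp x hx.le

theorem moll_cont {κ : En n → ℝ} {δ : ℝ} (hκ : IsMoll κ δ) :
    Continuous fun x : En n => (κ x : ℂ) :=
  Complex.continuous_ofReal.comp hκ.smooth.continuous

theorem moll_bdd {κ : En n → ℝ} {δ : ℝ} (hκ : IsMoll κ δ) : ∃ C, ∀ x, ‖(κ x : ℂ)‖ ≤ C := by
  obtain ⟨C, hC⟩ := (moll_supp hκ).exists_bound_of_continuous hκ.smooth.continuous
  refine ⟨C, fun x => ?_⟩
  have := hC x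
  simpa using this

theorem moll_int_sub {κ : En n → ℝ} {δ : ℝ} (hκ : IsMoll κ δ) (x : En n) :
    Integrable fun y : En n => (κ (x - y) : ℂ) := by
  have h : Integrable fun y : En n => (κ y : ℂ) := by
    refine Integrable.ofReal ?_
    exact hκ.smooth.continuous.integrable_of_hasCompactSupport (moll_supp hκ)
  exact h.comp_sub_left x

theorem mol_mol_eq {κ κ' : En n → ℝ} {δ δ' : ℝ} (hκ : IsMoll κ δ) (hκ' : IsMoll κ' δ')
    {u : En n → ℂ} (hu : Integrable u) (x : En n) :
    mol κ (mol κ' u) x = ∫ w, (∫ y, (κ (x - y) : ℂ) * (κ' (y - w) : ℂ)) * u w := by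
  obtain ⟨C, hC⟩ := moll_bdd hκ'
  have hint : Integrable (Function.uncurry fun y w : En n =>
      (κ' (y - w) : ℂ) * ((κ (x - y) : ℂ) * u w)) ((volume : Measure (En n)).prod volume) := by
    refine Integrable.bdd_mul (c := C) ((moll_int_sub hκ x).mul_prod hu) ?_ ?_
    · refine Continuous.aestronglyMeasurable ?_
      exact (moll_cont hκ').comp (continuous_fst.sub continuous_snd)
    · exact Filter.Eventually.of_forall fun p => hC _
  have h1 : mol κ (mol κ' u) x = ∫ y, ∫ w, (κ' (y - w) : ℂ) * ((κ (x - y) : ℂ) * u w) := by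
    unfold mol
    refine integral_congr_ae (Filter.Eventually.of_forall fun y => ?_)
    simp only
    rw [← integral_const_mul]
    refine integral_congr_ae (Filter.Eventually.of_forall fun w => ?_)
    simp only
    ring
  rw [h1, integral_integral_swap hint]
  refine integral_congr_ae (Filter.Eventually.of_forall fun w => ?_)
  simp only
  rw [← integral_mul_const]
  refine integral_congr_ae (Filter.Eventually.of_forall fun y => ?_)
  simp only
  ring

theorem mol_comm {κ κ' : En n → ℝ} {δ δ' : ℝ} (hκ : IsMoll κ δ) (hκ' : IsMoll κ' δ')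
    {u : En n → ℂ} (hu : Integrable u) : mol κ (mol κ' u) = mol κ' (mol κ u) := by
  funext x
  rw [mol_mol_eq hκ hκ' hu, mol_mol_eq hκ' hκ hu]
  refine integral_congr_ae (Filter.Eventually.of_forall fun w => ?_)
  simp only
  congr 1
  rw [← integral_sub_left_eq_self (fun y => (κ' (x - y) : ℂ) * (κ (y - w) : ℂ)) volume (x + w)]
  refine integral_congr_ae (Filter.Eventually.of_forall fun y => ?_)
  simp only
  have h1 : x - (x + w - y) = y - w := by abel
  have h2 : x + w - y - w = x - y := by abel
  rw [h1, h2, mul_comm]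

theorem mol_holo {κ : En n → ℝ} {δ : ℝ} (hκ : IsMoll κ δ) {g : En n → ℂ} {z : En n} {R : ℝ}
    (hR : δ < R) (hg : DifferentiableOn ℂ g (ball z R)) : mol κ g z = g z := by
  set G : En n × ℝ → ℂ := fun p => (κ p.1 : ℂ) * g (z - circleMap 0 1 p.2 • p.1) with hG
  -- continuity
  have hcont : Continuous G := by
    rw [continuous_iff_continuousAt]
    rintro ⟨t, θ⟩
    have hnorm : ∀ q : En n × ℝ, ‖circleMap 0 1 q.2 • q.1‖ = ‖q.1‖ := by
      intro q
      rw [norm_smul, norm_circleMap_zero, abs_one, one_mul]
    by_cases ht : ‖t‖ < R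
    · have hmem : z - circleMap 0 1 θ • t ∈ ball z R := by
        rw [mem_ball, dist_eq_norm]
        have : z - circleMap 0 1 θ • t - z = -(circleMap 0 1 θ • t) := by abel
        rw [this, norm_neg, hnorm (t, θ)]
        exact ht
      have hgc : ContinuousAt g (z - circleMap 0 1 θ • t) :=
        (hg.differentiableAt (isOpen_ball.mem_nhds hmem)).continuousAt
      have h1 : ContinuousAt (fun p : En n × ℝ => z - circleMap 0 1 p.2 • p.1) (t, θ) := by
        refine Continuous.continuousAt ?_
        exact continuous_const.sub (((continuous_circleMap 0 1).comp continuous_snd).smul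
          continuous_fst)
      have h2 : ContinuousAt (fun p : En n × ℝ => (κ p.1 : ℂ)) (t, θ) :=
        ((moll_cont hκ).comp continuous_fst).continuousAt
      exact h2.mul (ContinuousAt.comp (f := fun p : En n × ℝ => z - circleMap 0 1 p.2 • p.1)
        hgc h1)
    · have ht' : δ < ‖t‖ := lt_of_lt_of_le hR (not_lt.1 ht)
      have h1 : G =ᶠ[𝓝 (t, θ)] fun _ => 0 := by
        have h2 : ∀ᶠ p : En n × ℝ in 𝓝 (t, θ), δ < ‖p.1‖ :=
          (isOpen_lt continuous_const (continuous_fst.norm)).mem_nhds ht'
        filter_upwards [h2] with p hp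
        rw [hG]
        simp only
        rw [hκ.supp p.1 hp.le]
        simp
      exact (continuousAt_const.congr h1.symm)
  -- integrability
  have hint : Integrable (Function.uncurry fun (t : En n) (θ : ℝ) => G (t, θ))
      ((volume : Measure (En n)).prod (volume.restrict (Set.Ioc 0 (2 * Real.pi)))) := by
    have h0 : (Function.uncurry fun (t : En n) (θ : ℝ) => G (t, θ)) = G := rfl
    rw [h0]
    have h1 : IntegrableOn G (closedBall (0 : En n) δ ×ˢ Set.Icc 0 (2 * Real.pi))
        ((volume : Measure (En n)).prod (volume : Measure ℝ)) :=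
      hcont.continuousOn.integrableOn_compact ((isCompact_closedBall _ _).prod isCompact_Icc)
    have h2 : IntegrableOn G (Set.univ ×ˢ Set.Ioc 0 (2 * Real.pi))
        ((volume : Measure (En n)).prod (volume : Measure ℝ)) := by
      refine h1.of_forall_sdiff_eq_zero (MeasurableSet.univ.prod measurableSet_Ioc) ?_
      rintro ⟨t, θ⟩ ⟨⟨_, hθ⟩, h3⟩
      have h4 : t ∉ closedBall (0 : En n) δ := fun h => h3 ⟨h, Set.Ioc_subset_Icc_self hθ⟩
      rw [mem_closedBall_zero_iff, not_le] at h4
      rw [hG]
      simp only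
      rw [hκ.supp t h4.le]
      simp
    rw [IntegrableOn, ← Measure.prod_restrict, Measure.restrict_univ] at h2
    exact h2
  -- rotation invariance
  have hrot : ∀ θ : ℝ, ∫ t, G (t, θ) = mol κ g z := by
    intro θ
    have hom : ‖circleMap 0 1 θ‖ = 1 := by rw [norm_circleMap_zero, abs_one]
    have h1 := integral_rotE (n := n) (circleMap 0 1 θ) hom (fun t => (κ t : ℂ) * g (z - t))
    have h2 : ∫ t, G (t, θ) = ∫ t, (fun t : En n => (κ t : ℂ) * g (z - t)) (circleMap 0 1 θ • t) := by
      refine integral_congr_ae (Filter.Eventually.of_forall fun t => ?_)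
      simp only [hG]
      congr 2
      apply hκ.radial
      rw [norm_smul, hom, one_mul]
    rw [h2, h1]
    unfold mol
    rw [← integral_sub_left_eq_self (fun y => (κ (z - y) : ℂ) * g y) volume z]
    refine integral_congr_ae (Filter.Eventually.of_forall fun t => ?_)
    simp only
    rw [sub_sub_cancel]
  -- mean value property
  have hmv : ∀ t : En n, ∫ θ in (0 : ℝ)..(2 * Real.pi), G (t, θ)
      = (2 * Real.pi : ℝ) * ((κ t : ℂ) * g z) := by
    intro t
    by_cases ht : δ ≤ ‖t‖
    · have h1 : ∀ θ, G (t, θ) = 0 := by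
        intro θ
        rw [hG]
        simp only
        rw [hκ.supp t ht]
        simp
      simp only [h1, hκ.supp t ht]
      simp
    · have ht' : ‖t‖ < R := (not_le.1 ht).trans hR
      have hd : DiffContOnCl ℂ (fun ζ : ℂ => g (z - ζ • t)) (ball 0 |(1 : ℝ)|) := by
        refine DifferentiableOn.diffContOnCl ?_
        intro ζ hζ
        have hζ' : ‖ζ‖ ≤ 1 := by
          have := closure_ball_subset_closedBall hζ
          rw [mem_closedBall_zero_iff, abs_one] at this
          exact this
        have hmem : z - ζ • t ∈ ball z R := by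
          rw [mem_ball, dist_eq_norm]
          have : z - ζ • t - z = -(ζ • t) := by abel
          rw [this, norm_neg, norm_smul]
          calc ‖ζ‖ * ‖t‖ ≤ 1 * ‖t‖ := by gcongr
            _ < R := by rw [one_mul]; exact ht'
        have h1 : DifferentiableAt ℂ g (z - ζ • t) :=
          hg.differentiableAt (isOpen_ball.mem_nhds hmem)
        have h2 : DifferentiableAt ℂ (fun ζ : ℂ => z - ζ • t) ζ :=
          (differentiableAt_const z).sub (differentiableAt_id.smul_const t)
        exact (h1.comp ζ h2).differentiableWithinAt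
      have h3 := hd.circleAverage
      rw [Real.circleAverage_def] at h3
      have h4 : ∫ θ in (0 : ℝ)..(2 * Real.pi), G (t, θ)
          = (κ t : ℂ) * ∫ θ in (0 : ℝ)..(2 * Real.pi), g (z - circleMap 0 1 θ • t) := by
        rw [← intervalIntegral.integral_const_mul]
      rw [h4]
      have h5 : ∫ θ in (0 : ℝ)..(2 * Real.pi), g (z - circleMap 0 1 θ • t)
          = (2 * Real.pi : ℝ) * g z := by
        have h6 : g (z - (0 : ℂ) • t) = g z := by rw [zero_smul, sub_zero]
        rw [h6] at h3
        rw [← h3]
        have hpi : (2 * Real.pi : ℝ) ≠ 0 := by positivity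
        rw [Complex.real_smul, ← mul_assoc, ← Complex.ofReal_mul, mul_inv_cancel₀ hpi]
        simp
      rw [h5]
      ring
  -- conclusion
  have hswap := integral_integral_swap hint
  have h1 : ∫ (t : En n), ∫ (θ : ℝ) in Set.Ioc 0 (2 * Real.pi), G (t, θ)
      = (2 * Real.pi : ℝ) * g z := by
    have h2 : ∀ t : En n, ∫ (θ : ℝ) in Set.Ioc 0 (2 * Real.pi), G (t, θ)
        = ((2 * Real.pi : ℝ) * g z) * (κ t : ℂ) := by
      intro t
      rw [← intervalIntegral.integral_of_le (by positivity), hmv t]
      ring
    simp only [h2]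
    rw [integral_const_mul, integral_complex_ofReal, hκ.mass]
    simp
  have h2 : ∫ (θ : ℝ) in Set.Ioc 0 (2 * Real.pi), ∫ (t : En n), G (t, θ)
      = (2 * Real.pi : ℝ) * mol κ g z := by
    simp only [hrot]
    rw [setIntegral_const]
    simp [Real.pi_pos.le]
  rw [h1, h2] at hswap
  have hpi : ((2 * Real.pi : ℝ) : ℂ) ≠ 0 := by
    exact_mod_cast (by positivity : (2 * Real.pi : ℝ) ≠ 0)
  exact (mul_left_cancel₀ hpi hswap).symm

end Pool.Agent.H8.FZ
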