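import Pool.Agent.H8.FZ.Moll

/-!
# FZ-MOLL2: radial mollifiers, convergence in L²

`exists_isMoll`: `κ(x) = c · Real.smoothTransition (1 - ‖x‖²/δ²)` (or `expNegInvGlue`), normalised.
`mol κ u = κ * u`. `mol_contDiff` etc.: differentiation under the integral / Mathlib's
`HasCompactSupport.contDiff_convolution_left`, `…hasFDerivAt_convolution_left`
(`mol κ u x = ∫ κ(x - y) u y`; convolution with `ContinuousLinearMap.lsmul`/`mul`).
`mol_tendsto`: `‖κ*u - u‖_2 → 0`: for continuous compactly supported `u` uniformly (with supports in a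
fixed compact set); density of such functions in `L²` (`MemLp.exists_hasCompactSupport_eLpNorm_sub_le`)
and `‖κ*u‖_2 ≤ ‖u‖_2` (Jensen/Cauchy-Schwarz: `|κ*u|² ≤ κ*|u|²` and Tonelli).
`mol_comm`: Fubini. `mol_holo`: if `g` is holomorphic on `ball z δ` (and locally integrable there),
then `mol κ g z = g z`: average over the rotations `y ↦ e^{iθ} y`, which preserve `κ` and the measure,
and the mean value property of `t ↦ g(z - t y)` on the circle
(`∫ κ(y) g(z-y) dy = ∫ κ(y) (1/2π)∫ g(z - e^{iθ}y) dθ dy = g(z) ∫κ`).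
-/

set_option autoImplicit false

noncomputable section

namespace Pool.Agent.H8.FZ

open Complex Metric MeasureTheory Set Filter Topology
open scoped ContDiff ComplexConjugate ENNReal

variable {n : ℕ}

namespace MollL2

theorem moll_cont {κ : En n → ℝ} {δ : ℝ} (hκ : IsMoll κ δ) : Continuous κ :=
  hκ.smooth.continuous

theorem moll_compact {κ : En n → ℝ} {δ : ℝ} (hκ : IsMoll κ δ) (x : En n) :
    HasCompactSupport (fun y => κ (x - y)) := by
  refine HasCompactSupport.intro (isCompact_closedBall x δ) ?_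
  intro y hy
  refine hκ.supp _ ?_
  rw [mem_closedBall, dist_eq_norm, norm_sub_rev, not_le] at hy
  exact hy.le

theorem moll_int {κ : En n → ℝ} {δ : ℝ} (hκ : IsMoll κ δ) : Integrable κ := by
  by_contra h
  have h1 := hκ.mass
  rw [integral_undef h] at h1
  norm_num at h1

theorem moll_lint {κ : En n → ℝ} {δ : ℝ} (hκ : IsMoll κ δ) :
    ∫⁻ x, ENNReal.ofReal (κ x) = 1 := by
  rw [← ofReal_integral_eq_lintegral_ofReal (moll_int hκ) (ae_of_all _ hκ.nonneg), hκ.mass]
  simp

theorem moll_lint_sub {κ : En n → ℝ} {δ : ℝ} (hκ : IsMoll κ δ) (x : En n) :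
    ∫⁻ y, ENNReal.ofReal (κ (x - y)) = 1 := by
  rw [← moll_lint hκ]
  exact lintegral_sub_left_eq_self (fun y => ENNReal.ofReal (κ y)) x

theorem moll_lint_sub' {κ : En n → ℝ} {δ : ℝ} (hκ : IsMoll κ δ) (y : En n) :
    ∫⁻ x, ENNReal.ofReal (κ (x - y)) = 1 := by
  rw [← moll_lint hκ]
  exact lintegral_sub_right_eq_self (fun y => ENNReal.ofReal (κ y)) y

theorem moll_mass_sub {κ : En n → ℝ} {δ : ℝ} (hκ : IsMoll κ δ) (x : En n) :
    ∫ y, κ (x - y) = 1 := by
  rw [← hκ.mass]
  exact integral_sub_left_eq_self κ volume x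

theorem mol_integrable {κ : En n → ℝ} {δ : ℝ} (hκ : IsMoll κ δ) {u : En n → ℂ}
    (hu : LocallyIntegrable u) (x : En n) : Integrable (fun y => (κ (x - y) : ℂ) * u y) := by
  have hc : Continuous (fun y => κ (x - y)) :=
    (moll_cont hκ).comp (continuous_const.sub continuous_id)
  have h : Integrable (fun y => κ (x - y) • u y) :=
    hu.integrable_smul_left_of_hasCompactSupport hc (moll_compact hκ x)
  simpa only [Complex.real_smul] using h

theorem mol_sub {κ : En n → ℝ} {δ : ℝ} (hκ : IsMoll κ δ) {u v : En n → ℂ}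
    (hu : LocallyIntegrable u) (hv : LocallyIntegrable v) (x : En n) :
    mol κ (u - v) x = mol κ u x - mol κ v x := by
  unfold mol
  rw [← integral_sub (mol_integrable hκ hu x) (mol_integrable hκ hv x)]
  congr 1
  funext y
  simp only [Pi.sub_apply]
  ring

/-- Pointwise Jensen inequality. -/
theorem jensen {κ : En n → ℝ} {δ : ℝ} (hκ : IsMoll κ δ) {u : En n → ℂ}
    (hu : AEStronglyMeasurable u volume) (x : En n) :
    ‖mol κ u x‖ₑ ^ (2 : ℝ) ≤ ∫⁻ y, ENNReal.ofReal (κ (x - y)) * ‖u y‖ₑ ^ (2 : ℝ) := by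
  have hk : Measurable (fun y => ENNReal.ofReal (κ (x - y))) :=
    (((moll_cont hκ).comp (continuous_const.sub continuous_id)).measurable).ennreal_ofReal
  have hu2 : AEMeasurable (fun y => ‖u y‖ₑ ^ (2 : ℝ)) volume := hu.enorm.pow_const _
  have h1 : ‖mol κ u x‖ₑ ≤ ∫⁻ y, ENNReal.ofReal (κ (x - y)) * ‖u y‖ₑ := by
    refine (enorm_integral_le_lintegral_enorm _).trans (lintegral_mono fun y => ?_)
    simp only [enorm_mul]
    refine mul_le_mul_left ?_ _
    rw [← ofReal_norm, Complex.norm_real, Real.norm_of_nonneg (hκ.nonneg _)]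
  have h2 : ∫⁻ y, ENNReal.ofReal (κ (x - y)) * ‖u y‖ₑ ≤
      (∫⁻ y, ENNReal.ofReal (κ (x - y)) * ‖u y‖ₑ ^ (2 : ℝ)) ^ (1 / 2 : ℝ) := by
    have h3 := ENNReal.lintegral_mul_norm_pow_le (μ := (volume : Measure (En n)))
      (f := fun y => ENNReal.ofReal (κ (x - y)))
      (g := fun y => ENNReal.ofReal (κ (x - y)) * ‖u y‖ₑ ^ (2 : ℝ)) hk.aemeasurable
      (hk.aemeasurable.mul hu2) (p := 1 / 2) (q := 1 / 2) (by norm_num) (by norm_num)
      (by norm_num)
    rw [moll_lint_sub hκ, ENNReal.one_rpow, one_mul] at h3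
    refine le_trans (le_of_eq ?_) h3
    congr 1
    funext y
    rw [ENNReal.mul_rpow_of_nonneg _ _ (by norm_num), ← mul_assoc,
      ← ENNReal.rpow_add_of_nonneg _ _ (by norm_num) (by norm_num), ← ENNReal.rpow_mul]
    norm_num
  calc ‖mol κ u x‖ₑ ^ (2 : ℝ) ≤
      ((∫⁻ y, ENNReal.ofReal (κ (x - y)) * ‖u y‖ₑ ^ (2 : ℝ)) ^ (1 / 2 : ℝ)) ^ (2 : ℝ) :=
        ENNReal.rpow_le_rpow (h1.trans h2) (by norm_num)
    _ = _ := by rw [← ENNReal.rpow_mul]; norm_num

theorem young {κ : En n → ℝ} {δ : ℝ} (hκ : IsMoll κ δ) {u : En n → ℂ}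
    (hu : AEStronglyMeasurable u volume) :
    ∫⁻ x, ‖mol κ u x‖ₑ ^ (2 : ℝ) ≤ ∫⁻ y, ‖u y‖ₑ ^ (2 : ℝ) := by
  have hu2 : AEMeasurable (fun y => ‖u y‖ₑ ^ (2 : ℝ)) volume := hu.enorm.pow_const _
  have hk : Measurable (fun p : En n × En n => ENNReal.ofReal (κ (p.1 - p.2))) :=
    (((moll_cont hκ).comp (continuous_fst.sub continuous_snd)).measurable).ennreal_ofReal
  calc ∫⁻ x, ‖mol κ u x‖ₑ ^ (2 : ℝ)
      ≤ ∫⁻ x, ∫⁻ y, ENNReal.ofReal (κ (x - y)) * ‖u y‖ₑ ^ (2 : ℝ) :=
        lintegral_mono fun x => jensen hκ hu x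
    _ = ∫⁻ y, ∫⁻ x, ENNReal.ofReal (κ (x - y)) * ‖u y‖ₑ ^ (2 : ℝ) := by
        refine lintegral_lintegral_swap ?_
        refine hk.aemeasurable.mul ?_
        exact hu2.comp_snd
    _ = ∫⁻ y, ‖u y‖ₑ ^ (2 : ℝ) := by
        refine lintegral_congr fun y => ?_
        have hk' : Measurable (fun x => ENNReal.ofReal (κ (x - y))) :=
          (((moll_cont hκ).comp (continuous_id.sub continuous_const)).measurable).ennreal_ofReal
        rw [lintegral_mul_const _ hk', moll_lint_sub' hκ, one_mul]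

theorem eLpNorm_two (f : En n → ℂ) :
    eLpNorm f 2 volume = (∫⁻ x, ‖f x‖ₑ ^ (2 : ℝ)) ^ (1 / 2 : ℝ) := by
  rw [eLpNorm_eq_lintegral_rpow_enorm_toReal (by norm_num) (by norm_num)]
  norm_num

theorem young_eLpNorm {κ : En n → ℝ} {δ : ℝ} (hκ : IsMoll κ δ) {u : En n → ℂ}
    (hu : AEStronglyMeasurable u volume) : eLpNorm (mol κ u) 2 volume ≤ eLpNorm u 2 volume := by
  rw [eLpNorm_two, eLpNorm_two]
  exact ENNReal.rpow_le_rpow (young hκ hu) (by norm_num)

theorem mol_aesm {κ : En n → ℝ} {δ : ℝ} (hκ : IsMoll κ δ) {u : En n → ℂ}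
    (hu : LocallyIntegrable u) : AEStronglyMeasurable (mol κ u) volume :=
  (mol_contDiff hκ hu).continuous.aestronglyMeasurable

end MollL2

open MollL2

theorem mol_memLp {κ : En n → ℝ} {δ : ℝ} (hκ : IsMoll κ δ) {u : En n → ℂ}
    (hu : MemLp u 2) : MemLp (mol κ u) 2 := by
  refine ⟨mol_aesm hκ (hu.locallyIntegrable (by norm_num)), ?_⟩
  exact (young_eLpNorm hκ hu.1).trans_lt hu.2

namespace MollL2

/-- Uniform estimate for a uniformly continuous function. -/
theorem mol_close {κ : En n → ℝ} {δ : ℝ} (hκ : IsMoll κ δ) {g : En n → ℂ}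
    (hg : LocallyIntegrable g) {ε : ℝ} {x : En n}
    (h : ∀ y, ‖x - y‖ < δ → ‖g y - g x‖ ≤ ε) : ‖mol κ g x - g x‖ ≤ ε := by
  have hc : LocallyIntegrable (fun _ : En n => g x) := locallyIntegrable_const _
  have h1 : mol κ g x - g x = ∫ y, (κ (x - y) : ℂ) * (g y - g x) := by
    have h2 : mol κ (fun _ => g x) x = g x := by
      unfold mol
      rw [integral_mul_const]
      have h3 : ∫ y, (κ (x - y) : ℂ) = ((∫ y, κ (x - y) : ℝ) : ℂ) := integral_ofReal
      rw [h3, moll_mass_sub hκ]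
      simp
    have h4 := mol_sub hκ hg hc x
    rw [h2] at h4
    rw [← h4]
    rfl
  rw [h1]
  have hki : Integrable (fun y => κ (x - y)) := by
    have := (moll_int hκ).comp_sub_left x
    exact this
  calc ‖∫ y, (κ (x - y) : ℂ) * (g y - g x)‖ ≤ ∫ y, κ (x - y) * ε := by
        refine norm_integral_le_of_norm_le (hki.mul_const ε) (ae_of_all _ fun y => ?_)
        rw [norm_mul, Complex.norm_real, Real.norm_of_nonneg (hκ.nonneg _)]
        rcases lt_or_ge (‖x - y‖) δ with hlt | hge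
        · exact mul_le_mul_of_nonneg_left (h y hlt) (hκ.nonneg _)
        · rw [hκ.supp _ hge]; simp
    _ = ε := by rw [integral_mul_const, moll_mass_sub hκ, one_mul]

theorem tendsto_cc {κ : ℕ → En n → ℝ} {δ : ℕ → ℝ} (hκ : ∀ i, IsMoll (κ i) (δ i))
    (hδ : Tendsto δ atTop (𝓝 0)) {g : En n → ℂ} (hg : Continuous g) (hgc : HasCompactSupport g) :
    Tendsto (fun i => eLpNorm (mol (κ i) g - g) 2 volume) atTop (𝓝 0) := by
  have huc : UniformContinuous g := hgc.uniformContinuous_of_continuous hg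
  have hgl : LocallyIntegrable g := hg.locallyIntegrable
  set K : Set (En n) := cthickening 1 (tsupport g) with hK
  have hKc : IsCompact K := hgc.isCompact.cthickening
  have hKm : MeasurableSet K := hKc.isClosed.measurableSet
  have hKf : volume K < ⊤ := hKc.measure_lt_top
  set V : ℝ≥0∞ := volume K ^ (1 / 2 : ℝ) with hV
  have hVf : V ≠ ⊤ := ENNReal.rpow_ne_top_of_nonneg (by norm_num) hKf.ne
  -- the bound
  have key : ∀ ε : ℝ, 0 < ε → ∀ᶠ i in atTop,
      eLpNorm (mol (κ i) g - g) 2 volume ≤ V * ENNReal.ofReal ε := by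
    intro ε hε
    obtain ⟨η, hη, hη'⟩ := Metric.uniformContinuous_iff.1 huc ε hε
    have h1 : ∀ᶠ i in atTop, δ i < min η 1 := hδ.eventually (gt_mem_nhds (lt_min hη one_pos))
    filter_upwards [h1] with i hi
    have hb : ∀ x, ‖mol (κ i) g x - g x‖ ≤ ε := by
      intro x
      refine mol_close (hκ i) hgl fun y hy => ?_
      have h2 : dist y x < η := by
        rw [dist_comm, dist_eq_norm]
        exact hy.trans (hi.trans_le (min_le_left _ _))
      have h3 := hη' h2
      rw [dist_eq_norm] at h3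
      exact h3.le
    have hs : ∀ x, x ∉ K → mol (κ i) g x - g x = 0 := by
      intro x hx
      have hx' : ∀ y ∈ tsupport g, 1 < ‖x - y‖ := by
        intro y hy
        by_contra hcon
        refine hx (mem_cthickening_of_dist_le x y 1 _ hy ?_)
        rw [dist_eq_norm]
        exact not_lt.1 hcon
      have hgx : g x = 0 := by
        by_contra h0
        have := hx' x (subset_tsupport g (Function.mem_support.2 h0))
        rw [sub_self, norm_zero] at this
        linarith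
      have hmx : mol (κ i) g x = 0 := by
        refine mol_zero (hκ i) (K := tsupport g) (fun y hy => image_eq_zero_of_notMem_tsupport hy)
          fun y hy => ?_
        exact ((hi.trans_le (min_le_right _ _)).trans (hx' y hy)).le
      rw [hgx, hmx, sub_zero]
    have he : eLpNorm (mol (κ i) g - g) 2 volume =
        eLpNorm (mol (κ i) g - g) 2 (volume.restrict K) := by
      rw [← eLpNorm_indicator_eq_eLpNorm_restrict hKm]
      congr 1
      funext x
      by_cases hx : x ∈ K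
      · rw [indicator_of_mem hx]
      · rw [indicator_of_notMem hx]
        exact hs x hx
    rw [he]
    refine (eLpNorm_le_of_ae_bound (C := ε) (ae_of_all _ fun x => ?_)).trans ?_
    · exact hb x
    · rw [Measure.restrict_apply_univ]
      norm_num [hV]
  rw [ENNReal.tendsto_nhds_zero]
  intro ε hε
  by_cases hεt : ε = ⊤
  · exact Eventually.of_forall fun i => by rw [hεt]; exact le_top
  -- choose ε' with V * ofReal ε' ≤ ε
  obtain ⟨r, hr0, hr⟩ : ∃ r : ℝ, 0 < r ∧ V * ENNReal.ofReal r ≤ ε := by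
    have hεr : 0 < ε.toReal := ENNReal.toReal_pos hε.ne' hεt
    refine ⟨ε.toReal / (V.toReal + 1), by positivity, ?_⟩
    have h1 : V * ENNReal.ofReal (ε.toReal / (V.toReal + 1)) =
        ENNReal.ofReal (V.toReal * (ε.toReal / (V.toReal + 1))) := by
      rw [ENNReal.ofReal_mul ENNReal.toReal_nonneg, ENNReal.ofReal_toReal hVf]
    rw [h1]
    refine ENNReal.ofReal_le_of_le_toReal ?_
    have h2 : 0 ≤ V.toReal := ENNReal.toReal_nonneg
    rw [mul_div_assoc', div_le_iff₀ (by positivity)]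
    nlinarith
  filter_upwards [key r hr0] with i hi
  exact hi.trans hr

theorem tendsto_eLpNorm {κ : ℕ → En n → ℝ} {δ : ℕ → ℝ} (hκ : ∀ i, IsMoll (κ i) (δ i))
    (hδ : Tendsto δ atTop (𝓝 0)) {u : En n → ℂ} (hu : MemLp u 2) :
    Tendsto (fun i => eLpNorm (mol (κ i) u - u) 2 volume) atTop (𝓝 0) := by
  rw [ENNReal.tendsto_nhds_zero]
  intro ε hε
  by_cases hεt : ε = ⊤
  · exact Eventually.of_forall fun i => by rw [hεt]; exact le_top
  have hε3 : ε / 3 ≠ 0 := (ENNReal.div_pos hε.ne' (by norm_num)).ne'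
  obtain ⟨g, hgc, hgu, hg, hgm⟩ :=
    hu.exists_hasCompactSupport_eLpNorm_sub_le (by norm_num) hε3
  have h1 := (ENNReal.tendsto_nhds_zero.1 (tendsto_cc hκ hδ hg hgc)) (ε / 3)
    (pos_iff_ne_zero.2 hε3)
  filter_upwards [h1] with i hi
  have hul : LocallyIntegrable u := hu.locallyIntegrable (by norm_num)
  have hgl : LocallyIntegrable g := hg.locallyIntegrable
  have hugm : MemLp (u - g) 2 := hu.sub hgm
  have h2 : mol (κ i) u - u = mol (κ i) (u - g) + ((mol (κ i) g - g) - (u - g)) := by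
    funext x
    have := mol_sub (hκ i) hul hgl x
    simp only [Pi.sub_apply, Pi.add_apply]
    rw [this]
    ring
  have m1 : AEStronglyMeasurable (mol (κ i) (u - g)) volume :=
    mol_aesm (hκ i) (hugm.locallyIntegrable (by norm_num))
  have m2 : AEStronglyMeasurable (mol (κ i) g - g) volume :=
    (mol_aesm (hκ i) hgl).sub hgm.1
  rw [h2]
  calc eLpNorm (mol (κ i) (u - g) + ((mol (κ i) g - g) - (u - g))) 2 volume
      ≤ eLpNorm (mol (κ i) (u - g)) 2 volume +
        eLpNorm ((mol (κ i) g - g) - (u - g)) 2 volume :=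
        eLpNorm_add_le m1 (m2.sub hugm.1) (by norm_num)
    _ ≤ eLpNorm (u - g) 2 volume +
        (eLpNorm (mol (κ i) g - g) 2 volume + eLpNorm (u - g) 2 volume) :=
        add_le_add (young_eLpNorm (hκ i) hugm.1) (eLpNorm_sub_le m2 hugm.1 (by norm_num))
    _ ≤ ε / 3 + (ε / 3 + ε / 3) := add_le_add hgu (add_le_add hi hgu)
    _ = ε := by
        rw [← add_assoc]
        exact ENNReal.add_thirds ε

end MollL2

theorem mol_tendsto {κ : ℕ → En n → ℝ} {δ : ℕ → ℝ} (hκ : ∀ i, IsMoll (κ i) (δ i))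
    (hδ : Tendsto δ atTop (𝓝 0)) {u : En n → ℂ} (hu : MemLp u 2) :
    Tendsto (fun i => ∫ x, ‖mol (κ i) u x - u x‖ ^ 2) atTop (𝓝 0) := by
  have h1 := tendsto_eLpNorm hκ hδ hu
  have h2 : ∀ i, ∫ x, ‖mol (κ i) u x - u x‖ ^ 2 =
      ((eLpNorm (mol (κ i) u - u) 2 volume) ^ (2 : ℝ)).toReal := by
    intro i
    have hm : AEStronglyMeasurable (mol (κ i) u - u) volume :=
      ((mol_memLp (hκ i) hu).sub hu).1
    have hm2 : AEStronglyMeasurable (fun x => ‖mol (κ i) u x - u x‖ ^ 2) volume :=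
      hm.norm.pow 2
    rw [integral_eq_lintegral_of_nonneg_ae (ae_of_all _ fun x => sq_nonneg _) hm2,
      eLpNorm_two, ← ENNReal.rpow_mul]
    have h5 : ∀ x, ENNReal.ofReal (‖mol (κ i) u x - u x‖ ^ 2) =
        ‖(mol (κ i) u - u) x‖ₑ ^ (2 : ℝ) := by
      intro x
      rw [← ofReal_norm, ENNReal.ofReal_pow (norm_nonneg _)]
      norm_num
    simp_rw [h5]
    norm_num
  simp_rw [h2]
  have h3 : Tendsto (fun i => (eLpNorm (mol (κ i) u - u) 2 volume) ^ (2 : ℝ)) atTop (𝓝 0) := by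
    have h4 := ((ENNReal.continuous_rpow_const (y := (2 : ℝ))).tendsto 0).comp h1
    rw [ENNReal.zero_rpow_of_pos (by norm_num)] at h4
    exact h4
  have h5 := (ENNReal.tendsto_toReal ENNReal.zero_ne_top).comp h3
  rw [ENNReal.toReal_zero] at h5
  exact h5

theorem mol_tendsto_ae {κ : ℕ → En n → ℝ} {δ : ℕ → ℝ} (hκ : ∀ i, IsMoll (κ i) (δ i))
    (hδ : Tendsto δ atTop (𝓝 0)) {u : En n → ℂ} (hu : MemLp u 2) :
    ∃ s : ℕ → ℕ, StrictMono s ∧
      ∀ᵐ x : En n, Tendsto (fun i => mol (κ (s i)) u x) atTop (𝓝 (u x)) := by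
  have h1 := tendsto_eLpNorm hκ hδ hu
  have h2 : TendstoInMeasure volume (fun i => mol (κ i) u) atTop u :=
    tendstoInMeasure_of_tendsto_eLpNorm (p := 2) (by norm_num)
      (fun i => (mol_memLp (hκ i) hu).1) hu.1 h1
  exact h2.exists_seq_tendsto_ae

end Pool.Agent.H8.FZ
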