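import Pool.Agent.H8.FZ.HorDefs
import Pool.Agent.H8.FZ.MollH
import Pool.Agent.H8.FZ.MollL2
import Pool.Agent.H8.FZ.Holo

/-!
# FZ-WEYL: weakly holomorphic functions are holomorphic

`u` locally integrable on the open set `O` with `∫_O u ∂̄_jθ = 0` for all test `θ` and all `j`.

Local statement first: on a ball `B(x₀, 4R) ⊆ O` (closure in `O`). Let `ũ = u 1_{B(x₀,4R)}`,
integrable. For `δ < R`, `u_δ = mol κ_δ ũ` is smooth and `dbar_mol` gives `∂̄_j u_δ = 0` on
`B(x₀,3R)` (`θ = κ_δ(x - ·)` is a test function in `B(x₀,4R)`), so `u_δ` is holomorphic there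
(`holo_of_dbar`). For `δ, δ' < R` on `B(x₀,R)`: `u_δ = mol κ_{δ'} u_δ = mol κ_δ u_{δ'} = u_{δ'}`
(`mol_holo`, `mol_comm`). As `δ → 0`, `u_δ → ũ` in `L¹`/a.e. along a sequence
(e.g. `ContDiffBump.ae_convolution_tendsto_right_of_locallyIntegrable` is for Mathlib's bumps; or
truncate `u` to get an `L²` statement; or prove `L¹` convergence as in `mol_tendsto`; or the Lebesgue
differentiation theorem). So `u = u_δ` a.e. on `B(x₀,R)` for any fixed `δ < R`.

Globalise: two holomorphic functions that agree a.e. on an open set agree there (continuity); cover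
`O` by countably many such balls (Lindelöf) and define `g` by the local values (or `g z = lim` of the
averages of `u` over `ball z r`, `r → 0`, which equals the local holomorphic function).
-/

set_option autoImplicit false

noncomputable section

namespace Pool.Agent.H8.FZ

open Complex Metric MeasureTheory Set Filter Topology
open scoped ContDiff ComplexConjugate

variable {n : ℕ}

namespace Weyl

theorem kappa_bound {κ : En n → ℝ} {δ : ℝ} (hκ : IsMoll κ δ) : ∃ C, ∀ x, ‖κ x‖ ≤ C := by
  have hc : HasCompactSupport κ := by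
    refine HasCompactSupport.intro (isCompact_closedBall (0 : En n) δ) fun x hx => hκ.supp x ?_
    rw [mem_closedBall_zero_iff, not_le] at hx
    exact hx.le
  exact hc.exists_bound_of_continuous hκ.smooth.continuous

/-- Fubini: `∫ θ (κ * u) = ∫ (κ * θ) u`. -/
theorem fubini {κ : En n → ℝ} {δ : ℝ} (hκ : IsMoll κ δ) {u θ : En n → ℂ} (hu : Integrable u)
    (hθ : Integrable θ) : ∫ x, θ x * mol κ u x = ∫ y, mol κ θ y * u y := by
  obtain ⟨C, hC⟩ := kappa_bound hκ
  have h1 : Integrable (fun z : En n × En n => (κ (z.1 - z.2) : ℂ) * (θ z.1 * u z.2))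
      (volume.prod volume) := by
    refine (hθ.mul_prod hu).bdd_mul (c := C) ?_ (Eventually.of_forall fun z => ?_)
    · exact (Complex.continuous_ofReal.comp
        (hκ.smooth.continuous.comp (continuous_fst.sub continuous_snd))).aestronglyMeasurable
    · rw [Complex.norm_real]
      exact hC _
  have h2 : ∫ x, θ x * mol κ u x =
      ∫ x, ∫ y, (κ (x - y) : ℂ) * (θ x * u y) := by
    refine integral_congr_ae (Eventually.of_forall fun x => ?_)
    show θ x * mol κ u x = ∫ y, (κ (x - y) : ℂ) * (θ x * u y)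
    rw [mol, ← integral_const_mul]
    refine integral_congr_ae (Eventually.of_forall fun y => ?_)
    show θ x * ((κ (x - y) : ℂ) * u y) = (κ (x - y) : ℂ) * (θ x * u y)
    ring
  rw [h2, integral_integral_swap h1]
  refine integral_congr_ae (Eventually.of_forall fun y => ?_)
  show ∫ x, (κ (x - y) : ℂ) * (θ x * u y) = mol κ θ y * u y
  rw [mol, ← integral_mul_const]
  refine integral_congr_ae (Eventually.of_forall fun x => ?_)
  show (κ (x - y) : ℂ) * (θ x * u y) = (κ (y - x) : ℂ) * θ x * u y
  rw [hκ.radial (y - x) (x - y) (norm_sub_rev _ _)]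
  ring

theorem mass_sub {κ : En n → ℝ} {δ : ℝ} (hκ : IsMoll κ δ) (x : En n) :
    ∫ y, (κ (x - y) : ℂ) = 1 := by
  have h1 : ∫ y, (κ (x - y) : ℂ) = ∫ y, (κ y : ℂ) :=
    integral_sub_left_eq_self (fun y => (κ y : ℂ)) volume x
  rw [h1, integral_complex_ofReal, hκ.mass, Complex.ofReal_one]

theorem integrable_kappa {κ : En n → ℝ} {δ : ℝ} (hκ : IsMoll κ δ) (x : En n) :
    Integrable fun y => (κ (x - y) : ℂ) := by
  have hc : HasCompactSupport fun y => (κ (x - y) : ℂ) := by
    refine HasCompactSupport.intro (isCompact_closedBall x δ) fun y hy => ?_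
    rw [mem_closedBall, not_le, dist_comm, dist_eq_norm] at hy
    show (κ (x - y) : ℂ) = 0
    rw [hκ.supp _ hy.le, Complex.ofReal_zero]
  exact (Complex.continuous_ofReal.comp (hκ.smooth.continuous.comp
    (continuous_const.sub continuous_id))).integrable_of_hasCompactSupport hc

theorem approx {κ : En n → ℝ} {δ : ℝ} (hκ : IsMoll κ δ) {θ : En n → ℂ} (hθ : Continuous θ)
    (hθc : HasCompactSupport θ) {ε : ℝ} (hε : ∀ x y, ‖x - y‖ < δ → ‖θ y - θ x‖ ≤ ε) (x : En n) :
    ‖mol κ θ x - θ x‖ ≤ ε := by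
  obtain ⟨C, hC⟩ := hθc.exists_bound_of_continuous hθ
  have hi := integrable_kappa hκ x
  have hi1 : Integrable fun y => (κ (x - y) : ℂ) * θ y :=
    hi.mul_bdd (c := C) hθ.aestronglyMeasurable (Eventually.of_forall hC)
  have h1 : mol κ θ x - θ x = ∫ y, (κ (x - y) : ℂ) * (θ y - θ x) := by
    have h2 : θ x = ∫ y, (κ (x - y) : ℂ) * θ x := by
      rw [integral_mul_const, mass_sub hκ x, one_mul]
    have h3 : mol κ θ x - θ x = (∫ y, (κ (x - y) : ℂ) * θ y) - ∫ y, (κ (x - y) : ℂ) * θ x := by
      rw [← h2]; rfl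
    rw [h3, ← integral_sub hi1 (hi.mul_const _)]
    refine integral_congr_ae (Eventually.of_forall fun y => ?_)
    show (κ (x - y) : ℂ) * θ y - (κ (x - y) : ℂ) * θ x = (κ (x - y) : ℂ) * (θ y - θ x)
    ring
  rw [h1]
  have hr : Integrable fun y => κ (x - y) * ε := by
    have := hi.re
    simpa using this.mul_const ε
  refine (norm_integral_le_of_norm_le hr (Eventually.of_forall fun y => ?_)).trans ?_
  · rw [norm_mul, Complex.norm_real, Real.norm_of_nonneg (hκ.nonneg _)]
    rcases lt_or_ge ‖x - y‖ δ with h2 | h2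
    · exact mul_le_mul_of_nonneg_left (hε x y h2) (hκ.nonneg _)
    · rw [hκ.supp _ h2, zero_mul, zero_mul]
  · rw [integral_mul_const]
    have h2 : ∫ y, κ (x - y) = 1 := by
      rw [← hκ.mass]
      exact integral_sub_left_eq_self κ volume x
    rw [h2, one_mul]

/-- the mollifications of a weakly holomorphic function are holomorphic -/
theorem mol_diff {x₀ : En n} {R : ℝ} {u : En n → ℂ}
    (hu : IntegrableOn u (ball x₀ (4 * R)))
    (h : ∀ θ : En n → ℂ, IsTest (ball x₀ (4 * R)) θ → ∀ j,
      ∫ z in ball x₀ (4 * R), u z * dbar j θ z = 0)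
    {κ : En n → ℝ} {δ : ℝ} (hκ : IsMoll κ δ) (hδ : δ < R) :
    DifferentiableOn ℂ (mol κ ((ball x₀ (4 * R)).indicator u)) (ball x₀ (3 * R)) := by
  have hui : Integrable ((ball x₀ (4 * R)).indicator u) :=
    (integrable_indicator_iff measurableSet_ball).2 hu
  intro x hx
  refine DifferentiableAt.differentiableWithinAt ?_
  refine holo_of_dbar ((mol_contDiff hκ hui.locallyIntegrable).differentiable (by simp) x)
    fun k => ?_
  rw [dbar_mol hκ hui.locallyIntegrable k x]
  have hsub : closedBall x δ ⊆ ball x₀ (4 * R) := by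
    intro y hy
    rw [mem_closedBall] at hy
    rw [mem_ball] at hx ⊢
    have := dist_triangle y x x₀
    linarith
  have hzero : ∀ y, y ∉ closedBall x δ → ((fun t => (κ (x - t) : ℂ)) y) = 0 := by
    intro y hy
    rw [mem_closedBall, not_le, dist_comm, dist_eq_norm] at hy
    show (κ (x - y) : ℂ) = 0
    rw [hκ.supp _ hy.le, Complex.ofReal_zero]
  have htest : IsTest (ball x₀ (4 * R)) (fun t => (κ (x - t) : ℂ)) := by
    refine ⟨?_, ?_, ?_⟩
    · exact Complex.ofRealCLM.contDiff.comp (hκ.smooth.comp (contDiff_const.sub contDiff_id))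
    · exact HasCompactSupport.intro (isCompact_closedBall x δ) hzero
    · refine subset_trans ?_ hsub
      refine closure_minimal ?_ isClosed_closedBall
      intro y hy
      by_contra hne
      exact hy (hzero y hne)
  have h1 := h _ htest k
  rw [← integral_indicator measurableSet_ball] at h1
  rw [neg_eq_zero, ← h1]
  refine integral_congr_ae (Eventually.of_forall fun y => ?_)
  by_cases hy : y ∈ ball x₀ (4 * R)
  · simp only [indicator_of_mem hy]
    ring
  · simp only [indicator_of_notMem hy, mul_zero]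

/-- all the mollifications agree on a smaller ball -/
theorem mol_eq {x₀ : En n} {R : ℝ} {u : En n → ℂ}
    (hu : IntegrableOn u (ball x₀ (4 * R)))
    (h : ∀ θ : En n → ℂ, IsTest (ball x₀ (4 * R)) θ → ∀ j,
      ∫ z in ball x₀ (4 * R), u z * dbar j θ z = 0)
    {κ κ' : En n → ℝ} {δ δ' : ℝ} (hκ : IsMoll κ δ) (hδ : δ < R) (hκ' : IsMoll κ' δ')
    (hδ' : δ' < R) {z : En n} (hz : z ∈ ball x₀ R) :
    mol κ ((ball x₀ (4 * R)).indicator u) z = mol κ' ((ball x₀ (4 * R)).indicator u) z := by
  have hui : Integrable ((ball x₀ (4 * R)).indicator u) :=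
    (integrable_indicator_iff measurableSet_ball).2 hu
  have hsub : ball z (2 * R) ⊆ ball x₀ (3 * R) := by
    intro y hy
    rw [mem_ball] at hy hz ⊢
    have := dist_triangle y z x₀
    linarith
  have hR : 0 < R := hκ.pos.trans hδ
  have h1 := mol_holo hκ' (show δ' < 2 * R by linarith) ((mol_diff hu h hκ hδ).mono hsub)
  have h2 := mol_holo hκ (show δ < 2 * R by linarith) ((mol_diff hu h hκ' hδ').mono hsub)
  rw [← h1, ← h2, mol_comm hκ hκ' hui]

theorem weyl_local {x₀ : En n} {R : ℝ} (hR : 0 < R) {u : En n → ℂ}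
    (hu : IntegrableOn u (ball x₀ (4 * R)))
    (h : ∀ θ : En n → ℂ, IsTest (ball x₀ (4 * R)) θ → ∀ j,
      ∫ z in ball x₀ (4 * R), u z * dbar j θ z = 0) :
    ∃ g : En n → ℂ, DifferentiableOn ℂ g (ball x₀ R) ∧
      ∀ᵐ z ∂(volume : Measure (En n)), z ∈ ball x₀ R → u z = g z := by
  set u' := (ball x₀ (4 * R)).indicator u with hu'
  have hui : Integrable u' := (integrable_indicator_iff measurableSet_ball).2 hu
  obtain ⟨κ₀, hκ₀⟩ := exists_isMoll n (half_pos hR)
  have hδ₀ : R / 2 < R := by linarith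
  have hg : ContDiff ℝ ∞ (mol κ₀ u') := mol_contDiff hκ₀ hui.locallyIntegrable
  refine ⟨mol κ₀ u', (mol_diff hu h hκ₀ hδ₀).mono (ball_subset_ball (by linarith)), ?_⟩
  have key : ∀ᵐ z ∂(volume : Measure (En n)), z ∈ ball x₀ R → u' z - mol κ₀ u' z = 0 := by
    refine isOpen_ball.ae_eq_zero_of_integral_contDiff_smul_eq_zero
      ((hui.locallyIntegrable.sub hg.continuous.locallyIntegrable).locallyIntegrableOn _) ?_
    intro φ hφ hφc hφs
    set θ : En n → ℂ := fun x => (φ x : ℂ) with hθdef
    have hθ : Continuous θ := Complex.continuous_ofReal.comp hφ.continuous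
    have hθc : HasCompactSupport θ := hφc.comp_left Complex.ofReal_zero
    have hθ0 : ∀ x, x ∉ ball x₀ R → θ x = 0 := by
      intro x hx
      have h1 : φ x = 0 := image_eq_zero_of_notMem_tsupport fun h2 => hx (hφs h2)
      show (φ x : ℂ) = 0
      rw [h1, Complex.ofReal_zero]
    obtain ⟨C, hC⟩ := hθc.exists_bound_of_continuous hθ
    have hi1 : Integrable fun x => θ x * u' x :=
      hui.bdd_mul hθ.aestronglyMeasurable (Eventually.of_forall hC)
    have hi2 : Integrable fun x => θ x * mol κ₀ u' x :=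
      (hθ.mul hg.continuous).integrable_of_hasCompactSupport hθc.mul_right
    have hθi : Integrable θ := hθ.integrable_of_hasCompactSupport hθc
    have h1 : ∫ x, φ x • (u' x - mol κ₀ u' x) = (∫ x, θ x * u' x) - ∫ x, θ x * mol κ₀ u' x := by
      rw [← integral_sub hi1 hi2]
      refine integral_congr_ae (Eventually.of_forall fun x => ?_)
      show φ x • (u' x - mol κ₀ u' x) = θ x * u' x - θ x * mol κ₀ u' x
      rw [Complex.real_smul, mul_sub]
    -- change `κ₀`
    have h2 : ∀ {κ : En n → ℝ} {δ : ℝ}, IsMoll κ δ → δ < R →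
        ∫ x, θ x * mol κ₀ u' x = ∫ y, mol κ θ y * u' y := by
      intro κ δ hκ hδ
      rw [← fubini hκ hui hθi]
      refine integral_congr_ae (Eventually.of_forall fun x => ?_)
      show θ x * mol κ₀ u' x = θ x * mol κ u' x
      by_cases hx : x ∈ ball x₀ R
      · rw [hu', mol_eq hu h hκ₀ hδ₀ hκ hδ hx]
      · rw [hθ0 x hx, zero_mul, zero_mul]
    rw [h1, ← norm_le_zero_iff]
    have h3 : ∀ ε : ℝ, 0 < ε → ‖(∫ x, θ x * u' x) - ∫ x, θ x * mol κ₀ u' x‖ ≤
        ε * ∫ x, ‖u' x‖ := by
      intro ε hε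
      have huc := hθc.uniformContinuous_of_continuous hθ
      obtain ⟨δ, hδ, hδε⟩ := Metric.uniformContinuous_iff.1 huc ε hε
      obtain ⟨κ, hκ⟩ := exists_isMoll n (δ := min δ (R / 2)) (lt_min hδ (half_pos hR))
      have hδR : min δ (R / 2) < R := (min_le_right _ _).trans_lt hδ₀
      have hap := approx hκ hθ hθc (ε := ε) (fun x y hxy => by
        have h4 : dist y x < δ := by
          rw [dist_comm, dist_eq_norm]
          exact hxy.trans_le (min_le_left _ _)
        have h5 := hδε h4
        rw [dist_eq_norm] at h5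
        exact h5.le)
      obtain ⟨C', hC'⟩ := kappa_bound hκ
      have hcont : Continuous (mol κ θ) :=
        (mol_contDiff hκ hθi.locallyIntegrable).continuous
      have hi3 : Integrable fun y => mol κ θ y * u' y := by
        refine hui.bdd_mul (c := C + ε) hcont.aestronglyMeasurable
          (Eventually.of_forall fun y => ?_)
        have h6 := norm_sub_norm_le (mol κ θ y) (θ y)
        have h7 := hap y
        have h8 := hC y
        linarith
      rw [h2 hκ hδR, ← integral_sub hi1 hi3, ← integral_const_mul]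
      refine norm_integral_le_of_norm_le (hui.norm.const_mul ε) (Eventually.of_forall fun y => ?_)
      show ‖θ y * u' y - mol κ θ y * u' y‖ ≤ ε * ‖u' y‖
      rw [← sub_mul, norm_mul]
      refine mul_le_mul_of_nonneg_right ?_ (norm_nonneg _)
      rw [norm_sub_rev]
      exact hap y
    by_contra hne
    rw [not_le] at hne
    set I := ∫ x, ‖u' x‖ with hI
    have hI0 : 0 ≤ I := integral_nonneg fun x => norm_nonneg _
    have h4 := h3 (‖(∫ x, θ x * u' x) - ∫ x, θ x * mol κ₀ u' x‖ / (2 * (I + 1)))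
      (by positivity)
    rw [div_mul_eq_mul_div, le_div_iff₀ (by positivity)] at h4
    nlinarith
  filter_upwards [key] with z hz hzR
  have h1 := hz hzR
  have h2 : u' z = u z := indicator_of_mem (ball_subset_ball (by linarith) hzR) u
  rw [← h2]
  exact sub_eq_zero.1 h1

end Weyl

open Weyl

theorem weyl {O : Set (En n)} (hO : IsOpen O) {u : En n → ℂ} (hu : LocallyIntegrableOn u O)
    (h : ∀ θ : En n → ℂ, IsTest O θ → ∀ j, ∫ z in O, u z * dbar j θ z = 0) :
    ∃ g : En n → ℂ, DifferentiableOn ℂ g O ∧ ∀ᵐ z ∂(volume.restrict O), u z = g z := by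
  classical
  have hloc : ∀ x₀ ∈ O, ∃ R : ℝ, 0 < R ∧ ball x₀ R ⊆ O ∧ ∃ g : En n → ℂ,
      DifferentiableOn ℂ g (ball x₀ R) ∧
      ∀ᵐ z ∂(volume : Measure (En n)), z ∈ ball x₀ R → u z = g z := by
    intro x₀ hx₀
    obtain ⟨r, hr, hrO⟩ := Metric.isOpen_iff.1 hO x₀ hx₀
    have hcb : closedBall x₀ (r / 2) ⊆ O := (closedBall_subset_ball (by linarith)).trans hrO
    have hint : IntegrableOn u (closedBall x₀ (r / 2)) :=
      hu.integrableOn_compact_subset hcb (isCompact_closedBall _ _)
    have hR : 0 < r / 8 := by positivity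
    have h4 : 4 * (r / 8) = r / 2 := by ring
    have hsub : ball x₀ (4 * (r / 8)) ⊆ O := by
      rw [h4]; exact ball_subset_closedBall.trans hcb
    obtain ⟨g, hg, hg2⟩ := weyl_local hR (u := u) (x₀ := x₀)
      (hint.mono_set (by rw [h4]; exact ball_subset_closedBall)) (by
        intro θ hθ j
        have h1 := h θ ⟨hθ.1, hθ.2.1, hθ.2.2.trans hsub⟩ j
        rw [← h1, ← integral_indicator measurableSet_ball, ← integral_indicator hO.measurableSet]
        refine integral_congr_ae (Eventually.of_forall fun z => ?_)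
        by_cases hz : z ∈ ball x₀ (4 * (r / 8))
        · simp only [indicator_of_mem hz, indicator_of_mem (hsub hz)]
        · have hd : dbar j θ z = 0 := by
            refine image_eq_zero_of_notMem_tsupport fun h2 => hz ?_
            exact hθ.2.2 (tsupport_dbar_subset θ j h2)
          by_cases hz2 : z ∈ O
          · simp only [indicator_of_notMem hz, indicator_of_mem hz2, hd, mul_zero]
          · simp only [indicator_of_notMem hz, indicator_of_notMem hz2])
    exact ⟨r / 8, hR, (ball_subset_ball (by linarith)).trans hrO, g, hg, hg2⟩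
  choose! R hR hRO G hG hGu using hloc
  -- the global function
  have hagree : ∀ x₀ ∈ O, ∀ z ∈ ball x₀ (R x₀), G z z = G x₀ z := by
    intro x₀ hx₀ z hz
    have hzO : z ∈ O := hRO x₀ hx₀ hz
    have hopen : IsOpen (ball z (R z) ∩ ball x₀ (R x₀)) := isOpen_ball.inter isOpen_ball
    have hae : G z =ᵐ[volume.restrict (ball z (R z) ∩ ball x₀ (R x₀))] G x₀ := by
      rw [Filter.EventuallyEq, ae_restrict_iff' hopen.measurableSet]
      filter_upwards [hGu z hzO, hGu x₀ hx₀] with y h1 h2 hy
      rw [← h1 hy.1, ← h2 hy.2]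
    exact Measure.eqOn_open_of_ae_eq hae hopen
      ((hG z hzO).continuousOn.mono inter_subset_left)
      ((hG x₀ hx₀).continuousOn.mono inter_subset_right) ⟨mem_ball_self (hR z hzO), hz⟩
  refine ⟨fun z => G z z, ?_, ?_⟩
  · intro x₀ hx₀
    refine DifferentiableAt.differentiableWithinAt ?_
    have h1 : DifferentiableAt ℂ (G x₀) x₀ :=
      (hG x₀ hx₀).differentiableAt (isOpen_ball.mem_nhds (mem_ball_self (hR x₀ hx₀)))
    refine h1.congr_of_eventuallyEq ?_
    filter_upwards [isOpen_ball.mem_nhds (mem_ball_self (hR x₀ hx₀))] with z hz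
    exact hagree x₀ hx₀ z hz
  · rw [ae_restrict_iff' hO.measurableSet, ae_iff]
    refine measure_null_of_locally_null _ fun x hx => ?_
    simp only [mem_ofPred_eq, Classical.not_imp] at hx
    refine ⟨{z | ¬ (z ∈ O → u z = G z z)} ∩ ball x (R x),
      inter_mem self_mem_nhdsWithin (nhdsWithin_le_nhds (isOpen_ball.mem_nhds
        (mem_ball_self (hR x hx.1)))), ?_⟩
    refine measure_mono_null ?_ (ae_iff.1 (hGu x hx.1))
    rintro z ⟨hz1, hz2⟩
    simp only [mem_ofPred_eq, Classical.not_imp] at hz1 ⊢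
    refine ⟨hz2, fun h1 => hz1.2 ?_⟩
    rw [h1, hagree x hx.1 z hz2]

end Pool.Agent.H8.FZ
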