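import Pool.Agent.H8.FZ.HorA5
import Pool.Agent.H8.FZ.Weyl

/-!
# FZ-HORCOUSIN: the additive Cousin problem for a two set cover

`Ω ⊆ Ua ∪ Ub`, `v` smooth on `Ub ∩ Ω` and holomorphic on `Ua ∩ Ub ∩ Ω`. Put `α_j = ∂̄_j v` on
`Ub ∩ Ω` and `0` elsewhere; `α_j` is smooth on `Ω` (it is `0` on the open set `Ua ∩ Ω`: on
`Ua ∩ Ub ∩ Ω` because `v` is holomorphic), bounded, closed (`dbar_comm`). `hor_solve` gives `u₀` with
`∂̄u₀ = α` weakly. On `Ua ∩ Ω`: `∂̄u₀ = 0` weakly, so `u₀ = g_a` a.e., `g_a` holomorphic (`weyl`). On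
`Ub ∩ Ω`: `∂̄(u₀ - v) = 0` weakly (integrate by parts against test functions in `Ub ∩ Ω`), so
`u₀ - v = g_b` a.e. Put `u = g_a` on `Ua ∩ Ω` and `u = g_b + v` on the rest of `Ω`; on the overlap
`g_a = g_b + v` a.e., hence everywhere by continuity. (`weyl` on `O = Ua ∩ Ω` needs
`∫_O u₀ ∂̄_jθ = 0` for `θ` test on `O`: integrals over `Ω` and over `O` agree as `θ` vanishes off `O`.)
-/

set_option autoImplicit false

noncomputable section

namespace Pool.Agent.H8.FZ

open Complex Metric MeasureTheory Set Filter Topology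
open scoped ContDiff ComplexConjugate

variable {n : ℕ}

/-- A continuous function on an open set times a continuous function compactly supported in it is
integrable. -/
theorem cousin_integrable_mul {O : Set (En n)} (hO : IsOpen O) {v θ : En n → ℂ}
    (hv : ContinuousOn v O) (hθ : Continuous θ) (hc : HasCompactSupport θ) (hs : tsupport θ ⊆ O) :
    Integrable (fun z => v z * θ z) := by
  have hcs : HasCompactSupport (fun z => v z * θ z) := hc.mul_left
  have hts : tsupport (fun z => v z * θ z) ⊆ tsupport θ := by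
    refine closure_mono ?_
    intro z hz
    rw [Function.mem_support] at hz ⊢
    exact right_ne_zero_of_mul hz
  refine Continuous.integrable_of_hasCompactSupport ?_ hcs
  refine continuous_of_tsupport ?_
  intro z hz
  have hz' : z ∈ O := hs (hts hz)
  exact (hv.continuousAt (hO.mem_nhds hz')).mul hθ.continuousAt

/-- Integration by parts against a test function. -/
theorem cousin_ibp {O : Set (En n)} (hO : IsOpen O) {v θ : En n → ℂ}
    (hv : ContDiffOn ℝ ∞ v O) (hθ : IsTest O θ) (j : Fin n) :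
    ∫ z in O, v z * dbar j θ z = - ∫ z in O, dbar j v z * θ z := by
  obtain ⟨h1, h2, h3⟩ := hθ
  have hθd : Differentiable ℝ θ := h1.differentiable (by simp)
  have hvd : ∀ x ∈ tsupport θ, DifferentiableAt ℝ v x := fun x hx =>
    (hv.contDiffAt (hO.mem_nhds (h3 hx))).differentiableAt (by simp)
  have hvf : ∀ e : En n, ContinuousOn (fun z => fderiv ℝ v z e) O := by
    intro e
    have := hv.continuousOn_fderiv_of_isOpen hO (by simp)
    exact this.clm_apply continuousOn_const
  have hθf : ∀ e : En n, Continuous (fun z => fderiv ℝ θ z e) := fun e =>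
    (h1.continuous_fderiv (by simp)).clm_apply continuous_const
  have hθts : ∀ e : En n, tsupport (fun z => fderiv ℝ θ z e) ⊆ tsupport θ := by
    intro e
    exact (tsupport_fderiv_apply_subset ℝ e)
  have hθc : ∀ e : En n, HasCompactSupport (fun z => fderiv ℝ θ z e) := fun e =>
    h2.of_isClosed_subset (isClosed_tsupport _) (hθts e)
  have key : ∀ e : En n, ∫ z, v z * fderiv ℝ θ z e = - ∫ z, fderiv ℝ v z e * θ z := by
    intro e
    refine integral_mul_fderiv_eq_neg_fderiv_mul_of_integrable ?_ ?_ ?_ hvd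
      (fun x _ => hθd x)
    · exact cousin_integrable_mul hO (hvf e) h1.continuous h2 h3
    · exact cousin_integrable_mul hO hv.continuousOn (hθf e) (hθc e) ((hθts e).trans h3)
    · exact cousin_integrable_mul hO hv.continuousOn h1.continuous h2 h3
  have out : ∀ z, z ∉ O → θ z = 0 := fun z hz => by
    by_contra hne
    exact hz (h3 (subset_tsupport _ hne))
  have outd : ∀ z, z ∉ O → dbar j θ z = 0 := fun z hz => by
    by_contra hne
    exact hz (h3 (tsupport_dbar_subset θ j (subset_tsupport _ hne)))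
  have e1 : ∫ z in O, v z * dbar j θ z = ∫ z, v z * dbar j θ z := by
    refine setIntegral_eq_integral_of_forall_compl_eq_zero ?_
    intro z hz
    rw [outd z hz, mul_zero]
  have e2 : ∫ z in O, dbar j v z * θ z = ∫ z, dbar j v z * θ z := by
    refine setIntegral_eq_integral_of_forall_compl_eq_zero ?_
    intro z hz
    rw [out z hz, mul_zero]
  rw [e1, e2]
  have i1 : ∀ e : En n, Integrable (fun z => v z * fderiv ℝ θ z e) := fun e =>
    cousin_integrable_mul hO hv.continuousOn (hθf e) (hθc e) ((hθts e).trans h3)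
  have i2 : ∀ e : En n, Integrable (fun z => fderiv ℝ v z e * θ z) := fun e =>
    cousin_integrable_mul hO (hvf e) h1.continuous h2 h3
  have a1 : ∫ z, v z * dbar j θ z =
      (1 / 2 : ℂ) * ((∫ z, v z * fderiv ℝ θ z (eb j)) +
        I * ∫ z, v z * fderiv ℝ θ z (I • eb j)) := by
    rw [← integral_const_mul, ← integral_add (i1 _) ((i1 _).const_mul I), ← integral_const_mul]
    refine integral_congr_ae (Eventually.of_forall fun z => ?_)
    simp only [dbar]
    ring
  have a2 : ∫ z, dbar j v z * θ z =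
      (1 / 2 : ℂ) * ((∫ z, fderiv ℝ v z (eb j) * θ z) +
        I * ∫ z, fderiv ℝ v z (I • eb j) * θ z) := by
    rw [← integral_const_mul, ← integral_add (i2 _) ((i2 _).const_mul I), ← integral_const_mul]
    refine integral_congr_ae (Eventually.of_forall fun z => ?_)
    simp only [dbar]
    ring
  rw [a1, a2, key, key]
  ring

/-- A locally integrable function times a continuous function compactly supported in the set is
integrable. -/
theorem cousin_integrable_loc {O : Set (En n)} (hO : IsOpen O) {u θ : En n → ℂ}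
    (hu : LocallyIntegrableOn u O) (hθ : Continuous θ) (hc : HasCompactSupport θ)
    (hs : tsupport θ ⊆ O) : Integrable (fun z => u z * θ z) := by
  have h1 : LocallyIntegrableOn (fun z => u z * θ z) O :=
    hu.mul_continuousOn hθ.continuousOn hO.isLocallyClosed
  have h2 := h1.integrableOn_compact_subset hs hc
  refine (integrableOn_iff_integrable_of_support_subset ?_).1 h2
  intro z hz
  rw [Function.mem_support] at hz
  exact subset_tsupport _ (right_ne_zero_of_mul hz)

theorem hor_cousin {Ω : Set (En n)} {φ ψ : En n → ℝ} (W : Wt Ω φ ψ) {Ua Ub : Set (En n)}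
    (ha : IsOpen Ua) (hb : IsOpen Ub) (hcov : Ω ⊆ Ua ∪ Ub) {v : En n → ℂ}
    (hv : ContDiffOn ℝ ∞ v (Ub ∩ Ω)) (hvh : DifferentiableOn ℂ v (Ua ∩ Ub ∩ Ω)) {B : ℝ}
    (hvB : ∀ z ∈ Ub ∩ Ω, ∀ k, ‖dbar k v z‖ ≤ B) :
    ∃ u : En n → ℂ, DifferentiableOn ℂ u (Ua ∩ Ω) ∧
      DifferentiableOn ℂ (fun z => u z - v z) (Ub ∩ Ω) := by
  classical
  have hΩ : IsOpen Ω := W.opn
  have hOa : IsOpen (Ua ∩ Ω) := ha.inter hΩ
  have hOb : IsOpen (Ub ∩ Ω) := hb.inter hΩ
  have hOab : IsOpen (Ua ∩ Ub ∩ Ω) := (ha.inter hb).inter hΩ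
  set α : Fin n → En n → ℂ := fun j => Ub.indicator (dbar j v) with hα
  have αb : ∀ j, ∀ z ∈ Ub, α j z = dbar j v z := fun j z hz => indicator_of_mem hz _
  have αa : ∀ j, ∀ z ∈ Ua ∩ Ω, α j z = 0 := by
    intro j z hz
    by_cases hzb : z ∈ Ub
    · rw [αb j z hzb]
      exact dbar_of_holo ((hvh z ⟨⟨hz.1, hzb⟩, hz.2⟩).differentiableAt
        (hOab.mem_nhds ⟨⟨hz.1, hzb⟩, hz.2⟩)) j
    · exact indicator_of_notMem hzb _
  have αbn : ∀ j, ∀ z ∈ Ub, α j =ᶠ[𝓝 z] dbar j v := fun j z hz =>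
    Filter.eventually_of_mem (hb.mem_nhds hz) fun w hw => αb j w hw
  have αan : ∀ j, ∀ z ∈ Ua ∩ Ω, α j =ᶠ[𝓝 z] fun _ => 0 := fun j z hz =>
    Filter.eventually_of_mem (hOa.mem_nhds hz) fun w hw => αa j w hw
  have αs : ∀ j, ContDiffOn ℝ ∞ (α j) Ω := by
    intro j z hz
    rcases hcov hz with hza | hzb
    · exact ((contDiffAt_const (c := (0 : ℂ))).congr_of_eventuallyEq
        (αan j z ⟨hza, hz⟩)).contDiffWithinAt
    · have := (contDiffOn_dbar hOb hv j).contDiffAt (hOb.mem_nhds ⟨hzb, hz⟩)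
      exact (this.congr_of_eventuallyEq (αbn j z hzb)).contDiffWithinAt
  have αB : ∀ j, ∀ z ∈ Ω, ‖α j z‖ ≤ max B 0 := by
    intro j z hz
    by_cases hzb : z ∈ Ub
    · rw [αb j z hzb]
      exact (hvB z ⟨hzb, hz⟩ j).trans (le_max_left _ _)
    · rw [show α j z = 0 from indicator_of_notMem hzb _, norm_zero]
      exact le_max_right _ _
  have αc : ∀ j k, ∀ z ∈ Ω, dbar j (α k) z = dbar k (α j) z := by
    intro j k z hz
    rcases hcov hz with hza | hzb
    · rw [dbar_congr (αan k z ⟨hza, hz⟩), dbar_congr (αan j z ⟨hza, hz⟩), dbar_const, dbar_const]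
    · rw [dbar_congr (αbn k z hzb), dbar_congr (αbn j z hzb)]
      exact dbar_comm ((hv.contDiffAt (hOb.mem_nhds ⟨hzb, hz⟩)).of_le ENat.LEInfty.out) j k
  obtain ⟨u₀, hu₀, hsol⟩ := hor_solve W αs αB αc
  -- the holomorphic function on `Ua ∩ Ω`
  have test_mono : ∀ {O : Set (En n)} (θ : En n → ℂ), O ⊆ Ω → IsTest O θ → IsTest Ω θ :=
    fun θ hO h => ⟨h.1, h.2.1, h.2.2.trans hO⟩
  have out : ∀ {O : Set (En n)} {θ : En n → ℂ}, IsTest O θ → ∀ z, z ∉ O → θ z = 0 := by
    intro O θ h z hz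
    by_contra hne
    exact hz (h.2.2 (subset_tsupport _ hne))
  have outd : ∀ {O : Set (En n)} {θ : En n → ℂ}, IsTest O θ → ∀ j z, z ∉ O →
      dbar j θ z = 0 := by
    intro O θ h j z hz
    by_contra hne
    exact hz (h.2.2 (tsupport_dbar_subset θ j (subset_tsupport _ hne)))
  have restr : ∀ {O : Set (En n)} {θ : En n → ℂ}, O ⊆ Ω → IsTest O θ → ∀ j,
      ∫ z in O, u₀ z * dbar j θ z = - ∫ z in O, α j z * θ z := by
    intro O θ hO h j
    have h1 : ∫ z in Ω, u₀ z * dbar j θ z = ∫ z in O, u₀ z * dbar j θ z := by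
      refine setIntegral_eq_of_subset_of_forall_sdiff_eq_zero hΩ.measurableSet hO ?_
      intro z hz
      rw [outd h j z hz.2, mul_zero]
    have h2 : ∫ z in Ω, α j z * θ z = ∫ z in O, α j z * θ z := by
      refine setIntegral_eq_of_subset_of_forall_sdiff_eq_zero hΩ.measurableSet hO ?_
      intro z hz
      rw [out h z hz.2, mul_zero]
    rw [← h1, ← h2]
    exact hsol θ (test_mono θ hO h) j
  obtain ⟨ga, hga, hgae⟩ := weyl hOa (hu₀.mono_set inter_subset_right) (by
    intro θ hθ j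
    rw [restr inter_subset_right hθ j, neg_eq_zero]
    refine setIntegral_eq_zero_of_forall_eq_zero ?_
    intro z hz
    rw [αa j z hz, zero_mul])
  have hvl : LocallyIntegrableOn v (Ub ∩ Ω) :=
    hv.continuousOn.locallyIntegrableOn hOb.measurableSet
  have hul : LocallyIntegrableOn u₀ (Ub ∩ Ω) := hu₀.mono_set inter_subset_right
  obtain ⟨gb, hgb, hgbe⟩ := weyl hOb (u := fun z => u₀ z - v z) (hul.sub hvl) (by
    intro θ hθ j
    have hc : Continuous (dbar j θ) := (contDiff_dbar hθ.1 j).continuous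
    have hs : tsupport (dbar j θ) ⊆ Ub ∩ Ω := (tsupport_dbar_subset θ j).trans hθ.2.2
    have hcs : HasCompactSupport (dbar j θ) :=
      hθ.2.1.of_isClosed_subset (isClosed_tsupport _) (tsupport_dbar_subset θ j)
    have i1 : Integrable (fun z => u₀ z * dbar j θ z) :=
      cousin_integrable_loc hOb hul hc hcs hs
    have i2 : Integrable (fun z => v z * dbar j θ z) :=
      cousin_integrable_loc hOb hvl hc hcs hs
    have h1 : ∫ z in Ub ∩ Ω, (u₀ z - v z) * dbar j θ z =
        (∫ z in Ub ∩ Ω, u₀ z * dbar j θ z) - ∫ z in Ub ∩ Ω, v z * dbar j θ z := by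
      rw [← integral_sub i1.integrableOn i2.integrableOn]
      refine integral_congr_ae (Eventually.of_forall fun z => ?_)
      simp only [sub_mul]
    rw [h1, restr inter_subset_right hθ j, cousin_ibp hOb hv hθ j, sub_neg_eq_add,
      neg_add_eq_zero]
    refine setIntegral_congr_fun hOb.measurableSet ?_
    intro z hz
    simp only [αb j z hz.1])
  refine ⟨fun z => if z ∈ Ua then ga z else gb z + v z, ?_, ?_⟩
  · refine hga.congr ?_
    intro z hz
    simp only [if_pos hz.1]
  · refine hgb.congr ?_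
    have hov : EqOn (fun z => ga z - v z) gb (Ua ∩ Ub ∩ Ω) := by
      refine Measure.eqOn_open_of_ae_eq (μ := (volume : Measure (En n))) ?_ hOab ?_ ?_
      · have s1 : Ua ∩ Ub ∩ Ω ⊆ Ua ∩ Ω := fun z hz => ⟨hz.1.1, hz.2⟩
        have s2 : Ua ∩ Ub ∩ Ω ⊆ Ub ∩ Ω := fun z hz => ⟨hz.1.2, hz.2⟩
        have r1 : (volume : Measure (En n)).restrict (Ua ∩ Ub ∩ Ω) ≤
            volume.restrict (Ua ∩ Ω) := Measure.restrict_mono s1 le_rfl
        have r2 : (volume : Measure (En n)).restrict (Ua ∩ Ub ∩ Ω) ≤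
            volume.restrict (Ub ∩ Ω) := Measure.restrict_mono s2 le_rfl
        filter_upwards [hgae.filter_mono (ae_mono r1), hgbe.filter_mono (ae_mono r2)]
          with z hz1 hz2
        rw [← hz1, hz2]
      · exact (hga.continuousOn.mono fun z (hz : z ∈ Ua ∩ Ub ∩ Ω) => ⟨hz.1.1, hz.2⟩).sub
          (hv.continuousOn.mono fun z (hz : z ∈ Ua ∩ Ub ∩ Ω) => ⟨hz.1.2, hz.2⟩)
      · exact hgb.continuousOn.mono fun z (hz : z ∈ Ua ∩ Ub ∩ Ω) => ⟨hz.1.2, hz.2⟩
    intro z hz
    by_cases hza : z ∈ Ua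
    · simp only [if_pos hza]
      exact hov ⟨⟨hza, hz.1⟩, hz.2⟩
    · simp only [if_neg hza]
      ring

end Pool.Agent.H8.FZ
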