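import Pool.Agent.H8.FZ.HorDefs

/-!
# FZ-WT: weights from an exhaustion

`e^ψ = C₂ (1+P)^4`, i.e. `ψ = 4 log(1+P) + log C₂`, `φ = K (1+P)^5`.
* cut-offs: `χ : ℝ → ℝ` smooth, `χ = 1` on (-∞,1], `0` on `[2,∞)`, `0 ≤ χ ≤ 1`, `|χ'| ≤ c`
  (e.g. `Real.smoothTransition (2 - t)`); `η_i z = χ(P z/(i+1))` on `Ω` and `0` off `Ω`: smooth on
  `ℂⁿ` with compact support in `Ω` because `{z ∈ Ω : P z ≤ 2(i+1)}` is compact;
  `delSq η_i ≤ c² delSq P/(i+1)² ≤ C₂ (1+P)^4` (`delSq P ≤ n ‖dP‖²`, `norm_del_le`,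
  `‖dP‖ ≤ C P²`). Near `z ∈ Ω`, `P < i + 1` for large `i`, so `η_i = 1` near `z`.
* `levi φ ≥ 5K(1+P)^4 levi P ≥ 5K (1+P)^4 ‖w‖²` (`levi_comp` with `g(t) = K(1+t)^5`, `g'' ≥ 0`).
* `delSq ψ = 16 delSq P/(1+P)² ≤ 16 n C² (1+P)²`. So the Levi condition holds for `K` large. `ψ ≤ φ`
  for `K` large.
-/

set_option autoImplicit false

noncomputable section

namespace Pool.Agent.H8.FZ

open Complex Metric MeasureTheory Set Filter Topology
open scoped ContDiff ComplexConjugate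

variable {n : ℕ}

theorem WtExh.delSq_comp {P : En n → ℝ} {z : En n} (hP : DifferentiableAt ℝ P z) {g : ℝ → ℝ}
    {g' : ℝ} (hg : HasDerivAt g g' (P z)) :
    delSq (fun x => g (P x)) z = g' ^ 2 * delSq P z := by
  have h1 : ∀ v, fderiv ℝ (fun x => ((g (P x) : ℝ) : ℂ)) z v =
      (g' : ℂ) * fderiv ℝ (fun x => ((P x : ℝ) : ℂ)) z v := by
    intro v
    have hPc : HasFDerivAt (fun x => ((P x : ℝ) : ℂ)) (Complex.ofRealCLM ∘L fderiv ℝ P z) z :=
      Complex.ofRealCLM.hasFDerivAt.comp z hP.hasFDerivAt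
    have hgc : HasFDerivAt (fun x => ((g (P x) : ℝ) : ℂ))
        (Complex.ofRealCLM ∘L (g' • fderiv ℝ P z)) z :=
      Complex.ofRealCLM.hasFDerivAt.comp z (hg.comp_hasFDerivAt z hP.hasFDerivAt)
    rw [hPc.fderiv, hgc.fderiv]
    simp
  unfold delSq
  rw [Finset.mul_sum]
  refine Finset.sum_congr rfl fun j _ => ?_
  have h2 : del j (fun x => ((g (P x) : ℝ) : ℂ)) z =
      (g' : ℂ) * del j (fun x => ((P x : ℝ) : ℂ)) z := by
    unfold del
    rw [h1, h1]
    ring
  rw [h2, norm_mul, mul_pow, Complex.norm_real, Real.norm_eq_abs, sq_abs]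

theorem WtExh.delSq_le {P : En n → ℝ} {z : En n} (hP : DifferentiableAt ℝ P z) :
    delSq P z ≤ n * ‖fderiv ℝ P z‖ ^ 2 := by
  have hPc : HasFDerivAt (fun x => ((P x : ℝ) : ℂ)) (Complex.ofRealCLM ∘L fderiv ℝ P z) z :=
    Complex.ofRealCLM.hasFDerivAt.comp z hP.hasFDerivAt
  have h1 : ‖fderiv ℝ (fun x => ((P x : ℝ) : ℂ)) z‖ ≤ ‖fderiv ℝ P z‖ := by
    rw [hPc.fderiv]
    refine (ContinuousLinearMap.opNorm_comp_le _ _).trans ?_
    rw [Complex.ofRealCLM_norm, one_mul]
  unfold delSq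
  calc ∑ j : Fin n, ‖del j (fun x => ((P x : ℝ) : ℂ)) z‖ ^ 2
      ≤ ∑ _j : Fin n, ‖fderiv ℝ P z‖ ^ 2 := by
        refine Finset.sum_le_sum fun j _ => ?_
        exact pow_le_pow_left₀ (norm_nonneg _) ((norm_del_le _ z j).trans h1) 2
    _ = n * ‖fderiv ℝ P z‖ ^ 2 := by simp

theorem WtExh.delSq_nonneg (P : En n → ℝ) (z : En n) : 0 ≤ delSq P z :=
  Finset.sum_nonneg fun _ _ => by positivity

/-- a smooth cut-off on the line -/
theorem WtExh.exists_chi : ∃ (χ : ℝ → ℝ) (c : ℝ), ContDiff ℝ ∞ χ ∧ (∀ t, 0 ≤ χ t ∧ χ t ≤ 1) ∧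
    (∀ t, t ≤ 1 → χ t = 1) ∧ (∀ t, 2 ≤ t → χ t = 0) ∧ 0 ≤ c ∧ ∀ t, |deriv χ t| ≤ c := by
  set χ : ℝ → ℝ := fun t => Real.smoothTransition (2 - t) with hχ
  have hs : ContDiff ℝ ∞ χ := Real.smoothTransition.contDiff.comp (contDiff_const.sub contDiff_id)
  have h1 : ∀ t, t ≤ 1 → χ t = 1 := fun t ht =>
    Real.smoothTransition.one_of_one_le (by linarith)
  have h2 : ∀ t, 2 ≤ t → χ t = 0 := fun t ht =>
    Real.smoothTransition.zero_of_nonpos (by linarith)
  have hc : Continuous (deriv χ) := hs.continuous_deriv (by simp)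
  obtain ⟨c, hc'⟩ := (isCompact_Icc (a := (1 : ℝ)) (b := 2)).exists_bound_of_continuousOn
    hc.continuousOn
  refine ⟨χ, max c 0, hs, fun t => ⟨Real.smoothTransition.nonneg _, Real.smoothTransition.le_one _⟩,
    h1, h2, le_max_right _ _, ?_⟩
  intro t
  by_cases ht1 : t < 1
  · have : χ =ᶠ[𝓝 t] fun _ => 1 := by
      filter_upwards [Iio_mem_nhds ht1] with u hu
      exact h1 u (le_of_lt hu)
    rw [this.deriv_eq, deriv_const, abs_zero]
    exact le_max_right _ _
  · by_cases ht2 : 2 < t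
    · have : χ =ᶠ[𝓝 t] fun _ => 0 := by
        filter_upwards [Ioi_mem_nhds ht2] with u hu
        exact h2 u (le_of_lt hu)
      rw [this.deriv_eq, deriv_const, abs_zero]
      exact le_max_right _ _
    · exact (hc' t ⟨not_lt.1 ht1, not_lt.1 ht2⟩).trans (le_max_left _ _)

theorem wt_of_exh {Ω : Set (En n)} {P : En n → ℝ} {C : ℝ} (hΩ : IsOpen Ω)
    (hb : Bornology.IsBounded Ω) (hP : ContDiffOn ℝ ∞ P Ω) (hP1 : ∀ z ∈ Ω, 1 ≤ P z)
    (hlevi : ∀ z ∈ Ω, ∀ w : En n, ‖w‖ ^ 2 ≤ levi P z w)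
    (hgrad : ∀ z ∈ Ω, ‖fderiv ℝ P z‖ ≤ C * P z ^ 2)
    (hexh : ∀ t : ℝ, IsCompact {z | z ∈ Ω ∧ P z ≤ t}) :
    ∃ φ ψ : En n → ℝ, Wt Ω φ ψ := by
  obtain ⟨χ, c, hχ, hχ01, hχ1, hχ2, hc0, hχc⟩ := WtExh.exists_chi
  set C₂ : ℝ := c ^ 2 * (n * C ^ 2) + 1 with hC₂
  have hC₂1 : 1 ≤ C₂ := by
    have : 0 ≤ c ^ 2 * (n * C ^ 2) := by positivity
    linarith
  set K : ℝ := 4 + C₂ + 16 * (n * C ^ 2) with hK
  have hK0 : 0 ≤ K := by positivity
  have hPd : ∀ z ∈ Ω, ContDiffAt ℝ ∞ P z := fun z hz => hP.contDiffAt (hΩ.mem_nhds hz)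
  have hPdd : ∀ z ∈ Ω, DifferentiableAt ℝ P z := fun z hz =>
    (hPd z hz).differentiableAt (by simp)
  have hdel : ∀ z ∈ Ω, delSq P z ≤ n * C ^ 2 * P z ^ 4 := by
    intro z hz
    refine (WtExh.delSq_le (hPdd z hz)).trans ?_
    have h1 := pow_le_pow_left₀ (norm_nonneg _) (hgrad z hz) 2
    calc (n : ℝ) * ‖fderiv ℝ P z‖ ^ 2 ≤ n * (C * P z ^ 2) ^ 2 := by gcongr
      _ = n * C ^ 2 * P z ^ 4 := by ring
  refine ⟨fun z => K * (1 + P z) ^ 5, fun z => 4 * Real.log (1 + P z) + Real.log C₂, ?_⟩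
  have hexp : ∀ z ∈ Ω, Real.exp (4 * Real.log (1 + P z) + Real.log C₂) = C₂ * (1 + P z) ^ 4 := by
    intro z hz
    have h1 : 0 < 1 + P z := by linarith [hP1 z hz]
    rw [Real.exp_add, Real.exp_log (by linarith)]
    have : (4 : ℝ) * Real.log (1 + P z) = Real.log ((1 + P z) ^ 4) := by
      rw [Real.log_pow]
      norm_num
    rw [this, Real.exp_log (by positivity), mul_comm]
  refine
    { opn := hΩ
      bdd := hb
      hφ := ?_
      hψ := ?_
      le := ?_
      levi := ?_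
      cut := ?_ }
  · exact contDiffOn_const.mul ((contDiffOn_const.add hP).pow 5)
  · refine (contDiffOn_const.mul ((contDiffOn_const.add hP).log ?_)).add contDiffOn_const
    intro z hz
    have := hP1 z hz
    positivity
  · intro z hz
    have h1 : 1 ≤ P z := hP1 z hz
    have h2 : Real.log (1 + P z) ≤ 1 + P z := by
      have := Real.log_le_sub_one_of_pos (show 0 < 1 + P z by linarith)
      linarith
    have h3 : Real.log C₂ ≤ C₂ := by
      have := Real.log_le_sub_one_of_pos (show 0 < C₂ by linarith)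
      linarith
    have h4 : (1 : ℝ) + P z ≤ (1 + P z) ^ 5 := by
      have := pow_le_pow_right₀ (show (1 : ℝ) ≤ 1 + P z by linarith) (show 1 ≤ 5 by norm_num)
      simpa using this
    have h5 : (1 : ℝ) ≤ (1 + P z) ^ 5 := by linarith
    have h6 : 0 ≤ (n : ℝ) * C ^ 2 := by positivity
    calc 4 * Real.log (1 + P z) + Real.log C₂ ≤ 4 * (1 + P z) ^ 5 + C₂ * (1 + P z) ^ 5 := by
          have : C₂ ≤ C₂ * (1 + P z) ^ 5 := le_mul_of_one_le_right (by linarith) h5
          linarith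
      _ = (4 + C₂) * (1 + P z) ^ 5 := by ring
      _ ≤ K * (1 + P z) ^ 5 := by
          gcongr
          rw [hK]
          linarith
  · intro z hz w
    have h1 : 1 ≤ P z := hP1 z hz
    have hP2 : ContDiffAt ℝ 2 P z := (hPd z hz).of_le
      (show ((2 : ℕ∞) : WithTop ℕ∞) ≤ ((⊤ : ℕ∞) : WithTop ℕ∞) from WithTop.coe_le_coe.2 le_top)
    have hg : ∀ t : ℝ, HasDerivAt (fun t : ℝ => K * (1 + t) ^ 5) (5 * K * (1 + t) ^ 4) t := by
      intro t
      have := (((hasDerivAt_id t).const_add 1).pow 5).const_mul K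
      exact this.congr_deriv (by simp; ring)
    have hg' : ∀ t : ℝ, HasDerivAt (fun t : ℝ => 5 * K * (1 + t) ^ 4) (20 * K * (1 + t) ^ 3) t := by
      intro t
      have := (((hasDerivAt_id t).const_add 1).pow 4).const_mul (5 * K)
      exact this.congr_deriv (by simp; ring)
    have hd1 : deriv (fun t : ℝ => K * (1 + t) ^ 5) = fun t => 5 * K * (1 + t) ^ 4 :=
      funext fun t => (hg t).deriv
    have hlc := levi_comp hP2 (g := fun t : ℝ => K * (1 + t) ^ 5)
      (by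
        apply ContDiff.contDiffAt
        fun_prop) w
    rw [hd1, (hg' (P z)).deriv] at hlc
    rw [hlc]
    have hψd : delSq (fun z => 4 * Real.log (1 + P z) + Real.log C₂) z =
        (4 * (1 + P z)⁻¹) ^ 2 * delSq P z := by
      refine WtExh.delSq_comp (hPdd z hz) (g := fun t => 4 * Real.log (1 + t) + Real.log C₂) ?_
      have h2 : HasDerivAt (fun t : ℝ => 1 + t) 1 (P z) := (hasDerivAt_id (P z)).const_add 1
      have h3 := ((h2.log (by linarith)).const_mul 4).add_const (Real.log C₂)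
      exact h3.congr_deriv (by rw [one_div])
    rw [hψd, hexp z hz]
    have h7 : (4 * (1 + P z)⁻¹) ^ 2 * delSq P z ≤ 16 * (n * C ^ 2) * (1 + P z) ^ 4 := by
      have h8 : (4 * (1 + P z)⁻¹) ^ 2 ≤ 16 := by
        have : (1 + P z)⁻¹ ≤ 1 := inv_le_one_of_one_le₀ (by linarith)
        have h0 : 0 ≤ (1 + P z)⁻¹ := by positivity
        nlinarith
      calc (4 * (1 + P z)⁻¹) ^ 2 * delSq P z ≤ 16 * (n * C ^ 2 * P z ^ 4) :=
            mul_le_mul h8 (hdel z hz) (WtExh.delSq_nonneg _ _) (by norm_num)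
        _ ≤ 16 * (n * C ^ 2 * (1 + P z) ^ 4) := by
            gcongr
            linarith
        _ = 16 * (n * C ^ 2) * (1 + P z) ^ 4 := by ring
    have h9 : 0 ≤ (n : ℝ) * C ^ 2 := by positivity
    have hw := hlevi z hz w
    have h10 : 0 ≤ ‖w‖ ^ 2 := by positivity
    have h11 : 0 ≤ (1 + P z) ^ 4 := by positivity
    have h12 : 2 * ((4 * (1 + P z)⁻¹) ^ 2 * delSq P z + C₂ * (1 + P z) ^ 4) ≤
        5 * K * (1 + P z) ^ 4 := by
      rw [hK]
      nlinarith
    have h13 : 5 * K * (1 + P z) ^ 4 * ‖w‖ ^ 2 ≤ 5 * K * (1 + P z) ^ 4 * levi P z w := by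
      gcongr
    have h14 : 0 ≤ 20 * K * (1 + P z) ^ 3 * (1 / 4) *
        (fderiv ℝ P z w ^ 2 + fderiv ℝ P z (I • w) ^ 2) := by positivity
    calc 2 * ((4 * (1 + P z)⁻¹) ^ 2 * delSq P z + C₂ * (1 + P z) ^ 4) * ‖w‖ ^ 2
        ≤ 5 * K * (1 + P z) ^ 4 * ‖w‖ ^ 2 := by gcongr
      _ ≤ _ := by linarith
  · have hcpt : ∀ i : ℕ, IsCompact {z | z ∈ Ω ∧ P z ≤ 2 * (i + 1)} := fun i => hexh _
    have hzero : ∀ (i : ℕ) (z : En n), z ∉ {z | z ∈ Ω ∧ P z ≤ 2 * (i + 1)} →
        Ω.indicator (fun z => χ (P z / (i + 1))) z = 0 := by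
      intro i z hz
      by_cases hzΩ : z ∈ Ω
      · rw [indicator_of_mem hzΩ]
        apply hχ2
        have : ¬ P z ≤ 2 * (i + 1) := fun hle => hz ⟨hzΩ, hle⟩
        rw [le_div_iff₀ (by positivity)]
        linarith
      · rw [indicator_of_notMem hzΩ]
    have hsupp : ∀ i : ℕ, tsupport (Ω.indicator (fun z => χ (P z / (i + 1)))) ⊆
        {z | z ∈ Ω ∧ P z ≤ 2 * (i + 1)} := by
      intro i
      refine closure_minimal ?_ (hcpt i).isClosed
      intro z hz
      by_contra hcon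
      exact hz (hzero i z hcon)
    refine ⟨fun i => Ω.indicator (fun z => χ (P z / (i + 1))), ?_, ?_⟩
    · intro i
      refine ⟨?_, HasCompactSupport.intro (hcpt i) (hzero i), ?_, ?_, ?_⟩
      · rw [contDiff_iff_contDiffAt]
        intro z
        by_cases hz : z ∈ {z | z ∈ Ω ∧ P z ≤ 2 * (i + 1)}
        · have hzΩ : z ∈ Ω := hz.1
          have h1 : ContDiffAt ℝ ∞ (fun z => χ (P z / (i + 1))) z :=
            hχ.contDiffAt.comp z ((hPd z hzΩ).div_const _)
          refine h1.congr_of_eventuallyEq ?_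
          filter_upwards [hΩ.mem_nhds hzΩ] with y hy
          rw [indicator_of_mem hy]
        · refine (contDiffAt_const (c := (0 : ℝ))).congr_of_eventuallyEq ?_
          filter_upwards [(hcpt i).isClosed.isOpen_compl.mem_nhds hz] with y hy
          exact hzero i y hy
      · exact (hsupp i).trans fun z hz => hz.1
      · intro z
        change 0 ≤ Ω.indicator (fun z => χ (P z / (i + 1))) z ∧
          Ω.indicator (fun z => χ (P z / (i + 1))) z ≤ 1
        by_cases hz : z ∈ Ω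
        · rw [indicator_of_mem hz]
          exact hχ01 _
        · rw [indicator_of_notMem hz]
          exact ⟨le_rfl, zero_le_one⟩
      · intro z hz
        rw [hexp z hz]
        have hcong : delSq (Ω.indicator (fun z => χ (P z / (i + 1)))) z =
            delSq (fun z => χ (P z / (i + 1))) z := by
          unfold delSq
          refine Finset.sum_congr rfl fun j _ => ?_
          congr 2
          unfold del
          have hev : (fun x => ((Ω.indicator (fun z => χ (P z / (i + 1))) x : ℝ) : ℂ)) =ᶠ[𝓝 z]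
              fun x => ((χ (P x / (i + 1)) : ℝ) : ℂ) := by
            filter_upwards [hΩ.mem_nhds hz] with y hy
            rw [indicator_of_mem hy]
          rw [hev.fderiv_eq]
        rw [hcong, WtExh.delSq_comp (hPdd z hz) (g := fun t => χ (t / (i + 1)))
          (g' := deriv χ (P z / (i + 1)) * (1 / (i + 1)))]
        · have h1 : 1 ≤ P z := hP1 z hz
          have h2 : (deriv χ (P z / (i + 1)) * (1 / ((i : ℝ) + 1))) ^ 2 ≤ c ^ 2 := by
            rw [← sq_abs, abs_mul]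
            have h3 : |(1 / ((i : ℝ) + 1))| ≤ 1 := by
              rw [abs_of_nonneg (by positivity)]
              rw [div_le_one (by positivity)]
              have : (0 : ℝ) ≤ (i : ℝ) := Nat.cast_nonneg i
              linarith
            have h4 : |deriv χ (P z / (i + 1))| * |(1 / ((i : ℝ) + 1))| ≤ c * 1 :=
              mul_le_mul (hχc _) h3 (abs_nonneg _) hc0
            rw [mul_one] at h4
            exact pow_le_pow_left₀ (by positivity) h4 2
          calc (deriv χ (P z / (i + 1)) * (1 / ((i : ℝ) + 1))) ^ 2 * delSq P z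
              ≤ c ^ 2 * (n * C ^ 2 * P z ^ 4) :=
                mul_le_mul h2 (hdel z hz) (WtExh.delSq_nonneg _ _) (by positivity)
            _ ≤ c ^ 2 * (n * C ^ 2 * (1 + P z) ^ 4) := by
                gcongr
                linarith
            _ ≤ C₂ * (1 + P z) ^ 4 := by
                rw [hC₂]
                have : 0 ≤ (1 + P z) ^ 4 := by positivity
                nlinarith
        · have h5 : HasDerivAt (fun t : ℝ => t / ((i : ℝ) + 1)) (1 / ((i : ℝ) + 1)) (P z) :=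
            (hasDerivAt_id (P z)).div_const _
          exact HasDerivAt.comp (P z) ((hχ.differentiable (by simp)) _).hasDerivAt h5
    · intro z hz
      obtain ⟨i0, hi0⟩ := exists_nat_gt (P z)
      filter_upwards [eventually_ge_atTop i0] with i hi
      have hlt : P z < i + 1 := by
        have : (i0 : ℝ) ≤ i := Nat.cast_le.2 hi
        linarith
      have hPc : ContinuousAt P z := (hPdd z hz).continuousAt
      filter_upwards [hΩ.mem_nhds hz, hPc.eventually (gt_mem_nhds hlt)] with y hy hy2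
      rw [indicator_of_mem hy]
      apply hχ1
      rw [div_le_one (by positivity)]
      exact hy2.le

end Pool.Agent.H8.FZ
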