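import Pool.Agent.H8.FZ.Exh
import Pool.Agent.H8.FZ.WtExh
import Pool.Agent.H8.FZ.HorCousin

/-!
# The Cousin problem on small neighbourhoods of `closure D₀` (assembled from the jobs)
-/

set_option autoImplicit false

noncomputable section

namespace Pool.Agent.H8.FZ

open Complex Metric MeasureTheory Set Filter Topology
open scoped ContDiff ComplexConjugate

variable {n : ℕ}

theorem cousin_nbhd {D₀ : Set (En n)} {ρ : En n → ℝ} (hD : Dom D₀ ρ) {O : Set (En n)}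
    (hO : IsOpen O) (hDO : closure D₀ ⊆ O) :
    ∃ Ω : Set (En n), IsOpen Ω ∧ closure D₀ ⊆ Ω ∧ Ω ⊆ O ∧
      ∀ (Ua Ub : Set (En n)) (v : En n → ℂ) (B : ℝ), IsOpen Ua → IsOpen Ub → Ω ⊆ Ua ∪ Ub →
        ContDiffOn ℝ ∞ v (Ub ∩ Ω) → DifferentiableOn ℂ v (Ua ∩ Ub ∩ Ω) →
        (∀ z ∈ Ub ∩ Ω, ∀ k, ‖dbar k v z‖ ≤ B) →
        ∃ u : En n → ℂ, DifferentiableOn ℂ u (Ua ∩ Ω) ∧
          DifferentiableOn ℂ (fun z => u z - v z) (Ub ∩ Ω) := by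
  obtain ⟨Ω, P, C, h1, h2, h3, h4, h5, h6, h7, h8, h9⟩ := exists_exh hD hO hDO
  obtain ⟨φ, ψ, W⟩ := wt_of_exh h1 h2 h5 h6 h7 h8 h9
  refine ⟨Ω, h1, h3, h4, ?_⟩
  intro Ua Ub v B ha hb hcov hv hvh hvB
  exact hor_cousin W ha hb hcov hv hvh hvB

end Pool.Agent.H8.FZ
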