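import Pool.Agent.H8.FZ.LBasic
import Pool.Agent.H8.FZ.Holo

/-!
# FZ-DECAY: flatness in flattened coordinates

Claim: for `x ∈ S`, `‖x‖ < ε/2`, `e ∈ F`: `‖f(Ψ x)‖ ≤ C_k ‖x - e‖^k`.

Fix `k`. By induction on `i ≤ k`: there is `C` with
`‖iteratedFDeriv ℝ (k - i) f (Ψ x)‖ ≤ C ‖x - e‖^i` for all such `x, e`. `i = 0`: the jet `g_k` is
continuous on the compact set `closure D₀`, hence bounded. Step: for `t ∈ (0,1]` the point
`x_t = e + t(x - e)` is in `S` (`r` is convex on the ball, `r e = 0`, `r x < 0`; e.g. from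
`r_lower` at `x_t`: or convexity of `r` along the segment) and `‖x_t‖ < ε/2`, so `Ψ x_t ∈ D₀`; the
function `φ(t) = iteratedFDeriv ℝ (k-i-1) f (Ψ x_t)` tends to `g_{k-i-1}(Ψ e) = 0` as `t → 0`, and
`‖φ'(t)‖ ≤ ‖iteratedFDeriv ℝ (k-i) f (Ψ x_t)‖ · 2‖x - e‖ ≤ 2 C ‖x - e‖^{i+1}` (`‖DΨ‖ ≤ 2` on the ball
from the Lipschitz bound; `f` is `C^∞` on `D₀` by `holo_contDiffOn_real`;
`iteratedFDeriv_succ_eq_comp_left`/`norm_fderiv_iteratedFDeriv`). So
`‖φ(1)‖ ≤ 2C‖x-e‖^{i+1}` (mean value inequality on `[t₀,1]`, `t₀ → 0`). For `k - i = 0`,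
`iteratedFDeriv ℝ 0 f` has norm `‖f‖` (`norm_iteratedFDeriv_zero`).
Finally take `e ∈ F` with `‖x - e‖ ≤ 2 infDist x F` (`F` is closed and nonempty, `infDist x F > 0`; or
the infimum is attained).
-/

set_option autoImplicit false

noncomputable section

namespace Pool.Agent.H8.FZ

open Complex Metric MeasureTheory Set Filter Topology
open scoped ContDiff ComplexConjugate

variable {n : ℕ}

/-- points of the segment from `e` to `x` are in `S` -/
theorem seg_mem_S (D : LData n) {x e : En n} (hx : x ∈ D.S) (hx2 : ‖x‖ < D.ε / 2)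
    (he : ‖e‖ ≤ D.ε / 8) (hre : D.r e = 0) {t : ℝ} (ht0 : 0 < t) (ht1 : t ≤ 1) :
    e + t • (x - e) ∈ D.S ∧ ‖e + t • (x - e)‖ < D.ε / 2 := by
  have hε := D.hε
  have hn : ‖e + t • (x - e)‖ < D.ε / 2 := by
    have h1 : e + t • (x - e) = (1 - t) • e + t • x := by
      rw [smul_sub, sub_smul, one_smul]; abel
    rw [h1]
    have h2 : ‖(1 - t) • e‖ ≤ (1 - t) * (D.ε / 8) := by
      rw [norm_smul, Real.norm_of_nonneg (by linarith)]
      exact mul_le_mul_of_nonneg_left he (by linarith)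
    have h3 : ‖t • x‖ < t * (D.ε / 2) := by
      rw [norm_smul, Real.norm_of_nonneg ht0.le]
      exact mul_lt_mul_of_pos_left hx2 ht0
    have h4 : (1 - t) * (D.ε / 8) ≤ (1 - t) * (D.ε / 2) :=
      mul_le_mul_of_nonneg_left (by linarith) (by linarith)
    calc ‖(1 - t) • e + t • x‖ ≤ ‖(1 - t) • e‖ + ‖t • x‖ := norm_add_le _ _
      _ < (1 - t) * (D.ε / 8) + t * (D.ε / 2) := by linarith
      _ ≤ D.ε / 2 := by linarith
  have hb : e + t • (x - e) ∈ ball (0 : En n) D.ε := by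
    rw [mem_ball_zero_iff]; linarith
  have hxb : x ∈ ball (0 : En n) D.ε := hx.1
  have heb : e ∈ ball (0 : En n) D.ε := by
    rw [mem_ball_zero_iff]; linarith
  refine ⟨⟨hb, ?_⟩, hn⟩
  set y := e + t • (x - e) with hy
  have l1 := D.r_lower hb heb
  have l2 := D.r_lower hb hxb
  have hye : e - y = (-t) • (x - e) := by rw [hy, neg_smul]; abel
  have hyx : x - y = (1 - t) • (x - e) := by
    rw [hy, sub_smul, one_smul]; abel
  have d1 : fderiv ℝ D.r y (e - y) = (-t) * fderiv ℝ D.r y (x - e) := by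
    rw [hye, map_smul, smul_eq_mul]
  have d2 : fderiv ℝ D.r y (x - y) = (1 - t) * fderiv ℝ D.r y (x - e) := by
    rw [hyx, map_smul, smul_eq_mul]
  have hrx : D.r x < 0 := hx.2
  have hc := D.hc
  have q1 : 0 ≤ D.c / 2 * ‖e - y‖ ^ 2 := by positivity
  have q2 : 0 ≤ D.c / 2 * ‖x - y‖ ^ 2 := by positivity
  rw [d1, hre] at l1
  rw [d2] at l2
  have m1 : (1 - t) * (D.r y + -t * fderiv ℝ D.r y (x - e)) ≤ 0 :=
    mul_nonpos_of_nonneg_of_nonpos (by linarith) (by linarith)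
  have m2 : t * (D.r y + (1 - t) * fderiv ℝ D.r y (x - e)) ≤ t * D.r x :=
    mul_le_mul_of_nonneg_left (by linarith) ht0.le
  have m3 : t * D.r x < 0 := mul_neg_of_pos_of_neg ht0 hrx
  have m4 : D.r y = (1 - t) * (D.r y + -t * fderiv ℝ D.r y (x - e)) +
      t * (D.r y + (1 - t) * fderiv ℝ D.r y (x - e)) := by ring
  show D.r y < 0
  linarith

/-- the inductive statement -/
theorem decay_aux {D₀ : Set (En n)} (hDo : IsOpen D₀) (hDb : Bornology.IsBounded D₀)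
    {f : En n → ℂ} {E : Set (En n)} (hf : FlatOn D₀ f E) (D : LData n) {Ψ : En n → En n}
    (hΨ : Differentiable ℂ Ψ)
    (hΨL : ∀ x ∈ ball (0 : En n) D.ε, ∀ y ∈ ball (0 : En n) D.ε, ‖Ψ x - Ψ y‖ ≤ 2 * ‖x - y‖)
    (hS : ∀ x ∈ ball (0 : En n) D.ε, D.r x < 0 → Ψ x ∈ D₀) {F : Set (En n)}
    (hFb : F ⊆ closedBall 0 (D.ε / 8))
    (hFE : ∀ x ∈ F, Ψ x ∈ E ∧ Ψ x ∈ closure D₀ ∧ D.r x = 0) (i : ℕ) :
    ∀ j : ℕ, ∃ C : ℝ, 0 ≤ C ∧ ∀ x ∈ D.S, ‖x‖ < D.ε / 2 → ∀ e ∈ F,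
      ‖iteratedFDeriv ℝ j f (Ψ x)‖ ≤ C * ‖x - e‖ ^ i := by
  have hsm : ContDiffOn ℝ ∞ f D₀ := holo_contDiffOn_real hDo hf.holo
  have hΨR : Differentiable ℝ Ψ := hΨ.restrictScalars ℝ
  induction i with
  | zero =>
    intro j
    obtain ⟨g, gc, gD, -⟩ := hf.jets j
    have hcomp : IsCompact (closure D₀) := hDb.isCompact_closure
    obtain ⟨C, hC⟩ := hcomp.exists_bound_of_continuousOn gc
    refine ⟨max C 0, le_max_right _ _, fun x hx _ e _ => ?_⟩
    have hx' : Ψ x ∈ D₀ := hS x hx.1 hx.2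
    rw [gD _ hx', pow_zero, mul_one]
    exact (hC _ (subset_closure hx')).trans (le_max_left _ _)
  | succ i ih =>
    intro j
    obtain ⟨C, hC0, hC⟩ := ih (j + 1)
    obtain ⟨g, gc, gD, gE⟩ := hf.jets j
    refine ⟨2 * C, by positivity, fun x hx hx2 e he => ?_⟩
    have hε := D.hε
    have heb : ‖e‖ ≤ D.ε / 8 := mem_closedBall_zero_iff.1 (hFb he)
    obtain ⟨heE, hecl, hre⟩ := hFE e he
    -- the point at parameter `1 - s`
    set y : ℝ → En n := fun s => e + (1 - s) • (x - e) with hy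
    have hyS : ∀ s : ℝ, 0 ≤ s → s < 1 → y s ∈ D.S ∧ ‖y s‖ < D.ε / 2 := fun s h0 h1 =>
      seg_mem_S D hx hx2 heb hre (by linarith) (by linarith)
    have hy1 : y 1 = e := by simp [hy]
    have hy0 : y 0 = x := by simp [hy]
    have hyc : Continuous y := by
      rw [hy]; fun_prop
    have hmem : ∀ s ∈ Icc (0 : ℝ) 1, Ψ (y s) ∈ closure D₀ := by
      intro s hs
      rcases eq_or_lt_of_le hs.2 with h | h
      · rw [h, hy1]; exact hecl
      · exact subset_closure (hS _ (hyS s hs.1 h).1.1 (hyS s hs.1 h).1.2)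
    have hcont : ContinuousOn (fun s => g (Ψ (y s))) (Icc 0 1) :=
      gc.comp ((hΨR.continuous.comp hyc).continuousOn) hmem
    have hdery : ∀ s, HasDerivAt y (-(x - e)) s := by
      intro s
      have h1 : HasDerivAt (fun s : ℝ => 1 - s) (-1) s := by
        simpa using (hasDerivAt_id s).const_sub 1
      have h2 := (h1.smul_const (x - e)).const_add e
      simpa [hy] using h2
    have hder : ∀ s ∈ Ico (0 : ℝ) 1, HasDerivWithinAt (fun s => g (Ψ (y s)))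
        (fderiv ℝ (iteratedFDeriv ℝ j f) (Ψ (y s)) (fderiv ℝ Ψ (y s) (-(x - e)))) (Ici s) s := by
      intro s hs
      have hin : Ψ (y s) ∈ D₀ := hS _ (hyS s hs.1 hs.2).1.1 (hyS s hs.1 hs.2).1.2
      have hat : ContDiffAt ℝ ∞ f (Ψ (y s)) := hsm.contDiffAt (hDo.mem_nhds hin)
      have hat1 : ContDiffAt ℝ 1 (iteratedFDeriv ℝ j f) (Ψ (y s)) :=
        hat.iteratedFDeriv_right (by exact_mod_cast le_top)
      have hd : HasFDerivAt (iteratedFDeriv ℝ j f) (fderiv ℝ (iteratedFDeriv ℝ j f) (Ψ (y s)))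
          (Ψ (y s)) := (hat1.differentiableAt one_ne_zero).hasFDerivAt
      have hΨd : HasFDerivAt Ψ (fderiv ℝ Ψ (y s)) (y s) := (hΨR _).hasFDerivAt
      have hc2 : HasDerivAt (fun s => Ψ (y s)) (fderiv ℝ Ψ (y s) (-(x - e))) s :=
        hΨd.comp_hasDerivAt s (hdery s)
      have hc : HasDerivAt (fun s => iteratedFDeriv ℝ j f (Ψ (y s)))
          (fderiv ℝ (iteratedFDeriv ℝ j f) (Ψ (y s)) (fderiv ℝ Ψ (y s) (-(x - e)))) s :=
        hd.comp_hasDerivAt s hc2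
      have hev : (fun s => g (Ψ (y s))) =ᶠ[𝓝 s] (fun s => iteratedFDeriv ℝ j f (Ψ (y s))) := by
        have : ∀ᶠ u in 𝓝 s, Ψ (y u) ∈ D₀ :=
          (hΨR.continuous.comp hyc).continuousAt.eventually (hDo.mem_nhds hin)
        filter_upwards [this] with u hu
        exact (gD _ hu).symm
      exact (hc.congr_of_eventuallyEq hev).hasDerivWithinAt
    have hbound : ∀ s ∈ Ico (0 : ℝ) 1,
        ‖fderiv ℝ (iteratedFDeriv ℝ j f) (Ψ (y s)) (fderiv ℝ Ψ (y s) (-(x - e)))‖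
          ≤ 2 * C * ‖x - e‖ ^ (i + 1) := by
      intro s hs
      obtain ⟨hyS1, hyS2⟩ := hyS s hs.1 hs.2
      have h1 : ‖fderiv ℝ (iteratedFDeriv ℝ j f) (Ψ (y s))‖ ≤ C * ‖x - e‖ ^ i := by
        rw [norm_fderiv_iteratedFDeriv]
        refine (hC (y s) hyS1 hyS2 e he).trans ?_
        have : ‖y s - e‖ ≤ ‖x - e‖ := by
          have : y s - e = (1 - s) • (x - e) := by
            rw [hy]; exact add_sub_cancel_left _ _
          rw [this, norm_smul, Real.norm_of_nonneg (by linarith [hs.2])]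
          exact mul_le_of_le_one_left (norm_nonneg _) (by linarith [hs.1])
        gcongr
      have h2 : ‖fderiv ℝ Ψ (y s)‖ ≤ 2 := by
        refine (hΨR (y s)).hasFDerivAt.le_of_lip' (by norm_num) ?_
        have : ∀ᶠ z in 𝓝 (y s), z ∈ ball (0 : En n) D.ε := isOpen_ball.mem_nhds hyS1.1
        filter_upwards [this] with z hz
        exact hΨL z hz (y s) hyS1.1
      calc ‖fderiv ℝ (iteratedFDeriv ℝ j f) (Ψ (y s)) (fderiv ℝ Ψ (y s) (-(x - e)))‖
          ≤ ‖fderiv ℝ (iteratedFDeriv ℝ j f) (Ψ (y s))‖ * ‖fderiv ℝ Ψ (y s) (-(x - e))‖ :=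
            ContinuousLinearMap.le_opNorm _ _
        _ ≤ (C * ‖x - e‖ ^ i) * (2 * ‖x - e‖) := by
            refine mul_le_mul h1 ?_ (norm_nonneg _) (by positivity)
            refine (ContinuousLinearMap.le_opNorm _ _).trans ?_
            rw [norm_neg]
            exact mul_le_mul_of_nonneg_right h2 (norm_nonneg _)
        _ = 2 * C * ‖x - e‖ ^ (i + 1) := by ring
    have hfin := norm_image_sub_le_of_norm_deriv_right_le_segment hcont hder hbound 1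
      (by constructor <;> norm_num)
    have hxD : Ψ x ∈ D₀ := hS x hx.1 hx.2
    simp only [hy1, hy0, gE _ heE, zero_sub, norm_neg, sub_zero, mul_one] at hfin
    rw [gD _ hxD]
    exact hfin

theorem flat_decay {D₀ : Set (En n)} (hDo : IsOpen D₀) (hDb : Bornology.IsBounded D₀)
    {f : En n → ℂ} {E : Set (En n)} (hf : FlatOn D₀ f E) (D : LData n) {Ψ : En n → En n}
    (hΨ : Differentiable ℂ Ψ)
    (hΨL : ∀ x ∈ ball (0 : En n) D.ε, ∀ y ∈ ball (0 : En n) D.ε, ‖Ψ x - Ψ y‖ ≤ 2 * ‖x - y‖)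
    (hS : ∀ x ∈ ball (0 : En n) D.ε, D.r x < 0 → Ψ x ∈ D₀) {F : Set (En n)} (hFn : F.Nonempty)
    (hFc : IsClosed F) (hFb : F ⊆ closedBall 0 (D.ε / 8))
    (hFE : ∀ x ∈ F, Ψ x ∈ E ∧ Ψ x ∈ closure D₀ ∧ D.r x = 0) :
    ∀ k : ℕ, ∃ C : ℝ, ∀ x ∈ D.S, ‖x‖ < D.ε / 2 → ‖f (Ψ x)‖ ≤ C * infDist x F ^ k := by
  intro k
  obtain ⟨C, -, hC⟩ := decay_aux hDo hDb hf D hΨ hΨL hS hFb hFE k 0
  refine ⟨C, fun x hx hx2 => ?_⟩
  obtain ⟨e, he, hde⟩ := hFc.exists_infDist_eq_dist hFn x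
  have := hC x hx hx2 e he
  rw [norm_iteratedFDeriv_zero] at this
  rw [hde, dist_eq_norm]
  exact this

end Pool.Agent.H8.FZ
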