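import Mathlib

/-!
# MP_fedc70_an (S06843): common definitions

`En n` is `ℂⁿ` with the Euclidean norm. Wirtinger derivatives `dbar k`, `del k`, the bilinear
pairing `pr v w = ∑ v_j w_j`, the Levi form, and the local data `LData` (a smooth defining function
which is strictly convex on the ball of radius `ε`), together with the kernels built from it.
-/

set_option autoImplicit false

noncomputable section

namespace Pool.Agent.H8.FZ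

open Complex Metric MeasureTheory Set
open scoped ContDiff

/-- `ℂⁿ` with its Euclidean norm. -/
abbrev En (n : ℕ) := EuclideanSpace ℂ (Fin n)

variable {n : ℕ}

/-- The `k`-th standard basis vector. -/
def eb (k : Fin n) : En n := EuclideanSpace.single k (1 : ℂ)

/-- `∂g/∂z̄_k`. -/
def dbar (k : Fin n) (g : En n → ℂ) (z : En n) : ℂ :=
  (1 / 2 : ℂ) * (fderiv ℝ g z (eb k) + I * fderiv ℝ g z (I • eb k))

/-- `∂g/∂z_k`. -/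
def del (k : Fin n) (g : En n → ℂ) (z : En n) : ℂ :=
  (1 / 2 : ℂ) * (fderiv ℝ g z (eb k) - I * fderiv ℝ g z (I • eb k))

/-- The complex bilinear pairing `∑ v_j w_j`. -/
def pr (v : Fin n → ℂ) (w : En n) : ℂ := ∑ j, v j * w j

/-- `∑_j |∂_j P|²` for a real function `P`, i.e. `¼ ∑_j (P_{x_j}² + P_{y_j}²)`. -/
def delSq (P : En n → ℝ) (z : En n) : ℝ := ∑ j, ‖del j (fun x => (P x : ℂ)) z‖ ^ 2

/-- The Levi form `∑ ∂_j ∂̄_k P w_j w̄_k = ¼ (D²P(w,w) + D²P(iw,iw))`. -/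
def levi (P : En n → ℝ) (z w : En n) : ℝ :=
  (1 / 4 : ℝ) * (fderiv ℝ (fderiv ℝ P) z w w + fderiv ℝ (fderiv ℝ P) z (I • w) (I • w))

/-- The exponent of the kernels. -/
def mm (n : ℕ) : ℕ := 4 * n + 8

/-- The exponent of the push-out `τ = dist(·,F)^M`. -/
def MM (n : ℕ) : ℕ := 8 * n + 20

/-- The normalising constant `∫ (1+|x|²)^{-m}` of the reproducing formula. -/
def cmm (n : ℕ) : ℝ := ∫ x : En n, ((1 + ‖x‖ ^ 2)⁻¹) ^ mm n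

/-- Matrix (∂̄_k Q_j + κ δ_{jk})_{j,k} (row `j`, column `k`). -/
def Jof (Q : En n → Fin n → ℂ) (κ : ℝ) (x : En n) : Matrix (Fin n) (Fin n) ℂ :=
  Matrix.of fun j k => dbar k (fun y => Q y j) x + (if j = k then (κ : ℂ) else 0)

/-- `A_κ(x) = 1 + ⟨Q(x), x - z⟩ + κ |x - z|²`. -/
def Aof (Q : En n → Fin n → ℂ) (z : En n) (κ : ℝ) (x : En n) : ℂ :=
  1 + pr (Q x) (x - z) + ((κ * ‖x - z‖ ^ 2 : ℝ) : ℂ)

/-- `A_κ^{-m} det J_κ`. -/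
def Kof (Q : En n → Fin n → ℂ) (m : ℕ) (z : En n) (κ : ℝ) (x : En n) : ℂ :=
  (Aof Q z κ x)⁻¹ ^ m * (Jof Q κ x).det

/-- `A_κ^{-m} det (J_κ with column k replaced by conj (x - z))`. -/
def Vof (Q : En n → Fin n → ℂ) (m : ℕ) (z : En n) (κ : ℝ) (k : Fin n) (x : En n) : ℂ :=
  (Aof Q z κ x)⁻¹ ^ m *
    ((Jof Q κ x).updateCol k (fun j => (starRingEnd ℂ) (x j - z j))).det

/-- Local data: a smooth function `r` on `ℂⁿ`, strictly convex with nonvanishing gradient on the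
ball of radius `ε ≤ 1` about `0`, with all the constants we need. The local domain is
`S = {‖z‖ < ε, r z < 0}`. -/
structure LData (n : ℕ) where
  /-- the defining function -/
  r : En n → ℝ
  /-- the radius -/
  ε : ℝ
  /-- lower constant -/
  c : ℝ
  /-- upper constant -/
  C : ℝ
  hr : ContDiff ℝ ∞ r
  hε : 0 < ε
  hε1 : ε ≤ 1
  hc : 0 < c
  hc1 : c ≤ 1
  hC : 1 ≤ C
  conv : ∀ z ∈ ball (0 : En n) ε, ∀ w : En n, c * ‖w‖ ^ 2 ≤ fderiv ℝ (fderiv ℝ r) z w w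
  b0 : ∀ z ∈ ball (0 : En n) ε, |r z| ≤ 1
  b1 : ∀ z ∈ ball (0 : En n) ε, ‖fderiv ℝ r z‖ ≤ C
  b2 : ∀ z ∈ ball (0 : En n) ε, ‖fderiv ℝ (fderiv ℝ r) z‖ ≤ C
  grad : ∀ z ∈ ball (0 : En n) ε, c ≤ ‖fderiv ℝ r z‖

namespace LData

variable (D : LData n)

/-- `a = -r`, comparable to the distance to the boundary. -/
def a (z : En n) : ℝ := -D.r z

/-- The local domain. -/
def S : Set (En n) := {z | z ∈ ball (0 : En n) D.ε ∧ D.r z < 0}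

/-- `q_j(ζ) = 2 ∂r/∂ζ_j`. -/
def q (ζ : En n) (j : Fin n) : ℂ :=
  (fderiv ℝ D.r ζ (eb j) : ℂ) - I * (fderiv ℝ D.r ζ (I • eb j) : ℂ)

/-- The support function `L(ζ,z) = 2a(ζ) + ⟨q(ζ), ζ - z⟩`. It is affine in `z`. -/
def L (ζ z : En n) : ℂ := ((2 * D.a ζ : ℝ) : ℂ) + pr (D.q ζ) (ζ - z)

/-- Matrix (∂̄_k q_j)_{j,k}. -/
def Jq (ζ : En n) : Matrix (Fin n) (Fin n) ℂ :=
  Matrix.of fun j k => dbar k (fun x => D.q x j) ζ

/-- The smooth numerator `Δ = s det(∂̄q) - ∑_k ∂̄_k s · det(∂̄q with column k replaced by q)`,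
`s = 2a`. -/
def Delta (ζ : En n) : ℂ :=
  ((2 * D.a ζ : ℝ) : ℂ) * (D.Jq ζ).det -
    ∑ k, dbar k (fun x => ((2 * D.a x : ℝ) : ℂ)) ζ * ((D.Jq ζ).updateCol k (D.q ζ)).det

/-- The kernel `K(ζ,z) = s(ζ)^{m-n-1} Δ(ζ) / L(ζ,z)^m`. -/
def K (ζ z : En n) : ℂ :=
  ((2 * D.a ζ : ℝ) : ℂ) ^ (mm n - n - 1) * D.Delta ζ * ((D.L ζ z)⁻¹) ^ mm n

/-- `Q = q/s`. -/
def Qv (ζ : En n) (j : Fin n) : ℂ := D.q ζ j / ((2 * D.a ζ : ℝ) : ℂ)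

/-- The push-out `τ(ζ) = dist(ζ,F)^M`. -/
def tau (F : Set (En n)) (ζ : En n) : ℝ := infDist ζ F ^ MM n

/-- The pushed-out kernel `s^{m-n-1} Δ / (L + τ(ζ))^m`. -/
def KT (F : Set (En n)) (ζ z : En n) : ℂ :=
  ((2 * D.a ζ : ℝ) : ℂ) ^ (mm n - n - 1) * D.Delta ζ *
    ((D.L ζ z + (tau F ζ : ℂ))⁻¹) ^ mm n

/-- `h` is holomorphic on `S` with the growth bounds `‖h‖ ≤ C₁/a`, `‖Dh‖ ≤ C₁/a²` for
`‖ζ‖ ≤ ε/2`. -/
def Tame (h : En n → ℂ) (C₁ : ℝ) : Prop :=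
  DifferentiableOn ℂ h D.S ∧ 1 ≤ C₁ ∧ ∀ ζ ∈ D.S, ‖ζ‖ ≤ D.ε / 2 →
    ‖h ζ‖ ≤ C₁ / D.a ζ ∧ ‖fderiv ℝ h ζ‖ ≤ C₁ / D.a ζ ^ 2

/-- The integrals `∫_S h̄ a^α ψ (ζ-z)^γ L^{-β}` of the conjugate part. -/
def Tc (h ψ : En n → ℂ) (α : ℕ) (γ : Fin n → ℕ) (β : ℕ) (z : En n) : ℂ :=
  ∫ ζ in D.S, (starRingEnd ℂ) (h ζ) * (D.a ζ : ℂ) ^ α * ψ ζ *
    (∏ i, (ζ i - z i) ^ γ i) * ((D.L ζ z)⁻¹) ^ β

/-- A smooth cut-off adapted to the data. -/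
structure Cut where
  /-- the cut-off function -/
  χ : En n → ℝ
  smooth : ContDiff ℝ ∞ χ
  nonneg : ∀ z, 0 ≤ χ z
  le_one : ∀ z, χ z ≤ 1
  one : ∀ z, ‖z‖ ≤ 3 * D.ε / 8 → χ z = 1
  zero : ∀ z, 7 * D.ε / 16 ≤ ‖z‖ → χ z = 0

end LData

/-- The hypotheses of the frozen statement on the domain `D₀` (apart from `IsOpen`,
`IsConnected`). -/
structure Dom (D₀ : Set (En n)) (ρ : En n → ℝ) : Prop where
  bdd : Bornology.IsBounded D₀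
  smooth : ContDiff ℝ ∞ ρ
  eq : D₀ = {z | ρ z < 0}
  grad : ∀ z, ρ z = 0 → fderiv ℝ ρ z ≠ 0
  levi : ∀ z, ρ z = 0 → ∀ w : En n, w ≠ 0 → fderiv ℝ ρ z w = 0 → fderiv ℝ ρ z (I • w) = 0 →
    0 < iteratedFDeriv ℝ 2 ρ z ![w, w] + iteratedFDeriv ℝ 2 ρ z ![I • w, I • w]

/-- `f ∈ A^∞(D₀)`, flat on `E` (as in the frozen statement). -/
structure FlatOn (D₀ : Set (En n)) (f : En n → ℂ) (E : Set (En n)) : Prop where
  holo : DifferentiableOn ℂ f D₀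
  cont : ContinuousOn f (closure D₀)
  jets : ∀ k : ℕ, ∃ g : En n → ContinuousMultilinearMap ℝ (fun _ : Fin k => En n) ℂ,
    ContinuousOn g (closure D₀) ∧ (∀ z ∈ D₀, iteratedFDeriv ℝ k f z = g z) ∧ (∀ z ∈ E, g z = 0)

/-- `g` is holomorphic and zero free on a region `{z ∈ O : ρ z < δ dist(z,F)^M}` (`O` an open
neighbourhood of `K`), and is `O(dist(·,F)^k)` there for every `k`. -/
def GoodFor (ρ : En n → ℝ) (K F : Set (En n)) (g : En n → ℂ) : Prop :=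
  ∃ (O : Set (En n)) (M : ℕ) (δ : ℝ), IsOpen O ∧ K ⊆ O ∧ Bornology.IsBounded O ∧ 0 < δ ∧ 1 ≤ M ∧
    DifferentiableOn ℂ g {z | z ∈ O ∧ ρ z < δ * infDist z F ^ M} ∧
    (∀ z ∈ O, ρ z < δ * infDist z F ^ M → g z ≠ 0) ∧
    ∀ k : ℕ, ∃ C : ℝ, ∀ z ∈ O, ρ z < δ * infDist z F ^ M → ‖g z‖ ≤ C * infDist z F ^ k

end Pool.Agent.H8.FZ
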