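import Pool.Agent.H8.FZ.Calc

/-!
# FZ-DETALG: the `κ`-derivative of the kernel is a `∂̄`-divergence

For fixed `z, ζ` and a map `Q : ℂⁿ → ℂⁿ` of class `C²` near `ζ`; `w = x - z`;
`A = 1 + ⟨Q,w⟩ + κ|w|²`, `J = (∂̄_k Q_j + κ δ_{jk})`, column `J_k = (J_{jk})_j`.

Claim: `d/dκ (A^{-m} det J) = ∑_k ∂̄_k (A^{-m} det(J with column k replaced by w̄))` at `ζ`.

Left side: `dA/dκ = |w|² = ⟨w̄,w⟩`, `d/dκ det J = ∑_k det(J with column k replaced by e_k)`
(derivative of a determinant, multilinear in the columns; `dJ/dκ = 1`).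
Right side: `∂̄_k A = ⟨∂̄_k Q, w⟩ + κ w_k = ∑_j J_{jk} w_j` (`dbar_coord`, `dbar_norm_sq`), so the
terms where `A^{-m}` is differentiated give `-m A^{-m-1} ∑_j w_j ∑_k J_{jk} det(J; k ← w̄) =
-m A^{-m-1} ∑_j w_j (det J) w̄_j` by Cramer (`Matrix.mulVec_cramer`, `Matrix.cramer_apply`:
`cramer J b k = det (J.updateCol k b)`). The terms where the column `w̄` is differentiated give
`det(J; k ← e_k)` (`dbar_conj_coord`). The terms where column `j ≠ k` is differentiated are
`T(k,j) = det(J; k ← w̄, j ← ∂̄_k J_j)`, `∂̄_k J_j = ∂̄_k ∂̄_j Q = ∂̄_j ∂̄_k Q = ∂̄_j J_k` (`dbar_comm`),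
so `T(k,j) = - T(j,k)` (swap two columns, `Matrix.det_permute'` or `det_updateCol…`) and
`∑_{j ≠ k} T(k,j) = 0`.

Derivative of a determinant: `Matrix.det_apply` (sum over permutations of products, product rule)
or `MultilinearMap` (`Matrix.detRowAlternating`, `HasFDerivAt` of a continuous multilinear map).
It is convenient to first prove: if every entry `x ↦ N x i j` is differentiable at `ζ` then
`dbar k (fun x => (N x).det) ζ = ∑ j, ((N ζ).updateCol j (fun i => dbar k (fun x => N x i j) ζ)).det`.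
-/

set_option autoImplicit false

noncomputable section

namespace Pool.Agent.H8.FZ

open Complex Metric MeasureTheory Set Filter Topology
open scoped ContDiff ComplexConjugate

variable {n : ℕ}

private theorem detalg_eval (N : Matrix (Fin n) (Fin n) ℂ) (j : Fin n) (v : Fin n → ℂ) :
    (N.updateCol j v).det = ∑ σ : Equiv.Perm (Fin n), ((Equiv.Perm.sign σ : ℤ) : ℂ) *
      ((∏ i ∈ Finset.univ.erase j, N (σ i) i) * v (σ j)) := by
  rw [Matrix.det_apply']
  apply Finset.sum_congr rfl
  intro σ _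
  congr 1
  rw [← Finset.mul_prod_erase Finset.univ _ (Finset.mem_univ j), Matrix.updateCol_self, mul_comm]
  congr 1
  apply Finset.prod_congr rfl
  intro i hi
  rw [Matrix.updateCol_ne (Finset.ne_of_mem_erase hi)]

private theorem detalg_hasFDerivAt {E : Type*} [NormedAddCommGroup E] [NormedSpace ℝ E]
    {N : E → Matrix (Fin n) (Fin n) ℂ} {N' : Fin n → Fin n → (E →L[ℝ] ℂ)} {ζ : E}
    (hN : ∀ i j, HasFDerivAt (fun x => N x i j) (N' i j) ζ) :
    HasFDerivAt (fun x => (N x).det)
      (∑ σ : Equiv.Perm (Fin n), ((Equiv.Perm.sign σ : ℤ) : ℂ) •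
        ∑ j, (∏ i ∈ Finset.univ.erase j, N ζ (σ i) i) • N' (σ j) j) ζ := by
  have h1 : (fun x => (N x).det) = fun x => ∑ σ : Equiv.Perm (Fin n),
      ((Equiv.Perm.sign σ : ℤ) : ℂ) * ∏ i, N x (σ i) i := by
    funext x
    rw [Matrix.det_apply']
  rw [h1]
  apply HasFDerivAt.fun_sum
  intro σ _
  apply HasFDerivAt.const_mul
  exact HasFDerivAt.finsetProd (fun i _ => hN (σ i) i)

private theorem detalg_apply {E : Type*} [NormedAddCommGroup E] [NormedSpace ℝ E]
    (N : Matrix (Fin n) (Fin n) ℂ) (N' : Fin n → Fin n → (E →L[ℝ] ℂ)) (v : E) :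
    (∑ σ : Equiv.Perm (Fin n), ((Equiv.Perm.sign σ : ℤ) : ℂ) •
        ∑ j, (∏ i ∈ Finset.univ.erase j, N (σ i) i) • N' (σ j) j) v =
      ∑ j, (N.updateCol j (fun i => N' i j v)).det := by
  simp only [detalg_eval]
  rw [Finset.sum_comm]
  rw [_root_.sum_apply]
  apply Finset.sum_congr rfl
  intro σ _
  rw [_root_.smul_apply, _root_.sum_apply, smul_eq_mul, Finset.mul_sum]
  apply Finset.sum_congr rfl
  intro j _
  rw [_root_.smul_apply, smul_eq_mul]

theorem dbar_det {N : En n → Matrix (Fin n) (Fin n) ℂ} {ζ : En n}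
    (hN : ∀ i j, DifferentiableAt ℝ (fun x => N x i j) ζ) (k : Fin n) :
    dbar k (fun x => (N x).det) ζ =
      ∑ j, ((N ζ).updateCol j (fun i => dbar k (fun x => N x i j) ζ)).det := by
  have h1 := detalg_hasFDerivAt (N := N) (ζ := ζ) (fun i j => (hN i j).hasFDerivAt)
  have h2 : ∀ v : En n, fderiv ℝ (fun x => (N x).det) ζ v =
      ∑ j, ((N ζ).updateCol j (fun i => fderiv ℝ (fun x => N x i j) ζ v)).det := by
    intro v
    rw [h1.fderiv]
    exact detalg_apply (N ζ) (fun i j => fderiv ℝ (fun x => N x i j) ζ) v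
  unfold dbar
  rw [h2, h2, Finset.mul_sum, ← Finset.sum_add_distrib, Finset.mul_sum]
  apply Finset.sum_congr rfl
  intro j _
  simp only [detalg_eval]
  rw [Finset.mul_sum, ← Finset.sum_add_distrib, Finset.mul_sum]
  apply Finset.sum_congr rfl
  intro σ _
  ring

/-- A crude bound for determinants. -/
theorem norm_det_le (N : Matrix (Fin n) (Fin n) ℂ) {B : ℝ} (hB : ∀ i j, ‖N i j‖ ≤ B) :
    ‖N.det‖ ≤ n.factorial * B ^ n := by
  rw [Matrix.det_apply']
  calc ‖∑ σ : Equiv.Perm (Fin n), ((Equiv.Perm.sign σ : ℤ) : ℂ) * ∏ i, N (σ i) i‖ ≤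
      ∑ σ : Equiv.Perm (Fin n), ‖((Equiv.Perm.sign σ : ℤ) : ℂ) * ∏ i, N (σ i) i‖ :=
        norm_sum_le _ _
    _ ≤ ∑ _σ : Equiv.Perm (Fin n), B ^ n := by
        apply Finset.sum_le_sum
        intro σ _
        have h1 : ‖((Equiv.Perm.sign σ : ℤ) : ℂ)‖ = 1 := by
          rcases Int.units_eq_one_or (Equiv.Perm.sign σ) with h | h <;> simp [h]
        rw [norm_mul, h1, one_mul, norm_prod]
        calc ∏ i, ‖N (σ i) i‖ ≤ ∏ _i : Fin n, B :=
              Finset.prod_le_prod (fun i _ => norm_nonneg _) (fun i _ => hB _ _)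
          _ = B ^ n := by simp
    _ = n.factorial * B ^ n := by
        rw [Finset.sum_const, Finset.card_univ, Fintype.card_perm, Fintype.card_fin,
          nsmul_eq_mul]

theorem norm_det_updateCol_le (N : Matrix (Fin n) (Fin n) ℂ) {B b : ℝ}
    (hB : ∀ i j, ‖N i j‖ ≤ B) (k : Fin n) (v : Fin n → ℂ) (hv : ∀ i, ‖v i‖ ≤ b) :
    ‖(N.updateCol k v).det‖ ≤ n.factorial * (B ^ (n - 1) * b) := by
  have hB0 : 0 ≤ B := (norm_nonneg _).trans (hB k k)
  rw [detalg_eval]
  calc ‖∑ σ : Equiv.Perm (Fin n), ((Equiv.Perm.sign σ : ℤ) : ℂ) *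
      ((∏ i ∈ Finset.univ.erase k, N (σ i) i) * v (σ k))‖ ≤
      ∑ σ : Equiv.Perm (Fin n), ‖((Equiv.Perm.sign σ : ℤ) : ℂ) *
      ((∏ i ∈ Finset.univ.erase k, N (σ i) i) * v (σ k))‖ :=
        norm_sum_le _ _
    _ ≤ ∑ _σ : Equiv.Perm (Fin n), B ^ (n - 1) * b := by
        apply Finset.sum_le_sum
        intro σ _
        have h1 : ‖((Equiv.Perm.sign σ : ℤ) : ℂ)‖ = 1 := by
          rcases Int.units_eq_one_or (Equiv.Perm.sign σ) with h | h <;> simp [h]
        rw [norm_mul, h1, one_mul, norm_mul, norm_prod]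
        apply mul_le_mul _ (hv _) (norm_nonneg _) (by positivity)
        calc ∏ i ∈ Finset.univ.erase k, ‖N (σ i) i‖ ≤ ∏ _i ∈ Finset.univ.erase k, B :=
              Finset.prod_le_prod (fun i _ => norm_nonneg _) (fun i _ => hB _ _)
          _ = B ^ (n - 1) := by
              rw [Finset.prod_const, Finset.card_erase_of_mem (Finset.mem_univ k),
                Finset.card_univ, Fintype.card_fin]
    _ = n.factorial * (B ^ (n - 1) * b) := by
        rw [Finset.sum_const, Finset.card_univ, Fintype.card_perm, Fintype.card_fin,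
          nsmul_eq_mul]

private theorem detalg_swap (M : Matrix (Fin n) (Fin n) ℂ) {k j : Fin n} (h : j ≠ k)
    (a b : Fin n → ℂ) :
    ((M.updateCol k a).updateCol j b).det = -((M.updateCol j a).updateCol k b).det := by
  have h1 := Matrix.det_permute' (Equiv.swap j k) ((M.updateCol j a).updateCol k b)
  have h2 : ((M.updateCol j a).updateCol k b).submatrix id (Equiv.swap j k) =
      (M.updateCol k a).updateCol j b := by
    ext i l
    rw [Matrix.submatrix_apply, id]
    by_cases hj : l = j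
    · subst hj
      rw [Equiv.swap_apply_left, Matrix.updateCol_self, Matrix.updateCol_self]
    · by_cases hk : l = k
      · subst hk
        rw [Equiv.swap_apply_right, Matrix.updateCol_ne h, Matrix.updateCol_self,
          Matrix.updateCol_ne hj, Matrix.updateCol_self]
      · rw [Equiv.swap_apply_of_ne_of_ne hj hk, Matrix.updateCol_ne hk, Matrix.updateCol_ne hj,
          Matrix.updateCol_ne hj, Matrix.updateCol_ne hk]
  rw [h2] at h1
  rw [h1, Equiv.Perm.sign_swap h]
  simp

private theorem detalg_coord (j : Fin n) (z ζ : En n) :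
    DifferentiableAt ℝ (fun x : En n => x j - z j) ζ := by
  have h : DifferentiableAt ℝ (fun x : En n => x j) ζ :=
    ((EuclideanSpace.proj j : En n →L[ℂ] ℂ).restrictScalars ℝ).differentiableAt
  exact h.sub_const _

private theorem detalg_dbar_diff {g : En n → ℂ} {ζ : En n} (hg : ContDiffAt ℝ 2 g ζ)
    (k : Fin n) : DifferentiableAt ℝ (dbar k g) ζ := by
  have h1 : ContDiffAt ℝ 1 (fderiv ℝ g) ζ := hg.fderiv_right (by norm_num)
  have h2 : DifferentiableAt ℝ (fderiv ℝ g) ζ := h1.differentiableAt (by norm_num)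
  have h3 : ∀ v : En n, DifferentiableAt ℝ (fun x => fderiv ℝ g x v) ζ := fun v =>
    h2.clm_apply (differentiableAt_const v)
  unfold dbar
  exact ((h3 _).add ((h3 _).const_mul I)).const_mul _

private theorem detalg_Jdiff (Q : En n → Fin n → ℂ) (ζ : En n) (κ : ℝ)
    (hQ : ∀ j, ContDiffAt ℝ 2 (fun x => Q x j) ζ) (i j : Fin n) :
    DifferentiableAt ℝ (fun x => Jof Q κ x i j) ζ := by
  have h := detalg_dbar_diff (hQ i) j
  exact h.add_const _

private theorem detalg_Jdbar (Q : En n → Fin n → ℂ) (ζ : En n) (κ : ℝ)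
    (hQ : ∀ j, ContDiffAt ℝ 2 (fun x => Q x j) ζ) (i j k : Fin n) :
    dbar k (fun x => Jof Q κ x i j) ζ = dbar k (dbar j (fun x => Q x i)) ζ := by
  have h := detalg_dbar_diff (hQ i) j
  have h1 : (fun x => Jof Q κ x i j) = fun x => dbar j (fun y => Q y i) x +
      (fun _ : En n => (if i = j then (κ : ℂ) else 0)) x := rfl
  rw [h1, dbar_add h (differentiableAt_const _), dbar_const, add_zero]

private theorem detalg_Adiff (Q : En n → Fin n → ℂ) (z ζ : En n) (κ : ℝ)
    (hQ : ∀ j, DifferentiableAt ℝ (fun x => Q x j) ζ) :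
    DifferentiableAt ℝ (fun x => Aof Q z κ x) ζ ∧
      ∀ k, dbar k (fun x => Aof Q z κ x) ζ = ∑ j, Jof Q κ ζ j k * (ζ j - z j) := by
  have e0 : (fun x => Aof Q z κ x) = fun x => ((1 : ℂ) + ∑ j, Q x j * (x j - z j)) +
      (κ : ℂ) * ((‖x - z‖ ^ 2 : ℝ) : ℂ) := by
    funext x
    unfold Aof pr
    push_cast
    rfl
  have d1 : ∀ j, DifferentiableAt ℝ (fun x => Q x j * (x j - z j)) ζ := fun j =>
    (hQ j).mul (detalg_coord j z ζ)
  have d2 : DifferentiableAt ℝ (fun x => ∑ j, Q x j * (x j - z j)) ζ :=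
    DifferentiableAt.fun_sum fun j _ => d1 j
  have d3 : DifferentiableAt ℝ (fun x : En n => ((‖x - z‖ ^ 2 : ℝ) : ℂ)) ζ := by
    have h1 : (fun x : En n => ((‖x - z‖ ^ 2 : ℝ) : ℂ)) =
        fun x : En n => ∑ j, (x j - z j) * conj (x j - z j) := by
      funext x
      rw [norm_sq_eq]
      rfl
    rw [h1]
    refine DifferentiableAt.fun_sum fun j _ => (detalg_coord j z ζ).mul ?_
    exact (Complex.conjCLE.differentiableAt).comp ζ (detalg_coord j z ζ)
  have d4 : DifferentiableAt ℝ (fun x : En n => (κ : ℂ) * ((‖x - z‖ ^ 2 : ℝ) : ℂ)) ζ :=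
    d3.const_mul (κ : ℂ)
  have d5 : DifferentiableAt ℝ (fun x : En n => (1 : ℂ) + ∑ j, Q x j * (x j - z j)) ζ :=
    (differentiableAt_const _).add d2
  refine ⟨by rw [e0]; exact d5.add d4, fun k => ?_⟩
  rw [e0, dbar_add d5 d4, dbar_add (differentiableAt_const _) d2, dbar_const, zero_add,
    dbar_const_mul _ d3, dbar_norm_sq, dbar_sum _ (fun j _ => d1 j)]
  have h2 : ∀ j ∈ (Finset.univ : Finset (Fin n)), dbar k (fun x => Q x j * (x j - z j)) ζ =
      dbar k (fun x => Q x j) ζ * (ζ j - z j) := by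
    intro j _
    have hc : DifferentiableAt ℝ (fun x : En n => x j) ζ :=
      ((EuclideanSpace.proj j : En n →L[ℂ] ℂ).restrictScalars ℝ).differentiableAt
    rw [dbar_mul (hQ j) (detalg_coord j z ζ), dbar_sub hc (differentiableAt_const _), dbar_coord,
      dbar_const, sub_zero, mul_zero, add_zero]
  rw [Finset.sum_congr rfl h2]
  have h3 : ∀ j ∈ (Finset.univ : Finset (Fin n)), Jof Q κ ζ j k * (ζ j - z j) =
      dbar k (fun x => Q x j) ζ * (ζ j - z j) +
      (if j = k then (κ : ℂ) * (ζ j - z j) else 0) := by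
    intro j _
    unfold Jof
    rw [Matrix.of_apply]
    split_ifs <;> ring
  rw [Finset.sum_congr rfl h3, Finset.sum_add_distrib, Finset.sum_ite_eq' Finset.univ k]
  simp

private theorem detalg_left (Q : En n → Fin n → ℂ) (z ζ : En n) (m : ℕ) (κ : ℝ)
    (hA : Aof Q z κ ζ ≠ 0) :
    HasDerivAt (fun κ' : ℝ => Kof Q m z κ' ζ)
      (-(m * (Aof Q z κ ζ)⁻¹ ^ (m + 1) * ((‖ζ - z‖ ^ 2 : ℝ) : ℂ)) * (Jof Q κ ζ).det +
      (Aof Q z κ ζ)⁻¹ ^ m *
        ∑ k, ((Jof Q κ ζ).updateCol k (fun i => if i = k then 1 else 0)).det) κ := by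
  have hAd : HasDerivAt (fun κ' : ℝ => Aof Q z κ' ζ) ((‖ζ - z‖ ^ 2 : ℝ) : ℂ) κ := by
    unfold Aof
    have h1 : HasDerivAt (fun κ' : ℝ => κ' * ‖ζ - z‖ ^ 2) (‖ζ - z‖ ^ 2) κ := by
      simpa using (hasDerivAt_id κ).mul_const (‖ζ - z‖ ^ 2)
    exact h1.ofReal_comp.const_add _
  have hInv := (hAd.fun_inv hA).fun_pow m
  have hJ : ∀ i j, HasFDerivAt (fun κ' : ℝ => Jof Q κ' ζ i j)
      (if i = j then Complex.ofRealCLM else 0 : ℝ →L[ℝ] ℂ) κ := by
    intro i j
    unfold Jof
    simp only [Matrix.of_apply]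
    by_cases h : i = j
    · simp only [h, if_true]
      exact (Complex.ofRealCLM.hasFDerivAt).const_add _
    · simp only [h, if_false, add_zero]
      exact hasFDerivAt_const _ _
  have hdet : HasDerivAt (fun x : ℝ => (Jof Q x ζ).det) (∑ j, ((Jof Q κ ζ).updateCol j
      (fun i => (if i = j then Complex.ofRealCLM else 0 : ℝ →L[ℝ] ℂ) 1)).det) κ := by
    convert! (detalg_hasFDerivAt hJ).hasDerivAt using 1
    exact (detalg_apply (Jof Q κ ζ)
      (fun i j => (if i = j then Complex.ofRealCLM else 0 : ℝ →L[ℝ] ℂ)) 1).symm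
  have hprod : HasDerivAt (fun κ' : ℝ => Kof Q m z κ' ζ) _ κ := hInv.mul hdet
  refine hprod.congr_deriv ?_
  have e1 : ∀ k : Fin n, (fun i => (if i = k then Complex.ofRealCLM else 0 : ℝ →L[ℝ] ℂ) 1) =
      fun i => (if i = k then 1 else 0 : ℂ) := by
    intro k
    funext i
    split_ifs <;> simp
  simp only [e1]
  congr 2
  rcases Nat.eq_zero_or_pos m with h0 | h0
  · subst h0; simp
  · obtain ⟨l, rfl⟩ : ∃ l, m = l + 1 := ⟨m - 1, by omega⟩
    rw [Nat.add_sub_cancel, div_eq_mul_inv, ← inv_pow]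
    ring

theorem det_alg (Q : En n → Fin n → ℂ) (z ζ : En n) (m : ℕ) (κ : ℝ)
    (hQ : ∀ j, ContDiffAt ℝ 2 (fun x => Q x j) ζ) (hA : Aof Q z κ ζ ≠ 0) :
    HasDerivAt (fun κ' : ℝ => Kof Q m z κ' ζ) (∑ k, dbar k (Vof Q m z κ k) ζ) κ := by
  have hQd : ∀ j, DifferentiableAt ℝ (fun x => Q x j) ζ := fun j =>
    (hQ j).differentiableAt (by norm_num)
  obtain ⟨hAx, hAdbar⟩ := detalg_Adiff Q z ζ κ hQd
  have hwc : ∀ j, DifferentiableAt ℝ (fun x : En n => conj (x j - z j)) ζ := fun j =>
    (Complex.conjCLE.differentiableAt).comp ζ (detalg_coord j z ζ)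
  have hwdbar : ∀ k j, dbar k (fun x : En n => conj (x j - z j)) ζ = if j = k then 1 else 0 := by
    intro k j
    have h1 : (fun x : En n => conj (x j - z j)) = fun x => conj (x j) - conj (z j) := by
      funext x
      exact map_sub _ _ _
    have hc : DifferentiableAt ℝ (fun x : En n => conj (x j)) ζ :=
      (Complex.conjCLE.differentiableAt).comp ζ
        ((EuclideanSpace.proj j : En n →L[ℂ] ℂ).restrictScalars ℝ).differentiableAt
    rw [h1, dbar_sub hc (differentiableAt_const _), dbar_conj_coord, dbar_const, sub_zero]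
    by_cases h : k = j
    · rw [if_pos h, if_pos h.symm]
    · rw [if_neg h, if_neg (fun e => h e.symm)]
  set J := Jof Q κ ζ with hJdef
  set wb : Fin n → ℂ := fun j => conj (ζ j - z j) with hwb
  set A := Aof Q z κ ζ with hAdef
  set H : Fin n → Fin n → Fin n → ℂ := fun i j k => dbar k (dbar j (fun x => Q x i)) ζ with hH
  have hHs : ∀ i j k, H i j k = H i k j := fun i j k => dbar_comm (hQ i) k j
  -- derivative of the determinants on the right
  have hMent : ∀ k i j, DifferentiableAt ℝ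
      (fun x => (Jof Q κ x).updateCol k (fun l => conj (x l - z l)) i j) ζ := by
    intro k i j
    by_cases h : j = k
    · subst h
      simp only [Matrix.updateCol_self]
      exact hwc i
    · simp only [Matrix.updateCol_ne h]
      exact detalg_Jdiff Q ζ κ hQ i j
  have hMdet : ∀ k, DifferentiableAt ℝ
      (fun x => ((Jof Q κ x).updateCol k (fun l => conj (x l - z l))).det) ζ := fun k =>
    (detalg_hasFDerivAt fun i j => (hMent k i j).hasFDerivAt).differentiableAt
  have hMdbar : ∀ k, dbar k (fun x => ((Jof Q κ x).updateCol k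
      (fun l => conj (x l - z l))).det) ζ =
      (J.updateCol k (fun i => if i = k then 1 else 0)).det +
      ∑ j, if j = k then 0 else ((J.updateCol k wb).updateCol j (fun i => H i j k)).det := by
    intro k
    rw [dbar_det (hMent k) k, ← Finset.add_sum_erase Finset.univ _ (Finset.mem_univ k),
      ← Finset.add_sum_erase Finset.univ (fun j => if j = k then (0 : ℂ) else
        ((J.updateCol k wb).updateCol j (fun i => H i j k)).det) (Finset.mem_univ k)]
    rw [if_pos rfl, zero_add]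
    congr 1
    · congr 1
      ext i l
      by_cases h : l = k
      · subst h
        rw [Matrix.updateCol_self, Matrix.updateCol_self]
        simp only [Matrix.updateCol_self]
        exact hwdbar l i
      · rw [Matrix.updateCol_ne h, Matrix.updateCol_ne h, Matrix.updateCol_ne h]
    · apply Finset.sum_congr rfl
      intro j hj
      have hjk := Finset.ne_of_mem_erase hj
      rw [if_neg hjk]
      congr 2
      funext i
      simp only [Matrix.updateCol_ne hjk]
      exact detalg_Jdbar Q ζ κ hQ i j k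
  -- the antisymmetric sum
  have hanti : ∑ k, ∑ j, (if j = k then (0 : ℂ) else
      ((J.updateCol k wb).updateCol j (fun i => H i j k)).det) = 0 := by
    have h1 : ∑ k, ∑ j, (if j = k then (0 : ℂ) else
        ((J.updateCol k wb).updateCol j (fun i => H i j k)).det) =
        -∑ k, ∑ j, (if j = k then (0 : ℂ) else
        ((J.updateCol k wb).updateCol j (fun i => H i j k)).det) := by
      conv_lhs => rw [Finset.sum_comm]
      rw [← Finset.sum_neg_distrib]
      apply Finset.sum_congr rfl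
      intro k _
      rw [← Finset.sum_neg_distrib]
      apply Finset.sum_congr rfl
      intro j _
      by_cases h : j = k
      · subst h; simp
      · rw [if_neg h, if_neg (fun e => h e.symm), detalg_swap J (fun e => h e.symm)]
        congr 3
        funext i
        exact hHs i k j
    have h2 := self_eq_neg.1 h1
    exact h2
  -- Cramer
  have hcr : ∀ j, ∑ k, J j k * (J.updateCol k wb).det = J.det * wb j := by
    intro j
    have h1 := congrFun (Matrix.mulVec_cramer J wb) j
    rw [Matrix.mulVec, dotProduct] at h1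
    simp only [Matrix.cramer_apply] at h1
    rw [h1]
    rfl
  have hright : ∑ k, dbar k (Vof Q m z κ k) ζ =
      -(m * A⁻¹ ^ (m + 1) * ((‖ζ - z‖ ^ 2 : ℝ) : ℂ)) * J.det +
      A⁻¹ ^ m * ∑ k, (J.updateCol k (fun i => if i = k then 1 else 0)).det := by
    have hk : ∀ k ∈ (Finset.univ : Finset (Fin n)), dbar k (Vof Q m z κ k) ζ =
        -(m * A⁻¹ ^ (m + 1)) * ∑ j, (ζ j - z j) * (J j k * (J.updateCol k wb).det) +
        (A⁻¹ ^ m * (J.updateCol k (fun i => if i = k then 1 else 0)).det +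
        A⁻¹ ^ m * ∑ j, if j = k then 0 else
          ((J.updateCol k wb).updateCol j (fun i => H i j k)).det) := by
      intro k _
      have e1 : dbar k (Vof Q m z κ k) ζ = dbar k (fun x => (Aof Q z κ x)⁻¹ ^ m *
          ((Jof Q κ x).updateCol k (fun l => conj (x l - z l))).det) ζ := rfl
      have dI : DifferentiableAt ℝ (fun x => (Aof Q z κ x)⁻¹) ζ := hAx.inv hA
      have dP : DifferentiableAt ℝ (fun x => (Aof Q z κ x)⁻¹ ^ m) ζ := dI.pow m
      rw [e1, dbar_mul dP (hMdet k), dbar_pow dI, dbar_inv hAx hA, hAdbar, hMdbar]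
      simp only [← hJdef, ← hAdef, ← hwb]
      have e2 : (m : ℂ) * A⁻¹ ^ (m - 1) * (-A⁻¹ ^ 2 * ∑ j, J j k * (ζ j - z j)) *
          (J.updateCol k wb).det = -(m * A⁻¹ ^ (m + 1)) *
          ∑ j, (ζ j - z j) * (J j k * (J.updateCol k wb).det) := by
        have e3 : ∑ j, (ζ j - z j) * (J j k * (J.updateCol k wb).det) =
            (∑ j, J j k * (ζ j - z j)) * (J.updateCol k wb).det := by
          rw [Finset.sum_mul]
          apply Finset.sum_congr rfl
          intro j _
          ring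
        rw [e3]
        rcases Nat.eq_zero_or_pos m with h0 | h0
        · subst h0; simp
        · obtain ⟨l, rfl⟩ : ∃ l, m = l + 1 := ⟨m - 1, by omega⟩
          rw [Nat.add_sub_cancel]
          ring
      rw [e2]
      ring
    rw [Finset.sum_congr rfl hk, Finset.sum_add_distrib, Finset.sum_add_distrib,
      ← Finset.mul_sum, ← Finset.mul_sum, ← Finset.mul_sum, hanti, mul_zero, add_zero,
      Finset.sum_comm]
    congr 1
    have e4 : ∀ j ∈ (Finset.univ : Finset (Fin n)),
        ∑ k, (ζ j - z j) * (J j k * (J.updateCol k wb).det) =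
        J.det * ((ζ j - z j) * conj (ζ j - z j)) := by
      intro j _
      rw [← Finset.mul_sum, hcr]
      ring
    rw [Finset.sum_congr rfl e4, ← Finset.mul_sum, norm_sq_eq]
    simp only [PiLp.sub_apply]
    ring
  rw [hright]
  exact detalg_left Q z ζ m κ hA

end Pool.Agent.H8.FZ
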