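import Pool.Agent.H8.FZ.Defs

/-!
# FZ-DISC: Harnack inequality on a disc

`g` holomorphic on the disc of radius `R` with positive real part. With `a = re g(0)`,
`h = g - i im g(0)` the function `w = (h - a) / (h + a)` maps the disc into the unit disc and
vanishes at the centre, so `‖w x‖ ≤ ‖x‖ / R` by the Schwarz lemma, and `h = a (1 + w) / (1 - w)`.
All three inequalities follow.
-/

set_option autoImplicit false

noncomputable section

namespace Pool.Agent.H8.FZ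

open Complex Metric MeasureTheory Set Filter Topology
open scoped ContDiff ComplexConjugate

lemma norm_sub_lt_norm_add {a : ℝ} (ha : 0 < a) {z : ℂ} (hz : 0 < z.re) :
    ‖z - a‖ < ‖z + a‖ := by
  rw [← sq_lt_sq₀ (norm_nonneg _) (norm_nonneg _), Complex.sq_norm, Complex.sq_norm,
    Complex.normSq_apply, Complex.normSq_apply]
  simp only [sub_re, ofReal_re, sub_im, ofReal_im, sub_zero, add_re, add_im, add_zero]
  nlinarith [mul_pos ha hz]

/-- The Schwarz lemma for functions with positive real part. -/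
lemma disc_schwarz {g : ℂ → ℂ} {R : ℝ} (hR : 0 < R) (hg : DifferentiableOn ℂ g (ball 0 R))
    (hpos : ∀ x ∈ ball (0 : ℂ) R, 0 < (g x).re) {x : ℂ} (hx : x ∈ ball (0 : ℂ) R) :
    ∃ w : ℂ, ‖w‖ ≤ ‖x‖ / R ∧ ‖w‖ < 1 ∧
      g x - ((g 0).im : ℂ) * I = ((g 0).re : ℂ) * ((1 + w) / (1 - w)) := by
  set a : ℝ := (g 0).re with ha_def
  have ha : 0 < a := hpos 0 (mem_ball_self hR)
  have hre : ∀ z ∈ ball (0 : ℂ) R, 0 < (g z - ((g 0).im : ℂ) * I).re := by
    intro z hz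
    have : (g z - ((g 0).im : ℂ) * I).re = (g z).re := by simp
    rw [this]
    exact hpos z hz
  have hne : ∀ z ∈ ball (0 : ℂ) R, (g z - ((g 0).im : ℂ) * I) + a ≠ 0 := by
    intro z hz h0
    have h1 := congrArg Complex.re h0
    rw [add_re, ofReal_re, zero_re] at h1
    linarith [hre z hz]
  set φ : ℂ → ℂ := fun z => ((g z - ((g 0).im : ℂ) * I) - a) / ((g z - ((g 0).im : ℂ) * I) + a)
    with hφ
  have hφd : DifferentiableOn ℂ φ (ball 0 R) :=
    ((hg.sub_const _).sub_const _).div ((hg.sub_const _).add_const _) hne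
  have h0 : φ 0 = 0 := by
    have : (g 0 - ((g 0).im : ℂ) * I) - a = 0 := by
      apply Complex.ext <;> simp [ha_def]
    rw [hφ]
    simp only
    rw [this, zero_div]
  have hlt : ∀ z ∈ ball (0 : ℂ) R, ‖φ z‖ < 1 := by
    intro z hz
    rw [hφ]
    simp only
    rw [norm_div, div_lt_one (norm_pos_iff.2 (hne z hz))]
    exact norm_sub_lt_norm_add ha (hre z hz)
  have hmaps : MapsTo φ (ball 0 R) (ball (φ 0) 1) := by
    intro z hz
    rw [h0, mem_ball_zero_iff]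
    exact hlt z hz
  have hS := dist_le_div_mul_dist_of_mapsTo_ball hφd (fun z hz => ball_subset_closedBall (hmaps hz)) hx
  rw [h0, dist_zero_right, dist_zero_right] at hS
  refine ⟨φ x, ?_, hlt x hx, ?_⟩
  · calc ‖φ x‖ ≤ 1 / R * ‖x‖ := hS
      _ = ‖x‖ / R := by ring
  · have h1 := hne x hx
    have h2 : (1 : ℂ) - φ x ≠ 0 := by
      intro h
      have h3 := hlt x hx
      rw [← sub_eq_zero.1 h, norm_one] at h3
      exact lt_irrefl _ h3
    have h3 : φ x * ((g x - ((g 0).im : ℂ) * I) + a) = (g x - ((g 0).im : ℂ) * I) - a := by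
      rw [hφ]
      simp only
      rw [div_mul_cancel₀ _ h1]
    rw [mul_div_assoc', eq_div_iff h2]
    linear_combination (-1 : ℂ) * h3

lemma frac_mono {s t : ℝ} (hs : 0 ≤ s) (hst : s ≤ t) (ht : t < 1) :
    (1 + s) / (1 - s) ≤ (1 + t) / (1 - t) := by
  rw [div_le_div_iff₀ (by linarith) (by linarith)]
  nlinarith

lemma frac_anti {s t : ℝ} (hs : 0 ≤ s) (hst : s ≤ t) (ht : t < 1) :
    (1 - t) / (1 + t) ≤ (1 - s) / (1 + s) := by
  rw [div_le_div_iff₀ (by linarith) (by linarith)]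
  nlinarith

lemma frac_eq {R t : ℝ} (hR : 0 < R) : (1 + t / R) / (1 - t / R) = (R + t) / (R - t) := by
  have h1 : 1 + t / R = (R + t) / R := by field_simp
  have h2 : 1 - t / R = (R - t) / R := by field_simp
  rw [h1, h2, div_div_div_cancel_right₀ hR.ne']

lemma frac_eq' {R t : ℝ} (hR : 0 < R) : (1 - t / R) / (1 + t / R) = (R - t) / (R + t) := by
  have h1 : 1 + t / R = (R + t) / R := by field_simp
  have h2 : 1 - t / R = (R - t) / R := by field_simp
  rw [h1, h2, div_div_div_cancel_right₀ hR.ne']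

lemma norm_mobius {w : ℂ} (hw : ‖w‖ < 1) : ‖(1 + w) / (1 - w)‖ ≤ (1 + ‖w‖) / (1 - ‖w‖) := by
  rw [norm_div]
  have h1 : ‖1 + w‖ ≤ 1 + ‖w‖ := by
    simpa using norm_add_le (1 : ℂ) w
  have h2 : 1 - ‖w‖ ≤ ‖1 - w‖ := by
    simpa using norm_sub_norm_le (1 : ℂ) w
  exact div_le_div₀ (by positivity) h1 (by linarith) h2

lemma re_mobius {w : ℂ} (hw : ‖w‖ < 1) :
    (1 - ‖w‖) / (1 + ‖w‖) ≤ ((1 + w) / (1 - w)).re := by
  have h2 : (1 : ℂ) - w ≠ 0 := by
    intro h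
    rw [← sub_eq_zero.1 h, norm_one] at hw
    exact lt_irrefl _ hw
  have h3 : 0 < ‖1 - w‖ := norm_pos_iff.2 h2
  have h4 : ‖1 - w‖ ≤ 1 + ‖w‖ := by
    simpa using norm_sub_le (1 : ℂ) w
  have hre : ((1 + w) / (1 - w)).re = (1 - ‖w‖ ^ 2) / ‖1 - w‖ ^ 2 := by
    rw [Complex.div_re, Complex.sq_norm, Complex.sq_norm]
    have h5 : normSq (1 - w) ≠ 0 := by
      rwa [Ne, Complex.normSq_eq_zero]
    rw [← add_div, div_left_inj' h5]
    simp only [add_re, one_re, sub_re, add_im, one_im, zero_add, sub_im, zero_sub,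
      Complex.normSq_apply]
    ring
  rw [hre]
  have h6 : 0 ≤ ‖w‖ := norm_nonneg w
  have h7 : ‖1 - w‖ ^ 2 ≤ (1 + ‖w‖) ^ 2 := by
    gcongr
  rw [div_le_div_iff₀ (by positivity) (by positivity)]
  have h8 : 0 ≤ 1 - ‖w‖ := by linarith
  nlinarith [mul_nonneg h8 (sub_nonneg.2 h7)]

theorem harnack_lower {g : ℂ → ℂ} {R : ℝ} (hR : 0 < R) (hg : DifferentiableOn ℂ g (ball 0 R))
    (hpos : ∀ x ∈ ball (0 : ℂ) R, 0 < (g x).re) {x : ℂ} (hx : x ∈ ball (0 : ℂ) R) :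
    (R - ‖x‖) / (R + ‖x‖) * (g 0).re ≤ (g x).re := by
  obtain ⟨w, hw, hw1, hwe⟩ := disc_schwarz hR hg hpos hx
  have ha : 0 < (g 0).re := hpos 0 (mem_ball_self hR)
  have hxR : ‖x‖ < R := mem_ball_zero_iff.1 hx
  have h1 : (g x).re = (g 0).re * ((1 + w) / (1 - w)).re := by
    have := congrArg Complex.re hwe
    rw [Complex.re_ofReal_mul] at this
    rw [← this]
    simp
  rw [h1, ← frac_eq' hR, mul_comm]
  apply mul_le_mul_of_nonneg_left _ ha.le
  exact (frac_anti (norm_nonneg w) hw ((div_lt_one hR).2 hxR)).trans (re_mobius hw1)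

theorem disc_norm_sub {g : ℂ → ℂ} {R : ℝ} (hR : 0 < R) (hg : DifferentiableOn ℂ g (ball 0 R))
    (hpos : ∀ x ∈ ball (0 : ℂ) R, 0 < (g x).re) {x : ℂ} (hx : x ∈ ball (0 : ℂ) R) :
    ‖g x - ((g 0).im : ℂ) * I‖ ≤ (R + ‖x‖) / (R - ‖x‖) * (g 0).re := by
  obtain ⟨w, hw, hw1, hwe⟩ := disc_schwarz hR hg hpos hx
  have ha : 0 < (g 0).re := hpos 0 (mem_ball_self hR)
  have hxR : ‖x‖ < R := mem_ball_zero_iff.1 hx
  rw [hwe, norm_mul, Complex.norm_real, Real.norm_of_nonneg ha.le, ← frac_eq hR, mul_comm]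
  apply mul_le_mul_of_nonneg_right _ ha.le
  exact (norm_mobius hw1).trans (frac_mono (norm_nonneg w) hw ((div_lt_one hR).2 hxR))

theorem harnack_upper {g : ℂ → ℂ} {R : ℝ} (hR : 0 < R) (hg : DifferentiableOn ℂ g (ball 0 R))
    (hpos : ∀ x ∈ ball (0 : ℂ) R, 0 < (g x).re) {x : ℂ} (hx : x ∈ ball (0 : ℂ) R) :
    (g x).re ≤ (R + ‖x‖) / (R - ‖x‖) * (g 0).re := by
  have h1 : (g x).re = (g x - ((g 0).im : ℂ) * I).re := by simp
  rw [h1]
  exact (Complex.re_le_norm _).trans (disc_norm_sub hR hg hpos hx)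

theorem disc_norm {g : ℂ → ℂ} {R : ℝ} (hR : 0 < R) (hg : DifferentiableOn ℂ g (ball 0 R))
    (hpos : ∀ x ∈ ball (0 : ℂ) R, 0 < (g x).re) {x : ℂ} (hx : x ∈ ball (0 : ℂ) R) :
    ‖g x‖ ≤ (R + ‖x‖) / (R - ‖x‖) * (g 0).re + |(g 0).im| := by
  have h1 : ‖((g 0).im : ℂ) * I‖ = |(g 0).im| := by
    rw [norm_mul, Complex.norm_real, Complex.norm_I, mul_one, Real.norm_eq_abs]
  calc ‖g x‖ = ‖(g x - ((g 0).im : ℂ) * I) + ((g 0).im : ℂ) * I‖ := by rw [sub_add_cancel]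
    _ ≤ ‖g x - ((g 0).im : ℂ) * I‖ + ‖((g 0).im : ℂ) * I‖ := norm_add_le _ _
    _ ≤ _ := by
        rw [h1]
        gcongr
        exact disc_norm_sub hR hg hpos hx

end Pool.Agent.H8.FZ
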