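import Pool.Agent.H8.FZ.Exh0

/-!
# FZ-EXH: a strictly plurisubharmonic exhaustion of small neighbourhoods of `closure D₀`

* `closure_eq`: at a point with `ρ = 0`, `dρ ≠ 0` there are points with `ρ < 0` arbitrarily close.
* `strict_near`: `O₁` bounded. At every `z ∈ closure O₁` with `ρ z = 0`, `quad_compact` gives `A_z, c_z`
  (`levi = ¼(D²(w,w)+D²(iw,iw))`); by continuity of `dρ, D²ρ` (in operator norm) the inequality
  persists near `z` with `c_z/2`; the set `closure O₁ ∩ {ρ = 0}` is compact, take a finite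
  subcover, the maximum of the `A`s and the minimum of the `c`s; the set
  `closure O₁ ∩ {|ρ| ≤ δ₁}` is contained in the union of the neighbourhoods for `δ₁` small
  (compactness).
* `exists_exh`: choose `O₁` open bounded with `closure D₀ ⊆ O₁`, `closure O₁ ⊆ O` (`closure D₀` is
  compact). On the compact `frontier O₁`: `ρ ≥ δ₂ > 0`. Take `δ, c' > 0` small:
  `c' < δ₂`, `δ, c' ≤ δ₁`, and (1 - 2x)/x² ≥ 4A for `0 < x ≤ δ + c'`. `g = expNegInvGlue`
  (`g(x) = exp(-1/x)`, `x > 0`; `g' = x^{-2} g`, `g'' = (x^{-4} - 2x^{-3}) g`, so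
  `g'' = ((1-2x)/x²) g' ≥ 4A g'`), `θ(z) = g(ρ z + δ)`, `c₀ = g(c' + δ)`,
  `Ω = {z ∈ O₁ : ρ z < c'} = {z ∈ O₁ : θ z < c₀}`. For `z ∈ Ω` with `ρ z + δ ≤ 0` all derivatives of
  `g` vanish at `ρ z + δ` and `levi θ = 0`; otherwise `|ρ z| ≤ δ₁` and by `levi_comp`
  `levi θ = g' levi ρ + g''·¼((dρ w)²+(dρ(iw))²) ≥ g'(levi ρ + A(...)) ≥ 0`.
  `P = 1/(c₀ - θ) + ‖z‖² + 1`: `levi (1/(c₀-θ)) = levi θ/(c₀-θ)² + 2/(c₀-θ)³ ¼(...) ≥ 0`
  (`levi_comp` with `t ↦ 1/(c₀ - t)`), `levi ‖z‖² = ‖w‖²` (`levi_norm_sq`).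
  `‖dP‖ ≤ ‖dθ‖/(c₀-θ)² + 2‖z‖ ≤ C P²` (`dθ` bounded on the bounded set `Ω`).
  Sublevel sets: `P z ≤ t` gives `θ z ≤ c₀ - 1/t`, so `ρ z ≤ t' < c'`; the set
  `{z ∈ closure O₁ : ρ z ≤ t'}` is compact and does not meet `frontier O₁`, and `{z ∈ Ω : P z ≤ t}` is
  closed in it.
-/

set_option autoImplicit false

noncomputable section

namespace Pool.Agent.H8.FZ

open Complex Metric MeasureTheory Set Filter Topology
open scoped ContDiff ComplexConjugate

variable {n : ℕ}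

namespace ExhAux

lemma two_le_inf : (2 : WithTop ℕ∞) ≤ ∞ := by
  have h : ((2 : ℕ∞) : WithTop ℕ∞) ≤ ((⊤ : ℕ∞) : WithTop ℕ∞) := WithTop.coe_le_coe.2 le_top
  exact h

lemma eq_zero_of_neg {f : ℝ → ℝ} (hf : Continuous f) (h : ∀ x < 0, f x = 0) {x : ℝ} (hx : x ≤ 0) :
    f x = 0 := by
  have h1 : IsClosed {x | f x = 0} := isClosed_eq hf continuous_const
  have h2 : closure (Iio (0 : ℝ)) ⊆ {x | f x = 0} := h1.closure_subset_iff.2 fun y hy => h y hy
  rw [closure_Iio] at h2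
  exact h2 hx

lemma contDiff_gl : ContDiff ℝ ∞ expNegInvGlue := expNegInvGlue.contDiff

lemma contDiff_gl1 : ContDiff ℝ ∞ (deriv expNegInvGlue) := (contDiff_infty_iff_deriv.1 contDiff_gl).2

lemma contDiff_gl2 : ContDiff ℝ ∞ (deriv (deriv expNegInvGlue)) :=
  (contDiff_infty_iff_deriv.1 contDiff_gl1).2

lemma gl1_nonpos {x : ℝ} (hx : x ≤ 0) : deriv expNegInvGlue x = 0 := by
  refine eq_zero_of_neg contDiff_gl1.continuous (fun y hy => ?_) hx
  have h : expNegInvGlue =ᶠ[𝓝 y] fun _ => (0 : ℝ) := by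
    filter_upwards [gt_mem_nhds hy] with t ht
    exact expNegInvGlue.zero_of_nonpos ht.le
  rw [h.deriv_eq, deriv_const]

lemma gl2_nonpos {x : ℝ} (hx : x ≤ 0) : deriv (deriv expNegInvGlue) x = 0 := by
  refine eq_zero_of_neg contDiff_gl2.continuous (fun y hy => ?_) hx
  have h : deriv expNegInvGlue =ᶠ[𝓝 y] fun _ => (0 : ℝ) := by
    filter_upwards [gt_mem_nhds hy] with t ht
    exact gl1_nonpos ht.le
  rw [h.deriv_eq, deriv_const]

lemma gl_pos_eq {x : ℝ} (hx : 0 < x) : expNegInvGlue x = Real.exp (-x⁻¹) := by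
  simp [expNegInvGlue, not_le.2 hx]

lemma gl1_pos {x : ℝ} (hx : 0 < x) : deriv expNegInvGlue x = x⁻¹ ^ 2 * expNegInvGlue x := by
  have h : expNegInvGlue =ᶠ[𝓝 x] fun y => Real.exp (-y⁻¹) := by
    filter_upwards [lt_mem_nhds hx] with y hy
    exact gl_pos_eq hy
  have h1 : HasDerivAt (fun y : ℝ => Real.exp (-y⁻¹)) (Real.exp (-x⁻¹) * (-(-(x ^ 2)⁻¹))) x :=
    ((hasDerivAt_inv hx.ne').neg).exp
  rw [h.deriv_eq, h1.deriv, gl_pos_eq hx]
  ring

lemma gl2_pos {x : ℝ} (hx : 0 < x) :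
    deriv (deriv expNegInvGlue) x = (x⁻¹ ^ 2 - 2 * x⁻¹) * deriv expNegInvGlue x := by
  have h : deriv expNegInvGlue =ᶠ[𝓝 x] fun y => y⁻¹ ^ 2 * expNegInvGlue y := by
    filter_upwards [lt_mem_nhds hx] with y hy
    exact gl1_pos hy
  have h1 : HasDerivAt (fun y : ℝ => y⁻¹) (-(x ^ 2)⁻¹) x := hasDerivAt_inv hx.ne'
  have h2 : HasDerivAt expNegInvGlue (deriv expNegInvGlue x) x :=
    ((contDiff_gl.differentiable (by simp)) x).hasDerivAt
  have h3 := (h1.pow 2).mul h2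
  have h4 : deriv (fun y => y⁻¹ ^ 2 * expNegInvGlue y) x = _ := h3.deriv
  rw [h.deriv_eq, h4, gl1_pos hx]
  simp only [Pi.pow_apply]
  push_cast
  rw [← inv_pow]
  ring

lemma gl1_nonneg (x : ℝ) : 0 ≤ deriv expNegInvGlue x := by
  rcases le_or_gt x 0 with hx | hx
  · rw [gl1_nonpos hx]
  · rw [gl1_pos hx]
    exact mul_nonneg (by positivity) (expNegInvGlue.nonneg x)

lemma gl2_ge {A x : ℝ} (hA : 0 ≤ A) (hx : x ≤ (4 * A + 3)⁻¹) :
    4 * A * deriv expNegInvGlue x ≤ deriv (deriv expNegInvGlue) x := by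
  rcases le_or_gt x 0 with h | h
  · rw [gl1_nonpos h, gl2_nonpos h, mul_zero]
  · rw [gl2_pos h]
    refine mul_le_mul_of_nonneg_right ?_ (gl1_nonneg x)
    have h1 : 4 * A + 3 ≤ x⁻¹ := by
      rw [le_inv_comm₀ (by positivity) h]
      exact hx
    nlinarith

lemma gl_lt {x y : ℝ} (hxy : x < y) (hy : 0 < y) : expNegInvGlue x < expNegInvGlue y := by
  rcases le_or_gt x 0 with h | h
  · rw [expNegInvGlue.zero_of_nonpos h]
    exact expNegInvGlue.pos_of_pos hy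
  · rw [gl_pos_eq h, gl_pos_eq hy, Real.exp_lt_exp, neg_lt_neg_iff]
    exact inv_strictAnti₀ h hxy

/-- (c₀ - expNegInvGlue)⁻¹ -/
def hh (c₀ : ℝ) (x : ℝ) : ℝ := (c₀ - expNegInvGlue x)⁻¹

lemma hh_deriv {c₀ x : ℝ} (h : expNegInvGlue x < c₀) :
    HasDerivAt (hh c₀) (deriv expNegInvGlue x * (c₀ - expNegInvGlue x)⁻¹ ^ 2) x := by
  have h2 : HasDerivAt expNegInvGlue (deriv expNegInvGlue x) x :=
    ((contDiff_gl.differentiable (by simp)) x).hasDerivAt
  have h3 : HasDerivAt (fun y => c₀ - expNegInvGlue y) (-deriv expNegInvGlue x) x := h2.const_sub c₀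
  have h4 : c₀ - expNegInvGlue x ≠ 0 := (sub_pos.2 h).ne'
  have h5 : HasDerivAt (fun y => (c₀ - expNegInvGlue y)⁻¹) _ x := h3.inv h4
  have h6 : deriv expNegInvGlue x * (c₀ - expNegInvGlue x)⁻¹ ^ 2
      = - -deriv expNegInvGlue x / (c₀ - expNegInvGlue x) ^ 2 := by
    rw [neg_neg, inv_pow, div_eq_mul_inv]
  rw [h6]
  exact h5

lemma hh_deriv2 {c₀ x : ℝ} (h : expNegInvGlue x < c₀) :
    deriv (deriv (hh c₀)) x = deriv (deriv expNegInvGlue) x * (c₀ - expNegInvGlue x)⁻¹ ^ 2 +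
      2 * deriv expNegInvGlue x ^ 2 * (c₀ - expNegInvGlue x)⁻¹ ^ 3 := by
  have h0 : deriv (hh c₀) =ᶠ[𝓝 x] fun y => deriv expNegInvGlue y * (c₀ - expNegInvGlue y)⁻¹ ^ 2 := by
    have h1 : ∀ᶠ y in 𝓝 x, expNegInvGlue y < c₀ :=
      contDiff_gl.continuous.continuousAt.eventually_lt continuousAt_const h
    filter_upwards [h1] with y hy
    exact (hh_deriv hy).deriv
  have h2 : HasDerivAt (deriv expNegInvGlue) (deriv (deriv expNegInvGlue) x) x :=
    ((contDiff_gl1.differentiable (by simp)) x).hasDerivAt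
  have h3 : HasDerivAt (fun y => (c₀ - expNegInvGlue y)⁻¹) (deriv expNegInvGlue x * (c₀ - expNegInvGlue x)⁻¹ ^ 2) x := hh_deriv h
  have h4 := h2.mul (h3.pow 2)
  have h5 : deriv (fun y => deriv expNegInvGlue y * (c₀ - expNegInvGlue y)⁻¹ ^ 2) x = _ := h4.deriv
  rw [h0.deriv_eq, h5]
  simp only [Pi.pow_apply]
  push_cast
  ring

lemma hh_contDiffAt {c₀ x : ℝ} (h : expNegInvGlue x < c₀) : ContDiffAt ℝ ∞ (hh c₀) x := by
  unfold hh
  exact (contDiffAt_const.sub contDiff_gl.contDiffAt).inv (sub_pos.2 h).ne'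

lemma levi_add_const (P : En n → ℝ) (c : ℝ) (z w : En n) :
    levi (fun x => P x + c) z w = levi P z w := by
  unfold levi
  have : fderiv ℝ (fun x => P x + c) = fderiv ℝ P := by
    funext x
    rw [fderiv_add_const]
  rw [this]

lemma levi_hh {ρ : En n → ℝ} {z : En n} (hρ : ContDiffAt ℝ 2 ρ z) {c₀ δ A δ₁ : ℝ} (hA : 0 ≤ A)
    (h : expNegInvGlue (ρ z + δ) < c₀) (hx : ρ z + δ ≤ (4 * A + 3)⁻¹) (hδ : δ ≤ δ₁) (hle : ρ z ≤ δ₁)
    (hs : |ρ z| ≤ δ₁ → ∀ w : En n,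
      0 ≤ levi ρ z w + A * (fderiv ℝ ρ z w ^ 2 + fderiv ℝ ρ z (I • w) ^ 2)) (w : En n) :
    0 ≤ levi (fun x => hh c₀ (ρ x + δ)) z w := by
  have hd1 : deriv (fun t => hh c₀ (t + δ)) = fun t => deriv (hh c₀) (t + δ) := by
    funext t
    exact deriv_comp_add_const _ _ _
  have hG : ContDiffAt ℝ 2 (fun t => hh c₀ (t + δ)) (ρ z) := by
    have h1 : ContDiffAt ℝ ∞ (fun t => hh c₀ (t + δ)) (ρ z) :=
      ContDiffAt.comp (ρ z) (g := hh c₀) (f := fun t => t + δ) (hh_contDiffAt h)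
        (contDiffAt_id.add contDiffAt_const)
    exact h1.of_le two_le_inf
  rw [levi_comp hρ hG w, hd1]
  have hd2 : deriv (fun t => deriv (hh c₀) (t + δ)) (ρ z) = deriv (deriv (hh c₀)) (ρ z + δ) :=
    deriv_comp_add_const _ _ _
  rw [hd2]
  show 0 ≤ deriv (hh c₀) (ρ z + δ) * levi ρ z w + _
  rw [(hh_deriv h).deriv, hh_deriv2 h]
  set x := ρ z + δ with hxdef
  set q := (c₀ - expNegInvGlue x)⁻¹ with hq
  have hq0 : 0 < q := inv_pos.2 (sub_pos.2 h)
  set B := fderiv ℝ ρ z w ^ 2 + fderiv ℝ ρ z (I • w) ^ 2 with hB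
  have hB0 : 0 ≤ B := by positivity
  rcases le_or_gt x 0 with h0 | h0
  · rw [gl1_nonpos h0, gl2_nonpos h0]
    simp
  · have h1 := gl2_ge hA hx
    have h2 := gl1_nonneg x
    have h3 := hs (abs_le.2 ⟨by linarith, hle⟩) w
    have h4 : 4 * A * deriv expNegInvGlue x * q ^ 2 ≤
        deriv (deriv expNegInvGlue) x * q ^ 2 + 2 * deriv expNegInvGlue x ^ 2 * q ^ 3 := by
      have h5 : 0 ≤ 2 * deriv expNegInvGlue x ^ 2 * q ^ 3 := by positivity
      have h6 : 4 * A * deriv expNegInvGlue x * q ^ 2 ≤ deriv (deriv expNegInvGlue) x * q ^ 2 :=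
        mul_le_mul_of_nonneg_right h1 (by positivity)
      linarith
    have h7 : 4 * A * deriv expNegInvGlue x * q ^ 2 * (1 / 4) * B ≤
        (deriv (deriv expNegInvGlue) x * q ^ 2 + 2 * deriv expNegInvGlue x ^ 2 * q ^ 3) * (1 / 4) * B := by
      gcongr
    have h8 : 0 ≤ deriv expNegInvGlue x * q ^ 2 * (levi ρ z w + A * B) :=
      mul_nonneg (by positivity) h3
    nlinarith

end ExhAux

open ExhAux

theorem exists_exh {D₀ : Set (En n)} {ρ : En n → ℝ} (hD : Dom D₀ ρ) {O : Set (En n)}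
    (hO : IsOpen O) (hDO : closure D₀ ⊆ O) :
    ∃ (Ω : Set (En n)) (P : En n → ℝ) (C : ℝ), IsOpen Ω ∧ Bornology.IsBounded Ω ∧
      closure D₀ ⊆ Ω ∧ Ω ⊆ O ∧ ContDiffOn ℝ ∞ P Ω ∧ (∀ z ∈ Ω, 1 ≤ P z) ∧
      (∀ z ∈ Ω, ∀ w : En n, ‖w‖ ^ 2 ≤ levi P z w) ∧
      (∀ z ∈ Ω, ‖fderiv ℝ P z‖ ≤ C * P z ^ 2) ∧
      ∀ t : ℝ, IsCompact {z | z ∈ Ω ∧ P z ≤ t} := by
  have hcl := closure_eq hD
  have hcomp : IsCompact (closure D₀) := hD.bdd.isCompact_closure
  obtain ⟨O₁, hO₁, hDO₁, hO₁O, hO₁c⟩ := exists_open_between_and_isCompact_closure hcomp hO hDO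
  have hbdd : Bornology.IsBounded O₁ := hO₁c.isBounded.subset subset_closure
  have hρc : Continuous ρ := hD.smooth.continuous
  obtain ⟨δ₁, A, c, hδ₁, hA, hc, hs⟩ := strict_near hD hbdd
  -- positivity on the frontier
  obtain ⟨δ₂, hδ₂, hfr⟩ : ∃ δ₂ > 0, ∀ z ∈ frontier O₁, δ₂ ≤ ρ z := by
    have hfc : IsCompact (frontier O₁) :=
      hO₁c.of_isClosed_subset isClosed_frontier frontier_subset_closure
    rcases (frontier O₁).eq_empty_or_nonempty with he | hne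
    · exact ⟨1, one_pos, fun z hz => by rw [he] at hz; exact absurd hz (notMem_empty z)⟩
    · obtain ⟨z₀, hz₀, hmin⟩ := hfc.exists_isMinOn hne hρc.continuousOn
      refine ⟨ρ z₀, ?_, fun z hz => hmin hz⟩
      by_contra hcon
      rw [not_lt] at hcon
      have h1 : z₀ ∈ closure D₀ := by
        rw [hcl]
        exact hcon
      rw [hO₁.frontier_eq] at hz₀
      exact hz₀.2 (hDO₁ h1)
  set c' : ℝ := min (δ₂ / 2) (min δ₁ ((4 * A + 3)⁻¹ / 2)) with hc'
  set δ : ℝ := min δ₁ ((4 * A + 3)⁻¹ / 2) with hδ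
  have hinv : 0 < (4 * A + 3)⁻¹ := by positivity
  have hδ0 : 0 < δ := lt_min hδ₁ (by positivity)
  have hc'0 : 0 < c' := lt_min (by positivity) hδ0
  have hc'δ₂ : c' < δ₂ := (min_le_left _ _).trans_lt (by linarith)
  have hc'δ₁ : c' ≤ δ₁ := (min_le_right _ _).trans (min_le_left _ _)
  have hδδ₁ : δ ≤ δ₁ := min_le_left _ _
  have hsum : c' + δ ≤ (4 * A + 3)⁻¹ := by
    have h1 : c' ≤ (4 * A + 3)⁻¹ / 2 := (min_le_right _ _).trans (min_le_right _ _)
    have h2 : δ ≤ (4 * A + 3)⁻¹ / 2 := min_le_right _ _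
    linarith
  set c₀ : ℝ := expNegInvGlue (c' + δ) with hc₀
  have hlt : ∀ z, ρ z < c' → expNegInvGlue (ρ z + δ) < c₀ := fun z hz =>
    gl_lt (by linarith) (by linarith)
  have hlt' : ∀ z, expNegInvGlue (ρ z + δ) < c₀ → ρ z < c' := by
    intro z hz
    by_contra hcon
    rw [not_lt] at hcon
    rcases hcon.eq_or_lt with h | h
    · rw [← h] at hz
      exact lt_irrefl _ hz
    · have := gl_lt (x := c' + δ) (y := ρ z + δ) (by linarith) (by linarith)
      exact lt_irrefl _ (this.trans hz)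
  set Ω : Set (En n) := {z | z ∈ O₁ ∧ ρ z < c'} with hΩ
  set P : En n → ℝ := fun z => hh c₀ (ρ z + δ) + ‖z‖ ^ 2 + 1 with hP
  have hhpos : ∀ z ∈ Ω, 0 < hh c₀ (ρ z + δ) := fun z hz =>
    inv_pos.2 (sub_pos.2 (hlt z hz.2))
  have hP1 : ∀ z ∈ Ω, 1 ≤ P z := by
    intro z hz
    have := hhpos z hz
    have h2 : 0 ≤ ‖z‖ ^ 2 := by positivity
    show 1 ≤ hh c₀ (ρ z + δ) + ‖z‖ ^ 2 + 1
    linarith
  have hGs : ∀ z ∈ Ω, ContDiffAt ℝ ∞ (fun z => hh c₀ (ρ z + δ)) z := fun z hz =>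
    ContDiffAt.comp z (g := hh c₀) (f := fun z => ρ z + δ) (hh_contDiffAt (hlt z hz.2))
      (hD.smooth.contDiffAt.add contDiffAt_const)
  have hns : ContDiff ℝ ∞ (fun z : En n => ‖z‖ ^ 2) := contDiff_norm_sq ℝ
  have hΩo : IsOpen Ω := hO₁.inter (isOpen_lt hρc continuous_const)
  -- bound for the derivative
  have hcont : Continuous fun z : En n =>
      |deriv expNegInvGlue (ρ z + δ)| * ‖fderiv ℝ ρ z‖ + 2 * ‖z‖ := by
    have h1 : Continuous (fderiv ℝ ρ) := hD.smooth.continuous_fderiv (by simp)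
    have h2 : Continuous (deriv expNegInvGlue) := contDiff_gl1.continuous
    fun_prop
  obtain ⟨C, hC⟩ := hO₁c.exists_bound_of_continuousOn hcont.continuousOn
  refine ⟨Ω, P, C, hΩo, hbdd.subset fun z hz => hz.1, ?_, ?_, ?_, hP1, ?_, ?_, ?_⟩
  · intro z hz
    refine ⟨hDO₁ hz, ?_⟩
    rw [hcl] at hz
    exact lt_of_le_of_lt hz hc'0
  · exact fun z hz => hO₁O (subset_closure hz.1)
  · intro z hz
    exact (((hGs z hz).add hns.contDiffAt).add contDiffAt_const).contDiffWithinAt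
  · intro z hz w
    rw [hP, levi_add_const, levi_add ((hGs z hz).of_le two_le_inf)
      (hns.contDiffAt.of_le two_le_inf), levi_norm_sq]
    have h1 := levi_hh (hD.smooth.contDiffAt.of_le two_le_inf) hA (hlt z hz.2)
      (by have := hz.2; linarith) hδδ₁ (by have := hz.2; linarith) (δ₁ := δ₁) (by
        intro habs w
        have h2 := hs z (subset_closure hz.1) habs w
        have h3 : 0 ≤ c * ‖w‖ ^ 2 := by positivity
        linarith) w
    linarith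
  · intro z hz
    have h1 : HasFDerivAt ρ (fderiv ℝ ρ z) z :=
      ((hD.smooth.differentiable (by simp)) z).hasFDerivAt
    have h2 : HasFDerivAt (fun z => hh c₀ (ρ z + δ))
        ((deriv expNegInvGlue (ρ z + δ) * (c₀ - expNegInvGlue (ρ z + δ))⁻¹ ^ 2) •
          fderiv ℝ ρ z) z :=
      HasDerivAt.comp_hasFDerivAt z (h₂ := hh c₀) (f := fun z => ρ z + δ) (hh_deriv (hlt z hz.2))
        (h1.add_const δ)
    have h3 : HasFDerivAt (fun z : En n => ‖z‖ ^ 2) (2 • (innerSL ℝ z)) z :=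
      (hasStrictFDerivAt_norm_sq z).hasFDerivAt
    have h4 : HasFDerivAt P _ z := (h2.add h3).add_const 1
    rw [h4.fderiv]
    have hq := hhpos z hz
    have hPz := hP1 z hz
    have hqP : hh c₀ (ρ z + δ) ≤ P z := by
      have h2 : 0 ≤ ‖z‖ ^ 2 := by positivity
      show hh c₀ (ρ z + δ) ≤ hh c₀ (ρ z + δ) + ‖z‖ ^ 2 + 1
      linarith
    have h5 : ‖(deriv expNegInvGlue (ρ z + δ) * (c₀ - expNegInvGlue (ρ z + δ))⁻¹ ^ 2) •
          fderiv ℝ ρ z‖ ≤ |deriv expNegInvGlue (ρ z + δ)| * ‖fderiv ℝ ρ z‖ * P z ^ 2 := by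
      rw [norm_smul, Real.norm_eq_abs, abs_mul]
      have h6 : |(c₀ - expNegInvGlue (ρ z + δ))⁻¹ ^ 2| ≤ P z ^ 2 := by
        rw [abs_of_nonneg (by positivity)]
        exact pow_le_pow_left₀ hq.le hqP 2
      calc |deriv expNegInvGlue (ρ z + δ)| * |(c₀ - expNegInvGlue (ρ z + δ))⁻¹ ^ 2| *
            ‖fderiv ℝ ρ z‖
          ≤ |deriv expNegInvGlue (ρ z + δ)| * P z ^ 2 * ‖fderiv ℝ ρ z‖ := by gcongr
        _ = _ := by ring
    have h7 : ‖(2 : ℕ) • innerSL ℝ z‖ ≤ 2 * ‖z‖ * P z ^ 2 := by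
      have h8 : ‖(2 : ℕ) • innerSL ℝ z‖ ≤ 2 * ‖z‖ := by
        rw [two_smul]
        refine (norm_add_le _ _).trans ?_
        rw [innerSL_apply_norm]
        linarith
      have h9 : (1 : ℝ) ≤ P z ^ 2 := one_le_pow₀ hPz
      have h10 : 0 ≤ 2 * ‖z‖ := by positivity
      nlinarith
    have h11 := hC z (subset_closure hz.1)
    rw [Real.norm_of_nonneg (by positivity)] at h11
    have h12 : (0 : ℝ) ≤ P z ^ 2 := by positivity
    calc _ ≤ ‖(deriv expNegInvGlue (ρ z + δ) * (c₀ - expNegInvGlue (ρ z + δ))⁻¹ ^ 2) •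
          fderiv ℝ ρ z‖ + ‖(2 : ℕ) • innerSL ℝ z‖ := norm_add_le _ _
      _ ≤ |deriv expNegInvGlue (ρ z + δ)| * ‖fderiv ℝ ρ z‖ * P z ^ 2 + 2 * ‖z‖ * P z ^ 2 :=
          add_le_add h5 h7
      _ = (|deriv expNegInvGlue (ρ z + δ)| * ‖fderiv ℝ ρ z‖ + 2 * ‖z‖) * P z ^ 2 := by ring
      _ ≤ C * P z ^ 2 := mul_le_mul_of_nonneg_right h11 h12
  · intro t
    rcases le_or_gt t 0 with ht | ht
    · have : {z | z ∈ Ω ∧ P z ≤ t} = ∅ := by
        ext z
        simp only [mem_setOf_eq, mem_empty_iff_false, iff_false, not_and, not_le]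
        intro hz
        have := hP1 z hz
        linarith
      rw [this]
      exact isCompact_empty
    · have hset : {z | z ∈ Ω ∧ P z ≤ t} = closure O₁ ∩
          ({z | 1 / t ≤ c₀ - expNegInvGlue (ρ z + δ)} ∩
            {z | 1 ≤ (t - ‖z‖ ^ 2 - 1) * (c₀ - expNegInvGlue (ρ z + δ))}) := by
        ext z
        simp only [mem_setOf_eq, mem_inter_iff]
        constructor
        · rintro ⟨hz, hPt⟩
          have hd : 0 < c₀ - expNegInvGlue (ρ z + δ) := sub_pos.2 (hlt z hz.2)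
          have hPt' : (c₀ - expNegInvGlue (ρ z + δ))⁻¹ + ‖z‖ ^ 2 + 1 ≤ t := hPt
          have h2 : 0 ≤ ‖z‖ ^ 2 := by positivity
          refine ⟨subset_closure hz.1, ?_, ?_⟩
          · rw [one_div]
            rw [inv_le_comm₀ ht hd]
            linarith
          · have h3 : (c₀ - expNegInvGlue (ρ z + δ))⁻¹ ≤ t - ‖z‖ ^ 2 - 1 := by linarith
            have h4 := mul_le_mul_of_nonneg_right h3 hd.le
            rwa [inv_mul_cancel₀ hd.ne'] at h4
        · rintro ⟨hz, h1, h2⟩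
          have hd : 0 < c₀ - expNegInvGlue (ρ z + δ) := lt_of_lt_of_le (by positivity) h1
          have hρz := hlt' z (sub_pos.1 hd)
          have hzO : z ∈ O₁ := by
            by_contra hcon
            have : z ∈ frontier O₁ := by
              rw [hO₁.frontier_eq]
              exact ⟨hz, hcon⟩
            have := hfr z this
            linarith
          refine ⟨⟨hzO, hρz⟩, ?_⟩
          show (c₀ - expNegInvGlue (ρ z + δ))⁻¹ + ‖z‖ ^ 2 + 1 ≤ t
          have h3 : (c₀ - expNegInvGlue (ρ z + δ))⁻¹ ≤ t - ‖z‖ ^ 2 - 1 := by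
            rw [inv_le_iff_one_le_mul₀ hd]
            exact h2
          linarith
      rw [hset]
      refine hO₁c.inter_right (IsClosed.inter ?_ ?_)
      · have h2 : Continuous expNegInvGlue := contDiff_gl.continuous
        exact isClosed_le continuous_const (by fun_prop)
      · have h2 : Continuous expNegInvGlue := contDiff_gl.continuous
        exact isClosed_le continuous_const (by fun_prop)

end Pool.Agent.H8.FZ
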