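import Pool.Agent.H8.FZ.Defs

/-!
# FZ-QUAD: from the Levi condition to a strictly convex Hessian

* `quad_compact`: on the unit sphere (compact), `Q₁ > 0` where `Q₂ = 0`; for `A` large
  `Q₁ + A Q₂ ≥ c`; homogeneity. (If not, take `w_k` with `Q₁ + k Q₂ < 1/k`, a limit `w` has
  `Q₂ w = 0`, `Q₁ w ≤ 0`.) If `n = 0` everything is trivial.
* `poly_flat`: `ρ₁` smooth, `dρ₁(p) ≠ 0`. Let `B = D²ρ₁(p)` (symmetric real bilinear form) and
  `σ(x,y) = ½(B(x,y) - B(ix,iy)) - (i/2)(B(x,iy) + B(ix,y))`: complex bilinear, with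
  `re σ(x,x) = ½(B(x,x) - B(ix,ix))`. Let `q(w) = dρ₁(w) - i dρ₁(iw)` (complex linear, nonzero) and
  `ν` with `q(ν) = 1`. Put `Ψ(x) = p + x - ½ σ(x,x) ν`. Then `Ψ 0 = p`, `DΨ(0) = 1`, and the second
  derivative of `ρ₁ ∘ Ψ` at `0` in the direction `w` is (differentiate `t ↦ ρ₁(p + tw - ½t²σ(w,w)ν)`
  twice at `0`) `B(w,w) - dρ₁(σ(w,w)ν) = B(w,w) - re(q(σ(w,w)ν)) = B(w,w) - re σ(w,w) =
  ½(B(w,w) + B(iw,iw))`.
-/

set_option autoImplicit false

noncomputable section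

namespace Pool.Agent.H8.FZ

open Complex Metric MeasureTheory Set Filter Topology
open scoped ContDiff ComplexConjugate

variable {n : ℕ}

theorem quad_compact {Q₁ Q₂ : En n → ℝ} (h1 : Continuous Q₁) (h2 : Continuous Q₂)
    (hh1 : ∀ (t : ℝ) (w : En n), Q₁ (t • w) = t ^ 2 * Q₁ w)
    (hh2 : ∀ (t : ℝ) (w : En n), Q₂ (t • w) = t ^ 2 * Q₂ w) (h0 : ∀ w, 0 ≤ Q₂ w)
    (hpos : ∀ w, w ≠ 0 → Q₂ w = 0 → 0 < Q₁ w) :
    ∃ A c : ℝ, 0 ≤ A ∧ 0 < c ∧ ∀ w, c * ‖w‖ ^ 2 ≤ Q₁ w + A * Q₂ w := by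
  by_contra hcon
  push Not at hcon
  have hk : ∀ k : ℕ, ∃ u ∈ sphere (0 : En n) 1, Q₁ u + (k : ℝ) * Q₂ u < 1 / ((k : ℝ) + 1) := by
    intro k
    obtain ⟨w, hw⟩ := hcon (k : ℝ) (1 / ((k : ℝ) + 1)) (Nat.cast_nonneg k) (by positivity)
    have hw0 : w ≠ 0 := by
      rintro rfl
      have e1 : Q₁ 0 = 0 := by simpa using hh1 0 (0 : En n)
      have e2 : Q₂ 0 = 0 := by simpa using hh2 0 (0 : En n)
      rw [e1, e2] at hw
      simp at hw
    have hn : 0 < ‖w‖ := norm_pos_iff.mpr hw0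
    refine ⟨(‖w‖⁻¹ : ℝ) • w, ?_, ?_⟩
    · rw [mem_sphere_zero_iff_norm, norm_smul, norm_inv, norm_norm, inv_mul_cancel₀ hn.ne']
    · rw [hh1, hh2]
      have : 0 < (‖w‖⁻¹) ^ 2 := by positivity
      have h3 := mul_lt_mul_of_pos_left hw this
      have h4 : (‖w‖⁻¹) ^ 2 * (1 / ((k : ℝ) + 1) * ‖w‖ ^ 2) = 1 / ((k : ℝ) + 1) := by
        field_simp
      rw [h4] at h3
      linarith [h3]
  choose u hu hlt using hk
  obtain ⟨v, hv, φ, hφ, hlim⟩ := (isCompact_sphere (0 : En n) 1).tendsto_subseq hu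
  obtain ⟨b, hb, hbmin⟩ := (isCompact_sphere (0 : En n) 1).exists_isMinOn ⟨v, hv⟩ h1.continuousOn
  have hQ2 : Tendsto (fun k => Q₂ (u (φ k))) atTop (𝓝 (Q₂ v)) := (h2.tendsto v).comp hlim
  have hQ1 : Tendsto (fun k => Q₁ (u (φ k))) atTop (𝓝 (Q₁ v)) := (h1.tendsto v).comp hlim
  have hφt : Tendsto (fun k => ((φ k : ℕ) : ℝ)) atTop atTop :=
    tendsto_natCast_atTop_atTop.comp hφ.tendsto_atTop
  have hinv : Tendsto (fun k => 1 / (((φ k : ℕ) : ℝ) + 1)) atTop (𝓝 0) :=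
    tendsto_one_div_add_atTop_nhds_zero_nat.comp hφ.tendsto_atTop
  have hv0 : v ≠ 0 := by
    rintro rfl
    simp at hv
  have hle : Q₁ v ≤ 0 := by
    refine le_of_tendsto_of_tendsto' hQ1 hinv (fun k => ?_)
    have := hlt (φ k)
    have h5 : 0 ≤ ((φ k : ℕ) : ℝ) * Q₂ (u (φ k)) := mul_nonneg (Nat.cast_nonneg _) (h0 _)
    linarith
  have hQ2v : Q₂ v = 0 := by
    apply le_antisymm _ (h0 v)
    have hb2 : ∀ k, Q₂ (u (φ k)) ≤ (1 - Q₁ b + 1) * (1 / (((φ k : ℕ) : ℝ) + 1)) + Q₂ (u (φ k)) * (1 / (((φ k : ℕ) : ℝ) + 1)) := by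
      intro k
      have h6 := hlt (φ k)
      have h7 : Q₁ b ≤ Q₁ (u (φ k)) := hbmin (hu (φ k))
      have h8 : 1 / (((φ k : ℕ) : ℝ) + 1) ≤ 1 := by
        rw [div_le_one (by positivity)]
        linarith [Nat.cast_nonneg (α := ℝ) (φ k)]
      have h9 : ((φ k : ℕ) : ℝ) * Q₂ (u (φ k)) ≤ 1 - Q₁ b + 1 := by linarith
      have h10 : (0 : ℝ) < ((φ k : ℕ) : ℝ) + 1 := by positivity
      rw [← add_mul, mul_one_div, le_div_iff₀ h10]
      nlinarith [h0 (u (φ k))]
    have hlim2 : Tendsto (fun k => (1 - Q₁ b + 1) * (1 / (((φ k : ℕ) : ℝ) + 1)) +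
        Q₂ (u (φ k)) * (1 / (((φ k : ℕ) : ℝ) + 1))) atTop (𝓝 ((1 - Q₁ b + 1) * 0 + Q₂ v * 0)) :=
      (hinv.const_mul _).add (hQ2.mul hinv)
    have := le_of_tendsto_of_tendsto' hQ2 hlim2 hb2
    simpa using this
  exact absurd (hpos v hv0 hQ2v) (not_lt.mpr hle)

/-- The complex bilinear form `½(B(x,y) - B(ix,iy)) - (i/2)(B(x,iy) + B(ix,y))`. -/
private def sigB (B : En n →L[ℝ] En n →L[ℝ] ℝ) (x y : En n) : ℂ :=
  (((1 / 2 : ℝ) * (B x y - B (I • x) (I • y)) : ℝ) : ℂ) -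
    I * (((1 / 2 : ℝ) * (B x (I • y) + B (I • x) y) : ℝ) : ℂ)

private theorem I_smul_I (x : En n) : I • I • x = -x := by
  rw [smul_smul, I_mul_I, neg_one_smul]

private theorem smul_eq_re_im (c : ℂ) (x : En n) : c • x = (c.re : ℝ) • x + (c.im : ℝ) • (I • x) := by
  conv_lhs => rw [← Complex.re_add_im c]
  rw [add_smul, mul_smul]
  rfl

private theorem sigB_add_left (B : En n →L[ℝ] En n →L[ℝ] ℝ) (x x' y : En n) :
    sigB B (x + x') y = sigB B x y + sigB B x' y := by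
  unfold sigB
  simp only [smul_add, map_add, add_apply]
  push_cast
  ring

private theorem sigB_add_right (B : En n →L[ℝ] En n →L[ℝ] ℝ) (x y y' : En n) :
    sigB B x (y + y') = sigB B x y + sigB B x y' := by
  unfold sigB
  simp only [smul_add, map_add, add_apply]
  push_cast
  ring

private theorem sigB_rsmul_left (B : En n →L[ℝ] En n →L[ℝ] ℝ) (a : ℝ) (x y : En n) :
    sigB B (a • x) y = (a : ℂ) * sigB B x y := by
  unfold sigB
  have : I • a • x = a • I • x := smul_comm _ _ _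
  rw [this]
  simp only [map_smul, smul_apply, smul_eq_mul]
  push_cast
  ring

private theorem sigB_rsmul_right (B : En n →L[ℝ] En n →L[ℝ] ℝ) (a : ℝ) (x y : En n) :
    sigB B x (a • y) = (a : ℂ) * sigB B x y := by
  unfold sigB
  have : I • a • y = a • I • y := smul_comm _ _ _
  rw [this]
  simp only [map_smul, smul_eq_mul]
  push_cast
  ring

private theorem sigB_I_left (B : En n →L[ℝ] En n →L[ℝ] ℝ) (x y : En n) :
    sigB B (I • x) y = I * sigB B x y := by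
  unfold sigB
  rw [I_smul_I]
  simp only [map_neg, neg_apply]
  push_cast
  linear_combination ((1 / 2 : ℂ) * (B x (I • y) + B (I • x) y)) * I_mul_I

private theorem sigB_I_right (B : En n →L[ℝ] En n →L[ℝ] ℝ) (x y : En n) :
    sigB B x (I • y) = I * sigB B x y := by
  unfold sigB
  rw [I_smul_I]
  simp only [map_neg]
  push_cast
  linear_combination ((1 / 2 : ℂ) * (B x (I • y) + B (I • x) y)) * I_mul_I

private theorem sigB_smul_left (B : En n →L[ℝ] En n →L[ℝ] ℝ) (c : ℂ) (x y : En n) :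
    sigB B (c • x) y = c * sigB B x y := by
  rw [smul_eq_re_im, sigB_add_left, sigB_rsmul_left, sigB_rsmul_left, sigB_I_left]
  conv_rhs => rw [← Complex.re_add_im c]
  ring

private theorem sigB_smul_right (B : En n →L[ℝ] En n →L[ℝ] ℝ) (c : ℂ) (x y : En n) :
    sigB B x (c • y) = c * sigB B x y := by
  rw [smul_eq_re_im, sigB_add_right, sigB_rsmul_right, sigB_rsmul_right, sigB_I_right]
  conv_rhs => rw [← Complex.re_add_im c]
  ring

private theorem sigB_re (B : En n →L[ℝ] En n →L[ℝ] ℝ) (w : En n) :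
    (sigB B w w).re = (1 / 2 : ℝ) * (B w w - B (I • w) (I • w)) := by
  unfold sigB
  simp

/-- `sigB` as a continuous bilinear map. -/
private def sigC (B : En n →L[ℝ] En n →L[ℝ] ℝ) : En n →L[ℂ] En n →L[ℂ] ℂ :=
  LinearMap.toContinuousLinearMap
    ((LinearMap.toContinuousLinearMap : (En n →ₗ[ℂ] ℂ) ≃ₗ[ℂ] _).toLinearMap ∘ₗ
      (LinearMap.mk₂ ℂ (sigB B) (sigB_add_left B) (fun c x y => by
          rw [sigB_smul_left, smul_eq_mul]) (sigB_add_right B) (fun c x y => by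
          rw [sigB_smul_right, smul_eq_mul])))

private theorem sigC_apply (B : En n →L[ℝ] En n →L[ℝ] ℝ) (x y : En n) :
    sigC B x y = sigB B x y := rfl

theorem poly_flat {ρ₁ : En n → ℝ} (hρ : ContDiff ℝ ∞ ρ₁) {p : En n} (hd : fderiv ℝ ρ₁ p ≠ 0) :
    ∃ Ψ : En n → En n, ContDiff ℂ ∞ Ψ ∧ Ψ 0 = p ∧
      fderiv ℂ Ψ 0 = ContinuousLinearMap.id ℂ (En n) ∧
      ∀ w : En n, fderiv ℝ (fderiv ℝ (fun x => ρ₁ (Ψ x))) 0 w w =
        (1 / 2 : ℝ) * (fderiv ℝ (fderiv ℝ ρ₁) p w w +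
          fderiv ℝ (fderiv ℝ ρ₁) p (I • w) (I • w)) := by
  classical
  set B : En n →L[ℝ] En n →L[ℝ] ℝ := fderiv ℝ (fderiv ℝ ρ₁) p with hB
  set d : En n →L[ℝ] ℝ := fderiv ℝ ρ₁ p with hdd
  -- the complex linear functional
  let q : En n → ℂ := fun w => (d w : ℂ) - I * (d (I • w) : ℂ)
  have hq_re : ∀ w, (q w).re = d w := by
    intro w
    simp [q]
  have hq_smul : ∀ (c : ℂ) (w : En n), q (c • w) = c * q w := by
    intro c w
    have e1 : d (c • w) = c.re * d w + c.im * d (I • w) := by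
      rw [smul_eq_re_im, map_add, d.map_smul (c.re : ℝ) w, d.map_smul (c.im : ℝ) (I • w),
        smul_eq_mul, smul_eq_mul]
    have e2 : d (I • c • w) = c.re * d (I • w) - c.im * d w := by
      have : I • c • w = (c.re : ℝ) • (I • w) - (c.im : ℝ) • w := by
        rw [smul_eq_re_im c w, smul_add, smul_comm I (c.re : ℝ) w, smul_comm I (c.im : ℝ) (I • w),
          I_smul_I, smul_neg, sub_eq_add_neg]
      rw [this, map_sub, d.map_smul (c.re : ℝ) (I • w), d.map_smul (c.im : ℝ) w, smul_eq_mul,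
        smul_eq_mul]
    simp only [q]
    rw [e1, e2]
    push_cast
    conv_rhs => rw [← Complex.re_add_im c]
    linear_combination ((c.im : ℂ) * (d (I • w) : ℂ)) * I_mul_I
  obtain ⟨v₀, hv₀⟩ : ∃ v₀, d v₀ ≠ 0 := by
    by_contra hcon
    push Not at hcon
    exact hd (ContinuousLinearMap.ext hcon)
  have hqv : q v₀ ≠ 0 := by
    intro h
    apply hv₀
    rw [← hq_re, h, Complex.zero_re]
  let ν : En n := (q v₀)⁻¹ • v₀
  have hqν : q ν = 1 := by
    change q ((q v₀)⁻¹ • v₀) = 1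
    rw [hq_smul, inv_mul_cancel₀ hqv]
  have hdν : ∀ c : ℂ, d (c • ν) = c.re := by
    intro c
    rw [← hq_re, hq_smul, hqν, mul_one]
  let Ψ : En n → En n := fun x => p + x - ((1 / 2 : ℂ) * sigC B x x) • ν
  have hΨC : ContDiff ℂ ∞ Ψ := by
    refine (contDiff_const.add contDiff_id).sub ?_
    refine ContDiff.fun_smul ?_ contDiff_const
    exact contDiff_const.mul ((sigC B).contDiff.clm_apply contDiff_id)
  have hΨ0 : Ψ 0 = p := by
    simp [Ψ]
  refine ⟨Ψ, hΨC, hΨ0, ?_, ?_⟩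
  · have h1 : HasFDerivAt (fun x : En n => sigC B x x) (0 : En n →L[ℂ] ℂ) 0 := by
      have := ((sigC B).hasFDerivAt (x := (0 : En n))).clm_apply (hasFDerivAt_id (𝕜 := ℂ) (0 : En n))
      refine this.congr_fderiv ?_
      ext w
      simp
    have h2 : HasFDerivAt (fun x : En n => ((1 / 2 : ℂ) * sigC B x x) • ν) (0 : En n →L[ℂ] En n) 0 := by
      have := (h1.const_mul (1 / 2 : ℂ)).smul_const ν
      refine this.congr_fderiv ?_
      ext w
      simp
    have h3 : HasFDerivAt Ψ (ContinuousLinearMap.id ℂ (En n) - 0) 0 :=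
      ((hasFDerivAt_id (𝕜 := ℂ) (0 : En n)).const_add p).sub h2
    rw [h3.fderiv, sub_zero]
  · intro w
    have hΨR : ContDiff ℝ ∞ Ψ := hΨC.restrict_scalars ℝ
    set g : En n → ℝ := fun x => ρ₁ (Ψ x) with hg
    have hgR : ContDiff ℝ ∞ g := hρ.comp hΨR
    have hg1 : Differentiable ℝ g := hgR.differentiable (by simp)
    have hg2 : Differentiable ℝ (fderiv ℝ g) :=
      (hgR.fderiv_right (m := ∞) (by simp)).differentiable (by simp)
    have hρ1 : Differentiable ℝ ρ₁ := hρ.differentiable (by simp)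
    have hρ2 : Differentiable ℝ (fderiv ℝ ρ₁) :=
      (hρ.fderiv_right (m := ∞) (by simp)).differentiable (by simp)
    set s : ℂ := sigC B w w with hs
    let γ : ℝ → En n := fun t => p + t • w - ((1 / 2 * t ^ 2 : ℝ)) • (s • ν)
    let γ' : ℝ → En n := fun t => w - t • (s • ν)
    have hγ : ∀ t : ℝ, Ψ (t • w) = γ t := by
      intro t
      simp only [Ψ, γ]
      congr 1
      rw [sigC_apply, sigB_rsmul_left, sigB_rsmul_right, ← sigC_apply, ← hs]
      have : ((1 / 2 : ℂ) * ((t : ℂ) * ((t : ℂ) * s))) = ((1 / 2 * t ^ 2 : ℝ) : ℂ) * s := by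
        push_cast
        ring
      rw [this, mul_smul]
      rfl
    have hγd : ∀ t : ℝ, HasDerivAt γ (γ' t) t := by
      intro t
      have a1 : HasDerivAt (fun t : ℝ => p + t • w) w t := by
        have := ((hasDerivAt_id t).smul_const w).const_add p
        simpa using this
      have a2 : HasDerivAt (fun t : ℝ => ((1 / 2 * t ^ 2 : ℝ)) • (s • ν)) (t • (s • ν)) t := by
        have h0 : HasDerivAt (fun t : ℝ => (1 / 2 * t ^ 2 : ℝ)) t t := by
          have := ((hasDerivAt_pow 2 t).const_mul (1 / 2 : ℝ))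
          refine this.congr_deriv ?_
          push_cast
          ring
        exact h0.smul_const (s • ν)
      exact a1.sub a2
    have hline : ∀ t : ℝ, HasDerivAt (fun t : ℝ => t • w) w t := by
      intro t
      have := (hasDerivAt_id t).smul_const w
      simpa using this
    have hd1 : ∀ t : ℝ, fderiv ℝ g (t • w) w = fderiv ℝ ρ₁ (γ t) (γ' t) := by
      intro t
      have b1 : HasDerivAt (g ∘ (fun t : ℝ => t • w)) (fderiv ℝ g (t • w) w) t :=
        HasFDerivAt.comp_hasDerivAt (f := fun t : ℝ => t • w) (l := g) t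
          (hg1 (t • w)).hasFDerivAt (hline t)
      have b2 : HasDerivAt (fun t : ℝ => ρ₁ (γ t)) (fderiv ℝ ρ₁ (γ t) (γ' t)) t :=
        (hρ1 (γ t)).hasFDerivAt.comp_hasDerivAt t (hγd t)
      have b3 : (g ∘ (fun t : ℝ => t • w)) = fun t : ℝ => ρ₁ (γ t) := by
        funext t
        simp only [hg, Function.comp]
        rw [hγ]
      rw [b3] at b1
      exact b1.unique b2
    have hL : HasDerivAt (fun t : ℝ => fderiv ℝ g (t • w) w) (fderiv ℝ (fderiv ℝ g) 0 w w) 0 := by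
      have c1 : HasDerivAt (fun t : ℝ => fderiv ℝ g (t • w))
          (fderiv ℝ (fderiv ℝ g) ((0 : ℝ) • w) w) 0 :=
        (hg2 ((0 : ℝ) • w)).hasFDerivAt.comp_hasDerivAt 0 (hline 0)
      have c2 := c1.clm_apply (hasDerivAt_const (0 : ℝ) w)
      simpa using c2
    have hγ0 : γ 0 = p := by simp [γ]
    have hγ'0 : γ' 0 = w := by simp [γ']
    have hR : HasDerivAt (fun t : ℝ => fderiv ℝ ρ₁ (γ t) (γ' t))
        (B w w + d (-(s • ν))) 0 := by
      have c1 : HasDerivAt (fun t : ℝ => fderiv ℝ ρ₁ (γ t))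
          (fderiv ℝ (fderiv ℝ ρ₁) (γ 0) (γ' 0)) 0 :=
        (hρ2 (γ 0)).hasFDerivAt.comp_hasDerivAt 0 (hγd 0)
      have c3 : HasDerivAt γ' (-(s • ν)) 0 := by
        have := (((hasDerivAt_id (0 : ℝ)).smul_const (s • ν)).const_sub w)
        simpa using this
      have c2 := c1.clm_apply c3
      rw [hγ0, hγ'0] at c2
      exact c2
    have heq : fderiv ℝ (fderiv ℝ g) 0 w w = B w w + d (-(s • ν)) := by
      have : (fun t : ℝ => fderiv ℝ g (t • w) w) = fun t : ℝ => fderiv ℝ ρ₁ (γ t) (γ' t) :=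
        funext hd1
      rw [this] at hL
      exact hL.unique hR
    rw [heq, map_neg, hdν, hs, sigC_apply, sigB_re]
    ring

end Pool.Agent.H8.FZ
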