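import Pool.Agent.H8.FZ.Calc
import Pool.Agent.H8.FZ.Quad

/-!
# FZ-EXH0: the domain; strict plurisubharmonicity near the boundary

* `closure_eq`: at a point with `ρ = 0`, `dρ ≠ 0` there are points with `ρ < 0` arbitrarily close.
* `strict_near`: `O₁` bounded. At every `z ∈ closure O₁` with `ρ z = 0`, `quad_compact` gives `A_z, c_z`
  (`levi = ¼(D²(w,w)+D²(iw,iw))`); by continuity of `dρ, D²ρ` (in operator norm) the inequality
  persists near `z` with `c_z/2`; the set `closure O₁ ∩ {ρ = 0}` is compact, take a finite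
  subcover, the maximum of the `A`s and the minimum of the `c`s; the set
  `closure O₁ ∩ {|ρ| ≤ δ₁}` is contained in the union of the neighbourhoods for `δ₁` small
  (compactness).
* `exists_exh`: choose `O₁` open bounded with `closure D₀ ⊆ O₁`, `closure O₁ ⊆ O` (`closure D₀` is
  compact). On the compact `frontier O₁`: `ρ ≥ δ₂ > 0`. Take `δ, c' > 0` small:
  `c' < δ₂`, `δ, c' ≤ δ₁`, and (1 - 2x)/x² ≥ 4A for `0 < x ≤ δ + c'`. `g = expNegInvGlue`
  (`g(x) = exp(-1/x)`, `x > 0`; `g' = x^{-2} g`, `g'' = (x^{-4} - 2x^{-3}) g`, so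
  `g'' = ((1-2x)/x²) g' ≥ 4A g'`), `θ(z) = g(ρ z + δ)`, `c₀ = g(c' + δ)`,
  `Ω = {z ∈ O₁ : ρ z < c'} = {z ∈ O₁ : θ z < c₀}`. For `z ∈ Ω` with `ρ z + δ ≤ 0` all derivatives of
  `g` vanish at `ρ z + δ` and `levi θ = 0`; otherwise `|ρ z| ≤ δ₁` and by `levi_comp`
  `levi θ = g' levi ρ + g''·¼((dρ w)²+(dρ(iw))²) ≥ g'(levi ρ + A(...)) ≥ 0`.
  `P = 1/(c₀ - θ) + ‖z‖² + 1`: `levi (1/(c₀-θ)) = levi θ/(c₀-θ)² + 2/(c₀-θ)³ ¼(...) ≥ 0`
  (`levi_comp` with `t ↦ 1/(c₀ - t)`), `levi ‖z‖² = ‖w‖²` (`levi_norm_sq`).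
  `‖dP‖ ≤ ‖dθ‖/(c₀-θ)² + 2‖z‖ ≤ C P²` (`dθ` bounded on the bounded set `Ω`).
  Sublevel sets: `P z ≤ t` gives `θ z ≤ c₀ - 1/t`, so `ρ z ≤ t' < c'`; the set
  `{z ∈ closure O₁ : ρ z ≤ t'}` is compact and does not meet `frontier O₁`, and `{z ∈ Ω : P z ≤ t}` is
  closed in it.
-/

set_option autoImplicit false

noncomputable section

namespace Pool.Agent.H8.FZ

open Complex Metric MeasureTheory Set Filter Topology
open scoped ContDiff ComplexConjugate

variable {n : ℕ}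

theorem closure_eq {D₀ : Set (En n)} {ρ : En n → ℝ} (hD : Dom D₀ ρ) :
    closure D₀ = {z | ρ z ≤ 0} := by
  have hρc : Continuous ρ := hD.smooth.continuous
  apply Subset.antisymm
  · apply closure_minimal
    · intro z hz
      rw [hD.eq] at hz
      exact le_of_lt (show ρ z < 0 from hz)
    · exact isClosed_le hρc continuous_const
  · intro z hz
    by_contra hzc
    have hz0 : ρ z = 0 := by
      rcases lt_or_eq_of_le (show ρ z ≤ 0 from hz) with h | h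
      · exfalso
        apply hzc
        apply subset_closure
        rw [hD.eq]
        exact h
      · exact h
    have hmin : IsLocalMin ρ z := by
      filter_upwards [isClosed_closure.isOpen_compl.mem_nhds hzc] with x hx
      rw [hz0]
      by_contra hlt
      rw [not_le] at hlt
      apply hx
      apply subset_closure
      rw [hD.eq]
      exact hlt
    exact hD.grad z hz0 hmin.fderiv_eq_zero

theorem frontier_eq {D₀ : Set (En n)} {ρ : En n → ℝ} (hD : Dom D₀ ρ) :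
    frontier D₀ = {z | ρ z = 0} := by
  have hρc : Continuous ρ := hD.smooth.continuous
  have hDo : IsOpen D₀ := by
    rw [hD.eq]
    exact isOpen_lt hρc continuous_const
  rw [hDo.frontier_eq, closure_eq hD]
  ext z
  rw [hD.eq]
  constructor
  · rintro ⟨h1, h2⟩
    exact le_antisymm h1 (not_lt.mp h2)
  · intro h
    have h' : ρ z = 0 := h
    exact ⟨h'.le, not_lt.mpr h'.ge⟩

lemma levi_smul (P : En n → ℝ) (z : En n) (t : ℝ) (w : En n) :
    levi P z (t • w) = t ^ 2 * levi P z w := by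
  unfold levi
  rw [smul_comm I t w]
  simp only [map_smul, _root_.smul_apply, smul_eq_mul]
  ring

lemma continuous_levi {ρ : En n → ℝ} (hρ : ContDiff ℝ ∞ ρ) :
    Continuous (fun x : En n × En n => levi ρ x.1 x.2) := by
  have h2 : ContDiff ℝ ∞ (fderiv ℝ ρ) := (contDiff_infty_iff_fderiv.mp hρ).2
  have h3 : Continuous (fderiv ℝ (fderiv ℝ ρ)) := h2.continuous_fderiv (by simp)
  have h4 : Continuous (fun x : En n × En n => fderiv ℝ (fderiv ℝ ρ) x.1) :=
    h3.comp continuous_fst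
  have h5 : Continuous (fun x : En n × En n => I • x.2) := continuous_snd.const_smul I
  unfold levi
  exact continuous_const.mul (((h4.clm_apply continuous_snd).clm_apply continuous_snd).add
    ((h4.clm_apply h5).clm_apply h5))

theorem strict_near {D₀ : Set (En n)} {ρ : En n → ℝ} (hD : Dom D₀ ρ) {O₁ : Set (En n)}
    (hO : Bornology.IsBounded O₁) :
    ∃ δ₁ A c : ℝ, 0 < δ₁ ∧ 0 ≤ A ∧ 0 < c ∧ ∀ z ∈ closure O₁, |ρ z| ≤ δ₁ → ∀ w : En n,
      c * ‖w‖ ^ 2 ≤ levi ρ z w + A * (fderiv ℝ ρ z w ^ 2 + fderiv ℝ ρ z (I • w) ^ 2) := by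
  by_contra hcon
  have hfd : Continuous (fderiv ℝ ρ) := hD.smooth.continuous_fderiv (by simp)
  set Q : En n × En n → ℝ := fun x =>
    fderiv ℝ ρ x.1 x.2 ^ 2 + fderiv ℝ ρ x.1 (I • x.2) ^ 2 with hQ
  have hQc : Continuous Q := by
    have h4 : Continuous (fun x : En n × En n => fderiv ℝ ρ x.1) := hfd.comp continuous_fst
    have h5 : Continuous (fun x : En n × En n => I • x.2) := continuous_snd.const_smul I
    exact ((h4.clm_apply continuous_snd).pow 2).add ((h4.clm_apply h5).pow 2)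
  have hQ0 : ∀ x, 0 ≤ Q x := fun x => by positivity
  have hQs : ∀ (z w : En n) (t : ℝ), Q (z, t • w) = t ^ 2 * Q (z, w) := by
    intro z w t
    simp only [hQ]
    rw [smul_comm I t w]
    simp only [map_smul, smul_eq_mul]
    ring
  have hLc := continuous_levi hD.smooth
  have hseq : ∀ k : ℕ, ∃ x : En n × En n, x.1 ∈ closure O₁ ∧ |ρ x.1| ≤ 1 / ((k : ℝ) + 1) ∧
      x.2 ∈ sphere (0 : En n) 1 ∧ levi ρ x.1 x.2 + k * Q x < 1 / ((k : ℝ) + 1) := by
    intro k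
    by_contra hk
    apply hcon
    refine ⟨1 / ((k : ℝ) + 1), k, 1 / ((k : ℝ) + 1), by positivity, by positivity, by positivity,
      ?_⟩
    intro z hz hzρ w
    by_contra hw
    rw [not_le] at hw
    have hw0 : w ≠ 0 := by
      rintro rfl
      simp [levi] at hw
    have hn : 0 < ‖w‖ := norm_pos_iff.mpr hw0
    apply hk
    refine ⟨(z, ‖w‖⁻¹ • w), hz, hzρ, ?_, ?_⟩
    · rw [mem_sphere_zero_iff_norm, norm_smul, norm_inv, norm_norm, inv_mul_cancel₀ hn.ne']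
    · show levi ρ z (‖w‖⁻¹ • w) + k * Q (z, ‖w‖⁻¹ • w) < _
      rw [levi_smul, hQs]
      have h1 : levi ρ z w + k * Q (z, w) < 1 / ((k : ℝ) + 1) * ‖w‖ ^ 2 := hw
      have h2 : ‖w‖⁻¹ ^ 2 * (levi ρ z w + k * Q (z, w)) <
          ‖w‖⁻¹ ^ 2 * (1 / ((k : ℝ) + 1) * ‖w‖ ^ 2) :=
        mul_lt_mul_of_pos_left h1 (by positivity)
      have h3 : ‖w‖⁻¹ ^ 2 * (1 / ((k : ℝ) + 1) * ‖w‖ ^ 2) = 1 / ((k : ℝ) + 1) := by
        field_simp
      rw [h3] at h2
      linarith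
  choose x hx1 hx2 hx3 hx4 using hseq
  have hcomp : IsCompact (closure O₁ ×ˢ sphere (0 : En n) 1) :=
    hO.isCompact_closure.prod (isCompact_sphere 0 1)
  obtain ⟨y, hy, φ, hφ, hlim⟩ := hcomp.tendsto_subseq (x := x) (fun k => ⟨hx1 k, hx3 k⟩)
  have h0 : Tendsto (fun k : ℕ => 1 / ((k : ℝ) + 1)) atTop (𝓝 0) :=
    tendsto_one_div_add_atTop_nhds_zero_nat
  have h0φ : Tendsto (fun k : ℕ => 1 / (((φ k : ℕ) : ℝ) + 1)) atTop (𝓝 0) :=
    h0.comp hφ.tendsto_atTop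
  have hρy : ρ y.1 = 0 := by
    have h1 : Tendsto (fun k => |ρ (x (φ k)).1|) atTop (𝓝 |ρ y.1|) :=
      ((hD.smooth.continuous.comp continuous_fst).abs.tendsto y).comp hlim
    have h2 : Tendsto (fun k => |ρ (x (φ k)).1|) atTop (𝓝 0) :=
      squeeze_zero (fun k => abs_nonneg _) (fun k => hx2 (φ k)) h0φ
    exact abs_eq_zero.mp (tendsto_nhds_unique h1 h2)
  have hLlim : Tendsto (fun k => levi ρ (x (φ k)).1 (x (φ k)).2) atTop (𝓝 (levi ρ y.1 y.2)) :=
    (hLc.tendsto y).comp hlim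
  have hQlim : Tendsto (fun k => Q (x (φ k))) atTop (𝓝 (Q y)) := (hQc.tendsto y).comp hlim
  have hLy : levi ρ y.1 y.2 ≤ 0 := by
    refine le_of_tendsto_of_tendsto' hLlim h0φ (fun k => ?_)
    have h1 := hx4 (φ k)
    have h2 : 0 ≤ ((φ k : ℕ) : ℝ) * Q (x (φ k)) := mul_nonneg (Nat.cast_nonneg _) (hQ0 _)
    linarith
  have hQy : Q y = 0 := by
    have h1 : Tendsto (fun k : ℕ => (1 / (((φ k : ℕ) : ℝ) + 1)) *
        (1 - levi ρ (x (φ k)).1 (x (φ k)).2 + Q (x (φ k)))) atTop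
        (𝓝 (0 * (1 - levi ρ y.1 y.2 + Q y))) :=
      h0φ.mul ((tendsto_const_nhds.sub hLlim).add hQlim)
    rw [zero_mul] at h1
    have h2 : Tendsto (fun k => Q (x (φ k))) atTop (𝓝 0) := by
      refine squeeze_zero (fun k => hQ0 _) (fun k => ?_) h1
      have h3 := hx4 (φ k)
      have h4 : (0 : ℝ) < ((φ k : ℕ) : ℝ) + 1 := by positivity
      have h5 : 1 / (((φ k : ℕ) : ℝ) + 1) ≤ 1 := by
        rw [div_le_one h4]
        have : (0 : ℝ) ≤ ((φ k : ℕ) : ℝ) := Nat.cast_nonneg _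
        linarith
      rw [one_div, inv_mul_eq_div, le_div_iff₀ h4]
      linarith
    exact tendsto_nhds_unique hQlim h2
  have hy2 : y.2 ≠ 0 := by
    have h1 := hy.2
    rw [mem_sphere_zero_iff_norm] at h1
    intro h2
    rw [h2, norm_zero] at h1
    exact zero_ne_one h1
  have hQ1 : fderiv ℝ ρ y.1 y.2 = 0 ∧ fderiv ℝ ρ y.1 (I • y.2) = 0 := by
    have h1 : fderiv ℝ ρ y.1 y.2 ^ 2 + fderiv ℝ ρ y.1 (I • y.2) ^ 2 = 0 := hQy
    constructor
    · nlinarith [sq_nonneg (fderiv ℝ ρ y.1 y.2), sq_nonneg (fderiv ℝ ρ y.1 (I • y.2))]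
    · nlinarith [sq_nonneg (fderiv ℝ ρ y.1 y.2), sq_nonneg (fderiv ℝ ρ y.1 (I • y.2))]
  have h3 := hD.levi y.1 hρy y.2 hy2 hQ1.1 hQ1.2
  rw [iteratedFDeriv_two_apply, iteratedFDeriv_two_apply] at h3
  simp only [Matrix.cons_val_zero, Matrix.cons_val_one] at h3
  unfold levi at hLy
  linarith

end Pool.Agent.H8.FZ
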