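import Pool.Agent.H8.FZ.Exh0
import Pool.Agent.H8.FZ.Holo

/-!
# FZ-FINAL: from a good function to `A^∞`, flat exactly on `F`

`g, O, M, δ` as in `GoodFor ρ (closure D₀) F g`, `N = {z ∈ O : ρ z < δ infDist z F^M}` (open).
`closure D₀ \ F ⊆ N` since `ρ ≤ 0` on `closure D₀` and `infDist z F > 0`. Put `f = g` off `F`, `f = 0` on
`F`. `D₀ ∩ F = ∅` (`F ⊆ frontier D₀`, `D₀` open). The set `{ρ < 0} = D₀` and `N` are open; near
`z ∈ N \ F`: `f = g` (`F` closed).

Key estimate: for `z ∈ closure D₀ \ F` and `d = infDist z F`, the ball `B(z, c' d^{M})`, `c'` small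
(depending on: a Lipschitz constant of `ρ` on a bounded convex neighbourhood, the distance from
`closure D₀` to the complement of `O`, `diam`), is contained in `N`, and `infDist ≤ 2d` on it (take
`M ≥ 1` w.l.o.g. or radius `c' min(d, d^M)`); so by `cauchy_iter` and the bound
`‖g‖ ≤ C_k infDist^k`: `‖iteratedFDeriv ℝ k g z‖ ≤ C (c' d^M)^{-k} (2d)^{Mk+1} → 0` as `z → F`.

Jets: `G_k z = iteratedFDeriv ℝ k g z` for `z ∉ F`, `0` for `z ∈ F`. On `N \ F` it is continuous
(`holo_contDiffOn_real`), at `z ∈ F` by the key estimate. On `D₀`, `f = g` locally, so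
`iteratedFDeriv ℝ k f = G_k`. Zero set: `g ≠ 0` on `N`.
-/

set_option autoImplicit false

noncomputable section

namespace Pool.Agent.H8.FZ

open Complex Metric MeasureTheory Set Filter Topology
open scoped ContDiff ComplexConjugate

variable {n : ℕ}

theorem final {D₀ : Set (En n)} {ρ : En n → ℝ} (hD : Dom D₀ ρ) (hne : D₀.Nonempty)
    {F : Set (En n)} (hFn : F.Nonempty) (hFc : IsClosed F) (hF : F ⊆ frontier D₀)
    {g : En n → ℂ} (hg : GoodFor ρ (closure D₀) F g) :
    ∃ f : En n → ℂ, FlatOn D₀ f F ∧ (∃ z ∈ D₀, f z ≠ 0) ∧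
      {z | z ∈ closure D₀ ∧ f z = 0} = F := by
  classical
  obtain ⟨O, M, δ, hO, hKO, hOb, hδ, hM, hgd, hg0, hgk⟩ := hg
  have hρc : Continuous ρ := hD.smooth.continuous
  have hdc : Continuous (fun z : En n => infDist z F) := continuous_infDist_pt F
  set N : Set (En n) := {z | z ∈ O ∧ ρ z < δ * infDist z F ^ M} with hN
  have hNo : IsOpen N := by
    have h1 : IsOpen {z : En n | ρ z < δ * infDist z F ^ M} :=
      isOpen_lt hρc (continuous_const.mul (hdc.pow M))
    exact hO.inter h1
  have hDo : IsOpen D₀ := by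
    rw [hD.eq]
    exact isOpen_lt hρc continuous_const
  have hcl : closure D₀ = {z | ρ z ≤ 0} := closure_eq hD
  have hcomp : IsCompact (closure D₀) := hD.bdd.isCompact_closure
  have hdpos : ∀ z, z ∉ F → 0 < infDist z F := fun z hz =>
    (hFc.notMem_iff_infDist_pos hFn).mp hz
  have hd0 : ∀ z ∈ F, infDist z F = 0 := fun z hz => infDist_zero_of_mem hz
  have hDF : ∀ z ∈ D₀, z ∉ F := by
    intro z hz hzF
    have h1 := hF hzF
    rw [hDo.frontier_eq] at h1
    exact h1.2 hz
  have hclN : ∀ z ∈ closure D₀, z ∉ F → z ∈ N := by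
    intro z hz hzF
    have h1 : ρ z ≤ 0 := by
      rw [hcl] at hz
      exact hz
    have h2 := hdpos z hzF
    exact ⟨hKO hz, lt_of_le_of_lt h1 (by positivity)⟩
  set f : En n → ℂ := fun z => if z ∈ F then 0 else g z with hf
  have hfg : ∀ z, z ∉ F → f =ᶠ[𝓝 z] g := by
    intro z hz
    filter_upwards [hFc.isOpen_compl.mem_nhds hz] with x hx
    simp only [hf, if_neg hx]
  have hfF : ∀ z ∈ F, f z = 0 := fun z hz => by simp only [hf, if_pos hz]
  have hgat : ∀ z ∈ N, DifferentiableAt ℂ g z := fun z hz => hgd.differentiableAt (hNo.mem_nhds hz)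
  have hgr : ContDiffOn ℝ ∞ g N := holo_contDiffOn_real hNo hgd
  -- nonnegative constants
  have hgk' : ∀ k : ℕ, ∃ C : ℝ, 0 ≤ C ∧ ∀ z ∈ N, ‖g z‖ ≤ C * infDist z F ^ k := by
    intro k
    obtain ⟨C, hC⟩ := hgk k
    refine ⟨|C|, abs_nonneg _, fun z hz => (hC z hz.1 hz.2).trans ?_⟩
    exact mul_le_mul_of_nonneg_right (le_abs_self _) (pow_nonneg infDist_nonneg _)
  -- geometry: balls in `N`
  obtain ⟨s₀, hs₀, hs₀O⟩ := hcomp.exists_cthickening_subset_open hO hKO
  obtain ⟨R₀, hR₀⟩ := (hcomp.cthickening (r := s₀)).isBounded.subset_closedBall (0 : En n)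
  obtain ⟨Kρ', hKρ'⟩ := (isCompact_closedBall (0 : En n) R₀).exists_bound_of_continuousOn
    ((hD.smooth.continuous_fderiv (by simp)).continuousOn)
  set Kρ : ℝ := |Kρ'| + 1 with hKρ
  have hKρpos : 0 < Kρ := by positivity
  have hLip : ∀ x ∈ cthickening s₀ (closure D₀), ∀ y ∈ cthickening s₀ (closure D₀),
      ‖ρ x - ρ y‖ ≤ Kρ * ‖x - y‖ := by
    intro x hx y hy
    refine Convex.norm_image_sub_le_of_norm_fderiv_le (𝕜 := ℝ)
      (fun w _ => (hD.smooth.differentiable (by simp)) w) (fun w hw => ?_)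
      (convex_closedBall (0 : En n) R₀) (hR₀ hy) (hR₀ hx)
    exact (hKρ' w hw).trans ((le_abs_self _).trans (by rw [hKρ]; linarith))
  set c₁ : ℝ := min (min (1 / 2) s₀) (δ / (2 ^ M * Kρ * 2)) with hc₁
  have hc₁pos : 0 < c₁ := by
    rw [hc₁]
    refine lt_min (lt_min (by norm_num) hs₀) (by positivity)
  have hc₁a : c₁ ≤ 1 / 2 := (min_le_left _ _).trans (min_le_left _ _)
  have hc₁b : c₁ ≤ s₀ := (min_le_left _ _).trans (min_le_right _ _)
  have hc₁c : Kρ * c₁ < δ / 2 ^ M := by
    have h1 : c₁ ≤ δ / (2 ^ M * Kρ * 2) := min_le_right _ _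
    calc Kρ * c₁ ≤ Kρ * (δ / (2 ^ M * Kρ * 2)) := mul_le_mul_of_nonneg_left h1 hKρpos.le
      _ = δ / 2 ^ M / 2 := by field_simp
      _ < δ / 2 ^ M := half_lt_self (by positivity)
  have hball : ∀ z ∈ closure D₀, z ∉ F → infDist z F ≤ 1 →
      ∀ x ∈ ball z (c₁ * infDist z F ^ M), x ∈ N ∧ infDist x F ≤ 2 * infDist z F := by
    intro z hz hzF hd1 x hx
    have hd := hdpos z hzF
    set d := infDist z F with hdd
    have hdM : d ^ M ≤ d := by
      calc d ^ M ≤ d ^ 1 := pow_le_pow_of_le_one hd.le hd1 hM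
        _ = d := pow_one d
    have hdM1 : d ^ M ≤ 1 := pow_le_one₀ hd.le hd1
    have hdMpos : 0 < d ^ M := by positivity
    rw [mem_ball] at hx
    have hx1 : dist x z < d / 2 := by
      calc dist x z < c₁ * d ^ M := hx
        _ ≤ 1 / 2 * d := mul_le_mul hc₁a hdM hdMpos.le (by norm_num)
        _ = d / 2 := by ring
    have hx2 : dist x z < s₀ := by
      calc dist x z < c₁ * d ^ M := hx
        _ ≤ s₀ * 1 := mul_le_mul hc₁b hdM1 hdMpos.le hs₀.le
        _ = s₀ := mul_one _
    have h3 : infDist x F ≤ 2 * d := by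
      have := infDist_le_infDist_add_dist (s := F) (x := x) (y := z)
      linarith
    have h4 : d / 2 ≤ infDist x F := by
      have := infDist_le_infDist_add_dist (s := F) (x := z) (y := x)
      rw [dist_comm] at this
      linarith
    have h5 : x ∈ cthickening s₀ (closure D₀) := by
      apply thickening_subset_cthickening
      rw [mem_thickening_iff]
      exact ⟨z, hz, hx2⟩
    have h6 : z ∈ cthickening s₀ (closure D₀) := self_subset_cthickening _ hz
    have h7 : ρ z ≤ 0 := by
      rw [hcl] at hz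
      exact hz
    have h8 := hLip x h5 z h6
    rw [Real.norm_eq_abs, ← dist_eq_norm] at h8
    have h9 : ρ x ≤ Kρ * dist x z := by
      have := le_abs_self (ρ x - ρ z)
      linarith
    refine ⟨⟨hs₀O h5, ?_⟩, h3⟩
    calc ρ x ≤ Kρ * dist x z := h9
      _ ≤ Kρ * (c₁ * d ^ M) := mul_le_mul_of_nonneg_left hx.le hKρpos.le
      _ = Kρ * c₁ * d ^ M := by ring
      _ < δ / 2 ^ M * d ^ M := mul_lt_mul_of_pos_right hc₁c hdMpos
      _ = δ * (d / 2) ^ M := by rw [div_pow]; ring
      _ ≤ δ * infDist x F ^ M :=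
          mul_le_mul_of_nonneg_left (pow_le_pow_left₀ (by positivity) h4 M) hδ.le
  obtain ⟨Ck, hCk⟩ := cauchy_iter n
  have hkey : ∀ k : ℕ, ∃ C : ℝ, ∀ z ∈ closure D₀, z ∉ F → infDist z F ≤ 1 →
      ‖iteratedFDeriv ℝ k g z‖ ≤ C * infDist z F := by
    intro k
    obtain ⟨C, hC0, hC⟩ := hgk' (M * k + 1)
    refine ⟨Ck k * (C * 2 ^ (M * k + 1)) / c₁ ^ k, ?_⟩
    intro z hz hzF hd1
    have hd := hdpos z hzF
    have h1 := hCk k g z (c₁ * infDist z F ^ M) (C * (2 * infDist z F) ^ (M * k + 1))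
      (by positivity)
      (fun x hx => (hgat x (hball z hz hzF hd1 x hx).1).differentiableWithinAt)
      (fun x hx => by
        have h2 := hball z hz hzF hd1 x hx
        refine (hC x h2.1).trans (mul_le_mul_of_nonneg_left ?_ hC0)
        exact pow_le_pow_left₀ infDist_nonneg h2.2 _)
    refine h1.trans (le_of_eq ?_)
    rw [mul_pow, mul_pow, ← pow_mul, pow_succ (infDist z F) (M * k)]
    field_simp
  -- jets
  have hjet : ∀ k : ℕ, ContinuousOn
      (fun z => if z ∈ F then (0 : ContinuousMultilinearMap ℝ (fun _ : Fin k => En n) ℂ)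
        else iteratedFDeriv ℝ k g z) (closure D₀) := by
    intro k z hz
    by_cases hzF : z ∈ F
    · obtain ⟨C, hC⟩ := hkey k
      have h1 : ∀ x ∈ closure D₀, infDist x F ≤ 1 →
          ‖(if x ∈ F then (0 : ContinuousMultilinearMap ℝ (fun _ : Fin k => En n) ℂ)
            else iteratedFDeriv ℝ k g x)‖ ≤ |C| * infDist x F := by
        intro x hx hx1
        by_cases hxF : x ∈ F
        · rw [if_pos hxF, norm_zero]
          exact mul_nonneg (abs_nonneg _) infDist_nonneg
        · rw [if_neg hxF]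
          exact (hC x hx hxF hx1).trans
            (mul_le_mul_of_nonneg_right (le_abs_self _) infDist_nonneg)
      show Tendsto _ _ _
      beta_reduce
      rw [if_pos hzF]
      have h2 : Tendsto (fun x : En n => |C| * infDist x F) (𝓝[closure D₀] z) (𝓝 0) := by
        have h3 : Tendsto (fun x : En n => |C| * infDist x F) (𝓝 z) (𝓝 (|C| * infDist z F)) :=
          ((continuous_const.mul hdc).tendsto z)
        rw [hd0 z hzF, mul_zero] at h3
        exact h3.mono_left nhdsWithin_le_nhds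
      refine squeeze_zero_norm' ?_ h2
      have h4 : ∀ᶠ x in 𝓝[closure D₀] z, infDist x F < 1 := by
        have h5 : ∀ᶠ x in 𝓝 z, infDist x F < 1 := by
          apply (hdc.tendsto z).eventually_lt_const
          rw [hd0 z hzF]
          exact one_pos
        exact nhdsWithin_le_nhds h5
      filter_upwards [h4, self_mem_nhdsWithin] with x hx1 hx2
      exact h1 x hx2 hx1.le
    · have hzN := hclN z hz hzF
      have h1 : ContinuousAt (iteratedFDeriv ℝ k g) z :=
        ((hgr.contDiffAt (hNo.mem_nhds hzN)).continuousAt_iteratedFDeriv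
          (by exact_mod_cast le_top))
      apply ContinuousAt.continuousWithinAt
      refine h1.congr ?_
      filter_upwards [hFc.isOpen_compl.mem_nhds hzF] with x hx
      rw [if_neg hx]
  refine ⟨f, ⟨?_, ?_, ?_⟩, ?_, ?_⟩
  · intro z hz
    have hzF := hDF z hz
    have h1 := hgat z (hclN z (subset_closure hz) hzF)
    exact (h1.congr_of_eventuallyEq (hfg z hzF)).differentiableWithinAt
  · -- continuity
    obtain ⟨C, hC0, hC⟩ := hgk' 1
    intro z hz
    by_cases hzF : z ∈ F
    · show Tendsto _ _ _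
      rw [hfF z hzF]
      have h2 : Tendsto (fun x : En n => C * infDist x F) (𝓝[closure D₀] z) (𝓝 0) := by
        have h3 : Tendsto (fun x : En n => C * infDist x F) (𝓝 z) (𝓝 (C * infDist z F)) :=
          ((continuous_const.mul hdc).tendsto z)
        rw [hd0 z hzF, mul_zero] at h3
        exact h3.mono_left nhdsWithin_le_nhds
      refine squeeze_zero_norm' ?_ h2
      filter_upwards [self_mem_nhdsWithin] with x hx
      by_cases hxF : x ∈ F
      · rw [hfF x hxF, norm_zero]
        exact mul_nonneg hC0 infDist_nonneg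
      · have h4 := hC x (hclN x hx hxF)
        rw [pow_one] at h4
        simp only [hf, if_neg hxF]
        exact h4
    · have h1 := (hgat z (hclN z hz hzF)).continuousAt
      exact (h1.congr (hfg z hzF).symm).continuousWithinAt
  · intro k
    refine ⟨_, hjet k, ?_, ?_⟩
    · intro z hz
      have hzF := hDF z hz
      beta_reduce
      rw [if_neg hzF]
      exact ((hfg z hzF).iteratedFDeriv ℝ k).eq_of_nhds
    · intro z hz
      beta_reduce
      rw [if_pos hz]
  · obtain ⟨z, hz⟩ := hne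
    have hzF := hDF z hz
    refine ⟨z, hz, ?_⟩
    simp only [hf, if_neg hzF]
    have h1 := hclN z (subset_closure hz) hzF
    exact hg0 z h1.1 h1.2
  · ext z
    constructor
    · rintro ⟨h1, h2⟩
      by_contra hzF
      have h3 := hclN z h1 hzF
      simp only [hf, if_neg hzF] at h2
      exact hg0 z h3.1 h3.2 h2
    · intro hz
      exact ⟨frontier_subset_closure (hF hz), hfF z hz⟩

end Pool.Agent.H8.FZ
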