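import Pool.Agent.H8.FZ.Holo

/-!
# FZ-INV: bi-Lipschitz holomorphic maps are biholomorphic onto their open image

* `bilip`: `Ψ` of class `C¹` with `DΨ(0) = 1`; on a small ball `‖DΨ - 1‖ ≤ 1/2`, so
  `‖(Ψx - Ψy) - (x - y)‖ ≤ ½‖x - y‖` (mean value inequality).
* `inverse`: `Ψ` holomorphic on `ℂⁿ` with `‖x-y‖ ≤ 2‖Ψx - Ψy‖` on `ball 0 ε`. At each `x` in the
  ball, `A = fderiv ℂ Ψ x` satisfies `‖A w‖ ≥ ½‖w‖`, so it is a linear isomorphism (finite
  dimension); `Ψ` has a strict derivative (`holo_contDiffOn` ⇒ `C¹`), so it is open at `x`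
  (`HasStrictFDerivAt.map_nhds_eq_of_equiv`/`…of_surj`) and the inverse function (well defined by
  injectivity) is differentiable at `Ψ x` (`HasFDerivAt.of_local_left_inverse`, continuity from the
  Lipschitz bound).
-/

set_option autoImplicit false

noncomputable section

namespace Pool.Agent.H8.FZ

open Complex Metric MeasureTheory Set Filter Topology
open scoped ContDiff ComplexConjugate

variable {n : ℕ}

theorem bilip {Ψ : En n → En n} (hΨ : ContDiff ℂ 1 Ψ)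
    (h1 : fderiv ℂ Ψ 0 = ContinuousLinearMap.id ℂ (En n)) :
    ∃ ε : ℝ, 0 < ε ∧ ∀ x ∈ ball (0 : En n) ε, ∀ y ∈ ball (0 : En n) ε,
      ‖x - y‖ ≤ 2 * ‖Ψ x - Ψ y‖ ∧ ‖Ψ x - Ψ y‖ ≤ 2 * ‖x - y‖ := by
  have hs : HasStrictFDerivAt Ψ (ContinuousLinearMap.id ℂ (En n)) 0 := by
    have := (hΨ.contDiffAt (x := 0)).hasStrictFDerivAt one_ne_zero
    rwa [h1] at this
  obtain ⟨s, hs0, hs1⟩ := hs.approximates_deriv_on_nhds (c := 1 / 2) (Or.inr (by norm_num))
  obtain ⟨ε, hε, hb⟩ := Metric.mem_nhds_iff.1 hs0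
  refine ⟨ε, hε, ?_⟩
  intro x hx y hy
  have h2 := hs1 x (hb hx) y (hb hy)
  have h3 : ((1 / 2 : NNReal) : ℝ) = 1 / 2 := by norm_num
  rw [h3, ContinuousLinearMap.id_apply] at h2
  have h4 : ‖x - y‖ ≤ ‖Ψ x - Ψ y‖ + ‖Ψ x - Ψ y - (x - y)‖ := by
    have := norm_sub_le (Ψ x - Ψ y) (Ψ x - Ψ y - (x - y))
    simpa using this
  have h5 : ‖Ψ x - Ψ y‖ ≤ ‖x - y‖ + ‖Ψ x - Ψ y - (x - y)‖ := by
    have := norm_add_le (x - y) (Ψ x - Ψ y - (x - y))
    simpa using this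
  have h6 := norm_nonneg (x - y)
  constructor <;> linarith

theorem inverse_lower {Ψ : En n → En n} (hΨ : Differentiable ℂ Ψ) {ε : ℝ}
    (hL : ∀ x ∈ ball (0 : En n) ε, ∀ y ∈ ball (0 : En n) ε, ‖x - y‖ ≤ 2 * ‖Ψ x - Ψ y‖)
    {x : En n} (hx : x ∈ ball (0 : En n) ε) (w : En n) :
    ‖w‖ ≤ 2 * ‖fderiv ℂ Ψ x w‖ := by
  have hd : HasDerivAt (fun t : ℝ => Ψ (x + t • w)) (fderiv ℂ Ψ x w) 0 := by
    have h1 : HasFDerivAt Ψ ((fderiv ℂ Ψ x).restrictScalars ℝ) (x + (0 : ℝ) • w) := by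
      rw [zero_smul, add_zero]
      exact (hΨ x).hasFDerivAt.restrictScalars ℝ
    have h2 : HasDerivAt (fun t : ℝ => x + t • w) w 0 := by
      have := ((hasDerivAt_id (0 : ℝ)).smul_const w).const_add x
      simpa using this
    exact h1.comp_hasDerivAt 0 h2
  have ht := hd.tendsto_slope_zero
  have ht2 : Tendsto (fun t : ℝ => 2 * ‖t⁻¹ • (Ψ (x + (0 + t) • w) - Ψ (x + (0 : ℝ) • w))‖)
      (𝓝[≠] 0) (𝓝 (2 * ‖fderiv ℂ Ψ x w‖)) := ht.norm.const_mul 2
  refine ge_of_tendsto ht2 ?_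
  have hev : ∀ᶠ t : ℝ in 𝓝 0, x + t • w ∈ ball (0 : En n) ε := by
    have hc : ContinuousAt (fun t : ℝ => x + t • w) 0 := by fun_prop
    have hmem : ball (0 : En n) ε ∈ 𝓝 (x + (0 : ℝ) • w) := by
      rw [zero_smul, add_zero]
      exact isOpen_ball.mem_nhds hx
    exact hc hmem
  filter_upwards [nhdsWithin_le_nhds hev, self_mem_nhdsWithin] with t ht ht0
  have ht0' : t ≠ 0 := ht0
  have h1 := hL _ ht _ hx
  rw [add_sub_cancel_left, norm_smul] at h1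
  rw [zero_add, zero_smul, add_zero, norm_smul, norm_inv]
  have hpos : 0 < ‖t‖ := norm_pos_iff.2 ht0'
  rw [← mul_assoc, mul_comm 2, mul_assoc, inv_mul_eq_div, le_div_iff₀ hpos]
  linarith

theorem inverse {Ψ : En n → En n} (hΨ : Differentiable ℂ Ψ) {ε : ℝ}
    (hL : ∀ x ∈ ball (0 : En n) ε, ∀ y ∈ ball (0 : En n) ε, ‖x - y‖ ≤ 2 * ‖Ψ x - Ψ y‖) :
    IsOpen (Ψ '' ball (0 : En n) ε) ∧ ∃ Φ : En n → En n,
      DifferentiableOn ℂ Φ (Ψ '' ball (0 : En n) ε) ∧ ∀ x ∈ ball (0 : En n) ε, Φ (Ψ x) = x := by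
  have hC : ContDiff ℂ ∞ Ψ := by
    rw [← contDiffOn_univ]
    exact holo_contDiffOn isOpen_univ hΨ.differentiableOn
  have hinjA : ∀ x ∈ ball (0 : En n) ε, Function.Injective (fderiv ℂ Ψ x) := by
    intro x hx
    rw [injective_iff_map_eq_zero]
    intro w hw
    have := inverse_lower hΨ hL hx w
    rw [hw, norm_zero, mul_zero] at this
    exact norm_le_zero_iff.1 this
  have hmap : ∀ x ∈ ball (0 : En n) ε, map Ψ (𝓝 x) = 𝓝 (Ψ x) := by
    intro x hx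
    have hs : HasStrictFDerivAt Ψ (fderiv ℂ Ψ x) x :=
      (hC.contDiffAt).hasStrictFDerivAt (by simp)
    refine hs.map_nhds_eq_of_surj ?_
    exact LinearMap.range_eq_top.2 (LinearMap.injective_iff_surjective.1 (hinjA x hx))
  have hinj : Set.InjOn Ψ (ball (0 : En n) ε) := by
    intro x hx y hy hxy
    have := hL x hx y hy
    rw [hxy, sub_self, norm_zero, mul_zero] at this
    exact sub_eq_zero.1 (norm_le_zero_iff.1 this)
  have hopen : IsOpen (Ψ '' ball (0 : En n) ε) := by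
    rw [isOpen_iff_mem_nhds]
    rintro _ ⟨x, hx, rfl⟩
    rw [← hmap x hx]
    exact image_mem_map (isOpen_ball.mem_nhds hx)
  refine ⟨hopen, Function.invFunOn Ψ (ball (0 : En n) ε), ?_, ?_⟩
  · rintro _ ⟨x, hx, rfl⟩
    have hinv : ∀ x ∈ ball (0 : En n) ε, Function.invFunOn Ψ (ball (0 : En n) ε) (Ψ x) = x :=
      fun x hx => hinj.leftInvOn_invFunOn hx
    have hcont : ContinuousAt (Function.invFunOn Ψ (ball (0 : En n) ε)) (Ψ x) := by
      unfold ContinuousAt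
      rw [hinv x hx, ← hmap x hx, tendsto_map'_iff]
      refine Tendsto.congr' ?_ tendsto_id
      filter_upwards [isOpen_ball.mem_nhds hx] with y hy
      exact (hinv y hy).symm
    let A : En n ≃L[ℂ] En n :=
      (LinearEquiv.ofInjectiveEndo (fderiv ℂ Ψ x : En n →ₗ[ℂ] En n)
        (hinjA x hx)).toContinuousLinearEquiv
    have hA : (A : En n →L[ℂ] En n) = fderiv ℂ Ψ x := by
      ext v : 1
      rfl
    have hf : HasFDerivAt Ψ (A : En n →L[ℂ] En n)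
        (Function.invFunOn Ψ (ball (0 : En n) ε) (Ψ x)) := by
      rw [hinv x hx, hA]
      exact (hΨ x).hasFDerivAt
    refine (HasFDerivAt.of_local_left_inverse hcont hf ?_).differentiableAt.differentiableWithinAt
    filter_upwards [hopen.mem_nhds ⟨x, hx, rfl⟩] with y hy
    exact Function.invFunOn_eq hy
  · intro x hx
    exact hinj.leftInvOn_invFunOn hx

end Pool.Agent.H8.FZ
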