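import Pool.Agent.H8.FZ.Quad
import Pool.Agent.H8.FZ.Inv

/-!
# FZ-FLAT: local flattening at a boundary point

`ρ₁ = ρ + A ρ²`: at `p` (`ρ p = 0`): `D²ρ₁(w,w) = D²ρ(w,w) + 2A (dρ w)²`, `dρ₁ = dρ`. With
`Q₁ w = D²ρ(w,w) + D²ρ(iw,iw)` and `Q₂ w = (dρ w)² + (dρ(iw))²`, `quad_compact` gives `A ≥ 0`, `c > 0`
with `D²ρ₁(w,w) + D²ρ₁(iw,iw) = Q₁ + 2A Q₂ ≥ c‖w‖²` (rename `A`). `poly_flat` for `ρ₁` gives `Ψ` with
`r = ρ₁ ∘ Ψ`, `D²r(0)(w,w) ≥ (c/2)‖w‖²`, `dr(0) = dρ(p) ≠ 0`; by continuity of `D²r`, `dr`, `r` there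
is a small ball on which all the fields of `LData` hold (with a smaller `c` and a large `C`), `bilip`
holds and `|A ρ(Ψ x)| ≤ 1/2`.
(`iteratedFDeriv ℝ 2 ρ p ![w, w] = fderiv ℝ (fderiv ℝ ρ) p w w`: `iteratedFDeriv_two_apply`.)
-/

set_option autoImplicit false

noncomputable section

namespace Pool.Agent.H8.FZ

open Complex Metric MeasureTheory Set Filter Topology
open scoped ContDiff ComplexConjugate

variable {n : ℕ}

/-- first derivative of `ρ + A ρ²` -/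
theorem fderiv_rho1 {ρ : En n → ℝ} (hρ : ContDiff ℝ ∞ ρ) (A : ℝ) (x : En n) :
    fderiv ℝ (fun y => ρ y + A * ρ y ^ 2) x = (1 + 2 * A * ρ x) • fderiv ℝ ρ x := by
  have hd : DifferentiableAt ℝ ρ x := (hρ.differentiable (by simp)) x
  have h1 : HasFDerivAt (fun y => ρ y + A * ρ y ^ 2)
      (fderiv ℝ ρ x + A • ((2 * ρ x) • fderiv ℝ ρ x)) x := by
    have h2 : HasFDerivAt (fun y => ρ y ^ 2) ((2 * ρ x) • fderiv ℝ ρ x) x := by
      have h4 := hd.hasFDerivAt.pow 2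
      simpa using h4
    exact hd.hasFDerivAt.add (h2.const_mul A)
  rw [h1.fderiv]
  ext w
  simp
  ring

/-- second derivative of `ρ + A ρ²` at a zero of `ρ` -/
theorem fderiv2_rho1 {ρ : En n → ℝ} (hρ : ContDiff ℝ ∞ ρ) (A : ℝ) {p : En n} (hp : ρ p = 0)
    (v w : En n) :
    fderiv ℝ (fderiv ℝ (fun y => ρ y + A * ρ y ^ 2)) p v w =
      fderiv ℝ (fderiv ℝ ρ) p v w + 2 * A * (fderiv ℝ ρ p v * fderiv ℝ ρ p w) := by
  have hd : DifferentiableAt ℝ ρ p := (hρ.differentiable (by simp)) p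
  have hd2 : DifferentiableAt ℝ (fderiv ℝ ρ) p :=
    ((hρ.fderiv_right (m := ∞) (by simp)).differentiable (by simp)) p
  have h1 : fderiv ℝ (fun y => ρ y + A * ρ y ^ 2) =
      fun x => (1 + 2 * A * ρ x) • fderiv ℝ ρ x := by
    funext x
    exact fderiv_rho1 hρ A x
  rw [h1]
  have h2 : HasFDerivAt (fun x => (1 + 2 * A * ρ x)) ((2 * A) • fderiv ℝ ρ p) p := by
    have := (hd.hasFDerivAt.const_mul (2 * A)).const_add 1
    simpa using this
  have h3 : HasFDerivAt (fun x => (1 + 2 * A * ρ x) • fderiv ℝ ρ x)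
      ((1 + 2 * A * ρ p) • fderiv ℝ (fderiv ℝ ρ) p +
        ((2 * A) • fderiv ℝ ρ p).smulRight (fderiv ℝ ρ p)) p := h2.smul hd2.hasFDerivAt
  rw [h3.fderiv]
  simp [hp]
  ring

theorem flatten {ρ : En n → ℝ} (hρ : ContDiff ℝ ∞ ρ) {p : En n} (hp : ρ p = 0)
    (hd : fderiv ℝ ρ p ≠ 0)
    (hlevi : ∀ w : En n, w ≠ 0 → fderiv ℝ ρ p w = 0 → fderiv ℝ ρ p (I • w) = 0 →
      0 < iteratedFDeriv ℝ 2 ρ p ![w, w] + iteratedFDeriv ℝ 2 ρ p ![I • w, I • w]) :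
    ∃ (D : LData n) (Ψ : En n → En n) (A : ℝ), 0 ≤ A ∧ Differentiable ℂ Ψ ∧ Ψ 0 = p ∧
      (∀ x, D.r x = ρ (Ψ x) + A * ρ (Ψ x) ^ 2) ∧
      (∀ x ∈ ball (0 : En n) D.ε, |A * ρ (Ψ x)| ≤ 1 / 2) ∧
      (∀ x ∈ ball (0 : En n) D.ε, ∀ y ∈ ball (0 : En n) D.ε,
        ‖x - y‖ ≤ 2 * ‖Ψ x - Ψ y‖ ∧ ‖Ψ x - Ψ y‖ ≤ 2 * ‖x - y‖) := by
  -- the quadratic forms
  set B := fderiv ℝ (fderiv ℝ ρ) p with hB
  have hIt : ∀ (t : ℝ) (w : En n), I • (t • w) = t • (I • w) := fun t w => smul_comm I t w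
  have hIc : Continuous fun w : En n => I • w := continuous_const_smul I
  obtain ⟨A0, c0, hA0, hc0, hQ⟩ := quad_compact (n := n)
    (Q₁ := fun w => B w w + B (I • w) (I • w))
    (Q₂ := fun w => (fderiv ℝ ρ p w) ^ 2 + (fderiv ℝ ρ p (I • w)) ^ 2)
    (by fun_prop) (by fun_prop)
    (fun t w => by
      simp only [hIt, map_smul, smul_apply, smul_eq_mul]; ring)
    (fun t w => by
      simp only [hIt, map_smul, smul_eq_mul]; ring)
    (fun w => by positivity)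
    (fun w hw h0 => by
      obtain ⟨h1, h2⟩ := (add_eq_zero_iff_of_nonneg (sq_nonneg _) (sq_nonneg _)).1 h0
      have h3 := hlevi w hw (pow_eq_zero_iff (two_ne_zero) |>.1 h1)
        (pow_eq_zero_iff (two_ne_zero) |>.1 h2)
      rw [iteratedFDeriv_two_apply, iteratedFDeriv_two_apply] at h3
      simpa using h3)
  set A := A0 / 2 with hA
  set ρ₁ : En n → ℝ := fun y => ρ y + A * ρ y ^ 2 with hρ₁
  have hρ₁s : ContDiff ℝ ∞ ρ₁ := by fun_prop
  have hd1 : fderiv ℝ ρ₁ p = fderiv ℝ ρ p := by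
    rw [hρ₁, fderiv_rho1 hρ A p, hp]
    simp
  obtain ⟨Ψ, hΨs, hΨ0, hΨ1, hΨ2⟩ := poly_flat hρ₁s (p := p) (by rw [hd1]; exact hd)
  have hΨsR : ContDiff ℝ ∞ Ψ := hΨs.restrict_scalars ℝ
  set r : En n → ℝ := fun x => ρ₁ (Ψ x) with hr
  have hrs : ContDiff ℝ ∞ r := hρ₁s.comp hΨsR
  have hr0 : r 0 = 0 := by
    simp [hr, hρ₁, hΨ0, hp]
  have hc1 : Continuous (fderiv ℝ r) := (hrs.fderiv_right (m := ∞) (by simp)).continuous
  have hc2 : Continuous (fderiv ℝ (fderiv ℝ r)) :=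
    (((hrs.fderiv_right (m := ∞) (by simp)).fderiv_right (m := ∞) (by simp))).continuous
  have hdr0 : fderiv ℝ r 0 = fderiv ℝ ρ p := by
    have hΨd : HasFDerivAt Ψ (ContinuousLinearMap.id ℝ (En n)) 0 := by
      have h1 : HasFDerivAt (𝕜 := ℂ) Ψ (fderiv ℂ Ψ 0) 0 :=
        ((hΨs.differentiable (by simp)) 0).hasFDerivAt
      have h2 := h1.restrictScalars ℝ
      rw [hΨ1] at h2
      exact h2
    have h3 : HasFDerivAt ρ₁ (fderiv ℝ ρ₁ (Ψ 0)) (Ψ 0) :=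
      ((hρ₁s.differentiable (by simp)) _).hasFDerivAt
    have h4 := h3.comp 0 hΨd
    have h5 : fderiv ℝ r 0 = (fderiv ℝ ρ₁ (Ψ 0)).comp (ContinuousLinearMap.id ℝ (En n)) := h4.fderiv
    rw [h5, hΨ0, hd1]
    rfl
  have hd2 : ∀ w : En n, (c0 / 2) * ‖w‖ ^ 2 ≤ fderiv ℝ (fderiv ℝ r) 0 w w := by
    intro w
    rw [hr, hΨ2 w, hρ₁, fderiv2_rho1 hρ A hp, fderiv2_rho1 hρ A hp]
    have h1 := hQ w
    rw [← hB]
    have h2 : 2 * A = A0 := by rw [hA]; ring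
    rw [h2]
    nlinarith
  obtain ⟨ε₁, hε₁, hbi⟩ := bilip (hΨs.of_le (by simp)) hΨ1
  have hg0 : 0 < ‖fderiv ℝ r 0‖ := by
    rw [hdr0]
    exact norm_pos_iff.2 hd
  -- the small ball
  have e1 : ∀ᶠ z in 𝓝 (0 : En n), |r z| ≤ 1 := by
    have h1 : ContinuousAt (fun z => |r z|) 0 := hrs.continuous.abs.continuousAt
    have h2 : (fun z => |r z|) 0 < 1 := by simp [hr0]
    exact (h1.eventually (gt_mem_nhds h2)).mono fun z hz => le_of_lt hz
  have e2 : ∀ᶠ z in 𝓝 (0 : En n), ‖fderiv ℝ r z‖ ≤ ‖fderiv ℝ r 0‖ + 1 := by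
    have h1 : ContinuousAt (fun z => ‖fderiv ℝ r z‖) 0 := hc1.norm.continuousAt
    have h2 : (fun z => ‖fderiv ℝ r z‖) 0 < ‖fderiv ℝ r 0‖ + 1 := by simp
    exact (h1.eventually (gt_mem_nhds h2)).mono fun z hz => le_of_lt hz
  have e3 : ∀ᶠ z in 𝓝 (0 : En n), ‖fderiv ℝ r 0‖ / 2 ≤ ‖fderiv ℝ r z‖ := by
    have h1 : ContinuousAt (fun z => ‖fderiv ℝ r z‖) 0 := hc1.norm.continuousAt
    have h2 : ‖fderiv ℝ r 0‖ / 2 < (fun z => ‖fderiv ℝ r z‖) 0 := by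
      simp only; linarith
    exact (h1.eventually (lt_mem_nhds h2)).mono fun z hz => le_of_lt hz
  have e4 : ∀ᶠ z in 𝓝 (0 : En n),
      ‖fderiv ℝ (fderiv ℝ r) z - fderiv ℝ (fderiv ℝ r) 0‖ ≤ c0 / 4 := by
    have h1 : ∀ᶠ z in 𝓝 (0 : En n),
        dist (fderiv ℝ (fderiv ℝ r) z) (fderiv ℝ (fderiv ℝ r) 0) < c0 / 4 :=
      (hc2.tendsto 0) (Metric.ball_mem_nhds (fderiv ℝ (fderiv ℝ r) 0)
        (by positivity : (0 : ℝ) < c0 / 4))
    refine h1.mono fun z hz => ?_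
    have h5 := dist_eq_norm (fderiv ℝ (fderiv ℝ r) z) (fderiv ℝ (fderiv ℝ r) 0)
    exact le_trans (le_of_eq h5.symm) hz.le
  have e5 : ∀ᶠ z in 𝓝 (0 : En n), |A * ρ (Ψ z)| ≤ 1 / 2 := by
    have h1 : ContinuousAt (fun z => |A * ρ (Ψ z)|) 0 :=
      (continuous_const.mul (hρ.continuous.comp hΨsR.continuous)).abs.continuousAt
    have h2 : (fun z => |A * ρ (Ψ z)|) 0 < 1 / 2 := by simp [hΨ0, hp]
    exact (h1.eventually (gt_mem_nhds h2)).mono fun z hz => le_of_lt hz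
  obtain ⟨ε₂, hε₂, hball⟩ := Metric.eventually_nhds_iff_ball.1
    (e1.and (e2.and (e3.and (e4.and e5))))
  set ε := min 1 (min ε₁ ε₂) with hε
  have hεpos : 0 < ε := by positivity
  have hεle1 : ε ≤ 1 := min_le_left _ _
  have hsub1 : ball (0 : En n) ε ⊆ ball (0 : En n) ε₁ :=
    ball_subset_ball ((min_le_right _ _).trans (min_le_left _ _))
  have hsub2 : ball (0 : En n) ε ⊆ ball (0 : En n) ε₂ :=
    ball_subset_ball ((min_le_right _ _).trans (min_le_right _ _))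
  set c := min 1 (min (c0 / 4) (‖fderiv ℝ r 0‖ / 2)) with hcdef
  have hcpos : 0 < c := by positivity
  set C := max 1 (max (‖fderiv ℝ r 0‖ + 1) (‖fderiv ℝ (fderiv ℝ r) 0‖ + c0 / 4)) with hCdef
  let D : LData n :=
    { r := r
      ε := ε
      c := c
      C := C
      hr := hrs
      hε := hεpos
      hε1 := hεle1
      hc := hcpos
      hc1 := min_le_left _ _
      hC := le_max_left _ _
      conv := by
        intro z hz w
        have h1 := (hball z (hsub2 hz)).2.2.2.1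
        have h2 := hd2 w
        have h3 : |(fderiv ℝ (fderiv ℝ r) z - fderiv ℝ (fderiv ℝ r) 0) w w| ≤
            (c0 / 4) * ‖w‖ ^ 2 := by
          have h4 := ContinuousLinearMap.le_opNorm₂
            (fderiv ℝ (fderiv ℝ r) z - fderiv ℝ (fderiv ℝ r) 0) w w
          rw [Real.norm_eq_abs] at h4
          calc _ ≤ _ := h4
            _ ≤ (c0 / 4) * ‖w‖ * ‖w‖ := by gcongr
            _ = (c0 / 4) * ‖w‖ ^ 2 := by ring
        have h5 := (abs_le.1 h3).1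
        simp only [sub_apply] at h5
        have h6 : c ≤ c0 / 4 := (min_le_right _ _).trans (min_le_left _ _)
        have h7 : c * ‖w‖ ^ 2 ≤ (c0 / 4) * ‖w‖ ^ 2 := by gcongr
        nlinarith
      b0 := fun z hz => (hball z (hsub2 hz)).1
      b1 := fun z hz => (hball z (hsub2 hz)).2.1.trans
        ((le_max_left _ _).trans (le_max_right _ _))
      b2 := by
        intro z hz
        have h1 := (hball z (hsub2 hz)).2.2.2.1
        have h2 : ‖fderiv ℝ (fderiv ℝ r) z‖ ≤ ‖fderiv ℝ (fderiv ℝ r) 0‖ +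
            ‖fderiv ℝ (fderiv ℝ r) z - fderiv ℝ (fderiv ℝ r) 0‖ := by
          have := norm_add_le (fderiv ℝ (fderiv ℝ r) 0)
            (fderiv ℝ (fderiv ℝ r) z - fderiv ℝ (fderiv ℝ r) 0)
          rwa [add_sub_cancel] at this
        have h3 : ‖fderiv ℝ (fderiv ℝ r) 0‖ + c0 / 4 ≤ C :=
          (le_max_right _ _).trans (le_max_right _ _)
        linarith
      grad := by
        intro z hz
        have h1 := (hball z (hsub2 hz)).2.2.1
        exact ((min_le_right _ _).trans (min_le_right _ _)).trans h1 }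
  refine ⟨D, Ψ, A, by positivity, hΨs.differentiable (by simp), hΨ0, fun x => rfl, ?_, ?_⟩
  · intro x hx
    exact (hball x (hsub2 hx)).2.2.2.2
  · intro x hx y hy
    exact hbi x (hsub1 hx) y (hsub1 hy)

end Pool.Agent.H8.FZ
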