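import Pool.Agent.H8.FZ.LBasic

/-!
# FZ-GEO: normal and tangential discs in the local domain

`IsNu ν Cν`: a bounded Lipschitz field with `⟨q(ζ), ν(ζ)⟩ = 1` (exists by `exists_nu`).

**`normal_disc`.** Put `μ = λ - s`, `K = C Cν²/2`. By `r_upper` and `re_pr_q`
(`dr_ζ(μ ν) = re (μ ⟨q,ν⟩) = re μ`): `r(ζ + μ ν) ≤ -a(ζ) + re μ + K |μ|²`. From
`|μ + s| < s + κ₀ a` we get `re μ < κ₀ a` and `|μ|² < -2 s re μ + 2 s κ₀ a + κ₀² a²`, so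
`re μ + K|μ|² ≤ re μ (1 - 2 s K) + K (2 s κ₀ a + κ₀² a²) ≤ κ₀ a + K(2 s₀ κ₀ a + κ₀² a²) < a`
if `2 s₀ K ≤ 1/2` and `κ₀` is small (`a ≤ 1`). Membership in the ball: `‖ζ‖ ≤ 3ε/4`,
`|μ| ≤ 2 s₀ + κ₀`, `‖ν‖ ≤ Cν`. Depth: `a(ζ - sν) ≥ a(ζ) + s - K s² ≥ a(ζ) + s/2`.

**`tangential_disc`.** `w = ζ - z'`, `R = ‖L ζ z'‖`; by `norm_L_ge`: `a ζ, a z', ‖w‖²,
‖⟨q(z'),w⟩‖ ≤ R/c'`. `x = z' - s ν(z')`, `y = ζ - s ν(ζ)`, `s = Γ R ≤ s₀`,
`v = y - x = w - s(ν ζ - ν z')`, `‖v‖ ≤ (1 + s Cν)‖w‖ ≤ 2‖w‖` (shrink `s₀` so that `s₀ Cν ≤ 1`),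
`‖⟨q(x),v⟩‖ ≤ ‖⟨q(z'),w⟩‖ + 2C‖x - z'‖‖w‖ + s·2C·Cν‖w‖ ≤ R/c' + C₂ Γ R^{3/2}`. Hence for
`|λ| < 2` by `r_upper`
`r(x + λ v) ≤ -a(x) + 2‖⟨q(x),v⟩‖ + 2C‖v‖² ≤ -Γ R/2 + 2R/c' + 2C₂ΓR^{3/2} + 8 C R/c' < 0`
for `Γ` large (depending on `c', C`) and then `R ≤ r₀` small. (`a x ≥ a z' + s/2` by
`normal_disc`; all points stay in the ball for `r₀` small.)
-/

set_option autoImplicit false

noncomputable section

namespace Pool.Agent.H8.FZ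

open Complex Metric MeasureTheory Set Filter Topology
open scoped ContDiff ComplexConjugate

variable {n : ℕ}

namespace LData

variable (D : LData n)

/-- A bounded Lipschitz field with `⟨q(ζ), ν(ζ)⟩ = 1`. -/
def IsNu (ν : En n → En n) (Cν : ℝ) : Prop :=
  1 ≤ Cν ∧
    (∀ ζ ∈ ball (0 : En n) D.ε, pr (D.q ζ) (ν ζ) = 1 ∧ ‖ν ζ‖ ≤ Cν) ∧
    (∀ ζ ∈ ball (0 : En n) D.ε, ∀ ζ' ∈ ball (0 : En n) D.ε, ‖ν ζ - ν ζ'‖ ≤ Cν * ‖ζ - ζ'‖)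

private theorem geo_pr_smul (v : Fin n → ℂ) (c : ℂ) (w : En n) : pr v (c • w) = c * pr v w := by
  unfold pr
  rw [Finset.mul_sum]
  refine Finset.sum_congr rfl fun j _ => ?_
  simp only [PiLp.smul_apply, smul_eq_mul]
  ring

private theorem geo_pr_sub (v : Fin n → ℂ) (w w' : En n) : pr v (w - w') = pr v w - pr v w' := by
  unfold pr
  rw [← Finset.sum_sub_distrib]
  refine Finset.sum_congr rfl fun j _ => ?_
  simp only [PiLp.sub_apply]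
  ring

private theorem geo_key {ν : En n → En n} {Cν : ℝ} (hν : D.IsNu ν Cν) {ζ : En n}
    (hζ : ζ ∈ ball (0 : En n) D.ε) (μ : ℂ) (hz : ζ + μ • ν ζ ∈ ball (0 : En n) D.ε) :
    D.r (ζ + μ • ν ζ) ≤ D.r ζ + μ.re + (D.C * Cν ^ 2 / 2) * ‖μ‖ ^ 2 := by
  have h1 := D.r_upper hζ hz
  rw [add_sub_cancel_left] at h1
  have h2 : fderiv ℝ D.r ζ (μ • ν ζ) = μ.re := by
    rw [← re_pr_q, geo_pr_smul, (hν.2.1 ζ hζ).1, mul_one]
  have h3 : ‖μ • ν ζ‖ ^ 2 ≤ ‖μ‖ ^ 2 * Cν ^ 2 := by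
    rw [norm_smul, mul_pow]
    have h4 : ‖ν ζ‖ ^ 2 ≤ Cν ^ 2 := pow_le_pow_left₀ (norm_nonneg _) (hν.2.1 ζ hζ).2 2
    exact mul_le_mul_of_nonneg_left h4 (by positivity)
  have hC := D.hC
  rw [h2] at h1
  have h5 : (D.C / 2) * ‖μ • ν ζ‖ ^ 2 ≤ (D.C / 2) * (‖μ‖ ^ 2 * Cν ^ 2) :=
    mul_le_mul_of_nonneg_left h3 (by linarith)
  have h6 : (D.C / 2) * (‖μ‖ ^ 2 * Cν ^ 2) = (D.C * Cν ^ 2 / 2) * ‖μ‖ ^ 2 := by ring
  linarith

theorem normal_disc {ν : En n → En n} {Cν : ℝ} (hν : D.IsNu ν Cν) :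
    ∃ s₀ κ₀ : ℝ, 0 < s₀ ∧ s₀ ≤ 1 ∧ 0 < κ₀ ∧ κ₀ ≤ 1 ∧ s₀ * Cν ≤ D.ε / 16 ∧
      ∀ ζ ∈ D.S, ‖ζ‖ ≤ 3 * D.ε / 4 → ∀ s : ℝ, 0 ≤ s → s ≤ s₀ →
        (∀ l : ℂ, ‖l‖ < s + κ₀ * D.a ζ → ζ + (l - (s : ℂ)) • ν ζ ∈ D.S) ∧
        D.a ζ + s / 2 ≤ D.a (ζ - (s : ℂ) • ν ζ) := by
  have hC := D.hC
  have hCν := hν.1
  have hε := D.hε
  have hε1 := D.hε1
  have hCp : 0 < D.C := by linarith
  have hCνp : 0 < Cν := by linarith
  have hCν2 : Cν ≤ Cν ^ 2 := by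
    rw [pow_two]
    exact le_mul_of_one_le_left hCνp.le hCν
  have hCC' : Cν ≤ D.C * Cν ^ 2 :=
    hCν2.trans (le_mul_of_one_le_left (by positivity) hC)
  have hCC : 1 ≤ D.C * Cν ^ 2 := hCν.trans hCC'
  have hCCp : 0 < D.C * Cν ^ 2 := by linarith
  obtain ⟨P, hP⟩ : ∃ P, P = D.C * Cν ^ 2 := ⟨_, rfl⟩
  rw [← hP] at hCC hCC' hCCp
  have hs16 : D.ε / (16 * P) * Cν ≤ D.ε / 16 := by
    rw [div_mul_eq_mul_div, div_le_div_iff₀ (by positivity) (by norm_num)]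
    have := mul_le_mul_of_nonneg_left hCC' hε.le
    linarith
  have hk8 : D.ε / (8 * P) * Cν ≤ D.ε / 8 := by
    rw [div_mul_eq_mul_div, div_le_div_iff₀ (by positivity) (by norm_num)]
    have := mul_le_mul_of_nonneg_left hCC' hε.le
    linarith
  have hs1 : D.ε / (16 * P) ≤ 1 := by
    rw [div_le_one (by positivity)]
    linarith
  have hk1 : D.ε / (8 * P) ≤ 1 / 8 := by
    rw [div_le_div_iff₀ (by positivity) (by norm_num)]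
    linarith
  have hKs : P / 2 * (D.ε / (16 * P)) = D.ε / 32 := by
    field_simp
    ring
  have hKk : P / 2 * (D.ε / (8 * P)) = D.ε / 16 := by
    field_simp
    ring
  have hs0 : 0 < D.ε / (16 * P) := by positivity
  have hk0 : 0 < D.ε / (8 * P) := by positivity
  obtain ⟨s₀, hs₀⟩ : ∃ s₀, s₀ = D.ε / (16 * P) := ⟨_, rfl⟩
  obtain ⟨κ₀, hκ₀⟩ : ∃ κ₀, κ₀ = D.ε / (8 * P) := ⟨_, rfl⟩
  rw [← hs₀] at hs16 hs1 hKs hs0
  rw [← hκ₀] at hk8 hk1 hKk hk0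
  refine ⟨s₀, κ₀, hs0, hs1, hk0, by linarith, hs16, ?_⟩
  intro ζ hζS hζn s hs hss
  have hζb : ζ ∈ ball (0 : En n) D.ε := hζS.1
  have ha : 0 < D.a ζ := by
    have := hζS.2
    unfold a
    linarith
  have ha1 : D.a ζ ≤ 1 := by
    have h1 := (abs_le.1 (D.b0 ζ hζb)).1
    unfold a
    linarith
  have hνn := (hν.2.1 ζ hζb).2
  have hsC : s * Cν ≤ D.ε / 16 := (mul_le_mul_of_nonneg_right hss hCνp.le).trans hs16
  have hKsl : P / 2 * s ≤ D.ε / 32 := by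
    rw [← hKs]
    exact mul_le_mul_of_nonneg_left hss (by positivity)
  constructor
  · intro l hl
    have hka : κ₀ * D.a ζ ≤ κ₀ := mul_le_of_le_one_right hk0.le ha1
    have hmu : ‖l - (s : ℂ)‖ ≤ ‖l‖ + s := by
      refine (norm_sub_le _ _).trans ?_
      rw [Complex.norm_real, Real.norm_eq_abs, abs_of_nonneg hs]
    have hmu2 : ‖l - (s : ℂ)‖ * ‖ν ζ‖ ≤ (2 * s + κ₀) * Cν :=
      mul_le_mul (by linarith) hνn (norm_nonneg _) (by linarith)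
    have hmu3 : (2 * s + κ₀) * Cν ≤ D.ε / 8 + D.ε / 8 := by
      have : (2 * s + κ₀) * Cν = 2 * (s * Cν) + κ₀ * Cν := by ring
      rw [this]
      linarith
    have hl' : ‖l‖ < s + κ₀ := by linarith
    have hstrict : ‖l - (s : ℂ)‖ * ‖ν ζ‖ < D.ε / 4 := by
      have h1 : ‖l - (s : ℂ)‖ < 2 * s + κ₀ := by linarith
      have h2 : ‖l - (s : ℂ)‖ * ‖ν ζ‖ ≤ ‖l - (s : ℂ)‖ * Cν :=
        mul_le_mul_of_nonneg_left hνn (norm_nonneg _)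
      have h3 : ‖l - (s : ℂ)‖ * Cν < (2 * s + κ₀) * Cν := mul_lt_mul_of_pos_right h1 hCνp
      linarith
    have hz : ζ + (l - (s : ℂ)) • ν ζ ∈ ball (0 : En n) D.ε := by
      rw [mem_ball_zero_iff]
      have h1 := norm_add_le ζ ((l - (s : ℂ)) • ν ζ)
      rw [norm_smul] at h1
      linarith
    refine ⟨hz, ?_⟩
    have h1 := D.geo_key hν hζb (l - (s : ℂ)) hz
    rw [← hP] at h1
    -- real and imaginary parts
    have hre : (l - (s : ℂ)).re = l.re - s := by simp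
    have him : (l - (s : ℂ)).im = l.im := by simp
    have hsq : ‖l - (s : ℂ)‖ ^ 2 = (l.re - s) ^ 2 + l.im ^ 2 := by
      rw [Complex.sq_norm, Complex.normSq_apply, hre, him]
      ring
    have hsql : ‖l‖ ^ 2 = l.re ^ 2 + l.im ^ 2 := by
      rw [Complex.sq_norm, Complex.normSq_apply]
      ring
    have hlre : l.re ≤ ‖l‖ := Complex.re_le_norm l
    have hl2 : ‖l‖ ^ 2 ≤ (s + κ₀ * D.a ζ) ^ 2 := pow_le_pow_left₀ (norm_nonneg _) hl.le 2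
    rw [hre, hsq] at h1
    set A := D.a ζ with hA
    have hrA : D.r ζ = -A := by
      rw [hA]
      unfold a
      ring
    set u := l.re - s with hu
    have hu1 : u < κ₀ * A := by linarith
    have hu2 : u ^ 2 + l.im ^ 2 ≤ -2 * s * u + 2 * s * (κ₀ * A) + (κ₀ * A) ^ 2 := by
      have e1 : u ^ 2 + l.im ^ 2 = ‖l‖ ^ 2 - 2 * s * u - s ^ 2 := by
        rw [hsql, hu]
        ring
      rw [e1]
      have e2 : (s + κ₀ * A) ^ 2 = s ^ 2 + 2 * s * (κ₀ * A) + (κ₀ * A) ^ 2 := by ring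
      linarith
    have hP2 : 0 ≤ P / 2 := by positivity
    have h2 : P / 2 * (u ^ 2 + l.im ^ 2) ≤
        P / 2 * (-2 * s * u + 2 * s * (κ₀ * A) + (κ₀ * A) ^ 2) :=
      mul_le_mul_of_nonneg_left hu2 hP2
    have h3 : P / 2 * (-2 * s * u + 2 * s * (κ₀ * A) + (κ₀ * A) ^ 2) =
        2 * (P / 2 * s) * (κ₀ * A - u) + P / 2 * κ₀ * κ₀ * A * A := by ring
    have h4 : 2 * (P / 2 * s) * (κ₀ * A - u) ≤ 1 * (κ₀ * A - u) := by
      apply mul_le_mul_of_nonneg_right _ (by linarith)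
      linarith
    have h5 : P / 2 * κ₀ * κ₀ * A * A ≤ 1 / 16 * A := by
      rw [hKk]
      have h6 : D.ε / 16 * κ₀ ≤ 1 / 16 * 1 :=
        mul_le_mul (by linarith) (by linarith) hk0.le (by norm_num)
      have h7 : D.ε / 16 * κ₀ * A ≤ 1 / 16 := by
        have h7' : 0 ≤ D.ε / 16 * κ₀ := by positivity
        have h7'' := mul_le_of_le_one_right h7' ha1
        linarith
      exact mul_le_mul_of_nonneg_right h7 ha.le
    have h8 : κ₀ * A ≤ 1 / 8 * A := mul_le_mul_of_nonneg_right hk1 ha.le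
    linarith
  · have hz : ζ + (-(s : ℂ)) • ν ζ ∈ ball (0 : En n) D.ε := by
      rw [mem_ball_zero_iff]
      have h1 := norm_add_le ζ ((-(s : ℂ)) • ν ζ)
      rw [norm_smul, norm_neg, Complex.norm_real, Real.norm_eq_abs, abs_of_nonneg hs] at h1
      have h2 : s * ‖ν ζ‖ ≤ s * Cν := mul_le_mul_of_nonneg_left hνn hs
      linarith
    have h1 := D.geo_key hν hζb (-(s : ℂ)) hz
    rw [← hP, norm_neg, Complex.norm_real, Real.norm_eq_abs, abs_of_nonneg hs] at h1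
    have hre : (-(s : ℂ)).re = -s := by simp
    rw [hre] at h1
    have e1 : ζ - (s : ℂ) • ν ζ = ζ + (-(s : ℂ)) • ν ζ := by
      rw [neg_smul, sub_eq_add_neg]
    rw [e1]
    unfold a
    have h2 : P / 2 * s ^ 2 ≤ s / 2 := by
      have : P / 2 * s ^ 2 = P / 2 * s * s := by ring
      rw [this]
      have h3 : P / 2 * s * s ≤ 1 / 2 * s := mul_le_mul_of_nonneg_right (by linarith) hs
      linarith
    linarith

theorem tangential_disc {ν : En n → En n} {Cν : ℝ} (hν : D.IsNu ν Cν) {s₀ : ℝ}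
    (hs₀ : 0 < s₀) : ∃ Γ r₀ : ℝ, 1 ≤ Γ ∧ 0 < r₀ ∧ r₀ ≤ 1 ∧ Γ * r₀ ≤ s₀ ∧
      ∀ z' ∈ D.S, ‖z'‖ ≤ D.ε / 2 → ∀ ζ ∈ D.S, ‖ζ‖ ≤ D.ε / 2 → ‖D.L ζ z'‖ ≤ r₀ →
        ∀ l : ℂ, ‖l‖ < 2 →
          (z' - ((Γ * ‖D.L ζ z'‖ : ℝ) : ℂ) • ν z') +
            l • ((ζ - ((Γ * ‖D.L ζ z'‖ : ℝ) : ℂ) • ν ζ) -
              (z' - ((Γ * ‖D.L ζ z'‖ : ℝ) : ℂ) • ν z')) ∈ D.S := by
  have hC := D.hC
  have hCν := hν.1
  have hε := D.hε
  have hε1 := D.hε1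
  have hCp : 0 < D.C := by linarith
  have hCνp : 0 < Cν := by linarith
  obtain ⟨s₁, κ₁, hs1, hs1', -, -, hs16, hN⟩ := D.normal_disc hν
  obtain ⟨c', hc', hc'1, hL⟩ := D.norm_L_ge
  obtain ⟨Γ, hΓ⟩ : ∃ Γ, Γ = 4 * ((2 + 8 * D.C) / c') := ⟨_, rfl⟩
  have hG1 : 1 ≤ (2 + 8 * D.C) / c' := by
    rw [le_div_iff₀ hc']
    linarith
  have hΓ1 : 1 ≤ Γ := by linarith
  have hΓp : 0 < Γ := by linarith
  obtain ⟨δ, hδ⟩ : ∃ δ, δ = D.ε / (64 * (D.C * Cν)) := ⟨_, rfl⟩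
  have hCC : 1 ≤ D.C * Cν := hCν.trans (le_mul_of_one_le_left hCνp.le hC)
  have hCCp : 0 < D.C * Cν := by linarith
  have hδ0 : 0 < δ := by rw [hδ]; positivity
  have hδ16 : δ ≤ D.ε / 64 := by
    rw [hδ, div_le_div_iff₀ (by positivity) (by norm_num)]
    have := mul_le_mul_of_nonneg_left hCC hε.le
    linarith
  have hδC : (D.C * Cν) * δ ≤ 1 / 64 := by
    rw [hδ]
    have : D.C * Cν * (D.ε / (64 * (D.C * Cν))) = D.ε / 64 := by field_simp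
    rw [this]
    linarith
  obtain ⟨r₀, hr₀⟩ : ∃ r₀, r₀ = min (c' * δ ^ 2) (min s₀ s₁ / Γ) := ⟨_, rfl⟩
  have hmin : 0 < min s₀ s₁ := lt_min hs₀ hs1
  have hr0 : 0 < r₀ := by
    rw [hr₀]
    exact lt_min (by positivity) (by positivity)
  have hrδ : r₀ ≤ c' * δ ^ 2 := by rw [hr₀]; exact min_le_left _ _
  have hrΓ : Γ * r₀ ≤ min s₀ s₁ := by
    have h1 : r₀ ≤ min s₀ s₁ / Γ := by rw [hr₀]; exact min_le_right _ _
    rw [le_div_iff₀ hΓp] at h1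
    linarith
  have hδ1 : δ ^ 2 ≤ 1 := by
    have h1 : δ ≤ 1 := by linarith
    exact pow_le_one₀ hδ0.le h1
  have hr1 : r₀ ≤ 1 := by
    have : c' * δ ^ 2 ≤ 1 * 1 := mul_le_mul hc'1 hδ1 (by positivity) (by norm_num)
    linarith
  refine ⟨Γ, r₀, hΓ1, hr0, hr1, hrΓ.trans (min_le_left _ _), ?_⟩
  intro z' hz' hz'n ζ hζ hζn hR l hl
  obtain ⟨R, hRdef⟩ : ∃ R, R = ‖D.L ζ z'‖ := ⟨_, rfl⟩
  have haz : 0 < D.a z' := by
    have := hz'.2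
    unfold a
    linarith
  have haζ : 0 < D.a ζ := by
    have := hζ.2
    unfold a
    linarith
  have hLR := hL ζ z' hζ.1 hz'.1 haζ.le haz.le
  rw [← hRdef] at hLR hR ⊢
  have hR0 : 0 ≤ R := by rw [hRdef]; exact norm_nonneg _
  obtain ⟨s, hs⟩ : ∃ s, s = Γ * R := ⟨_, rfl⟩
  rw [← hs]
  have hs0 : 0 ≤ s := by rw [hs]; positivity
  have hss1 : s ≤ s₁ := by
    rw [hs]
    exact ((mul_le_mul_of_nonneg_left hR hΓp.le).trans hrΓ).trans (min_le_right _ _)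
  have hsC : s * Cν ≤ D.ε / 16 := (mul_le_mul_of_nonneg_right hss1 hCνp.le).trans hs16
  -- consequences of the lower bound for L
  have hpr0 : 0 ≤ ‖pr (D.q z') (ζ - z')‖ := norm_nonneg _
  have hwsq0 : 0 ≤ ‖ζ - z'‖ ^ 2 := by positivity
  have hw2 : c' * ‖ζ - z'‖ ^ 2 ≤ R := by
    refine le_trans (mul_le_mul_of_nonneg_left ?_ hc'.le) hLR
    linarith
  have hprR : c' * ‖pr (D.q z') (ζ - z')‖ ≤ R := by
    refine le_trans (mul_le_mul_of_nonneg_left ?_ hc'.le) hLR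
    linarith
  have hw : ‖ζ - z'‖ ≤ δ := by
    have h1 : c' * ‖ζ - z'‖ ^ 2 ≤ c' * δ ^ 2 := by linarith
    have h2 : ‖ζ - z'‖ ^ 2 ≤ δ ^ 2 := le_of_mul_le_mul_left h1 hc'
    exact le_of_sq_le_sq h2 hδ0.le
  have hw2' : ‖ζ - z'‖ ^ 2 ≤ R / c' := by
    rw [le_div_iff₀ hc']
    linarith
  have hprR' : ‖pr (D.q z') (ζ - z')‖ ≤ R / c' := by
    rw [le_div_iff₀ hc']
    linarith
  -- the point x
  set x := z' - ((s : ℝ) : ℂ) • ν z' with hx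
  set v := (ζ - ((s : ℝ) : ℂ) • ν ζ) - x with hv
  have hxz : ‖x - z'‖ ≤ s * Cν := by
    have e1 : x - z' = -(((s : ℝ) : ℂ) • ν z') := by
      rw [hx]
      abel
    rw [e1, norm_neg, norm_smul, Complex.norm_real, Real.norm_eq_abs, abs_of_nonneg hs0]
    exact mul_le_mul_of_nonneg_left (hν.2.1 z' hz'.1).2 hs0
  have hxn : ‖x‖ ≤ D.ε / 2 + D.ε / 16 := by
    have h1 := norm_add_le z' (x - z')
    rw [add_sub_cancel] at h1
    linarith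
  have hxb : x ∈ ball (0 : En n) D.ε := by
    rw [mem_ball_zero_iff]
    linarith
  have hax : D.a z' + s / 2 ≤ D.a x := (hN z' hz' (by linarith) s hs0 hss1).2
  have hvw : v = (ζ - z') - ((s : ℝ) : ℂ) • (ν ζ - ν z') := by
    rw [hv, hx, smul_sub]
    abel
  have hνd := hν.2.2 ζ hζ.1 z' hz'.1
  have hw0 : 0 ≤ ‖ζ - z'‖ := norm_nonneg _
  have hvn : ‖v‖ ≤ 2 * ‖ζ - z'‖ := by
    rw [hvw]
    refine (norm_sub_le _ _).trans ?_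
    rw [norm_smul, Complex.norm_real, Real.norm_eq_abs, abs_of_nonneg hs0]
    have h1 : s * ‖ν ζ - ν z'‖ ≤ s * (Cν * ‖ζ - z'‖) := mul_le_mul_of_nonneg_left hνd hs0
    have h2 : s * (Cν * ‖ζ - z'‖) ≤ 1 * ‖ζ - z'‖ := by
      rw [← mul_assoc]
      exact mul_le_mul_of_nonneg_right (by linarith) hw0
    linarith
  have hlv : ‖l • v‖ ≤ 2 * ‖v‖ := by
    rw [norm_smul]
    exact mul_le_mul_of_nonneg_right hl.le (norm_nonneg _)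
  have hzb : x + l • v ∈ ball (0 : En n) D.ε := by
    rw [mem_ball_zero_iff]
    have h1 := norm_add_le x (l • v)
    linarith
  refine ⟨hzb, ?_⟩
  have h1 := D.r_upper hxb hzb
  rw [add_sub_cancel_left] at h1
  have h2 : fderiv ℝ D.r x (l • v) ≤ 2 * ‖pr (D.q x) v‖ := by
    rw [← re_pr_q, geo_pr_smul]
    refine (Complex.re_le_norm _).trans ?_
    rw [norm_mul]
    exact mul_le_mul_of_nonneg_right hl.le (norm_nonneg _)
  have h3 : ‖pr (D.q x) v‖ ≤ R / c' + 4 * (D.C * Cν) * s * ‖ζ - z'‖ := by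
    rw [hvw, geo_pr_sub, geo_pr_smul]
    refine (norm_sub_le _ _).trans ?_
    rw [norm_mul, Complex.norm_real, Real.norm_eq_abs, abs_of_nonneg hs0]
    have e1 := D.norm_pr_q_sub_le hxb hz'.1 (ζ - z')
    have e2 : ‖pr (D.q x) (ζ - z')‖ ≤ ‖pr (D.q z') (ζ - z')‖ +
        ‖pr (D.q x) (ζ - z') - pr (D.q z') (ζ - z')‖ := by
      have h7 := norm_add_le (pr (D.q z') (ζ - z')) (pr (D.q x) (ζ - z') - pr (D.q z') (ζ - z'))
      rwa [add_sub_cancel] at h7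
    have e3 : 2 * D.C * ‖x - z'‖ * ‖ζ - z'‖ ≤ 2 * D.C * (s * Cν) * ‖ζ - z'‖ := by
      apply mul_le_mul_of_nonneg_right _ hw0
      exact mul_le_mul_of_nonneg_left hxz (by linarith)
    have e4 := D.norm_pr_q_le hxb (ν ζ - ν z')
    have e5 : s * ‖pr (D.q x) (ν ζ - ν z')‖ ≤ s * (2 * D.C * (Cν * ‖ζ - z'‖)) := by
      apply mul_le_mul_of_nonneg_left _ hs0
      exact e4.trans (mul_le_mul_of_nonneg_left hνd (by linarith))
    have e6 : 4 * (D.C * Cν) * s * ‖ζ - z'‖ = 2 * D.C * (s * Cν) * ‖ζ - z'‖ +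
      s * (2 * D.C * (Cν * ‖ζ - z'‖)) := by ring
    linarith
  have h4 : ‖l • v‖ ^ 2 ≤ 16 * (R / c') := by
    have e1 : ‖l • v‖ ≤ 4 * ‖ζ - z'‖ := by linarith
    have e2 : ‖l • v‖ ^ 2 ≤ (4 * ‖ζ - z'‖) ^ 2 := pow_le_pow_left₀ (norm_nonneg _) e1 2
    have e3 : (4 * ‖ζ - z'‖) ^ 2 = 16 * ‖ζ - z'‖ ^ 2 := by ring
    linarith
  have h5 : (D.C / 2) * ‖l • v‖ ^ 2 ≤ 8 * D.C * (R / c') := by
    have e1 : (D.C / 2) * ‖l • v‖ ^ 2 ≤ (D.C / 2) * (16 * (R / c')) :=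
      mul_le_mul_of_nonneg_left h4 (by linarith)
    have e2 : (D.C / 2) * (16 * (R / c')) = 8 * D.C * (R / c') := by ring
    linarith
  have h6 : 4 * (D.C * Cν) * s * ‖ζ - z'‖ ≤ s / 16 := by
    have e1 : 4 * (D.C * Cν) * s * ‖ζ - z'‖ ≤ 4 * (D.C * Cν) * s * δ :=
      mul_le_mul_of_nonneg_left hw (by positivity)
    have e2 : 4 * (D.C * Cν) * s * δ = 4 * s * ((D.C * Cν) * δ) := by ring
    have e3 : 4 * s * ((D.C * Cν) * δ) ≤ 4 * s * (1 / 64) :=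
      mul_le_mul_of_nonneg_left hδC (by linarith)
    linarith
  have h7 : s = 4 * ((2 + 8 * D.C) * (R / c')) := by
    rw [hs, hΓ]
    ring
  have h8 : D.r x = -D.a x := by
    unfold a
    ring
  have h9 : 0 ≤ R / c' := by positivity
  have h10 : (2 + 8 * D.C) * (R / c') = 2 * (R / c') + 8 * D.C * (R / c') := by ring
  have h11 : 0 ≤ D.C * (R / c') := by positivity
  linarith

end LData

end Pool.Agent.H8.FZ
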