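import Pool.Agent.H8.FZ.ML

/-!
# FZ-HHOL: holomorphy and boundedness of the pushed-out integral

On the open set `N = {z ∈ ball 0 (ε/4) : r z < δ dist(z,F)^M}` (`δ ≤ δ₀` from `kt_lower`) we have
`re (L(ζ,z)+τ(ζ)) ≥ δ₀ dist(z,F)^M` for all `ζ ∈ S`, and `L` is complex affine in `z`
(`L ζ z = 2a + ⟨q(ζ), ζ - z⟩`), so `z ↦ KT D F ζ z` is holomorphic with derivative bounded, locally
uniformly in `z`, by `C a^{m-n-1}`; `‖(h ζ).re‖ ≤ C₀/a` (`growth`), `m-n-1 ≥ 1`. Apply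
`hasFDerivAt_integral_of_dominated_of_fderiv_le` over `ℂ` near each `z ∈ N` (`dist(·,F)` is bounded
below near `z`: note that `0 < infDist z F` on `N ∩ S`… if `infDist z F = 0` then `r z < 0`; in
that case use the second summand `δ₀ a ζ`? No: then `z ∈ S`, and `re L ≥ a ζ + a z ≥ a z > 0`, so in
all cases `re (L + τ) ≥ max(δ₀ dist(z,F)^M, a z) > 0`, bounded below near `z` by continuity).

`ht_bounded`: for `dist(z,F) ≥ λ` the integrand is bounded by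
`C (δ₀ λ^M)^{-m}`, so `‖HT‖ ≤ C(λ)`.
-/

set_option autoImplicit false

noncomputable section

namespace Pool.Agent.H8.FZ

open Complex Metric MeasureTheory Set Filter Topology
open scoped ContDiff ComplexConjugate

variable {n : ℕ}

namespace LData

variable (D : LData n)

/-- the pairing as a continuous linear map -/
def hhPr (v : Fin n → ℂ) : En n →L[ℂ] ℂ := ∑ j, v j • (EuclideanSpace.proj j : En n →L[ℂ] ℂ)

lemma hhPr_apply (v : Fin n → ℂ) (w : En n) : hhPr v w = pr v w := by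
  unfold hhPr pr
  rw [ContinuousLinearMap.sum_apply]
  rfl

lemma hh_hasDerivAt {k : ℕ} (hk : 1 ≤ k) {t : ℂ} (ht : t ≠ 0) :
    HasDerivAt (fun t : ℂ => t⁻¹ ^ k) (-((k : ℂ) * t⁻¹ ^ (k + 1))) t := by
  refine ((hasDerivAt_inv ht).pow k).congr_deriv ?_
  have h1 : t⁻¹ ^ (k + 1) = t⁻¹ ^ (k - 1) * (t ^ 2)⁻¹ := by
    rw [← inv_pow, ← pow_add]
    congr 1
    omega
  rw [h1]
  ring

lemma hh_L_hasFDerivAt (ζ z : En n) : HasFDerivAt (D.L ζ) (-(hhPr (D.q ζ))) z := by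
  have h1 : D.L ζ = fun x => D.L ζ 0 + (-(hhPr (D.q ζ))) x := by
    funext x
    have h2 := D.L_sub ζ x 0
    have h3 : (-(hhPr (D.q ζ))) x = pr (D.q ζ) (0 - x) := by
      rw [zero_sub, ← hhPr_apply, map_neg]
      rfl
    rw [h3, ← h2]
    ring
  rw [h1]
  exact (ContinuousLinearMap.hasFDerivAt _).const_add _

lemma hh_deriv (F : Set (En n)) (w : ℂ) (ζ z : En n) (h0 : D.L ζ z + (tau F ζ : ℂ) ≠ 0) :
    HasFDerivAt (fun x => w * (D.mlNum ζ * (D.L ζ x + (tau F ζ : ℂ))⁻¹ ^ mm n))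
      ((w * (D.mlNum ζ * (D.L ζ z + (tau F ζ : ℂ))⁻¹ ^ (mm n + 1)) * (mm n : ℂ)) •
        hhPr (D.q ζ)) z := by
  have hG : HasFDerivAt (fun x => D.L ζ x + (tau F ζ : ℂ)) (-(hhPr (D.q ζ))) z :=
    (D.hh_L_hasFDerivAt ζ z).add_const _
  have hk : 1 ≤ mm n := by
    unfold mm
    omega
  have h1 := (hh_hasDerivAt hk h0).comp_hasFDerivAt z hG
  have h2 := (h1.const_mul (D.mlNum ζ)).const_mul w
  refine h2.congr_fderiv ?_
  ext v
  simp only [ContinuousLinearMap.smul_apply, ContinuousLinearMap.neg_apply, smul_eq_mul]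
  ring

/-- the lower bound for the denominators -/
lemma hh_lower : ∃ δ₀ : ℝ, 0 < δ₀ ∧ ∀ F : Set (En n), F.Nonempty → F ⊆ closedBall 0 (D.ε / 8) →
    ∀ z ∈ ball (0 : En n) (D.ε / 4), D.r z < δ₀ * infDist z F ^ MM n → ∀ ζ ∈ D.S,
      max (δ₀ * infDist z F ^ MM n) (-D.r z) ≤ ‖D.L ζ z + (tau F ζ : ℂ)‖ := by
  obtain ⟨δ₀, hδ₀, hδ₁, hlow⟩ := D.kt_lower
  refine ⟨δ₀, hδ₀, fun F hFn hF z hz hr ζ hζ => ?_⟩
  have hε := D.hε
  have hz' : z ∈ ball (0 : En n) D.ε := ball_subset_ball (by linarith) hz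
  have h3 := Complex.re_le_norm (D.L ζ z + (tau F ζ : ℂ))
  have ha := D.ml_a_pos hζ
  refine max_le ?_ ?_
  · have h1 := hlow F hFn hF z hz' hr ζ hζ
    have h2 : 0 ≤ δ₀ * D.a ζ := mul_nonneg hδ₀.le ha.le
    linarith
  · have h1 := D.re_L_ge hζ.1 hz'
    have h2 : (D.L ζ z + (tau F ζ : ℂ)).re = (D.L ζ z).re + tau F ζ := by
      rw [Complex.add_re, Complex.ofReal_re]
    have h4 : 0 ≤ tau F ζ := by
      unfold tau
      exact pow_nonneg infDist_nonneg _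
    have h5 : 0 ≤ D.c / 2 * ‖ζ - z‖ ^ 2 := by
      have := D.hc
      positivity
    have h6 : D.a z = -D.r z := rfl
    linarith

lemma hh_qcont : Continuous fun ζ => hhPr (D.q ζ) := by
  unfold hhPr
  exact continuous_finset_sum _ fun j _ => (D.contDiff_q j).continuous.smul continuous_const

lemma hh_qnorm {ζ : En n} (hζ : ζ ∈ D.S) : ‖hhPr (D.q ζ)‖ ≤ 2 * D.C := by
  refine ContinuousLinearMap.opNorm_le_bound _ (by linarith [D.hC]) fun w => ?_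
  rw [hhPr_apply]
  exact D.norm_pr_q_le hζ.1 w

theorem ht_holo (χ : D.Cut) {h : En n → ℂ} (hh : DifferentiableOn ℂ h D.S)
    (hpos : ∀ z ∈ D.S, 0 < (h z).re) :
    ∃ δ₀ : ℝ, 0 < δ₀ ∧ ∀ F : Set (En n), F.Nonempty → F ⊆ closedBall 0 (D.ε / 8) →
      DifferentiableOn ℂ (D.HT χ h F)
        {z | z ∈ ball (0 : En n) (D.ε / 4) ∧ D.r z < δ₀ * infDist z F ^ MM n} := by
  obtain ⟨δ₀, hδ₀, hlow⟩ := D.hh_lower
  obtain ⟨C, hC0, hC⟩ := D.ml_w_le χ hh hpos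
  refine ⟨δ₀, hδ₀, fun F hFn hF z₀ hz₀ => ?_⟩
  have hrc : Continuous D.r := D.hr.continuous
  have hdc : Continuous fun z : En n => infDist z F := continuous_infDist_pt F
  have hm : Continuous fun z : En n => max (δ₀ * infDist z F ^ MM n) (-D.r z) :=
    (continuous_const.mul (hdc.pow _)).max hrc.neg
  have hMM : MM n ≠ 0 := by
    unfold MM
    omega
  have hm0 : 0 < max (δ₀ * infDist z₀ F ^ MM n) (-D.r z₀) := by
    rcases (infDist_nonneg (x := z₀) (s := F)).eq_or_lt with h0 | h0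
    · have h1 := hz₀.2
      rw [← h0, zero_pow hMM, mul_zero] at h1
      exact lt_max_of_lt_right (by linarith)
    · exact lt_max_of_lt_left (by positivity)
  set κ : ℝ := max (δ₀ * infDist z₀ F ^ MM n) (-D.r z₀) / 2 with hκ
  have hκ0 : 0 < κ := by positivity
  have hopen : IsOpen ({z : En n | z ∈ ball (0 : En n) (D.ε / 4) ∧
      D.r z < δ₀ * infDist z F ^ MM n} ∩
      {z | κ < max (δ₀ * infDist z F ^ MM n) (-D.r z)}) :=
    (isOpen_ball.inter (isOpen_lt hrc (continuous_const.mul (hdc.pow _)))).inter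
      (isOpen_lt continuous_const hm)
  set s : Set (En n) := {z : En n | z ∈ ball (0 : En n) (D.ε / 4) ∧
      D.r z < δ₀ * infDist z F ^ MM n} ∩
      {z | κ < max (δ₀ * infDist z F ^ MM n) (-D.r z)} with hs
  have hz₀s : z₀ ∈ s := ⟨hz₀, by
    show κ < _
    rw [hκ]
    linarith⟩
  have hsn : s ∈ 𝓝 z₀ := hopen.mem_nhds hz₀s
  have hG : ∀ z ∈ s, ∀ ζ ∈ D.S, κ ≤ ‖D.L ζ z + (tau F ζ : ℂ)‖ := fun z hz ζ hζ =>
    hz.2.le.trans (hlow F hFn hF z hz.1.1 hz.1.2 ζ hζ)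
  have hG0 : ∀ z ∈ s, ∀ ζ ∈ D.S, D.L ζ z + (tau F ζ : ℂ) ≠ 0 := fun z hz ζ hζ h0 => by
    have h1 := hG z hz ζ hζ
    rw [h0, norm_zero] at h1
    linarith
  have hGc : ∀ z, ContinuousOn (fun ζ => D.L ζ z + (tau F ζ : ℂ)) D.S := fun z =>
    ((D.ml_L_cont z).add (ml_tau_cont F)).continuousOn
  have hfin : IsFiniteMeasure (volume.restrict D.S) :=
    ⟨by rw [Measure.restrict_apply_univ]; exact D.ml_volS⟩
  have key : HasFDerivAt (fun z => ∫ ζ in D.S, (χ.χ ζ : ℂ) * ((h ζ).re : ℂ) *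
      (D.mlNum ζ * (D.L ζ z + (tau F ζ : ℂ))⁻¹ ^ mm n))
      (∫ ζ in D.S, ((χ.χ ζ : ℂ) * ((h ζ).re : ℂ) *
        (D.mlNum ζ * (D.L ζ z₀ + (tau F ζ : ℂ))⁻¹ ^ (mm n + 1)) * (mm n : ℂ)) •
          hhPr (D.q ζ)) z₀ := by
    refine hasFDerivAt_integral_of_dominated_of_fderiv_le
      (F' := fun z ζ => ((χ.χ ζ : ℂ) * ((h ζ).re : ℂ) *
        (D.mlNum ζ * (D.L ζ z + (tau F ζ : ℂ))⁻¹ ^ (mm n + 1)) * (mm n : ℂ)) • hhPr (D.q ζ))
      (bound := fun _ => C * κ⁻¹ ^ (mm n + 1) * (mm n : ℝ) * (2 * D.C)) hsn ?_ ?_ ?_ ?_ ?_ ?_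
    · filter_upwards [hsn] with z hz
      exact (D.ml_int_cont χ hh (hGc z) (hG0 z hz) (mm n)).aestronglyMeasurable D.ml_measS
    · exact D.ml_integrable χ hh hpos hκ0 (hGc z₀) (hG z₀ hz₀s) (mm n)
    · have h1 := ((D.ml_int_cont χ hh (hGc z₀) (hG0 z₀ hz₀s) (mm n + 1)).mul
        (continuousOn_const (c := (mm n : ℂ)))).smul D.hh_qcont.continuousOn
      exact h1.aestronglyMeasurable D.ml_measS
    · filter_upwards [ae_restrict_mem D.ml_measS] with ζ hζ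
      intro z hz
      rw [norm_smul, norm_mul, Complex.norm_natCast]
      have h1 := D.ml_int_le χ hC hκ0 hζ (G := fun ζ => D.L ζ z + (tau F ζ : ℂ)) (hG z hz ζ hζ)
        (mm n + 1)
      apply mul_le_mul _ (D.hh_qnorm hζ) (norm_nonneg _) (by positivity)
      exact mul_le_mul_of_nonneg_right h1 (Nat.cast_nonneg _)
    · exact integrable_const _
    · filter_upwards [ae_restrict_mem D.ml_measS] with ζ hζ
      intro z hz
      exact D.hh_deriv F _ ζ z (hG0 z hz ζ hζ)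
  exact key.differentiableAt.differentiableWithinAt

theorem ht_bounded (χ : D.Cut) {h : En n → ℂ} (hh : DifferentiableOn ℂ h D.S)
    (hpos : ∀ z ∈ D.S, 0 < (h z).re) {l : ℝ} (hl : 0 < l) :
    ∃ δ₀ C : ℝ, 0 < δ₀ ∧ ∀ F : Set (En n), F.Nonempty → F ⊆ closedBall 0 (D.ε / 8) →
      ∀ z ∈ ball (0 : En n) (D.ε / 4), D.r z < δ₀ * infDist z F ^ MM n → l ≤ infDist z F →
        ‖D.HT χ h F z‖ ≤ C := by
  obtain ⟨δ₀, hδ₀, hlow⟩ := D.hh_lower
  obtain ⟨C, hC0, hC⟩ := D.ml_w_le χ hh hpos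
  refine ⟨δ₀, C * (δ₀ * l ^ MM n)⁻¹ ^ mm n * volume.real D.S, hδ₀,
    fun F hFn hF z hz hr hd => ?_⟩
  have hκ : 0 < δ₀ * l ^ MM n := by positivity
  refine norm_setIntegral_le_of_norm_le_const D.ml_volS fun ζ hζ => ?_
  refine D.ml_int_le χ hC hκ hζ (G := fun ζ => D.L ζ z + (tau F ζ : ℂ)) ?_ (mm n)
  refine le_trans ?_ (hlow F hFn hF z hz hr ζ hζ)
  refine le_trans ?_ (le_max_left _ _)
  exact mul_le_mul_of_nonneg_left (pow_le_pow_left₀ hl.le hd _) hδ₀.le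

end LData

end Pool.Agent.H8.FZ
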