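import Pool.Agent.H8.FZ.Geo
import Pool.Agent.H8.FZ.Disc
import Pool.Agent.H8.FZ.Holo

/-!
# FZ-HARN: growth of positive pluriharmonic functions

`h` holomorphic on `S` with `re h > 0`.

**`growth`.** Take `ν, Cν` from `exists_nu` and `s₀, κ₀` from `normal_disc`. For `ζ ∈ S`,
`‖ζ‖ ≤ 5ε/8`, the function `g(l) = h(ζ + (l - s₀) ν ζ)` is holomorphic with positive real part on
the disc of radius `R = s₀ + κ₀ a(ζ)`, `g(s₀) = h(ζ)`, `g(0) = h(x)` with `x = ζ - s₀ ν ζ` in the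
compact subset `{‖x‖ ≤ 11ε/16, a x ≥ s₀/2}` of `S` on which `re h` lies in `[c₁, C₁]` and
`|im h| ≤ C₁` (continuity; if the set is empty there is nothing to prove). The factor
(R+s₀)/(R-s₀) = (2s₀ + κ₀ a)/(κ₀ a) is `≤ C/a` (as `a ≤ 1`). Use `harnack_upper`,
`harnack_lower`, `disc_norm`.

**`deriv_growth`.** For `‖ζ‖ ≤ ε/2` the ball `B(ζ, t a(ζ))`, `t = ε/(16 C)` (say), lies in
`S ∩ {‖·‖ ≤ 5ε/8}` and `a ≥ a(ζ)/2` there (`r_lip`); Cauchy's estimate on complex lines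
(`Complex.norm_deriv_le_of_forall_mem_sphere_norm_le`) gives `‖Dh(ζ)v‖ ≤ (2C₀/a)/(t a/2) ‖v‖`.
(`fderiv ℝ h ζ = (fderiv ℂ h ζ).restrictScalars ℝ`.)
-/

set_option autoImplicit false

noncomputable section

namespace Pool.Agent.H8.FZ

open Complex Metric MeasureTheory Set Filter Topology
open scoped ContDiff ComplexConjugate

variable {n : ℕ}

namespace LData

variable (D : LData n)

theorem S_a_pos {ζ : En n} (hζ : ζ ∈ D.S) : 0 < D.a ζ := by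
  have h := hζ.2
  unfold a
  linarith

theorem S_a_le_one {ζ : En n} (hζ : ζ ∈ D.S) : D.a ζ ≤ 1 := by
  have h := D.b0 ζ hζ.1
  rw [abs_le] at h
  unfold a
  linarith [h.1]

/-- On a compact part of `S` the function `h` and the inverse of its real part are bounded. -/
theorem compact_bounds {h : En n → ℂ} (hh : DifferentiableOn ℂ h D.S)
    (hpos : ∀ z ∈ D.S, 0 < (h z).re) {s₀ : ℝ} (hs₀ : 0 < s₀) :
    ∃ M c₁ : ℝ, 1 ≤ M ∧ 0 < c₁ ∧ ∀ x : En n, ‖x‖ ≤ 11 * D.ε / 16 → s₀ / 2 ≤ D.a x →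
      ‖h x‖ ≤ M ∧ c₁ ≤ (h x).re := by
  have hε := D.hε
  have hacont : Continuous D.a := (D.hr.continuous).neg
  set Kc : Set (En n) := {x | ‖x‖ ≤ 11 * D.ε / 16 ∧ s₀ / 2 ≤ D.a x} with hKc
  have hsub : Kc ⊆ D.S := by
    rintro x ⟨h1, h2⟩
    refine ⟨?_, ?_⟩
    · rw [mem_ball_zero_iff]
      linarith
    · have : D.a x = -D.r x := rfl
      rw [this] at h2
      linarith
  have hclosed : IsClosed Kc :=
    (isClosed_le continuous_norm continuous_const).inter (isClosed_le continuous_const hacont)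
  have hcomp : IsCompact Kc := by
    apply (isCompact_closedBall (0 : En n) (11 * D.ε / 16)).of_isClosed_subset hclosed
    rintro x ⟨h1, _⟩
    rw [mem_closedBall_zero_iff]
    exact h1
  have hcont : ContinuousOn h Kc := hh.continuousOn.mono hsub
  obtain ⟨M₀, hM₀⟩ := hcomp.exists_bound_of_continuousOn hcont
  rcases Kc.eq_empty_or_nonempty with hem | hne
  · refine ⟨1, 1, le_rfl, one_pos, fun x h1 h2 => ?_⟩
    have hx : x ∈ Kc := ⟨h1, h2⟩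
    rw [hem] at hx
    exact absurd hx (Set.notMem_empty x)
  · obtain ⟨x₀, hx₀, hmin⟩ := hcomp.exists_isMinOn hne
      (Complex.continuous_re.comp_continuousOn hcont)
    refine ⟨max 1 M₀, (h x₀).re, le_max_left _ _, hpos x₀ (hsub hx₀), fun x h1 h2 => ?_⟩
    have hx : x ∈ Kc := ⟨h1, h2⟩
    exact ⟨(hM₀ x hx).trans (le_max_right _ _), hmin hx⟩

theorem growth {h : En n → ℂ} (hh : DifferentiableOn ℂ h D.S) (hpos : ∀ z ∈ D.S, 0 < (h z).re) :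
    ∃ C₀ : ℝ, 1 ≤ C₀ ∧ ∀ ζ ∈ D.S, ‖ζ‖ ≤ 5 * D.ε / 8 →
      ‖h ζ‖ ≤ C₀ / D.a ζ ∧ (h ζ).re ≤ C₀ / D.a ζ ∧ D.a ζ / C₀ ≤ (h ζ).re := by
  have hε := D.hε
  obtain ⟨ν, Cν, hν⟩ := D.exists_nu
  obtain ⟨s₀, κ₀, hs₀, hs₁, hκ₀, hκ₁, hsC, hdisc⟩ := D.normal_disc (ν := ν) (Cν := Cν) hν
  obtain ⟨M, c₁, hM, hc₁, hbd⟩ := D.compact_bounds hh hpos hs₀
  refine ⟨max 1 (max (4 * M / κ₀) (3 / (κ₀ * c₁))), le_max_left _ _, fun ζ hζ hζn => ?_⟩
  have ha := D.S_a_pos hζ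
  have ha1 := D.S_a_le_one hζ
  obtain ⟨hd1, hd2⟩ := hdisc ζ hζ (by linarith) s₀ hs₀.le le_rfl
  set R : ℝ := s₀ + κ₀ * D.a ζ with hR_def
  have hκa : 0 < κ₀ * D.a ζ := mul_pos hκ₀ ha
  have hκa1 : κ₀ * D.a ζ ≤ 1 := by nlinarith
  have hR : 0 < R := by linarith
  set g : ℂ → ℂ := fun l => h (ζ + (l - (s₀ : ℂ)) • ν ζ) with hg_def
  have hmem : ∀ l ∈ ball (0 : ℂ) R, ζ + (l - (s₀ : ℂ)) • ν ζ ∈ D.S := by
    intro l hl
    exact hd1 l (mem_ball_zero_iff.1 hl)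
  have hg : DifferentiableOn ℂ g (ball 0 R) := by
    apply hh.comp _ hmem
    intro l _
    apply DifferentiableAt.differentiableWithinAt
    fun_prop
  have hgpos : ∀ l ∈ ball (0 : ℂ) R, 0 < (g l).re := fun l hl => hpos _ (hmem l hl)
  have hsnorm : ‖(s₀ : ℂ)‖ = s₀ := by
    rw [Complex.norm_real, Real.norm_of_nonneg hs₀.le]
  have hsmem : (s₀ : ℂ) ∈ ball (0 : ℂ) R := by
    rw [mem_ball_zero_iff, hsnorm]
    linarith
  have hgs : g s₀ = h ζ := by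
    rw [hg_def]
    simp
  have hg0 : g 0 = h (ζ - (s₀ : ℂ) • ν ζ) := by
    rw [hg_def]
    simp only
    congr 1
    rw [zero_sub, neg_smul, sub_eq_add_neg]
  have hxn : ‖ζ - (s₀ : ℂ) • ν ζ‖ ≤ 11 * D.ε / 16 := by
    have h1 : ‖ν ζ‖ ≤ Cν := (hν.2.1 ζ hζ.1).2
    calc ‖ζ - (s₀ : ℂ) • ν ζ‖ ≤ ‖ζ‖ + ‖(s₀ : ℂ) • ν ζ‖ := norm_sub_le _ _
      _ = ‖ζ‖ + s₀ * ‖ν ζ‖ := by rw [norm_smul, hsnorm]
      _ ≤ 5 * D.ε / 8 + s₀ * Cν := by gcongr
      _ ≤ 5 * D.ε / 8 + D.ε / 16 := by gcongr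
      _ = 11 * D.ε / 16 := by ring
  obtain ⟨hb1, hb2⟩ := hbd _ hxn (by linarith)
  rw [← hg0] at hb1 hb2
  have hup := harnack_upper hR hg hgpos hsmem
  have hlo := harnack_lower hR hg hgpos hsmem
  have hno := disc_norm hR hg hgpos hsmem
  rw [hgs, hsnorm] at hup hlo hno
  have hRs : R - s₀ = κ₀ * D.a ζ := by rw [hR_def]; ring
  have hRs' : R + s₀ ≤ 3 := by rw [hR_def]; linarith
  have hRs'' : 0 < R + s₀ := by linarith
  have hre0 : 0 < (g 0).re := lt_of_lt_of_le hc₁ hb2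
  have hre : (g 0).re ≤ M := (Complex.re_le_norm _).trans hb1
  have him : |(g 0).im| ≤ M := (Complex.abs_im_le_norm _).trans hb1
  have hM0 : 0 < M := by linarith
  have hfac : (R + s₀) / (R - s₀) * (g 0).re ≤ 3 * M / (κ₀ * D.a ζ) := by
    rw [hRs, div_mul_eq_mul_div]
    gcongr
  have hfin : 4 * M / (κ₀ * D.a ζ) ≤
      max 1 (max (4 * M / κ₀) (3 / (κ₀ * c₁))) / D.a ζ := by
    rw [← div_div]
    gcongr
    exact (le_max_left _ _).trans (le_max_right _ _)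
  have h3 : 3 * M / (κ₀ * D.a ζ) + M ≤ 4 * M / (κ₀ * D.a ζ) := by
    have h4 : M ≤ M / (κ₀ * D.a ζ) := by
      rw [le_div_iff₀ hκa]
      nlinarith
    calc 3 * M / (κ₀ * D.a ζ) + M ≤ 3 * M / (κ₀ * D.a ζ) + M / (κ₀ * D.a ζ) := by gcongr
      _ = 4 * M / (κ₀ * D.a ζ) := by ring
  refine ⟨?_, ?_, ?_⟩
  · linarith
  · linarith
  · refine le_trans ?_ hlo
    have h5 : κ₀ * D.a ζ / 3 * c₁ ≤ (R - s₀) / (R + s₀) * (g 0).re := by
      rw [hRs]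
      gcongr
    refine le_trans ?_ h5
    rw [div_le_iff₀ (lt_of_lt_of_le one_pos (le_max_left _ _))]
    calc D.a ζ = κ₀ * D.a ζ / 3 * c₁ * (3 / (κ₀ * c₁)) := by
          field_simp
      _ ≤ κ₀ * D.a ζ / 3 * c₁ * max 1 (max (4 * M / κ₀) (3 / (κ₀ * c₁))) := by
          gcongr
          exact (le_max_right _ _).trans (le_max_right _ _)

theorem deriv_growth {h : En n → ℂ} (hh : DifferentiableOn ℂ h D.S)
    (hpos : ∀ z ∈ D.S, 0 < (h z).re) :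
    ∃ C₁ : ℝ, 1 ≤ C₁ ∧ ∀ ζ ∈ D.S, ‖ζ‖ ≤ D.ε / 2 → ‖fderiv ℝ h ζ‖ ≤ C₁ / D.a ζ ^ 2 := by
  obtain ⟨C₀, hC₀, hgr⟩ := D.growth hh hpos
  have hε := D.hε
  have hε1 := D.hε1
  have hC := D.hC
  have hC0 : 0 < D.C := by linarith
  refine ⟨max 1 (2 * C₀ / (D.ε / (8 * D.C))), le_max_left _ _, fun ζ hζ hζn => ?_⟩
  have ha := D.S_a_pos hζ
  have ha1 := D.S_a_le_one hζ
  set t : ℝ := D.ε / (8 * D.C) with ht_def
  have ht : 0 < t := by positivity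
  have htε : t ≤ D.ε / 8 := by
    rw [ht_def]
    apply div_le_div_of_nonneg_left hε.le (by norm_num)
    linarith
  have htC : D.C * t = D.ε / 8 := by
    rw [ht_def]
    field_simp
  have hta : 0 < t * D.a ζ := mul_pos ht ha
  have hball : ∀ x ∈ ball ζ (t * D.a ζ), x ∈ D.S ∧ ‖x‖ ≤ 5 * D.ε / 8 ∧ D.a ζ / 2 ≤ D.a x := by
    intro x hx
    rw [mem_ball, dist_eq_norm] at hx
    have h1 : ‖x‖ ≤ 5 * D.ε / 8 := by
      calc ‖x‖ = ‖(x - ζ) + ζ‖ := by rw [sub_add_cancel]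
        _ ≤ ‖x - ζ‖ + ‖ζ‖ := norm_add_le _ _
        _ ≤ t * D.a ζ + D.ε / 2 := by gcongr
        _ ≤ t * 1 + D.ε / 2 := by gcongr
        _ ≤ 5 * D.ε / 8 := by linarith
    have h2 : x ∈ ball (0 : En n) D.ε := by
      rw [mem_ball_zero_iff]
      linarith
    have h3 := D.r_lip hζ.1 h2
    have h4 : D.C * ‖x - ζ‖ ≤ D.a ζ / 2 := by
      calc D.C * ‖x - ζ‖ ≤ D.C * (t * D.a ζ) := by gcongr
        _ = D.ε / 8 * D.a ζ := by rw [← mul_assoc, htC]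
        _ ≤ 1 / 2 * D.a ζ := by
            gcongr
            linarith
        _ = D.a ζ / 2 := by ring
    have h5 := (abs_le.1 h3).2
    have hax : D.a x = -D.r x := rfl
    have haζ : D.a ζ = -D.r ζ := rfl
    have h6 : D.a ζ / 2 ≤ D.a x := by
      rw [hax]
      linarith
    refine ⟨⟨h2, ?_⟩, h1, h6⟩
    rw [hax] at h6
    linarith
  have hd : DifferentiableOn ℂ h (ball ζ (t * D.a ζ)) := hh.mono fun x hx => (hball x hx).1
  have hB : ∀ x ∈ ball ζ (t * D.a ζ), ‖h x‖ ≤ 2 * C₀ / D.a ζ := by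
    intro x hx
    obtain ⟨h1, h2, h3⟩ := hball x hx
    refine ((hgr x h1 h2).1).trans ?_
    rw [div_le_div_iff₀ (D.S_a_pos h1) ha]
    nlinarith
  have hc := cauchy_fderiv hta hd hB
  have hdζ : DifferentiableAt ℂ h ζ :=
    (hd ζ (mem_ball_self hta)).differentiableAt (isOpen_ball.mem_nhds (mem_ball_self hta))
  have hfd : fderiv ℝ h ζ = (fderiv ℂ h ζ).restrictScalars ℝ :=
    hdζ.fderiv_restrictScalars ℝ
  rw [hfd, ContinuousLinearMap.norm_restrictScalars]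
  refine hc.trans ?_
  have h7 : 2 * C₀ / D.a ζ / (t * D.a ζ) = 2 * C₀ / t / D.a ζ ^ 2 := by
    field_simp
  rw [h7]
  gcongr
  exact le_max_right _ _

end LData

end Pool.Agent.H8.FZ
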