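import Pool.Agent.H8.FZ.Harn

/-!
# FZ-HARNE: the main Harnack estimate (E3)

`U = re h`, `R = ‖L ζ z'‖`. Claim: `a(ζ) U(ζ) ≤ C R^{7/4} a(z')^{-7/8} U(z')^{7/8}`.

Take `ν, Cν, s₀, κ₀` (`exists_nu`, `normal_disc`), `Γ, r₀` (`tangential_disc`), `C₀` (`growth`),
`c'` (`norm_L_ge`).

* **Case `R ≤ r₀`.** `s = Γ R`, `y = ζ - s ν ζ`, `x = z' - s ν z'`. Normal disc at `ζ` of radius
  `s + κ₀ a(ζ)`, `harnack_upper` at `l = s`: `U(ζ) ≤ (2s + κ₀ a ζ)/(κ₀ a ζ) U(y) ≤ C (R/a ζ) U(y)`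
  (as `a ζ ≤ R/c'`). Tangential disc `l ↦ x + l (y - x)`, `|l| < 2`, `harnack_upper` at `l = 1`:
  `U(y) ≤ 3 U(x)`. Normal disc at `z'`, `harnack_lower`: `U(z') ≥ κ₀ a(z')/(2s + κ₀ a z') U(x)`,
  so `U(x) ≤ C (R/a z') U(z')`. Also `U(y) ≤ C₀/a(y) ≤ 2C₀/(Γ R)` (`‖y‖ ≤ ε/2 + s₀ Cν ≤ 5ε/8`).
  Hence `U(y) ≤ C ((R/a z') U(z'))^{7/8} (1/R)^{1/8}` (`x ≤ A, x ≤ B → x ≤ A^{7/8} B^{1/8}`),
  and `a ζ U ζ ≤ C R · R^{7/8} R^{-1/8} a(z')^{-7/8} U(z')^{7/8}`.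
* **Case `R > r₀`.** `a ζ U ζ ≤ C₀` and the right side is
  `≥ r₀^{7/4} (U(z')/a(z'))^{7/8} ≥ r₀^{7/4} C₀^{-7/8}`.
-/

set_option autoImplicit false

noncomputable section

namespace Pool.Agent.H8.FZ

open Complex Metric MeasureTheory Set Filter Topology
open scoped ContDiff ComplexConjugate

variable {n : ℕ}

/-- the numerical heart of the case `R ≤ r₀`. -/
private theorem harnE_aux {κ G R aζ az Uζ Uz Ux Uy C₀ : ℝ} (hκ : 0 < κ) (hG : 0 < G) (hR : 0 < R)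
    (haz : 0 < az) (hUz : 0 < Uz) (hUy : 0 < Uy) (hC₀ : 0 < C₀)
    (h1 : κ * aζ * Uζ ≤ G * R * Uy) (h2 : Uy ≤ 3 * Ux) (h3 : κ * az * Ux ≤ G * R * Uz)
    (h4 : Uy * R ≤ 2 * C₀) :
    aζ * Uζ ≤ (G / κ) * (3 * G / κ) ^ (7 / 8 : ℝ) * (2 * C₀) ^ (1 / 8 : ℝ) *
      R ^ (7 / 4 : ℝ) * az ^ (-(7 / 8) : ℝ) * Uz ^ (7 / 8 : ℝ) := by
  have hA : Uy ≤ (3 * G / κ) * R * az⁻¹ * Uz := by
    have h5 : κ * az * Uy ≤ 3 * (G * R * Uz) := by
      have := mul_le_mul_of_nonneg_left h2 (mul_pos hκ haz).le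
      nlinarith
    have h6 : (3 * G / κ) * R * az⁻¹ * Uz = 3 * (G * R * Uz) / (κ * az) := by
      field_simp
    rw [h6, le_div_iff₀ (mul_pos hκ haz)]
    linarith
  have hB : Uy ≤ (2 * C₀) * R⁻¹ := by
    rw [← div_eq_mul_inv, le_div_iff₀ hR]
    exact h4
  have hC : Uy = Uy ^ (7 / 8 : ℝ) * Uy ^ (1 / 8 : ℝ) := by
    rw [← Real.rpow_add hUy]
    norm_num
  have hA' : Uy ^ (7 / 8 : ℝ) ≤ ((3 * G / κ) * R * az⁻¹ * Uz) ^ (7 / 8 : ℝ) :=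
    Real.rpow_le_rpow hUy.le hA (by norm_num)
  have hB' : Uy ^ (1 / 8 : ℝ) ≤ ((2 * C₀) * R⁻¹) ^ (1 / 8 : ℝ) :=
    Real.rpow_le_rpow hUy.le hB (by norm_num)
  have hA'' : ((3 * G / κ) * R * az⁻¹ * Uz) ^ (7 / 8 : ℝ) =
      (3 * G / κ) ^ (7 / 8 : ℝ) * R ^ (7 / 8 : ℝ) * az ^ (-(7 / 8) : ℝ) * Uz ^ (7 / 8 : ℝ) := by
    rw [Real.mul_rpow (by positivity) hUz.le, Real.mul_rpow (by positivity) (by positivity),
      Real.mul_rpow (by positivity) hR.le, Real.inv_rpow haz.le, Real.rpow_neg haz.le]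
  have hB'' : ((2 * C₀) * R⁻¹) ^ (1 / 8 : ℝ) = (2 * C₀) ^ (1 / 8 : ℝ) * R ^ (-(1 / 8) : ℝ) := by
    rw [Real.mul_rpow (by positivity) (by positivity), Real.inv_rpow hR.le, Real.rpow_neg hR.le]
  have hD : Uy ≤ ((3 * G / κ) ^ (7 / 8 : ℝ) * R ^ (7 / 8 : ℝ) * az ^ (-(7 / 8) : ℝ) *
      Uz ^ (7 / 8 : ℝ)) * ((2 * C₀) ^ (1 / 8 : ℝ) * R ^ (-(1 / 8) : ℝ)) := by
    rw [← hA'', ← hB'']
    calc Uy = Uy ^ (7 / 8 : ℝ) * Uy ^ (1 / 8 : ℝ) := hC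
      _ ≤ _ := mul_le_mul hA' hB' (Real.rpow_nonneg hUy.le _) (by positivity)
  have hE : R ^ (7 / 4 : ℝ) = R * R ^ (7 / 8 : ℝ) * R ^ (-(1 / 8) : ℝ) := by
    rw [show (7 / 4 : ℝ) = 1 + 7 / 8 + (-(1 / 8)) by norm_num, Real.rpow_add hR, Real.rpow_add hR,
      Real.rpow_one]
  have hF : aζ * Uζ ≤ (G / κ) * R * Uy := by
    have : (G / κ) * R * Uy = G * R * Uy / κ := by ring
    rw [this, le_div_iff₀ hκ]
    linarith
  calc aζ * Uζ ≤ (G / κ) * R * Uy := hF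
    _ ≤ (G / κ) * R * (((3 * G / κ) ^ (7 / 8 : ℝ) * R ^ (7 / 8 : ℝ) * az ^ (-(7 / 8) : ℝ) *
      Uz ^ (7 / 8 : ℝ)) * ((2 * C₀) ^ (1 / 8 : ℝ) * R ^ (-(1 / 8) : ℝ))) :=
        mul_le_mul_of_nonneg_left hD (by positivity)
    _ = _ := by rw [hE]; ring

namespace LData

variable (D : LData n)

theorem harnack_main {h : En n → ℂ} (hh : DifferentiableOn ℂ h D.S)
    (hpos : ∀ z ∈ D.S, 0 < (h z).re) :
    ∃ C : ℝ, 0 < C ∧ ∀ z' ∈ D.S, ‖z'‖ ≤ D.ε / 2 → ∀ ζ ∈ D.S, ‖ζ‖ ≤ D.ε / 2 →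
      D.a ζ * (h ζ).re ≤ C * ‖D.L ζ z'‖ ^ (7 / 4 : ℝ) * D.a z' ^ (-(7 / 8) : ℝ) *
        (h z').re ^ (7 / 8 : ℝ) := by
  classical
  obtain ⟨ν, Cν, hCν1, hν1, hν2⟩ := D.exists_nu
  have hν : D.IsNu ν Cν := ⟨hCν1, hν1, hν2⟩
  obtain ⟨s₀, κ₀, hs₀, hs₀1, hκ₀, hκ₀1, hsC, hnd⟩ := D.normal_disc hν
  obtain ⟨Γ, r₀, hΓ, hr₀, hr₀1, hΓr, htd⟩ := D.tangential_disc hν hs₀
  obtain ⟨C₀, hC₀1, hgr⟩ := D.growth hh hpos
  obtain ⟨c', hc', hc'1, hLge⟩ := D.norm_L_ge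
  have hC₀ : 0 < C₀ := by linarith
  have hε := D.hε
  set G : ℝ := 2 * Γ + 1 / c' with hG
  have hGpos : 0 < G := by positivity
  set C₁ : ℝ := (G / κ₀) * (3 * G / κ₀) ^ (7 / 8 : ℝ) * (2 * C₀) ^ (1 / 8 : ℝ) with hC₁
  have hC₁pos : 0 < C₁ := by positivity
  set C₂ : ℝ := C₀ * r₀ ^ (-(7 / 4) : ℝ) * C₀ ^ (7 / 8 : ℝ) with hC₂
  have hC₂pos : 0 < C₂ := by positivity
  refine ⟨C₁ + C₂, by positivity, ?_⟩
  intro z' hz' hz'n ζ hζ hζn
  have hζb : ζ ∈ ball (0 : En n) D.ε := hζ.1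
  have hz'b : z' ∈ ball (0 : En n) D.ε := hz'.1
  have haζ : 0 < D.a ζ := by have := hζ.2; simp only [LData.a]; linarith
  have haz : 0 < D.a z' := by have := hz'.2; simp only [LData.a]; linarith
  have hUζ : 0 < (h ζ).re := hpos ζ hζ
  have hUz : 0 < (h z').re := hpos z' hz'
  have hL := hLge ζ z' hζb hz'b haζ.le haz.le
  set R : ℝ := ‖D.L ζ z'‖ with hR
  have hpr : 0 ≤ ‖pr (D.q z') (ζ - z')‖ := norm_nonneg _
  have hsq : 0 ≤ ‖ζ - z'‖ ^ 2 := by positivity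
  have haζR : c' * D.a ζ ≤ R := by nlinarith
  have hazR : c' * D.a z' ≤ R := by nlinarith
  have hRpos : 0 < R := lt_of_lt_of_le (mul_pos hc' haζ) haζR
  have haζR' : D.a ζ ≤ (1 / c') * R := by
    rw [one_div, ← div_eq_inv_mul, le_div_iff₀ hc']; linarith
  have hazR' : D.a z' ≤ (1 / c') * R := by
    rw [one_div, ← div_eq_inv_mul, le_div_iff₀ hc']; linarith
  have hX : 0 < R ^ (7 / 4 : ℝ) * D.a z' ^ (-(7 / 8) : ℝ) * (h z').re ^ (7 / 8 : ℝ) := by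
    positivity
  by_cases hRr : R ≤ r₀
  · -- the main case
    set s : ℝ := Γ * R with hs
    have hspos : 0 < s := by positivity
    have hss₀ : s ≤ s₀ := le_trans (mul_le_mul_of_nonneg_left hRr (by linarith)) hΓr
    have hζ34 : ‖ζ‖ ≤ 3 * D.ε / 4 := by linarith
    have hz34 : ‖z'‖ ≤ 3 * D.ε / 4 := by linarith
    obtain ⟨hn1, hn2⟩ := hnd ζ hζ hζ34 s hspos.le hss₀
    obtain ⟨hn3, _⟩ := hnd z' hz' hz34 s hspos.le hss₀
    have htd' := htd z' hz' hz'n ζ hζ hζn hRr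
    set y : En n := ζ - (s : ℂ) • ν ζ with hy
    set x : En n := z' - (s : ℂ) • ν z' with hx
    have hyS : y ∈ D.S := by
      have := hn1 0 (by rw [norm_zero]; positivity)
      rwa [zero_sub, neg_smul, ← sub_eq_add_neg] at this
    have hUy : 0 < (h y).re := hpos y hyS
    -- normal disc at ζ
    have e1 : κ₀ * D.a ζ * (h ζ).re ≤ (2 * s + κ₀ * D.a ζ) * (h y).re := by
      have hg : DifferentiableOn ℂ (fun l : ℂ => h (ζ + (l - (s : ℂ)) • ν ζ))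
          (ball 0 (s + κ₀ * D.a ζ)) := by
        refine hh.comp (by fun_prop) ?_
        intro l hl
        rw [mem_ball_zero_iff] at hl
        exact hn1 l hl
      have hgp : ∀ l ∈ ball (0 : ℂ) (s + κ₀ * D.a ζ),
          0 < ((fun l : ℂ => h (ζ + (l - (s : ℂ)) • ν ζ)) l).re := by
        intro l hl
        rw [mem_ball_zero_iff] at hl
        exact hpos _ (hn1 l hl)
      have hsn : ‖(s : ℂ)‖ = s := by rw [Complex.norm_real, Real.norm_of_nonneg hspos.le]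
      have hsin : (s : ℂ) ∈ ball (0 : ℂ) (s + κ₀ * D.a ζ) := by
        rw [mem_ball_zero_iff, hsn]
        have := mul_pos hκ₀ haζ
        linarith
      have := harnack_upper (by positivity) hg hgp hsin
      simp only [sub_self, zero_smul, add_zero, zero_sub, neg_smul, ← sub_eq_add_neg] at this
      rw [hsn, ← hy] at this
      have h1 : s + κ₀ * D.a ζ - s = κ₀ * D.a ζ := by ring
      have h2 : s + κ₀ * D.a ζ + s = 2 * s + κ₀ * D.a ζ := by ring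
      rw [h1, h2, div_mul_eq_mul_div, le_div_iff₀ (mul_pos hκ₀ haζ)] at this
      linarith
    -- normal disc at z'
    have e3 : κ₀ * D.a z' * (h x).re ≤ (2 * s + κ₀ * D.a z') * (h z').re := by
      have hg : DifferentiableOn ℂ (fun l : ℂ => h (z' + (l - (s : ℂ)) • ν z'))
          (ball 0 (s + κ₀ * D.a z')) := by
        refine hh.comp (by fun_prop) ?_
        intro l hl
        rw [mem_ball_zero_iff] at hl
        exact hn3 l hl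
      have hgp : ∀ l ∈ ball (0 : ℂ) (s + κ₀ * D.a z'),
          0 < ((fun l : ℂ => h (z' + (l - (s : ℂ)) • ν z')) l).re := by
        intro l hl
        rw [mem_ball_zero_iff] at hl
        exact hpos _ (hn3 l hl)
      have hsn : ‖(s : ℂ)‖ = s := by rw [Complex.norm_real, Real.norm_of_nonneg hspos.le]
      have hsin : (s : ℂ) ∈ ball (0 : ℂ) (s + κ₀ * D.a z') := by
        rw [mem_ball_zero_iff, hsn]
        have := mul_pos hκ₀ haz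
        linarith
      have := harnack_lower (by positivity) hg hgp hsin
      simp only [sub_self, zero_smul, add_zero, zero_sub, neg_smul, ← sub_eq_add_neg] at this
      rw [hsn, ← hx] at this
      have h1 : s + κ₀ * D.a z' - s = κ₀ * D.a z' := by ring
      have h2 : s + κ₀ * D.a z' + s = 2 * s + κ₀ * D.a z' := by ring
      rw [h1, h2, div_mul_eq_mul_div, div_le_iff₀ (by positivity)] at this
      linarith
    -- tangential disc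
    have e2 : (h y).re ≤ 3 * (h x).re := by
      have hg : DifferentiableOn ℂ (fun l : ℂ => h (x + l • (y - x))) (ball 0 2) := by
        refine hh.comp (by fun_prop) ?_
        intro l hl
        rw [mem_ball_zero_iff] at hl
        exact htd' l hl
      have hgp : ∀ l ∈ ball (0 : ℂ) 2, 0 < ((fun l : ℂ => h (x + l • (y - x))) l).re := by
        intro l hl
        rw [mem_ball_zero_iff] at hl
        exact hpos _ (htd' l hl)
      have h1in : (1 : ℂ) ∈ ball (0 : ℂ) 2 := by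
        rw [mem_ball_zero_iff, norm_one]; norm_num
      have := harnack_upper (by norm_num) hg hgp h1in
      simp only [one_smul, zero_smul, add_zero, add_sub_cancel, norm_one] at this
      norm_num at this
      exact this
    -- growth at y
    have hyn : ‖y‖ ≤ 5 * D.ε / 8 := by
      have h1 : ‖y‖ ≤ ‖ζ‖ + ‖(s : ℂ) • ν ζ‖ := norm_sub_le _ _
      have h2 : ‖(s : ℂ) • ν ζ‖ ≤ s₀ * Cν := by
        rw [norm_smul, Complex.norm_real, Real.norm_of_nonneg hspos.le]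
        exact mul_le_mul hss₀ (hν1 ζ hζb).2 (norm_nonneg _) hs₀.le
      linarith
    have hay : D.a ζ + s / 2 ≤ D.a y := hn2
    have e4 : (h y).re * R ≤ 2 * C₀ := by
      have h1 := (hgr y hyS hyn).2.1
      have hapos : 0 < D.a y := by linarith
      rw [le_div_iff₀ hapos] at h1
      have h2 : R / 2 ≤ D.a y := by
        have : R ≤ s := by rw [hs]; nlinarith
        linarith
      nlinarith
    have e1' : κ₀ * D.a ζ * (h ζ).re ≤ G * R * (h y).re := by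
      refine e1.trans (mul_le_mul_of_nonneg_right ?_ hUy.le)
      rw [hG, hs]
      have : κ₀ * D.a ζ ≤ 1 * D.a ζ := mul_le_mul_of_nonneg_right hκ₀1 haζ.le
      linarith
    have e3' : κ₀ * D.a z' * (h x).re ≤ G * R * (h z').re := by
      refine e3.trans (mul_le_mul_of_nonneg_right ?_ hUz.le)
      rw [hG, hs]
      have : κ₀ * D.a z' ≤ 1 * D.a z' := mul_le_mul_of_nonneg_right hκ₀1 haz.le
      linarith
    have key := harnE_aux hκ₀ hGpos hRpos haz hUz hUy hC₀ e1' e2 e3' e4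
    calc D.a ζ * (h ζ).re ≤ C₁ * R ^ (7 / 4 : ℝ) * D.a z' ^ (-(7 / 8) : ℝ) *
        (h z').re ^ (7 / 8 : ℝ) := key
      _ ≤ (C₁ + C₂) * R ^ (7 / 4 : ℝ) * D.a z' ^ (-(7 / 8) : ℝ) * (h z').re ^ (7 / 8 : ℝ) := by
        have : 0 ≤ C₂ * (R ^ (7 / 4 : ℝ) * D.a z' ^ (-(7 / 8) : ℝ) * (h z').re ^ (7 / 8 : ℝ)) := by
          positivity
        nlinarith
  · -- far case
    push Not at hRr
    have h1 : D.a ζ * (h ζ).re ≤ C₀ := by
      have := (hgr ζ hζ (by linarith)).2.1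
      rw [le_div_iff₀ haζ] at this
      linarith
    have h2 : D.a z' / C₀ ≤ (h z').re := (hgr z' hz' (by linarith)).2.2
    have h3 : (C₀⁻¹ : ℝ) ≤ (D.a z')⁻¹ * (h z').re := by
      rw [div_le_iff₀ hC₀] at h2
      rw [← div_eq_inv_mul, le_div_iff₀ haz, ← div_eq_inv_mul, div_le_iff₀ hC₀]
      exact h2
    have h4 : (C₀⁻¹ : ℝ) ^ (7 / 8 : ℝ) ≤ ((D.a z')⁻¹ * (h z').re) ^ (7 / 8 : ℝ) :=
      Real.rpow_le_rpow (by positivity) h3 (by norm_num)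
    rw [Real.mul_rpow (by positivity) hUz.le, Real.inv_rpow haz.le, ← Real.rpow_neg haz.le,
      Real.inv_rpow hC₀.le] at h4
    have h5 : r₀ ^ (7 / 4 : ℝ) ≤ R ^ (7 / 4 : ℝ) :=
      Real.rpow_le_rpow hr₀.le hRr.le (by norm_num)
    have h6 : C₀ = C₂ * (r₀ ^ (7 / 4 : ℝ) * (C₀ ^ (7 / 8 : ℝ))⁻¹) := by
      rw [hC₂, Real.rpow_neg hr₀.le]
      have a1 : r₀ ^ (7 / 4 : ℝ) ≠ 0 := by positivity
      have a2 : C₀ ^ (7 / 8 : ℝ) ≠ 0 := by positivity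
      field_simp
    calc D.a ζ * (h ζ).re ≤ C₀ := h1
      _ = C₂ * (r₀ ^ (7 / 4 : ℝ) * (C₀ ^ (7 / 8 : ℝ))⁻¹) := h6
      _ ≤ C₂ * (R ^ (7 / 4 : ℝ) * (D.a z' ^ (-(7 / 8) : ℝ) * (h z').re ^ (7 / 8 : ℝ))) := by
        refine mul_le_mul_of_nonneg_left ?_ hC₂pos.le
        exact mul_le_mul h5 h4 (by positivity) (by positivity)
      _ ≤ (C₁ + C₂) * R ^ (7 / 4 : ℝ) * D.a z' ^ (-(7 / 8) : ℝ) * (h z').re ^ (7 / 8 : ℝ) := by
        have : 0 ≤ C₁ * (R ^ (7 / 4 : ℝ) * D.a z' ^ (-(7 / 8) : ℝ) * (h z').re ^ (7 / 8 : ℝ)) := by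
          positivity
        nlinarith

end LData

end Pool.Agent.H8.FZ
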