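import Pool.Agent.H8.FZ.HorDefs

/-!
# FZ-HORA1: the basic inequality for smooth compactly supported forms

Notation `δ_j g = ∂_j g - g ∂_jφ`, (g,h) = ∫ g h̄ e^{-φ}. For `g, h ∈ C_c^∞(Ω)`:
(∂̄_k g, h) = -(g, δ_k h) (integration by parts: `∫ ∂̄_k(g h̄ e^{-φ}) = 0`; `∂̄_k h̄ = conj(∂_k h)`,
`∂̄_k φ = conj(∂_kφ)`), and `δ_j ∂̄_k g - ∂̄_k δ_j g = (∂̄_k∂_jφ) g`. So
(δ_j f_j, δ_k f_k) = -(∂̄_k δ_j f_j, f_k) = -(δ_j ∂̄_k f_j, f_k) + (φ_{jk̄} f_j, f_k)
 = (∂̄_k f_j, ∂̄_j f_k) + (φ_{jk̄} f_j, f_k). Sum over `j,k`: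
`∫ |∑δ_j f_j|² e^{-φ} = ∑_{j,k} (∂̄_k f_j, ∂̄_j f_k) + ∫ levi φ(f) e^{-φ}` (`levi_eq`), and
`½∑_{j,k}|∂̄_j f_k - ∂̄_k f_j|² = ∑_{j,k}|∂̄_j f_k|² - ∑_{j,k} ∂̄_k f_j conj(∂̄_j f_k)`. So
`∫ levi φ(f) e^{-φ} ≤ ∫|∑δ_j f_j|² e^{-φ} + ½ ∑∑ ∫|∂̄_j f_k - ∂̄_k f_j|² e^{-φ}`.
Now `Dv φ ψ f = ∑ δ_j f_j + ∑ f_j ∂_jψ`, so `|∑δ_j f_j|² ≤ 2|Dv|² + 2 |f|² delSq ψ`, and
`levi φ(f) ≥ 2(delSq ψ + e^ψ)|f|²`. Subtract and divide by 2.

The functions `e^{-φ}` etc. are only smooth on `Ω`; products with compactly supported functions in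
`Ω` extend by zero. A convenient first step: if `g` is `C^1` on `Ω` with compact support
(`tsupport ⊆ Ω`) then `∫_Ω dbar k g = 0`, `∫_Ω del k g = 0`
(`integral_mul_fderiv_eq_neg_fderiv_mul_of_integrable`).
-/

set_option autoImplicit false

noncomputable section

namespace Pool.Agent.H8.FZ

open Complex Metric MeasureTheory Set Filter Topology
open scoped ContDiff ComplexConjugate

variable {n : ℕ}

namespace HorA1Aux

theorem smooth_of {Ω K : Set (En n)} (hΩ : IsOpen Ω) (hK : IsCompact K) (hKΩ : K ⊆ Ω)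
    {u : En n → ℂ} (hu : ContDiffOn ℝ ∞ u Ω) (h0 : ∀ z, z ∉ K → u z = 0) : ContDiff ℝ ∞ u := by
  rw [contDiff_iff_contDiffAt]
  intro z
  by_cases hz : z ∈ K
  · exact hu.contDiffAt (hΩ.mem_nhds (hKΩ hz))
  · refine (contDiffAt_const (c := (0 : ℂ))).congr_of_eventuallyEq ?_
    filter_upwards [hK.isClosed.isOpen_compl.mem_nhds hz] with y hy
    exact h0 y hy

theorem integrable_of {Ω K : Set (En n)} (hK : IsCompact K) (hKΩ : K ⊆ Ω)
    {F : Type*} [NormedAddCommGroup F] {u : En n → F} (hu : ContinuousOn u Ω)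
    (h0 : ∀ z, z ∉ K → u z = 0) : Integrable u := by
  have h1 : IntegrableOn u K := (hu.mono hKΩ).integrableOn_compact hK
  exact (integrableOn_iff_integrable_of_support_subset (by
    intro z hz
    by_contra hcon
    exact hz (h0 z hcon))).1 h1

theorem int_fderiv {u : En n → ℂ} (hu : ContDiff ℝ ∞ u) (hc : HasCompactSupport u) (v : En n) :
    ∫ z, fderiv ℝ u z v = 0 := by
  have hd : Continuous fun z => fderiv ℝ u z v :=
    (hu.continuous_fderiv (by simp)).clm_apply continuous_const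
  have hdc : HasCompactSupport fun z => fderiv ℝ u z v := hc.fderiv_apply ℝ v
  have h := integral_mul_fderiv_eq_neg_fderiv_mul_of_integrable (μ := volume)
    (f := fun _ : En n => (1 : ℂ)) (g := u) (v := v) (by simp)
    (by simpa using hd.integrable_of_hasCompactSupport hdc)
    (by simpa using hu.continuous.integrable_of_hasCompactSupport hc)
    (fun _ _ => differentiableAt_const _)
    (fun x _ => (hu.differentiable (by simp)) x)
  simpa using h

theorem int_fderiv_integrable {u : En n → ℂ} (hu : ContDiff ℝ ∞ u) (hc : HasCompactSupport u)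
    (v : En n) : Integrable fun z => fderiv ℝ u z v :=
  ((hu.continuous_fderiv (by simp)).clm_apply continuous_const).integrable_of_hasCompactSupport
    (hc.fderiv_apply ℝ v)

theorem int_dbar {u : En n → ℂ} (hu : ContDiff ℝ ∞ u) (hc : HasCompactSupport u) (k : Fin n) :
    Integrable (dbar k u) ∧ ∫ z, dbar k u z = 0 := by
  have i1 := int_fderiv_integrable hu hc (eb k)
  have i2 := int_fderiv_integrable hu hc (I • eb k)
  have e : dbar k u = fun z => (1 / 2 : ℂ) * (fderiv ℝ u z (eb k) + I * fderiv ℝ u z (I • eb k)) :=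
    rfl
  rw [e]
  refine ⟨(i1.add (i2.const_mul I)).const_mul _, ?_⟩
  rw [integral_const_mul, integral_add i1 (i2.const_mul I), integral_const_mul,
    int_fderiv hu hc, int_fderiv hu hc]
  simp

theorem int_del {u : En n → ℂ} (hu : ContDiff ℝ ∞ u) (hc : HasCompactSupport u) (k : Fin n) :
    Integrable (del k u) ∧ ∫ z, del k u z = 0 := by
  have i1 := int_fderiv_integrable hu hc (eb k)
  have i2 := int_fderiv_integrable hu hc (I • eb k)
  have e : del k u = fun z => (1 / 2 : ℂ) * (fderiv ℝ u z (eb k) - I * fderiv ℝ u z (I • eb k)) :=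
    rfl
  rw [e]
  refine ⟨(i1.sub (i2.const_mul I)).const_mul _, ?_⟩
  rw [integral_const_mul, integral_sub i1 (i2.const_mul I), integral_const_mul,
    int_fderiv hu hc, int_fderiv hu hc]
  simp

/-- the weight `e^{-φ}` -/
def W (φ : En n → ℝ) (z : En n) : ℂ := Complex.exp (-(φ z : ℂ))

theorem W_eq (φ : En n → ℝ) (z : En n) : W φ z = ((Real.exp (-φ z) : ℝ) : ℂ) := by
  unfold W
  push_cast
  rfl

theorem ofReal_smooth {Ω : Set (En n)} {φ : En n → ℝ} (hφ : ContDiffOn ℝ ∞ φ Ω) :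
    ContDiffOn ℝ ∞ (fun x => (φ x : ℂ)) Ω :=
  Complex.ofRealCLM.contDiff.comp_contDiffOn hφ

theorem W_smooth {Ω : Set (En n)} {φ : En n → ℝ} (hφ : ContDiffOn ℝ ∞ φ Ω) :
    ContDiffOn ℝ ∞ (W φ) Ω := (ofReal_smooth hφ).neg.cexp

theorem fderiv_W {φ : En n → ℝ} {z : En n} (hφ : DifferentiableAt ℝ (fun x => (φ x : ℂ)) z)
    (v : En n) : fderiv ℝ (W φ) z v = -(fderiv ℝ (fun x => (φ x : ℂ)) z v) * W φ z := by
  have h := (hφ.hasFDerivAt.neg).cexp.fderiv
  have h' : fderiv ℝ (W φ) z = Complex.exp (-(φ z : ℂ)) • -fderiv ℝ (fun x => (φ x : ℂ)) z := h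
  rw [h']
  simp only [smul_apply, neg_apply, smul_eq_mul, W]
  ring

theorem dbar_W {φ : En n → ℝ} {z : En n} (hφ : DifferentiableAt ℝ (fun x => (φ x : ℂ)) z)
    (k : Fin n) : dbar k (W φ) z = -(dbar k (fun x => (φ x : ℂ)) z) * W φ z := by
  unfold dbar
  rw [fderiv_W hφ, fderiv_W hφ]
  ring

theorem del_W {φ : En n → ℝ} {z : En n} (hφ : DifferentiableAt ℝ (fun x => (φ x : ℂ)) z)
    (k : Fin n) : del k (W φ) z = -(del k (fun x => (φ x : ℂ)) z) * W φ z := by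
  unfold del
  rw [fderiv_W hφ, fderiv_W hφ]
  ring

/-- `δ_j g` -/
def dl (φ : En n → ℝ) (j : Fin n) (g : En n → ℂ) (z : En n) : ℂ :=
  del j g z - g z * del j (fun x => (φ x : ℂ)) z

def u1 (φ : En n → ℝ) (j : Fin n) (g h : En n → ℂ) (z : En n) : ℂ :=
  dl φ j g z * conj (h z) * W φ z

def u2 (φ : En n → ℝ) (k : Fin n) (g h : En n → ℂ) (z : En n) : ℂ :=
  dbar k g z * conj (h z) * W φ z

theorem conj_smooth {Ω : Set (En n)} {h : En n → ℂ} (hh : ContDiffOn ℝ ∞ h Ω) :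
    ContDiffOn ℝ ∞ (fun x => conj (h x)) Ω :=
  Complex.conjCLE.contDiff.comp_contDiffOn hh

theorem dl_smooth {Ω : Set (En n)} (hΩ : IsOpen Ω) {φ : En n → ℝ} (hφ : ContDiffOn ℝ ∞ φ Ω)
    {g : En n → ℂ} (hg : ContDiffOn ℝ ∞ g Ω) (j : Fin n) : ContDiffOn ℝ ∞ (dl φ j g) Ω :=
  (contDiffOn_del hΩ hg j).sub (hg.mul (contDiffOn_del hΩ (ofReal_smooth hφ) j))

theorem u1_smooth {Ω : Set (En n)} (hΩ : IsOpen Ω) {φ : En n → ℝ} (hφ : ContDiffOn ℝ ∞ φ Ω)
    {g h : En n → ℂ} (hg : ContDiffOn ℝ ∞ g Ω) (hh : ContDiffOn ℝ ∞ h Ω) (j : Fin n) :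
    ContDiffOn ℝ ∞ (u1 φ j g h) Ω :=
  ((dl_smooth hΩ hφ hg j).mul (conj_smooth hh)).mul (W_smooth hφ)

theorem u2_smooth {Ω : Set (En n)} (hΩ : IsOpen Ω) {φ : En n → ℝ} (hφ : ContDiffOn ℝ ∞ φ Ω)
    {g h : En n → ℂ} (hg : ContDiffOn ℝ ∞ g Ω) (hh : ContDiffOn ℝ ∞ h Ω) (k : Fin n) :
    ContDiffOn ℝ ∞ (u2 φ k g h) Ω :=
  ((contDiffOn_dbar hΩ hg k).mul (conj_smooth hh)).mul (W_smooth hφ)

/-- the pointwise identity behind the integration by parts -/
theorem ident {Ω : Set (En n)} (hΩ : IsOpen Ω) {φ : En n → ℝ} (hφ : ContDiffOn ℝ ∞ φ Ω)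
    {g h : En n → ℂ} (hg : ContDiffOn ℝ ∞ g Ω) (hh : ContDiffOn ℝ ∞ h Ω) (j k : Fin n)
    {z : En n} (hz : z ∈ Ω) :
    dbar k (u1 φ j g h) z - del j (u2 φ k g h) z =
      (dl φ j g z * conj (dl φ k h z) - dbar k g z * conj (dbar j h z) -
        dbar k (del j (fun x => (φ x : ℂ))) z * g z * conj (h z)) * W φ z := by
  have hn := hΩ.mem_nhds hz
  have D : ∀ {u : En n → ℂ}, ContDiffOn ℝ ∞ u Ω → DifferentiableAt ℝ u z := fun hu =>
    (hu.contDiffAt hn).differentiableAt (by simp)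
  have dφ := D (ofReal_smooth hφ)
  have dg := D hg
  have dh := D hh
  have dW := D (W_smooth hφ)
  have dc := D (conj_smooth hh)
  have ddg := D (contDiffOn_del hΩ hg j)
  have dbg := D (contDiffOn_dbar hΩ hg k)
  have ddφ := D (contDiffOn_del hΩ (ofReal_smooth hφ) j)
  have ddl := D (dl_smooth hΩ hφ hg j)
  have e1 : dbar k (dl φ j g) z = dbar k (del j g) z -
      (dbar k g z * del j (fun x => (φ x : ℂ)) z +
        g z * dbar k (del j (fun x => (φ x : ℂ))) z) := by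
    have := dbar_sub ddg (dg.mul ddφ) k
    have h2 := dbar_mul dg ddφ k
    rw [← h2]
    exact this
  have e2 : dbar k (u1 φ j g h) z = (dbar k (dl φ j g) z * conj (h z) +
      dl φ j g z * conj (del k h z)) * W φ z +
      dl φ j g z * conj (h z) * (-(dbar k (fun x => (φ x : ℂ)) z) * W φ z) := by
    have h1 := dbar_mul (ddl.mul dc) dW k
    have h2 := dbar_mul ddl dc k
    rw [dbar_conj dh] at h2
    rw [← dbar_W dφ, ← h2]
    exact h1
  have e3 : del j (u2 φ k g h) z = (del j (dbar k g) z * conj (h z) +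
      dbar k g z * conj (dbar j h z)) * W φ z +
      dbar k g z * conj (h z) * (-(del j (fun x => (φ x : ℂ)) z) * W φ z) := by
    have h1 := del_mul (dbg.mul dc) dW j
    have h2 := del_mul dbg dc j
    rw [del_conj dh] at h2
    rw [← del_W dφ, ← h2]
    exact h1
  have e4 : del j (dbar k g) z = dbar k (del j g) z :=
    del_dbar_comm ((hg.contDiffAt hn).of_le (WithTop.coe_le_coe.2 le_top)) j k
  have e5 : dbar k (fun x => (φ x : ℂ)) z = conj (del k (fun x => (φ x : ℂ)) z) :=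
    dbar_real ((hφ.contDiffAt hn).differentiableAt (by simp)) k
  have e6 : conj (dl φ k h z) = conj (del k h z) -
      conj (h z) * conj (del k (fun x => (φ x : ℂ)) z) := by
    unfold dl
    rw [map_sub, map_mul]
  rw [e2, e3, e1, e4, e5, e6]
  unfold dl
  ring

theorem dl_zero {φ : En n → ℝ} {g : En n → ℂ} {z : En n} (hz : z ∉ tsupport g) (j : Fin n) :
    dl φ j g z = 0 := by
  have h1 : del j g z = 0 := by
    have := tsupport_del_subset g j
    exact image_eq_zero_of_notMem_tsupport fun h => hz (this h)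
  have h2 : g z = 0 := image_eq_zero_of_notMem_tsupport hz
  unfold dl
  rw [h1, h2]
  ring

theorem dbar_zero {g : En n → ℂ} {z : En n} (hz : z ∉ tsupport g) (j : Fin n) :
    dbar j g z = 0 := by
  have := tsupport_dbar_subset g j
  exact image_eq_zero_of_notMem_tsupport fun h => hz (this h)

theorem sq_sum_le (a b : Fin n → ℂ) :
    ‖∑ j, a j * b j‖ ^ 2 ≤ (∑ j, ‖a j‖ ^ 2) * ∑ j, ‖b j‖ ^ 2 := by
  have h1 : ‖∑ j, a j * b j‖ ≤ ∑ j, ‖a j‖ * ‖b j‖ := by
    refine (norm_sum_le _ _).trans (Finset.sum_le_sum fun j _ => ?_)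
    rw [norm_mul]
  have h2 := Finset.sum_mul_sq_le_sq_mul_sq Finset.univ (fun j => ‖a j‖) (fun j => ‖b j‖)
  have h3 : ‖∑ j, a j * b j‖ ^ 2 ≤ (∑ j, ‖a j‖ * ‖b j‖) ^ 2 :=
    pow_le_pow_left₀ (norm_nonneg _) h1 2
  exact h3.trans h2

theorem norm_sub_sq_le (x y : ℂ) : ‖x - y‖ ^ 2 ≤ 2 * ‖x‖ ^ 2 + 2 * ‖y‖ ^ 2 := by
  have h1 := norm_sub_le x y
  have h2 := norm_nonneg (x - y)
  nlinarith [sq_nonneg (‖x‖ - ‖y‖), norm_nonneg x, norm_nonneg y]

theorem re_mul_conj_ge (a b : ℂ) : -(1 / 2 : ℝ) * ‖b - a‖ ^ 2 ≤ (a * conj b).re := by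
  have h : ‖b - a‖ ^ 2 = ‖b‖ ^ 2 + ‖a‖ ^ 2 - 2 * (a * conj b).re := by
    rw [← Complex.normSq_eq_norm_sq, ← Complex.normSq_eq_norm_sq, ← Complex.normSq_eq_norm_sq,
      Complex.normSq_apply, Complex.normSq_apply, Complex.normSq_apply]
    simp only [Complex.sub_re, Complex.sub_im, Complex.mul_re, Complex.conj_re, Complex.conj_im]
    ring
  have h1 := sq_nonneg ‖b‖
  have h2 := sq_nonneg ‖a‖
  rw [h]
  linarith

end HorA1Aux

open HorA1Aux

theorem hor_basic {Ω : Set (En n)} (hΩ : IsOpen Ω) {φ ψ : En n → ℝ}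
    (hφ : ContDiffOn ℝ ∞ φ Ω) (hψ : ContDiffOn ℝ ∞ ψ Ω)
    (hlevi : ∀ z ∈ Ω, ∀ w : En n,
      2 * (delSq ψ z + Real.exp (ψ z)) * ‖w‖ ^ 2 ≤ levi φ z w)
    {f : Fin n → En n → ℂ} (hf : ∀ j, IsTest Ω (f j)) :
    ∫ z in Ω, (∑ j, ‖f j z‖ ^ 2) * Real.exp (ψ z - φ z) ≤
      (∫ z in Ω, ‖Dv φ ψ f z‖ ^ 2 * Real.exp (-φ z)) +
        (1 / 4 : ℝ) * ∑ j, ∑ k, ∫ z in Ω,
          ‖dbar j (f k) z - dbar k (f j) z‖ ^ 2 * Real.exp (-φ z) := by
  classical
  -- the common support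
  set K : Set (En n) := ⋃ j, tsupport (f j) with hKdef
  have hK : IsCompact K := isCompact_iUnion fun j => (hf j).2.1
  have hKΩ : K ⊆ Ω := iUnion_subset fun j => (hf j).2.2
  have hfΩ : ∀ j, ContDiffOn ℝ ∞ (f j) Ω := fun j => (hf j).1.contDiffOn
  have hnot : ∀ {z}, z ∉ K → ∀ j, z ∉ tsupport (f j) := fun hz j h => hz (mem_iUnion.2 ⟨j, h⟩)
  -- the divergence terms
  set T : En n → ℂ := fun z => ∑ j, ∑ k,
    (dbar k (u1 φ j (f j) (f k)) z - del j (u2 φ k (f j) (f k)) z) with hT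
  have hu1 : ∀ j k, ContDiff ℝ ∞ (u1 φ j (f j) (f k)) := fun j k =>
    smooth_of hΩ hK hKΩ (u1_smooth hΩ hφ (hfΩ j) (hfΩ k) j) (fun z hz => by
      unfold u1
      rw [dl_zero (hnot hz j)]
      ring)
  have hu2 : ∀ j k, ContDiff ℝ ∞ (u2 φ k (f j) (f k)) := fun j k =>
    smooth_of hΩ hK hKΩ (u2_smooth hΩ hφ (hfΩ j) (hfΩ k) k) (fun z hz => by
      unfold u2
      rw [dbar_zero (hnot hz j)]
      ring)
  have hc1 : ∀ j k, HasCompactSupport (u1 φ j (f j) (f k)) := fun j k =>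
    HasCompactSupport.intro hK fun z hz => by
      unfold u1
      rw [dl_zero (hnot hz j)]
      ring
  have hc2 : ∀ j k, HasCompactSupport (u2 φ k (f j) (f k)) := fun j k =>
    HasCompactSupport.intro hK fun z hz => by
      unfold u2
      rw [dbar_zero (hnot hz j)]
      ring
  have hTi0 : ∀ j k, Integrable fun z =>
      dbar k (u1 φ j (f j) (f k)) z - del j (u2 φ k (f j) (f k)) z := fun j k =>
    (int_dbar (hu1 j k) (hc1 j k) k).1.sub (int_del (hu2 j k) (hc2 j k) j).1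
  have hTi : Integrable T := integrable_finsetSum _ fun j _ =>
    integrable_finsetSum _ fun k _ => hTi0 j k
  have hT0 : ∫ z, T z = 0 := by
    rw [hT, integral_finsetSum _ fun j _ => integrable_finsetSum _ fun k _ => hTi0 j k]
    refine Finset.sum_eq_zero fun j _ => ?_
    rw [integral_finsetSum _ fun k _ => hTi0 j k]
    refine Finset.sum_eq_zero fun k _ => ?_
    rw [integral_sub (int_dbar (hu1 j k) (hc1 j k) k).1 (int_del (hu2 j k) (hc2 j k) j).1,
      (int_dbar (hu1 j k) (hc1 j k) k).2, (int_del (hu2 j k) (hc2 j k) j).2, sub_zero]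
  have hTz : ∀ z, z ∉ K → T z = 0 := by
    intro z hz
    rw [hT]
    refine Finset.sum_eq_zero fun j _ => Finset.sum_eq_zero fun k _ => ?_
    have hs1 : tsupport (u1 φ j (f j) (f k)) ⊆ K := by
      refine closure_minimal ?_ hK.isClosed
      intro x hx
      by_contra hcon
      apply hx
      unfold u1
      rw [dl_zero (hnot hcon j)]
      ring
    have hs2 : tsupport (u2 φ k (f j) (f k)) ⊆ K := by
      refine closure_minimal ?_ hK.isClosed
      intro x hx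
      by_contra hcon
      apply hx
      unfold u2
      rw [dbar_zero (hnot hcon j)]
      ring
    have a1 : dbar k (u1 φ j (f j) (f k)) z = 0 := dbar_zero (fun h => hz (hs1 h)) k
    have a2 : del j (u2 φ k (f j) (f k)) z = 0 :=
      image_eq_zero_of_notMem_tsupport fun h => hz (hs2 (tsupport_del_subset _ j h))
    rw [a1, a2, sub_zero]
  have hT0' : ∫ z in Ω, (T z).re = 0 := by
    have h1 : ∫ z in Ω, T z = 0 := by
      rw [setIntegral_eq_integral_of_forall_compl_eq_zero fun z hz =>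
        hTz z fun h => hz (hKΩ h), hT0]
    have h2 := integral_re (𝕜 := ℂ) (hTi.integrableOn (s := Ω))
    rw [h1] at h2
    simpa using h2
  -- pointwise identity
  have hpt : ∀ z ∈ Ω, (T z).re = (‖∑ j, dl φ j (f j) z‖ ^ 2 -
      (∑ j, ∑ k, (dbar k (f j) z * conj (dbar j (f k) z)).re) -
      levi φ z (WithLp.toLp 2 fun j => f j z)) * Real.exp (-φ z) := by
    intro z hz
    have h1 : T z = (((‖∑ j, dl φ j (f j) z‖ ^ 2 : ℝ) : ℂ) -
        (∑ j, ∑ k, dbar k (f j) z * conj (dbar j (f k) z)) -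
        ((levi φ z (WithLp.toLp 2 fun j => f j z) : ℝ) : ℂ)) * W φ z := by
      rw [levi_eq ((hφ.contDiffAt (hΩ.mem_nhds hz)).of_le (WithTop.coe_le_coe.2 le_top))]
      have h2 : ((‖∑ j, dl φ j (f j) z‖ ^ 2 : ℝ) : ℂ) =
          ∑ j, ∑ k, dl φ j (f j) z * conj (dl φ k (f k) z) := by
        rw [← Finset.sum_mul_sum, ← map_sum, Complex.mul_conj, Complex.normSq_eq_norm_sq]
      rw [h2, ← Finset.sum_sub_distrib, ← Finset.sum_sub_distrib, Finset.sum_mul]
      refine Finset.sum_congr rfl fun j _ => ?_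
      rw [← Finset.sum_sub_distrib, ← Finset.sum_sub_distrib, Finset.sum_mul]
      refine Finset.sum_congr rfl fun k _ => ?_
      exact ident hΩ hφ (hfΩ j) (hfΩ k) j k hz
    rw [h1, W_eq, Complex.re_mul_ofReal, Complex.sub_re, Complex.sub_re, Complex.ofReal_re,
      Complex.ofReal_re, Complex.re_sum]
    congr 3
    refine Finset.sum_congr rfl fun j _ => ?_
    rw [Complex.re_sum]
  -- pointwise inequality
  have hineq : ∀ z ∈ Ω, (∑ j, ‖f j z‖ ^ 2) * Real.exp (ψ z - φ z) ≤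
      (‖Dv φ ψ f z‖ ^ 2 * Real.exp (-φ z) + (1 / 4 : ℝ) * ∑ j, ∑ k,
        ‖dbar j (f k) z - dbar k (f j) z‖ ^ 2 * Real.exp (-φ z)) - (1 / 2 : ℝ) * (T z).re := by
    intro z hz
    have hE := Real.exp_pos (-φ z)
    have h1 := hlevi z hz (WithLp.toLp 2 fun j => f j z)
    rw [EuclideanSpace.norm_sq_eq] at h1
    have hDv : ∑ j, dl φ j (f j) z = Dv φ ψ f z -
        ∑ j, f j z * del j (fun x => (ψ x : ℂ)) z := by
      unfold Dv dl
      rw [← Finset.sum_sub_distrib]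
      refine Finset.sum_congr rfl fun j _ => ?_
      have h3 : dw φ ψ j z = del j (fun x => (φ x : ℂ)) z - del j (fun x => (ψ x : ℂ)) z := by
        unfold dw
        rw [← del_sub]
        · congr 1
          funext x
          push_cast
          rfl
        · exact ((ofReal_smooth hφ).contDiffAt (hΩ.mem_nhds hz)).differentiableAt (by simp)
        · exact ((ofReal_smooth hψ).contDiffAt (hΩ.mem_nhds hz)).differentiableAt (by simp)
      rw [h3]
      ring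
    have h4 : ‖∑ j, dl φ j (f j) z‖ ^ 2 ≤ 2 * ‖Dv φ ψ f z‖ ^ 2 +
        2 * ((∑ j, ‖f j z‖ ^ 2) * delSq ψ z) := by
      rw [hDv]
      refine (norm_sub_sq_le _ _).trans ?_
      have h5 := sq_sum_le (fun j => f j z) (fun j => del j (fun x => (ψ x : ℂ)) z)
      unfold delSq
      linarith
    have h6 : -(1 / 2 : ℝ) * (∑ j, ∑ k, ‖dbar j (f k) z - dbar k (f j) z‖ ^ 2) ≤
        ∑ j, ∑ k, (dbar k (f j) z * conj (dbar j (f k) z)).re := by
      rw [Finset.mul_sum]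
      refine Finset.sum_le_sum fun j _ => ?_
      rw [Finset.mul_sum]
      refine Finset.sum_le_sum fun k _ => ?_
      exact re_mul_conj_ge _ _
    have h7 : (∑ j, ∑ k, ‖dbar j (f k) z - dbar k (f j) z‖ ^ 2 * Real.exp (-φ z)) =
        (∑ j, ∑ k, ‖dbar j (f k) z - dbar k (f j) z‖ ^ 2) * Real.exp (-φ z) := by
      rw [Finset.sum_mul]
      refine Finset.sum_congr rfl fun j _ => ?_
      rw [Finset.sum_mul]
    have h8 : Real.exp (ψ z - φ z) = Real.exp (ψ z) * Real.exp (-φ z) := by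
      rw [← Real.exp_add]
      rfl
    rw [hpt z hz, h7, h8]
    have h9 : (∑ j, ‖f j z‖ ^ 2) * Real.exp (ψ z) ≤ ‖Dv φ ψ f z‖ ^ 2 +
        (1 / 4 : ℝ) * (∑ j, ∑ k, ‖dbar j (f k) z - dbar k (f j) z‖ ^ 2) -
        (1 / 2 : ℝ) * (‖∑ j, dl φ j (f j) z‖ ^ 2 -
      (∑ j, ∑ k, (dbar k (f j) z * conj (dbar j (f k) z)).re) -
      levi φ z (WithLp.toLp 2 fun j => f j z)) := by
      have h10 : 2 * (delSq ψ z + Real.exp (ψ z)) * (∑ j, ‖f j z‖ ^ 2) ≤
          levi φ z (WithLp.toLp 2 fun j => f j z) := h1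
      nlinarith
    have h11 := mul_le_mul_of_nonneg_right h9 hE.le
    calc (∑ j, ‖f j z‖ ^ 2) * (Real.exp (ψ z) * Real.exp (-φ z))
        = ((∑ j, ‖f j z‖ ^ 2) * Real.exp (ψ z)) * Real.exp (-φ z) := by ring
      _ ≤ _ := h11
      _ = _ := by ring
  -- integrability
  have cf : ∀ j, ContinuousOn (f j) Ω := fun j => (hfΩ j).continuousOn
  have cφ : ContinuousOn (fun z => Real.exp (-φ z)) Ω := hφ.continuousOn.neg.rexp
  have cψ : ContinuousOn (fun z => Real.exp (ψ z - φ z)) Ω :=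
    (hψ.continuousOn.sub hφ.continuousOn).rexp
  have cdb : ∀ j k, ContinuousOn (dbar j (f k)) Ω := fun j k =>
    (contDiffOn_dbar hΩ (hfΩ k) j).continuousOn
  have cDv : ContinuousOn (Dv φ ψ f) Ω := by
    unfold Dv
    refine continuousOn_finsetSum _ fun j _ => ?_
    refine ((contDiffOn_del hΩ (hfΩ j) j).continuousOn).sub ((cf j).mul ?_)
    exact (contDiffOn_del hΩ (ofReal_smooth (hφ.sub hψ)) j).continuousOn
  have i1 : Integrable fun z => (∑ j, ‖f j z‖ ^ 2) * Real.exp (ψ z - φ z) := by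
    refine integrable_of hK hKΩ ?_ ?_
    · exact (continuousOn_finsetSum _ fun j _ => (cf j).norm.pow 2).mul cψ
    · intro z hz
      rw [Finset.sum_eq_zero, zero_mul]
      intro j _
      rw [image_eq_zero_of_notMem_tsupport (hnot hz j)]
      simp
  have i2 : Integrable fun z => ‖Dv φ ψ f z‖ ^ 2 * Real.exp (-φ z) := by
    refine integrable_of hK hKΩ ((cDv.norm.pow 2).mul cφ) ?_
    intro z hz
    have : Dv φ ψ f z = 0 := by
      unfold Dv
      refine Finset.sum_eq_zero fun j _ => ?_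
      have a1 : del j (f j) z = 0 := image_eq_zero_of_notMem_tsupport fun h =>
        hnot hz j (tsupport_del_subset _ j h)
      rw [a1, image_eq_zero_of_notMem_tsupport (hnot hz j)]
      ring
    rw [this]
    simp
  have i3 : ∀ j k, Integrable fun z =>
      ‖dbar j (f k) z - dbar k (f j) z‖ ^ 2 * Real.exp (-φ z) := by
    intro j k
    refine integrable_of hK hKΩ ((((cdb j k).sub (cdb k j)).norm.pow 2).mul cφ) ?_
    intro z hz
    rw [dbar_zero (hnot hz k), dbar_zero (hnot hz j)]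
    simp
  have i4 : Integrable fun z => (T z).re := hTi.re
  have i5 : ∀ j, Integrable fun z => ∑ k,
      ‖dbar j (f k) z - dbar k (f j) z‖ ^ 2 * Real.exp (-φ z) := fun j =>
    integrable_finsetSum _ fun k _ => i3 j k
  have i6 : Integrable fun z => ∑ j, ∑ k,
      ‖dbar j (f k) z - dbar k (f j) z‖ ^ 2 * Real.exp (-φ z) :=
    integrable_finsetSum _ fun j _ => i5 j
  have hmain := setIntegral_mono_on (μ := volume) (s := Ω) i1.integrableOn
    (((i2.add (i6.const_mul (1 / 4 : ℝ))).sub (i4.const_mul (1 / 2 : ℝ))).integrableOn)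
    hΩ.measurableSet hineq
  refine hmain.trans (le_of_eq ?_)
  have e1 : ∫ z in Ω, (‖Dv φ ψ f z‖ ^ 2 * Real.exp (-φ z) + (1 / 4 : ℝ) * ∑ j, ∑ k,
        ‖dbar j (f k) z - dbar k (f j) z‖ ^ 2 * Real.exp (-φ z)) - (1 / 2 : ℝ) * (T z).re =
      (∫ z in Ω, (‖Dv φ ψ f z‖ ^ 2 * Real.exp (-φ z) + (1 / 4 : ℝ) * ∑ j, ∑ k,
        ‖dbar j (f k) z - dbar k (f j) z‖ ^ 2 * Real.exp (-φ z))) -
        ∫ z in Ω, (1 / 2 : ℝ) * (T z).re :=
    integral_sub (i2.integrableOn.add (i6.const_mul (1 / 4 : ℝ)).integrableOn)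
      (i4.const_mul (1 / 2 : ℝ)).integrableOn
  have e2 : ∫ z in Ω, (‖Dv φ ψ f z‖ ^ 2 * Real.exp (-φ z) + (1 / 4 : ℝ) * ∑ j, ∑ k,
        ‖dbar j (f k) z - dbar k (f j) z‖ ^ 2 * Real.exp (-φ z)) =
      (∫ z in Ω, ‖Dv φ ψ f z‖ ^ 2 * Real.exp (-φ z)) + ∫ z in Ω, (1 / 4 : ℝ) * ∑ j, ∑ k,
        ‖dbar j (f k) z - dbar k (f j) z‖ ^ 2 * Real.exp (-φ z) :=
    integral_add i2.integrableOn (i6.const_mul (1 / 4 : ℝ)).integrableOn
  have e3 : ∫ z in Ω, (∑ j, ∑ k,
        ‖dbar j (f k) z - dbar k (f j) z‖ ^ 2 * Real.exp (-φ z)) =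
      ∑ j, ∑ k, ∫ z in Ω, ‖dbar j (f k) z - dbar k (f j) z‖ ^ 2 * Real.exp (-φ z) := by
    rw [integral_finsetSum _ fun j _ => (i5 j).integrableOn]
    refine Finset.sum_congr rfl fun j _ => ?_
    rw [integral_finsetSum _ fun k _ => (i3 j k).integrableOn]
  rw [integral_const_mul, hT0', mul_zero, sub_zero] at e1
  rw [integral_const_mul, e3] at e2
  exact e1.trans e2

end Pool.Agent.H8.FZ
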