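import Pool.Agent.H8.FZ.HorA1
import Pool.Agent.H8.FZ.MollL2

/-!
# FZ-HORA2: the basic inequality for compactly supported `L²` forms

`v_j, b, c_{jk} ∈ L²`, all zero off the compact set `K ⊆ Ω`, with (weakly, on all of `ℂⁿ`)
`∑_j ∂_j v_j = b` and `∂̄_j v_k - ∂̄_k v_j = c_{jk}`.

Take radial mollifiers `κ_i` with `δ_i → 0`, `cthickening δ_i K ⊆ K' ⊆ Ω` compact.
`f_j = mol κ_i v_j ∈ C_c^∞(Ω)` (`mol_contDiff`, `mol_zero`), and by `del_mol`, `dbar_mol` and the
hypotheses with `θ = κ_i(x - ·)`: `∑_j ∂_j f_j = mol κ_i b`, `∂̄_j f_k - ∂̄_k f_j = mol κ_i c_{jk}`.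
Apply `hor_basic` and let `i → ∞`: all mollifications converge in `L²` (`mol_tendsto`), the
weights and `∂_j(φ-ψ)` are bounded on `K'`, so every term converges
(`Dv = mol b - ∑ f_j ∂_j(φ-ψ) → b - ∑ v_j ∂_j(φ-ψ)` in `L²`).
-/

set_option autoImplicit false

noncomputable section

namespace Pool.Agent.H8.FZ

open Complex Metric MeasureTheory Set Filter Topology
open scoped ContDiff ComplexConjugate

variable {n : ℕ}

private theorem tendsto_weighted {u : En n → ℂ} (hu : MemLp u 2) {ui : ℕ → En n → ℂ}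
    (hui : ∀ i, MemLp (ui i) 2)
    (h : Tendsto (fun i => ∫ x, ‖ui i x - u x‖ ^ 2) atTop (𝓝 0))
    {w : En n → ℝ} {M : ℝ} (hw : AEStronglyMeasurable w) (hM : ∀ x, ‖w x‖ ≤ M) :
    Tendsto (fun i => ∫ x, ‖ui i x‖ ^ 2 * w x) atTop (𝓝 (∫ x, ‖u x‖ ^ 2 * w x)) := by
  have hM0 : 0 ≤ M := (norm_nonneg _).trans (hM 0)
  have hI : ∀ {g : En n → ℂ}, MemLp g 2 → Integrable (fun x => ‖g x‖ ^ 2) := by
    intro g hg
    exact hg.integrable_norm_pow (by norm_num)
  have hIw : ∀ {g : En n → ℂ}, MemLp g 2 → Integrable (fun x => ‖g x‖ ^ 2 * w x) := by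
    intro g hg
    exact (hI hg).mul_bdd hw (Eventually.of_forall hM)
  have key : ∀ i, |(∫ x, ‖ui i x‖ ^ 2 * w x) - ∫ x, ‖u x‖ ^ 2 * w x| ≤
      M * ((∫ x, ‖ui i x - u x‖ ^ 2) +
        2 * (Real.sqrt (∫ x, ‖u x‖ ^ 2) * Real.sqrt (∫ x, ‖ui i x - u x‖ ^ 2))) := by
    intro i
    have hd : MemLp (fun x => ui i x - u x) 2 := (hui i).sub hu
    have hp : Integrable (fun x => ‖u x‖ * ‖ui i x - u x‖) := by
      have := (hu.norm).integrable_mul (hd.norm) 
      exact this
    rw [← integral_sub (hIw (hui i)) (hIw hu)]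
    have h1 : |∫ x, (‖ui i x‖ ^ 2 * w x - ‖u x‖ ^ 2 * w x)| ≤
        ∫ x, M * (‖ui i x - u x‖ ^ 2 + 2 * (‖u x‖ * ‖ui i x - u x‖)) := by
      refine (abs_integral_le_integral_abs).trans ?_
      apply integral_mono
      · exact ((hIw (hui i)).sub (hIw hu)).abs
      · exact ((hI hd).add (hp.const_mul 2)).const_mul M
      · intro x
        simp only
        have e1 : ‖ui i x‖ ^ 2 * w x - ‖u x‖ ^ 2 * w x =
          (‖ui i x‖ - ‖u x‖) * (‖ui i x‖ + ‖u x‖) * w x := by ring
        rw [e1, abs_mul, abs_mul]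
        have e2 : |‖ui i x‖ - ‖u x‖| ≤ ‖ui i x - u x‖ := abs_norm_sub_norm_le _ _
        have e3 : |‖ui i x‖ + ‖u x‖| ≤ ‖ui i x - u x‖ + 2 * ‖u x‖ := by
          rw [abs_of_nonneg (by positivity)]
          have : ‖ui i x‖ ≤ ‖ui i x - u x‖ + ‖u x‖ := by
            have := norm_add_le (ui i x - u x) (u x)
            rwa [sub_add_cancel] at this
          linarith
        have e4 : |w x| ≤ M := hM x
        calc |‖ui i x‖ - ‖u x‖| * |‖ui i x‖ + ‖u x‖| * |w x|
            ≤ ‖ui i x - u x‖ * (‖ui i x - u x‖ + 2 * ‖u x‖) * M := by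
              apply mul_le_mul _ e4 (abs_nonneg _) (by positivity)
              exact mul_le_mul e2 e3 (abs_nonneg _) (norm_nonneg _)
          _ = M * (‖ui i x - u x‖ ^ 2 + 2 * (‖u x‖ * ‖ui i x - u x‖)) := by ring
    refine h1.trans ?_
    rw [integral_const_mul]
    apply mul_le_mul_of_nonneg_left _ hM0
    rw [integral_add (hI hd) (hp.const_mul 2), integral_const_mul]
    have h2 : ∫ x, ‖u x‖ * ‖ui i x - u x‖ ≤
        Real.sqrt (∫ x, ‖u x‖ ^ 2) * Real.sqrt (∫ x, ‖ui i x - u x‖ ^ 2) := by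
      have h3 := integral_mul_le_Lp_mul_Lq_of_nonneg (μ := (volume : Measure (En n)))
        (p := 2) (q := 2) Real.HolderConjugate.two_two
        (f := fun x => ‖u x‖) (g := fun x => ‖ui i x - u x‖)
        (Eventually.of_forall fun x => norm_nonneg _) (Eventually.of_forall fun x => norm_nonneg _)
        (by
          have : ENNReal.ofReal 2 = 2 := by norm_num
          rw [this]; exact hu.norm)
        (by
          have : ENNReal.ofReal 2 = 2 := by norm_num
          rw [this]; exact hd.norm)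
      simp only [Real.rpow_two] at h3
      rw [Real.sqrt_eq_rpow, Real.sqrt_eq_rpow]
      exact h3
    linarith
  have hlim : Tendsto (fun i => M * ((∫ x, ‖ui i x - u x‖ ^ 2) +
        2 * (Real.sqrt (∫ x, ‖u x‖ ^ 2) * Real.sqrt (∫ x, ‖ui i x - u x‖ ^ 2)))) atTop (𝓝 0) := by
    have h1 : Tendsto (fun i => Real.sqrt (∫ x, ‖ui i x - u x‖ ^ 2)) atTop (𝓝 0) := by
      have := (Real.continuous_sqrt.tendsto 0).comp h
      rwa [Real.sqrt_zero] at this
    have h2 := (h.add ((h1.const_mul (Real.sqrt (∫ x, ‖u x‖ ^ 2))).const_mul 2)).const_mul M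
    simpa using h2
  rw [tendsto_iff_norm_sub_tendsto_zero]
  exact squeeze_zero (fun i => norm_nonneg _) (fun i => key i) hlim

private theorem indicator_weight {E : Type*} [NormedAddCommGroup E] {K Ω : Set (En n)}
    (hK : IsCompact K) (hKΩ : K ⊆ Ω) {W : En n → E} (hW : ContinuousOn W Ω) :
    AEStronglyMeasurable (K.indicator W) ∧ ∃ M : ℝ, 0 ≤ M ∧ ∀ x, ‖K.indicator W x‖ ≤ M := by
  refine ⟨?_, ?_⟩
  · rw [aestronglyMeasurable_indicator_iff hK.measurableSet]
    exact (hW.mono hKΩ).aestronglyMeasurable_of_isCompact hK hK.measurableSet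
  · obtain ⟨C, hC⟩ := hK.exists_bound_of_continuousOn (hW.mono hKΩ)
    refine ⟨max C 0, le_max_right _ _, fun x => ?_⟩
    by_cases hx : x ∈ K
    · rw [indicator_of_mem hx]
      exact (hC x hx).trans (le_max_left _ _)
    · rw [indicator_of_notMem hx, norm_zero]
      exact le_max_right _ _

private theorem set_weight {K Ω : Set (En n)} (hKΩ : K ⊆ Ω) (W : En n → ℝ) (F : En n → ℝ)
    (hF : ∀ x, x ∉ K → F x = 0) :
    ∫ z in Ω, F z * W z = ∫ z, F z * K.indicator W z := by
  have h1 : ∀ z, F z * W z = F z * K.indicator W z := by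
    intro z
    by_cases hz : z ∈ K
    · rw [indicator_of_mem hz]
    · rw [hF z hz, zero_mul, zero_mul]
  simp_rw [h1]
  apply setIntegral_eq_integral_of_forall_compl_eq_zero
  intro z hz
  rw [hF z (fun h => hz (hKΩ h)), zero_mul]

private theorem isTest_kernel {κ : En n → ℝ} {δ : ℝ} (hκ : IsMoll κ δ) (x : En n) :
    IsTest univ (fun t : En n => (κ (x - t) : ℂ)) := by
  refine ⟨?_, ?_, subset_univ _⟩
  · exact Complex.ofRealCLM.contDiff.comp (hκ.smooth.comp (contDiff_const.sub contDiff_id))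
  · apply HasCompactSupport.intro (isCompact_closedBall x δ)
    intro t ht
    rw [mem_closedBall, dist_eq_norm, not_le] at ht
    rw [hκ.supp (x - t) (by rw [norm_sub_rev]; exact ht.le)]
    simp

theorem hor_compact {Ω : Set (En n)} (hΩ : IsOpen Ω) {φ ψ : En n → ℝ}
    (hφ : ContDiffOn ℝ ∞ φ Ω) (hψ : ContDiffOn ℝ ∞ ψ Ω)
    (hlevi : ∀ z ∈ Ω, ∀ w : En n,
      2 * (delSq ψ z + Real.exp (ψ z)) * ‖w‖ ^ 2 ≤ levi φ z w)
    {K : Set (En n)} (hK : IsCompact K) (hKΩ : K ⊆ Ω)
    {v : Fin n → En n → ℂ} (hv : ∀ j, MemLp (v j) 2) (hv0 : ∀ j x, x ∉ K → v j x = 0)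
    {b : En n → ℂ} (hb : MemLp b 2) (hb0 : ∀ x, x ∉ K → b x = 0)
    {c : Fin n → Fin n → En n → ℂ} (hc : ∀ j k, MemLp (c j k) 2)
    (hc0 : ∀ j k x, x ∉ K → c j k x = 0)
    (hdiv : ∀ θ : En n → ℂ, IsTest univ θ →
      ∫ z, ∑ j, v j z * del j θ z = - ∫ z, b z * θ z)
    (hcl : ∀ j k, ∀ θ : En n → ℂ, IsTest univ θ →
      ∫ z, (v k z * dbar j θ z - v j z * dbar k θ z) = - ∫ z, c j k z * θ z) :
    ∫ z in Ω, (∑ j, ‖v j z‖ ^ 2) * Real.exp (ψ z - φ z) ≤
      (∫ z in Ω, ‖b z - ∑ j, v j z * dw φ ψ j z‖ ^ 2 * Real.exp (-φ z)) +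
        (1 / 4 : ℝ) * ∑ j, ∑ k, ∫ z in Ω, ‖c j k z‖ ^ 2 * Real.exp (-φ z) := by
  classical
  -- the compact neighbourhood
  obtain ⟨δ₀, hδ₀, hcth⟩ := hK.exists_cthickening_subset_open hΩ hKΩ
  set K' : Set (En n) := cthickening δ₀ K with hK'
  have hK'c : IsCompact K' := hK.cthickening
  have hKK' : K ⊆ K' := self_subset_cthickening K
  -- the mollifiers
  set δ : ℕ → ℝ := fun i => δ₀ / (i + 1) with hδ
  have hδpos : ∀ i, 0 < δ i := fun i => by simp only [hδ]; positivity
  have hδle : ∀ i, δ i ≤ δ₀ := fun i => by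
    simp only [hδ]
    apply div_le_self hδ₀.le
    have : (0 : ℝ) ≤ i := Nat.cast_nonneg i
    linarith
  have hδlim : Tendsto δ atTop (𝓝 0) := by
    simp only [hδ]
    exact tendsto_const_div_atTop_nhds_zero_nat δ₀ |>.comp (tendsto_add_atTop_nat 1) |>.congr
      (fun i => by simp)
  choose κ hκ using fun i => exists_isMoll n (hδpos i)
  have hloc : ∀ {g : En n → ℂ}, MemLp g 2 → LocallyIntegrable g := fun hg =>
    hg.locallyIntegrable (by norm_num)
  have hz : ∀ i {g : En n → ℂ}, (∀ x, x ∉ K → g x = 0) → ∀ x, x ∉ K' → mol (κ i) g x = 0 := by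
    intro i g hg x hx
    apply mol_zero (hκ i) hg
    intro y hy
    by_contra hlt
    apply hx
    rw [hK']
    apply mem_cthickening_of_dist_le x y δ₀ K hy
    rw [dist_eq_norm]
    exact (not_le.1 hlt).le.trans (hδle i)
  -- the kernel identities
  have hint : ∀ {g θ : En n → ℂ}, MemLp g 2 → Continuous θ → HasCompactSupport θ →
      Integrable (fun x => θ x * g x) := by
    intro g θ hg hθ hθc
    have := (hloc hg).integrable_smul_left_of_hasCompactSupport hθ hθc
    simpa [smul_eq_mul] using this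
  have hdelc : ∀ {θ : En n → ℂ}, IsTest univ θ → ∀ j, Continuous (del j θ) ∧
      HasCompactSupport (del j θ) := by
    intro θ hθ j
    exact ⟨(contDiff_del hθ.1 j).continuous,
      hθ.2.1.of_isClosed_subset (isClosed_tsupport _) (tsupport_del_subset θ j)⟩
  have hdbarc : ∀ {θ : En n → ℂ}, IsTest univ θ → ∀ j, Continuous (dbar j θ) ∧
      HasCompactSupport (dbar j θ) := by
    intro θ hθ j
    exact ⟨(contDiff_dbar hθ.1 j).continuous,
      hθ.2.1.of_isClosed_subset (isClosed_tsupport _) (tsupport_dbar_subset θ j)⟩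
  have hD : ∀ i x, ∑ j, del j (mol (κ i) (v j)) x = mol (κ i) b x := by
    intro i x
    have hT := isTest_kernel (hκ i) x
    have e1 : ∑ j, del j (mol (κ i) (v j)) x =
        - ∑ j, ∫ y, del j (fun t => (κ i (x - t) : ℂ)) y * v j y := by
      rw [← Finset.sum_neg_distrib]
      exact Finset.sum_congr rfl fun j _ => del_mol (hκ i) (hloc (hv j)) j x
    rw [e1, ← integral_finsetSum]
    · have e2 := hdiv _ hT
      have e3 : (fun y => ∑ j, del j (fun t => (κ i (x - t) : ℂ)) y * v j y) =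
          fun y => ∑ j, v j y * del j (fun t => (κ i (x - t) : ℂ)) y := by
        funext y
        exact Finset.sum_congr rfl fun j _ => mul_comm _ _
      rw [e3, e2, neg_neg]
      unfold mol
      congr 1
      funext y
      exact mul_comm _ _
    · intro j _
      exact hint (hv j) (hdelc hT j).1 (hdelc hT j).2
  have hC : ∀ i j k x, dbar j (mol (κ i) (v k)) x - dbar k (mol (κ i) (v j)) x =
      mol (κ i) (c j k) x := by
    intro i j k x
    have hT := isTest_kernel (hκ i) x
    rw [dbar_mol (hκ i) (hloc (hv k)) j x, dbar_mol (hκ i) (hloc (hv j)) k x]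
    have i1 := hint (hv k) (hdbarc hT j).1 (hdbarc hT j).2
    have i2 := hint (hv j) (hdbarc hT k).1 (hdbarc hT k).2
    have e1 : - (∫ y, dbar j (fun t => (κ i (x - t) : ℂ)) y * v k y) -
        - (∫ y, dbar k (fun t => (κ i (x - t) : ℂ)) y * v j y) =
        - ∫ y, (dbar j (fun t => (κ i (x - t) : ℂ)) y * v k y -
          dbar k (fun t => (κ i (x - t) : ℂ)) y * v j y) := by
      rw [integral_sub i1 i2]; ring
    rw [e1]
    have e2 := hcl j k _ hT
    have e3 : (fun y => dbar j (fun t => (κ i (x - t) : ℂ)) y * v k y -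
          dbar k (fun t => (κ i (x - t) : ℂ)) y * v j y) =
        fun y => v k y * dbar j (fun t => (κ i (x - t) : ℂ)) y -
          v j y * dbar k (fun t => (κ i (x - t) : ℂ)) y := by
      funext y; ring
    rw [e3, e2, neg_neg]
    unfold mol
    congr 1
    funext y
    exact mul_comm _ _
  -- the mollified forms are test functions
  have htest : ∀ i j, IsTest Ω (mol (κ i) (v j)) := by
    intro i j
    have hsub : tsupport (mol (κ i) (v j)) ⊆ K' := by
      apply closure_minimal _ hK'c.isClosed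
      intro x hx
      by_contra hxK
      exact hx (hz i (hv0 j) x hxK)
    exact ⟨mol_contDiff (hκ i) (hloc (hv j)), hK'c.of_isClosed_subset (isClosed_tsupport _) hsub,
      hsub.trans hcth⟩
  have hbasic := fun i => hor_basic hΩ hφ hψ hlevi (f := fun j => mol (κ i) (v j)) (htest i)
  -- weights
  have hW1 : ContinuousOn (fun z => Real.exp (ψ z - φ z)) Ω :=
    Real.continuous_exp.comp_continuousOn (hψ.continuousOn.sub hφ.continuousOn)
  have hW2 : ContinuousOn (fun z => Real.exp (-φ z)) Ω :=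
    Real.continuous_exp.comp_continuousOn hφ.continuousOn.neg
  have hW3 : ∀ j, ContinuousOn (dw φ ψ j) Ω := by
    intro j
    have h1 : ContDiffOn ℝ ∞ (fun x => ((φ x - ψ x : ℝ) : ℂ)) Ω :=
      Complex.ofRealCLM.contDiff.comp_contDiffOn (hφ.sub hψ)
    exact (contDiffOn_del hΩ h1 j).continuousOn
  obtain ⟨m1, M1, hM10, hM1⟩ := indicator_weight hK'c hcth hW1
  obtain ⟨m2, M2, hM20, hM2⟩ := indicator_weight hK'c hcth hW2
  have hw3 := fun j => indicator_weight hK'c hcth (hW3 j)
  choose m3 M3 hM30 hM3 using hw3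
  -- the functions under the integrals
  set e : Fin n → En n → ℂ := fun j => K'.indicator (dw φ ψ j) with he
  set u : En n → ℂ := fun z => b z - ∑ j, v j z * e j z with hu
  set ui : ℕ → En n → ℂ := fun i z => mol (κ i) b z - ∑ j, mol (κ i) (v j) z * e j z with hui
  have hmul : ∀ {g : En n → ℂ}, MemLp g 2 → ∀ j, MemLp (fun z => g z * e j z) 2 := by
    intro g hg j
    apply hg.of_le_mul (c := M3 j) (hg.1.mul (m3 j))
    apply Eventually.of_forall
    intro x
    rw [Pi.mul_apply, norm_mul, mul_comm]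
    exact mul_le_mul_of_nonneg_right (hM3 j x) (norm_nonneg _)
  have huL : MemLp u 2 := by
    apply hb.sub
    exact memLp_finsetSum _ fun j _ => hmul (hv j) j
  have huiL : ∀ i, MemLp (ui i) 2 := by
    intro i
    apply (mol_memLp (hκ i) hb).sub
    exact memLp_finsetSum _ fun j _ => hmul (mol_memLp (hκ i) (hv j)) j
  have hI : ∀ {g : En n → ℂ}, MemLp g 2 → Integrable (fun x => ‖g x‖ ^ 2) := by
    intro g hg
    exact hg.integrable_norm_pow (by norm_num)
  have hulim : Tendsto (fun i => ∫ x, ‖ui i x - u x‖ ^ 2) atTop (𝓝 0) := by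
    have hbnd : ∀ i, ∫ x, ‖ui i x - u x‖ ^ 2 ≤ 2 * (∫ x, ‖mol (κ i) b x - b x‖ ^ 2) +
        2 * n * ∑ j, M3 j ^ 2 * ∫ x, ‖mol (κ i) (v j) x - v j x‖ ^ 2 := by
      intro i
      have ib := hI ((mol_memLp (hκ i) hb).sub hb)
      have iv := fun j => hI ((mol_memLp (hκ i) (hv j)).sub (hv j))
      simp only [Pi.sub_apply] at ib iv
      calc ∫ x, ‖ui i x - u x‖ ^ 2 ≤ ∫ x, (2 * ‖mol (κ i) b x - b x‖ ^ 2 +
            2 * n * ∑ j, M3 j ^ 2 * ‖mol (κ i) (v j) x - v j x‖ ^ 2) := by
            apply integral_mono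
            · exact hI ((huiL i).sub huL)
            · exact (ib.const_mul 2).add ((integrable_finsetSum _ fun j _ =>
                (iv j).const_mul (M3 j ^ 2)).const_mul (2 * (n : ℝ)))
            · intro x
              simp only
              have e1 : ui i x - u x = (mol (κ i) b x - b x) -
                  ∑ j, (mol (κ i) (v j) x - v j x) * e j x := by
                simp only [hui, hu, sub_mul, Finset.sum_sub_distrib]
                ring
              rw [e1]
              have e2 : ‖(mol (κ i) b x - b x) - ∑ j, (mol (κ i) (v j) x - v j x) * e j x‖ ≤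
                  ‖mol (κ i) b x - b x‖ + ∑ j, M3 j * ‖mol (κ i) (v j) x - v j x‖ := by
                refine (norm_sub_le _ _).trans ?_
                apply add_le_add le_rfl
                refine (norm_sum_le _ _).trans ?_
                apply Finset.sum_le_sum
                intro j _
                rw [norm_mul, mul_comm]
                exact mul_le_mul_of_nonneg_right (hM3 j x) (norm_nonneg _)
              have e3 : (∑ j, M3 j * ‖mol (κ i) (v j) x - v j x‖) ^ 2 ≤
                  n * ∑ j, M3 j ^ 2 * ‖mol (κ i) (v j) x - v j x‖ ^ 2 := by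
                have := sq_sum_le_card_mul_sum_sq (s := (Finset.univ : Finset (Fin n)))
                  (f := fun j => M3 j * ‖mol (κ i) (v j) x - v j x‖)
                rw [Finset.card_univ, Fintype.card_fin] at this
                refine this.trans (le_of_eq ?_)
                congr 1
                exact Finset.sum_congr rfl fun j _ => mul_pow _ _ _
              have e4 := pow_le_pow_left₀ (norm_nonneg _) e2 2
              refine e4.trans ?_
              nlinarith [sq_nonneg (‖mol (κ i) b x - b x‖ -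
                ∑ j, M3 j * ‖mol (κ i) (v j) x - v j x‖)]
        _ = _ := by
            rw [integral_add (ib.const_mul 2) ((integrable_finsetSum _ fun j _ =>
                (iv j).const_mul (M3 j ^ 2)).const_mul (2 * (n : ℝ))),
              integral_const_mul, integral_const_mul, integral_finsetSum _ fun j _ =>
                (iv j).const_mul (M3 j ^ 2)]
            congr 2
            exact Finset.sum_congr rfl fun j _ => integral_const_mul _ _
    have hl : Tendsto (fun i => 2 * (∫ x, ‖mol (κ i) b x - b x‖ ^ 2) +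
        2 * n * ∑ j, M3 j ^ 2 * ∫ x, ‖mol (κ i) (v j) x - v j x‖ ^ 2) atTop (𝓝 0) := by
      have h1 := (mol_tendsto hκ hδlim hb).const_mul 2
      have h2 : Tendsto (fun i => ∑ j, M3 j ^ 2 * ∫ x, ‖mol (κ i) (v j) x - v j x‖ ^ 2) atTop
          (𝓝 (∑ j : Fin n, M3 j ^ 2 * 0)) :=
        tendsto_finsetSum _ fun j _ => (mol_tendsto hκ hδlim (hv j)).const_mul _
      have h3 := h1.add (h2.const_mul (2 * (n : ℝ)))
      simpa using h3
    exact squeeze_zero (fun i => integral_nonneg fun x => by positivity) hbnd hl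
  -- the limits
  have hA : Tendsto (fun i => ∫ z in Ω, (∑ j, ‖mol (κ i) (v j) z‖ ^ 2) * Real.exp (ψ z - φ z))
      atTop (𝓝 (∫ z in Ω, (∑ j, ‖v j z‖ ^ 2) * Real.exp (ψ z - φ z))) := by
    have h0 : ∀ {g : Fin n → En n → ℂ}, (∀ j, MemLp (g j) 2) → (∀ j x, x ∉ K' → g j x = 0) →
        ∫ z in Ω, (∑ j, ‖g j z‖ ^ 2) * Real.exp (ψ z - φ z) =
          ∑ j, ∫ z, ‖g j z‖ ^ 2 * K'.indicator (fun z => Real.exp (ψ z - φ z)) z := by
      intro g hg hg0
      rw [set_weight hcth (fun z => Real.exp (ψ z - φ z)) (fun z => ∑ j, ‖g j z‖ ^ 2)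
        (fun x hx => Finset.sum_eq_zero fun j _ => by rw [hg0 j x hx]; simp)]
      simp_rw [Finset.sum_mul]
      exact integral_finsetSum _ fun j _ => (hI (hg j)).mul_bdd m1 (Eventually.of_forall hM1)
    rw [h0 hv (fun j x hx => hv0 j x (fun h => hx (hKK' h)))]
    have h1 : (fun i => ∫ z in Ω, (∑ j, ‖mol (κ i) (v j) z‖ ^ 2) * Real.exp (ψ z - φ z)) =
        fun i => ∑ j, ∫ z, ‖mol (κ i) (v j) z‖ ^ 2 *
          K'.indicator (fun z => Real.exp (ψ z - φ z)) z := by
      funext i
      exact h0 (fun j => mol_memLp (hκ i) (hv j)) (fun j x hx => hz i (hv0 j) x hx)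
    rw [h1]
    exact tendsto_finsetSum _ fun j _ => tendsto_weighted (hv j)
      (fun i => mol_memLp (hκ i) (hv j)) (mol_tendsto hκ hδlim (hv j)) m1 hM1
  have hB : Tendsto (fun i => ∫ z in Ω, ‖Dv φ ψ (fun j => mol (κ i) (v j)) z‖ ^ 2 *
      Real.exp (-φ z)) atTop
      (𝓝 (∫ z in Ω, ‖b z - ∑ j, v j z * dw φ ψ j z‖ ^ 2 * Real.exp (-φ z))) := by
    have h1 : (fun i => ∫ z in Ω, ‖Dv φ ψ (fun j => mol (κ i) (v j)) z‖ ^ 2 *
        Real.exp (-φ z)) = fun i => ∫ z, ‖ui i z‖ ^ 2 *
          K'.indicator (fun z => Real.exp (-φ z)) z := by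
      funext i
      have e1 : ∀ z, Dv φ ψ (fun j => mol (κ i) (v j)) z = ui i z := by
        intro z
        simp only [Dv, hui]
        rw [Finset.sum_sub_distrib, hD i z]
        congr 1
        apply Finset.sum_congr rfl
        intro j _
        by_cases hzK : z ∈ K'
        · simp only [he, indicator_of_mem hzK]
        · rw [hz i (hv0 j) z hzK, zero_mul, zero_mul]
      simp_rw [e1]
      apply set_weight hcth (fun z => Real.exp (-φ z)) (fun z => ‖ui i z‖ ^ 2)
      intro x hx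
      have : ui i x = 0 := by
        simp only [hui]
        rw [hz i hb0 x hx, Finset.sum_eq_zero fun j _ => by rw [hz i (hv0 j) x hx, zero_mul],
          sub_zero]
      rw [this]; simp
    have h2 : ∫ z in Ω, ‖b z - ∑ j, v j z * dw φ ψ j z‖ ^ 2 * Real.exp (-φ z) =
        ∫ z, ‖u z‖ ^ 2 * K'.indicator (fun z => Real.exp (-φ z)) z := by
      have e1 : ∀ z, b z - ∑ j, v j z * dw φ ψ j z = u z := by
        intro z
        simp only [hu]
        congr 1
        apply Finset.sum_congr rfl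
        intro j _
        by_cases hzK : z ∈ K'
        · simp only [he, indicator_of_mem hzK]
        · rw [hv0 j z (fun h => hzK (hKK' h)), zero_mul, zero_mul]
      simp_rw [e1]
      apply set_weight hcth (fun z => Real.exp (-φ z)) (fun z => ‖u z‖ ^ 2)
      intro x hx
      have hx' : x ∉ K := fun h => hx (hKK' h)
      have : u x = 0 := by
        simp only [hu]
        rw [hb0 x hx', Finset.sum_eq_zero fun j _ => by rw [hv0 j x hx', zero_mul], sub_zero]
      rw [this]; simp
    rw [h1, h2]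
    exact tendsto_weighted huL huiL hulim m2 hM2
  have hCc : Tendsto (fun i => (1 / 4 : ℝ) * ∑ j, ∑ k, ∫ z in Ω,
      ‖dbar j (mol (κ i) (v k)) z - dbar k (mol (κ i) (v j)) z‖ ^ 2 * Real.exp (-φ z)) atTop
      (𝓝 ((1 / 4 : ℝ) * ∑ j, ∑ k, ∫ z in Ω, ‖c j k z‖ ^ 2 * Real.exp (-φ z))) := by
    apply Tendsto.const_mul
    apply tendsto_finsetSum
    intro j _
    apply tendsto_finsetSum
    intro k _
    simp_rw [hC]
    have h1 : (fun i => ∫ z in Ω, ‖mol (κ i) (c j k) z‖ ^ 2 * Real.exp (-φ z)) =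
        fun i => ∫ z, ‖mol (κ i) (c j k) z‖ ^ 2 * K'.indicator (fun z => Real.exp (-φ z)) z := by
      funext i
      exact set_weight hcth (fun z => Real.exp (-φ z)) (fun z => ‖mol (κ i) (c j k) z‖ ^ 2)
        (fun x hx => by rw [hz i (hc0 j k) x hx]; simp)
    rw [h1, set_weight hcth (fun z => Real.exp (-φ z)) (fun z => ‖c j k z‖ ^ 2)
      (fun x hx => by rw [hc0 j k x (fun h => hx (hKK' h))]; simp)]
    exact tendsto_weighted (hc j k) (fun i => mol_memLp (hκ i) (hc j k))
      (mol_tendsto hκ hδlim (hc j k)) m2 hM2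
  exact le_of_tendsto_of_tendsto' hA (hB.add hCc) hbasic

end Pool.Agent.H8.FZ
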