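import Pool.Agent.H8.FZ.HorA2

/-!
# FZ-HORA3: the a priori estimate for weakly closed `L²` forms

`v` with `∫_Ω |v|² e^{ψ-φ} < ∞`, weakly `∂̄`-closed on `Ω`, with weak weighted divergence `G`,
`∫_Ω |G|² e^{-φ} < ∞`. Then `∫_Ω |v|² e^{ψ-φ} ≤ ∫_Ω |G|² e^{-φ}`.

For `η = η_i` from `Wt.cut`, apply `hor_compact` with `K = tsupport η`, `v' = η v`,
`b' = η b + ∑_j (∂_jη) v_j` with `b = G + ∑ v_j ∂_j(φ-ψ)`, `c'_{jk} = (∂̄_jη) v_k - (∂̄_kη) v_j`
(extended by `0`; test the hypotheses with `ηθ` in place of `θ`; `v, G` are in `L²(K)` because the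
weights are bounded below on `K`, continuous positive). Then
`b' - ∑ v'_j ∂_j(φ-ψ) = ηG + ∑(∂_jη)v_j` and
`∫|ηv|²e^{ψ-φ} ≤ ∫|ηG + ∑∂_jη v_j|² e^{-φ} + ¼∑∑∫|c'_{jk}|²e^{-φ}`. As `i → ∞`: `η_i → 1`, and
`|∂η_i|²|v|² e^{-φ} ≤ e^{ψ}|v|²e^{-φ}` is dominated by an integrable function and tends to `0`
pointwise on `Ω` (eventually `η_i = 1` near each point). Dominated convergence on both sides
(`|ηG + g|² ≤ 2|G|²+2|g|²`).
-/

set_option autoImplicit false

noncomputable section

namespace Pool.Agent.H8.FZ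

open Complex Metric MeasureTheory Set Filter Topology
open scoped ContDiff ComplexConjugate

variable {n : ℕ}

namespace HorA3

/-- a weight which is bounded below on a compact set -/
theorem memLp_of_weight {Ω K : Set (En n)} (hK : IsCompact K) (hKΩ : K ⊆ Ω) {f : En n → ℂ}
    (hf : AEStronglyMeasurable f (volume.restrict Ω)) {u : En n → ℝ} (hu : ContinuousOn u Ω)
    (hi : IntegrableOn (fun z => ‖f z‖ ^ 2 * Real.exp (u z)) Ω) :
    MemLp f 2 (volume.restrict K) := by
  have hfK : AEStronglyMeasurable f (volume.restrict K) := hf.mono_set hKΩ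
  rw [memLp_two_iff_integrable_sq_norm hfK]
  obtain ⟨m, hm⟩ := (hK.image_of_continuousOn (hu.mono hKΩ)).bddBelow
  have hiK : IntegrableOn (fun z => ‖f z‖ ^ 2 * Real.exp (u z)) K := hi.mono_set hKΩ
  refine Integrable.mono' (hiK.const_mul (Real.exp (-m))) ?_ ?_
  · exact hfK.norm.pow 2
  · refine (ae_restrict_iff' hK.measurableSet).2 (Eventually.of_forall fun z hz => ?_)
    have h1 : m ≤ u z := hm ⟨z, hz, rfl⟩
    have h2 : (1 : ℝ) ≤ Real.exp (-m) * Real.exp (u z) := by
      rw [← Real.exp_add]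
      exact Real.one_le_exp (by linarith)
    rw [Real.norm_of_nonneg (by positivity)]
    have h3 : (0 : ℝ) ≤ ‖f z‖ ^ 2 := by positivity
    nlinarith

/-- products with functions which are continuous on the compact set -/
theorem memLp_mul {K : Set (En n)} (hK : IsCompact K) {f m : En n → ℂ}
    (hf : MemLp f 2 (volume.restrict K)) (hm : ContinuousOn m K) :
    MemLp (fun z => m z * f z) 2 (volume.restrict K) := by
  obtain ⟨C, hC⟩ := hK.exists_bound_of_continuousOn hm
  refine hf.of_le_mul (c := C) ?_ ?_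
  · exact (hm.aestronglyMeasurable hK.measurableSet).mul hf.1
  · refine (ae_restrict_iff' hK.measurableSet).2 (Eventually.of_forall fun z hz => ?_)
    rw [norm_mul]
    exact mul_le_mul_of_nonneg_right (hC z hz) (norm_nonneg _)

/-- extension by zero -/
theorem memLp_ext {K : Set (En n)} (hK : IsCompact K) {f : En n → ℂ}
    (hf : MemLp f 2 (volume.restrict K)) (h0 : ∀ x, x ∉ K → f x = 0) : MemLp f 2 := by
  have e : K.indicator f = f := by
    ext x
    by_cases hx : x ∈ K
    · rw [indicator_of_mem hx]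
    · rw [indicator_of_notMem hx, h0 x hx]
  rw [← e, memLp_indicator_iff_restrict hK.measurableSet]
  exact hf

theorem intOn {Ω K : Set (En n)} (hΩ : MeasurableSet Ω) (hK : IsCompact K) (hKΩ : K ⊆ Ω)
    {f m : En n → ℂ} (hf : MemLp f 2 (volume.restrict K)) (hm : ContinuousOn m Ω)
    (h0 : ∀ x, x ∉ K → m x = 0) : IntegrableOn (fun z => m z * f z) Ω := by
  have h1 : IntegrableOn (fun z => m z * f z) K := by
    have := memLp_mul hK hf (hm.mono hKΩ)
    have : IsFiniteMeasure (volume.restrict K) := ⟨by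
      rw [Measure.restrict_apply_univ]
      exact hK.measure_lt_top⟩
    exact MemLp.integrable one_le_two (memLp_mul hK hf (hm.mono hKΩ))
  refine h1.of_forall_diff_eq_zero hΩ ?_
  intro x hx
  rw [h0 x hx.2, zero_mul]

theorem stage {Ω : Set (En n)} {φ ψ : En n → ℝ} (W : Wt Ω φ ψ)
    {v : Fin n → En n → ℂ} (hvm : ∀ j, AEStronglyMeasurable (v j) (volume.restrict Ω))
    (hv : ∀ j, IntegrableOn (fun z => ‖v j z‖ ^ 2 * Real.exp (ψ z - φ z)) Ω)
    {G : En n → ℂ} (hGm : AEStronglyMeasurable G (volume.restrict Ω))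
    (hG : IntegrableOn (fun z => ‖G z‖ ^ 2 * Real.exp (-φ z)) Ω)
    (hcl : ∀ j k, ∀ θ : En n → ℂ, IsTest Ω θ →
      ∫ z in Ω, v k z * dbar j θ z = ∫ z in Ω, v j z * dbar k θ z)
    (hdiv : ∀ θ : En n → ℂ, IsTest Ω θ →
      ∫ z in Ω, ∑ j, v j z * (del j θ z + θ z * dw φ ψ j z) = - ∫ z in Ω, G z * θ z)
    {η : En n → ℂ} (hη : ContDiff ℝ ∞ η) (hηc : HasCompactSupport η) (hηΩ : tsupport η ⊆ Ω) :
    ∫ z in Ω, (∑ j, ‖η z * v j z‖ ^ 2) * Real.exp (ψ z - φ z) ≤
      (∫ z in Ω, ‖η z * G z + ∑ j, del j η z * v j z‖ ^ 2 * Real.exp (-φ z)) +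
        (1 / 4 : ℝ) * ∑ j, ∑ k, ∫ z in Ω,
          ‖dbar j η z * v k z - dbar k η z * v j z‖ ^ 2 * Real.exp (-φ z) := by
  have hΩm : MeasurableSet Ω := W.opn.measurableSet
  set K : Set (En n) := tsupport η with hKdef
  have hK : IsCompact K := hηc
  have hvK : ∀ j, MemLp (v j) 2 (volume.restrict K) := fun j =>
    memLp_of_weight hK hηΩ (hvm j) (W.hψ.continuousOn.sub W.hφ.continuousOn) (hv j)
  have hGK : MemLp G 2 (volume.restrict K) :=
    memLp_of_weight hK hηΩ hGm W.hφ.continuousOn.neg hG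
  have h0 : ∀ x, x ∉ K → η x = 0 := fun x hx => image_eq_zero_of_notMem_tsupport hx
  have h0d : ∀ j x, x ∉ K → del j η x = 0 := fun j x hx =>
    image_eq_zero_of_notMem_tsupport fun h => hx (tsupport_del_subset η j h)
  have h0b : ∀ j x, x ∉ K → dbar j η x = 0 := fun j x hx =>
    image_eq_zero_of_notMem_tsupport fun h => hx (tsupport_dbar_subset η j h)
  have hcd : ∀ j, Continuous (del j η) := fun j => (contDiff_del hη j).continuous
  have hcb : ∀ j, Continuous (dbar j η) := fun j => (contDiff_dbar hη j).continuous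
  have hdwc : ∀ j, ContinuousOn (dw φ ψ j) Ω := fun j =>
    (contDiffOn_del W.opn (g := fun x => ((φ x - ψ x : ℝ) : ℂ))
      (ofRealCLM.contDiff.comp_contDiffOn (W.hφ.sub W.hψ)) j).continuousOn
  -- the truncated data
  set b : En n → ℂ := fun z => (η z * G z + ∑ j, (η z * dw φ ψ j z) * v j z) +
    ∑ j, del j η z * v j z with hb
  have hb0 : ∀ x, x ∉ K → b x = 0 := by
    intro x hx
    simp only [hb, h0 x hx, h0d _ x hx, zero_mul, Finset.sum_const_zero, add_zero]
  have htest : ∀ θ : En n → ℂ, IsTest univ θ → IsTest Ω (fun z => η z * θ z) := by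
    intro θ hθ
    exact ⟨hη.mul hθ.1, hηc.mul_right, (tsupport_mul_subset_left (f := η) (g := θ)).trans hηΩ⟩
  have hsm : ∀ f : En n → ℂ, (∀ x, x ∉ K → f x = 0) → ∫ z, f z = ∫ z in Ω, f z := by
    intro f hf
    symm
    apply setIntegral_eq_integral_of_forall_compl_eq_zero
    intro x hx
    exact hf x fun h => hx (hηΩ h)
  have key := hor_compact W.opn W.hφ W.hψ W.levi hK hηΩ (v := fun j z => η z * v j z)
    (fun j => memLp_ext hK (memLp_mul hK (hvK j) hη.continuous.continuousOn) (fun x hx => by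
      simp only [h0 x hx, zero_mul]))
    (fun j x hx => by simp only [h0 x hx, zero_mul]) (b := b)
    (memLp_ext hK (((memLp_mul hK hGK hη.continuous.continuousOn).add
      (memLp_finsetSum _ fun j _ => memLp_mul hK (hvK j)
        (hη.continuous.continuousOn.mul ((hdwc j).mono hηΩ)))).add
      (memLp_finsetSum _ fun j _ => memLp_mul hK (hvK j) (hcd j).continuousOn)) hb0)
    hb0 (c := fun j k z => dbar j η z * v k z - dbar k η z * v j z)
    (fun j k => memLp_ext hK ((memLp_mul hK (hvK k) (hcb j).continuousOn).sub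
      (memLp_mul hK (hvK j) (hcb k).continuousOn)) (fun x hx => by
        simp only [h0b _ x hx, zero_mul, sub_zero]))
    (fun j k x hx => by simp only [h0b _ x hx, zero_mul, sub_zero])
    (by
      intro θ hθ
      have hd : ∀ j z, del j (fun x => η x * θ x) z = del j η z * θ z + η z * del j θ z :=
        fun j z => del_mul (hη.differentiable (by simp) z) (hθ.1.differentiable (by simp) z) j
      have e1 := hdiv _ (htest θ hθ)
      have cθ : Continuous θ := hθ.1.continuous
      have cθd : ∀ j, Continuous (del j θ) := fun j => (contDiff_del hθ.1 j).continuous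
      have i1 : IntegrableOn (fun z => ∑ j, (η z * del j θ z) * v j z) Ω :=
        integrable_finsetSum _ fun j _ => intOn hΩm hK hηΩ (hvK j)
          (hη.continuous.mul (cθd j)).continuousOn (fun x hx => by rw [h0 x hx, zero_mul])
      have i2 : IntegrableOn (fun z => (η z * θ z) * G z) Ω :=
        intOn hΩm hK hηΩ hGK (hη.continuous.mul cθ).continuousOn
          (fun x hx => by rw [h0 x hx, zero_mul])
      have i3 : IntegrableOn (fun z => ∑ j, ((η z * θ z) * dw φ ψ j z) * v j z) Ω :=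
        integrable_finsetSum _ fun j _ => intOn hΩm hK hηΩ (hvK j)
          ((hη.continuous.mul cθ).continuousOn.mul (hdwc j))
          (fun x hx => by rw [h0 x hx, zero_mul, zero_mul])
      have i4 : IntegrableOn (fun z => ∑ j, (del j η z * θ z) * v j z) Ω :=
        integrable_finsetSum _ fun j _ => intOn hΩm hK hηΩ (hvK j)
          ((hcd j).mul cθ).continuousOn (fun x hx => by rw [h0d j x hx, zero_mul])
      rw [hsm _ (fun x hx => by simp only [h0 x hx, zero_mul, Finset.sum_const_zero]),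
        hsm _ (fun x hx => by rw [hb0 x hx, zero_mul])]
      have e2 : ∀ z, ∑ j, η z * v j z * del j θ z = ∑ j, (η z * del j θ z) * v j z := by
        intro z
        exact Finset.sum_congr rfl fun j _ => by ring
      have e3 : ∀ z, b z * θ z = (η z * θ z) * G z + ∑ j, ((η z * θ z) * dw φ ψ j z) * v j z +
          ∑ j, (del j η z * θ z) * v j z := by
        intro z
        simp only [hb, add_mul, Finset.sum_mul]
        congr 1
        · congr 1
          · ring
          · exact Finset.sum_congr rfl fun j _ => by ring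
        · exact Finset.sum_congr rfl fun j _ => by ring
      have e4 : ∀ z, ∑ j, v j z * (del j (fun x => η x * θ x) z + (η z * θ z) * dw φ ψ j z) =
          ∑ j, (η z * del j θ z) * v j z + ∑ j, ((η z * θ z) * dw φ ψ j z) * v j z +
          ∑ j, (del j η z * θ z) * v j z := by
        intro z
        rw [← Finset.sum_add_distrib, ← Finset.sum_add_distrib]
        refine Finset.sum_congr rfl fun j _ => ?_
        rw [hd]
        ring
      have e5 : ∀ z, G z * (η z * θ z) = (η z * θ z) * G z := fun z => mul_comm _ _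
      simp only [e4, e5] at e1
      have i13 : IntegrableOn (fun z => ∑ j, (η z * del j θ z) * v j z +
          ∑ j, ((η z * θ z) * dw φ ψ j z) * v j z) Ω := i1.add i3
      have i23 : IntegrableOn (fun z => (η z * θ z) * G z +
          ∑ j, ((η z * θ z) * dw φ ψ j z) * v j z) Ω := i2.add i3
      rw [integral_add i13 i4, integral_add i1 i3] at e1
      simp only [e2, e3]
      rw [integral_add i23 i4, integral_add i2 i3]
      linear_combination e1)
    (by
      intro j k θ hθ
      have hd : ∀ j z, dbar j (fun x => η x * θ x) z = dbar j η z * θ z + η z * dbar j θ z :=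
        fun j z => dbar_mul (hη.differentiable (by simp) z) (hθ.1.differentiable (by simp) z) j
      have e1 := hcl j k _ (htest θ hθ)
      have cθ : Continuous θ := hθ.1.continuous
      have cθd : ∀ j, Continuous (dbar j θ) := fun j => (contDiff_dbar hθ.1 j).continuous
      have i1 : ∀ j k, IntegrableOn (fun z => (η z * dbar j θ z) * v k z) Ω := fun j k =>
        intOn hΩm hK hηΩ (hvK k)
          (hη.continuous.mul (cθd j)).continuousOn (fun x hx => by rw [h0 x hx, zero_mul])
      have i4 : ∀ j k, IntegrableOn (fun z => (dbar j η z * θ z) * v k z) Ω := fun j k =>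
        intOn hΩm hK hηΩ (hvK k)
          ((hcb j).mul cθ).continuousOn (fun x hx => by rw [h0b j x hx, zero_mul])
      rw [hsm _ (fun x hx => by simp only [h0 x hx, zero_mul, sub_zero]),
        hsm _ (fun x hx => by simp only [h0b _ x hx, zero_mul, sub_zero])]
      have e2 : ∀ z, η z * v k z * dbar j θ z - η z * v j z * dbar k θ z =
          (η z * dbar j θ z) * v k z - (η z * dbar k θ z) * v j z := fun z => by ring
      have e3 : ∀ z, (dbar j η z * v k z - dbar k η z * v j z) * θ z =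
          (dbar j η z * θ z) * v k z - (dbar k η z * θ z) * v j z := fun z => by ring
      have e4 : ∀ j k z, v k z * dbar j (fun x => η x * θ x) z =
          (dbar j η z * θ z) * v k z + (η z * dbar j θ z) * v k z := by
        intro j k z
        rw [hd]
        ring
      simp only [e4] at e1
      rw [integral_add (i4 j k) (i1 j k), integral_add (i4 k j) (i1 k j)] at e1
      simp only [e2, e3]
      rw [integral_sub (i1 j k) (i1 k j), integral_sub (i4 j k) (i4 k j)]
      linear_combination e1)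
  have e : ∀ z, b z - ∑ j, η z * v j z * dw φ ψ j z = η z * G z + ∑ j, del j η z * v j z := by
    intro z
    have : ∑ j, η z * v j z * dw φ ψ j z = ∑ j, (η z * dw φ ψ j z) * v j z :=
      Finset.sum_congr rfl fun j _ => by ring
    simp only [hb]
    rw [this]
    ring
  simp only [e] at key
  exact key

end HorA3

open HorA3

theorem hor_apriori {Ω : Set (En n)} {φ ψ : En n → ℝ} (W : Wt Ω φ ψ)
    {v : Fin n → En n → ℂ} (hvm : ∀ j, AEStronglyMeasurable (v j) (volume.restrict Ω))
    (hv : ∀ j, IntegrableOn (fun z => ‖v j z‖ ^ 2 * Real.exp (ψ z - φ z)) Ω)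
    {G : En n → ℂ} (hGm : AEStronglyMeasurable G (volume.restrict Ω))
    (hG : IntegrableOn (fun z => ‖G z‖ ^ 2 * Real.exp (-φ z)) Ω)
    (hcl : ∀ j k, ∀ θ : En n → ℂ, IsTest Ω θ →
      ∫ z in Ω, v k z * dbar j θ z = ∫ z in Ω, v j z * dbar k θ z)
    (hdiv : ∀ θ : En n → ℂ, IsTest Ω θ →
      ∫ z in Ω, ∑ j, v j z * (del j θ z + θ z * dw φ ψ j z) = - ∫ z in Ω, G z * θ z) :
    ∫ z in Ω, (∑ j, ‖v j z‖ ^ 2) * Real.exp (ψ z - φ z) ≤
      ∫ z in Ω, ‖G z‖ ^ 2 * Real.exp (-φ z) := by
  obtain ⟨η, hη, hlim⟩ := W.cut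
  have hΩm : MeasurableSet Ω := W.opn.measurableSet
  have hφc := W.hφ.continuousOn
  have hψc := W.hψ.continuousOn
  set ηc : ℕ → En n → ℂ := fun i z => ((η i z : ℝ) : ℂ) with hηc
  have hsm : ∀ i, ContDiff ℝ ∞ (ηc i) := fun i => ofRealCLM.contDiff.comp (hη i).1
  have hcs : ∀ i, HasCompactSupport (ηc i) := fun i =>
    (hη i).2.1.comp_left (g := fun t : ℝ => (t : ℂ)) ofReal_zero
  have hts : ∀ i, tsupport (ηc i) ⊆ Ω := by
    intro i
    refine Subset.trans (closure_mono ?_) (hη i).2.2.1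
    intro x hx h
    apply hx
    simp only [hηc]
    rw [h, ofReal_zero]
  have hcd : ∀ i j, Continuous (del j (ηc i)) := fun i j => (contDiff_del (hsm i) j).continuous
  have hcb : ∀ i j, Continuous (dbar j (ηc i)) := fun i j => (contDiff_dbar (hsm i) j).continuous
  have hle1 : ∀ i z, ‖ηc i z‖ ≤ 1 := by
    intro i z
    have := (hη i).2.2.2.1 z
    simp only [hηc]
    rw [norm_real, Real.norm_of_nonneg this.1]
    exact this.2
  -- bounds for the derivatives
  have hdel : ∀ i, ∀ z ∈ Ω, ∑ j, ‖del j (ηc i) z‖ ^ 2 ≤ Real.exp (ψ z) := fun i z hz =>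
    (hη i).2.2.2.2 z hz
  have hdel1 : ∀ i j, ∀ z ∈ Ω, ‖del j (ηc i) z‖ ^ 2 ≤ Real.exp (ψ z) := fun i j z hz =>
    (Finset.single_le_sum (f := fun j => ‖del j (ηc i) z‖ ^ 2) (fun j _ => by positivity)
      (Finset.mem_univ j)).trans (hdel i z hz)
  have hdbar1 : ∀ i j, ∀ z ∈ Ω, ‖dbar j (ηc i) z‖ ^ 2 ≤ Real.exp (ψ z) := by
    intro i j z hz
    have e : dbar j (ηc i) z = conj (del j (ηc i) z) :=
      dbar_real ((hη i).1.differentiable (by simp) z) j
    rw [e, RCLike.norm_conj]
    exact hdel1 i j z hz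
  -- pointwise limits
  have hl1 : ∀ z ∈ Ω, ∀ᶠ i in atTop, ηc i z = 1 ∧ (∀ j, del j (ηc i) z = 0) ∧
      ∀ j, dbar j (ηc i) z = 0 := by
    intro z hz
    filter_upwards [hlim z hz] with i hi
    have h1 : ηc i =ᶠ[𝓝 z] fun _ => (1 : ℂ) := by
      filter_upwards [hi] with x hx
      simp only [hηc]
      rw [hx, ofReal_one]
    refine ⟨h1.eq_of_nhds, fun j => ?_, fun j => ?_⟩
    · rw [del_congr h1 j, del_const]
    · rw [dbar_congr h1 j, dbar_const]
  have hexp : ∀ z, Real.exp (ψ z) * Real.exp (-φ z) = Real.exp (ψ z - φ z) := by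
    intro z
    rw [← Real.exp_add]
    ring_nf
  have hw2 : AEStronglyMeasurable (fun z => Real.exp (-φ z)) (volume.restrict Ω) :=
    (Real.continuous_exp.comp_continuousOn hφc.neg).aestronglyMeasurable hΩm
  have hw1 : AEStronglyMeasurable (fun z => Real.exp (ψ z - φ z)) (volume.restrict Ω) :=
    (Real.continuous_exp.comp_continuousOn (hψc.sub hφc)).aestronglyMeasurable hΩm
  have hsumv : IntegrableOn (fun z => (∑ j, ‖v j z‖ ^ 2) * Real.exp (ψ z - φ z)) Ω := by
    have : IntegrableOn (fun z => ∑ j, ‖v j z‖ ^ 2 * Real.exp (ψ z - φ z)) Ω :=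
      integrable_finsetSum _ fun j _ => hv j
    refine this.congr (Eventually.of_forall fun z => ?_)
    exact (Finset.sum_mul _ _ _).symm
  -- left hand side
  have L : Tendsto (fun i => ∫ z in Ω, (∑ j, ‖ηc i z * v j z‖ ^ 2) * Real.exp (ψ z - φ z)) atTop
      (𝓝 (∫ z in Ω, (∑ j, ‖v j z‖ ^ 2) * Real.exp (ψ z - φ z))) := by
    refine tendsto_integral_of_dominated_convergence
      (fun z => (∑ j, ‖v j z‖ ^ 2) * Real.exp (ψ z - φ z)) ?_ hsumv ?_ ?_
    · intro i
      refine AEStronglyMeasurable.mul ?_ hw1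
      exact Finset.aestronglyMeasurable_fun_sum _ fun j _ =>
        (((hsm i).continuous.aestronglyMeasurable.mul (hvm j)).norm.pow 2)
    · intro i
      refine Eventually.of_forall fun z => ?_
      rw [Real.norm_of_nonneg (by positivity)]
      refine mul_le_mul_of_nonneg_right (Finset.sum_le_sum fun j _ => ?_) (Real.exp_pos _).le
      rw [norm_mul, mul_pow]
      have h1 : ‖ηc i z‖ ^ 2 ≤ 1 := pow_le_one₀ (norm_nonneg _) (hle1 i z)
      nlinarith [sq_nonneg ‖v j z‖]
    · refine (ae_restrict_iff' hΩm).2 (Eventually.of_forall fun z hz => ?_)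
      refine tendsto_const_nhds.congr' ?_
      filter_upwards [hl1 z hz] with i hi
      simp only [hi.1, one_mul]
  have R1 : Tendsto (fun i => ∫ z in Ω, ‖ηc i z * G z + ∑ j, del j (ηc i) z * v j z‖ ^ 2 *
      Real.exp (-φ z)) atTop (𝓝 (∫ z in Ω, ‖G z‖ ^ 2 * Real.exp (-φ z))) := by
    refine tendsto_integral_of_dominated_convergence
      (fun z => 2 * (‖G z‖ ^ 2 * Real.exp (-φ z)) +
        2 * ((∑ j, ‖v j z‖ ^ 2) * Real.exp (ψ z - φ z))) ?_
      ((hG.const_mul 2).add (hsumv.const_mul 2)) ?_ ?_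
    · intro i
      refine AEStronglyMeasurable.mul ?_ hw2
      exact (((hsm i).continuous.aestronglyMeasurable.mul hGm).add
        (Finset.aestronglyMeasurable_fun_sum _ fun j _ =>
          (hcd i j).aestronglyMeasurable.mul (hvm j))).norm.pow 2
    · intro i
      refine (ae_restrict_iff' hΩm).2 (Eventually.of_forall fun z hz => ?_)
      rw [Real.norm_of_nonneg (by positivity)]
      have h1 : ‖ηc i z * G z‖ ≤ ‖G z‖ := by
        rw [norm_mul]
        have := hle1 i z
        nlinarith [norm_nonneg (G z)]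
      have h2 : ‖∑ j, del j (ηc i) z * v j z‖ ^ 2 ≤ Real.exp (ψ z) * ∑ j, ‖v j z‖ ^ 2 := by
        have h3 : ‖∑ j, del j (ηc i) z * v j z‖ ≤ ∑ j, ‖del j (ηc i) z‖ * ‖v j z‖ := by
          refine (norm_sum_le _ _).trans (le_of_eq ?_)
          exact Finset.sum_congr rfl fun j _ => norm_mul _ _
        have h4 := Finset.sum_mul_sq_le_sq_mul_sq Finset.univ (fun j => ‖del j (ηc i) z‖)
          (fun j => ‖v j z‖)
        calc ‖∑ j, del j (ηc i) z * v j z‖ ^ 2 ≤ (∑ j, ‖del j (ηc i) z‖ * ‖v j z‖) ^ 2 :=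
              pow_le_pow_left₀ (norm_nonneg _) h3 2
          _ ≤ _ := h4
          _ ≤ _ := mul_le_mul_of_nonneg_right (hdel i z hz) (by positivity)
      have h5 : ‖ηc i z * G z + ∑ j, del j (ηc i) z * v j z‖ ^ 2 ≤
          2 * ‖G z‖ ^ 2 + 2 * (Real.exp (ψ z) * ∑ j, ‖v j z‖ ^ 2) := by
        have h6 := norm_add_le (ηc i z * G z) (∑ j, del j (ηc i) z * v j z)
        have h7 := norm_nonneg (ηc i z * G z + ∑ j, del j (ηc i) z * v j z)
        have h8 := norm_nonneg (ηc i z * G z)
        have h9 := norm_nonneg (∑ j, del j (ηc i) z * v j z)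
        nlinarith [sq_nonneg (‖ηc i z * G z‖ - ‖∑ j, del j (ηc i) z * v j z‖)]
      calc ‖ηc i z * G z + ∑ j, del j (ηc i) z * v j z‖ ^ 2 * Real.exp (-φ z)
          ≤ (2 * ‖G z‖ ^ 2 + 2 * (Real.exp (ψ z) * ∑ j, ‖v j z‖ ^ 2)) * Real.exp (-φ z) :=
            mul_le_mul_of_nonneg_right h5 (Real.exp_pos _).le
        _ = _ := by rw [← hexp z]; ring
    · refine (ae_restrict_iff' hΩm).2 (Eventually.of_forall fun z hz => ?_)
      refine tendsto_const_nhds.congr' ?_
      filter_upwards [hl1 z hz] with i hi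
      simp only [hi.1, hi.2.1, one_mul, zero_mul, Finset.sum_const_zero, add_zero]
  have R2 : ∀ j k, Tendsto (fun i => ∫ z in Ω, ‖dbar j (ηc i) z * v k z -
      dbar k (ηc i) z * v j z‖ ^ 2 * Real.exp (-φ z)) atTop (𝓝 0) := by
    intro j k
    have h0 : (0 : ℝ) = ∫ _z in Ω, (0 : ℝ) := by simp
    rw [h0]
    refine tendsto_integral_of_dominated_convergence
      (fun z => 4 * ((∑ j, ‖v j z‖ ^ 2) * Real.exp (ψ z - φ z))) ?_ (hsumv.const_mul 4) ?_ ?_
    · intro i
      refine AEStronglyMeasurable.mul ?_ hw2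
      exact (((hcb i j).aestronglyMeasurable.mul (hvm k)).sub
        ((hcb i k).aestronglyMeasurable.mul (hvm j))).norm.pow 2
    · intro i
      refine (ae_restrict_iff' hΩm).2 (Eventually.of_forall fun z hz => ?_)
      rw [Real.norm_of_nonneg (by positivity)]
      have s1 : ∀ l, ‖v l z‖ ^ 2 ≤ ∑ j, ‖v j z‖ ^ 2 := fun l =>
        Finset.single_le_sum (f := fun j => ‖v j z‖ ^ 2) (fun j _ => by positivity)
          (Finset.mem_univ l)
      have h1 : ∀ j k, ‖dbar j (ηc i) z * v k z‖ ^ 2 ≤ Real.exp (ψ z) * ∑ j, ‖v j z‖ ^ 2 := by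
        intro j k
        rw [norm_mul, mul_pow]
        exact mul_le_mul (hdbar1 i j z hz) (s1 k) (by positivity) (Real.exp_pos _).le
      have h5 : ‖dbar j (ηc i) z * v k z - dbar k (ηc i) z * v j z‖ ^ 2 ≤
          4 * (Real.exp (ψ z) * ∑ j, ‖v j z‖ ^ 2) := by
        have h6 := norm_sub_le (dbar j (ηc i) z * v k z) (dbar k (ηc i) z * v j z)
        have h7 := norm_nonneg (dbar j (ηc i) z * v k z - dbar k (ηc i) z * v j z)
        have h8 := norm_nonneg (dbar j (ηc i) z * v k z)
        have h9 := norm_nonneg (dbar k (ηc i) z * v j z)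
        nlinarith [sq_nonneg (‖dbar j (ηc i) z * v k z‖ - ‖dbar k (ηc i) z * v j z‖),
          h1 j k, h1 k j]
      calc ‖dbar j (ηc i) z * v k z - dbar k (ηc i) z * v j z‖ ^ 2 * Real.exp (-φ z)
          ≤ (4 * (Real.exp (ψ z) * ∑ j, ‖v j z‖ ^ 2)) * Real.exp (-φ z) :=
            mul_le_mul_of_nonneg_right h5 (Real.exp_pos _).le
        _ = _ := by rw [← hexp z]; ring
    · refine (ae_restrict_iff' hΩm).2 (Eventually.of_forall fun z hz => ?_)
      refine tendsto_const_nhds.congr' ?_
      filter_upwards [hl1 z hz] with i hi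
      simp only [hi.2.2, zero_mul, sub_zero, norm_zero]
      norm_num
  have R2' : Tendsto (fun i => (1 / 4 : ℝ) * ∑ j, ∑ k, ∫ z in Ω, ‖dbar j (ηc i) z * v k z -
      dbar k (ηc i) z * v j z‖ ^ 2 * Real.exp (-φ z)) atTop (𝓝 0) := by
    have := (tendsto_finsetSum Finset.univ fun j _ =>
      tendsto_finsetSum Finset.univ fun k _ => R2 j k).const_mul (1 / 4 : ℝ)
    simpa using this
  have R := R1.add R2'
  rw [add_zero] at R
  exact le_of_tendsto_of_tendsto' L R fun i =>
    stage W hvm hv hGm hG hcl hdiv (hsm i) (hcs i) (hts i)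

end Pool.Agent.H8.FZ
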