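import Pool.Agent.H8.FZ.HorA3

/-!
# FZ-HORA4: the dual estimate (orthogonal projection)

For `θ_1, …, θ_n ∈ C_c^∞(Ω)` and the bounded closed form `α`:
`|∫ ∑ α_j θ_j|² ≤ (∫|α|² e^{ψ-φ}) (∫ |∑∂̄_jθ_j|² e^{φ-2ψ})`.

Let `H₂ = L²(μ₂; ℂⁿ)`, `μ₂ = e^{ψ-φ} volume|_Ω`, and `N ⊆ H₂` the closed subspace of weakly closed
forms (`v_k ∂̄_jθ` and `v_j ∂̄_kθ` have the same integral over `Ω` for all test `θ`; these are
continuous linear conditions because `θ`, having compact support in `Ω` where the weight is bounded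
below, defines an element of `H₂`). `α ∈ N` (bounded, `e^{ψ-φ} ≤ 1`, `Ω` bounded; integrate by parts).
Let `g_j = conj(θ_j) e^{φ-ψ} ∈ C_c^∞(Ω)`, `g = g₁ + g₂`, `g₁ ∈ N`, `g₂ ⊥ N`. Then
`∫∑α_jθ_j = ⟨g, α⟩ = ⟨g₁, α⟩`, so `|…| ≤ ‖α‖ ‖g₁‖`. For a test function `χ`, `∂̄χ ∈ N`, so
`0 = ⟨g₂, ∂̄χ⟩`; taking conjugates and writing `conj χ = θ' e^{φ-ψ}`:
`∫∑ (g₂)_j (∂_jθ' + θ' ∂_j(φ-ψ)) = 0` for all test `θ'`. Hence
`∫∑ (g₁)_j (∂_jθ' + θ'∂_j(φ-ψ)) = ∫∑ g_j (∂_jθ' + θ'∂_j(φ-ψ)) = - ∫ Dv(g) θ'`, and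
`Dv(g) = e^{φ-ψ} conj(∑∂̄_jθ_j)`. By `hor_apriori`,
`‖g₁‖² ≤ ∫|Dv g|²e^{-φ} = ∫|∑∂̄_jθ_j|² e^{φ-2ψ}`.
(Formally: `H₂ = Lp (EuclideanSpace ℂ (Fin n)) 2 μ₂`, `Submodule.orthogonalProjection`/
`exists_norm_eq_iInf…`; `N` can be defined as `⨅` of kernels of continuous functionals or as the
orthogonal complement of a set of explicit elements, which is closed automatically.)
-/

set_option autoImplicit false

noncomputable section

namespace Pool.Agent.H8.FZ

open Complex Metric MeasureTheory Set Filter Topology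
open scoped ContDiff ComplexConjugate

variable {n : ℕ}

theorem h46_mul_on {Ω : Set (En n)} (hΩ : IsOpen Ω) {θ ρ : En n → ℂ} (h : IsTest Ω θ)
    (hρ : ContDiffOn ℝ ∞ ρ Ω) : IsTest Ω (fun z => θ z * ρ z) := by
  obtain ⟨h1, h2, h3⟩ := h
  have hs : tsupport (fun z => θ z * ρ z) ⊆ tsupport θ := tsupport_mul_subset_left
  refine ⟨?_, h2.mul_right, hs.trans h3⟩
  rw [contDiff_iff_contDiffAt]
  intro x
  by_cases hx : x ∈ tsupport θ
  · exact h1.contDiffAt.mul ((hρ x (h3 hx)).contDiffAt (hΩ.mem_nhds (h3 hx)))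
  · have h0 : (fun z => θ z * ρ z) =ᶠ[𝓝 x] fun _ => 0 := by
      filter_upwards [notMem_tsupport_iff_eventuallyEq.mp hx] with z hz
      simp [hz]
    exact contDiffAt_const.congr_of_eventuallyEq h0

theorem h46_dbar {Ω : Set (En n)} {θ : En n → ℂ} (h : IsTest Ω θ) (k : Fin n) :
    IsTest Ω (dbar k θ) := by
  obtain ⟨h1, h2, h3⟩ := h
  exact ⟨contDiff_dbar h1 k, h2.mono' (subset_closure.trans (tsupport_dbar_subset θ k)),
    (tsupport_dbar_subset θ k).trans h3⟩

theorem h46_del {Ω : Set (En n)} {θ : En n → ℂ} (h : IsTest Ω θ) (k : Fin n) :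
    IsTest Ω (del k θ) := by
  obtain ⟨h1, h2, h3⟩ := h
  exact ⟨contDiff_del h1 k, h2.mono' (subset_closure.trans (tsupport_del_subset θ k)),
    (tsupport_del_subset θ k).trans h3⟩

theorem h46_conj {Ω : Set (En n)} {θ : En n → ℂ} (h : IsTest Ω θ) :
    IsTest Ω (fun z => conj (θ z)) := by
  obtain ⟨h1, h2, h3⟩ := h
  have hs : Function.support (fun z => (starRingEnd ℂ) (θ z)) = Function.support θ := by
    ext z; simp
  refine ⟨?_, ?_, ?_⟩
  · exact Complex.conjCLE.contDiff.comp h1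
  · unfold HasCompactSupport tsupport at *; rw [hs]; exact h2
  · unfold tsupport at *; rw [hs]; exact h3

theorem h46_diffAt {Ω : Set (En n)} {θ : En n → ℂ} (h : IsTest Ω θ) (z : En n) :
    DifferentiableAt ℝ θ z := h.1.differentiable (by simp) z

theorem h46_integrable {Ω : Set (En n)} {θ : En n → ℂ} (h : IsTest Ω θ) :
    Integrable θ (volume : Measure (En n)) := h.1.continuous.integrable_of_hasCompactSupport h.2.1

theorem h46_integral_fderiv {Ω : Set (En n)} {F : En n → ℂ} (h : IsTest Ω F) (v : En n) :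
    ∫ z, fderiv ℝ F z v = 0 := by
  have hc : Continuous (fun z => fderiv ℝ F z v) :=
    (h.1.continuous_fderiv (by simp)).clm_apply continuous_const
  have hi : Integrable (fun z => fderiv ℝ F z v) (volume : Measure (En n)) :=
    hc.integrable_of_hasCompactSupport (h.2.1.fderiv_apply ℝ v)
  have := integral_mul_fderiv_eq_neg_fderiv_mul_of_integrable (μ := (volume : Measure (En n)))
    (f := fun _ => (1 : ℂ)) (g := F) (v := v) (by simp) (by simpa using hi)
    (by simpa using h46_integrable h) (fun x _ => by fun_prop) (fun x _ => h46_diffAt h x)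
  simpa using this

theorem h46_integrable_fderiv {Ω : Set (En n)} {F : En n → ℂ} (h : IsTest Ω F) (v : En n) :
    Integrable (fun z => fderiv ℝ F z v) (volume : Measure (En n)) := by
  have hc : Continuous (fun z => fderiv ℝ F z v) :=
    (h.1.continuous_fderiv (by simp)).clm_apply continuous_const
  exact hc.integrable_of_hasCompactSupport (h.2.1.fderiv_apply ℝ v)

theorem h46_setIntegral_dbar {Ω : Set (En n)} {F : En n → ℂ} (h : IsTest Ω F) (k : Fin n) :
    ∫ z in Ω, dbar k F z = 0 := by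
  rw [setIntegral_eq_integral_of_forall_compl_eq_zero]
  · unfold dbar
    rw [integral_const_mul, integral_add (h46_integrable_fderiv h _)
      ((h46_integrable_fderiv h _).const_mul _), integral_const_mul, h46_integral_fderiv h,
      h46_integral_fderiv h]
    simp
  · intro x hx
    exact image_eq_zero_of_notMem_tsupport fun hx' => hx (h.2.2 (tsupport_dbar_subset F k hx'))

theorem h46_setIntegral_del {Ω : Set (En n)} {F : En n → ℂ} (h : IsTest Ω F) (k : Fin n) :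
    ∫ z in Ω, del k F z = 0 := by
  rw [setIntegral_eq_integral_of_forall_compl_eq_zero]
  · unfold del
    rw [integral_const_mul, integral_sub (h46_integrable_fderiv h _)
      ((h46_integrable_fderiv h _).const_mul _), integral_const_mul, h46_integral_fderiv h,
      h46_integral_fderiv h]
    simp
  · intro x hx
    exact image_eq_zero_of_notMem_tsupport fun hx' => hx (h.2.2 (tsupport_del_subset F k hx'))

theorem h46_add {Ω : Set (En n)} {f g : En n → ℂ} (hf : IsTest Ω f) (hg : IsTest Ω g) :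
    IsTest Ω (fun z => f z + g z) := by
  refine ⟨hf.1.add hg.1, hf.2.1.add hg.2.1, ?_⟩
  exact (tsupport_add f g).trans (union_subset hf.2.2 hg.2.2)

theorem h46_closed {Ω : Set (En n)} (hΩ : IsOpen Ω) {β : Fin n → En n → ℂ}
    (hβ : ∀ j, ContDiffOn ℝ ∞ (β j) Ω)
    (hc : ∀ j k, ∀ z ∈ Ω, dbar j (β k) z = dbar k (β j) z) {θ : En n → ℂ} (hθ : IsTest Ω θ)
    (j k : Fin n) : ∫ z in Ω, dbar j θ z * β k z = ∫ z in Ω, dbar k θ z * β j z := by
  have h1 : ∀ j k, ∫ z in Ω, dbar j θ z * β k z = - ∫ z in Ω, θ z * dbar j (β k) z := by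
    intro j k
    have h2 := h46_setIntegral_dbar (h46_mul_on hΩ hθ (hβ k)) j
    have h3 : ∫ z in Ω, dbar j (fun z => θ z * β k z) z =
        ∫ z in Ω, (dbar j θ z * β k z + θ z * dbar j (β k) z) := by
      refine setIntegral_congr_fun hΩ.measurableSet fun z hz => ?_
      exact dbar_mul (h46_diffAt hθ z)
        (((hβ k z hz).contDiffAt (hΩ.mem_nhds hz)).differentiableAt (by simp)) j
    rw [h3, integral_add] at h2
    · exact eq_neg_of_add_eq_zero_left h2
    · exact (h46_integrable (h46_mul_on hΩ (h46_dbar hθ j) (hβ k))).integrableOn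
    · exact (h46_integrable (h46_mul_on hΩ hθ (contDiffOn_dbar hΩ (hβ k) j))).integrableOn
  rw [h1 j k, h1 k j]
  congr 1
  exact setIntegral_congr_fun hΩ.measurableSet fun z hz => by simp only [hc j k z hz]

open Classical in
/-- The class of a function in `L²(Ω)` (`0` if it is not in `L²`). -/
def h46L (Ω : Set (En n)) (f : En n → ℂ) : Lp ℂ 2 (volume.restrict Ω : Measure (En n)) :=
  if h : MemLp f 2 (volume.restrict Ω : Measure (En n)) then h.toLp f else 0

theorem h46L_coe {Ω : Set (En n)} {f : En n → ℂ}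
    (h : MemLp f 2 (volume.restrict Ω : Measure (En n))) :
    (h46L Ω f : En n → ℂ) =ᵐ[volume.restrict Ω] f := by
  unfold h46L
  rw [dif_pos h]
  exact h.coeFn_toLp

theorem h46_memLp {Ω : Set (En n)} {f : En n → ℂ} (h : IsTest Ω f) :
    MemLp f 2 (volume.restrict Ω : Measure (En n)) :=
  h.1.continuous.memLp_of_hasCompactSupport h.2.1

/-- `e^{(φ-ψ)/2}`. -/
def h46p (φ ψ : En n → ℝ) (z : En n) : ℂ := ((Real.exp ((φ z - ψ z) / 2) : ℝ) : ℂ)

/-- `e^{(ψ-φ)/2}`. -/
def h46q (φ ψ : En n → ℝ) (z : En n) : ℂ := ((Real.exp ((ψ z - φ z) / 2) : ℝ) : ℂ)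

theorem h46_pq (φ ψ : En n → ℝ) (z : En n) : h46p φ ψ z * h46q φ ψ z = 1 := by
  unfold h46p h46q
  rw [← Complex.ofReal_mul, ← Real.exp_add, ← Complex.ofReal_one]
  congr 1
  rw [show (φ z - ψ z) / 2 + (ψ z - φ z) / 2 = 0 by ring, Real.exp_zero]

theorem h46_pp (φ ψ : En n → ℝ) (z : En n) :
    h46p φ ψ z * h46p φ ψ z = ((Real.exp (φ z - ψ z) : ℝ) : ℂ) := by
  unfold h46p
  rw [← Complex.ofReal_mul, ← Real.exp_add]
  congr 2
  ring

theorem h46_conj_p (φ ψ : En n → ℝ) (z : En n) :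
    (starRingEnd ℂ) (h46p φ ψ z) = h46p φ ψ z := by
  unfold h46p; exact Complex.conj_ofReal _

theorem h46_p_smooth {Ω : Set (En n)} {φ ψ : En n → ℝ} (W : Wt Ω φ ψ) :
    ContDiffOn ℝ ∞ (h46p φ ψ) Ω := by
  unfold h46p
  exact Complex.ofRealCLM.contDiff.comp_contDiffOn (((W.hφ.sub W.hψ).div_const 2).exp)

theorem h46_q_smooth {Ω : Set (En n)} {φ ψ : En n → ℝ} (W : Wt Ω φ ψ) :
    ContDiffOn ℝ ∞ (h46q φ ψ) Ω := by
  unfold h46q
  exact Complex.ofRealCLM.contDiff.comp_contDiffOn (((W.hψ.sub W.hφ).div_const 2).exp)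

/-- The test function `conj h · e^{(φ-ψ)/2}`. -/
def h46T (φ ψ : En n → ℝ) (h : En n → ℂ) (z : En n) : ℂ := (starRingEnd ℂ) (h z) * h46p φ ψ z

theorem h46T_test {Ω : Set (En n)} {φ ψ : En n → ℝ} (W : Wt Ω φ ψ) {h : En n → ℂ}
    (hh : IsTest Ω h) : IsTest Ω (h46T φ ψ h) :=
  h46_mul_on W.opn (h46_conj hh) (h46_p_smooth W)

theorem h46_inner {Ω : Set (En n)} {φ ψ : En n → ℝ} (W : Wt Ω φ ψ) {h : En n → ℂ}
    (hh : IsTest Ω h) {Y : Lp ℂ 2 (volume.restrict Ω : Measure (En n))} {y : En n → ℂ}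
    (hy : (Y : En n → ℂ) =ᵐ[volume.restrict Ω] y) :
    inner ℂ (h46L Ω (h46T φ ψ h)) Y = ∫ z in Ω, h z * (h46p φ ψ z * y z) := by
  rw [MeasureTheory.L2.inner_def]
  refine integral_congr_ae ?_
  filter_upwards [h46L_coe (h46_memLp (h46T_test W hh)), hy] with z hz hz'
  rw [hz, hz', RCLike.inner_apply]
  unfold h46T
  rw [map_mul, h46_conj_p, Complex.conj_conj]
  ring

theorem h46_inner_integrable {Ω : Set (En n)} {φ ψ : En n → ℝ} (W : Wt Ω φ ψ) {h : En n → ℂ}
    (hh : IsTest Ω h) {Y : Lp ℂ 2 (volume.restrict Ω : Measure (En n))} {y : En n → ℂ}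
    (hy : (Y : En n → ℂ) =ᵐ[volume.restrict Ω] y) :
    IntegrableOn (fun z => h z * (h46p φ ψ z * y z)) Ω := by
  have := MeasureTheory.L2.integrable_inner (𝕜 := ℂ) (h46L Ω (h46T φ ψ h)) Y
  refine this.congr ?_
  filter_upwards [h46L_coe (h46_memLp (h46T_test W hh)), hy] with z hz hz'
  rw [hz, hz', RCLike.inner_apply]
  unfold h46T
  rw [map_mul, h46_conj_p, Complex.conj_conj]
  ring


/-- The Hilbert space of forms. -/
abbrev h46H (n : ℕ) (Ω : Set (En n)) :=
  PiLp 2 (fun _ : Fin n => Lp ℂ 2 (volume.restrict Ω : Measure (En n)))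

/-- The conditions defining weakly closed forms. -/
def h46S (Ω : Set (En n)) (φ ψ : En n → ℝ) : Set (h46H n Ω) :=
  {x | ∃ (j k : Fin n) (θ : En n → ℂ), IsTest Ω θ ∧ x = WithLp.toLp 2 (fun i =>
    (if i = k then h46L Ω (h46T φ ψ (dbar j θ)) else 0) -
      (if i = j then h46L Ω (h46T φ ψ (dbar k θ)) else 0))}

/-- The weakly closed forms. -/
def h46N (Ω : Set (En n)) (φ ψ : En n → ℝ) : Submodule ℂ (h46H n Ω) :=
  (Submodule.span ℂ (h46S Ω φ ψ))ᗮ

theorem h46N_complete (Ω : Set (En n)) (φ ψ : En n → ℝ) : CompleteSpace (h46N Ω φ ψ) := by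
  unfold h46N; infer_instance

theorem h46_mem_N {Ω : Set (En n)} {φ ψ : En n → ℝ} {y : h46H n Ω} :
    y ∈ h46N Ω φ ψ ↔ ∀ (j k : Fin n) (θ : En n → ℂ), IsTest Ω θ →
      inner ℂ (h46L Ω (h46T φ ψ (dbar j θ))) (y k) =
        inner ℂ (h46L Ω (h46T φ ψ (dbar k θ))) (y j) := by
  have key : ∀ (j k : Fin n) (a b : Lp ℂ 2 (volume.restrict Ω : Measure (En n))),
      inner ℂ (WithLp.toLp 2 (fun i => (if i = k then a else 0) - (if i = j then b else 0)) :
        h46H n Ω) y = inner ℂ a (y k) - inner ℂ b (y j) := by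
    intro j k a b
    rw [PiLp.inner_apply]
    simp only [inner_sub_left, Finset.sum_sub_distrib]
    congr 1
    · rw [Finset.sum_eq_single k]
      · simp
      · intro i _ hi; simp [hi]
      · simp
    · rw [Finset.sum_eq_single j]
      · simp
      · intro i _ hi; simp [hi]
      · simp
  unfold h46N
  rw [Submodule.mem_orthogonal]
  constructor
  · intro h j k θ hθ
    have := h _ (Submodule.subset_span ⟨j, k, θ, hθ, rfl⟩)
    rw [key] at this
    exact sub_eq_zero.mp this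
  · intro h u hu
    induction hu using Submodule.span_induction with
    | mem x hx =>
      obtain ⟨j, k, θ, hθ, rfl⟩ := hx
      rw [key, h j k θ hθ, sub_self]
    | zero => simp
    | add x x' _ _ hx hx' => rw [inner_add_left, hx, hx', add_zero]
    | smul c x _ hx => rw [inner_smul_left, hx, mul_zero]

/-- Smooth closed forms with `L²` coefficients are weakly closed. -/
theorem h46_closed_mem {Ω : Set (En n)} {φ ψ : En n → ℝ} (W : Wt Ω φ ψ)
    {β : Fin n → En n → ℂ} (hβ : ∀ j, ContDiffOn ℝ ∞ (β j) Ω)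
    (hc : ∀ j k, ∀ z ∈ Ω, dbar j (β k) z = dbar k (β j) z)
    (y : h46H n Ω) (hy : ∀ j, (y j : En n → ℂ) =ᵐ[volume.restrict Ω]
      fun z => h46q φ ψ z * β j z) : y ∈ h46N Ω φ ψ := by
  rw [h46_mem_N]
  intro j k θ hθ
  rw [h46_inner W (h46_dbar hθ j) (hy k), h46_inner W (h46_dbar hθ k) (hy j)]
  have : ∀ j k, ∫ z in Ω, dbar j θ z * (h46p φ ψ z * (h46q φ ψ z * β k z)) =
      ∫ z in Ω, dbar j θ z * β k z := by
    intro j k
    congr 1
    ext z
    rw [← mul_assoc (h46p φ ψ z), h46_pq, one_mul]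
  rw [this, this]
  exact h46_closed W.opn hβ hc hθ j k


/-- `e^{φ-ψ}`. -/
def h46E (φ ψ : En n → ℝ) (z : En n) : ℂ := ((Real.exp (φ z - ψ z) : ℝ) : ℂ)

theorem h46E_smooth {Ω : Set (En n)} {φ ψ : En n → ℝ} (W : Wt Ω φ ψ) :
    ContDiffOn ℝ ∞ (h46E φ ψ) Ω := by
  unfold h46E
  exact Complex.ofRealCLM.contDiff.comp_contDiffOn ((W.hφ.sub W.hψ).exp)

theorem h46_w_diff {Ω : Set (En n)} {φ ψ : En n → ℝ} (W : Wt Ω φ ψ) {z : En n} (hz : z ∈ Ω) :
    DifferentiableAt ℝ (fun x => φ x - ψ x) z :=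
  (((W.hφ.sub W.hψ) z hz).contDiffAt (W.opn.mem_nhds hz)).differentiableAt (by simp)

theorem h46_del_E {Ω : Set (En n)} {φ ψ : En n → ℝ} (W : Wt Ω φ ψ) {z : En n} (hz : z ∈ Ω)
    (k : Fin n) : del k (h46E φ ψ) z = h46E φ ψ z * dw φ ψ k z := by
  have h1 := h46_w_diff W hz
  have h2 : HasFDerivAt (h46E φ ψ)
      (Complex.ofRealCLM.comp (Real.exp (φ z - ψ z) • fderiv ℝ (fun x => φ x - ψ x) z)) z :=
    Complex.ofRealCLM.hasFDerivAt.comp z h1.hasFDerivAt.exp
  have h3 : HasFDerivAt (fun x => ((φ x - ψ x : ℝ) : ℂ))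
      (Complex.ofRealCLM.comp (fderiv ℝ (fun x => φ x - ψ x) z)) z :=
    Complex.ofRealCLM.hasFDerivAt.comp z h1.hasFDerivAt
  unfold dw del
  rw [h2.fderiv, h3.fderiv]
  simp only [ContinuousLinearMap.comp_apply, _root_.smul_apply, smul_eq_mul,
    Complex.ofRealCLM_apply, Complex.ofReal_mul, h46E]
  ring

theorem h46_dbar_E {Ω : Set (En n)} {φ ψ : En n → ℝ} (W : Wt Ω φ ψ) {z : En n} (hz : z ∈ Ω)
    (k : Fin n) : dbar k (h46E φ ψ) z = h46E φ ψ z * (starRingEnd ℂ) (dw φ ψ k z) := by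
  have h1 := (h46_w_diff W hz).exp
  have h2 := dbar_real h1 k
  have h3 : (starRingEnd ℂ) (del k (h46E φ ψ) z) =
      h46E φ ψ z * (starRingEnd ℂ) (dw φ ψ k z) := by
    rw [h46_del_E W hz, map_mul]
    congr 1
    unfold h46E
    exact Complex.conj_ofReal _
  rw [← h3]
  exact h2

theorem h46_dw_smooth {Ω : Set (En n)} {φ ψ : En n → ℝ} (W : Wt Ω φ ψ) (k : Fin n) :
    ContDiffOn ℝ ∞ (dw φ ψ k) Ω := by
  unfold dw
  exact contDiffOn_del W.opn (Complex.ofRealCLM.contDiff.comp_contDiffOn (W.hφ.sub W.hψ)) k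

/-- `∂_jθ + θ ∂_j(φ-ψ)`. -/
def h46h (φ ψ : En n → ℝ) (θ : En n → ℂ) (j : Fin n) (z : En n) : ℂ :=
  del j θ z + θ z * dw φ ψ j z

theorem h46h_test {Ω : Set (En n)} {φ ψ : En n → ℝ} (W : Wt Ω φ ψ) {θ : En n → ℂ}
    (hθ : IsTest Ω θ) (j : Fin n) : IsTest Ω (h46h φ ψ θ j) :=
  h46_add (h46_del hθ j) (h46_mul_on W.opn hθ (h46_dw_smooth W j))

theorem h46_X_mem {Ω : Set (En n)} {φ ψ : En n → ℝ} (W : Wt Ω φ ψ) {θ : En n → ℂ}
    (hθ : IsTest Ω θ) :
    (WithLp.toLp 2 (fun j => h46L Ω (h46T φ ψ (h46h φ ψ θ j))) : h46H n Ω) ∈ h46N Ω φ ψ := by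
  have hχ : IsTest Ω (fun z => (starRingEnd ℂ) (θ z) * h46E φ ψ z) :=
    h46_mul_on W.opn (h46_conj hθ) (h46E_smooth W)
  refine h46_closed_mem W (β := fun k => dbar k (fun z => (starRingEnd ℂ) (θ z) * h46E φ ψ z))
    (fun k => (h46_dbar hχ k).1.contDiffOn) ?_ _ ?_
  · intro j k z hz
    exact dbar_comm (by exact_mod_cast (contDiff_infty.mp hχ.1 2).contDiffAt) j k
  · intro j
    have h1 := h46L_coe (h46_memLp (h46T_test W (h46h_test W hθ j)))
    refine h1.trans ?_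
    refine (ae_restrict_iff' W.opn.measurableSet).mpr (Eventually.of_forall fun z hz => ?_)
    have h2 : dbar j (fun z => (starRingEnd ℂ) (θ z) * h46E φ ψ z) z =
        (starRingEnd ℂ) (h46h φ ψ θ j z) * h46E φ ψ z := by
      rw [dbar_mul (h46_diffAt (h46_conj hθ) z)
        (((h46E_smooth W z hz).contDiffAt (W.opn.mem_nhds hz)).differentiableAt (by simp)),
        dbar_conj (h46_diffAt hθ z), h46_dbar_E W hz]
      unfold h46h
      rw [map_add, map_mul]
      ring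
    beta_reduce
    rw [h2]
    unfold h46T
    have h3 : h46E φ ψ z = h46p φ ψ z * h46p φ ψ z := (h46_pp φ ψ z).symm
    rw [h3]
    have h4 := h46_pq φ ψ z
    linear_combination (-(starRingEnd ℂ) (h46h φ ψ θ j z) * h46p φ ψ z) * h4


theorem h46_zero (Ω : Set (En n)) : IsTest Ω (fun _ : En n => (0 : ℂ)) := by
  have h : tsupport (fun _ : En n => (0 : ℂ)) = ∅ := by
    rw [tsupport_eq_empty_iff]; rfl
  refine ⟨contDiff_const, ?_, ?_⟩
  · unfold HasCompactSupport; rw [h]; exact isCompact_empty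
  · rw [h]; exact empty_subset _

theorem h46_sum {Ω : Set (En n)} {ι : Type*} (s : Finset ι) {f : ι → En n → ℂ}
    (hf : ∀ i, IsTest Ω (f i)) : IsTest Ω (fun z => ∑ i ∈ s, f i z) := by
  classical
  induction s using Finset.induction_on with
  | empty => simpa using h46_zero Ω
  | insert a s ha ih =>
    simp only [Finset.sum_insert ha]
    exact h46_add (hf a) ih

theorem h46_norm_p (φ ψ : En n → ℝ) (z : En n) :
    ‖h46p φ ψ z‖ ^ 2 * Real.exp (ψ z - φ z) = 1 := by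
  unfold h46p
  rw [Complex.norm_real, Real.norm_eq_abs, abs_of_pos (Real.exp_pos _), ← Real.exp_nat_mul,
    ← Real.exp_add, ← Real.exp_zero]
  congr 1
  push_cast
  ring

/-- Integration by parts for the divergence. -/
theorem h46_parts {Ω : Set (En n)} {φ ψ : En n → ℝ} (W : Wt Ω φ ψ) {θ' θ : En n → ℂ}
    (hθ' : IsTest Ω θ') (hθ : IsTest Ω θ) (j : Fin n) :
    ∫ z in Ω, h46h φ ψ θ' j z * ((starRingEnd ℂ) (θ z) * h46E φ ψ z) =
      - ∫ z in Ω, h46E φ ψ z * (starRingEnd ℂ) (dbar j θ z) * θ' z := by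
  have hms := W.opn.measurableSet
  have ht1 : IsTest Ω (fun z => (starRingEnd ℂ) (θ z) * h46E φ ψ z) :=
    h46_mul_on W.opn (h46_conj hθ) (h46E_smooth W)
  have hF : IsTest Ω (fun z => θ' z * ((starRingEnd ℂ) (θ z) * h46E φ ψ z)) :=
    h46_mul_on W.opn hθ' ht1.1.contDiffOn
  have h1 := h46_setIntegral_del hF j
  have h2 : ∫ z in Ω, del j (fun z => θ' z * ((starRingEnd ℂ) (θ z) * h46E φ ψ z)) z =
      ∫ z in Ω, (h46h φ ψ θ' j z * ((starRingEnd ℂ) (θ z) * h46E φ ψ z) +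
        h46E φ ψ z * (starRingEnd ℂ) (dbar j θ z) * θ' z) := by
    refine setIntegral_congr_fun hms fun z hz => ?_
    have hE : DifferentiableAt ℝ (h46E φ ψ) z :=
      ((h46E_smooth W z hz).contDiffAt (W.opn.mem_nhds hz)).differentiableAt (by simp)
    show del j (fun z => θ' z * ((starRingEnd ℂ) (θ z) * h46E φ ψ z)) z = _
    rw [del_mul (h46_diffAt hθ' z) (h46_diffAt ht1 z),
      del_mul (h46_diffAt (h46_conj hθ) z) hE, del_conj (h46_diffAt hθ z), h46_del_E W hz]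
    unfold h46h
    ring
  rw [h2, integral_add] at h1
  · exact eq_neg_of_add_eq_zero_left h1
  · exact (h46_integrable (h46_mul_on W.opn (h46h_test W hθ' j) ht1.1.contDiffOn)).integrableOn
  · have := h46_integrable (h46_mul_on W.opn (h46_conj (h46_dbar hθ j))
      ((h46E_smooth W).mul hθ'.1.contDiffOn))
    refine (this.integrableOn (s := Ω)).congr (Eventually.of_forall fun z => ?_)
    show (starRingEnd ℂ) (dbar j θ z) * (h46E φ ψ z * θ' z) = _
    ring

theorem h46_A_memLp {Ω : Set (En n)} {φ ψ : En n → ℝ} (W : Wt Ω φ ψ)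
    {a : En n → ℂ} (ha : ContDiffOn ℝ ∞ a Ω) {B : ℝ} (haB : ∀ z ∈ Ω, ‖a z‖ ≤ B) :
    MemLp (fun z => h46q φ ψ z * a z) 2 (volume.restrict Ω : Measure (En n)) := by
  have : IsFiniteMeasure (volume.restrict Ω : Measure (En n)) :=
    ⟨by rw [Measure.restrict_apply_univ]; exact W.bdd.measure_lt_top⟩
  refine MemLp.of_bound ?_ B ?_
  · exact (((h46_q_smooth W).continuousOn).mul ha.continuousOn).aestronglyMeasurable
      W.opn.measurableSet
  · refine (ae_restrict_iff' W.opn.measurableSet).mpr (Eventually.of_forall fun z hz => ?_)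
    rw [norm_mul]
    have h1 : ‖h46q φ ψ z‖ ≤ 1 := by
      unfold h46q
      rw [Complex.norm_real, Real.norm_eq_abs, abs_of_pos (Real.exp_pos _)]
      exact Real.exp_le_one_iff.mpr (by linarith [W.le z hz])
    calc ‖h46q φ ψ z‖ * ‖a z‖ ≤ 1 * ‖a z‖ :=
          mul_le_mul_of_nonneg_right h1 (norm_nonneg _)
      _ ≤ B := by rw [one_mul]; exact haB z hz

theorem hor_dual {Ω : Set (En n)} {φ ψ : En n → ℝ} (W : Wt Ω φ ψ)
    {α : Fin n → En n → ℂ} (hα : ∀ j, ContDiffOn ℝ ∞ (α j) Ω) {B : ℝ}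
    (hαB : ∀ j, ∀ z ∈ Ω, ‖α j z‖ ≤ B)
    (hαc : ∀ j k, ∀ z ∈ Ω, dbar j (α k) z = dbar k (α j) z) :
    ∃ C : ℝ, 0 ≤ C ∧ ∀ θ : Fin n → En n → ℂ, (∀ j, IsTest Ω (θ j)) →
      ‖∫ z in Ω, ∑ j, α j z * θ j z‖ ^ 2 ≤
        C * ∫ z in Ω, ‖∑ j, dbar j (θ j) z‖ ^ 2 * Real.exp (φ z - 2 * ψ z) := by
  have hms := W.opn.measurableSet
  set A : h46H n Ω := WithLp.toLp 2 (fun j => h46L Ω (fun z => h46q φ ψ z * α j z)) with hA
  have hAj : ∀ j, (A j : En n → ℂ) =ᵐ[volume.restrict Ω] fun z => h46q φ ψ z * α j z :=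
    fun j => h46L_coe (h46_A_memLp W (hα j) (hαB j))
  have hAN : A ∈ h46N Ω φ ψ := h46_closed_mem W hα hαc A hAj
  refine ⟨‖A‖ ^ 2, by positivity, fun θ hθ => ?_⟩
  set g : h46H n Ω := WithLp.toLp 2 (fun j => h46L Ω (h46T φ ψ (θ j))) with hg
  have hcompl := h46N_complete Ω φ ψ
  obtain ⟨g₁, hg₁, g₂, hg₂, hgg⟩ := (h46N Ω φ ψ).exists_add_mem_mem_orthogonal g
  -- the pairing with `A`
  have e1 : ∫ z in Ω, ∑ j, α j z * θ j z = inner ℂ g₁ A := by
    have h1 : inner ℂ g A = inner ℂ g₁ A := by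
      rw [hgg, inner_add_left]
      have : inner ℂ g₂ A = 0 := by
        rw [Submodule.mem_orthogonal'] at hg₂
        exact hg₂ A hAN
      rw [this, add_zero]
    rw [← h1, PiLp.inner_apply, integral_finsetSum]
    · refine Finset.sum_congr rfl fun j _ => ?_
      have h2 : inner ℂ (g j) (A j) = ∫ z in Ω, θ j z * (h46p φ ψ z * (h46q φ ψ z * α j z)) :=
        h46_inner W (hθ j) (hAj j)
      rw [h2]
      refine integral_congr_ae (Eventually.of_forall fun z => ?_)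
      show α j z * θ j z = θ j z * (h46p φ ψ z * (h46q φ ψ z * α j z))
      linear_combination (-(θ j z) * α j z) * h46_pq φ ψ z
    · intro j _
      have := (h46_integrable (h46_mul_on W.opn (hθ j) (hα j))).integrableOn (s := Ω)
      refine this.congr (Eventually.of_forall fun z => ?_)
      show θ j z * α j z = α j z * θ j z
      ring
  have e2 : ‖∫ z in Ω, ∑ j, α j z * θ j z‖ ^ 2 ≤ ‖A‖ ^ 2 * ‖g₁‖ ^ 2 := by
    rw [e1, ← mul_pow]
    refine pow_le_pow_left₀ (norm_nonneg _) ?_ 2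
    rw [mul_comm]
    exact norm_inner_le_norm g₁ A
  refine e2.trans (mul_le_mul_of_nonneg_left ?_ (by positivity))
  -- the divergence of `g₁`
  set D : En n → ℂ := fun z => ∑ j, dbar j (θ j) z with hD
  have hDt : IsTest Ω D := h46_sum _ fun j => h46_dbar (hθ j) j
  have hGt : IsTest Ω (fun z => (starRingEnd ℂ) (D z) * h46E φ ψ z) :=
    h46_mul_on W.opn (h46_conj hDt) (h46E_smooth W)
  have hexp : ContDiffOn ℝ ∞ (fun z => ((Real.exp (-φ z) : ℝ) : ℂ)) Ω :=
    Complex.ofRealCLM.contDiff.comp_contDiffOn (W.hφ.neg.exp)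
  have key := hor_apriori W (v := fun j z => h46p φ ψ z * (g₁ j : En n → ℂ) z)
    (G := fun z => (starRingEnd ℂ) (D z) * h46E φ ψ z) ?_ ?_ ?_ ?_ ?_ ?_
  · have n1 : ‖g₁‖ ^ 2 = ∫ z in Ω, (∑ j, ‖h46p φ ψ z * (g₁ j : En n → ℂ) z‖ ^ 2) *
        Real.exp (ψ z - φ z) := by
      rw [PiLp.norm_sq_eq_of_L2]
      have : ∀ j, ‖g₁ j‖ ^ 2 = ∫ z in Ω, ‖(g₁ j : En n → ℂ) z‖ ^ 2 := by
        intro j
        have h1 := MeasureTheory.L2.inner_def (𝕜 := ℂ) (g₁ j) (g₁ j)
        have h2 : (inner ℂ (g₁ j) (g₁ j) : ℂ) = ((‖g₁ j‖ ^ 2 : ℝ) : ℂ) := by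
          rw [inner_self_eq_norm_sq_to_K]; push_cast; rfl
        have h3 : ∫ z in Ω, (inner ℂ ((g₁ j : En n → ℂ) z) ((g₁ j : En n → ℂ) z) : ℂ) =
            ((∫ z in Ω, ‖(g₁ j : En n → ℂ) z‖ ^ 2 : ℝ) : ℂ) := by
          rw [← integral_complex_ofReal]
          refine integral_congr_ae (Eventually.of_forall fun z => ?_)
          show (inner ℂ ((g₁ j : En n → ℂ) z) ((g₁ j : En n → ℂ) z) : ℂ) = _
          rw [inner_self_eq_norm_sq_to_K]; push_cast; rfl
        rw [h2, h3] at h1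
        exact_mod_cast h1
      simp only [this]
      rw [← integral_finsetSum]
      · refine integral_congr_ae (Eventually.of_forall fun z => ?_)
        show ∑ j, ‖(g₁ j : En n → ℂ) z‖ ^ 2 = _
        beta_reduce
        rw [Finset.sum_mul]
        refine Finset.sum_congr rfl fun j _ => ?_
        rw [norm_mul, mul_pow, mul_right_comm, h46_norm_p, one_mul]
      · intro j _
        exact (Lp.memLp (g₁ j)).integrable_norm_pow (by norm_num)
    have n2 : ∫ z in Ω, ‖(starRingEnd ℂ) (D z) * h46E φ ψ z‖ ^ 2 * Real.exp (-φ z) =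
        ∫ z in Ω, ‖D z‖ ^ 2 * Real.exp (φ z - 2 * ψ z) := by
      refine integral_congr_ae (Eventually.of_forall fun z => ?_)
      show ‖(starRingEnd ℂ) (D z) * h46E φ ψ z‖ ^ 2 * Real.exp (-φ z) = _
      unfold h46E
      rw [norm_mul, RCLike.norm_conj, Complex.norm_real, Real.norm_eq_abs,
        abs_of_pos (Real.exp_pos _), mul_pow, ← Real.exp_nat_mul, mul_assoc, ← Real.exp_add]
      congr 2
      push_cast
      ring
    rw [n1, ← n2]
    exact key
  · intro j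
    exact ((h46_p_smooth W).continuousOn.aestronglyMeasurable hms).mul
      (Lp.aestronglyMeasurable (g₁ j))
  · intro j
    have : Integrable (fun z => ‖(g₁ j : En n → ℂ) z‖ ^ 2) (volume.restrict Ω) :=
      (Lp.memLp (g₁ j)).integrable_norm_pow (by norm_num)
    refine this.congr (Eventually.of_forall fun z => ?_)
    show ‖(g₁ j : En n → ℂ) z‖ ^ 2 =
      ‖h46p φ ψ z * (g₁ j : En n → ℂ) z‖ ^ 2 * Real.exp (ψ z - φ z)
    rw [norm_mul, mul_pow, mul_right_comm, h46_norm_p, one_mul]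
  · exact hGt.1.continuous.aestronglyMeasurable
  · have h1 := h46_integrable (h46_mul_on W.opn hGt
      ((h46_conj hGt).1.contDiffOn.mul hexp))
    refine (h1.norm.integrableOn (s := Ω)).congr (Eventually.of_forall fun z => ?_)
    show ‖(starRingEnd ℂ) (D z) * h46E φ ψ z * ((starRingEnd ℂ) ((starRingEnd ℂ) (D z) *
      h46E φ ψ z) * ((Real.exp (-φ z) : ℝ) : ℂ))‖ = _
    rw [norm_mul, norm_mul _ ((Real.exp (-φ z) : ℝ) : ℂ), RCLike.norm_conj, Complex.norm_real,
      Real.norm_eq_abs, abs_of_pos (Real.exp_pos _)]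
    ring
  · intro j k θ' hθ'
    have h1 := h46_mem_N.mp hg₁ j k θ' hθ'
    rw [h46_inner W (h46_dbar hθ' j) EventuallyEq.rfl,
      h46_inner W (h46_dbar hθ' k) EventuallyEq.rfl] at h1
    have h2 : ∀ j k, ∫ z in Ω, h46p φ ψ z * (g₁ k : En n → ℂ) z * dbar j θ' z =
        ∫ z in Ω, dbar j θ' z * (h46p φ ψ z * (g₁ k : En n → ℂ) z) := by
      intro j k
      congr 1
      ext z
      ring
    rw [h2, h2]
    exact h1
  · intro θ' hθ'
    have hX := h46_X_mem W hθ'
    set X : h46H n Ω := WithLp.toLp 2 (fun j => h46L Ω (h46T φ ψ (h46h φ ψ θ' j))) with hXdef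
    have h1 : inner ℂ X g₁ = inner ℂ X g := by
      rw [hgg, inner_add_right]
      have : inner ℂ X g₂ = 0 := by
        rw [Submodule.mem_orthogonal] at hg₂
        exact hg₂ X hX
      rw [this, add_zero]
    have h2 : inner ℂ X g₁ = ∫ z in Ω, ∑ j, h46p φ ψ z * (g₁ j : En n → ℂ) z *
        (del j θ' z + θ' z * dw φ ψ j z) := by
      rw [PiLp.inner_apply, integral_finsetSum]
      · refine Finset.sum_congr rfl fun j _ => ?_
        have h3 : inner ℂ (X j) (g₁ j) =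
            ∫ z in Ω, h46h φ ψ θ' j z * (h46p φ ψ z * (g₁ j : En n → ℂ) z) :=
          h46_inner W (h46h_test W hθ' j) EventuallyEq.rfl
        rw [h3]
        refine integral_congr_ae (Eventually.of_forall fun z => ?_)
        show h46h φ ψ θ' j z * (h46p φ ψ z * (g₁ j : En n → ℂ) z) = _
        unfold h46h
        ring
      · intro j _
        refine (h46_inner_integrable W (h46h_test W hθ' j)
          (EventuallyEq.refl _ (g₁ j : En n → ℂ))).congr (Eventually.of_forall fun z => ?_)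
        show h46h φ ψ θ' j z * (h46p φ ψ z * (g₁ j : En n → ℂ) z) = _
        unfold h46h
        ring
    have h4 : inner ℂ X g = - ∫ z in Ω, (starRingEnd ℂ) (D z) * h46E φ ψ z * θ' z := by
      rw [PiLp.inner_apply]
      have h5 : ∀ j, inner ℂ (X j) (g j) =
          - ∫ z in Ω, h46E φ ψ z * (starRingEnd ℂ) (dbar j (θ j) z) * θ' z := by
        intro j
        rw [← h46_parts W hθ' (hθ j) j]
        have h6 : inner ℂ (X j) (g j) =
            ∫ z in Ω, h46h φ ψ θ' j z * (h46p φ ψ z * h46T φ ψ (θ j) z) :=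
          h46_inner W (h46h_test W hθ' j) (h46L_coe (h46_memLp (h46T_test W (hθ j))))
        rw [h6]
        refine integral_congr_ae (Eventually.of_forall fun z => ?_)
        show h46h φ ψ θ' j z * (h46p φ ψ z * h46T φ ψ (θ j) z) = _
        unfold h46T
        beta_reduce
        have h7 : h46E φ ψ z = h46p φ ψ z * h46p φ ψ z := (h46_pp φ ψ z).symm
        rw [h7]
        ring
      rw [Finset.sum_congr rfl (fun j _ => h5 j), Finset.sum_neg_distrib, ← integral_finsetSum]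
      · congr 1
        refine integral_congr_ae (Eventually.of_forall fun z => ?_)
        show ∑ j, h46E φ ψ z * (starRingEnd ℂ) (dbar j (θ j) z) * θ' z = _
        rw [hD]
        simp only [map_sum, Finset.sum_mul]
        exact Finset.sum_congr rfl fun j _ => by ring
      · intro j _
        have := h46_integrable (h46_mul_on W.opn (h46_conj (h46_dbar (hθ j) j))
          ((h46E_smooth W).mul hθ'.1.contDiffOn))
        refine (this.integrableOn (s := Ω)).congr (Eventually.of_forall fun z => ?_)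
        show (starRingEnd ℂ) (dbar j (θ j) z) * (h46E φ ψ z * θ' z) = _
        ring
    rw [← h4, ← h1, h2]

end Pool.Agent.H8.FZ
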