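import Pool.Agent.H8.FZ.HorA4

/-!
# FZ-HORA5: existence of a weak solution (Riesz)

`H₁ = L²(μ₁)`, `μ₁ = e^{φ-2ψ} volume|_Ω`. On the subspace `{∑∂̄_jθ_j : θ test}` of `H₁` the linear
functional `ℓ(∑∂̄_jθ_j) = -∫∑α_jθ_j` is well defined and bounded (`hor_dual`); extend it to `H₁`
(Hahn-Banach `exists_extension_norm_eq` over `ℂ`) and represent it (Riesz,
`InnerProductSpace.toDual`): `ℓ(g) = ∫ conj(w) g e^{φ-2ψ}` with `w ∈ H₁`. Put
`u = conj(w) e^{φ-2ψ}` on `Ω`. Then `∫_Ω u ∑∂̄_jθ_j = -∫_Ω ∑α_jθ_j`; take only one nonzero `θ_j`.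
`u` is locally integrable on `Ω` (Cauchy-Schwarz on compact subsets, weights bounded there).
-/

set_option autoImplicit false

noncomputable section

namespace Pool.Agent.H8.FZ

open Complex Metric MeasureTheory Set Filter Topology
open scoped ContDiff ComplexConjugate

variable {n : ℕ}

/-- Riesz representation for a functional bounded by a linear map into a Hilbert space. -/
theorem h46_riesz {V H : Type*} [AddCommGroup V] [Module ℂ V] [NormedAddCommGroup H]
    [InnerProductSpace ℂ H] [CompleteSpace H] (L : V →ₗ[ℂ] H) (l : V →ₗ[ℂ] ℂ) (C : ℝ)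
    (hC : ∀ v, ‖l v‖ ≤ C * ‖L v‖) : ∃ w : H, ∀ v, l v = inner ℂ w (L v) := by
  obtain ⟨g, hg⟩ := L.rangeRestrict.exists_rightInverse_of_surjective L.range_rangeRestrict
  have hg' : ∀ x : L.range, L (g x) = x := by
    intro x
    have := LinearMap.congr_fun hg x
    exact congrArg Subtype.val this
  let f : L.range →L[ℂ] ℂ := (l ∘ₗ g).mkContinuous C (fun x => by
    have := hC (g x)
    rw [hg' x] at this
    exact this)
  obtain ⟨F, hF, -⟩ := exists_extension_norm_eq (𝕜 := ℂ) L.range f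
  refine ⟨(InnerProductSpace.toDual ℂ H).symm F, fun v => ?_⟩
  rw [InnerProductSpace.toDual_symm_apply]
  have h1 : F (L v) = l (g ⟨L v, LinearMap.mem_range_self L v⟩) :=
    hF ⟨L v, LinearMap.mem_range_self L v⟩
  rw [h1]
  have h2 := hC (v - g ⟨L v, LinearMap.mem_range_self L v⟩)
  rw [map_sub L, hg', sub_self, norm_zero, mul_zero, norm_le_zero_iff, map_sub, sub_eq_zero] at h2
  exact h2

theorem h46_norm_sq {μ : Measure (En n)} (Y : Lp ℂ 2 μ) :
    ‖Y‖ ^ 2 = ∫ z, ‖(Y : En n → ℂ) z‖ ^ 2 ∂μ := by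
  have h1 := MeasureTheory.L2.inner_def (𝕜 := ℂ) Y Y
  have h2 : (inner ℂ Y Y : ℂ) = ((‖Y‖ ^ 2 : ℝ) : ℂ) := by
    rw [inner_self_eq_norm_sq_to_K]; push_cast; rfl
  have h3 : ∫ z, (inner ℂ ((Y : En n → ℂ) z) ((Y : En n → ℂ) z) : ℂ) ∂μ =
      ((∫ z, ‖(Y : En n → ℂ) z‖ ^ 2 ∂μ : ℝ) : ℂ) := by
    rw [← integral_complex_ofReal]
    refine integral_congr_ae (Eventually.of_forall fun z => ?_)
    show (inner ℂ ((Y : En n → ℂ) z) ((Y : En n → ℂ) z) : ℂ) = _
    rw [inner_self_eq_norm_sq_to_K]; push_cast; rfl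
  rw [h2, h3] at h1
  exact_mod_cast h1

theorem h46L_add {Ω : Set (En n)} {f g : En n → ℂ}
    (hf : MemLp f 2 (volume.restrict Ω : Measure (En n)))
    (hg : MemLp g 2 (volume.restrict Ω : Measure (En n))) :
    h46L Ω (fun z => f z + g z) = h46L Ω f + h46L Ω g := by
  refine Lp.ext ?_
  filter_upwards [h46L_coe (hf.add hg), h46L_coe hf, h46L_coe hg,
    Lp.coeFn_add (h46L Ω f) (h46L Ω g)] with z h1 h2 h3 h4
  rw [h4, Pi.add_apply, h2, h3]
  exact h1

theorem h46L_smul {Ω : Set (En n)} {f : En n → ℂ} (c : ℂ)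
    (hf : MemLp f 2 (volume.restrict Ω : Measure (En n))) :
    h46L Ω (fun z => c * f z) = c • h46L Ω f := by
  refine Lp.ext ?_
  filter_upwards [h46L_coe (hf.const_mul c), h46L_coe hf,
    Lp.coeFn_smul c (h46L Ω f)] with z h1 h2 h3
  rw [h3, Pi.smul_apply, h2]
  exact h1

theorem h46_smul {Ω : Set (En n)} {f : En n → ℂ} (c : ℂ) (hf : IsTest Ω f) :
    IsTest Ω (fun z => c * f z) := by
  refine ⟨contDiff_const.mul hf.1, hf.2.1.mul_left, ?_⟩
  exact (tsupport_mul_subset_right (f := fun _ => c) (g := f)).trans hf.2.2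

/-- Tuples of test functions. -/
def h46V (Ω : Set (En n)) : Submodule ℂ (Fin n → En n → ℂ) where
  carrier := {θ | ∀ j, IsTest Ω (θ j)}
  add_mem' := fun ha hb j => h46_add (ha j) (hb j)
  zero_mem' := fun _ => h46_zero Ω
  smul_mem' := fun c _ ha j => h46_smul c (ha j)

/-- `∑ ∂̄_jθ_j`. -/
def h46D (θ : Fin n → En n → ℂ) (z : En n) : ℂ := ∑ j, dbar j (θ j) z

theorem h46D_test {Ω : Set (En n)} {θ : Fin n → En n → ℂ} (h : ∀ j, IsTest Ω (θ j)) :
    IsTest Ω (h46D θ) := h46_sum _ fun j => h46_dbar (h j) j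

/-- `e^{(φ-2ψ)/2}`. -/
def h46s (φ ψ : En n → ℝ) (z : En n) : ℂ := ((Real.exp ((φ z - 2 * ψ z) / 2) : ℝ) : ℂ)

theorem h46s_smooth {Ω : Set (En n)} {φ ψ : En n → ℝ} (W : Wt Ω φ ψ) :
    ContDiffOn ℝ ∞ (h46s φ ψ) Ω := by
  unfold h46s
  exact Complex.ofRealCLM.contDiff.comp_contDiffOn
    (((W.hφ.sub (contDiffOn_const.mul W.hψ)).div_const 2).exp)

theorem h46sD_memLp {Ω : Set (En n)} {φ ψ : En n → ℝ} (W : Wt Ω φ ψ)
    {θ : Fin n → En n → ℂ} (h : ∀ j, IsTest Ω (θ j)) :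
    MemLp (fun z => h46D θ z * h46s φ ψ z) 2 (volume.restrict Ω : Measure (En n)) :=
  h46_memLp (h46_mul_on W.opn (h46D_test h) (h46s_smooth W))

/-- The linear map `θ ↦ (∑ ∂̄_jθ_j) e^{(φ-2ψ)/2}`. -/
def h46Lin {Ω : Set (En n)} {φ ψ : En n → ℝ} (W : Wt Ω φ ψ) :
    h46V Ω →ₗ[ℂ] Lp ℂ 2 (volume.restrict Ω : Measure (En n)) where
  toFun θ := h46L Ω (fun z => h46D (θ : Fin n → En n → ℂ) z * h46s φ ψ z)
  map_add' := by
    intro a b
    rw [← h46L_add (h46sD_memLp W a.2) (h46sD_memLp W b.2)]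
    congr 1
    ext z
    have : h46D ((a + b : h46V Ω) : Fin n → En n → ℂ) z =
        h46D (a : Fin n → En n → ℂ) z + h46D (b : Fin n → En n → ℂ) z := by
      unfold h46D
      rw [← Finset.sum_add_distrib]
      exact Finset.sum_congr rfl fun j _ =>
        dbar_add (h46_diffAt (a.2 j) z) (h46_diffAt (b.2 j) z) j
    rw [this, add_mul]
  map_smul' := by
    intro c a
    rw [RingHom.id_apply, ← h46L_smul c (h46sD_memLp W a.2)]
    congr 1
    ext z
    have : h46D ((c • a : h46V Ω) : Fin n → En n → ℂ) z =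
        c * h46D (a : Fin n → En n → ℂ) z := by
      unfold h46D
      rw [Finset.mul_sum]
      exact Finset.sum_congr rfl fun j _ => dbar_const_mul c (h46_diffAt (a.2 j) z) j
    rw [this, mul_assoc]

theorem h46_term_integrable {Ω : Set (En n)} (hΩ : IsOpen Ω) {a θ : En n → ℂ}
    (ha : ContDiffOn ℝ ∞ a Ω) (hθ : IsTest Ω θ) : IntegrableOn (fun z => a z * θ z) Ω := by
  have := (h46_integrable (h46_mul_on hΩ hθ ha)).integrableOn (s := Ω)
  refine this.congr (Eventually.of_forall fun z => ?_)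
  show θ z * a z = a z * θ z
  ring

/-- The functional `θ ↦ -∫ ∑ α_jθ_j`. -/
def h46Fun {Ω : Set (En n)} (hΩ : IsOpen Ω) {α : Fin n → En n → ℂ}
    (hα : ∀ j, ContDiffOn ℝ ∞ (α j) Ω) : h46V Ω →ₗ[ℂ] ℂ where
  toFun θ := - ∫ z in Ω, ∑ j, α j z * (θ : Fin n → En n → ℂ) j z
  map_add' := by
    intro a b
    rw [← neg_add, ← integral_add]
    · congr 1
      refine integral_congr_ae (Eventually.of_forall fun z => ?_)
      show ∑ j, α j z * ((a : Fin n → En n → ℂ) j z + (b : Fin n → En n → ℂ) j z) = _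
      beta_reduce
      rw [← Finset.sum_add_distrib]
      exact Finset.sum_congr rfl fun j _ => by ring
    · exact integrable_finsetSum _ fun j _ => h46_term_integrable hΩ (hα j) (a.2 j)
    · exact integrable_finsetSum _ fun j _ => h46_term_integrable hΩ (hα j) (b.2 j)
  map_smul' := by
    intro c a
    rw [RingHom.id_apply, smul_eq_mul, mul_neg, ← integral_const_mul]
    congr 1
    refine integral_congr_ae (Eventually.of_forall fun z => ?_)
    show ∑ j, α j z * (c * (a : Fin n → En n → ℂ) j z) = _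
    beta_reduce
    rw [Finset.mul_sum]
    exact Finset.sum_congr rfl fun j _ => by ring

theorem hor_solve {Ω : Set (En n)} {φ ψ : En n → ℝ} (W : Wt Ω φ ψ)
    {α : Fin n → En n → ℂ} (hα : ∀ j, ContDiffOn ℝ ∞ (α j) Ω) {B : ℝ}
    (hαB : ∀ j, ∀ z ∈ Ω, ‖α j z‖ ≤ B)
    (hαc : ∀ j k, ∀ z ∈ Ω, dbar j (α k) z = dbar k (α j) z) :
    ∃ u : En n → ℂ, LocallyIntegrableOn u Ω ∧ ∀ θ : En n → ℂ, IsTest Ω θ → ∀ j,
      ∫ z in Ω, u z * dbar j θ z = - ∫ z in Ω, α j z * θ z := by
  obtain ⟨C, hC0, hC⟩ := hor_dual W hα hαB hαc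
  have hb : ∀ v, ‖h46Fun W.opn hα v‖ ≤ Real.sqrt C * ‖h46Lin W v‖ := by
    intro v
    have h1 := hC v.1 v.2
    have h2 : ‖h46Fun W.opn hα v‖ ^ 2 ≤ C * ‖h46Lin W v‖ ^ 2 := by
      have e1 : ‖h46Fun W.opn hα v‖ = ‖∫ z in Ω, ∑ j, α j z * (v : Fin n → En n → ℂ) j z‖ :=
        norm_neg _
      have e2 : ‖h46Lin W v‖ ^ 2 =
          ∫ z in Ω, ‖∑ j, dbar j ((v : Fin n → En n → ℂ) j) z‖ ^ 2 *
            Real.exp (φ z - 2 * ψ z) := by
        rw [h46_norm_sq]
        refine integral_congr_ae ?_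
        have h3 : (h46Lin W v : En n → ℂ) =ᵐ[volume.restrict Ω]
          fun z => h46D (v : Fin n → En n → ℂ) z * h46s φ ψ z := h46L_coe (h46sD_memLp W v.2)
        filter_upwards [h3] with z hz
        rw [hz, norm_mul, mul_pow]
        congr 1
        unfold h46s
        rw [Complex.norm_real, Real.norm_eq_abs, abs_of_pos (Real.exp_pos _),
          ← Real.exp_nat_mul]
        congr 1
        push_cast
        ring
      rw [e1, e2]
      exact h1
    have h4 : ‖h46Fun W.opn hα v‖ ^ 2 ≤ (Real.sqrt C * ‖h46Lin W v‖) ^ 2 := by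
      rw [mul_pow, Real.sq_sqrt hC0]
      exact h2
    exact le_of_sq_le_sq h4 (by positivity)
  obtain ⟨w, hw⟩ := h46_riesz (h46Lin W) (h46Fun W.opn hα) _ hb
  refine ⟨fun z => (starRingEnd ℂ) ((w : En n → ℂ) z) * h46s φ ψ z, ?_, ?_⟩
  · have h1 : LocallyIntegrableOn (fun z => (starRingEnd ℂ) ((w : En n → ℂ) z)) Ω := by
      have h2 : MemLp (fun z => (starRingEnd ℂ) ((w : En n → ℂ) z)) 2
          (volume.restrict Ω : Measure (En n)) := (Lp.memLp w).star
      exact locallyIntegrableOn_of_locallyIntegrable_restrict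
        (h2.locallyIntegrable (by norm_num))
    exact h1.mul_continuousOn (h46s_smooth W).continuousOn W.opn.isLocallyClosed
  · intro θ hθ j
    classical
    have hmem : ∀ i, IsTest Ω ((Pi.single j θ : Fin n → En n → ℂ) i) := by
      intro i
      by_cases hi : i = j
      · subst hi; simpa using hθ
      · rw [Pi.single_eq_of_ne hi]; exact h46_zero Ω
    have h1 := hw ⟨Pi.single j θ, hmem⟩
    have h2 : h46Fun W.opn hα ⟨Pi.single j θ, hmem⟩ = - ∫ z in Ω, α j z * θ z := by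
      show - ∫ z in Ω, ∑ i, α i z * (Pi.single j θ : Fin n → En n → ℂ) i z = _
      congr 1
      refine integral_congr_ae (Eventually.of_forall fun z => ?_)
      show ∑ i, α i z * (Pi.single j θ : Fin n → En n → ℂ) i z = α j z * θ z
      rw [Finset.sum_eq_single j]
      · simp
      · intro i _ hi; rw [Pi.single_eq_of_ne hi]; simp
      · simp
    have h3 : inner ℂ w (h46Lin W ⟨Pi.single j θ, hmem⟩) =
        ∫ z in Ω, (starRingEnd ℂ) ((w : En n → ℂ) z) * h46s φ ψ z * dbar j θ z := by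
      rw [MeasureTheory.L2.inner_def]
      refine integral_congr_ae ?_
      have h4 : (h46Lin W ⟨Pi.single j θ, hmem⟩ : En n → ℂ) =ᵐ[volume.restrict Ω]
          fun z => h46D (Pi.single j θ : Fin n → En n → ℂ) z * h46s φ ψ z :=
        h46L_coe (h46sD_memLp W hmem)
      filter_upwards [h4] with z hz
      rw [hz, RCLike.inner_apply]
      have h5 : h46D (Pi.single j θ : Fin n → En n → ℂ) z = dbar j θ z := by
        unfold h46D
        rw [Finset.sum_eq_single j]
        · simp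
        · intro i _ hi
          rw [Pi.single_eq_of_ne hi]
          exact dbar_const i 0 z
        · simp
      rw [h5]
      ring
    rw [← h3, ← h1, h2]

end Pool.Agent.H8.FZ
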