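import Pool.Agent.H8.FZ.Calc

/-!
# Hörmander's `L²` method for (0,1)-forms: set-up

Weights: `φ, ψ` smooth on the open set `Ω`. `L²`-norms: `∫ |v|² e^{ψ-φ}` for (0,1)-forms,
`∫ |·|² e^{-φ}` for the divergence and for (0,2)-forms.
-/

set_option autoImplicit false

noncomputable section

namespace Pool.Agent.H8.FZ

open Complex Metric MeasureTheory Set Filter Topology
open scoped ContDiff ComplexConjugate

variable {n : ℕ}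

/-- Test functions on `Ω`. -/
def IsTest (Ω : Set (En n)) (θ : En n → ℂ) : Prop :=
  ContDiff ℝ ∞ θ ∧ HasCompactSupport θ ∧ tsupport θ ⊆ Ω

/-- `∂_j(φ-ψ)`. -/
def dw (φ ψ : En n → ℝ) (j : Fin n) (z : En n) : ℂ :=
  del j (fun x => ((φ x - ψ x : ℝ) : ℂ)) z

/-- The (weighted) divergence `∑_j (∂_j f_j - f_j ∂_j(φ-ψ))` (up to the factor `-e^{-ψ}` the adjoint
of `∂̄`). -/
def Dv (φ ψ : En n → ℝ) (f : Fin n → En n → ℂ) (z : En n) : ℂ :=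
  ∑ j, (del j (f j) z - f j z * dw φ ψ j z)

/-- The weight conditions. -/
structure Wt (Ω : Set (En n)) (φ ψ : En n → ℝ) : Prop where
  opn : IsOpen Ω
  bdd : Bornology.IsBounded Ω
  hφ : ContDiffOn ℝ ∞ φ Ω
  hψ : ContDiffOn ℝ ∞ ψ Ω
  le : ∀ z ∈ Ω, ψ z ≤ φ z
  levi : ∀ z ∈ Ω, ∀ w : En n, 2 * (delSq ψ z + Real.exp (ψ z)) * ‖w‖ ^ 2 ≤ levi φ z w
  /-- completeness: exhausting cut-offs with `|∂η|² ≤ e^ψ` -/
  cut : ∃ η : ℕ → En n → ℝ, (∀ i, ContDiff ℝ ∞ (η i) ∧ HasCompactSupport (η i) ∧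
      tsupport (η i) ⊆ Ω ∧ (∀ z, 0 ≤ η i z ∧ η i z ≤ 1) ∧
      ∀ z ∈ Ω, delSq (η i) z ≤ Real.exp (ψ z)) ∧
    ∀ z ∈ Ω, ∀ᶠ i in atTop, η i =ᶠ[𝓝 z] fun _ => 1

end Pool.Agent.H8.FZ
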