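import Pool.Agent.H8.FZ.Defs

/-!
# FZ-SING: a singular integral, uniform in a linear form

`n ≥ 2`. Claim: `∫_{|w| ≤ 2} (|w|² + |⟨v,w⟩|)^{-(n+3/4)} dw ≤ C(κ)` for all `v` with some
`|v_{j₀}| ≥ κ`.

Proof. For fixed `j₀`, with the exponents `β = 15/8` and `γ = 2 - 1/(4(n-1)) < 2`,
`β + (n-1)γ/2·… `: precisely (|w|² + |⟨v,w⟩|)^{n+3/4} ≥ |⟨v,w⟩|^{15/8} ∏_{j ≠ j₀} |w_j|^{γ}, because
`15/8 + (n-1) γ/2 = 15/8 + (n-1) - 1/8 = n + 3/4` and each `|w_j|² ≤ T`, `|⟨v,w⟩| ≤ T`,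
`T = |w|² + |⟨v,w⟩|`. (If the right side is `0`, i.e. some `w_j = 0` or `⟨v,w⟩ = 0`, we are on a null
set.) So the integral is at most `∫ ∏ …` over the polydisc `{|w_j| ≤ 2}`. Integrate first over the
coordinate `w_{j₀}` (Tonelli): `∫_{|t| ≤ 2} |v_{j₀} t + c|^{-15/8} dt ≤ κ^{-15/8}
∫_{|t| ≤ 2} |t + c/v_{j₀}|^{-15/8} dt ≤ κ^{-15/8} sup_b ∫_{|t|≤2} |t + b|^{-15/8} dt`, and
`∫_{|t|≤2}|t+b|^{-15/8} ≤ ∫_{|t| ≤ 1}|t|^{-15/8} + |{|t| ≤ 2}|` for every `b`; then the remaining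
factors `∫_{|t| ≤ 2} |t|^{-γ} dt < ∞` (`γ < 2`; polar coordinates or
`Complex.integral_rpow_mul_exp…`-type lemmas, or dyadic annuli; only finiteness is needed).

The Haar measure `volume` on `En n = EuclideanSpace ℂ (Fin n)` is a finite constant times the image
of `Measure.pi` under the equivalence with `Fin n → ℂ` (`isAddHaarMeasure_eq_smul`).
One can first prove the statement for a fixed `j₀` and then take the sum of the finitely many
constants. (Alternatively use a linear change of variables with `w_{j₀}` replaced by `⟨v,w⟩`.)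
-/

set_option autoImplicit false

noncomputable section

namespace Pool.Agent.H8.FZ

open Complex Metric MeasureTheory Set Filter Topology
open scoped ContDiff ComplexConjugate ENNReal

variable {n : ℕ}

lemma sing_anti {x y : ℝ≥0∞} {z : ℝ} (hz : 0 ≤ z) (h : x ≤ y) : y ^ (-z) ≤ x ^ (-z) := by
  rw [ENNReal.rpow_neg, ENNReal.rpow_neg]
  exact ENNReal.inv_le_inv.2 (ENNReal.rpow_le_rpow h hz)

lemma sing_one {γ : ℝ} (hγ : γ < 2) : ∫⁻ t in ball (0 : ℂ) 2, ‖t‖ₑ ^ (-γ) < ⊤ := by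
  have h1 : IntegrableOn (fun t : ℂ => ‖t‖ ^ (-γ)) (ball (0 : ℂ) 2) := by
    refine integrableOn_ball_of_norm_le_rpow (E := ℂ) (C := 1) (α := γ) (r := 2) ?_ ?_ ?_ ?_
    · rw [Complex.finrank_real_complex]
      norm_num
    · rw [Complex.finrank_real_complex]
      exact_mod_cast hγ
    · filter_upwards with x
      rw [one_mul, Real.norm_of_nonneg (Real.rpow_nonneg (norm_nonneg x) _)]
    · exact (measurable_norm.pow_const _).aestronglyMeasurable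
  have h2 := h1.lintegral_lt_top
  refine lt_of_le_of_lt (lintegral_mono_ae ?_) h2
  refine ae_restrict_of_ae ?_
  have h3 : ∀ᵐ t : ℂ, t ≠ 0 := by
    rw [ae_iff]
    simp
  filter_upwards [h3] with t ht
  rw [← ENNReal.ofReal_rpow_of_pos (norm_pos_iff.2 ht), ofReal_norm]

lemma sing_shift {β : ℝ} (hβ0 : 0 ≤ β) (hβ : β < 2) : ∃ C : ℝ≥0∞, C ≠ ⊤ ∧ ∀ b : ℂ,
    ∫⁻ t in ball (0 : ℂ) 2, ‖t + b‖ₑ ^ (-β) ≤ C := by
  refine ⟨(∫⁻ t in ball (0 : ℂ) 2, ‖t‖ₑ ^ (-β)) + volume (ball (0 : ℂ) 2), ?_, ?_⟩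
  · exact ENNReal.add_ne_top.2 ⟨(sing_one hβ).ne, measure_ball_lt_top.ne⟩
  · intro b
    set G : ℂ → ℝ≥0∞ := (ball (0 : ℂ) 2).indicator (fun s => ‖s‖ₑ ^ (-β)) with hG
    have h1 : ∀ t : ℂ, ‖t + b‖ₑ ^ (-β) ≤ G (t + b) + 1 := by
      intro t
      by_cases h : t + b ∈ ball (0 : ℂ) 2
      · rw [hG, Set.indicator_of_mem h]
        exact le_self_add
      · rw [hG, Set.indicator_of_notMem h, zero_add]
        have h2 : (1 : ℝ≥0∞) ≤ ‖t + b‖ₑ := by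
          rw [← ofReal_norm, ENNReal.one_le_ofReal]
          rw [mem_ball_zero_iff, not_lt] at h
          linarith
        have h3 := sing_anti hβ0 h2
        rwa [ENNReal.one_rpow] at h3
    calc ∫⁻ t in ball (0 : ℂ) 2, ‖t + b‖ₑ ^ (-β)
        ≤ ∫⁻ t in ball (0 : ℂ) 2, (G (t + b) + 1) := lintegral_mono fun t => h1 t
      _ = (∫⁻ t in ball (0 : ℂ) 2, G (t + b)) + volume (ball (0 : ℂ) 2) := by
          rw [lintegral_add_right _ measurable_const, lintegral_one,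
            Measure.restrict_apply_univ]
      _ ≤ (∫⁻ t, G (t + b)) + volume (ball (0 : ℂ) 2) := by
          gcongr
          exact Measure.restrict_le_self
      _ = (∫⁻ t in ball (0 : ℂ) 2, ‖t‖ₑ ^ (-β)) + volume (ball (0 : ℂ) 2) := by
          rw [lintegral_add_right_eq_self, hG, lintegral_indicator measurableSet_ball]

lemma sing_lin {β : ℝ} (hβ0 : 0 ≤ β) (hβ : β < 2) {κ : ℝ} (hκ : 0 < κ) :
    ∃ C : ℝ≥0∞, C ≠ ⊤ ∧ ∀ a c : ℂ, κ ≤ ‖a‖ →
      ∫⁻ t in ball (0 : ℂ) 2, ‖a * t + c‖ₑ ^ (-β) ≤ C := by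
  obtain ⟨C, hC, h1⟩ := sing_shift hβ0 hβ
  refine ⟨(ENNReal.ofReal κ) ^ (-β) * C, ENNReal.mul_ne_top ?_ hC, ?_⟩
  · rw [ENNReal.ofReal_rpow_of_pos hκ]
    exact ENNReal.ofReal_ne_top
  · intro a c ha
    have ha0 : a ≠ 0 := by
      rintro rfl
      rw [norm_zero] at ha
      linarith
    have h2 : ∀ t : ℂ, ‖a * t + c‖ₑ ^ (-β) ≤ (ENNReal.ofReal κ) ^ (-β) * ‖t + c / a‖ₑ ^ (-β) := by
      intro t
      have h3 : a * t + c = a * (t + c / a) := by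
        field_simp
      rw [h3, enorm_mul, ENNReal.mul_rpow_of_ne_top enorm_ne_top enorm_ne_top]
      refine mul_le_mul_left (sing_anti hβ0 ?_) _
      rw [← ofReal_norm]
      exact ENNReal.ofReal_le_ofReal ha
    calc ∫⁻ t in ball (0 : ℂ) 2, ‖a * t + c‖ₑ ^ (-β)
        ≤ ∫⁻ t in ball (0 : ℂ) 2, (ENNReal.ofReal κ) ^ (-β) * ‖t + c / a‖ₑ ^ (-β) :=
          lintegral_mono fun t => h2 t
      _ = (ENNReal.ofReal κ) ^ (-β) * ∫⁻ t in ball (0 : ℂ) 2, ‖t + c / a‖ₑ ^ (-β) := by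
          rw [lintegral_const_mul]
          fun_prop
      _ ≤ (ENNReal.ofReal κ) ^ (-β) * C := by
          gcongr
          exact h1 _

lemma sing_prod {H : ℂ → ℝ≥0∞} (hH : Measurable H) (hfin : ∫⁻ t, H t < ⊤) (m : ℕ) :
    ∫⁻ z : Fin m → ℂ, ∏ i, H (z i) < ⊤ := by
  induction m with
  | zero => simp [volume_pi]
  | succ m ih =>
    have h1 := (volume_preserving_piFinSuccAbove (fun _ : Fin (m + 1) => ℂ) 0).symm
    rw [← h1.lintegral_comp_emb (MeasurableEquiv.measurableEmbedding _)]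
    have h2 : ∀ x : ℂ × (Fin m → ℂ),
        ∏ i, H ((MeasurableEquiv.piFinSuccAbove (fun _ : Fin (m + 1) => ℂ) 0).symm x i)
          = H x.1 * ∏ i, H (x.2 i) := by
      intro x
      rw [Fin.prod_univ_succ]
      rfl
    simp_rw [h2]
    have h3 : Measurable fun z : Fin m → ℂ => ∏ i, H (z i) := by fun_prop
    rw [Measure.volume_eq_prod]
    refine (lintegral_prod_mul (g := fun z : Fin m → ℂ => ∏ i, H (z i)) hH.aemeasurable
      h3.aemeasurable).trans_lt ?_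
    exact ENNReal.mul_lt_top hfin ih

/-- the dominating function -/
def singF (m : ℕ) (j₀ : Fin (m + 1)) (v : Fin (m + 1) → ℂ) (y : Fin (m + 1) → ℂ) : ℝ≥0∞ :=
  ‖∑ j, v j * y j‖ₑ ^ (-(15 / 8 : ℝ)) * ∏ i : Fin m, ‖y (j₀.succAbove i)‖ₑ ^
    (-(2 - 1 / (4 * m) : ℝ))

lemma sing_le {m : ℕ} (hm : 1 ≤ m) (j₀ : Fin (m + 1)) (v : Fin (m + 1) → ℂ) (w : En (m + 1)) :
    ENNReal.ofReal ((‖w‖ ^ 2 + ‖pr v w‖) ^ (-(((m + 1 : ℕ) : ℝ) + 3 / 4)))
      ≤ singF m j₀ v (WithLp.ofLp w) := by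
  have hm' : (0 : ℝ) < m := by exact_mod_cast hm
  set T : ℝ := ‖w‖ ^ 2 + ‖pr v w‖ with hT
  have hT0 : 0 ≤ T := by positivity
  rcases hT0.eq_or_lt with h0 | hpos
  · rw [← h0, Real.zero_rpow, ENNReal.ofReal_zero]
    · exact zero_le
    · push_cast
      linarith
  · rw [← ENNReal.ofReal_rpow_of_pos hpos]
    set U : ℝ≥0∞ := ENNReal.ofReal T with hU
    have hU0 : U ≠ 0 := by
      rw [hU]
      exact (ENNReal.ofReal_pos.2 hpos).ne'
    have hU1 : U ≠ ⊤ := ENNReal.ofReal_ne_top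
    have hg : (0 : ℝ) ≤ 1 - 1 / (8 * m) := by
      have h1 : (1 : ℝ) ≤ m := by exact_mod_cast hm
      have h2 : 1 / (8 * (m : ℝ)) ≤ 1 := by
        rw [div_le_one (by positivity)]
        linarith
      linarith
    have e1 : U ^ (-(((m + 1 : ℕ) : ℝ) + 3 / 4))
        = U ^ (-(15 / 8 : ℝ)) * ∏ _i : Fin m, U ^ (-(1 - 1 / (8 * m) : ℝ)) := by
      rw [Finset.prod_const, Finset.card_univ, Fintype.card_fin, ← ENNReal.rpow_natCast,
        ← ENNReal.rpow_mul, ← ENNReal.rpow_add _ _ hU0 hU1]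
      congr 1
      push_cast
      field_simp
      ring
    rw [e1, singF]
    refine mul_le_mul' ?_ (Finset.prod_le_prod' fun i _ => ?_)
    · refine sing_anti (by norm_num) ?_
      rw [hU, ← ofReal_norm]
      apply ENNReal.ofReal_le_ofReal
      have : (0 : ℝ) ≤ ‖w‖ ^ 2 := by positivity
      have h2 : ‖∑ j, v j * w j‖ = ‖pr v w‖ := rfl
      show ‖∑ j, v j * w j‖ ≤ T
      rw [h2, hT]
      linarith
    · have e2 : ‖w (j₀.succAbove i)‖ₑ ^ (-(2 - 1 / (4 * m) : ℝ))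
          = (‖w (j₀.succAbove i)‖ₑ ^ (2 : ℝ)) ^ (-(1 - 1 / (8 * m) : ℝ)) := by
        rw [← ENNReal.rpow_mul]
        congr 1
        field_simp
        ring
      show U ^ (-(1 - 1 / (8 * m) : ℝ)) ≤ ‖w (j₀.succAbove i)‖ₑ ^ (-(2 - 1 / (4 * m) : ℝ))
      rw [e2]
      refine sing_anti hg ?_
      rw [hU, ← ofReal_norm, ENNReal.ofReal_rpow_of_nonneg (norm_nonneg _) (by norm_num)]
      apply ENNReal.ofReal_le_ofReal
      have h2 : ‖w (j₀.succAbove i)‖ ≤ ‖w‖ := PiLp.norm_apply_le w _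
      have h3 : ‖w (j₀.succAbove i)‖ ^ 2 ≤ ‖w‖ ^ 2 := by
        gcongr
      have h4 : (0 : ℝ) ≤ ‖pr v w‖ := norm_nonneg _
      have h5 : ‖w (j₀.succAbove i)‖ ^ (2 : ℝ) = ‖w (j₀.succAbove i)‖ ^ 2 := by
        norm_cast
      rw [h5, hT]
      linarith

lemma measurable_singF (m : ℕ) (j₀ : Fin (m + 1)) (v : Fin (m + 1) → ℂ) :
    Measurable (singF m j₀ v) := by
  unfold singF
  fun_prop

/-- the integral of the dominating function over the polydisc -/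
lemma sing_pi {m : ℕ} (hm : 1 ≤ m) (j₀ : Fin (m + 1)) {κ : ℝ} (hκ : 0 < κ) :
    ∃ C : ℝ≥0∞, C ≠ ⊤ ∧ ∀ v : Fin (m + 1) → ℂ, κ ≤ ‖v j₀‖ →
      ∫⁻ y in {y : Fin (m + 1) → ℂ | ∀ i, y i ∈ ball (0 : ℂ) 2}, singF m j₀ v y ≤ C := by
  have hm' : (0 : ℝ) < m := by exact_mod_cast hm
  obtain ⟨C, hC, h1⟩ := sing_lin (β := 15 / 8) (by norm_num) (by norm_num) hκ
  set H : ℂ → ℝ≥0∞ := (ball (0 : ℂ) 2).indicator (fun s => ‖s‖ₑ ^ (-(2 - 1 / (4 * m) : ℝ)))
    with hH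
  have hHm : Measurable H := by
    rw [hH]
    exact Measurable.indicator (by fun_prop) measurableSet_ball
  have hHfin : ∫⁻ t, H t < ⊤ := by
    rw [hH, lintegral_indicator measurableSet_ball]
    apply sing_one
    have : (0 : ℝ) < 1 / (4 * m) := by positivity
    linarith
  refine ⟨C * ∫⁻ z : Fin m → ℂ, ∏ i, H (z i), ENNReal.mul_ne_top hC (sing_prod hHm hHfin m).ne,
    ?_⟩
  intro v hv
  have hset : MeasurableSet {y : Fin (m + 1) → ℂ | ∀ i, y i ∈ ball (0 : ℂ) 2} := by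
    have : {y : Fin (m + 1) → ℂ | ∀ i, y i ∈ ball (0 : ℂ) 2}
        = Set.univ.pi fun _ => ball (0 : ℂ) 2 := by
      ext y
      simp
    rw [this]
    exact MeasurableSet.univ_pi fun _ => measurableSet_ball
  rw [← lintegral_indicator hset]
  have h2 := (volume_preserving_piFinSuccAbove (fun _ : Fin (m + 1) => ℂ) j₀).symm
  have h4 : Measurable fun a : ℂ × (Fin m → ℂ) =>
      {y : Fin (m + 1) → ℂ | ∀ i, y i ∈ ball (0 : ℂ) 2}.indicator (singF m j₀ v)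
        ((MeasurableEquiv.piFinSuccAbove (fun _ : Fin (m + 1) => ℂ) j₀).symm a) :=
    ((measurable_singF m j₀ v).indicator hset).comp (MeasurableEquiv.measurable _)
  rw [← h2.lintegral_comp_emb (MeasurableEquiv.measurableEmbedding _), Measure.volume_eq_prod,
    lintegral_prod_symm' _ h4]
  have h3 : ∀ (z : Fin m → ℂ) (t : ℂ),
      {y : Fin (m + 1) → ℂ | ∀ i, y i ∈ ball (0 : ℂ) 2}.indicator (singF m j₀ v)
        ((MeasurableEquiv.piFinSuccAbove (fun _ : Fin (m + 1) => ℂ) j₀).symm (t, z))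
      ≤ (ball (0 : ℂ) 2).indicator (fun t =>
          ‖v j₀ * t + ∑ i : Fin m, v (j₀.succAbove i) * z i‖ₑ ^ (-(15 / 8 : ℝ))) t
          * ∏ i, H (z i) := by
    intro z t
    set y : Fin (m + 1) → ℂ :=
      (MeasurableEquiv.piFinSuccAbove (fun _ : Fin (m + 1) => ℂ) j₀).symm (t, z) with hy
    have y0 : y j₀ = t := by
      rw [hy]
      simp [MeasurableEquiv.piFinSuccAbove_symm_apply, Fin.insertNthEquiv]
    have y1 : ∀ i, y (j₀.succAbove i) = z i := by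
      intro i
      rw [hy]
      simp [MeasurableEquiv.piFinSuccAbove_symm_apply, Fin.insertNthEquiv]
    by_cases h : y ∈ {y : Fin (m + 1) → ℂ | ∀ i, y i ∈ ball (0 : ℂ) 2}
    · have ht : t ∈ ball (0 : ℂ) 2 := y0 ▸ h j₀
      have hz : ∀ i, z i ∈ ball (0 : ℂ) 2 := fun i => y1 i ▸ h (j₀.succAbove i)
      rw [Set.indicator_of_mem h, Set.indicator_of_mem ht, singF]
      refine mul_le_mul' ?_ (Finset.prod_le_prod' fun i _ => ?_)
      · rw [Fin.sum_univ_succAbove _ j₀, y0]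
        simp_rw [y1]
        exact le_rfl
      · rw [hH, Set.indicator_of_mem (hz i), y1]
    · rw [Set.indicator_of_notMem h]
      exact zero_le
  calc ∫⁻ z, ∫⁻ t, {y : Fin (m + 1) → ℂ | ∀ i, y i ∈ ball (0 : ℂ) 2}.indicator (singF m j₀ v)
        ((MeasurableEquiv.piFinSuccAbove (fun _ : Fin (m + 1) => ℂ) j₀).symm (t, z))
      ≤ ∫⁻ z : Fin m → ℂ, ∫⁻ t, (ball (0 : ℂ) 2).indicator (fun t =>
          ‖v j₀ * t + ∑ i : Fin m, v (j₀.succAbove i) * z i‖ₑ ^ (-(15 / 8 : ℝ))) t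
          * ∏ i, H (z i) := lintegral_mono fun z => lintegral_mono fun t => h3 z t
    _ ≤ ∫⁻ z : Fin m → ℂ, C * ∏ i, H (z i) := by
        refine lintegral_mono fun z => ?_
        rw [lintegral_mul_const _ (Measurable.indicator (by fun_prop) measurableSet_ball),
          lintegral_indicator measurableSet_ball]
        gcongr
        exact h1 _ _ hv
    _ = C * ∫⁻ z : Fin m → ℂ, ∏ i, H (z i) := by
        rw [lintegral_const_mul]
        fun_prop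

/-- comparison of the two measures -/
lemma sing_meas (n : ℕ) : ∃ c : ℝ≥0∞, c ≠ ⊤ ∧ ∀ f : (Fin n → ℂ) → ℝ≥0∞, Measurable f →
    ∫⁻ w : En n, f (WithLp.ofLp w) = c * ∫⁻ y, f y := by
  let e := PiLp.continuousLinearEquiv 2 ℝ (fun _ : Fin n => ℂ)
  have hh : (Measure.map e (volume : Measure (En n))).IsAddHaarMeasure :=
    e.isAddHaarMeasure_map volume
  obtain ⟨c, h1⟩ : ∃ c : NNReal, Measure.map e (volume : Measure (En n))
      = c • (volume : Measure (Fin n → ℂ)) := ⟨_, Measure.isAddLeftInvariant_eq_smul _ _⟩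
  refine ⟨(c : ℝ≥0∞), ENNReal.coe_ne_top, ?_⟩
  intro f hf
  have h2 : ∫⁻ w : En n, f (WithLp.ofLp w) = ∫⁻ y, f y ∂(Measure.map e volume) := by
    rw [lintegral_map hf e.continuous.measurable]
    rfl
  rw [h2, h1, lintegral_smul_measure]
  rfl

theorem sing_fixed {m : ℕ} (hm : 1 ≤ m) (j₀ : Fin (m + 1)) {κ : ℝ} (hκ : 0 < κ) :
    ∃ C : ℝ≥0∞, C ≠ ⊤ ∧ ∀ v : Fin (m + 1) → ℂ, κ ≤ ‖v j₀‖ →
      ∫⁻ w in ball (0 : En (m + 1)) 2,
        ENNReal.ofReal ((‖w‖ ^ 2 + ‖pr v w‖) ^ (-(((m + 1 : ℕ) : ℝ) + 3 / 4))) ≤ C := by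
  obtain ⟨C, hC, h1⟩ := sing_pi hm j₀ hκ
  obtain ⟨c, hc, h2⟩ := sing_meas (m + 1)
  refine ⟨c * C, ENNReal.mul_ne_top hc hC, ?_⟩
  intro v hv
  have hset : MeasurableSet {y : Fin (m + 1) → ℂ | ∀ i, y i ∈ ball (0 : ℂ) 2} := by
    have : {y : Fin (m + 1) → ℂ | ∀ i, y i ∈ ball (0 : ℂ) 2}
        = Set.univ.pi fun _ => ball (0 : ℂ) 2 := by
      ext y
      simp
    rw [this]
    exact MeasurableSet.univ_pi fun _ => measurableSet_ball
  calc ∫⁻ w in ball (0 : En (m + 1)) 2,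
        ENNReal.ofReal ((‖w‖ ^ 2 + ‖pr v w‖) ^ (-(((m + 1 : ℕ) : ℝ) + 3 / 4)))
      ≤ ∫⁻ w : En (m + 1), {y : Fin (m + 1) → ℂ | ∀ i, y i ∈ ball (0 : ℂ) 2}.indicator
          (singF m j₀ v) (WithLp.ofLp w) := by
        rw [← lintegral_indicator measurableSet_ball]
        refine lintegral_mono fun w => ?_
        by_cases h : w ∈ ball (0 : En (m + 1)) 2
        · rw [Set.indicator_of_mem h]
          have h3 : WithLp.ofLp w ∈ {y : Fin (m + 1) → ℂ | ∀ i, y i ∈ ball (0 : ℂ) 2} := by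
            intro i
            rw [mem_ball_zero_iff] at h ⊢
            exact (PiLp.norm_apply_le w i).trans_lt h
          rw [Set.indicator_of_mem h3]
          exact sing_le hm j₀ v w
        · rw [Set.indicator_of_notMem h]
          exact zero_le
    _ = c * ∫⁻ y in {y : Fin (m + 1) → ℂ | ∀ i, y i ∈ ball (0 : ℂ) 2}, singF m j₀ v y := by
        rw [h2 _ ((measurable_singF m j₀ v).indicator hset), lintegral_indicator hset]
    _ ≤ c * C := by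
        gcongr
        exact h1 v hv

theorem sing_integral (n : ℕ) (hn : 2 ≤ n) (κ : ℝ) (hκ : 0 < κ) :
    ∃ C : ℝ, 0 < C ∧ ∀ v : Fin n → ℂ, (∃ j, κ ≤ ‖v j‖) →
      ∫⁻ w in ball (0 : En n) 2,
        ENNReal.ofReal ((‖w‖ ^ 2 + ‖pr v w‖) ^ (-((n : ℝ) + 3 / 4))) ≤ ENNReal.ofReal C := by
  obtain ⟨m, rfl⟩ : ∃ m, n = m + 1 := ⟨n - 1, by omega⟩
  have hm : 1 ≤ m := by omega
  choose C hC h1 using fun j₀ : Fin (m + 1) => sing_fixed hm j₀ hκ
  have hsum : ∑ j, C j ≠ ⊤ := ENNReal.sum_ne_top.2 fun j _ => hC j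
  refine ⟨(∑ j, C j).toReal + 1, by positivity, ?_⟩
  rintro v ⟨j, hj⟩
  refine (h1 j v hj).trans ?_
  refine (Finset.single_le_sum (f := C) (fun i _ => zero_le) (Finset.mem_univ j)).trans ?_
  rw [← ENNReal.ofReal_toReal hsum]
  apply ENNReal.ofReal_le_ofReal
  rw [ENNReal.toReal_ofReal ENNReal.toReal_nonneg]
  linarith

end Pool.Agent.H8.FZ
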