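import Pool.Agent.H8.FZ.LBasic
import Pool.Agent.H8.FZ.Sing

/-!
# FZ-INTL: integrability of `|L(ζ,z')|^{-(n+3/4)}` uniformly in `z'`

By `norm_L_ge`, `‖L ζ z'‖ ≥ c'(‖w‖² + ‖⟨q(z'),w⟩‖)`, `w = ζ - z'`, so
`‖L‖^{-(n+3/4)} ≤ c'^{-(n+3/4)} (‖w‖²+‖⟨q(z'),w⟩‖)^{-(n+3/4)}` for `w ≠ 0`; translate by `z'`
(`S ⊆ z' + ball 0 2` since `ε ≤ 1`) and apply `sing_integral` with `v = q(z')` and the `κ` of
`exists_q_ge`.
-/

set_option autoImplicit false

noncomputable section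

namespace Pool.Agent.H8.FZ

open Complex Metric MeasureTheory Set Filter Topology
open scoped ContDiff ComplexConjugate ENNReal

variable {n : ℕ}

namespace LData

variable (D : LData n)

theorem int_L_aux (hn : 2 ≤ n) : ∃ C : ℝ, 0 < C ∧ ∀ z' ∈ D.S,
    ∫⁻ ζ in D.S, ENNReal.ofReal (‖D.L ζ z'‖ ^ (-((n : ℝ) + 3 / 4))) ≤ ENNReal.ofReal C := by
  obtain ⟨κ, hκ, hq⟩ := D.exists_q_ge
  obtain ⟨C, hC, hint⟩ := sing_integral n hn κ hκ
  obtain ⟨c', hc', -, hL⟩ := D.norm_L_ge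
  have hp : -((n : ℝ) + 3 / 4) < 0 := by
    have : (0 : ℝ) ≤ (n : ℝ) := Nat.cast_nonneg n
    linarith
  refine ⟨c' ^ (-((n : ℝ) + 3 / 4)) * C, mul_pos (Real.rpow_pos_of_pos hc' _) hC, ?_⟩
  intro z' hz'
  haveI : Nonempty (Fin n) := ⟨⟨0, by omega⟩⟩
  have hz'a : 0 ≤ D.a z' := by
    have := hz'.2
    unfold LData.a
    linarith
  have hcont : Continuous (fun w : En n => ‖w‖ ^ 2 + ‖pr (D.q z') w‖) := by
    unfold pr
    fun_prop
  have hmeas : Measurable (fun w : En n =>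
      ENNReal.ofReal (c' ^ (-((n : ℝ) + 3 / 4)) *
        (‖w‖ ^ 2 + ‖pr (D.q z') w‖) ^ (-((n : ℝ) + 3 / 4)))) :=
    ((hcont.measurable.pow_const _).const_mul _).ennreal_ofReal
  have hmeas' : Measurable (fun w : En n =>
      ENNReal.ofReal ((‖w‖ ^ 2 + ‖pr (D.q z') w‖) ^ (-((n : ℝ) + 3 / 4)))) :=
    (hcont.measurable.pow_const _).ennreal_ofReal
  have hsub : D.S ⊆ (fun ζ => ζ - z') ⁻¹' (ball (0 : En n) 2) := by
    intro ζ hζ
    have h1 := hζ.1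
    have h2 := hz'.1
    have h3 := D.hε1
    rw [mem_ball_zero_iff] at h1 h2
    rw [mem_preimage, mem_ball_zero_iff]
    calc ‖ζ - z'‖ ≤ ‖ζ‖ + ‖z'‖ := norm_sub_le _ _
      _ < 2 := by linarith
  calc ∫⁻ ζ in D.S, ENNReal.ofReal (‖D.L ζ z'‖ ^ (-((n : ℝ) + 3 / 4)))
      ≤ ∫⁻ ζ in D.S, ENNReal.ofReal (c' ^ (-((n : ℝ) + 3 / 4)) *
          (‖ζ - z'‖ ^ 2 + ‖pr (D.q z') (ζ - z')‖) ^ (-((n : ℝ) + 3 / 4))) := by
        apply lintegral_mono_ae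
        have hne : ∀ᵐ ζ ∂(volume.restrict D.S), ζ ≠ z' := by
          apply ae_restrict_of_ae
          rw [ae_iff]
          simp
        filter_upwards [ae_restrict_mem D.isOpen_S.measurableSet, hne] with ζ hζ hζne
        apply ENNReal.ofReal_le_ofReal
        have hζa : 0 ≤ D.a ζ := by
          have := hζ.2
          unfold LData.a
          linarith
        have hpos : 0 < ‖ζ - z'‖ ^ 2 + ‖pr (D.q z') (ζ - z')‖ := by
          have : 0 < ‖ζ - z'‖ := norm_pos_iff.2 (sub_ne_zero.2 hζne)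
          positivity
        rw [← Real.mul_rpow hc'.le hpos.le]
        apply Real.rpow_le_rpow_of_nonpos (mul_pos hc' hpos) _ hp.le
        refine le_trans ?_ (hL ζ z' hζ.1 hz'.1 hζa hz'a)
        apply mul_le_mul_of_nonneg_left _ hc'.le
        linarith
    _ ≤ ∫⁻ ζ in (fun ζ => ζ - z') ⁻¹' (ball (0 : En n) 2),
          ENNReal.ofReal (c' ^ (-((n : ℝ) + 3 / 4)) *
          (‖ζ - z'‖ ^ 2 + ‖pr (D.q z') (ζ - z')‖) ^ (-((n : ℝ) + 3 / 4))) :=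
        lintegral_mono_set hsub
    _ = ∫⁻ w in ball (0 : En n) 2, ENNReal.ofReal (c' ^ (-((n : ℝ) + 3 / 4)) *
          (‖w‖ ^ 2 + ‖pr (D.q z') w‖) ^ (-((n : ℝ) + 3 / 4))) :=
        (measurePreserving_sub_right volume z').setLIntegral_comp_preimage
          isOpen_ball.measurableSet hmeas
    _ = ENNReal.ofReal (c' ^ (-((n : ℝ) + 3 / 4))) * ∫⁻ w in ball (0 : En n) 2,
          ENNReal.ofReal ((‖w‖ ^ 2 + ‖pr (D.q z') w‖) ^ (-((n : ℝ) + 3 / 4))) := by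
        rw [← lintegral_const_mul _ hmeas']
        apply lintegral_congr
        intro w
        rw [ENNReal.ofReal_mul (Real.rpow_pos_of_pos hc' _).le]
    _ ≤ ENNReal.ofReal (c' ^ (-((n : ℝ) + 3 / 4))) * ENNReal.ofReal C := by
        gcongr
        exact hint _ (hq z' hz'.1)
    _ = ENNReal.ofReal (c' ^ (-((n : ℝ) + 3 / 4)) * C) := by
        rw [ENNReal.ofReal_mul (Real.rpow_pos_of_pos hc' _).le]

theorem int_L (hn : 2 ≤ n) : ∃ C : ℝ, 0 < C ∧ ∀ z' ∈ D.S,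
    IntegrableOn (fun ζ => ‖D.L ζ z'‖ ^ (-((n : ℝ) + 3 / 4))) D.S ∧
    ∫ ζ in D.S, ‖D.L ζ z'‖ ^ (-((n : ℝ) + 3 / 4)) ≤ C := by
  obtain ⟨C, hC, h⟩ := D.int_L_aux hn
  refine ⟨C, hC, ?_⟩
  intro z' hz'
  have hLc : Continuous (fun ζ => D.L ζ z') :=
    D.contDiff_L.continuous.comp (Continuous.prodMk_left z')
  have hmeas : AEStronglyMeasurable (fun ζ => ‖D.L ζ z'‖ ^ (-((n : ℝ) + 3 / 4)))
      (volume.restrict D.S) :=
    (hLc.norm.measurable.pow_const _).aestronglyMeasurable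
  have hnn : ∀ ζ, 0 ≤ ‖D.L ζ z'‖ ^ (-((n : ℝ) + 3 / 4)) := fun ζ =>
    Real.rpow_nonneg (norm_nonneg _) _
  constructor
  · refine ⟨hmeas, ?_⟩
    rw [hasFiniteIntegral_iff_ofReal (Filter.Eventually.of_forall hnn)]
    exact (h z' hz').trans_lt ENNReal.ofReal_lt_top
  · rw [integral_eq_lintegral_of_nonneg_ae (Filter.Eventually.of_forall hnn) hmeas]
    exact ENNReal.toReal_le_of_le_ofReal hC.le (h z' hz')

end LData

end Pool.Agent.H8.FZ
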