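import Pool.Agent.H8.FZ.LBasic
import Pool.Agent.H8.FZ.Geo

/-!
# FZ-KDIFF: comparison of the pushed-out kernel at `z` with the kernel at `z' = z - τ(z) ν(z)`

`F` nonempty, closed, contained in `closedBall 0 (ε/8) ∩ {r = 0}`; `M = MM n = 8n+20`,
`m = mm n = 4n+8`, `λ₀ = dist(z,F) ≤ λ_s`, `τ₀ = λ₀^M = τ(z)`, `R = ‖L ζ z'‖`.

* `τ₀ Cν ≤ ε/16` and `≤ λ₀/2` for `λ_s` small, so `‖z'‖ < ε/4`; `r_upper`:
  `r z' ≤ r z - τ₀ + K τ₀² ≤ δτ₀ - τ₀ + τ₀/4 ≤ -τ₀/2`: `z' ∈ S`, `a z' ≥ τ₀/2`.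
* `L(ζ,z) + τ(ζ) - L(ζ,z') = τ(ζ) - τ₀ ⟨q(ζ), ν(z)⟩` (`L_sub`), and
  `|1 - ⟨q(ζ),ν(z)⟩| ≤ 2 C Cν ‖ζ - z‖`. `dist(·,F)` is `1`-Lipschitz.
* **near**, `‖ζ - z‖ < λ₀`: `dist(ζ,F) ≤ 2λ₀`, so `|L + τ - L'| ≤ C₁ λ₀^{M-1} ‖ζ - z‖`;
  `‖ζ - z‖ ≤ ‖ζ - z'‖ + τ₀ Cν ≤ C₂ R^{1/2}` since `R ≥ c'(‖ζ-z'‖² + a z')` and
  `τ₀ ≤ 2 a z' ≤ (2/c') R ≤ C R^{1/2}`. So `|L+τ-L'| ≤ C₃ λ₀^{M-1} R^{1/2} ≤
  C₄ λ₀^{M-1-M/2} R ≤ R/2` (use `R ≥ c' τ₀/2`, `M/2 > 1`, `λ_s` small), whence `|L+τ| ≥ R/2` and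
  `|(L+τ)^{-m} - L'^{-m}| ≤ m C₃ λ₀^{M-1} R^{1/2} (2/R)^{m+1}·const`.
* **far**, `‖ζ - z‖ ≥ λ₀`: `dist(ζ,F) ≤ 2‖ζ-z‖`, `|L+τ-L'| ≤ C₅ ‖ζ-z‖^M`;
  `‖ζ - z'‖ ≥ ‖ζ-z‖/2`, `|L'| ≥ (c/8)‖ζ-z‖²`,
  `re (L(ζ,z) + τ(ζ)) ≥ -r z + (c/2)‖ζ-z‖² ≥ (c/2 - δ)‖ζ-z‖² ≥ (c/4) ‖ζ-z‖²`
  (`re_L_ge`, `r z < δ τ₀ ≤ δ ‖ζ-z‖^M`, `δ ≤ c/4`). So the difference is
  `≤ C ‖ζ-z‖^{M - 2(m+1)} ≤ C` as `M = 2(m+1)+2`.
* `|s^{m-n-1} Δ| ≤ C a^{m-n-1}` (`Δ` is bounded on `‖ζ‖ ≤ ε/2`: continuity, `contDiff_Delta`).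

`kt_lower` (for holomorphy of `H`): for `z, ζ` in the ball, `ζ ∈ S`,
`dist(z,F)^M ≤ 2^M (τ(ζ) + ‖ζ-z‖²)` (`‖ζ - z‖ ≤ 2`: use the constant `4^M`), so
`re (L(ζ,z)+τ(ζ)) ≥ -r z + (c/2)‖ζ-z‖² + τ(ζ) ≥ δ dist(z,F)^M` when `r z < δ dist(z,F)^M` and `δ` is
small.
-/

set_option autoImplicit false

noncomputable section

namespace Pool.Agent.H8.FZ

open Complex Metric MeasureTheory Set Filter Topology
open scoped ContDiff ComplexConjugate

variable {n : ℕ}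

theorem kd_pow_sub {𝕜 : Type*} [NormedField 𝕜] (x y : 𝕜) (K : ℝ) (hx : ‖x‖ ≤ K) (hy : ‖y‖ ≤ K)
    (m : ℕ) : ‖x ^ (m + 1) - y ^ (m + 1)‖ ≤ (m + 1) * K ^ m * ‖x - y‖ := by
  have hK : 0 ≤ K := le_trans (norm_nonneg _) hx
  induction m with
  | zero => simp
  | succ m ih =>
    have e : x ^ (m + 1 + 1) - y ^ (m + 1 + 1) = x * (x ^ (m + 1) - y ^ (m + 1)) +
        (x - y) * y ^ (m + 1) := by ring
    rw [e]
    refine le_trans (norm_add_le _ _) ?_
    rw [norm_mul, norm_mul, norm_pow]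
    have h1 : ‖x‖ * ‖x ^ (m + 1) - y ^ (m + 1)‖ ≤ K * ((m + 1) * K ^ m * ‖x - y‖) :=
      mul_le_mul hx ih (norm_nonneg _) hK
    have h2 : ‖x - y‖ * ‖y‖ ^ (m + 1) ≤ ‖x - y‖ * K ^ (m + 1) :=
      mul_le_mul_of_nonneg_left (pow_le_pow_left₀ (norm_nonneg _) hy _) (norm_nonneg _)
    push_cast
    calc _ ≤ K * ((m + 1) * K ^ m * ‖x - y‖) + ‖x - y‖ * K ^ (m + 1) := add_le_add h1 h2
      _ = _ := by ring

theorem kd_inv_pow_sub (A B : ℂ) (m : ℕ) (hm : 1 ≤ m) (b : ℝ) (hb : 0 < b) (hA : b ≤ ‖A‖)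
    (hB : b ≤ ‖B‖) : ‖(A⁻¹) ^ m - (B⁻¹) ^ m‖ ≤ m * (b⁻¹) ^ (m + 1) * ‖A - B‖ := by
  have hA0 : A ≠ 0 := by
    intro h; rw [h, norm_zero] at hA; linarith
  have hB0 : B ≠ 0 := by
    intro h; rw [h, norm_zero] at hB; linarith
  obtain ⟨k, rfl⟩ : ∃ k, m = k + 1 := ⟨m - 1, by omega⟩
  have hAi : ‖A⁻¹‖ ≤ b⁻¹ := by
    rw [norm_inv]; exact inv_anti₀ hb hA
  have hBi : ‖B⁻¹‖ ≤ b⁻¹ := by
    rw [norm_inv]; exact inv_anti₀ hb hB
  have h1 := kd_pow_sub A⁻¹ B⁻¹ b⁻¹ hAi hBi k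
  have h2 : ‖A⁻¹ - B⁻¹‖ ≤ b⁻¹ * b⁻¹ * ‖A - B‖ := by
    have e : A⁻¹ - B⁻¹ = A⁻¹ * B⁻¹ * (B - A) := by
      field_simp
    rw [e, norm_mul, norm_mul, norm_sub_rev B A]
    exact mul_le_mul_of_nonneg_right (mul_le_mul hAi hBi (norm_nonneg _) (by positivity))
      (norm_nonneg _)
  refine le_trans h1 ?_
  have h3 : ((k : ℝ) + 1) * b⁻¹ ^ k * ‖A⁻¹ - B⁻¹‖ ≤
      ((k : ℝ) + 1) * b⁻¹ ^ k * (b⁻¹ * b⁻¹ * ‖A - B‖) :=
    mul_le_mul_of_nonneg_left h2 (by positivity)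
  refine le_trans h3 (le_of_eq ?_)
  push_cast
  ring

theorem kd_infDist_le (F : Set (En n)) (x y : En n) : infDist x F ≤ infDist y F + ‖x - y‖ := by
  have := infDist_le_infDist_add_dist (s := F) (x := x) (y := y)
  rwa [dist_eq_norm] at this

namespace LData

variable (D : LData n)

theorem kt_lower : ∃ δ₀ : ℝ, 0 < δ₀ ∧ δ₀ ≤ 1 ∧ ∀ F : Set (En n), F.Nonempty →
    F ⊆ closedBall 0 (D.ε / 8) → ∀ z ∈ ball (0 : En n) D.ε,
      D.r z < δ₀ * infDist z F ^ MM n → ∀ ζ ∈ D.S,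
        δ₀ * infDist z F ^ MM n + δ₀ * D.a ζ ≤ (D.L ζ z + (tau F ζ : ℂ)).re := by
  obtain ⟨δ₀, hδ, hδ1, hδ2⟩ : ∃ δ₀ : ℝ, 0 < δ₀ ∧ δ₀ ≤ 1 ∧ 2 * δ₀ * 4 ^ MM n ≤ D.c / 2 := by
    have h4 : (0 : ℝ) < 4 ^ MM n := by positivity
    have h41 : (1 : ℝ) ≤ 4 ^ MM n := one_le_pow₀ (by norm_num)
    refine ⟨D.c / (4 * 4 ^ MM n), div_pos D.hc (by positivity), ?_, ?_⟩
    · rw [div_le_one (by positivity)]
      have := D.hc1
      linarith
    · have : 2 * (D.c / (4 * 4 ^ MM n)) * 4 ^ MM n = D.c / 2 := by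
        field_simp
        ring
      rw [this]
  refine ⟨δ₀, hδ, hδ1, ?_⟩
  intro F _ _ z hz hrz ζ hζ
  have hre := D.re_L_ge hζ.1 hz
  rw [add_re, ofReal_re]
  have haz : D.a z = -D.r z := rfl
  have haζ : 0 < D.a ζ := by
    show 0 < -D.r ζ
    have := hζ.2
    linarith
  set w := ‖ζ - z‖ with hw
  have hw0 : 0 ≤ w := norm_nonneg _
  have hw2 : w ≤ 2 := by
    have h1 : ‖ζ‖ < D.ε := by simpa using hζ.1
    have h2 : ‖z‖ < D.ε := by simpa using hz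
    have h3 := norm_sub_le ζ z
    have := D.hε1
    linarith
  have hd0 : 0 ≤ infDist ζ F := infDist_nonneg
  have hdz0 : 0 ≤ infDist z F := infDist_nonneg
  have hd : infDist z F ≤ infDist ζ F + w := by
    have := kd_infDist_le F z ζ
    rwa [norm_sub_rev] at this
  have hM : 20 ≤ MM n := by unfold MM; omega
  have hpow : infDist z F ^ MM n ≤ 4 ^ MM n * (infDist ζ F ^ MM n + w ^ 2) := by
    rcases le_total (infDist ζ F) w with h | h
    · have h1 : infDist z F ≤ 2 * w := by linarith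
      calc infDist z F ^ MM n ≤ (2 * w) ^ MM n := pow_le_pow_left₀ hdz0 h1 _
        _ = 2 ^ MM n * w ^ MM n := mul_pow _ _ _
        _ ≤ 2 ^ MM n * (2 ^ MM n * w ^ 2) := by
            refine mul_le_mul_of_nonneg_left ?_ (by positivity)
            obtain ⟨k, hk⟩ : ∃ k, MM n = k + 2 := ⟨MM n - 2, by omega⟩
            rw [hk, pow_add w k 2]
            refine mul_le_mul_of_nonneg_right ?_ (by positivity)
            calc w ^ k ≤ 2 ^ k := pow_le_pow_left₀ hw0 hw2 _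
              _ ≤ 2 ^ (k + 2) := pow_le_pow_right₀ (by norm_num) (by omega)
        _ = 4 ^ MM n * w ^ 2 := by
            rw [← mul_assoc, ← mul_pow]; norm_num
        _ ≤ 4 ^ MM n * (infDist ζ F ^ MM n + w ^ 2) := by
            refine mul_le_mul_of_nonneg_left ?_ (by positivity)
            have : 0 ≤ infDist ζ F ^ MM n := by positivity
            linarith
    · have h1 : infDist z F ≤ 2 * infDist ζ F := by linarith
      calc infDist z F ^ MM n ≤ (2 * infDist ζ F) ^ MM n := pow_le_pow_left₀ hdz0 h1 _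
        _ = 2 ^ MM n * infDist ζ F ^ MM n := mul_pow _ _ _
        _ ≤ 4 ^ MM n * infDist ζ F ^ MM n := by
            refine mul_le_mul_of_nonneg_right ?_ (by positivity)
            exact pow_le_pow_left₀ (by norm_num) (by norm_num) _
        _ ≤ 4 ^ MM n * (infDist ζ F ^ MM n + w ^ 2) := by
            refine mul_le_mul_of_nonneg_left ?_ (by positivity)
            have : 0 ≤ w ^ 2 := by positivity
            linarith
  have htau : tau F ζ = infDist ζ F ^ MM n := rfl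
  rw [htau]
  set P := infDist ζ F ^ MM n with hP
  have hP0 : 0 ≤ P := by positivity
  have hc1 := D.hc1
  have h5 : 2 * δ₀ * infDist z F ^ MM n ≤ D.c / 2 * (P + w ^ 2) := by
    calc 2 * δ₀ * infDist z F ^ MM n ≤ 2 * δ₀ * (4 ^ MM n * (P + w ^ 2)) :=
          mul_le_mul_of_nonneg_left hpow (by positivity)
      _ = 2 * δ₀ * 4 ^ MM n * (P + w ^ 2) := by ring
      _ ≤ D.c / 2 * (P + w ^ 2) := mul_le_mul_of_nonneg_right hδ2 (by positivity)
  have h6 : D.c / 2 * P ≤ P := by nlinarith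
  have h7 : δ₀ * D.a ζ ≤ D.a ζ := by nlinarith
  nlinarith

theorem kt_diff {ν : En n → En n} {Cν : ℝ} (hν : D.IsNu ν Cν) :
    ∃ δ₀ ls C : ℝ, 0 < δ₀ ∧ 0 < ls ∧ ls ≤ 1 ∧ 0 < C ∧ ∀ F : Set (En n), F.Nonempty →
      F ⊆ closedBall 0 (D.ε / 8) → ∀ z : En n, ‖z‖ < 3 * D.ε / 16 →
        D.r z < δ₀ * infDist z F ^ MM n → 0 < infDist z F → infDist z F ≤ ls →
        (z - (tau F z : ℂ) • ν z) ∈ D.S ∧ ‖z - (tau F z : ℂ) • ν z‖ < D.ε / 4 ∧
        tau F z / 4 ≤ D.a (z - (tau F z : ℂ) • ν z) ∧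
        infDist (z - (tau F z : ℂ) • ν z) F ≤ 2 * infDist z F ∧
        ∀ ζ ∈ D.S, ‖ζ‖ ≤ D.ε / 2 →
          ‖KT D F ζ z - D.K ζ (z - (tau F z : ℂ) • ν z)‖ ≤
            C * D.a ζ ^ (mm n - n - 1) *
              (1 + infDist z F ^ (MM n - 1) *
                ‖D.L ζ (z - (tau F z : ℂ) • ν z)‖ ^ (-((mm n : ℝ) + 1 / 2))) := by
  obtain ⟨hCν, hν1, hν2⟩ := hν
  obtain ⟨c', hc', hc'1, hLge⟩ := D.norm_L_ge
  have hC := D.hC
  have hc := D.hc
  have hc1 := D.hc1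
  have hε := D.hε
  have hε1 := D.hε1
  -- bound for Delta
  obtain ⟨CΔ, hCΔ0, hCΔ⟩ : ∃ CΔ : ℝ, 0 ≤ CΔ ∧ ∀ ζ : En n, ‖ζ‖ ≤ D.ε / 2 → ‖D.Delta ζ‖ ≤ CΔ := by
    have hcomp : IsCompact (closedBall (0 : En n) (D.ε / 2)) := isCompact_closedBall _ _
    obtain ⟨K, hK⟩ := hcomp.exists_bound_of_continuousOn D.contDiff_Delta.continuous.continuousOn
    refine ⟨max K 0, le_max_right _ _, fun ζ hζ => le_trans (hK ζ (by simpa using hζ)) (le_max_left _ _)⟩
  have hM : 20 ≤ MM n := by unfold MM; omega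
  have hm : 8 ≤ mm n := by unfold mm; omega
  have hMm : MM n = 2 * (mm n + 1) + 2 := by unfold MM mm; omega
  -- constants
  set C₁ : ℝ := MM n * 2 ^ (MM n - 1) + 2 * D.C * Cν with hC₁
  set C₂ : ℝ := (2 + 4 * Cν ^ 2) / c' with hC₂
  set C₅ : ℝ := 2 ^ MM n + 2 * D.C * Cν with hC₅
  have hC₁0 : 0 ≤ C₁ := by positivity
  have hC₂0 : 0 < C₂ := by positivity
  have hC₅0 : 0 ≤ C₅ := by positivity
  -- ls
  obtain ⟨ls, hls0, hls1, hlsa, hlsb, hlsc⟩ : ∃ ls : ℝ, 0 < ls ∧ ls ≤ 1 ∧ ls * Cν ≤ D.ε / 16 ∧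
      ls * (D.C / 2 * Cν ^ 2) ≤ 1 / 4 ∧ ls * (C₁ ^ 2 * C₂ * (2 / c')) ≤ 1 / 4 := by
    have key : ∀ X Y : ℝ, 0 < X → 0 < Y → ∃ l : ℝ, 0 < l ∧ ∀ l', 0 < l' → l' ≤ l → l' * X ≤ Y := by
      intro X Y hX hY
      refine ⟨Y / X, by positivity, fun l' _ hl' => ?_⟩
      rwa [le_div_iff₀ hX] at hl'
    obtain ⟨l1, h1, h1'⟩ := key Cν (D.ε / 16) (by linarith) (by positivity)
    obtain ⟨l2, h2, h2'⟩ := key (D.C / 2 * Cν ^ 2) (1 / 4) (by positivity) (by positivity)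
    obtain ⟨l3, h3, h3'⟩ := key (C₁ ^ 2 * C₂ * (2 / c') + 1) (1 / 4) (by positivity) (by positivity)
    refine ⟨min 1 (min l1 (min l2 l3)), by positivity, min_le_left _ _, ?_, ?_, ?_⟩
    · exact h1' _ (by positivity) (le_trans (min_le_right _ _) (min_le_left _ _))
    · exact h2' _ (by positivity) (le_trans (min_le_right _ _) (le_trans (min_le_right _ _) (min_le_left _ _)))
    · have h := h3' (min 1 (min l1 (min l2 l3))) (by positivity)
        (le_trans (min_le_right _ _) (le_trans (min_le_right _ _) (min_le_right _ _)))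
      have h0 : 0 < min 1 (min l1 (min l2 l3)) := by positivity
      nlinarith
  set Cn : ℝ := mm n * (2 : ℝ) ^ (mm n + 1) * (C₁ * Real.sqrt C₂) with hCn
  set Cf : ℝ := mm n * (8 / D.c) ^ (mm n + 1) * C₅ with hCf
  have hCn0 : 0 ≤ Cn := by positivity
  have hCf0 : 0 ≤ Cf := by positivity
  refine ⟨D.c / 4, ls, 2 ^ (mm n - n - 1) * CΔ * (Cn + Cf) + 1, by positivity, hls0, hls1,
    by positivity, ?_⟩
  intro F _ _ z hz hrz hl0 hlls
  set l := infDist z F with hl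
  have hl1 : l ≤ 1 := by linarith
  have htz : tau F z = l ^ MM n := rfl
  set t := tau F z with ht
  have ht0 : 0 < t := by rw [htz]; positivity
  have htl2 : t ≤ l ^ 2 := by
    rw [htz]; exact pow_le_pow_of_le_one hl0.le hl1 (by omega)
  have htl : t ≤ l := by
    rw [htz]; exact pow_le_of_le_one hl0.le hl1 (by omega)
  have ht1 : t ≤ 1 := by linarith
  have hzB : z ∈ ball (0 : En n) D.ε := by
    simp only [mem_ball_zero_iff]; linarith
  obtain ⟨hνz, hνz'⟩ := hν1 z hzB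
  set z' := z - (t : ℂ) • ν z with hz'
  have hzz' : ‖z - z'‖ = t * ‖ν z‖ := by
    rw [hz', sub_sub_cancel, norm_smul, Complex.norm_real, Real.norm_of_nonneg ht0.le]
  have hzz1 : ‖z - z'‖ ≤ t * Cν := by
    rw [hzz']; exact mul_le_mul_of_nonneg_left hνz' ht0.le
  have hlCν : l * Cν ≤ D.ε / 16 := le_trans (mul_le_mul_of_nonneg_right hlls (by linarith)) hlsa
  have hzz2 : ‖z - z'‖ ≤ l / 16 := by
    refine le_trans hzz1 ?_
    calc t * Cν ≤ l ^ 2 * Cν := mul_le_mul_of_nonneg_right htl2 (by linarith)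
      _ = l * (l * Cν) := by ring
      _ ≤ l * (D.ε / 16) := mul_le_mul_of_nonneg_left hlCν hl0.le
      _ ≤ l * (1 / 16) := mul_le_mul_of_nonneg_left (by linarith) hl0.le
      _ = l / 16 := by ring
  have hzz3 : ‖z - z'‖ ≤ D.ε / 16 := by
    refine le_trans hzz1 (le_trans (mul_le_mul_of_nonneg_right htl (by linarith)) hlCν)
  have hz'n : ‖z'‖ < D.ε / 4 := by
    have e : z' = z - (z - z') := by abel
    have h1 : ‖z'‖ ≤ ‖z‖ + ‖z - z'‖ := by
      conv_lhs => rw [e]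
      exact norm_sub_le _ _
    linarith
  have hz'B : z' ∈ ball (0 : En n) D.ε := by
    simp only [mem_ball_zero_iff]; linarith
  have hdr : fderiv ℝ D.r z (z' - z) = -t := by
    rw [← D.re_pr_q]
    have e : z' - z = (-(t : ℂ)) • ν z := by
      rw [hz', neg_smul]; abel
    have e2 : pr (D.q z) (z' - z) = -(t : ℂ) := by
      rw [e]
      have : pr (D.q z) ((-(t : ℂ)) • ν z) = (-(t : ℂ)) * pr (D.q z) (ν z) := by
        unfold pr
        rw [Finset.mul_sum]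
        refine Finset.sum_congr rfl fun j _ => ?_
        simp only [PiLp.smul_apply, smul_eq_mul]
        ring
      rw [this, hνz, mul_one]
    rw [e2, neg_re, ofReal_re]
  have hrz' : D.r z' ≤ -(t / 2) := by
    have h1 := D.r_upper hzB hz'B
    rw [hdr] at h1
    have h2 : ‖z' - z‖ ^ 2 ≤ (t * Cν) ^ 2 := by
      rw [norm_sub_rev]
      exact pow_le_pow_left₀ (norm_nonneg _) hzz1 2
    have h3 : D.C / 2 * ‖z' - z‖ ^ 2 ≤ t * (1 / 4) := by
      calc D.C / 2 * ‖z' - z‖ ^ 2 ≤ D.C / 2 * (t * Cν) ^ 2 :=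
            mul_le_mul_of_nonneg_left h2 (by positivity)
        _ = t * (t * (D.C / 2 * Cν ^ 2)) := by ring
        _ ≤ t * (ls * (D.C / 2 * Cν ^ 2)) := by
            refine mul_le_mul_of_nonneg_left ?_ ht0.le
            exact mul_le_mul_of_nonneg_right (by linarith) (by positivity)
        _ ≤ t * (1 / 4) := mul_le_mul_of_nonneg_left hlsb ht0.le
    have h4 : D.r z ≤ t * (1 / 4) := by
      rw [← htz] at hrz
      have h5 : D.c / 4 * t ≤ t * (1 / 4) := by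
        rw [mul_comm t]
        exact mul_le_mul_of_nonneg_right (by linarith) ht0.le
      linarith
    linarith
  have haz' : t / 2 ≤ D.a z' := by
    show t / 2 ≤ -D.r z'
    linarith
  have hz'S : z' ∈ D.S := ⟨hz'B, by linarith⟩
  refine ⟨hz'S, hz'n, by linarith, ?_, ?_⟩
  · have := kd_infDist_le F z' z
    rw [norm_sub_rev] at this
    linarith
  intro ζ hζ hζn
  have haζ : 0 < D.a ζ := by
    show 0 < -D.r ζ
    have := hζ.2
    linarith
  set A : ℂ := D.L ζ z + (tau F ζ : ℂ) with hA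
  set B : ℂ := D.L ζ z' with hB
  have hKK : KT D F ζ z - D.K ζ z' =
      ((2 * D.a ζ : ℝ) : ℂ) ^ (mm n - n - 1) * D.Delta ζ * ((A⁻¹) ^ mm n - (B⁻¹) ^ mm n) := by
    unfold KT K
    rw [mul_sub]
  -- the main claim
  suffices hmain : ‖(A⁻¹) ^ mm n - (B⁻¹) ^ mm n‖ ≤
      (Cn + Cf) * (1 + l ^ (MM n - 1) * ‖B‖ ^ (-((mm n : ℝ) + 1 / 2))) by
    rw [hKK, norm_mul, norm_mul, norm_pow, Complex.norm_real, Real.norm_of_nonneg (by positivity),
      mul_pow]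
    have hX : 0 ≤ 1 + l ^ (MM n - 1) * ‖B‖ ^ (-((mm n : ℝ) + 1 / 2)) := by positivity
    have h1 := hCΔ ζ hζn
    calc _ ≤ 2 ^ (mm n - n - 1) * D.a ζ ^ (mm n - n - 1) * CΔ *
          ((Cn + Cf) * (1 + l ^ (MM n - 1) * ‖B‖ ^ (-((mm n : ℝ) + 1 / 2)))) := by
          refine mul_le_mul (mul_le_mul_of_nonneg_left h1 (by positivity)) hmain (norm_nonneg _)
            (by positivity)
      _ = (2 ^ (mm n - n - 1) * CΔ * (Cn + Cf)) * D.a ζ ^ (mm n - n - 1) *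
          (1 + l ^ (MM n - 1) * ‖B‖ ^ (-((mm n : ℝ) + 1 / 2))) := by ring
      _ ≤ _ := by
          refine mul_le_mul_of_nonneg_right (mul_le_mul_of_nonneg_right (by linarith)
            (by positivity)) hX
  set w := ‖ζ - z‖ with hw
  have hw0 : 0 ≤ w := norm_nonneg _
  have hw1 : w ≤ 1 := by
    have h3 := norm_sub_le ζ z
    linarith
  have hd0 : 0 ≤ infDist ζ F := infDist_nonneg
  have hd1 : infDist ζ F ≤ l + w := kd_infDist_le F ζ z
  have hd2 : l ≤ infDist ζ F + w := by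
    have := kd_infDist_le F z ζ
    rwa [norm_sub_rev] at this
  -- the difference
  have hAB : A - B = ((tau F ζ - t : ℝ) : ℂ) + (t : ℂ) * (1 - pr (D.q ζ) (ν z)) := by
    have e1 : A - B = (D.L ζ z - D.L ζ z') + (tau F ζ : ℂ) := by rw [hA, hB]; ring
    rw [e1, D.L_sub]
    have e : z' - z = (-(t : ℂ)) • ν z := by
      rw [hz', neg_smul]; abel
    have : pr (D.q ζ) ((-(t : ℂ)) • ν z) = (-(t : ℂ)) * pr (D.q ζ) (ν z) := by
      unfold pr
      rw [Finset.mul_sum]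
      refine Finset.sum_congr rfl fun j _ => ?_
      simp only [PiLp.smul_apply, smul_eq_mul]
      ring
    rw [e, this]
    push_cast
    ring
  have hone : ‖1 - pr (D.q ζ) (ν z)‖ ≤ 2 * D.C * Cν * w := by
    rw [← hνz]
    refine le_trans (D.norm_pr_q_sub_le hzB hζ.1 (ν z)) ?_
    rw [norm_sub_rev, ← hw]
    calc 2 * D.C * w * ‖ν z‖ ≤ 2 * D.C * w * Cν := mul_le_mul_of_nonneg_left hνz' (by positivity)
      _ = _ := by ring
  have hABn : ‖A - B‖ ≤ |tau F ζ - t| + t * (2 * D.C * Cν * w) := by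
    rw [hAB]
    refine le_trans (norm_add_le _ _) ?_
    rw [norm_mul, Complex.norm_real, Complex.norm_real, Real.norm_eq_abs, Real.norm_of_nonneg ht0.le]
    exact add_le_add le_rfl (mul_le_mul_of_nonneg_left hone ht0.le)
  have htζ : tau F ζ = infDist ζ F ^ MM n := rfl
  set R := ‖B‖ with hR
  have hRge : c' * (‖ζ - z'‖ ^ 2 + t / 2) ≤ R := by
    have h1 := hLge ζ z' hζ.1 hz'B haζ.le (by linarith)
    refine le_trans (mul_le_mul_of_nonneg_left ?_ hc'.le) h1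
    have := norm_nonneg (pr (D.q z') (ζ - z'))
    linarith
  have hR0 : 0 < R := lt_of_lt_of_le (by positivity) hRge
  have hRge' : c' * ‖ζ - z'‖ ^ 2 + c' * t / 2 ≤ R := by
    have e : c' * ‖ζ - z'‖ ^ 2 + c' * t / 2 = c' * (‖ζ - z'‖ ^ 2 + t / 2) := by ring
    rw [e]; exact hRge
  have hX2 : 0 ≤ c' * ‖ζ - z'‖ ^ 2 := by positivity
  have hct : 0 ≤ c' * t := by positivity
  have hrp0 : 0 ≤ l ^ (MM n - 1) * R ^ (-((mm n : ℝ) + 1 / 2)) := by positivity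
  rcases lt_or_ge w l with hcase | hcase
  · -- near
    have hA1 : ‖A - B‖ ≤ C₁ * l ^ (MM n - 1) * w := by
      have h1 : |tau F ζ - t| ≤ MM n * (2 * l) ^ (MM n - 1) * w := by
        rw [htζ, htz]
        have h2 := kd_pow_sub (infDist ζ F) l (2 * l)
          (by rw [Real.norm_of_nonneg hd0]; linarith) (by rw [Real.norm_of_nonneg hl0.le]; linarith)
          (MM n - 1)
        have e : MM n - 1 + 1 = MM n := by omega
        have e' : ((MM n - 1 : ℕ) : ℝ) + 1 = MM n := by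
          rw [← e]; push_cast; simp
        rw [e, e'] at h2
        rw [← Real.norm_eq_abs]
        refine le_trans h2 (mul_le_mul_of_nonneg_left ?_ (by positivity))
        rw [Real.norm_eq_abs, abs_le]
        constructor <;> linarith
      have h2 : t * (2 * D.C * Cν * w) ≤ l ^ (MM n - 1) * (2 * D.C * Cν * w) := by
        refine mul_le_mul_of_nonneg_right ?_ (by positivity)
        rw [htz]
        exact pow_le_pow_of_le_one hl0.le hl1 (by omega)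
      refine le_trans hABn (le_trans (add_le_add h1 h2) (le_of_eq ?_))
      rw [hC₁, mul_pow]
      ring
    have hwR : w ^ 2 ≤ C₂ * R := by
      have h1 : w ≤ ‖ζ - z'‖ + t * Cν := by
        have e : ζ - z = (ζ - z') - (z - z') := by abel
        rw [hw, e]
        refine le_trans (norm_sub_le _ _) ?_
        linarith
      have h2 : w ^ 2 ≤ 2 * ‖ζ - z'‖ ^ 2 + 2 * (t * Cν) ^ 2 := by
        have h3 : w ^ 2 ≤ (‖ζ - z'‖ + t * Cν) ^ 2 := pow_le_pow_left₀ hw0 h1 2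
        have h4 : (‖ζ - z'‖ + t * Cν) ^ 2 + (‖ζ - z'‖ - t * Cν) ^ 2 =
            2 * ‖ζ - z'‖ ^ 2 + 2 * (t * Cν) ^ 2 := by ring
        have h5 := sq_nonneg (‖ζ - z'‖ - t * Cν)
        linarith
      have h3 : (t * Cν) ^ 2 ≤ t * Cν ^ 2 := by
        rw [mul_pow]
        refine mul_le_mul_of_nonneg_right ?_ (by positivity)
        exact pow_le_of_le_one ht0.le ht1 two_ne_zero
      have h4 : c' * ‖ζ - z'‖ ^ 2 ≤ R := by linarith
      have h5 : c' * t ≤ 2 * R := by linarith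
      rw [hC₂, div_mul_eq_mul_div, le_div_iff₀ hc']
      have h6 : c' * t * Cν ^ 2 ≤ 2 * R * Cν ^ 2 := mul_le_mul_of_nonneg_right h5 (by positivity)
      calc w ^ 2 * c' ≤ (2 * ‖ζ - z'‖ ^ 2 + 2 * (t * Cν ^ 2)) * c' := by
            refine mul_le_mul_of_nonneg_right ?_ hc'.le
            linarith
        _ = 2 * (c' * ‖ζ - z'‖ ^ 2) + 2 * (c' * t * Cν ^ 2) := by ring
        _ ≤ 2 * R + 2 * (2 * R * Cν ^ 2) := by linarith
        _ = (2 + 4 * Cν ^ 2) * R := by ring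
    have hwR' : w ≤ Real.sqrt C₂ * Real.sqrt R := by
      rw [← Real.sqrt_mul hC₂0.le]
      exact Real.le_sqrt_of_sq_le hwR
    have hlM : l ^ MM n ≤ 2 / c' * R := by
      rw [← htz]
      rw [div_mul_eq_mul_div, le_div_iff₀ hc']
      linarith
    have hA2 : ‖A - B‖ ^ 2 ≤ (R / 2) ^ 2 := by
      calc ‖A - B‖ ^ 2 ≤ (C₁ * l ^ (MM n - 1) * w) ^ 2 := pow_le_pow_left₀ (norm_nonneg _) hA1 2
        _ = C₁ ^ 2 * (l ^ (MM n - 2) * l ^ MM n) * w ^ 2 := by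
            have : l ^ (MM n - 2) * l ^ MM n = (l ^ (MM n - 1)) ^ 2 := by
              rw [← pow_add, ← pow_mul]; congr 1; omega
            rw [this]; ring
        _ ≤ C₁ ^ 2 * (l * (2 / c' * R)) * (C₂ * R) := by
            have h1 : l ^ (MM n - 2) ≤ l := by
              calc l ^ (MM n - 2) ≤ l ^ 1 := pow_le_pow_of_le_one hl0.le hl1 (by omega)
                _ = l := pow_one l
            have h2 : l ^ (MM n - 2) * l ^ MM n ≤ l * (2 / c' * R) :=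
              mul_le_mul h1 hlM (by positivity) hl0.le
            exact mul_le_mul (mul_le_mul_of_nonneg_left h2 (by positivity)) hwR (by positivity)
              (by positivity)
        _ = (l * (C₁ ^ 2 * C₂ * (2 / c'))) * R ^ 2 := by ring
        _ ≤ (1 / 4) * R ^ 2 := by
            refine mul_le_mul_of_nonneg_right ?_ (by positivity)
            exact le_trans (mul_le_mul_of_nonneg_right hlls (by positivity)) hlsc
        _ = (R / 2) ^ 2 := by ring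
    have hA3 : ‖A - B‖ ≤ R / 2 := le_of_sq_le_sq hA2 (by positivity)
    have hAge : R / 2 ≤ ‖A‖ := by
      have h1 : B = A - (A - B) := by ring
      have h2 : R ≤ ‖A‖ + ‖A - B‖ := by
        rw [hR]; conv_lhs => rw [h1]
        exact norm_sub_le _ _
      linarith
    have h1 := kd_inv_pow_sub A B (mm n) (by omega) (R / 2) (by positivity) hAge (by linarith)
    have h2 : ((R / 2)⁻¹) ^ (mm n + 1) * Real.sqrt R =
        2 ^ (mm n + 1) * R ^ (-((mm n : ℝ) + 1 / 2)) := by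
      rw [Real.sqrt_eq_rpow, inv_div, div_pow, div_mul_eq_mul_div, ← Real.rpow_natCast R, mul_div_assoc,
        ← Real.rpow_sub hR0]
      congr 2
      push_cast
      ring
    calc ‖(A⁻¹) ^ mm n - (B⁻¹) ^ mm n‖ ≤ mm n * ((R / 2)⁻¹) ^ (mm n + 1) * ‖A - B‖ := h1
      _ ≤ mm n * ((R / 2)⁻¹) ^ (mm n + 1) * (C₁ * l ^ (MM n - 1) * (Real.sqrt C₂ * Real.sqrt R)) := by
          refine mul_le_mul_of_nonneg_left ?_ (by positivity)
          exact le_trans hA1 (mul_le_mul_of_nonneg_left hwR' (by positivity))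
      _ = mm n * (C₁ * Real.sqrt C₂) * l ^ (MM n - 1) * (((R / 2)⁻¹) ^ (mm n + 1) * Real.sqrt R) := by
          ring
      _ = Cn * (l ^ (MM n - 1) * R ^ (-((mm n : ℝ) + 1 / 2))) := by
          rw [h2, hCn]; ring
      _ ≤ (Cn + Cf) * (1 + l ^ (MM n - 1) * R ^ (-((mm n : ℝ) + 1 / 2))) := by
          refine mul_le_mul (by linarith) (by linarith) hrp0 (by positivity)
  · -- far
    have hwpos : 0 < w := lt_of_lt_of_le hl0 hcase
    have hA1 : ‖A - B‖ ≤ C₅ * w ^ MM n := by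
      have h0 : |tau F ζ - t| ≤ (2 * w) ^ MM n := by
        have e1 : 0 ≤ tau F ζ := by rw [htζ]; positivity
        have e2 : tau F ζ ≤ (2 * w) ^ MM n := by
          rw [htζ]; exact pow_le_pow_left₀ hd0 (by linarith) _
        have e3 : t ≤ (2 * w) ^ MM n := by
          rw [htz]; exact pow_le_pow_left₀ hl0.le (by linarith) _
        rw [abs_le]
        constructor <;> linarith
      have h2 : t * (2 * D.C * Cν * w) ≤ w ^ MM n * (2 * D.C * Cν) := by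
        have e3 : t ≤ w ^ MM n := by
          rw [htz]; exact pow_le_pow_left₀ hl0.le hcase _
        have e4 : 2 * D.C * Cν * w ≤ 2 * D.C * Cν := by
          have : 0 < 2 * D.C * Cν := by positivity
          exact mul_le_of_le_one_right this.le hw1
        exact mul_le_mul e3 e4 (by positivity) (by positivity)
      refine le_trans hABn (le_trans (add_le_add h0 h2) (le_of_eq ?_))
      rw [hC₅, mul_pow]
      ring
    have hBge : D.c / 8 * w ^ 2 ≤ ‖B‖ := by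
      have h1 := D.re_L_ge hζ.1 hz'B
      have h2 : w / 2 ≤ ‖ζ - z'‖ := by
        have e : ζ - z = (ζ - z') - (z - z') := by abel
        have h3 : w ≤ ‖ζ - z'‖ + ‖z - z'‖ := by
          rw [hw, e]; exact norm_sub_le _ _
        linarith
      have h3 : (w / 2) ^ 2 ≤ ‖ζ - z'‖ ^ 2 := pow_le_pow_left₀ (by positivity) h2 2
      have h4 : D.c / 2 * (w / 2) ^ 2 ≤ D.c / 2 * ‖ζ - z'‖ ^ 2 :=
        mul_le_mul_of_nonneg_left h3 (by positivity)
      have h5 : (D.L ζ z').re ≤ ‖B‖ := Complex.re_le_norm _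
      have h6 : D.c / 2 * (w / 2) ^ 2 = D.c / 8 * w ^ 2 := by ring
      linarith
    have hAge : D.c / 8 * w ^ 2 ≤ ‖A‖ := by
      have h1 := D.re_L_ge hζ.1 hzB
      have h5 : A.re ≤ ‖A‖ := Complex.re_le_norm _
      have h6 : A.re = (D.L ζ z).re + tau F ζ := by rw [hA, add_re, ofReal_re]
      have e1 : 0 ≤ tau F ζ := by rw [htζ]; positivity
      have haz : D.a z = -D.r z := rfl
      have h7 : D.r z ≤ D.c / 4 * w ^ 2 := by
        refine le_trans hrz.le (mul_le_mul_of_nonneg_left ?_ (by positivity))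
        rw [← htz]
        refine le_trans htl2 (pow_le_pow_left₀ hl0.le hcase 2)
      have h8 : 0 ≤ D.c * w ^ 2 := by positivity
      rw [← hw] at h1
      linarith
    have h1 := kd_inv_pow_sub A B (mm n) (by omega) (D.c / 8 * w ^ 2) (by positivity) hAge hBge
    calc ‖(A⁻¹) ^ mm n - (B⁻¹) ^ mm n‖ ≤ mm n * ((D.c / 8 * w ^ 2)⁻¹) ^ (mm n + 1) * ‖A - B‖ := h1
      _ ≤ mm n * ((D.c / 8 * w ^ 2)⁻¹) ^ (mm n + 1) * (C₅ * w ^ MM n) :=
          mul_le_mul_of_nonneg_left hA1 (by positivity)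
      _ = Cf * w ^ 2 := by
          rw [hCf, hMm, mul_inv, mul_pow, inv_div, pow_add w (2 * (mm n + 1)) 2, pow_mul w 2 (mm n + 1),
            inv_pow (w ^ 2)]
          have : (w ^ 2) ^ (mm n + 1) ≠ 0 := by positivity
          field_simp
      _ ≤ Cf * 1 := mul_le_mul_of_nonneg_left (pow_le_one₀ hw0 hw1) hCf0
      _ ≤ (Cn + Cf) * (1 + l ^ (MM n - 1) * R ^ (-((mm n : ℝ) + 1 / 2))) :=
          mul_le_mul (by linarith) (by linarith) (by norm_num) (by positivity)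

end LData

end Pool.Agent.H8.FZ
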