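import Pool.Agent.H8.FZ.Defs

/-!
# FZ-LBASIC1: elementary geometry of the local data, part 1

All statements are about `D : LData n`. Notation: `B = ball 0 ε`, `a = -r`, `w = ζ - z`.

* `pr_q`: pure algebra: expand `w = ∑ w_j e_j` (over `ℂ`; so `w = ∑ (re w_j) e_j + (im w_j) (i e_j)`)
  and use `ℝ`-linearity of `fderiv ℝ r ζ`.
* `norm_pr_q_le`: `‖fderiv r ζ w - i fderiv r ζ (iw)‖ ≤ 2 C ‖w‖`.
* `norm_pr_q_sub_le`: mean value inequality for `fderiv ℝ r` on the convex set `B` with `b2`.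
* `r_lower`, `r_upper`: second order Taylor formula on the segment `[ζ,z] ⊆ B` (apply the one
  variable statement to `t ↦ r (ζ + t (z - ζ))`, whose second derivative is
  `D²r(z-ζ,z-ζ) ∈ [c‖z-ζ‖², C‖z-ζ‖²]`).
* `re_L_ge`: `re L = 2a(ζ) + dr_ζ(ζ-z)` and `r_lower`: `r z ≥ r ζ - dr_ζ(ζ - z) + (c/2)‖w‖²`.
* `norm_L_ge`: `re_L_ge` gives `‖L‖ ≥ a ζ + a z + (c/2)‖w‖²`; moreover
  `‖L‖ ≥ ‖pr (q ζ) w‖ - 2 a ζ ≥ ‖pr (q z) w‖ - 2C‖w‖² - 2 a ζ`; combine.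
* `norm_L_le`: `|a| ≤ 1`, `‖w‖ ≤ 2`.
* `convex_S`: by `r_lower` (or monotonicity of the derivative along segments) `r` is convex on `B`.
* `exists_nu`: `ν ζ = (∑ |q_j|²)⁻¹ (conj q_j)_j`; `|dr_ζ(w)| ≤ ‖pr (q ζ) w‖ ≤ (∑|q_j|²)^{1/2} ‖w‖`
  and `grad` give `∑ |q_j|² ≥ c²`; Lipschitz from `norm_pr_q_sub_le` (or `b2`).
-/

set_option autoImplicit false

noncomputable section

namespace Pool.Agent.H8.FZ

open Complex Metric MeasureTheory Set Filter Topology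
open scoped ContDiff ComplexConjugate

variable {n : ℕ}

/-- the complex linear extension `w ↦ A w - i A (i w)` -/
def cext (A : En n →L[ℝ] ℝ) : En n →ₗ[ℂ] ℂ where
  toFun w := (A w : ℂ) - I * (A (I • w) : ℂ)
  map_add' v w := by
    rw [smul_add, map_add, map_add]
    push_cast
    ring
  map_smul' c w := by
    have h1 : c • w = c.re • w + c.im • (I • w) := by
      ext j
      simp only [PiLp.smul_apply, PiLp.add_apply, smul_eq_mul, Complex.real_smul]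
      conv_lhs => rw [← Complex.re_add_im c]
      ring
    have h2 : I • (c • w) = c.re • (I • w) - c.im • w := by
      ext j
      simp only [PiLp.smul_apply, PiLp.sub_apply, smul_eq_mul, Complex.real_smul]
      conv_lhs => rw [← Complex.re_add_im c]
      linear_combination (c.im : ℂ) * w j * Complex.I_mul_I
    have h3 : A (c.re • w + c.im • (I • w)) = c.re * A w + c.im * A (I • w) := by
      rw [map_add, A.map_smul, A.map_smul, smul_eq_mul, smul_eq_mul]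
    have h4 : A (c.re • (I • w) - c.im • w) = c.re * A (I • w) - c.im * A w := by
      rw [map_sub, A.map_smul, A.map_smul, smul_eq_mul, smul_eq_mul]
    rw [h2, h1, h3, h4, RingHom.id_apply, smul_eq_mul]
    push_cast
    conv_rhs => rw [← Complex.re_add_im c]
    linear_combination ((c.im : ℂ) * (A (I • w) : ℂ)) * Complex.I_mul_I

theorem cext_apply (A : En n →L[ℝ] ℝ) (w : En n) :
    cext A w = (A w : ℂ) - I * (A (I • w) : ℂ) := rfl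

theorem cext_eq_sum (A : En n →L[ℝ] ℝ) (w : En n) :
    cext A w = ∑ j, cext A (eb j) * w j := by
  have h1 : w = ∑ j, w j • eb j := by
    ext i
    simp [eb, Pi.single_apply]
  conv_lhs => rw [h1, map_sum]
  refine Finset.sum_congr rfl fun j _ => ?_
  rw [map_smul, smul_eq_mul, mul_comm]

theorem norm_cext_le (A : En n →L[ℝ] ℝ) {M : ℝ} (hM : ‖A‖ ≤ M) (w : En n) :
    ‖cext A w‖ ≤ 2 * M * ‖w‖ := by
  have h1 : ‖(A w : ℂ)‖ ≤ M * ‖w‖ := by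
    rw [Complex.norm_real]
    exact A.le_of_opNorm_le hM w
  have h2 : ‖I * (A (I • w) : ℂ)‖ ≤ M * ‖w‖ := by
    rw [norm_mul, Complex.norm_I, one_mul, Complex.norm_real]
    have h3 := A.le_of_opNorm_le hM (I • w)
    rwa [norm_smul, Complex.norm_I, one_mul] at h3
  calc ‖cext A w‖ ≤ ‖(A w : ℂ)‖ + ‖I * (A (I • w) : ℂ)‖ := norm_sub_le _ _
    _ ≤ 2 * M * ‖w‖ := by linarith

/-- second order Taylor lower bound in one variable -/
theorem taylor_lower {g g' g'' : ℝ → ℝ} {m : ℝ} (h1 : ∀ t, HasDerivAt g (g' t) t)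
    (h2 : ∀ t, HasDerivAt g' (g'' t) t) (h3 : ∀ t ∈ Icc (0 : ℝ) 1, m ≤ g'' t) :
    g 0 + g' 0 + m / 2 ≤ g 1 := by
  have e1 : ∀ t, HasDerivAt (fun t => g' t - m * t) (g'' t - m) t := fun t => by
    refine ((h2 t).sub ((hasDerivAt_id t).const_mul m)).congr_deriv ?_
    simp
  have m1 : MonotoneOn (fun t => g' t - m * t) (Icc (0 : ℝ) 1) := by
    refine monotoneOn_of_deriv_nonneg (convex_Icc 0 1)
      (fun t _ => (e1 t).continuousAt.continuousWithinAt)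
      (fun t _ => (e1 t).differentiableAt.differentiableWithinAt) fun t ht => ?_
    rw [(e1 t).deriv]
    have := h3 t (interior_subset ht)
    linarith
  have e2 : ∀ t, HasDerivAt (fun t => g t - g' 0 * t - m / 2 * t ^ 2) (g' t - g' 0 - m * t) t :=
    fun t => by
      have h4 := ((h1 t).sub ((hasDerivAt_id t).const_mul (g' 0))).sub
        ((hasDerivAt_pow 2 t).const_mul (m / 2))
      refine (h4.congr_deriv ?_)
      simp
      ring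
  have m2 : MonotoneOn (fun t => g t - g' 0 * t - m / 2 * t ^ 2) (Icc (0 : ℝ) 1) := by
    refine monotoneOn_of_deriv_nonneg (convex_Icc 0 1)
      (fun t _ => (e2 t).continuousAt.continuousWithinAt)
      (fun t _ => (e2 t).differentiableAt.differentiableWithinAt) fun t ht => ?_
    rw [(e2 t).deriv]
    have h5 := interior_subset ht
    have h6 := m1 (left_mem_Icc.2 zero_le_one) h5 h5.1
    simp only [mul_zero, sub_zero] at h6
    linarith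
  have h7 := m2 (left_mem_Icc.2 zero_le_one) (right_mem_Icc.2 zero_le_one) zero_le_one
  simp only [mul_zero, sub_zero, mul_one, one_pow, ne_eq, OfNat.ofNat_ne_zero, not_false_eq_true,
    zero_pow] at h7
  linarith

namespace LData

variable (D : LData n)

theorem pr_q_eq_cext (ζ w : En n) : pr (D.q ζ) w = cext (fderiv ℝ D.r ζ) w := by
  rw [cext_eq_sum]
  rfl

theorem pr_q (ζ w : En n) :
    pr (D.q ζ) w = (fderiv ℝ D.r ζ w : ℂ) - I * (fderiv ℝ D.r ζ (I • w) : ℂ) :=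
  D.pr_q_eq_cext ζ w

theorem re_pr_q (ζ w : En n) : (pr (D.q ζ) w).re = fderiv ℝ D.r ζ w := by
  rw [pr_q]
  simp

theorem norm_pr_q_le {ζ : En n} (hζ : ζ ∈ ball (0 : En n) D.ε) (w : En n) :
    ‖pr (D.q ζ) w‖ ≤ 2 * D.C * ‖w‖ := by
  rw [pr_q_eq_cext]
  exact norm_cext_le _ (D.b1 ζ hζ) w

theorem hasFDerivAt_r (z : En n) : HasFDerivAt D.r (fderiv ℝ D.r z) z :=
  (D.hr.differentiable (by simp)).differentiableAt.hasFDerivAt

theorem differentiable_fderiv_r : Differentiable ℝ (fderiv ℝ D.r) :=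
  (D.hr.fderiv_right (m := ∞) (by simp)).differentiable (by simp)

theorem hasFDerivAt_fderiv_r (z : En n) :
    HasFDerivAt (fderiv ℝ D.r) (fderiv ℝ (fderiv ℝ D.r) z) z :=
  (D.differentiable_fderiv_r z).hasFDerivAt

theorem norm_pr_q_sub_le {ζ ζ' : En n} (hζ : ζ ∈ ball (0 : En n) D.ε)
    (hζ' : ζ' ∈ ball (0 : En n) D.ε) (w : En n) :
    ‖pr (D.q ζ) w - pr (D.q ζ') w‖ ≤ 2 * D.C * ‖ζ - ζ'‖ * ‖w‖ := by
  have h1 : ‖fderiv ℝ D.r ζ - fderiv ℝ D.r ζ'‖ ≤ D.C * ‖ζ - ζ'‖ :=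
    (convex_ball (0 : En n) D.ε).norm_image_sub_le_of_norm_fderiv_le
      (fun x _ => D.differentiable_fderiv_r x) D.b2 hζ' hζ
  have h2 : pr (D.q ζ) w - pr (D.q ζ') w = cext (fderiv ℝ D.r ζ - fderiv ℝ D.r ζ') w := by
    rw [pr_q, pr_q, cext_apply]
    simp only [_root_.sub_apply]
    push_cast
    ring
  rw [h2]
  refine (norm_cext_le _ h1 w).trans (le_of_eq ?_)
  ring

theorem seg_hasDerivAt (ζ z : En n) (t : ℝ) :
    HasDerivAt (fun t : ℝ => D.r (ζ + t • (z - ζ)))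
      (fderiv ℝ D.r (ζ + t • (z - ζ)) (z - ζ)) t := by
  have h1 : HasDerivAt (fun t : ℝ => ζ + t • (z - ζ)) (z - ζ) t := by
    have := ((hasDerivAt_id t).smul_const (z - ζ)).const_add ζ
    simpa using this
  exact (D.hasFDerivAt_r _).comp_hasDerivAt t h1

theorem seg_hasDerivAt' (ζ z : En n) (t : ℝ) :
    HasDerivAt (fun t : ℝ => fderiv ℝ D.r (ζ + t • (z - ζ)) (z - ζ))
      (fderiv ℝ (fderiv ℝ D.r) (ζ + t • (z - ζ)) (z - ζ) (z - ζ)) t := by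
  have h1 : HasDerivAt (fun t : ℝ => ζ + t • (z - ζ)) (z - ζ) t := by
    have := ((hasDerivAt_id t).smul_const (z - ζ)).const_add ζ
    simpa using this
  have h2 := (D.hasFDerivAt_fderiv_r (ζ + t • (z - ζ))).comp_hasDerivAt t h1
  exact ((ContinuousLinearMap.apply ℝ ℝ (z - ζ)).hasFDerivAt.comp_hasDerivAt t h2)

theorem seg_mem {ζ z : En n} (hζ : ζ ∈ ball (0 : En n) D.ε) (hz : z ∈ ball (0 : En n) D.ε)
    {t : ℝ} (ht : t ∈ Icc (0 : ℝ) 1) : ζ + t • (z - ζ) ∈ ball (0 : En n) D.ε :=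
  (convex_ball (0 : En n) D.ε).add_smul_sub_mem hζ hz ht

theorem r_lower {ζ z : En n} (hζ : ζ ∈ ball (0 : En n) D.ε) (hz : z ∈ ball (0 : En n) D.ε) :
    D.r ζ + fderiv ℝ D.r ζ (z - ζ) + (D.c / 2) * ‖z - ζ‖ ^ 2 ≤ D.r z := by
  have h1 := taylor_lower (m := D.c * ‖z - ζ‖ ^ 2) (D.seg_hasDerivAt ζ z)
    (D.seg_hasDerivAt' ζ z) fun t ht => D.conv _ (D.seg_mem hζ hz ht) (z - ζ)
  simp only [zero_smul, add_zero, one_smul, add_sub_cancel] at h1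
  linarith

theorem r_upper {ζ z : En n} (hζ : ζ ∈ ball (0 : En n) D.ε) (hz : z ∈ ball (0 : En n) D.ε) :
    D.r z ≤ D.r ζ + fderiv ℝ D.r ζ (z - ζ) + (D.C / 2) * ‖z - ζ‖ ^ 2 := by
  have h1 := taylor_lower (g := fun t : ℝ => -D.r (ζ + t • (z - ζ)))
    (g' := fun t : ℝ => -(fderiv ℝ D.r (ζ + t • (z - ζ)) (z - ζ)))
    (g'' := fun t : ℝ => -(fderiv ℝ (fderiv ℝ D.r) (ζ + t • (z - ζ)) (z - ζ) (z - ζ)))
    (m := -(D.C * ‖z - ζ‖ ^ 2)) (fun t => (D.seg_hasDerivAt ζ z t).neg)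
    (fun t => (D.seg_hasDerivAt' ζ z t).neg) fun t ht => by
      have h2 := D.b2 _ (D.seg_mem hζ hz ht)
      have h3 := (fderiv ℝ (fderiv ℝ D.r) (ζ + t • (z - ζ))).le_of_opNorm₂_le_of_le h2
        (le_refl ‖z - ζ‖) (le_refl ‖z - ζ‖)
      have h4 := le_abs_self (fderiv ℝ (fderiv ℝ D.r) (ζ + t • (z - ζ)) (z - ζ) (z - ζ))
      rw [Real.norm_eq_abs] at h3
      nlinarith
  simp only [zero_smul, add_zero, one_smul, add_sub_cancel] at h1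
  linarith

theorem r_lip {ζ z : En n} (hζ : ζ ∈ ball (0 : En n) D.ε) (hz : z ∈ ball (0 : En n) D.ε) :
    |D.r z - D.r ζ| ≤ D.C * ‖z - ζ‖ := by
  have h1 := (convex_ball (0 : En n) D.ε).norm_image_sub_le_of_norm_fderiv_le
    (fun x _ => (D.hasFDerivAt_r x).differentiableAt) D.b1 hζ hz
  rwa [Real.norm_eq_abs] at h1

theorem re_L_ge {ζ z : En n} (hζ : ζ ∈ ball (0 : En n) D.ε) (hz : z ∈ ball (0 : En n) D.ε) :
    D.a ζ + D.a z + (D.c / 2) * ‖ζ - z‖ ^ 2 ≤ (D.L ζ z).re := by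
  have h1 := D.r_lower hζ hz
  have h2 : (D.L ζ z).re = 2 * D.a ζ + fderiv ℝ D.r ζ (ζ - z) := by
    rw [L, Complex.add_re, Complex.ofReal_re, re_pr_q]
  have h3 : fderiv ℝ D.r ζ (z - ζ) = - fderiv ℝ D.r ζ (ζ - z) := by
    rw [← map_neg, neg_sub]
  rw [h2]
  rw [h3, norm_sub_rev] at h1
  unfold a
  linarith

theorem norm_L_ge : ∃ c' : ℝ, 0 < c' ∧ c' ≤ 1 ∧ ∀ ζ z : En n, ζ ∈ ball (0 : En n) D.ε →
    z ∈ ball (0 : En n) D.ε → 0 ≤ D.a ζ → 0 ≤ D.a z →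
    c' * (D.a ζ + D.a z + ‖ζ - z‖ ^ 2 + ‖pr (D.q z) (ζ - z)‖) ≤ ‖D.L ζ z‖ := by
  have hc := D.hc
  have hC := D.hC
  have hCpos : 0 < D.C := by linarith
  have hden : 1 ≤ 4 + 2 / D.c + 4 * D.C / D.c := by
    have h1 : 0 ≤ 2 / D.c := by positivity
    have h2 : 0 ≤ 4 * D.C / D.c := by positivity
    linarith
  refine ⟨(4 + 2 / D.c + 4 * D.C / D.c)⁻¹, by positivity, inv_le_one_of_one_le₀ hden,
    fun ζ z hζ hz haζ haz => ?_⟩
  have h1 : D.a ζ + D.a z + (D.c / 2) * ‖ζ - z‖ ^ 2 ≤ ‖D.L ζ z‖ :=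
    (D.re_L_ge hζ hz).trans (Complex.re_le_norm _)
  have hw : 0 ≤ ‖ζ - z‖ ^ 2 := by positivity
  have hcw : 0 ≤ (D.c / 2) * ‖ζ - z‖ ^ 2 := by positivity
  have h2 : ‖ζ - z‖ ^ 2 ≤ (2 / D.c) * ‖D.L ζ z‖ := by
    have h3 : (D.c / 2) * ‖ζ - z‖ ^ 2 ≤ ‖D.L ζ z‖ := by linarith
    calc ‖ζ - z‖ ^ 2 = (2 / D.c) * ((D.c / 2) * ‖ζ - z‖ ^ 2) := by field_simp
      _ ≤ (2 / D.c) * ‖D.L ζ z‖ := mul_le_mul_of_nonneg_left h3 (by positivity)
  have h3 : ‖pr (D.q ζ) (ζ - z)‖ ≤ ‖D.L ζ z‖ + 2 * D.a ζ := by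
    have h4 : pr (D.q ζ) (ζ - z) = D.L ζ z - ((2 * D.a ζ : ℝ) : ℂ) := by
      rw [L]
      ring
    have h5 : ‖((2 * D.a ζ : ℝ) : ℂ)‖ = 2 * D.a ζ := by
      rw [Complex.norm_real, Real.norm_eq_abs, abs_of_nonneg (by linarith)]
    rw [h4]
    refine (norm_sub_le _ _).trans ?_
    rw [h5]
  have h4 : ‖pr (D.q z) (ζ - z)‖ ≤ ‖pr (D.q ζ) (ζ - z)‖ + 2 * D.C * ‖ζ - z‖ ^ 2 := by
    have h5 := D.norm_pr_q_sub_le hζ hz (ζ - z)
    have h6 : ‖pr (D.q z) (ζ - z)‖ ≤ ‖pr (D.q ζ) (ζ - z)‖ +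
        ‖pr (D.q ζ) (ζ - z) - pr (D.q z) (ζ - z)‖ := by
      have h7 := norm_sub_le (pr (D.q ζ) (ζ - z)) (pr (D.q ζ) (ζ - z) - pr (D.q z) (ζ - z))
      rwa [sub_sub_cancel] at h7
    have h8 : 2 * D.C * ‖ζ - z‖ * ‖ζ - z‖ = 2 * D.C * ‖ζ - z‖ ^ 2 := by ring
    linarith
  have h5 : 2 * D.C * ‖ζ - z‖ ^ 2 ≤ (4 * D.C / D.c) * ‖D.L ζ z‖ := by
    calc 2 * D.C * ‖ζ - z‖ ^ 2 ≤ 2 * D.C * ((2 / D.c) * ‖D.L ζ z‖) :=
          mul_le_mul_of_nonneg_left h2 (by positivity)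
      _ = (4 * D.C / D.c) * ‖D.L ζ z‖ := by ring
  have h6 : D.a ζ + D.a z + ‖ζ - z‖ ^ 2 + ‖pr (D.q z) (ζ - z)‖ ≤
      (4 + 2 / D.c + 4 * D.C / D.c) * ‖D.L ζ z‖ := by
    have h7 : D.a ζ + D.a z ≤ ‖D.L ζ z‖ := by linarith
    have h8 : (4 + 2 / D.c + 4 * D.C / D.c) * ‖D.L ζ z‖ =
      4 * ‖D.L ζ z‖ + (2 / D.c) * ‖D.L ζ z‖ + (4 * D.C / D.c) * ‖D.L ζ z‖ := by ring
    linarith
  have hpos : 0 < 4 + 2 / D.c + 4 * D.C / D.c := by linarith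
  rw [inv_mul_le_iff₀ hpos]
  exact h6

theorem norm_L_le : ∃ C' : ℝ, 1 ≤ C' ∧ ∀ ζ z : En n, ζ ∈ ball (0 : En n) D.ε →
    z ∈ ball (0 : En n) D.ε → ‖D.L ζ z‖ ≤ C' := by
  have hC := D.hC
  refine ⟨2 + 4 * D.C, by linarith, fun ζ z hζ hz => ?_⟩
  have h1 : ‖((2 * D.a ζ : ℝ) : ℂ)‖ ≤ 2 := by
    rw [Complex.norm_real, Real.norm_eq_abs, abs_mul, abs_two, a, abs_neg]
    have := D.b0 ζ hζ
    linarith
  have h2 : ‖ζ - z‖ ≤ 2 := by
    have h3 : ‖ζ‖ < D.ε := by simpa using hζ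
    have h4 : ‖z‖ < D.ε := by simpa using hz
    have h5 := norm_sub_le ζ z
    have h6 := D.hε1
    linarith
  have h3 : ‖pr (D.q ζ) (ζ - z)‖ ≤ 4 * D.C := by
    calc ‖pr (D.q ζ) (ζ - z)‖ ≤ 2 * D.C * ‖ζ - z‖ := D.norm_pr_q_le hζ _
      _ ≤ 2 * D.C * 2 := mul_le_mul_of_nonneg_left h2 (by linarith)
      _ = 4 * D.C := by ring
  calc ‖D.L ζ z‖ ≤ ‖((2 * D.a ζ : ℝ) : ℂ)‖ + ‖pr (D.q ζ) (ζ - z)‖ := norm_add_le _ _
    _ ≤ 2 + 4 * D.C := by linarith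

end LData

end Pool.Agent.H8.FZ
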