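import Pool.Agent.H8.FZ.Defs

/-!
# FZ-LOG: holomorphic logarithm on a convex open set

`U ⊆ ℂⁿ` open convex, `f` holomorphic and zero free on `U`. Then `f = exp(-h)` with `h`
holomorphic on `U`. If `U = ∅` take `h = 0`. Otherwise `U` is simply connected (convex nonempty:
contractible), so there is a continuous `g` with `exp ∘ g = f` on `U`
(`Complex.exists_continuousOn_eqOn_exp_comp`), and `g` is holomorphic because `exp` is a local
biholomorphism (near each point `g = log_branch ∘ f`: e.g. `HasStrictFDerivAt`/`HasStrictDerivAt`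
inverse function lemmas such as `HasStrictDerivAt.of_local_left_inverse`, `HasFDerivAt.of_local_left_inverse`,
or: near `z₀`, `f z / f z₀` is close to `1` and `g z = g z₀ + log (f z / f z₀)` by continuity and
connectedness of a small ball).
-/

set_option autoImplicit false

noncomputable section

namespace Pool.Agent.H8.FZ

open Complex Metric MeasureTheory Set Filter Topology
open scoped ContDiff ComplexConjugate

variable {n : ℕ}

theorem exists_log {U : Set (En n)} (hU : IsOpen U) (hUc : Convex ℝ U) {f : En n → ℂ}
    (hf : DifferentiableOn ℂ f U) (hf0 : ∀ z ∈ U, f z ≠ 0) :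
    ∃ h : En n → ℂ, DifferentiableOn ℂ h U ∧ ∀ z ∈ U, f z = Complex.exp (-(h z)) := by
  rcases U.eq_empty_or_nonempty with rfl | hne
  · exact ⟨fun _ => 0, differentiableOn_empty, by simp⟩
  haveI := hUc.contractibleSpace hne
  have hsc : IsSimplyConnected U := by
    unfold IsSimplyConnected
    infer_instance
  obtain ⟨g, hgc, hg⟩ := Complex.exists_continuousOn_eqOn_exp_comp hsc hU hf.continuousOn (by
    rintro ⟨z, hz, h0⟩
    exact hf0 z hz h0)
  refine ⟨fun z => - g z, ?_, ?_⟩
  · intro z hz
    have hgz : ContinuousAt g z := hgc.continuousAt (hU.mem_nhds hz)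
    have hfz : HasFDerivAt f (fderiv ℂ f z) z :=
      (hf.differentiableAt (hU.mem_nhds hz)).hasFDerivAt
    have hexp : HasFDerivAt Complex.exp
        (ContinuousLinearMap.toSpanSingleton ℂ (Complex.exp (g z))) (g z) :=
      (Complex.hasDerivAt_exp (g z)).hasFDerivAt
    have hev : (Complex.exp ∘ g) =ᶠ[𝓝 z] f := by
      filter_upwards [hU.mem_nhds hz] with x hx using hg hx
    have hgd : HasFDerivAt g ((ContinuousLinearMap.toSpanSingleton ℂ (Complex.exp (g z))⁻¹) ∘L
        (fderiv ℂ f z)) z := by
      refine HasFDerivAt.of_comp_of_leftInverse hgz hexp hfz hev ?_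
      intro t
      simp [mul_assoc, Complex.exp_ne_zero]
    exact hgd.neg.differentiableAt.differentiableWithinAt
  · intro z hz
    rw [neg_neg]
    exact (hg hz).symm

end Pool.Agent.H8.FZ
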