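import Pool.Agent.H8.FZ.BMain
import Pool.Agent.H8.FZ.CMain
import Pool.Agent.H8.FZ.HHol
import Pool.Agent.H8.FZ.Log

/-!
# FZ-LOC: the local theorem in flattened coordinates

`f = exp(-h)` on `S` (`exists_log`, `convex_S`), `U = re h = -log‖f‖ > 0` as `‖f‖ < 1`. `h` is `Tame`
by `growth` and `deriv_growth`. Take a cut-off `χ` (exists: `ContDiffBump`/smooth bump with
`rIn = 3ε/8`, `rOut = 7ε/16`) and `ν` from `exists_nu`. Put `H = (2/c) HT`, `c = cmm n > 0`.

Since `U = (h + h̄)/2`, `repro` and `conj_bounded` give for `z' ∈ S`, `‖z'‖ < ε/4`: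
`|(2/c) ∫ χ U K(·,z') - h(z')| ≤ C`. With `ht_diff`:
`re H(z) ≥ U(z') - C - C(1 + U(z')^{7/8}) ≥ ½ U(z') - C'` for `dist(z,F) ≤ ls` (`0 < dist`; if
`dist(z,F) = 0`, i.e. `z ∈ F`, then `r z < 0` is impossible as `r = 0` on `F`).
Flatness: `U(z') = -log‖f z'‖ ≥ 2k log(1/dist(z',F)) - log C_{2k}` and
`dist(z',F) ≤ 2 dist(z,F)`. So `re H ≥ k log(1/dist(z,F)) - C`. For `dist(z,F) ≥ ls` use
`ht_bounded`, `log(1/dist) ≤ log(1/ls)`.
-/

set_option autoImplicit false

noncomputable section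

namespace Pool.Agent.H8.FZ

open Complex Metric MeasureTheory Set Filter Topology
open scoped ContDiff ComplexConjugate

variable {n : ℕ}

namespace LData

variable (D : LData n)

theorem exists_cut : Nonempty D.Cut := by
  have h1 := D.hε
  let f : ContDiffBump (0 : En n) := ⟨3 * D.ε / 8, 7 * D.ε / 16, by linarith, by linarith⟩
  refine ⟨⟨f, f.contDiff, fun z => f.nonneg, fun z => f.le_one, fun z hz => ?_, fun z hz => ?_⟩⟩
  · refine f.one_of_mem_closedBall ?_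
    rw [mem_closedBall, dist_zero_right]
    exact hz
  · refine f.zero_of_le_dist ?_
    rw [dist_zero_right]
    exact hz

theorem exists_isNu : ∃ (ν : En n → En n) (Cν : ℝ), D.IsNu ν Cν := by
  obtain ⟨ν, Cν, h1, h2, h3⟩ := D.exists_nu
  exact ⟨ν, Cν, h1, h2, h3⟩

theorem loc_a_pos {ζ : En n} (hζ : ζ ∈ D.S) : 0 < D.a ζ := by
  have := hζ.2
  unfold a
  linarith

theorem tame {h : En n → ℂ} (hh : DifferentiableOn ℂ h D.S) (hpos : ∀ z ∈ D.S, 0 < (h z).re) :
    ∃ C₁ : ℝ, D.Tame h C₁ := by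
  obtain ⟨C₀, h0, h1⟩ := D.growth hh hpos
  obtain ⟨C₁, h2, h3⟩ := D.deriv_growth hh hpos
  have hε := D.hε
  refine ⟨max C₀ C₁, hh, le_max_of_le_left h0, fun ζ hζ hn => ⟨?_, ?_⟩⟩
  · refine (h1 ζ hζ (by linarith)).1.trans ?_
    exact div_le_div_of_nonneg_right (le_max_left _ _) (D.loc_a_pos hζ).le
  · refine (h3 ζ hζ hn).trans ?_
    exact div_le_div_of_nonneg_right (le_max_right _ _) (sq_nonneg _)

/-- integrability of the kernel integrals -/
theorem loc_integrable (χ : D.Cut) {g : En n → ℂ} {C₁ : ℝ} (hg : ContinuousOn g D.S)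
    (hb : ∀ ζ ∈ D.S, ‖ζ‖ ≤ D.ε / 2 → ‖g ζ‖ ≤ C₁ / D.a ζ) {z : En n} (hz : z ∈ D.S) :
    IntegrableOn (fun ζ => (χ.χ ζ : ℂ) * g ζ * D.K ζ z) D.S := by
  obtain ⟨c', hc', -, hL⟩ := D.norm_L_ge
  have haz := D.loc_a_pos hz
  have hLz : ∀ ζ ∈ D.S, c' * D.a z ≤ ‖D.L ζ z‖ := by
    intro ζ hζ
    refine le_trans ?_ (hL ζ z hζ.1 hz.1 (D.loc_a_pos hζ).le haz.le)
    refine mul_le_mul_of_nonneg_left ?_ hc'.le
    have h1 := (D.loc_a_pos hζ).le
    have h2 := sq_nonneg ‖ζ - z‖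
    have h3 := norm_nonneg (pr (D.q z) (ζ - z))
    linarith
  have hcaz : 0 < c' * D.a z := mul_pos hc' haz
  have hL0 : ∀ ζ ∈ D.S, D.L ζ z ≠ 0 := by
    intro ζ hζ h0
    have := hLz ζ hζ
    rw [h0, norm_zero] at this
    linarith
  -- the numerator is bounded
  have hcd : Continuous D.Delta := D.contDiff_Delta.continuous
  obtain ⟨M, hM⟩ := (isCompact_closedBall (0 : En n) (D.ε / 2)).exists_bound_of_continuousOn
    hcd.continuousOn
  have hM0 : 0 ≤ M := by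
    refine (norm_nonneg _).trans (hM 0 ?_)
    rw [mem_closedBall, dist_self]
    have := D.hε
    linarith
  have hLc : Continuous (fun ζ => D.L ζ z) :=
    D.contDiff_L.continuous.comp (by fun_prop : Continuous fun ζ : En n => (ζ, z))
  have hac : Continuous D.a := D.contDiff_a.continuous
  have hχc : Continuous χ.χ := χ.smooth.continuous
  have hexp : mm n - n - 1 = (3 * n + 6) + 1 := by unfold mm; omega
  have hfin : volume D.S ≠ ⊤ := by
    refine ne_of_lt (lt_of_le_of_lt (measure_mono (fun x hx => hx.1)) measure_ball_lt_top)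
  haveI : IsFiniteMeasure (volume.restrict D.S) :=
    ⟨by rw [Measure.restrict_apply_univ]; exact lt_top_iff_ne_top.2 hfin⟩
  refine Integrable.of_bound ?_ (2 * |C₁| * 2 ^ (3 * n + 6) * M * (c' * D.a z)⁻¹ ^ mm n) ?_
  · refine ContinuousOn.aestronglyMeasurable ?_ D.isOpen_S.measurableSet
    refine ContinuousOn.mul (ContinuousOn.mul ?_ hg) ?_
    · exact (continuous_ofReal.comp hχc).continuousOn
    · unfold K
      refine ContinuousOn.mul ?_ ?_
      · refine Continuous.continuousOn ?_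
        fun_prop
      · exact (ContinuousOn.inv₀ hLc.continuousOn hL0).pow _
  · rw [ae_restrict_iff' D.isOpen_S.measurableSet]
    refine ae_of_all _ fun ζ hζ => ?_
    have haζ := D.loc_a_pos hζ
    have hbd0 : 0 ≤ 2 * |C₁| * 2 ^ (3 * n + 6) * M * (c' * D.a z)⁻¹ ^ mm n := by positivity
    by_cases hn : 7 * D.ε / 16 ≤ ‖ζ‖
    · rw [χ.zero ζ hn]
      simpa using hbd0
    · push Not at hn
      have hε := D.hε
      have hn2 : ‖ζ‖ ≤ D.ε / 2 := by linarith
      have ha1 : D.a ζ ≤ 1 := by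
        have := (abs_le.1 (D.b0 ζ hζ.1)).1
        unfold a
        linarith
      have e1 : ‖(χ.χ ζ : ℂ)‖ ≤ 1 := by
        rw [Complex.norm_real, Real.norm_of_nonneg (χ.nonneg ζ)]
        exact χ.le_one ζ
      have e2 := hb ζ hζ hn2
      have e3 : ‖g ζ‖ ≤ |C₁| / D.a ζ :=
        e2.trans (div_le_div_of_nonneg_right (le_abs_self _) haζ.le)
      have e4 : ‖((2 * D.a ζ : ℝ) : ℂ) ^ (mm n - n - 1)‖ ≤ (2 * D.a ζ) * 2 ^ (3 * n + 6) := by
        rw [norm_pow, Complex.norm_real, Real.norm_of_nonneg (by linarith), hexp, pow_succ,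
          mul_comm]
        refine mul_le_mul_of_nonneg_left ?_ (by linarith)
        exact pow_le_pow_left₀ (by linarith) (by linarith) _
      have e5 : ‖D.Delta ζ‖ ≤ M := hM ζ (by rw [mem_closedBall, dist_zero_right]; exact hn2)
      have e6 : ‖(D.L ζ z)⁻¹ ^ mm n‖ ≤ (c' * D.a z)⁻¹ ^ mm n := by
        rw [norm_pow, norm_inv]
        exact pow_le_pow_left₀ (by positivity) (inv_anti₀ hcaz (hLz ζ hζ)) _
      calc ‖(χ.χ ζ : ℂ) * g ζ * D.K ζ z‖
          = ‖(χ.χ ζ : ℂ)‖ * ‖g ζ‖ * (‖((2 * D.a ζ : ℝ) : ℂ) ^ (mm n - n - 1)‖ * ‖D.Delta ζ‖ *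
              ‖(D.L ζ z)⁻¹ ^ mm n‖) := by
            unfold K
            rw [norm_mul, norm_mul, norm_mul, norm_mul]
        _ ≤ 1 * (|C₁| / D.a ζ) * (((2 * D.a ζ) * 2 ^ (3 * n + 6)) * M *
              (c' * D.a z)⁻¹ ^ mm n) := by
            gcongr
        _ = 2 * |C₁| * 2 ^ (3 * n + 6) * M * (c' * D.a z)⁻¹ ^ mm n := by
            field_simp

/-- the integral of the real part -/
theorem loc_split (χ : D.Cut) {h : En n → ℂ} {C₁ : ℝ} (hh : D.Tame h C₁) {z : En n}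
    (hz : z ∈ D.S) : (∫ ζ in D.S, (χ.χ ζ : ℂ) * ((h ζ).re : ℂ) * D.K ζ z) =
      (1 / 2 : ℂ) * ((∫ ζ in D.S, (χ.χ ζ : ℂ) * h ζ * D.K ζ z) +
        ∫ ζ in D.S, (χ.χ ζ : ℂ) * conj (h ζ) * D.K ζ z) := by
  have hc : ContinuousOn h D.S := hh.1.continuousOn
  have i1 := D.loc_integrable χ (g := h) hc (fun ζ h1 h2 => (hh.2.2 ζ h1 h2).1) hz
  have i2 := D.loc_integrable χ (g := fun ζ => conj (h ζ))
    (continuous_conj.comp_continuousOn hc)
    (fun ζ h1 h2 => by rw [RCLike.norm_conj]; exact (hh.2.2 ζ h1 h2).1) hz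
  rw [← integral_add i1 i2, ← integral_const_mul]
  refine integral_congr_ae (ae_of_all _ fun ζ => ?_)
  have : ((h ζ).re : ℂ) = (1 / 2) * (h ζ + conj (h ζ)) := by
    rw [Complex.add_conj]
    push_cast
    ring
  simp only
  rw [this]
  ring

theorem loc_real {B U : ℝ} (hB : 0 ≤ B) (hU : 0 ≤ U) :
    B * U ^ (7 / 8 : ℝ) ≤ U / 2 + B * (2 * B) ^ (7 : ℕ) := by
  obtain ⟨t, ht0, rfl⟩ : ∃ t : ℝ, 0 ≤ t ∧ U = t ^ (8 : ℕ) := by
    refine ⟨U ^ (1 / 8 : ℝ), Real.rpow_nonneg hU _, ?_⟩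
    rw [← Real.rpow_natCast, ← Real.rpow_mul hU]
    norm_num
  have e1 : (t ^ (8 : ℕ)) ^ (7 / 8 : ℝ) = t ^ (7 : ℕ) := by
    rw [← Real.rpow_natCast, ← Real.rpow_mul ht0, ← Real.rpow_natCast]
    norm_num
  rw [e1]
  rcases le_total (2 * B) t with h | h
  · have h1 : 2 * B * t ^ 7 ≤ t * t ^ 7 := mul_le_mul_of_nonneg_right h (by positivity)
    have h2 : 0 ≤ B * (2 * B) ^ 7 := by positivity
    have h3 : t * t ^ 7 = t ^ 8 := by ring
    linarith
  · have h1 : t ^ 7 ≤ (2 * B) ^ 7 := pow_le_pow_left₀ ht0 h 7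
    have h2 : B * t ^ 7 ≤ B * (2 * B) ^ 7 := mul_le_mul_of_nonneg_left h1 hB
    have h3 : 0 ≤ t ^ 8 := by positivity
    linarith

theorem loc (hn : 2 ≤ n) {F : Set (En n)} (hFc : IsClosed F) (hFn : F.Nonempty)
    (hFb : F ⊆ closedBall 0 (D.ε / 8)) (hFr : ∀ x ∈ F, D.r x = 0) {f : En n → ℂ}
    (hf : DifferentiableOn ℂ f D.S) (hf0 : ∀ z ∈ D.S, f z ≠ 0) (hf1 : ∀ z ∈ D.S, ‖f z‖ < 1)
    (hflat : ∀ k : ℕ, ∃ C : ℝ, ∀ z ∈ D.S, ‖z‖ < D.ε / 2 → ‖f z‖ ≤ C * infDist z F ^ k) :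
    ∃ (δ : ℝ) (H : En n → ℂ), 0 < δ ∧
      DifferentiableOn ℂ H
        {z | z ∈ ball (0 : En n) (D.ε / 4) ∧ D.r z < δ * infDist z F ^ MM n} ∧
      ∀ k : ℕ, ∃ C : ℝ, ∀ z ∈ ball (0 : En n) (3 * D.ε / 16),
        D.r z < δ * infDist z F ^ MM n → k * Real.log (1 / infDist z F) - C ≤ (H z).re := by
  have hε := D.hε
  obtain ⟨h, hh, hfh⟩ := exists_log D.isOpen_S D.convex_S hf hf0
  have hnorm : ∀ z ∈ D.S, ‖f z‖ = Real.exp (-(h z).re) := by
    intro z hz
    rw [hfh z hz, Complex.norm_exp, Complex.neg_re]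
  have hpos : ∀ z ∈ D.S, 0 < (h z).re := by
    intro z hz
    have h1 := hf1 z hz
    rw [hnorm z hz, Real.exp_lt_one_iff] at h1
    linarith
  obtain ⟨C₁, htame⟩ := D.tame hh hpos
  obtain ⟨χ⟩ := D.exists_cut
  obtain ⟨ν, Cν, hν⟩ := D.exists_isNu
  obtain ⟨Cr, hCr, hrep⟩ := D.repro χ htame
  obtain ⟨Cc, hCc, hconj⟩ := D.conj_bounded χ htame
  obtain ⟨δ₁, hδ₁, hhol⟩ := D.ht_holo χ hh hpos
  obtain ⟨δ₂, ls, Cd, hδ₂, hls, hls1, hCd, hdiff⟩ := D.ht_diff hn χ hh hpos hν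
  obtain ⟨δ₃, Cb, hδ₃, hbdd⟩ := D.ht_bounded χ hh hpos hls
  have hc : 0 < cmm n := cmm_pos
  obtain ⟨c, hcdef⟩ : ∃ c, c = cmm n := ⟨_, rfl⟩
  rw [← hcdef] at hc hrep
  have hδ : 0 < min δ₁ (min δ₂ δ₃) := lt_min hδ₁ (lt_min hδ₂ hδ₃)
  have hd1 : ∀ z, min δ₁ (min δ₂ δ₃) * infDist z F ^ MM n ≤ δ₁ * infDist z F ^ MM n := fun z =>
    mul_le_mul_of_nonneg_right (min_le_left _ _) (pow_nonneg infDist_nonneg _)
  have hd2 : ∀ z, min δ₁ (min δ₂ δ₃) * infDist z F ^ MM n ≤ δ₂ * infDist z F ^ MM n := fun z =>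
    mul_le_mul_of_nonneg_right ((min_le_right _ _).trans (min_le_left _ _))
      (pow_nonneg infDist_nonneg _)
  have hd3 : ∀ z, min δ₁ (min δ₂ δ₃) * infDist z F ^ MM n ≤ δ₃ * infDist z F ^ MM n := fun z =>
    mul_le_mul_of_nonneg_right ((min_le_right _ _).trans (min_le_right _ _))
      (pow_nonneg infDist_nonneg _)
  refine ⟨min δ₁ (min δ₂ δ₃), fun z => ((2 / c : ℝ) : ℂ) * D.HT χ h F z, hδ, ?_, ?_⟩
  · refine DifferentiableOn.const_mul ?_ _
    refine (hhol F hFn hFb).mono ?_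
    intro z hz
    exact ⟨hz.1, hz.2.trans_le (hd1 z)⟩
  · intro k
    obtain ⟨Cf, hCf⟩ := hflat (2 * k)
    have hA : 0 ≤ (Cr + Cc + 2 * Cd) / c := by positivity
    have hB : 0 ≤ 2 * Cd / c := by positivity
    have hC' : 0 ≤ 2 * Cd / c * (2 * (2 * Cd / c)) ^ 7 := by positivity
    have hlC : 0 ≤ Real.log (max Cf 1) := Real.log_nonneg (le_max_right _ _)
    have hl2 : 0 ≤ Real.log 2 := Real.log_nonneg (by norm_num)
    have hlls : 0 ≤ Real.log (1 / ls) :=
      Real.log_nonneg (by rw [le_div_iff₀ hls]; linarith)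
    have hCb : 0 ≤ 2 / c * |Cb| := by positivity
    have hk0 : (0 : ℝ) ≤ k := Nat.cast_nonneg k
    refine ⟨(Cr + Cc + 2 * Cd) / c + 2 * Cd / c * (2 * (2 * Cd / c)) ^ 7 +
      (Real.log (max Cf 1) + 2 * k * Real.log 2) / 2 + k * Real.log (1 / ls) + 2 / c * |Cb|, ?_⟩
    intro z hz hrz
    have hz' : ‖z‖ < 3 * D.ε / 16 := by
      rw [mem_ball, dist_zero_right] at hz
      exact hz
    have hd0 : 0 < infDist z F := by
      refine lt_of_le_of_ne infDist_nonneg (fun h0 => ?_)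
      have hzF : z ∈ F := (hFc.mem_iff_infDist_zero hFn).2 h0.symm
      have h1 := hFr z hzF
      rw [h1, ← h0, zero_pow (by unfold MM; omega), mul_zero] at hrz
      exact lt_irrefl _ hrz
    have hre : (((2 / c : ℝ) : ℂ) * D.HT χ h F z).re = 2 / c * (D.HT χ h F z).re := by
      rw [Complex.re_ofReal_mul]
    rw [hre]
    rcases le_total (infDist z F) ls with hcase | hcase
    · -- near `F`
      obtain ⟨hz'S, hz'n, hz'd, hz'e⟩ := hdiff F hFn hFb z hz' (hrz.trans_le (hd2 z)) hd0 hcase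
      obtain ⟨w, hw⟩ : ∃ w, w = z - (tau F z : ℂ) • ν z := ⟨_, rfl⟩
      rw [← hw] at hz'S hz'n hz'd hz'e
      rw [D.loc_split χ htame hz'S] at hz'e
      have e1 := hrep w hz'S hz'n
      have e2 := hconj w hz'S hz'n
      obtain ⟨I1, hI1⟩ : ∃ I1, I1 = ∫ ζ in D.S, (χ.χ ζ : ℂ) * h ζ * D.K ζ w := ⟨_, rfl⟩
      obtain ⟨I2, hI2⟩ : ∃ I2, I2 = ∫ ζ in D.S, (χ.χ ζ : ℂ) * conj (h ζ) * D.K ζ w := ⟨_, rfl⟩
      rw [← hI1] at e1 hz'e
      rw [← hI2] at e2 hz'e
      have hU : 0 < (h w).re := hpos w hz'S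
      -- real parts
      have r1 : -(Cd * (1 + (h w).re ^ (7 / 8 : ℝ))) ≤
          (D.HT χ h F z).re - (1 / 2) * (I1.re + I2.re) := by
        have := (abs_le.1 ((Complex.abs_re_le_norm _).trans hz'e)).1
        have e : (D.HT χ h F z - 1 / 2 * (I1 + I2)).re =
            (D.HT χ h F z).re - (1 / 2) * (I1.re + I2.re) := by
          simp [Complex.sub_re, Complex.mul_re]
        rw [e] at this
        exact this
      have r2 : -Cr ≤ I1.re - c * (h w).re := by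
        have := (abs_le.1 ((Complex.abs_re_le_norm _).trans e1)).1
        rwa [Complex.sub_re, Complex.re_ofReal_mul] at this
      have r3 : -Cc ≤ I2.re := (abs_le.1 ((Complex.abs_re_le_norm _).trans e2)).1
      have r4 : c / 2 * (h w).re - (Cr + Cc) / 2 - Cd * (1 + (h w).re ^ (7 / 8 : ℝ)) ≤
          (D.HT χ h F z).re := by linarith
      have r5 : (h w).re - (Cr + Cc + 2 * Cd) / c - 2 * Cd / c * (h w).re ^ (7 / 8 : ℝ) ≤
          2 / c * (D.HT χ h F z).re := by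
        have := mul_le_mul_of_nonneg_left r4 (by positivity : 0 ≤ 2 / c)
        refine le_trans (le_of_eq ?_) this
        field_simp
        ring
      have r6 := loc_real hB hU.le
      -- flatness
      have r7 : 2 * k * Real.log (1 / infDist z F) -
          (Real.log (max Cf 1) + 2 * k * Real.log 2) ≤ (h w).re := by
        have h1 := hCf w hz'S (by linarith)
        rw [hnorm w hz'S] at h1
        have h2 : Cf * infDist w F ^ (2 * k) ≤ max Cf 1 * (2 * infDist z F) ^ (2 * k) := by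
          refine mul_le_mul (le_max_left _ _) ?_ (pow_nonneg infDist_nonneg _)
            (le_trans zero_le_one (le_max_right _ _))
          exact pow_le_pow_left₀ infDist_nonneg hz'd _
        have h3 := Real.log_le_log (Real.exp_pos _) (h1.trans h2)
        have hm : max Cf 1 ≠ 0 := (lt_of_lt_of_le zero_lt_one (le_max_right _ _)).ne'
        rw [Real.log_exp, Real.log_mul hm (by positivity), Real.log_pow,
          Real.log_mul (by norm_num) hd0.ne'] at h3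
        rw [one_div, Real.log_inv]
        push_cast at h3
        linarith
      have r8 : 0 ≤ k * Real.log (1 / ls) := mul_nonneg hk0 hlls
      linarith
    · -- away from `F`
      have e1 := hbdd F hFn hFb z (by rw [mem_ball, dist_zero_right]; linarith)
        (hrz.trans_le (hd3 z)) hcase
      have e2 : -|Cb| ≤ (D.HT χ h F z).re := by
        have := (abs_le.1 ((Complex.abs_re_le_norm _).trans e1)).1
        have := le_abs_self Cb
        linarith
      have e3 : -(2 / c * |Cb|) ≤ 2 / c * (D.HT χ h F z).re := by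
        have := mul_le_mul_of_nonneg_left e2 (by positivity : 0 ≤ 2 / c)
        linarith
      have e4 : Real.log (1 / infDist z F) ≤ Real.log (1 / ls) := by
        refine Real.log_le_log (by positivity) ?_
        exact one_div_le_one_div_of_le hls hcase
      have e5 : k * Real.log (1 / infDist z F) ≤ k * Real.log (1 / ls) :=
        mul_le_mul_of_nonneg_left e4 hk0
      have e6 : 0 ≤ (Real.log (max Cf 1) + 2 * k * Real.log 2) / 2 := by positivity
      linarith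

end LData

end Pool.Agent.H8.FZ
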