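import Pool.Agent.H8.FZ.Loc
import Pool.Agent.H8.FZ.Flat
import Pool.Agent.H8.FZ.Decay
import Pool.Agent.H8.FZ.Exh0

/-!
# FZ-LOCORIG: the local theorem in the original coordinates

Let `p ∈ F ⊆ E ⊆ frontier D₀`. `ρ p = 0` (`frontier D₀ ⊆ {ρ = 0}`: `D₀ = {ρ < 0}` is open, `ρ`
continuous). `flatten` at `p` gives `D, Ψ, A`; `inverse` gives `Φ` on the open set
`Ψ '' ball 0 ε`. For `x ∈ ball 0 ε`: `D.r x = ρ(Ψx)(1 + Aρ(Ψx))` with `1 + Aρ ∈ [1/2, 3/2]`, so
`D.r x < 0 ↔ ρ(Ψ x) < 0 ↔ Ψ x ∈ D₀` and `D.r x ≤ (3/2) max(ρ(Ψ x), 0)`.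
Choose `R` with `32 R ≤ ε` and `ball p (4R) ⊆ Ψ '' ball 0 ε` (open, contains `p = Ψ 0`). For
`y = Ψ x ∈ ball p (4R)`: `‖x‖ ≤ 2‖y - p‖ < 8R ≤ ε/4`; for `y ∈ ball p (2R)`, `‖x‖ < 4R ≤ 3ε/16`; for
`y ∈ closedBall p R`, `‖x‖ ≤ 2R ≤ ε/8`.
Given `F'`, let `F̃ = Φ '' F' = {x ∈ closedBall 0 (ε/8) : Ψ x ∈ F'}` (closed, nonempty),
`½ infDist (Ψx) F' ≤ infDist x F̃ ≤ 2 infDist (Ψ x) F'` for `x ∈ ball 0 ε`. Scale `f` to
`f/(1 + sup)` so that `‖f‖ < 1` (bounded on the compact `closure D₀`), `f ≠ 0` on `D₀` because the zero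
set is in `E ⊆ frontier D₀`. `flat_decay` and `loc` for `f̃ = (f∘Ψ)/(1+sup)` give `δ̃, H̃`. Put
`H = H̃ ∘ Φ`, `M = MM n`, `δ = δ̃/(2·2^M)`: if `y = Ψx`, `ρ y < δ infDist y F'^M` then
`D.r x < δ̃ infDist x F̃^M` (if `ρ y < 0`, then `r x < 0`; note `infDist x F̃ ≥ ½ infDist y F'`).
-/

set_option autoImplicit false

noncomputable section

namespace Pool.Agent.H8.FZ

open Complex Metric MeasureTheory Set Filter Topology
open scoped ContDiff ComplexConjugate

variable {n : ℕ}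

/-- distances in flattened coordinates -/
private theorem infDist_flat {Ψ : En n → En n} {ε : ℝ}
    (hL : ∀ x ∈ ball (0 : En n) ε, ∀ y ∈ ball (0 : En n) ε,
      ‖x - y‖ ≤ 2 * ‖Ψ x - Ψ y‖ ∧ ‖Ψ x - Ψ y‖ ≤ 2 * ‖x - y‖) {F' G : Set (En n)}
    (hF' : F'.Nonempty) (hG : G.Nonempty) (h1 : ∀ e ∈ G, e ∈ ball (0 : En n) ε ∧ Ψ e ∈ F')
    (h2 : ∀ y ∈ F', ∃ e ∈ G, Ψ e = y) {x : En n} (hx : x ∈ ball (0 : En n) ε) :
    infDist (Ψ x) F' ≤ 2 * infDist x G ∧ infDist x G ≤ 2 * infDist (Ψ x) F' := by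
  constructor
  · have h3 : infDist (Ψ x) F' / 2 ≤ infDist x G := by
      rw [Metric.le_infDist hG]
      intro e he
      have h4 := (hL x hx e (h1 e he).1).2
      have h5 := Metric.infDist_le_dist_of_mem (x := Ψ x) (h1 e he).2
      rw [dist_eq_norm] at h5
      rw [dist_eq_norm]
      linarith
    linarith
  · have h3 : infDist x G / 2 ≤ infDist (Ψ x) F' := by
      rw [Metric.le_infDist hF']
      intro y hy
      obtain ⟨e, he, rfl⟩ := h2 y hy
      have h4 := (hL x hx e (h1 e he).1).1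
      have h5 := Metric.infDist_le_dist_of_mem (x := x) he
      rw [dist_eq_norm] at h5
      rw [dist_eq_norm]
      linarith
    linarith

theorem loc_orig (hn : 2 ≤ n) {D₀ : Set (En n)} {ρ : En n → ℝ} (hD : Dom D₀ ρ)
    {E : Set (En n)} (hE : E ⊆ frontier D₀) {f : En n → ℂ} (hf : FlatOn D₀ f E)
    (hz : ∀ z ∈ closure D₀, f z = 0 → z ∈ E) {F : Set (En n)} (hF : F ⊆ E) {p : En n}
    (hp : p ∈ F) :
    ∃ R : ℝ, 0 < R ∧ ∀ F' : Set (En n), F'.Nonempty → IsClosed F' → F' ⊆ F →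
      F' ⊆ closedBall p R → ∃ (M : ℕ) (δ : ℝ) (H : En n → ℂ), 0 < δ ∧ 1 ≤ M ∧
        DifferentiableOn ℂ H {z | z ∈ ball p (4 * R) ∧ ρ z < δ * infDist z F' ^ M} ∧
        ∀ k : ℕ, ∃ C : ℝ, ∀ z ∈ ball p (2 * R), ρ z < δ * infDist z F' ^ M →
          k * Real.log (1 / infDist z F') - C ≤ (H z).re := by
  have hfr : ∀ z ∈ E, ρ z = 0 := by
    intro z hz'
    have := hE hz'
    rw [frontier_eq hD] at this
    exact this
  have hρp : ρ p = 0 := hfr p (hF hp)
  obtain ⟨D, Ψ, A, hA0, hΨd, hΨ0, hr, hA, hL⟩ :=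
    flatten hD.smooth hρp (hD.grad p hρp) (hD.levi p hρp)
  obtain ⟨hopen, Φ, hΦd, hΦ⟩ := inverse hΨd (fun x hx y hy => (hL x hx y hy).1)
  have hε := D.hε
  have h0 : (0 : En n) ∈ ball (0 : En n) D.ε := mem_ball_self hε
  -- the sign of `r`
  have hneg : ∀ x ∈ ball (0 : En n) D.ε, D.r x < 0 → ρ (Ψ x) < 0 := by
    intro x hx h
    have h1 := hA x hx
    rw [abs_le] at h1
    rw [hr x] at h
    by_contra h2
    push Not at h2
    nlinarith [mul_nonneg h2 (by linarith : (0 : ℝ) ≤ 1 + A * ρ (Ψ x))]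
  have hneg' : ∀ x ∈ ball (0 : En n) D.ε, ρ (Ψ x) < 0 → D.r x < 0 := by
    intro x hx h
    have h1 := hA x hx
    rw [abs_le] at h1
    rw [hr x]
    nlinarith [mul_pos (neg_pos.2 h) (by linarith : (0 : ℝ) < 1 + A * ρ (Ψ x))]
  have hle : ∀ x ∈ ball (0 : En n) D.ε, 0 ≤ ρ (Ψ x) → D.r x ≤ 3 / 2 * ρ (Ψ x) := by
    intro x hx h
    have h1 := hA x hx
    rw [abs_le] at h1
    rw [hr x]
    nlinarith [mul_nonneg h (by linarith : (0 : ℝ) ≤ 1 / 2 - A * ρ (Ψ x))]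
  -- the radius
  have hpmem : p ∈ Ψ '' ball (0 : En n) D.ε := ⟨0, h0, hΨ0⟩
  obtain ⟨ε', hε', hball⟩ := Metric.isOpen_iff.1 hopen p hpmem
  refine ⟨min (D.ε / 32) (ε' / 4), by positivity, ?_⟩
  set R := min (D.ε / 32) (ε' / 4) with hR
  have hR0 : 0 < R := by rw [hR]; positivity
  have hR1 : R ≤ D.ε / 32 := min_le_left _ _
  have hR2 : R ≤ ε' / 4 := min_le_right _ _
  have hball' : ball p (4 * R) ⊆ Ψ '' ball (0 : En n) D.ε :=
    (ball_subset_ball (by linarith)).trans hball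
  have hnorm : ∀ x ∈ ball (0 : En n) D.ε, ‖x‖ ≤ 2 * ‖Ψ x - p‖ := by
    intro x hx
    have := (hL x hx 0 h0).1
    rwa [sub_zero, hΨ0] at this
  -- `f` is bounded
  have hDo : IsOpen D₀ := by
    rw [hD.eq]
    exact isOpen_lt hD.smooth.continuous continuous_const
  have hcomp : IsCompact (closure D₀) := hD.bdd.isCompact_closure
  obtain ⟨Mf, hMf⟩ := hcomp.exists_bound_of_continuousOn hf.cont
  obtain ⟨c₀, hc₀, hc₀'⟩ : ∃ c₀ : ℝ, 0 < c₀ ∧ ∀ z ∈ closure D₀, ‖f z‖ < c₀ := by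
    refine ⟨|Mf| + 1, by positivity, fun z hz' => ?_⟩
    have := hMf z hz'
    have := le_abs_self Mf
    linarith
  intro F' hF'n hF'c hF'F hF'R
  -- the flattened set
  let G : Set (En n) := {x | x ∈ closedBall (0 : En n) (D.ε / 8) ∧ Ψ x ∈ F'}
  have hG1 : ∀ e ∈ G, e ∈ ball (0 : En n) D.ε ∧ Ψ e ∈ F' := by
    intro e he
    refine ⟨closedBall_subset_ball (by linarith) he.1, he.2⟩
  have hG2 : ∀ y ∈ F', ∃ e ∈ G, Ψ e = y := by
    intro y hy
    have h1 := hF'R hy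
    rw [mem_closedBall, dist_eq_norm] at h1
    obtain ⟨e, he, rfl⟩ := hball' (closedBall_subset_ball (by linarith) (hF'R hy))
    refine ⟨e, ⟨?_, hy⟩, rfl⟩
    rw [mem_closedBall, dist_zero_right]
    have := hnorm e he
    linarith
  have hGn : G.Nonempty := by
    obtain ⟨y, hy⟩ := hF'n
    obtain ⟨e, he, _⟩ := hG2 y hy
    exact ⟨e, he⟩
  have hGc : IsClosed G :=
    isClosed_closedBall.inter (hF'c.preimage hΨd.continuous)
  have hGb : G ⊆ closedBall 0 (D.ε / 8) := fun x hx => hx.1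
  have hGr : ∀ x ∈ G, D.r x = 0 := by
    intro x hx
    have h1 : ρ (Ψ x) = 0 := hfr _ (hF (hF'F hx.2))
    rw [hr x, h1]
    ring
  have hdist : ∀ x ∈ ball (0 : En n) D.ε,
      infDist (Ψ x) F' ≤ 2 * infDist x G ∧ infDist x G ≤ 2 * infDist (Ψ x) F' :=
    fun x hx => infDist_flat hL hF'n hGn hG1 hG2 hx
  have hSD : ∀ x ∈ ball (0 : En n) D.ε, D.r x < 0 → Ψ x ∈ D₀ := by
    intro x hx h
    rw [hD.eq]
    exact hneg x hx h
  have hdecay := flat_decay hDo hD.bdd hf D hΨd (fun x hx y hy => (hL x hx y hy).2) hSD hGn hGc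
    hGb (fun x hx => ⟨hF (hF'F hx.2), frontier_subset_closure (hE (hF (hF'F hx.2))), hGr x hx⟩)
  obtain ⟨δ', H', hδ', hH'd, hH'k⟩ := D.loc hn hGc hGn hGb hGr (f := fun x => f (Ψ x) / (c₀ : ℂ))
    (by
      have h1 : DifferentiableOn ℂ (fun x => f (Ψ x)) D.S :=
        hf.holo.comp hΨd.differentiableOn (fun x hx => hSD x hx.1 hx.2)
      refine (h1.const_smul ((c₀ : ℂ)⁻¹)).congr fun x _ => ?_
      simp only [Pi.smul_apply, smul_eq_mul]
      rw [div_eq_inv_mul])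
    (by
      intro x hx
      have h1 := hSD x hx.1 hx.2
      refine div_ne_zero (fun h2 => ?_) (by exact_mod_cast hc₀.ne')
      have h3 := hfr _ (hz _ (subset_closure h1) h2)
      have h4 := hneg x hx.1 hx.2
      linarith)
    (by
      intro x hx
      have h1 := hc₀' _ (subset_closure (hSD x hx.1 hx.2))
      rw [norm_div, Complex.norm_real, Real.norm_eq_abs, abs_of_pos hc₀, div_lt_one hc₀]
      exact h1)
    (by
      intro k
      obtain ⟨C, hC⟩ := hdecay k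
      refine ⟨C / c₀, fun x hx hx' => ?_⟩
      rw [norm_div, Complex.norm_real, Real.norm_eq_abs, abs_of_pos hc₀, div_mul_eq_mul_div]
      exact div_le_div_of_nonneg_right (hC x hx hx') hc₀.le)
  -- the conclusion
  have hM1 : 1 ≤ MM n := by unfold MM; omega
  have hδ : 0 < δ' / (2 * 2 ^ MM n) := by positivity
  -- the key inequality
  have hkey : ∀ x ∈ ball (0 : En n) D.ε, ρ (Ψ x) < δ' / (2 * 2 ^ MM n) * infDist (Ψ x) F' ^ MM n →
      D.r x < δ' * infDist x G ^ MM n := by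
    intro x hx h
    have hnn : 0 ≤ infDist x G := infDist_nonneg
    rcases lt_or_ge (ρ (Ψ x)) 0 with h1 | h1
    · have := hneg' x hx h1
      have : 0 ≤ δ' * infDist x G ^ MM n := by positivity
      linarith
    · have h2 := hle x hx h1
      have h3 := (hdist x hx).1
      have h4 : infDist (Ψ x) F' ^ MM n ≤ 2 ^ MM n * infDist x G ^ MM n := by
        rw [← mul_pow]
        exact pow_le_pow_left₀ infDist_nonneg h3 _
      have h5 : δ' / (2 * 2 ^ MM n) * infDist (Ψ x) F' ^ MM n ≤ δ' / 2 * infDist x G ^ MM n := by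
        calc δ' / (2 * 2 ^ MM n) * infDist (Ψ x) F' ^ MM n
            ≤ δ' / (2 * 2 ^ MM n) * (2 ^ MM n * infDist x G ^ MM n) :=
              mul_le_mul_of_nonneg_left h4 hδ.le
          _ = δ' / 2 * infDist x G ^ MM n := by field_simp
      have h6 : 0 ≤ δ' * infDist x G ^ MM n := by positivity
      nlinarith
  refine ⟨MM n, δ' / (2 * 2 ^ MM n), fun z => H' (Φ z), hδ, hM1, ?_, ?_⟩
  · refine hH'd.comp (hΦd.mono fun z hz' => hball' hz'.1) ?_
    rintro z ⟨hz1, hz2⟩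
    obtain ⟨x, hx, rfl⟩ := hball' hz1
    rw [mem_ball, dist_eq_norm] at hz1
    refine ⟨?_, ?_⟩
    · rw [hΦ x hx, mem_ball, dist_zero_right]
      have := hnorm x hx
      linarith
    · rw [hΦ x hx]
      exact hkey x hx hz2
  · intro k
    obtain ⟨C, hC⟩ := hH'k k
    refine ⟨C + k * Real.log 2, fun z hz1 hz2 => ?_⟩
    obtain ⟨x, hx, rfl⟩ := hball' (ball_subset_ball (by linarith) hz1)
    rw [mem_ball, dist_eq_norm] at hz1
    have h1 : 0 < infDist (Ψ x) F' := by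
      rcases (infDist_nonneg (x := Ψ x) (s := F')).eq_or_lt with h2 | h2
      · exfalso
        have h3 : Ψ x ∈ F' := by
          rw [hF'c.mem_iff_infDist_zero hF'n]
          exact h2.symm
        have h4 := hfr _ (hF (hF'F h3))
        rw [h4, ← h2, zero_pow (by omega), mul_zero] at hz2
        exact lt_irrefl _ hz2
      · exact h2
    have h2 := (hdist x hx).1
    have h2' := (hdist x hx).2
    have h3 : 0 < infDist x G := by linarith
    have h4 := hC x (by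
      rw [mem_ball, dist_zero_right]
      have := hnorm x hx
      linarith) (hkey x hx hz2)
    have h5 : Real.log (1 / infDist (Ψ x) F') ≤ Real.log (1 / infDist x G) + Real.log 2 := by
      rw [one_div, one_div, Real.log_inv, Real.log_inv]
      have h6 : Real.log (infDist x G) ≤ Real.log (2 * infDist (Ψ x) F') :=
        Real.log_le_log h3 h2'
      rw [Real.log_mul (by norm_num) h1.ne'] at h6
      linarith
    have h6 : (k : ℝ) * Real.log (1 / infDist (Ψ x) F') ≤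
        k * (Real.log (1 / infDist x G) + Real.log 2) :=
      mul_le_mul_of_nonneg_left h5 (Nat.cast_nonneg k)
    simp only
    rw [hΦ x hx]
    linarith

end Pool.Agent.H8.FZ
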