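import Pool.Agent.H8.FZ.KDiff
import Pool.Agent.H8.FZ.HarnE
import Pool.Agent.H8.FZ.IntL

/-!
# FZ-ML: the pushed-out integral at `z` versus the plain integral at `z'`

`U = re h`, `R = ‖L ζ z'‖`, `λ₀ = dist(z,F)`, `τ₀ = λ₀^M`, `z' = z - τ₀ ν(z)`. By `kt_diff` the
difference of the integrals is at most
`∫_{S, ‖ζ‖ ≤ 7ε/16} U C a^{m-n-1} (1 + λ₀^{M-1} R^{-(m+1/2)})`.
First part: `U a^{m-n-1} ≤ C₀` (`growth`). Second part: `harnack_main`:
`a U ≤ C R^{7/4} a(z')^{-7/8} U(z')^{7/8}`, `a^{m-n-2} ≤ (R/c')^{m-n-2}` (`norm_L_ge`), so the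
integrand is `≤ C λ₀^{M-1} a(z')^{-7/8} U(z')^{7/8} R^{m-n-2+7/4-m-1/2}` with the exponent of `R`
equal to `-(n+3/4)`; `a(z') ≥ τ₀/4` gives `λ₀^{M-1} a(z')^{-7/8} ≤ 4 λ₀^{M-1-7M/8} ≤ 4` as
`M = 8n+20 ≥ 8`. Conclude with `int_L`. (Both integrands are integrable: `U a^{m-n-1}` is bounded,
`|L + τ| ≥ c > 0` and `|L'| ≥ c > 0` for fixed `z`; continuity on the open set `S` gives
measurability.)
-/

set_option autoImplicit false

noncomputable section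

namespace Pool.Agent.H8.FZ

open Complex Metric MeasureTheory Set Filter Topology
open scoped ContDiff ComplexConjugate

variable {n : ℕ}

namespace LData

variable (D : LData n)

/-- The pushed-out integral. -/
def HT (χ : D.Cut) (h : En n → ℂ) (F : Set (En n)) (z : En n) : ℂ :=
  ∫ ζ in D.S, (χ.χ ζ : ℂ) * ((h ζ).re : ℂ) * KT D F ζ z

/-! ### auxiliary facts -/

/-- the numerator of the kernels -/
def mlNum (ζ : En n) : ℂ := ((2 * D.a ζ : ℝ) : ℂ) ^ (mm n - n - 1) * D.Delta ζ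

lemma ml_exp (n : ℕ) : mm n - n - 1 = 3 * n + 7 := by
  unfold mm
  omega

lemma ml_measS : MeasurableSet D.S := D.isOpen_S.measurableSet

lemma ml_volS : volume D.S < ⊤ :=
  lt_of_le_of_lt (measure_mono (fun _ hz => hz.1)) (measure_ball_lt_top (x := (0 : En n)))

lemma ml_a_pos {ζ : En n} (hζ : ζ ∈ D.S) : 0 < D.a ζ := by
  unfold a
  linarith [hζ.2]

lemma ml_a_le {ζ : En n} (hζ : ζ ∈ D.S) : D.a ζ ≤ 1 := by
  have h1 := D.b0 ζ hζ.1
  have h2 := neg_abs_le (D.r ζ)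
  unfold a
  linarith

lemma ml_num_le : ∃ C : ℝ, 0 < C ∧ ∀ ζ ∈ D.S, ‖ζ‖ ≤ D.ε / 2 →
    ‖D.mlNum ζ‖ ≤ C * D.a ζ ^ (mm n - n - 1) := by
  obtain ⟨B, hB⟩ := (isCompact_closedBall (0 : En n) (D.ε / 2)).exists_bound_of_continuousOn
    D.contDiff_Delta.continuous.continuousOn
  refine ⟨2 ^ (mm n - n - 1) * (|B| + 1), by positivity, fun ζ hζ hζ2 => ?_⟩
  have ha := D.ml_a_pos hζ
  have h1 := hB ζ (by rw [mem_closedBall, dist_zero_right]; exact hζ2)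
  have h2 : ‖D.Delta ζ‖ ≤ |B| + 1 := h1.trans ((le_abs_self B).trans (by linarith))
  unfold mlNum
  rw [norm_mul, norm_pow, Complex.norm_real, Real.norm_eq_abs, abs_of_pos (by positivity),
    mul_pow]
  calc 2 ^ (mm n - n - 1) * D.a ζ ^ (mm n - n - 1) * ‖D.Delta ζ‖
      ≤ 2 ^ (mm n - n - 1) * D.a ζ ^ (mm n - n - 1) * (|B| + 1) :=
        mul_le_mul_of_nonneg_left h2 (by positivity)
    _ = 2 ^ (mm n - n - 1) * (|B| + 1) * D.a ζ ^ (mm n - n - 1) := by ring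

lemma ml_num_cont : Continuous D.mlNum := by
  unfold mlNum
  exact ((Complex.continuous_ofReal.comp (continuous_const.mul D.contDiff_a.continuous)).pow _).mul
    D.contDiff_Delta.continuous

lemma ml_w_cont (χ : D.Cut) {h : En n → ℂ} (hh : DifferentiableOn ℂ h D.S) :
    ContinuousOn (fun ζ => (χ.χ ζ : ℂ) * ((h ζ).re : ℂ) * D.mlNum ζ) D.S := by
  have h1 : Continuous fun ζ => (χ.χ ζ : ℂ) := Complex.continuous_ofReal.comp χ.smooth.continuous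
  have h2 : ContinuousOn (fun ζ => ((h ζ).re : ℂ)) D.S :=
    (Complex.continuous_ofReal.comp Complex.continuous_re).comp_continuousOn hh.continuousOn
  exact (h1.continuousOn.mul h2).mul D.ml_num_cont.continuousOn

lemma ml_L_cont (z : En n) : Continuous fun ζ => D.L ζ z :=
  D.contDiff_L.continuous.comp (continuous_id.prodMk continuous_const)

lemma ml_tau_cont (F : Set (En n)) : Continuous fun ζ : En n => (tau F ζ : ℂ) := by
  unfold tau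
  exact Complex.continuous_ofReal.comp ((continuous_infDist_pt F).pow _)

/-- the weight times the numerator is bounded -/
lemma ml_w_le (χ : D.Cut) {h : En n → ℂ} (hh : DifferentiableOn ℂ h D.S)
    (hpos : ∀ z ∈ D.S, 0 < (h z).re) : ∃ C : ℝ, 0 < C ∧ ∀ ζ ∈ D.S,
      ‖(χ.χ ζ : ℂ) * ((h ζ).re : ℂ) * D.mlNum ζ‖ ≤ C := by
  obtain ⟨C₀, hC₀, hg⟩ := D.growth hh hpos
  obtain ⟨C₁, hC₁, hn⟩ := D.ml_num_le
  refine ⟨C₀ * C₁, by positivity, fun ζ hζ => ?_⟩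
  have hε := D.hε
  have ha := D.ml_a_pos hζ
  have ha1 := D.ml_a_le hζ
  by_cases hn7 : 7 * D.ε / 16 ≤ ‖ζ‖
  · rw [χ.zero ζ hn7]
    simp only [Complex.ofReal_zero, zero_mul, norm_zero]
    positivity
  · push Not at hn7
    have h1 := (hg ζ hζ (by linarith)).2.1
    have h2 := hn ζ hζ (by linarith)
    have h3 := hpos ζ hζ
    rw [norm_mul, norm_mul, Complex.norm_real, Complex.norm_real, Real.norm_eq_abs,
      Real.norm_eq_abs, abs_of_nonneg (χ.nonneg ζ), abs_of_pos h3]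
    have h4 : D.a ζ ^ (mm n - n - 1) ≤ D.a ζ := by
      rw [ml_exp]
      calc D.a ζ ^ (3 * n + 7) = D.a ζ ^ (3 * n + 6) * D.a ζ := by ring
        _ ≤ 1 * D.a ζ := mul_le_mul_of_nonneg_right (pow_le_one₀ ha.le ha1) ha.le
        _ = D.a ζ := one_mul _
    calc χ.χ ζ * (h ζ).re * ‖D.mlNum ζ‖ ≤ 1 * (C₀ / D.a ζ) * (C₁ * D.a ζ) := by
          apply mul_le_mul
          · exact mul_le_mul (χ.le_one ζ) h1 h3.le zero_le_one
          · exact h2.trans (mul_le_mul_of_nonneg_left h4 hC₁.le)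
          · exact norm_nonneg _
          · positivity
      _ = C₀ * C₁ := by
          field_simp

lemma ml_int_cont (χ : D.Cut) {h : En n → ℂ} (hh : DifferentiableOn ℂ h D.S) {G : En n → ℂ}
    (hG : ContinuousOn G D.S) (hG0 : ∀ ζ ∈ D.S, G ζ ≠ 0) (k : ℕ) :
    ContinuousOn (fun ζ => (χ.χ ζ : ℂ) * ((h ζ).re : ℂ) * (D.mlNum ζ * (G ζ)⁻¹ ^ k)) D.S := by
  have h1 := (D.ml_w_cont χ hh).mul ((hG.inv₀ hG0).pow k)
  refine h1.congr fun ζ _ => ?_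
  simp only [Pi.mul_apply, Pi.pow_apply, Pi.inv_apply]
  ring

/-- a bound for the integrands -/
lemma ml_int_le (χ : D.Cut) {h : En n → ℂ} {C κ : ℝ}
    (hC : ∀ ζ ∈ D.S, ‖(χ.χ ζ : ℂ) * ((h ζ).re : ℂ) * D.mlNum ζ‖ ≤ C) (hκ : 0 < κ) {G : En n → ℂ}
    {ζ : En n} (hζ : ζ ∈ D.S) (hG : κ ≤ ‖G ζ‖) (k : ℕ) :
    ‖(χ.χ ζ : ℂ) * ((h ζ).re : ℂ) * (D.mlNum ζ * (G ζ)⁻¹ ^ k)‖ ≤ C * κ⁻¹ ^ k := by
  rw [← mul_assoc, norm_mul, norm_pow, norm_inv]
  have h1 : (‖G ζ‖)⁻¹ ≤ κ⁻¹ := inv_anti₀ hκ hG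
  exact mul_le_mul (hC ζ hζ) (pow_le_pow_left₀ (by positivity) h1 k) (by positivity)
    ((norm_nonneg _).trans (hC ζ hζ))

lemma ml_integrable (χ : D.Cut) {h : En n → ℂ} (hh : DifferentiableOn ℂ h D.S)
    (hpos : ∀ z ∈ D.S, 0 < (h z).re) {G : En n → ℂ} {κ : ℝ} (hκ : 0 < κ)
    (hG : ContinuousOn G D.S) (hGκ : ∀ ζ ∈ D.S, κ ≤ ‖G ζ‖) (k : ℕ) :
    IntegrableOn (fun ζ => (χ.χ ζ : ℂ) * ((h ζ).re : ℂ) * (D.mlNum ζ * (G ζ)⁻¹ ^ k)) D.S := by
  obtain ⟨C, hC0, hC⟩ := D.ml_w_le χ hh hpos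
  have hG0 : ∀ ζ ∈ D.S, G ζ ≠ 0 := fun ζ hζ h0 => by
    have := hGκ ζ hζ
    rw [h0, norm_zero] at this
    linarith
  have hfin : IsFiniteMeasure (volume.restrict D.S) :=
    ⟨by rw [Measure.restrict_apply_univ]; exact D.ml_volS⟩
  refine Integrable.of_bound ((D.ml_int_cont χ hh hG hG0 k).aestronglyMeasurable D.ml_measS)
    (C * κ⁻¹ ^ k) ?_
  filter_upwards [ae_restrict_mem D.ml_measS] with ζ hζ
  exact D.ml_int_le χ hC hκ hζ (hGκ ζ hζ) k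

lemma ml_KT_eq (F : Set (En n)) (ζ z : En n) :
    D.KT F ζ z = D.mlNum ζ * (D.L ζ z + (tau F ζ : ℂ))⁻¹ ^ mm n := rfl

lemma ml_K_eq (ζ z : En n) : D.K ζ z = D.mlNum ζ * (D.L ζ z)⁻¹ ^ mm n := rfl

/-- the exponents in the main estimate -/
lemma ml_exponents {R c' a lam A U : ℝ} {n : ℕ} (hR : 0 < R) (hc' : 0 < c') (ha : 0 < a)
    (haR : c' * a ≤ R) (hlam : 0 < lam) (hlam1 : lam ≤ 1) (hA : lam ^ MM n / 4 ≤ A)
    (hU : 0 ≤ U) {C V : ℝ} (hC : 0 < C)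
    (hV : a * V ≤ C * R ^ (7 / 4 : ℝ) * A ^ (-(7 / 8) : ℝ) * U) :
    V * a ^ (mm n - n - 1) * (lam ^ (MM n - 1) * R ^ (-((mm n : ℝ) + 1 / 2))) ≤
      (4 * C * (c'⁻¹) ^ (3 * n + 6)) * (U * R ^ (-((n : ℝ) + 3 / 4))) := by
  have hA0 : 0 < A := lt_of_lt_of_le (by positivity) hA
  -- powers of `a`
  have h1 : a ^ (3 * n + 6) ≤ (c'⁻¹) ^ (3 * n + 6) * R ^ (3 * n + 6) := by
    rw [← mul_pow]
    apply pow_le_pow_left₀ ha.le
    rw [inv_mul_eq_div, le_div_iff₀ hc', mul_comm]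
    exact haR
  -- the factor `lam ^ (M - 1) * A ^ (-7/8) ≤ 4`
  have h2 : lam ^ (MM n - 1) * A ^ (-(7 / 8) : ℝ) ≤ 4 := by
    have e1 : A ^ (-(7 / 8) : ℝ) ≤ (lam ^ MM n / 4) ^ (-(7 / 8) : ℝ) :=
      Real.rpow_le_rpow_of_nonpos (by positivity) hA (by norm_num)
    have e2 : (lam ^ MM n / 4) ^ (-(7 / 8) : ℝ) =
        lam ^ (-((MM n : ℝ) * (7 / 8))) * 4 ^ (7 / 8 : ℝ) := by
      rw [Real.div_rpow (by positivity) (by norm_num), ← Real.rpow_natCast lam (MM n),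
        ← Real.rpow_mul hlam.le, Real.rpow_neg (by norm_num : (0 : ℝ) ≤ 4), div_inv_eq_mul]
      congr 2
      ring
    have e3 : (4 : ℝ) ^ (7 / 8 : ℝ) ≤ 4 := by
      calc (4 : ℝ) ^ (7 / 8 : ℝ) ≤ 4 ^ (1 : ℝ) :=
            Real.rpow_le_rpow_of_exponent_le (by norm_num) (by norm_num)
        _ = 4 := Real.rpow_one 4
    have e4 : lam ^ (MM n - 1) * lam ^ (-((MM n : ℝ) * (7 / 8))) ≤ 1 := by
      rw [← Real.rpow_natCast lam (MM n - 1), ← Real.rpow_add hlam]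
      apply Real.rpow_le_one hlam.le hlam1
      have : ((MM n - 1 : ℕ) : ℝ) = (MM n : ℝ) - 1 := by
        rw [Nat.cast_sub (by unfold MM; omega)]
        simp
      rw [this]
      unfold MM
      push_cast
      have : (0 : ℝ) ≤ n := Nat.cast_nonneg n
      linarith
    calc lam ^ (MM n - 1) * A ^ (-(7 / 8) : ℝ)
        ≤ lam ^ (MM n - 1) * (lam ^ (-((MM n : ℝ) * (7 / 8))) * 4 ^ (7 / 8 : ℝ)) := by
          rw [← e2]
          exact mul_le_mul_of_nonneg_left e1 (by positivity)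
      _ = (lam ^ (MM n - 1) * lam ^ (-((MM n : ℝ) * (7 / 8)))) * 4 ^ (7 / 8 : ℝ) := by ring
      _ ≤ 1 * 4 := mul_le_mul e4 e3 (by positivity) zero_le_one
      _ = 4 := one_mul _
  -- powers of `R`
  have h3 : R ^ (7 / 4 : ℝ) * R ^ (3 * n + 6) * R ^ (-((mm n : ℝ) + 1 / 2)) =
      R ^ (-((n : ℝ) + 3 / 4)) := by
    rw [← Real.rpow_natCast R (3 * n + 6), ← Real.rpow_add hR, ← Real.rpow_add hR]
    congr 1
    unfold mm
    push_cast
    ring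
  have hRp : 0 < R ^ (-((mm n : ℝ) + 1 / 2)) := Real.rpow_pos_of_pos hR _
  have e0 : V * a ^ (mm n - n - 1) = (a * V) * a ^ (3 * n + 6) := by
    rw [ml_exp]
    ring
  rw [e0]
  calc a * V * a ^ (3 * n + 6) * (lam ^ (MM n - 1) * R ^ (-((mm n : ℝ) + 1 / 2)))
      ≤ (C * R ^ (7 / 4 : ℝ) * A ^ (-(7 / 8) : ℝ) * U) *
          ((c'⁻¹) ^ (3 * n + 6) * R ^ (3 * n + 6)) *
          (lam ^ (MM n - 1) * R ^ (-((mm n : ℝ) + 1 / 2))) := by
        apply mul_le_mul_of_nonneg_right _ (by positivity)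
        apply mul_le_mul hV h1 (by positivity)
        have := Real.rpow_nonneg hA0.le (-(7 / 8) : ℝ)
        have := Real.rpow_nonneg hR.le (7 / 4 : ℝ)
        positivity
    _ = (C * (c'⁻¹) ^ (3 * n + 6)) * (lam ^ (MM n - 1) * A ^ (-(7 / 8) : ℝ)) *
          (U * (R ^ (7 / 4 : ℝ) * R ^ (3 * n + 6) * R ^ (-((mm n : ℝ) + 1 / 2)))) := by ring
    _ ≤ (C * (c'⁻¹) ^ (3 * n + 6)) * 4 *
          (U * (R ^ (7 / 4 : ℝ) * R ^ (3 * n + 6) * R ^ (-((mm n : ℝ) + 1 / 2)))) := by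
        apply mul_le_mul_of_nonneg_right _ (by positivity)
        exact mul_le_mul_of_nonneg_left h2 (by positivity)
    _ = (4 * C * (c'⁻¹) ^ (3 * n + 6)) * (U * R ^ (-((n : ℝ) + 3 / 4))) := by
        rw [h3]
        ring

theorem ht_diff (hn : 2 ≤ n) (χ : D.Cut) {h : En n → ℂ} (hh : DifferentiableOn ℂ h D.S)
    (hpos : ∀ z ∈ D.S, 0 < (h z).re) {ν : En n → En n} {Cν : ℝ} (hν : D.IsNu ν Cν) :
    ∃ δ₀ ls C : ℝ, 0 < δ₀ ∧ 0 < ls ∧ ls ≤ 1 ∧ 0 < C ∧ ∀ F : Set (En n), F.Nonempty →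
      F ⊆ closedBall 0 (D.ε / 8) → ∀ z : En n, ‖z‖ < 3 * D.ε / 16 →
        D.r z < δ₀ * infDist z F ^ MM n → 0 < infDist z F → infDist z F ≤ ls →
        (z - (tau F z : ℂ) • ν z) ∈ D.S ∧ ‖z - (tau F z : ℂ) • ν z‖ < D.ε / 4 ∧
        infDist (z - (tau F z : ℂ) • ν z) F ≤ 2 * infDist z F ∧
        ‖D.HT χ h F z - ∫ ζ in D.S, (χ.χ ζ : ℂ) * ((h ζ).re : ℂ) *
            D.K ζ (z - (tau F z : ℂ) • ν z)‖ ≤
          C * (1 + (h (z - (tau F z : ℂ) • ν z)).re ^ (7 / 8 : ℝ)) := by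
  obtain ⟨δ₁, hδ₁, hδ₁1, hlow⟩ := D.kt_lower
  obtain ⟨δ₂, ls, C₂, hδ₂, hls, hls1, hC₂, hdiff⟩ := D.kt_diff hν
  obtain ⟨C₀, hC₀, hg⟩ := D.growth hh hpos
  obtain ⟨CH, hCH, hH⟩ := D.harnack_main hh hpos
  obtain ⟨c', hc', hc'1, hL⟩ := D.norm_L_ge
  obtain ⟨CI, hCI, hI⟩ := D.int_L hn
  set V : ℝ := (volume D.S).toReal with hV
  have hV0 : 0 ≤ V := ENNReal.toReal_nonneg
  have hε := D.hε
  set C₃ : ℝ := 4 * CH * (c'⁻¹) ^ (3 * n + 6) with hC₃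
  have hC₃0 : 0 < C₃ := by positivity
  refine ⟨min δ₁ δ₂, ls, C₂ * C₀ * V + C₂ * C₃ * CI, lt_min hδ₁ hδ₂, hls, hls1, by positivity,
    fun F hFn hF z hz hr hd hdls => ?_⟩
  have hdM : 0 < infDist z F ^ MM n := by positivity
  have hr1 : D.r z < δ₁ * infDist z F ^ MM n :=
    lt_of_lt_of_le hr (mul_le_mul_of_nonneg_right (min_le_left _ _) hdM.le)
  have hr2 : D.r z < δ₂ * infDist z F ^ MM n :=
    lt_of_lt_of_le hr (mul_le_mul_of_nonneg_right (min_le_right _ _) hdM.le)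
  obtain ⟨hzS, hzε, hza, hzd, hk⟩ := hdiff F hFn hF z hz hr2 hd hdls
  set z' : En n := z - (tau F z : ℂ) • ν z with hz'
  refine ⟨hzS, hzε, hzd, ?_⟩
  have haz' := D.ml_a_pos hzS
  have hzball : z ∈ ball (0 : En n) D.ε := by
    rw [mem_ball, dist_zero_right]
    linarith
  -- lower bounds for the denominators
  have hlow1 : ∀ ζ ∈ D.S, δ₁ * infDist z F ^ MM n ≤ ‖D.L ζ z + (tau F ζ : ℂ)‖ := by
    intro ζ hζ
    have h1 := hlow F hFn hF z hzball hr1 ζ hζ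
    have h2 : 0 ≤ δ₁ * D.a ζ := mul_nonneg hδ₁.le (D.ml_a_pos hζ).le
    have h3 := Complex.re_le_norm (D.L ζ z + (tau F ζ : ℂ))
    linarith
  have hlow2 : ∀ ζ ∈ D.S, c' * (D.a ζ + D.a z') ≤ ‖D.L ζ z'‖ := by
    intro ζ hζ
    have h1 := hL ζ z' hζ.1 hzS.1 (D.ml_a_pos hζ).le haz'.le
    have h2 : 0 ≤ ‖ζ - z'‖ ^ 2 + ‖pr (D.q z') (ζ - z')‖ := by positivity
    have h3 : c' * (D.a ζ + D.a z') ≤
        c' * (D.a ζ + D.a z' + ‖ζ - z'‖ ^ 2 + ‖pr (D.q z') (ζ - z')‖) := by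
      apply mul_le_mul_of_nonneg_left _ hc'.le
      linarith
    exact h3.trans h1
  -- integrability
  have i1 : IntegrableOn (fun ζ => (χ.χ ζ : ℂ) * ((h ζ).re : ℂ) * D.KT F ζ z) D.S :=
    D.ml_integrable χ hh hpos (G := fun ζ => D.L ζ z + (tau F ζ : ℂ))
      (mul_pos hδ₁ hdM) ((D.ml_L_cont z).add (ml_tau_cont F)).continuousOn hlow1 (mm n)
  have i2 : IntegrableOn (fun ζ => (χ.χ ζ : ℂ) * ((h ζ).re : ℂ) * D.K ζ z') D.S :=
    D.ml_integrable χ hh hpos (G := fun ζ => D.L ζ z') (mul_pos hc' haz')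
      (D.ml_L_cont z').continuousOn (fun ζ hζ => le_trans (by
        have := D.ml_a_pos hζ
        apply mul_le_mul_of_nonneg_left _ hc'.le
        linarith) (hlow2 ζ hζ)) (mm n)
  obtain ⟨hI1, hI2⟩ := hI z' hzS
  set U' : ℝ := (h z').re ^ (7 / 8 : ℝ) with hU'
  have hU'0 : 0 ≤ U' := Real.rpow_nonneg (hpos z' hzS).le _
  have hfin : IsFiniteMeasure (volume.restrict D.S) :=
    ⟨by rw [Measure.restrict_apply_univ]; exact D.ml_volS⟩
  have hci : Integrable (fun _ : En n => C₂ * C₀) (volume.restrict D.S) := integrable_const _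
  have hbd : IntegrableOn (fun ζ => C₂ * C₀ + C₂ * C₃ * U' *
      ‖D.L ζ z'‖ ^ (-((n : ℝ) + 3 / 4))) D.S := hci.add (hI1.const_mul _)
  unfold HT
  rw [← integral_sub i1 i2]
  refine (norm_integral_le_of_norm_le hbd ?_).trans ?_
  · filter_upwards [ae_restrict_mem D.ml_measS] with ζ hζ
    have ha := D.ml_a_pos hζ
    have ha1 := D.ml_a_le hζ
    have hR : 0 < ‖D.L ζ z'‖ := lt_of_lt_of_le (by positivity) (hlow2 ζ hζ)
    have hRn : 0 ≤ ‖D.L ζ z'‖ ^ (-((n : ℝ) + 3 / 4)) := Real.rpow_nonneg hR.le _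
    rw [← mul_sub]
    by_cases hn7 : 7 * D.ε / 16 ≤ ‖ζ‖
    · rw [χ.zero ζ hn7]
      simp only [Complex.ofReal_zero, zero_mul, norm_zero]
      positivity
    · push Not at hn7
      have hζ2 : ‖ζ‖ ≤ D.ε / 2 := by linarith
      have h1 := (hg ζ hζ (by linarith)).2.1
      have h3 := hpos ζ hζ
      have h2 := hk ζ hζ hζ2
      have h4 := hH z' hzS (by linarith) ζ hζ hζ2
      rw [norm_mul, norm_mul, Complex.norm_real, Complex.norm_real, Real.norm_eq_abs,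
        Real.norm_eq_abs, abs_of_nonneg (χ.nonneg ζ), abs_of_pos h3]
      have h5 : (h ζ).re * D.a ζ ^ (mm n - n - 1) ≤ C₀ := by
        rw [ml_exp]
        calc (h ζ).re * D.a ζ ^ (3 * n + 7) ≤ C₀ / D.a ζ * D.a ζ ^ (3 * n + 7) :=
              mul_le_mul_of_nonneg_right h1 (by positivity)
          _ = C₀ * D.a ζ ^ (3 * n + 6) := by
              rw [pow_succ (D.a ζ) (3 * n + 6)]
              field_simp
          _ ≤ C₀ * 1 := mul_le_mul_of_nonneg_left (pow_le_one₀ ha.le ha1) (by positivity)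
          _ = C₀ := mul_one _
      have h6 := ml_exponents (n := n) hR hc' ha (le_trans (by
        apply mul_le_mul_of_nonneg_left _ hc'.le
        linarith) (hlow2 ζ hζ)) hd (hdls.trans hls1) (A := D.a z') hza hU'0 hCH h4
      calc χ.χ ζ * (h ζ).re * ‖D.KT F ζ z - D.K ζ z'‖
          ≤ 1 * (h ζ).re * (C₂ * D.a ζ ^ (mm n - n - 1) *
              (1 + infDist z F ^ (MM n - 1) * ‖D.L ζ z'‖ ^ (-((mm n : ℝ) + 1 / 2)))) := by
            apply mul_le_mul _ h2 (norm_nonneg _) (by positivity)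
            exact mul_le_mul_of_nonneg_right (χ.le_one ζ) h3.le
        _ = C₂ * ((h ζ).re * D.a ζ ^ (mm n - n - 1)) +
            C₂ * ((h ζ).re * D.a ζ ^ (mm n - n - 1) *
              (infDist z F ^ (MM n - 1) * ‖D.L ζ z'‖ ^ (-((mm n : ℝ) + 1 / 2)))) := by ring
        _ ≤ C₂ * C₀ + C₂ * (C₃ * (U' * ‖D.L ζ z'‖ ^ (-((n : ℝ) + 3 / 4)))) := by
            apply add_le_add
            · exact mul_le_mul_of_nonneg_left h5 hC₂.le
            · exact mul_le_mul_of_nonneg_left h6 hC₂.le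
        _ = C₂ * C₀ + C₂ * C₃ * U' * ‖D.L ζ z'‖ ^ (-((n : ℝ) + 3 / 4)) := by ring
  · rw [integral_add hci (hI1.const_mul _),
      setIntegral_const, integral_const_mul, smul_eq_mul]
    have e1 : volume.real D.S = V := rfl
    rw [e1]
    have e2 : C₂ * C₃ * U' * ∫ ζ in D.S, ‖D.L ζ z'‖ ^ (-((n : ℝ) + 3 / 4)) ≤
        C₂ * C₃ * U' * CI := mul_le_mul_of_nonneg_left hI2 (by positivity)
    have e3 : 0 ≤ C₂ * C₀ * V * U' := by positivity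
    have e4 : 0 ≤ C₂ * C₃ * CI := by positivity
    have e5 : V * (C₂ * C₀) + C₂ * C₃ * U' * CI ≤
        (C₂ * C₀ * V + C₂ * C₃ * CI) * (1 + U') := by
      have e6 : (C₂ * C₀ * V + C₂ * C₃ * CI) * (1 + U') = V * (C₂ * C₀) + C₂ * C₃ * U' * CI +
          C₂ * C₀ * V * U' + C₂ * C₃ * CI := by ring
      rw [e6]
      linarith
    exact (add_le_add le_rfl e2).trans e5

end LData

end Pool.Agent.H8.FZ
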