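import Pool.Agent.H8.FZ.Defs

/-!
# FZ-PROD: products of good functions

`infDist z (F₁ ∪ F₂) = min (infDist z F₁) (infDist z F₂)` (`infDist_union`? otherwise direct).
`O = O₁ ∩ O₂` (bounded, so `infDist z F_i ≤ R` on `O`, `R ≥ 1`), `M = max M₁ M₂` (or `M₁ + M₂`),
`δ = min δ_i / R^M`: then `ρ z < δ infDist z (F₁∪F₂)^M` implies
`ρ z < δ_i infDist z F_i^{M_i}` (if `ρ z < 0` note `infDist ≥ 0`; use
`infDist(F)^M = infDist(F)^{M_i} infDist(F)^{M-M_i} ≤ infDist(F_i)^{M_i} R^M`, and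
the strict inequality: `ρ z < δ d^M ≤ δ_i d_i^{M_i}`). Bound: if the minimum is `d₁`,
`‖g₁g₂‖ ≤ C_k d₁^k C_0`. Constants should be made nonnegative first.
`good_cover`: a closed `F ⊆ closure D₀`-bounded set covered by finitely many small balls:
`F = ⋃ F ∩ closedBall p_i R_i` (compactness), discard the empty pieces, induct over the finite cover.
-/

set_option autoImplicit false

noncomputable section

namespace Pool.Agent.H8.FZ

open Complex Metric MeasureTheory Set Filter Topology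
open scoped ContDiff ComplexConjugate

variable {n : ℕ}

theorem good_mul {ρ : En n → ℝ} {K F₁ F₂ : Set (En n)} (h1 : F₁.Nonempty) (h2 : F₂.Nonempty)
    {g₁ g₂ : En n → ℂ} (hg1 : GoodFor ρ K F₁ g₁) (hg2 : GoodFor ρ K F₂ g₂) :
    GoodFor ρ K (F₁ ∪ F₂) (fun z => g₁ z * g₂ z) := by
  obtain ⟨O₁, M₁, δ₁, hO₁, hK₁, hb₁, hδ₁, hM₁, hd₁, hn₁, hk₁⟩ := hg1
  obtain ⟨O₂, M₂, δ₂, hO₂, hK₂, hb₂, hδ₂, hM₂, hd₂, hn₂, hk₂⟩ := hg2
  obtain ⟨x₁, hx₁⟩ := h1
  obtain ⟨x₂, hx₂⟩ := h2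
  obtain ⟨r₁, hr₁⟩ := hb₁.subset_closedBall x₁
  obtain ⟨r₂, hr₂⟩ := hb₁.subset_closedBall x₂
  set R : ℝ := |r₁| + |r₂| + 1 with hR
  have hR1 : 1 ≤ R := by
    have := abs_nonneg r₁
    have := abs_nonneg r₂
    rw [hR]; linarith
  have hR0 : 0 < R := by linarith
  have hdR₁ : ∀ z ∈ O₁, infDist z F₁ ≤ R := by
    intro z hz
    have h3 : dist z x₁ ≤ r₁ := hr₁ hz
    have h4 := infDist_le_dist_of_mem (x := z) hx₁
    have := le_abs_self r₁
    have := abs_nonneg r₂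
    rw [hR]; linarith
  have hdR₂ : ∀ z ∈ O₁, infDist z F₂ ≤ R := by
    intro z hz
    have h3 : dist z x₂ ≤ r₂ := hr₂ hz
    have h4 := infDist_le_dist_of_mem (x := z) hx₂
    have := le_abs_self r₂
    have := abs_nonneg r₁
    rw [hR]; linarith
  have hdle₁ : ∀ z, infDist z (F₁ ∪ F₂) ≤ infDist z F₁ := fun z =>
    infDist_le_infDist_of_subset subset_union_left ⟨x₁, hx₁⟩
  have hdle₂ : ∀ z, infDist z (F₁ ∪ F₂) ≤ infDist z F₂ := fun z =>
    infDist_le_infDist_of_subset subset_union_right ⟨x₂, hx₂⟩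
  have hmin : ∀ z, infDist z F₁ ≤ infDist z (F₁ ∪ F₂) ∨ infDist z F₂ ≤ infDist z (F₁ ∪ F₂) := by
    intro z
    rw [← min_le_iff]
    rw [le_infDist ⟨x₁, Or.inl hx₁⟩]
    intro y hy
    rcases hy with hy | hy
    · exact (min_le_left _ _).trans (infDist_le_dist_of_mem hy)
    · exact (min_le_right _ _).trans (infDist_le_dist_of_mem hy)
  set M : ℕ := max M₁ M₂ with hM
  set δ : ℝ := min δ₁ δ₂ / R ^ M with hδ
  have hδ0 : 0 < δ := by
    have : 0 < min δ₁ δ₂ := lt_min hδ₁ hδ₂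
    positivity
  have haux : ∀ (d d' δ' : ℝ) (M' : ℕ), 0 ≤ d → d ≤ d' → d' ≤ R → M' ≤ M → min δ₁ δ₂ ≤ δ' →
      δ * d ^ M ≤ δ' * d' ^ M' := by
    intro d d' δ' M' h3 h4 h5 h6 h7
    have h8 : 0 ≤ d' := h3.trans h4
    have h9 : d ^ M ≤ d' ^ M' * R ^ M := by
      calc d ^ M ≤ d' ^ M := pow_le_pow_left₀ h3 h4 M
        _ = d' ^ M' * d' ^ (M - M') := by rw [← pow_add, Nat.add_sub_cancel' h6]
        _ ≤ d' ^ M' * R ^ (M - M') :=
            mul_le_mul_of_nonneg_left (pow_le_pow_left₀ h8 h5 _) (pow_nonneg h8 _)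
        _ ≤ d' ^ M' * R ^ M :=
            mul_le_mul_of_nonneg_left (pow_le_pow_right₀ hR1 (Nat.sub_le _ _)) (pow_nonneg h8 _)
    calc δ * d ^ M ≤ δ * (d' ^ M' * R ^ M) := mul_le_mul_of_nonneg_left h9 hδ0.le
      _ = min δ₁ δ₂ * d' ^ M' := by rw [hδ]; field_simp
      _ ≤ δ' * d' ^ M' := mul_le_mul_of_nonneg_right h7 (pow_nonneg h8 _)
  have hreg₁ : ∀ z ∈ O₁ ∩ O₂, ρ z < δ * infDist z (F₁ ∪ F₂) ^ M →
      ρ z < δ₁ * infDist z F₁ ^ M₁ := fun z hz h =>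
    lt_of_lt_of_le h (haux _ _ _ _ infDist_nonneg (hdle₁ z) (hdR₁ z hz.1) (le_max_left _ _)
      (min_le_left _ _))
  have hreg₂ : ∀ z ∈ O₁ ∩ O₂, ρ z < δ * infDist z (F₁ ∪ F₂) ^ M →
      ρ z < δ₂ * infDist z F₂ ^ M₂ := fun z hz h =>
    lt_of_lt_of_le h (haux _ _ _ _ infDist_nonneg (hdle₂ z) (hdR₂ z hz.1) (le_max_right _ _)
      (min_le_right _ _))
  refine ⟨O₁ ∩ O₂, M, δ, hO₁.inter hO₂, subset_inter hK₁ hK₂, hb₁.subset inter_subset_left, hδ0,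
    hM₁.trans (le_max_left _ _), ?_, ?_, ?_⟩
  · apply DifferentiableOn.mul
    · exact hd₁.mono (fun z hz => ⟨hz.1.1, hreg₁ z hz.1 hz.2⟩)
    · exact hd₂.mono (fun z hz => ⟨hz.1.2, hreg₂ z hz.1 hz.2⟩)
  · intro z hz h
    exact mul_ne_zero (hn₁ z hz.1 (hreg₁ z hz h)) (hn₂ z hz.2 (hreg₂ z hz h))
  · intro k
    obtain ⟨C₁, hC₁⟩ := hk₁ k
    obtain ⟨C₂, hC₂⟩ := hk₂ k
    obtain ⟨E₁, hE₁⟩ := hk₁ 0
    obtain ⟨E₂, hE₂⟩ := hk₂ 0
    refine ⟨|C₁| * |E₂| + |E₁| * |C₂|, ?_⟩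
    intro z hz h
    have a1 := hC₁ z hz.1 (hreg₁ z hz h)
    have a2 := hC₂ z hz.2 (hreg₂ z hz h)
    have a3 := hE₁ z hz.1 (hreg₁ z hz h)
    have a4 := hE₂ z hz.2 (hreg₂ z hz h)
    rw [pow_zero, mul_one] at a3 a4
    have d1 : 0 ≤ infDist z F₁ := infDist_nonneg
    have d2 : 0 ≤ infDist z F₂ := infDist_nonneg
    have d3 : 0 ≤ infDist z (F₁ ∪ F₂) := infDist_nonneg
    rw [norm_mul, add_mul]
    rcases hmin z with h3 | h3
    · have b1 : ‖g₁ z‖ ≤ |C₁| * infDist z (F₁ ∪ F₂) ^ k :=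
        a1.trans ((mul_le_mul_of_nonneg_right (le_abs_self _) (pow_nonneg d1 _)).trans
          (mul_le_mul_of_nonneg_left (pow_le_pow_left₀ d1 h3 _) (abs_nonneg _)))
      have b2 : ‖g₂ z‖ ≤ |E₂| := a4.trans (le_abs_self _)
      have b3 : ‖g₁ z‖ * ‖g₂ z‖ ≤ |C₁| * infDist z (F₁ ∪ F₂) ^ k * |E₂| :=
        mul_le_mul b1 b2 (norm_nonneg _) (by positivity)
      have b4 : 0 ≤ |E₁| * |C₂| * infDist z (F₁ ∪ F₂) ^ k := by positivity
      nlinarith
    · have b1 : ‖g₂ z‖ ≤ |C₂| * infDist z (F₁ ∪ F₂) ^ k :=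
        a2.trans ((mul_le_mul_of_nonneg_right (le_abs_self _) (pow_nonneg d2 _)).trans
          (mul_le_mul_of_nonneg_left (pow_le_pow_left₀ d2 h3 _) (abs_nonneg _)))
      have b2 : ‖g₁ z‖ ≤ |E₁| := a3.trans (le_abs_self _)
      have b3 : ‖g₁ z‖ * ‖g₂ z‖ ≤ |E₁| * (|C₂| * infDist z (F₁ ∪ F₂) ^ k) :=
        mul_le_mul b2 b1 (norm_nonneg _) (abs_nonneg _)
      have b4 : 0 ≤ |C₁| * |E₂| * infDist z (F₁ ∪ F₂) ^ k := by positivity
      nlinarith

/-- If every point `p` of the compact nonempty set `F` has a radius `R > 0` such that all nonempty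
closed subsets of `F ∩ closedBall p R` carry good functions, then `F` carries one. -/
theorem good_cover {ρ : En n → ℝ} {K F : Set (En n)} (hF : IsCompact F) (hFn : F.Nonempty)
    (h : ∀ p ∈ F, ∃ R : ℝ, 0 < R ∧ ∀ F' : Set (En n), F'.Nonempty → IsClosed F' → F' ⊆ F →
      F' ⊆ closedBall p R → ∃ g : En n → ℂ, GoodFor ρ K F' g) :
    ∃ g : En n → ℂ, GoodFor ρ K F g := by
  classical
  have h' : ∀ p : En n, ∃ R : ℝ, 0 < R ∧ (p ∈ F → ∃ g : En n → ℂ,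
      GoodFor ρ K (F ∩ closedBall p R) g) := by
    intro p
    by_cases hp : p ∈ F
    · obtain ⟨R, hR, hg⟩ := h p hp
      refine ⟨R, hR, fun _ => hg _ ⟨p, hp, mem_closedBall_self hR.le⟩
        (hF.isClosed.inter isClosed_closedBall) inter_subset_left inter_subset_right⟩
    · exact ⟨1, one_pos, fun hp' => absurd hp' hp⟩
  choose R hR hg using h'
  obtain ⟨t, htF, ht⟩ := hF.elim_nhds_subcover (fun p => ball p (R p))
    (fun p _ => ball_mem_nhds p (hR p))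
  have hun : F = ⋃ p ∈ t, (F ∩ closedBall p (R p)) := by
    apply Subset.antisymm
    · intro z hz
      have h1 := ht hz
      rw [mem_iUnion₂] at h1 ⊢
      obtain ⟨p, hp, hzp⟩ := h1
      exact ⟨p, hp, hz, ball_subset_closedBall hzp⟩
    · intro z hz
      rw [mem_iUnion₂] at hz
      obtain ⟨p, hp, hzp⟩ := hz
      exact hzp.1
  have htn : t.Nonempty := by
    obtain ⟨z, hz⟩ := hFn
    have h1 := ht hz
    rw [mem_iUnion₂] at h1
    obtain ⟨p, hp, _⟩ := h1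
    exact ⟨p, hp⟩
  have key : ∀ s : Finset (En n), s.Nonempty → (∀ p ∈ s, p ∈ F) →
      ∃ g : En n → ℂ, GoodFor ρ K (⋃ p ∈ s, (F ∩ closedBall p (R p))) g := by
    intro s hs
    induction hs using Finset.Nonempty.cons_induction with
    | singleton a =>
      intro hsF
      obtain ⟨g, hg'⟩ := hg a (hsF a (Finset.mem_singleton_self a))
      refine ⟨g, ?_⟩
      have e : (⋃ p ∈ ({a} : Finset (En n)), (F ∩ closedBall p (R p))) =
          F ∩ closedBall a (R a) := by simp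
      rw [e]
      exact hg'
    | cons a s ha hs ih =>
      intro hsF
      obtain ⟨g₁, hg₁⟩ := hg a (hsF a (Finset.mem_cons_self a s))
      obtain ⟨g₂, hg₂⟩ := ih (fun p hp => hsF p (Finset.mem_cons_of_mem hp))
      have e : (⋃ p ∈ Finset.cons a s ha, (F ∩ closedBall p (R p))) =
          (F ∩ closedBall a (R a)) ∪ ⋃ p ∈ s, (F ∩ closedBall p (R p)) := by
        ext z
        simp only [mem_iUnion₂, Finset.mem_cons, mem_union, exists_prop]
        constructor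
        · rintro ⟨p, hp | hp, hz⟩
          · left; rw [← hp]; exact hz
          · right; exact ⟨p, hp, hz⟩
        · rintro (hz | ⟨p, hp, hz⟩)
          · exact ⟨a, Or.inl rfl, hz⟩
          · exact ⟨p, Or.inr hp, hz⟩
      rw [e]
      refine ⟨_, good_mul ?_ ?_ hg₁ hg₂⟩
      · have haF := hsF a (Finset.mem_cons_self a s)
        exact ⟨a, haF, mem_closedBall_self (hR a).le⟩
      · obtain ⟨p, hp⟩ := hs
        have hpF := hsF p (Finset.mem_cons_of_mem hp)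
        refine ⟨p, ?_⟩
        rw [mem_iUnion₂]
        exact ⟨p, hp, hpF, mem_closedBall_self (hR p).le⟩
  obtain ⟨g, hg'⟩ := key t htn htF
  rw [← hun] at hg'
  exact ⟨g, hg'⟩

end Pool.Agent.H8.FZ
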