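import Pool.Agent.H8.FZ.Piece
import Pool.Agent.H8.FZ.Prod
import Pool.Agent.H8.FZ.Final

/-!
# Assembly for S06843
-/

set_option autoImplicit false

noncomputable section

namespace Pool.Agent.H8.FZ

open Complex Metric MeasureTheory Set Filter Topology
open scoped ContDiff ComplexConjugate

variable {n : ℕ}

theorem main (hn : 2 ≤ n) {D₀ : Set (En n)} {ρ : En n → ℝ} (hne : D₀.Nonempty)
    (hD : Dom D₀ ρ) {E : Set (En n)} (hE : E ⊆ frontier D₀) {f : En n → ℂ}
    (hf : FlatOn D₀ f E) (hz : {z | z ∈ closure D₀ ∧ f z = 0} = E)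
    {F : Set (En n)} (hF : F ⊆ E) (hFc : IsClosed F) :
    ∃ f : En n → ℂ, FlatOn D₀ f F ∧ (∃ z ∈ D₀, f z ≠ 0) ∧
      {z | z ∈ closure D₀ ∧ f z = 0} = F := by
  rcases F.eq_empty_or_nonempty with rfl | hFn
  · refine ⟨fun _ => 1, ⟨?_, ?_, ?_⟩, ?_, ?_⟩
    · exact differentiableOn_const _
    · exact continuousOn_const
    · intro k
      refine ⟨fun z => iteratedFDeriv ℝ k (fun _ : En n => (1 : ℂ)) z, ?_, fun z _ => rfl, ?_⟩
      · exact ((contDiff_const (𝕜 := ℝ) (c := (1 : ℂ)) (n := ∞)).continuous_iteratedFDeriv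
          (by exact_mod_cast le_top)).continuousOn
      · intro z hz
        exact absurd hz (Set.notMem_empty z)
    · obtain ⟨z, hz⟩ := hne
      exact ⟨z, hz, one_ne_zero⟩
    · ext z
      simp
  · have hFf : F ⊆ frontier D₀ := hF.trans hE
    have hcomp : IsCompact F := by
      apply (hD.bdd.isCompact_closure).of_isClosed_subset hFc
      exact hFf.trans frontier_subset_closure
    have hz' : ∀ z ∈ closure D₀, f z = 0 → z ∈ E := by
      intro z hz1 hz2
      rw [← hz]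
      exact ⟨hz1, hz2⟩
    obtain ⟨g, hg⟩ := good_cover (ρ := ρ) (K := closure D₀) hcomp hFn (by
      intro p hp
      obtain ⟨R, hR, h⟩ := loc_orig hn hD hE hf hz' hF hp
      refine ⟨R, hR, ?_⟩
      intro F' h1 h2 h3 h4
      obtain ⟨M, δ, H, hδ, hM, hH, hHk⟩ := h F' h1 h2 h3 h4
      exact piece hD hR h1 h2 (h3.trans hFf) h4 hδ hM hH hHk)
    exact final hD hne hFn hFc hFf hg

end Pool.Agent.H8.FZ
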