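import Pool.Agent.H8.FZ.LocOrig
import Pool.Agent.H8.FZ.CousinNbhd

/-!
# FZ-PIECE: globalising a local piece

Let `R, M, δ₁, H` be as in `loc_orig` for `F' ⊆ closedBall p R`,
`N = {z ∈ ball p (4R) : ρ z < δ₁ infDist z F'^M}` (open). Let `χ` be a smooth bump function,
`χ = 1` on `closedBall p (5R/4)`, `χ = 0` off `ball p (3R/2)`. The compact set
`A = closedBall p (3R/2) \ ball p (5R/4)` does not meet `F'`; on `A ∩ closure D₀` we have `ρ ≤ 0` and
`infDist z F' > 0`, so `A ∩ closure D₀ ⊆ N`. Choose an open `O ⊇ closure D₀` with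
`A ∩ closure O ⊆ N`, `O` bounded (compactness; e.g. `O = {z : infDist z (closure D₀) < s}`,
`s` small). Apply `cousin_nbhd` to this `O`: `Ω`.
`Ua = (closedBall p (3R/2))ᶜ ∪ ball p (5R/4)`, `Ub = N`, `v = χ H`. `v` is smooth on `Ub`
(`holo_contDiffOn_real`), holomorphic on `Ua ∩ Ub` (there `χ` is locally constant), and
`∂̄v = H ∂̄χ` is bounded on `Ub ∩ Ω` since it vanishes off the compact subset `A ∩ closure O` of `N` and
is continuous on `N`. Cover: `Ω \ Ua ⊆ A ∩ O ⊆ N`. We get `u`: holomorphic on `Ua ∩ Ω`, `u - v`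
holomorphic on `N ∩ Ω`; in particular `u` is continuous on `Ω`.

`g = exp(u - χH)`. Let `O'` be open bounded with `closure D₀ ⊆ O'`, `closure O' ⊆ Ω` compact,
`u` bounded on `closure O'`; and `δ ≤ δ₁/2` so small (and `O'` so small) that
`N' = {z ∈ O' : ρ z < δ infDist z F'^M}` satisfies: `N' ∩ ball p (2R) ⊆ N`. Then `g` is holomorphic on
`N'`: on `N' ∩ N` because `u - v` is; on `N' \ closedBall p (3R/2)` because `χ = 0` near and `u` is
holomorphic on `Ua ∩ Ω`; these two open sets cover `N'`. `g` has no zeros. Bounds: `z ∈ N'`,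
`‖z - p‖ < 5R/4`: `‖g‖ ≤ e^{sup|u|} e^{-re H} ≤ C infDist z F'^k` (`loc_orig`). For
`‖z - p‖ ≥ 5R/4`: `‖g‖ ≤ C` because on `A`, `H` is bounded on the compact set `A ∩ closure O'`, and
off `A` `χ = 0`; and `infDist z F' ≥ R/4` so `1 ≤ C infDist^k`.
-/

set_option autoImplicit false

noncomputable section

namespace Pool.Agent.H8.FZ

open Complex Metric MeasureTheory Set Filter Topology
open scoped ContDiff ComplexConjugate

variable {n : ℕ}

/-- Globalisation of one local piece (the output of `loc_orig` is the hypothesis). -/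
theorem piece {D₀ : Set (En n)} {ρ : En n → ℝ} (hD : Dom D₀ ρ) {p : En n} {R : ℝ} (hR : 0 < R)
    {F' : Set (En n)} (hn : F'.Nonempty) (hc : IsClosed F') (hF : F' ⊆ frontier D₀)
    (hb : F' ⊆ closedBall p R) {M : ℕ} {δ : ℝ} {H : En n → ℂ} (hδ : 0 < δ)
    (hM : 1 ≤ M)
    (hH : DifferentiableOn ℂ H {z | z ∈ ball p (4 * R) ∧ ρ z < δ * infDist z F' ^ M})
    (hHk : ∀ k : ℕ, ∃ C : ℝ, ∀ z ∈ ball p (2 * R), ρ z < δ * infDist z F' ^ M →
      k * Real.log (1 / infDist z F') - C ≤ (H z).re) :
    ∃ g : En n → ℂ, GoodFor ρ (closure D₀) F' g := by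
  classical
  have hρc : Continuous ρ := hD.smooth.continuous
  have hdc : Continuous (fun z : En n => infDist z F') := continuous_infDist_pt F'
  set N : Set (En n) := {z | z ∈ ball p (4 * R) ∧ ρ z < δ * infDist z F' ^ M} with hN
  have hNo : IsOpen N := by
    have h1 : IsOpen {z : En n | ρ z < δ * infDist z F' ^ M} :=
      isOpen_lt hρc (continuous_const.mul (hdc.pow M))
    exact isOpen_ball.inter h1
  set A : Set (En n) := closedBall p (3 * R / 2) \ ball p (5 * R / 4) with hA
  have hAc : IsCompact A := (isCompact_closedBall p (3 * R / 2)).diff isOpen_ball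
  have hfar : ∀ z : En n, 5 * R / 4 ≤ dist z p → R / 4 ≤ infDist z F' := by
    intro z hz
    rw [le_infDist hn]
    intro x hx
    have h1 : dist x p ≤ R := hb hx
    have h2 : dist z p ≤ dist z x + dist x p := dist_triangle _ _ _
    linarith
  have hpos : ∀ z : En n, 5 * R / 4 ≤ dist z p → ρ z ≤ 0 → dist z p < 4 * R → z ∈ N := by
    intro z hz1 hz2 hz3
    refine ⟨hz3, lt_of_le_of_lt hz2 ?_⟩
    have h1 : 0 < infDist z F' := lt_of_lt_of_le (by positivity) (hfar z hz1)
    positivity
  have hcl : closure D₀ = {z | ρ z ≤ 0} := closure_eq hD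
  have hcomp : IsCompact (closure D₀) := hD.bdd.isCompact_closure
  have hG : closure D₀ ⊆ Aᶜ ∪ N := by
    intro z hz
    rw [hcl] at hz
    by_cases h : z ∈ A
    · right
      refine hpos z ?_ hz ?_
      · have := h.2
        rw [mem_ball, not_lt] at this
        exact this
      · have := h.1
        rw [mem_closedBall] at this
        linarith
    · left; exact h
  obtain ⟨s, hs, hsG⟩ := hcomp.exists_cthickening_subset_open (hAc.isClosed.isOpen_compl.union hNo) hG
  set O : Set (En n) := thickening s (closure D₀) with hO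
  obtain ⟨Ω, hΩ, hDΩ, hΩO, hsolve⟩ := cousin_nbhd hD (O := O) isOpen_thickening
    (self_subset_thickening hs _)
  have hOG : O ⊆ Aᶜ ∪ N := (thickening_subset_cthickening _ _).trans hsG
  obtain ⟨s', hs', hs'Ω⟩ := hcomp.exists_cthickening_subset_open hΩ hDΩ
  -- the bump function
  let χ : ContDiffBump p := ⟨5 * R / 4, 3 * R / 2, by positivity, by linarith⟩
  have hχs : ContDiff ℝ ∞ (fun z : En n => χ z) := χ.contDiff
  have hχ1 : ∀ z : En n, dist z p ≤ 5 * R / 4 → χ z = 1 := fun z hz =>
    χ.one_of_mem_closedBall hz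
  have hχ0 : ∀ z : En n, 3 * R / 2 ≤ dist z p → χ z = 0 := fun z hz =>
    χ.zero_of_le_dist hz
  set v : En n → ℂ := fun z => (χ z : ℂ) * H z with hv
  set Ua : Set (En n) := (closedBall p (3 * R / 2))ᶜ ∪ ball p (5 * R / 4) with hUa
  have hUao : IsOpen Ua := (isClosed_closedBall.isOpen_compl).union isOpen_ball
  have hUaA : ∀ z, z ∉ Ua → z ∈ A := by
    intro z hz
    rw [hUa, mem_union, not_or] at hz
    refine ⟨Set.notMem_compl_iff.mp hz.1, hz.2⟩
  have hHat : ∀ z ∈ N, DifferentiableAt ℂ H z := fun z hz => hH.differentiableAt (hNo.mem_nhds hz)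
  have hvat : ∀ z ∈ Ua, z ∈ N → DifferentiableAt ℂ v z := by
    intro z hz hzN
    rcases hz with hz | hz
    · have h1 : v =ᶠ[𝓝 z] fun _ => 0 := by
        filter_upwards [isClosed_closedBall.isOpen_compl.mem_nhds hz] with x hx
        have h2 : 3 * R / 2 ≤ dist x p := by
          rw [mem_compl_iff, mem_closedBall, not_le] at hx
          exact hx.le
        simp only [hv, hχ0 x h2, Complex.ofReal_zero, zero_mul]
      exact (differentiableAt_const (0 : ℂ)).congr_of_eventuallyEq h1
    · have h1 : v =ᶠ[𝓝 z] H := by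
        filter_upwards [isOpen_ball.mem_nhds hz] with x hx
        simp only [hv, hχ1 x (mem_ball.mp hx).le, Complex.ofReal_one, one_mul]
      exact (hHat z hzN).congr_of_eventuallyEq h1
  have hHr : ContDiffOn ℝ ∞ H N := holo_contDiffOn_real hNo hH
  have hvs : ContDiffOn ℝ ∞ v N := by
    have h1 : ContDiff ℝ ∞ (fun z : En n => (χ z : ℂ)) := Complex.ofRealCLM.contDiff.comp hχs
    exact h1.contDiffOn.mul hHr
  -- the bound for `∂̄v`
  have hKc : IsCompact (A ∩ cthickening s (closure D₀)) :=
    hAc.inter_right isClosed_cthickening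
  have hKN : A ∩ cthickening s (closure D₀) ⊆ N := by
    rintro z ⟨h1, h2⟩
    rcases hsG h2 with h3 | h3
    · exact absurd h1 h3
    · exact h3
  have hB : ∃ B : ℝ, ∀ z ∈ N ∩ Ω, ∀ k, ‖dbar k v z‖ ≤ B := by
    have h1 : ∀ k : Fin n, ∃ B : ℝ, ∀ z ∈ A ∩ cthickening s (closure D₀), ‖dbar k v z‖ ≤ B := by
      intro k
      exact hKc.exists_bound_of_continuousOn
        (((contDiffOn_dbar hNo hvs k).continuousOn).mono hKN)
    choose B hB using h1
    refine ⟨∑ k, |B k|, ?_⟩
    rintro z ⟨hzN, hzΩ⟩ k
    have h3 : |B k| ≤ ∑ k, |B k| := Finset.single_le_sum (f := fun k => |B k|)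
      (fun i _ => abs_nonneg _) (Finset.mem_univ k)
    by_cases hz : z ∈ Ua
    · rw [dbar_of_holo (hvat z hz hzN) k, norm_zero]
      exact (abs_nonneg _).trans h3
    · have h4 : z ∈ A ∩ cthickening s (closure D₀) :=
        ⟨hUaA z hz, thickening_subset_cthickening _ _ (hΩO hzΩ)⟩
      exact (hB k z h4).trans ((le_abs_self _).trans h3)
  obtain ⟨B, hB⟩ := hB
  obtain ⟨u, hu1, hu2⟩ := hsolve Ua N v B hUao hNo (by
      intro z hz
      by_cases h : z ∈ Ua
      · left; exact h
      · right
        rcases hOG (hΩO hz) with h1 | h1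
        · exact absurd (hUaA z h) h1
        · exact h1)
    (hvs.mono inter_subset_left)
    (fun z hz => (hvat z hz.1.1 hz.1.2).differentiableWithinAt) hB
  -- `u` is continuous on `Ω`
  have huc : ContinuousOn u Ω := by
    intro z hz
    apply ContinuousAt.continuousWithinAt
    by_cases h : z ∈ Ua
    · exact (hu1.differentiableAt ((hUao.inter hΩ).mem_nhds ⟨h, hz⟩)).continuousAt
    · have hzN : z ∈ N := by
        rcases hOG (hΩO hz) with h1 | h1
        · exact absurd (hUaA z h) h1
        · exact h1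
      have h1 : ContinuousAt (fun x => u x - v x) z :=
        (hu2.differentiableAt ((hNo.inter hΩ).mem_nhds ⟨hzN, hz⟩)).continuousAt
      have h2 : ContinuousAt v z := (hvs.continuousOn).continuousAt (hNo.mem_nhds hzN)
      have h3 := h1.add h2
      have h4 : ((fun x => u x - v x) + v) = u := by
        funext x
        simp
      rw [h4] at h3
      exact h3
  have hK' : IsCompact (cthickening s' (closure D₀)) := hcomp.cthickening
  obtain ⟨Cu, hCu⟩ := hK'.exists_bound_of_continuousOn (huc.mono hs'Ω)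
  have hAK' : A ∩ cthickening s' (closure D₀) ⊆ N := by
    rintro z ⟨h1, h2⟩
    rcases hOG (hΩO (hs'Ω h2)) with h3 | h3
    · exact absurd h1 h3
    · exact h3
  obtain ⟨CH, hCH⟩ := (hAc.inter_right (isClosed_cthickening (δ := s')
    (E := closure D₀))).exists_bound_of_continuousOn ((hH.continuousOn).mono hAK')
  have hO'K' : thickening s' (closure D₀) ⊆ cthickening s' (closure D₀) :=
    thickening_subset_cthickening _ _
  have hdpos : ∀ z : En n, ρ z < δ * infDist z F' ^ M → 0 < infDist z F' := by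
    intro z hz
    rcases (infDist_nonneg (x := z) (s := F')).lt_or_eq with h | h
    · exact h
    · exfalso
      have h1 : z ∈ F' := (hc.mem_iff_infDist_zero hn).mpr h.symm
      have h2 : ρ z = 0 := by
        have := hF h1
        rw [frontier_eq hD] at this
        exact this
      rw [← h, zero_pow (by omega), mul_zero, h2] at hz
      exact lt_irrefl _ hz
  refine ⟨fun z => Complex.exp (u z - (χ z : ℂ) * H z), thickening s' (closure D₀), M, δ,
    isOpen_thickening, self_subset_thickening hs' _, hD.bdd.closure.thickening, hδ, hM, ?_, ?_, ?_⟩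
  · rintro z ⟨hz1, hz2⟩
    have hzΩ : z ∈ Ω := hs'Ω (hO'K' hz1)
    apply DifferentiableAt.differentiableWithinAt
    by_cases h : dist z p < 4 * R
    · have hzN : z ∈ N := ⟨h, hz2⟩
      exact (hu2.differentiableAt ((hNo.inter hΩ).mem_nhds ⟨hzN, hzΩ⟩)).cexp
    · rw [not_lt] at h
      have h4 : z ∈ (closedBall p (3 * R / 2))ᶜ := by
        rw [mem_compl_iff, mem_closedBall, not_le]
        linarith
      have h5 : DifferentiableAt ℂ u z :=
        hu1.differentiableAt ((hUao.inter hΩ).mem_nhds ⟨Or.inl h4, hzΩ⟩)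
      refine h5.cexp.congr_of_eventuallyEq ?_
      filter_upwards [isClosed_closedBall.isOpen_compl.mem_nhds h4] with x hx
      have h2 : 3 * R / 2 ≤ dist x p := by
        rw [mem_compl_iff, mem_closedBall, not_le] at hx
        exact hx.le
      rw [hχ0 x h2, Complex.ofReal_zero, zero_mul, sub_zero]
  · intro z _ _
    exact Complex.exp_ne_zero _
  · intro k
    obtain ⟨C, hC⟩ := hHk k
    refine ⟨Real.exp (Cu + C) + Real.exp (Cu + |CH|) / (R / 4) ^ k, ?_⟩
    intro z hz1 hz2
    have hd := hdpos z hz2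
    have hzK := hO'K' hz1
    have hun : (u z).re ≤ Cu := (Complex.re_le_norm _).trans (hCu z hzK)
    have hdk : 0 < infDist z F' ^ k := by positivity
    rw [Complex.norm_exp, Complex.sub_re, Complex.re_ofReal_mul]
    rw [add_mul]
    by_cases h : dist z p < 5 * R / 4
    · have h1 := hC z (by rw [mem_ball]; linarith) hz2
      rw [hχ1 z h.le, one_mul]
      have h2 : Real.exp ((u z).re - (H z).re) ≤ Real.exp (Cu + C) * infDist z F' ^ k := by
        have h3 : infDist z F' ^ k = Real.exp (k * Real.log (infDist z F')) := by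
          rw [← Real.log_pow, Real.exp_log hdk]
        rw [h3, ← Real.exp_add]
        apply Real.exp_le_exp.mpr
        rw [one_div, Real.log_inv] at h1
        linarith
      have h4 : 0 ≤ Real.exp (Cu + |CH|) / (R / 4) ^ k * infDist z F' ^ k := by positivity
      linarith
    · rw [not_lt] at h
      have h1 := hfar z h
      have h2 : (u z).re - χ z * (H z).re ≤ Cu + |CH| := by
        by_cases h3 : 3 * R / 2 ≤ dist z p
        · rw [hχ0 z h3, zero_mul]
          have := abs_nonneg CH
          linarith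
        · rw [not_le] at h3
          have h4 : z ∈ A ∩ cthickening s' (closure D₀) :=
            ⟨⟨mem_closedBall.mpr h3.le, fun h5 => absurd (mem_ball.mp h5) (not_lt.mpr h)⟩, hzK⟩
          have h5 : |(H z).re| ≤ CH := (Complex.abs_re_le_norm _).trans (hCH z h4)
          have h6 : |χ z * (H z).re| ≤ CH := by
            rw [abs_mul, abs_of_nonneg χ.nonneg]
            calc χ z * |(H z).re| ≤ 1 * |(H z).re| :=
                  mul_le_mul_of_nonneg_right χ.le_one (abs_nonneg _)
              _ ≤ CH := by rw [one_mul]; exact h5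
          have h7 := neg_le_of_abs_le h6
          have := le_abs_self CH
          linarith
      have h3 : Real.exp ((u z).re - χ z * (H z).re) ≤ Real.exp (Cu + |CH|) :=
        Real.exp_le_exp.mpr h2
      have h4 : (R / 4) ^ k ≤ infDist z F' ^ k := pow_le_pow_left₀ (by positivity) h1 k
      have h5 : Real.exp (Cu + |CH|) ≤
          Real.exp (Cu + |CH|) / (R / 4) ^ k * infDist z F' ^ k := by
        rw [div_mul_eq_mul_div, le_div_iff₀ (by positivity)]
        exact mul_le_mul_of_nonneg_left h4 (Real.exp_pos _).le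
      have h6 : 0 ≤ Real.exp (Cu + C) * infDist z F' ^ k := by positivity
      linarith

end Pool.Agent.H8.FZ
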